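import Pool.Agent.Lib.P1ae5.AllDefs

/-!
P1ae5.AllBasic (MP_1ae5d5_an).

Regularity: `qq` is a polynomial, `‖qq z‖ ≤ ‖z‖^2 < 1` on the ball, so `1 - qq z ≠ 0`.
`VLJ l J` is holomorphic for symmetric `J`: its `J`-part is the complex quadratic map
`∑_{i,j} z_i z_j J(e_i,e_j)` (for `z = x + i y`, `J(x,x) - J(y,y) + 2 i J(x,y)`, with
`J(x,y) = ∑ x_i y_j J(e_i, e_j)` and `J(e_i,e_j) = J(e_j,e_i)`). `VLJ` is homogeneous of degree 2,
hence `fderiv = A` at `0`.
`hLJ_inj`: equality on the ball gives `VLJ l J z = VLJ l' J' z` on the ball; at `z = ofR x`,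
`x` small real, real parts: `(d.x) x + |x|^2 d = 0` for `d = l - l'`, with `x` a small positive
multiple of `d`: `d = 0`; imaginary parts: `J(x,x) = J'(x,x)`, so `J = J'` by homogeneity and
polarization (both symmetric).
-/

open Metric

namespace Pool.Agent.P1ae5

namespace AllBasicAux

theorem coord_diff {n : ℕ} (i : Fin n) : Differentiable ℂ (fun z : Cn n => z i) :=
  (EuclideanSpace.proj i : Cn n →L[ℂ] ℂ).differentiable

theorem ofR_apply {n : ℕ} (x : RV n) (i : Fin n) : ofR x i = ((x i : ℝ) : ℂ) := rfl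

/-- the coefficients -/
theorem J_eq {n : ℕ} (J : Bil n) (x y : RV n) (m : Fin n) :
    J x y m = ∑ i, ∑ j, x i * y j * J (Pi.single i 1) (Pi.single j 1) m := by
  have hx : x = ∑ i, x i • (Pi.single i (1 : ℝ) : RV n) := by
    conv_lhs => rw [pi_eq_sum_univ' x]
  have hy : y = ∑ j, y j • (Pi.single j (1 : ℝ) : RV n) := by
    conv_lhs => rw [pi_eq_sum_univ' y]
  conv_lhs => rw [hx, hy]
  rw [map_sum J, LinearMap.sum_apply, Finset.sum_apply]
  refine Finset.sum_congr rfl fun i _ => ?_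
  rw [map_sum, Finset.sum_apply]
  refine Finset.sum_congr rfl fun j _ => ?_
  rw [map_smul, map_smul, LinearMap.smul_apply, Pi.smul_apply, Pi.smul_apply, smul_eq_mul,
    smul_eq_mul]
  ring

/-- the complexification of `J` on the diagonal -/
noncomputable def QJ {n : ℕ} (J : Bil n) (z : Cn n) : Cn n :=
  ofR (J (reV z) (reV z) - J (imV z) (imV z)) + (2 * Complex.I) • ofR (J (reV z) (imV z))

theorem QJ_apply {n : ℕ} (J : Bil n) (z : Cn n) (m : Fin n) :
    QJ J z m = ((J (reV z) (reV z) m : ℝ) : ℂ) - ((J (imV z) (imV z) m : ℝ) : ℂ) +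
      2 * Complex.I * ((J (reV z) (imV z) m : ℝ) : ℂ) := by
  simp [QJ, ofR_apply]

theorem QJ_poly {n : ℕ} {J : Bil n} (hJ : ∀ x y, J x y = J y x) (z : Cn n) (m : Fin n) :
    QJ J z m = ∑ i, ∑ j, z i * z j * ((J (Pi.single i 1) (Pi.single j 1) m : ℝ) : ℂ) := by
  rw [QJ_apply]
  have h1 : 2 * Complex.I * ((J (reV z) (imV z) m : ℝ) : ℂ) =
      Complex.I * ((J (reV z) (imV z) m : ℝ) : ℂ) +
      Complex.I * ((J (imV z) (reV z) m : ℝ) : ℂ) := by
    rw [hJ (imV z) (reV z)]
    ring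
  rw [h1, J_eq J (reV z) (reV z), J_eq J (imV z) (imV z), J_eq J (reV z) (imV z),
    J_eq J (imV z) (reV z)]
  push_cast
  rw [Finset.mul_sum, Finset.mul_sum, ← Finset.sum_sub_distrib, ← Finset.sum_add_distrib,
    ← Finset.sum_add_distrib]
  refine Finset.sum_congr rfl fun i _ => ?_
  rw [Finset.mul_sum, Finset.mul_sum, ← Finset.sum_sub_distrib, ← Finset.sum_add_distrib,
    ← Finset.sum_add_distrib]
  refine Finset.sum_congr rfl fun j _ => ?_
  have hi : z i = ((reV z i : ℝ) : ℂ) + ((imV z i : ℝ) : ℂ) * Complex.I :=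
    (Complex.re_add_im (z i)).symm
  have hj : z j = ((reV z j : ℝ) : ℂ) + ((imV z j : ℝ) : ℂ) * Complex.I :=
    (Complex.re_add_im (z j)).symm
  rw [hi, hj]
  linear_combination (-((imV z i : ℝ) : ℂ) * ((imV z j : ℝ) : ℂ) *
    ((J (Pi.single i 1) (Pi.single j 1) m : ℝ) : ℂ)) * Complex.I_mul_I

theorem VLJ_apply {n : ℕ} (l : RV n) (J : Bil n) (z : Cn n) (m : Fin n) :
    VLJ l J z m = (1 / 2 : ℂ) * (∑ i, (l i : ℂ) * z i) * z m + (1 / 2 : ℂ) * qq z * (l m : ℂ) +
      Complex.I * QJ J z m := by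
  simp only [VLJ, QJ, PiLp.add_apply, PiLp.smul_apply, smul_eq_mul, ofR_apply]

theorem diff_qq {n : ℕ} : Differentiable ℂ (qq : Cn n → ℂ) := by
  unfold qq
  exact Differentiable.fun_sum fun i _ => (coord_diff i).pow 2

theorem diff_of_coord {n : ℕ} {f : Cn n → Cn n} (h : ∀ m, Differentiable ℂ fun z => f z m) :
    Differentiable ℂ f := differentiable_euclidean.2 h

theorem qq_smul {n : ℕ} (t : ℂ) (z : Cn n) : qq (t • z) = t ^ 2 * qq z := by
  unfold qq
  rw [Finset.mul_sum]
  refine Finset.sum_congr rfl fun i _ => ?_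
  rw [PiLp.smul_apply, smul_eq_mul]
  ring

theorem VLJ_smul_arg {n : ℕ} (l : RV n) {J : Bil n} (hJ : ∀ x y, J x y = J y x) (t : ℂ)
    (z : Cn n) : VLJ l J (t • z) = t ^ 2 • VLJ l J z := by
  ext m
  rw [PiLp.smul_apply, VLJ_apply, VLJ_apply, QJ_poly hJ, QJ_poly hJ, qq_smul, smul_eq_mul,
    PiLp.smul_apply, smul_eq_mul]
  have h1 : ∑ i, (l i : ℂ) * (t • z) i = t * ∑ i, (l i : ℂ) * z i := by
    rw [Finset.mul_sum]
    refine Finset.sum_congr rfl fun i _ => ?_
    rw [PiLp.smul_apply, smul_eq_mul]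
    ring
  have h2 : ∑ i, ∑ j, (t • z) i * (t • z) j * ((J (Pi.single i 1) (Pi.single j 1) m : ℝ) : ℂ) =
      t ^ 2 * ∑ i, ∑ j, z i * z j * ((J (Pi.single i 1) (Pi.single j 1) m : ℝ) : ℂ) := by
    rw [Finset.mul_sum]
    refine Finset.sum_congr rfl fun i _ => ?_
    rw [Finset.mul_sum]
    refine Finset.sum_congr rfl fun j _ => ?_
    rw [PiLp.smul_apply, PiLp.smul_apply, smul_eq_mul, smul_eq_mul]
    ring
  rw [h1, h2]
  ring

theorem QJ_add {n : ℕ} (J J' : Bil n) (z : Cn n) : QJ (J + J') z = QJ J z + QJ J' z := by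
  ext m
  rw [PiLp.add_apply, QJ_apply, QJ_apply, QJ_apply]
  simp only [LinearMap.add_apply, Pi.add_apply, Complex.ofReal_add]
  ring

theorem QJ_smul {n : ℕ} (t : ℝ) (J : Bil n) (z : Cn n) : QJ (t • J) z = (t : ℂ) • QJ J z := by
  ext m
  rw [PiLp.smul_apply, QJ_apply, QJ_apply]
  simp only [LinearMap.smul_apply, Pi.smul_apply, smul_eq_mul, Complex.ofReal_mul]
  ring

theorem VLJ_add {n : ℕ} (l l' : RV n) (J J' : Bil n) (z : Cn n) :
    VLJ (l + l') (J + J') z = VLJ l J z + VLJ l' J' z := by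
  ext m
  rw [PiLp.add_apply, VLJ_apply, VLJ_apply, VLJ_apply, QJ_add, PiLp.add_apply]
  simp only [Pi.add_apply, Complex.ofReal_add, add_mul, Finset.sum_add_distrib]
  ring

theorem VLJ_rsmul {n : ℕ} (t : ℝ) (l : RV n) (J : Bil n) (z : Cn n) :
    VLJ (t • l) (t • J) z = (t : ℂ) • VLJ l J z := by
  ext m
  rw [PiLp.smul_apply, VLJ_apply, VLJ_apply, QJ_smul, PiLp.smul_apply]
  simp only [Pi.smul_apply, smul_eq_mul, Complex.ofReal_mul, mul_assoc, ← Finset.mul_sum]
  ring

theorem VLJ_ofR {n : ℕ} (l : RV n) (J : Bil n) (x : RV n) (m : Fin n) :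
    VLJ l J (ofR x) m = (((rdot l x * x m + rdot x x * l m) / 2 : ℝ) : ℂ) +
      ((J x x m : ℝ) : ℂ) * Complex.I := by
  have h1 : reV (ofR x) = x := by
    funext i
    simp [reV, ofR_apply]
  have h2 : imV (ofR x) = 0 := by
    funext i
    simp [imV, ofR_apply]
  rw [VLJ_apply, QJ_apply, h1, h2]
  simp only [ofR_apply, qq, rdot, map_zero, Pi.zero_apply, Complex.ofReal_zero, mul_zero,
    add_zero, sub_zero]
  push_cast
  have h3 : ∑ i, ((x i : ℝ) : ℂ) ^ 2 = ∑ i, ((x i : ℝ) : ℂ) * ((x i : ℝ) : ℂ) :=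
    Finset.sum_congr rfl fun i _ => by ring
  rw [h3]
  ring

end AllBasicAux

open AllBasicAux

theorem norm_qq_le {n : ℕ} (z : Cn n) : ‖qq z‖ ≤ ‖z‖ ^ 2 := by
  unfold qq
  rw [EuclideanSpace.norm_sq_eq]
  refine (norm_sum_le _ _).trans (le_of_eq ?_)
  exact Finset.sum_congr rfl fun i _ => norm_pow _ _

theorem one_sub_qq_ne {n : ℕ} {z : Cn n} (hz : z ∈ ball (0 : Cn n) 1) : 1 - qq z ≠ 0 := by
  intro h
  have h1 : qq z = 1 := (sub_eq_zero.1 h).symm
  have h2 := norm_qq_le z
  rw [h1, norm_one] at h2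
  rw [mem_ball_zero_iff] at hz
  nlinarith [norm_nonneg z]

theorem diff_VLJ {n : ℕ} (l : RV n) {J : Bil n} (hJ : ∀ x y, J x y = J y x) :
    Differentiable ℂ (VLJ l J) := by
  refine diff_of_coord fun m => ?_
  have h : (fun z => VLJ l J z m) = fun z : Cn n =>
      (1 / 2 : ℂ) * (∑ i, (l i : ℂ) * z i) * z m + (1 / 2 : ℂ) * qq z * (l m : ℂ) +
      Complex.I * ∑ i, ∑ j, z i * z j * ((J (Pi.single i 1) (Pi.single j 1) m : ℝ) : ℂ) := by
    funext z
    rw [VLJ_apply, QJ_poly hJ]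
  rw [h]
  refine Differentiable.add (Differentiable.add (Differentiable.mul (Differentiable.const_mul
    (Differentiable.fun_sum fun i _ => (coord_diff i).const_mul _) _) (coord_diff m))
    ((diff_qq.const_mul _).mul_const _)) (Differentiable.const_mul
    (Differentiable.fun_sum fun i _ => Differentiable.fun_sum fun j _ =>
      ((coord_diff i).mul (coord_diff j)).mul_const _) _)

theorem diff_hLJ {n : ℕ} (A : Cn n →L[ℂ] Cn n) (l : RV n) {J : Bil n}
    (hJ : ∀ x y, J x y = J y x) : DifferentiableOn ℂ (hLJ A l J) (ball 0 1) := by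
  have hq : DifferentiableOn ℂ (qq : Cn n → ℂ) (ball 0 1) := diff_qq.differentiableOn
  have h0 : DifferentiableOn ℂ (fun z : Cn n => (1 - qq z)⁻¹) (ball 0 1) :=
    ((differentiableOn_const (1 : ℂ)).fun_sub hq).fun_inv fun z hz => one_sub_qq_ne hz
  have h1 : DifferentiableOn ℂ (fun z : Cn n => (1 + qq z) / (1 - qq z)) (ball 0 1) := by
    simp only [div_eq_mul_inv]
    exact ((differentiableOn_const (1 : ℂ)).fun_add hq).fun_mul h0
  have h2 : DifferentiableOn ℂ (fun z : Cn n => 1 / (1 - qq z)) (ball 0 1) := by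
    simp only [one_div]
    exact h0
  exact ((h1.smul (herm A).differentiable.differentiableOn).add
    (h2.smul (diff_VLJ l hJ).differentiableOn)).add
    (A.differentiable.differentiableOn.sub (herm A).differentiable.differentiableOn)

theorem hLJ_zero {n : ℕ} (A : Cn n →L[ℂ] Cn n) (l : RV n) (J : Bil n) : hLJ A l J 0 = 0 := by
  have h1 : VLJ l J 0 = 0 := by
    have e1 : reV (0 : Cn n) = 0 := by
      funext i
      simp [reV]
    have e2 : imV (0 : Cn n) = 0 := by
      funext i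
      simp [imV]
    ext m
    rw [VLJ_apply, QJ_apply, e1, e2]
    simp [qq]
  unfold hLJ
  rw [h1]
  simp

theorem fderiv_hLJ {n : ℕ} (A : Cn n →L[ℂ] Cn n) (l : RV n) {J : Bil n}
    (hJ : ∀ x y, J x y = J y x) : fderiv ℂ (hLJ A l J) 0 = A := by
  have hd : DifferentiableAt ℂ (hLJ A l J) 0 :=
    (diff_hLJ A l hJ).differentiableAt (isOpen_ball.mem_nhds (mem_ball_self one_pos))
  ext1 w
  -- derivative along the line
  have h1 : HasDerivAt (fun t : ℂ => hLJ A l J (t • w)) (fderiv ℂ (hLJ A l J) 0 w) 0 := by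
    have hl : HasDerivAt (fun t : ℂ => t • w) w 0 := by
      simpa using (hasDerivAt_id (0 : ℂ)).smul_const w
    have hd' : HasFDerivAt (hLJ A l J) (fderiv ℂ (hLJ A l J) 0) ((0 : ℂ) • w) := by
      rw [zero_smul]
      exact hd.hasFDerivAt
    exact hd'.comp_hasDerivAt (0 : ℂ) hl
  have h2 : HasDerivAt (fun t : ℂ => hLJ A l J (t • w)) (A w) 0 := by
    have e : (fun t : ℂ => hLJ A l J (t • w)) = fun t : ℂ =>
        (((1 + t ^ 2 * qq w) / (1 - t ^ 2 * qq w)) * t) • herm A w +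
        ((1 / (1 - t ^ 2 * qq w)) * t ^ 2) • VLJ l J w + t • (A w - herm A w) := by
      funext t
      unfold hLJ
      rw [qq_smul, VLJ_smul_arg l hJ, map_smul, map_smul, smul_smul, smul_smul, smul_sub]
    rw [e]
    have hp : HasDerivAt (fun t : ℂ => t ^ 2 * qq w) 0 0 := by
      have := (hasDerivAt_pow 2 (0 : ℂ)).mul_const (qq w)
      simpa using this
    have hn : HasDerivAt (fun t : ℂ => 1 + t ^ 2 * qq w) 0 0 := by
      simpa using hp.const_add 1
    have hm : HasDerivAt (fun t : ℂ => 1 - t ^ 2 * qq w) 0 0 := by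
      simpa using hp.const_sub 1
    have hne : (1 : ℂ) - (0 : ℂ) ^ 2 * qq w ≠ 0 := by simp
    have hq1 : HasDerivAt (fun t : ℂ => (1 + t ^ 2 * qq w) / (1 - t ^ 2 * qq w)) 0 0 := by
      simpa using hn.fun_div hm hne
    have hq2 : HasDerivAt (fun t : ℂ => 1 / (1 - t ^ 2 * qq w)) 0 0 := by
      have := (hasDerivAt_const (0 : ℂ) (1 : ℂ)).fun_div hm hne
      simpa only [zero_mul, mul_zero, sub_zero, zero_div] using this
    have hf1 : HasDerivAt (fun t : ℂ => ((1 + t ^ 2 * qq w) / (1 - t ^ 2 * qq w)) * t) 1 0 := by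
      have := hq1.fun_mul (hasDerivAt_id' (0 : ℂ))
      simpa using this
    have hf2 : HasDerivAt (fun t : ℂ => (1 / (1 - t ^ 2 * qq w)) * t ^ 2) 0 0 := by
      have := hq2.fun_mul (hasDerivAt_pow 2 (0 : ℂ))
      simpa using this
    have h3 := ((hf1.smul_const (herm A w)).add (hf2.smul_const (VLJ l J w))).add
      ((hasDerivAt_id (0 : ℂ)).smul_const (A w - herm A w))
    have e2 : (1 : ℂ) • herm A w + (0 : ℂ) • VLJ l J w + (1 : ℂ) • (A w - herm A w) = A w := by
      rw [one_smul, zero_smul, one_smul]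
      abel
    rw [e2] at h3
    exact h3
  exact h1.unique h2

theorem hLJ_inj {n : ℕ} (A : Cn n →L[ℂ] Cn n) {l l' : RV n} {J J' : Bil n}
    (hJ : IsTan J) (hJ' : IsTan J')
    (h : ∀ z ∈ ball (0 : Cn n) 1, hLJ A l J z = hLJ A l' J' z) : l = l' ∧ J = J' := by
  have hV : ∀ z ∈ ball (0 : Cn n) 1, VLJ l J z = VLJ l' J' z := by
    intro z hz
    have h1 := h z hz
    unfold hLJ at h1
    have h2 := add_left_cancel (add_right_cancel h1)
    have h3 : (1 / (1 - qq z) : ℂ) ≠ 0 := one_div_ne_zero (one_sub_qq_ne hz)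
    exact smul_right_injective _ h3 h2
  have hall : ∀ z : Cn n, VLJ l J z = VLJ l' J' z := by
    intro z
    set c : ℂ := (((1 + ‖z‖)⁻¹ : ℝ) : ℂ) with hc
    have hpos : 0 < 1 + ‖z‖ := by positivity
    have hc0 : c ≠ 0 := by
      rw [hc]
      exact_mod_cast (inv_pos.2 hpos).ne'
    have hz : c • z ∈ ball (0 : Cn n) 1 := by
      rw [mem_ball_zero_iff, norm_smul, hc, Complex.norm_real, Real.norm_eq_abs,
        abs_of_pos (inv_pos.2 hpos), inv_mul_lt_iff₀ hpos]
      linarith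
    have h1 := hV _ hz
    rw [VLJ_smul_arg l hJ.1, VLJ_smul_arg l' hJ'.1] at h1
    exact smul_right_injective _ (pow_ne_zero 2 hc0) h1
  have hcomp : ∀ (x : RV n) (m : Fin n),
      rdot l x * x m + rdot x x * l m = rdot l' x * x m + rdot x x * l' m ∧
      J x x m = J' x x m := by
    intro x m
    have h1 : VLJ l J (ofR x) m = VLJ l' J' (ofR x) m := by rw [hall]
    rw [VLJ_ofR, VLJ_ofR] at h1
    have h2 := congrArg Complex.re h1
    have h3 := congrArg Complex.im h1
    simp only [Complex.add_re, Complex.ofReal_re, Complex.mul_re, Complex.I_re, mul_zero,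
      Complex.ofReal_im, Complex.I_im, sub_zero, add_zero, mul_one] at h2
    simp only [Complex.add_im, Complex.ofReal_im, Complex.mul_im, Complex.I_re, mul_zero,
      Complex.ofReal_re, Complex.I_im, mul_one, add_zero, zero_add] at h3
    exact ⟨by linarith, h3⟩
  constructor
  · have h1 := fun m => (hcomp (l - l') m).1
    have hs : ∀ m, rdot (l - l') (l - l') * (l - l') m = 0 := by
      intro m
      have h2 := h1 m
      have h3 : rdot l (l - l') = rdot l' (l - l') + rdot (l - l') (l - l') := by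
        unfold rdot
        rw [← Finset.sum_add_distrib]
        refine Finset.sum_congr rfl fun i _ => ?_
        simp only [Pi.sub_apply]
        ring
      rw [h3] at h2
      simp only [Pi.sub_apply] at h2 ⊢
      linarith
    have h4 : rdot (l - l') (l - l') * rdot (l - l') (l - l') = 0 := by
      have h5 : rdot (l - l') (l - l') * rdot (l - l') (l - l') =
          ∑ m, (rdot (l - l') (l - l') * (l - l') m) * (l - l') m := by
        conv_lhs => rw [show rdot (l - l') (l - l') * rdot (l - l') (l - l') =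
          rdot (l - l') (l - l') * ∑ m, (l - l') m * (l - l') m from rfl]
        rw [Finset.mul_sum]
        exact Finset.sum_congr rfl fun m _ => by ring
      rw [h5]
      exact Finset.sum_eq_zero fun m _ => by rw [hs m, zero_mul]
    have h6 : rdot (l - l') (l - l') = 0 := mul_self_eq_zero.1 h4
    unfold rdot at h6
    rw [Finset.sum_eq_zero_iff_of_nonneg (fun i _ => mul_self_nonneg _)] at h6
    funext m
    have h7 := mul_self_eq_zero.1 (h6 m (Finset.mem_univ m))
    rw [Pi.sub_apply, sub_eq_zero] at h7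
    exact h7
  · have hq : ∀ x, J x x = J' x x := fun x => funext fun m => (hcomp x m).2
    refine LinearMap.ext fun x => LinearMap.ext fun y => ?_
    have h1 := hq (x + y)
    simp only [map_add, LinearMap.add_apply] at h1
    rw [hq x, hq y, hJ.1 y x, hJ'.1 y x] at h1
    have h2 : (2 : ℝ) • J x y = (2 : ℝ) • J' x y := by
      rw [two_smul, two_smul]
      have e : ∀ a b c : RV n, a + b + (b + c) = a + (b + b) + c := fun a b c => by abel
      rw [e, e] at h1
      exact add_left_cancel (add_right_cancel h1)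
    exact smul_right_injective _ (two_ne_zero : (2 : ℝ) ≠ 0) h2

theorem hLJ_affine {n : ℕ} (A : Cn n →L[ℂ] Cn n) (l l' : RV n) (J J' : Bil n) (t : ℝ)
    (z : Cn n) :
    hLJ A (t • l + (1 - t) • l') (t • J + (1 - t) • J') z =
      (t : ℂ) • hLJ A l J z + ((1 - t : ℝ) : ℂ) • hLJ A l' J' z := by
  unfold hLJ
  rw [VLJ_add, VLJ_rsmul, VLJ_rsmul]
  push_cast
  module

theorem hLJ_add {n : ℕ} (A : Cn n →L[ℂ] Cn n) (l l' : RV n) (J J' : Bil n) (z : Cn n) :
    hLJ A (l + l') (J + J') z = hLJ A l J z + (1 / (1 - qq z)) • VLJ l' J' z := by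
  unfold hLJ
  rw [VLJ_add, smul_add]
  abel

end Pool.Agent.P1ae5
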