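import Pool.Agent.Lib.P1ae5.Defs

/-!
Definitions for the all-dimensional face (black box).
-/

open Metric

namespace Pool.Agent.P1ae5

/-- real vectors -/
abbrev RV (n : ℕ) := Fin n → ℝ

/-- real vectors as complex vectors -/
noncomputable def ofR {n : ℕ} (x : RV n) : Cn n := WithLp.toLp 2 (fun i => ((x i : ℝ) : ℂ))

/-- real scalar product -/
def rdot {n : ℕ} (x y : RV n) : ℝ := ∑ i, x i * y i

/-- `q(z) = z_1^2 + ... + z_n^2` -/
noncomputable def qq {n : ℕ} (z : Cn n) : ℂ := ∑ i, z i ^ 2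

/-- real part -/
noncomputable def reV {n : ℕ} (z : Cn n) : RV n := fun i => (z i).re

/-- imaginary part -/
noncomputable def imV {n : ℕ} (z : Cn n) : RV n := fun i => (z i).im

/-- orthonormal pairs of real vectors -/
def OPair {n : ℕ} (X Y : RV n) : Prop := rdot X X = 1 ∧ rdot Y Y = 1 ∧ rdot X Y = 0

/-- real bilinear maps -/
abbrev Bil (n : ℕ) := RV n →ₗ[ℝ] RV n →ₗ[ℝ] RV n

/-- symmetric bilinear maps `J` with `x . J(x,x) = 0` -/
def IsTan {n : ℕ} (J : Bil n) : Prop := (∀ x y, J x y = J y x) ∧ ∀ x, rdot (J x x) x = 0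

/-- the quadratic map `V(z) = (l.z/2) z + (q(z)/2) l + i J(z,z)` (`J` complexified) -/
noncomputable def VLJ {n : ℕ} (l : RV n) (J : Bil n) (z : Cn n) : Cn n :=
  ((1 / 2 : ℂ) * ∑ i, (l i : ℂ) * z i) • z + ((1 / 2 : ℂ) * qq z) • ofR l +
    Complex.I • (ofR (J (reV z) (reV z) - J (imV z) (imV z)) +
      (2 * Complex.I) • ofR (J (reV z) (imV z)))

/-- the maps `h(z) = (1+q)/(1-q) D z + V(z)/(1-q) + (A z - D z)`, `D` the Hermitian part of `A` -/
noncomputable def hLJ {n : ℕ} (A : Cn n →L[ℂ] Cn n) (l : RV n) (J : Bil n) (z : Cn n) : Cn n :=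
  ((1 + qq z) / (1 - qq z)) • herm A z + (1 / (1 - qq z)) • VLJ l J z + (A z - herm A z)

/-- the number `l.X/2 + i J(Y,Y).X` -/
noncomputable def bb {n : ℕ} (l : RV n) (J : Bil n) (X Y : RV n) : ℂ :=
  ((rdot l X / 2 : ℝ) : ℂ) + Complex.I * ((rdot (J Y Y) X : ℝ) : ℂ)

/-- the linear form attached to the plane of `X, Y` -/
noncomputable def ww {n : ℕ} (l : RV n) (J : Bil n) (X Y : RV n) (ξ η : ℂ) : ℂ :=
  ξ * (starRingEnd ℂ) (bb l J X Y) + η * (starRingEnd ℂ) (bb l J Y X)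

/-- the convex body attached to `A` -/
def KKA {n : ℕ} (A : Cn n →L[ℂ] Cn n) (l : RV n) (J : Bil n) : Prop :=
  IsTan J ∧ ∀ X Y : RV n, OPair X Y → ∀ ξ η : ℂ, ‖ξ‖ ^ 2 + ‖η‖ ^ 2 = 1 →
    ‖ww l J X Y ξ η‖ ≤ (ip (A (ξ • ofR X + η • ofR Y)) (ξ • ofR X + η • ofR Y)).re

/-- the convex body for `A = 1` -/
def KK {n : ℕ} (l : RV n) (J : Bil n) : Prop :=
  IsTan J ∧ ∀ X Y : RV n, OPair X Y →
    (rdot l X / 2) ^ 2 + (rdot l Y / 2) ^ 2 + rdot (J Y Y) X ^ 2 + rdot (J X X) Y ^ 2 ≤ 1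

/-- embedding of `R^k` in `R^(k+2)` -/
def emb {k : ℕ} (w : RV k) : RV (k + 2) := Fin.cons 0 (Fin.cons 0 w)

/-- the last `k` coordinates -/
def tl {k : ℕ} (x : RV (k + 2)) : RV k := fun j => x j.succ.succ

/-- first basis vector -/
def ea (k : ℕ) : RV (k + 2) := Fin.cons 1 (Fin.cons 0 0)

/-- second basis vector -/
def ec (k : ℕ) : RV (k + 2) := Fin.cons 0 (Fin.cons 1 0)

/-- pairs of skew-symmetric real matrices -/
def SK {k : ℕ} (K K' : Matrix (Fin k) (Fin k) ℝ) : Prop :=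
  K.transpose = -K ∧ K'.transpose = -K'

/-- pairs of skew-symmetric real matrices with
`(K x . y)^2 + (K' x . y)^2 ≤ 1` for orthonormal `x, y` -/
def ZZ {k : ℕ} (K K' : Matrix (Fin k) (Fin k) ℝ) : Prop :=
  SK K K' ∧ ∀ x y : RV k, OPair x y →
    rdot (K.mulVec x) y ^ 2 + rdot (K'.mulVec x) y ^ 2 ≤ 1

/-- the bilinear map attached to `K, K'`; with `x = (x0, x1, w)`,
`JZ(x,x) = x0 K w + x1 (w + K' w) - |w|^2 e_1` -/
noncomputable def JZ {k : ℕ} (K K' : Matrix (Fin k) (Fin k) ℝ) : Bil (k + 2) :=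
  LinearMap.mk₂ ℝ (fun x y =>
    emb ((1 / 2 : ℝ) • (x 0 • K.mulVec (tl y) + y 0 • K.mulVec (tl x) +
      x 1 • (tl y + K'.mulVec (tl y)) + y 1 • (tl x + K'.mulVec (tl x)))) -
      rdot (tl x) (tl y) • ec k)
    (by
      intro x x' y
      have h1 : tl (x + x') = tl x + tl x' := rfl
      have h2 : rdot (tl x + tl x') (tl y) = rdot (tl x) (tl y) + rdot (tl x') (tl y) := by
        simp [rdot, add_mul, Finset.sum_add_distrib]
      rw [h1, h2]
      funext i
      refine Fin.cases ?_ (fun j => Fin.cases ?_ (fun m => ?_) j) i <;>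
        simp [emb, ec, Matrix.mulVec_add] <;> ring)
    (by
      intro c x y
      have h1 : tl (c • x) = c • tl x := rfl
      have h2 : rdot (c • tl x) (tl y) = c * rdot (tl x) (tl y) := by
        simp [rdot, Finset.mul_sum, mul_assoc]
      rw [h1, h2]
      funext i
      refine Fin.cases ?_ (fun j => Fin.cases ?_ (fun m => ?_) j) i <;>
        simp [emb, ec, Matrix.mulVec_smul] <;> ring)
    (by
      intro x y y'
      have h1 : tl (y + y') = tl y + tl y' := rfl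
      have h2 : rdot (tl x) (tl y + tl y') = rdot (tl x) (tl y) + rdot (tl x) (tl y') := by
        simp [rdot, mul_add, Finset.sum_add_distrib]
      rw [h1, h2]
      funext i
      refine Fin.cases ?_ (fun j => Fin.cases ?_ (fun m => ?_) j) i <;>
        simp [emb, ec, Matrix.mulVec_add] <;> ring)
    (by
      intro c x y
      have h1 : tl (c • y) = c • tl y := rfl
      have h2 : rdot (tl x) (c • tl y) = c * rdot (tl x) (tl y) := by
        simp [rdot, Finset.mul_sum]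
        refine Finset.sum_congr rfl fun i _ => by ring
      rw [h1, h2]
      funext i
      refine Fin.cases ?_ (fun j => Fin.cases ?_ (fun m => ?_) j) i <;>
        simp [emb, ec, Matrix.mulVec_smul] <;> ring)

theorem JZ_apply {k : ℕ} (K K' : Matrix (Fin k) (Fin k) ℝ) (x y : RV (k + 2)) :
    JZ K K' x y = emb ((1 / 2 : ℝ) • (x 0 • K.mulVec (tl y) + y 0 • K.mulVec (tl x) +
      x 1 • (tl y + K'.mulVec (tl y)) + y 1 • (tl x + K'.mulVec (tl x)))) -
      rdot (tl x) (tl y) • ec k := rfl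

end Pool.Agent.P1ae5
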