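import Pool.Agent.Lib.P1ae5.Defs

/-!
MODULE P1ae5.Member (2 h). Elementary facts on the maps `Hb A e f b`, `e, f` an orthonormal basis
of `C^2`, `q = qf e f z = 2 <z,e><z,f>`. Notation `β = ip z b`, `δ(z) = (ip (A z) z).re`,
`R = ‖z‖ < 1`, `Q = ‖q‖ ≤ R^2` (`2|<z,e>||<z,f>| ≤ |<z,e>|^2 + |<z,f>|^2 = R^2`).
NOTE `ip z w = inner ℂ w z` is linear in `z`, conjugate linear in `w`.

`re_Hb`: `(ip (herm A z) z)` is real and equals `δ(z)`, `(ip (A z - herm A z) z).re = 0`,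
 `Re[(1+q)/(1-q)] ‖1-q‖^2 = 1 - ‖q‖^2`, `Re[(β R^2 + q conj β)(1 - conj q)] =
 Re β (R^2 - ‖q‖^2) + (1 - R^2) Re (q conj β)` because `Re (β conj q) = Re (q conj β)`.

`norm_ip_le`: `b ∈ BA A` scaled: `‖ip z b‖ * ‖z‖ ≤ δ(z)` for all `z` (homogeneity).

`mem_NA`: for `b ∈ BA A`, `0 < ‖z‖ < 1`: `|Re β (R^2-Q^2) + (1-R^2) Re (q conj β)| ≤
 |β| (R^2 - Q^2 + (1-R^2) Q)`, `|β| ≤ δ(z)/R`, and `R^2 - Q^2 + (1 - R^2) Q < R (1 - Q^2)`:
 with `Q = R^2 t`, `0 ≤ t ≤ 1`, the left side is `R^2 (1+t)(1-R^2 t)`, the right side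
 `R (1 - R^2 t)(1 + R^2 t)`, and `R (1+t) < 1 + R^2 t` iff `(1-R)(1 - R t) > 0`. Holomorphy: `1 - q`
 has no zero on the ball. Derivative at 0: `q` vanishes to second order at 0, so
 `D(Hb)(0) = herm A + (A - herm A) = A`.

`mem_BA`: if `Hb A e f b ∈ NA A` and `‖ζ‖ = 1`, `‖q(ζ)‖ < 1`, let `z = R ζ`, `R → 1`:
 `(δ(ζ) + Re <ζ,b>) (1 - ‖q ζ‖^2) ≥ 0`. Unit vectors `ζ` with `‖q(ζ)‖ < 1` are dense in the unit
 sphere (`‖q(ζ)‖ = 1` iff `|<ζ,e>| = |<ζ,f>|`), so `δ(ζ) + Re <ζ,b> ≥ 0` on the unit sphere;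
 replacing `ζ` by `ω ζ`, `|ω| = 1`, gives `|<ζ,b>| ≤ δ(ζ)`.

`dominated`: same estimate gives
 `(ip (Hb z) z).re ‖1-q‖^2 ≤ 2 δ-type bound`: `δ(z)(1-Q^2) + |β| R (1 - Q^2) ≤
 (‖A‖ + ‖b‖) R^2 (1 - Q^2)` (valid for EVERY `b`).

`Hb_inj`: `Hb b = Hb b'` on the ball: with `c = b - b'`, `<z,c> z + q c = 0` for all small `z`;
 take `z = t c` (then `q` is `t^2 q(c)`) ... or compare: `ip (· ) z` gives
 `ip z c * ‖z‖^2 + q conj (ip z c) = 0`, `‖q‖ < ‖z‖^2` for some z with `ip z c ≠ 0` if `c ≠ 0`.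
-/

open Metric

namespace Pool.Agent.P1ae5

private lemma mb_smul {n : ℕ} (a : ℂ) (z w : Cn n) : ip (a • z) w = a * ip z w := by
  unfold ip; rw [inner_smul_right]

private lemma mb_add {n : ℕ} (z z' w : Cn n) : ip (z + z') w = ip z w + ip z' w := by
  unfold ip; rw [inner_add_right]

private lemma mb_sub {n : ℕ} (z z' w : Cn n) : ip (z - z') w = ip z w - ip z' w := by
  unfold ip; rw [inner_sub_right]

private lemma mb_smul_right {n : ℕ} (a : ℂ) (z w : Cn n) :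
    ip z (a • w) = (starRingEnd ℂ) a * ip z w := by
  unfold ip; rw [inner_smul_left]

private lemma mb_add_right {n : ℕ} (z w w' : Cn n) : ip z (w + w') = ip z w + ip z w' := by
  unfold ip; rw [inner_add_left]

private lemma mb_conj {n : ℕ} (z w : Cn n) : (starRingEnd ℂ) (ip z w) = ip w z := by
  unfold ip; rw [inner_conj_symm]

private lemma mb_self {n : ℕ} (z : Cn n) : ip z z = ((‖z‖ ^ 2 : ℝ) : ℂ) := by
  unfold ip; rw [inner_self_eq_norm_sq_to_K]; push_cast; rfl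

private lemma mb_norm_le {n : ℕ} (z w : Cn n) : ‖ip z w‖ ≤ ‖z‖ * ‖w‖ := by
  unfold ip; rw [mul_comm]; exact norm_inner_le_norm w z

private lemma mb_norm_symm {n : ℕ} (z w : Cn n) : ‖ip z w‖ = ‖ip w z‖ := by
  unfold ip; exact norm_inner_symm _ _

private lemma mb_zero_left {n : ℕ} (w : Cn n) : ip 0 w = 0 := by
  unfold ip; rw [inner_zero_right]

private lemma mb_qf_smul {n : ℕ} (e f : Cn n) (a : ℂ) (z : Cn n) :
    qf e f (a • z) = a ^ 2 * qf e f z := by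
  unfold qf; rw [mb_smul, mb_smul]; ring

private lemma mb_qf_zero {n : ℕ} (e f : Cn n) : qf e f 0 = 0 := by
  unfold qf; rw [mb_zero_left]; ring

private lemma mb_bessel {n : ℕ} {e f : Cn n} (he : ‖e‖ = 1) (hf : ‖f‖ = 1) (hef : ip e f = 0)
    (z : Cn n) : ‖ip z e‖ ^ 2 + ‖ip z f‖ ^ 2 ≤ ‖z‖ ^ 2 := by
  have ho : Orthonormal ℂ (![e, f] : Fin 2 → Cn n) := by
    have h1 : inner ℂ f e = (0 : ℂ) := hef
    have h2 : inner ℂ e f = (0 : ℂ) := by
      rw [← inner_conj_symm, h1, map_zero]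
    refine ⟨fun i => ?_, fun i j hij => ?_⟩
    · fin_cases i
      · exact he
      · exact hf
    · fin_cases i <;> fin_cases j
      · exact absurd rfl hij
      · exact h2
      · exact h1
      · exact absurd rfl hij
  have h := ho.sum_inner_products_le (x := z) (s := Finset.univ)
  simpa [Fin.sum_univ_two, ip] using h

private lemma mb_qnorm {n : ℕ} (e f z : Cn n) : ‖qf e f z‖ = 2 * ‖ip z e‖ * ‖ip z f‖ := by
  unfold qf; rw [norm_mul, norm_mul]; simp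

private lemma mb_herm_ip {n : ℕ} (A : Cn n →L[ℂ] Cn n) (z : Cn n) :
    ip (herm A z) z = (((ip (A z) z).re : ℝ) : ℂ) := by
  have h1 : herm A z = (1 / 2 : ℂ) • (A z + ContinuousLinearMap.adjoint A z) := by
    simp [herm]
  rw [h1, mb_smul, mb_add]
  have h2 : ip (ContinuousLinearMap.adjoint A z) z = (starRingEnd ℂ) (ip (A z) z) := by
    unfold ip
    rw [ContinuousLinearMap.adjoint_inner_right, inner_conj_symm]
  rw [h2]
  apply Complex.ext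
  · simp
    ring
  · simp

private lemma mb_div_re (w u : ℂ) (hu : u ≠ 0) :
    (w / u).re * ‖u‖ ^ 2 = (w * (starRingEnd ℂ) u).re := by
  have h1 : ‖u‖ ^ 2 = Complex.normSq u := (Complex.normSq_eq_norm_sq u).symm
  have h2 : w / u * (Complex.normSq u : ℂ) = w * (starRingEnd ℂ) u := by
    rw [← Complex.mul_conj]
    field_simp
  rw [h1, ← h2, Complex.re_mul_ofReal]

private lemma mb_one_sub_ne {e f : Cn 2} (he : ‖e‖ = 1) (hf : ‖f‖ = 1)
    (hef : ip e f = 0) {z : Cn 2} (hz : z ∈ ball (0 : Cn 2) 1) :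
    ‖qf e f z‖ ≤ ‖z‖ ^ 2 ∧ ‖z‖ < 1 ∧ ‖qf e f z‖ < 1 ∧ 1 - qf e f z ≠ 0 := by
  have h1 : ‖z‖ < 1 := by simpa using hz
  have h2 : ‖qf e f z‖ ≤ ‖z‖ ^ 2 := by
    rw [mb_qnorm]
    have := mb_bessel he hf hef z
    nlinarith [sq_nonneg (‖ip z e‖ - ‖ip z f‖)]
  have h3 : ‖qf e f z‖ < 1 := by nlinarith [norm_nonneg z]
  refine ⟨h2, h1, h3, fun h => ?_⟩
  have h4 : qf e f z = 1 := by linear_combination -h
  rw [h4, norm_one] at h3
  exact lt_irrefl _ h3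

private lemma mb_re_Hb (A : Cn 2 →L[ℂ] Cn 2) {e f : Cn 2} (he : ‖e‖ = 1) (hf : ‖f‖ = 1)
    (hef : ip e f = 0) (b : Cn 2) {z : Cn 2} (hz : z ∈ ball (0 : Cn 2) 1) :
    (ip (Hb A e f b z) z).re * ‖1 - qf e f z‖ ^ 2 =
      (ip (A z) z).re * (1 - ‖qf e f z‖ ^ 2) + (ip z b).re * (‖z‖ ^ 2 - ‖qf e f z‖ ^ 2) +
        (1 - ‖z‖ ^ 2) * (qf e f z * (starRingEnd ℂ) (ip z b)).re := by
  obtain ⟨_, _, _, hne⟩ := mb_one_sub_ne he hf hef hz
  set q : ℂ := qf e f z with hq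
  set β : ℂ := ip z b with hβ
  set δ : ℝ := (ip (A z) z).re with hδ
  have hip : ip (Hb A e f b z) z =
      ((1 + q) * (δ : ℂ) + β * ((‖z‖ ^ 2 : ℝ) : ℂ) + q * (starRingEnd ℂ) β) / (1 - q) +
        (ip (A z) z - (δ : ℂ)) := by
    unfold Hb
    rw [mb_add, mb_add, mb_add, mb_smul, mb_smul, mb_smul, mb_sub, mb_herm_ip, mb_self,
      ← mb_conj z b, ← hq, ← hβ, ← hδ]
    field_simp
  rw [hip, Complex.add_re, add_mul, mb_div_re _ _ hne]
  have h0 : (ip (A z) z - (δ : ℂ)).re = 0 := by simp [hδ]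
  rw [h0, zero_mul, add_zero]
  have h1 : ‖q‖ ^ 2 = q.re ^ 2 + q.im ^ 2 := by
    rw [← Complex.normSq_eq_norm_sq, Complex.normSq_apply]; ring
  rw [h1]
  simp only [Complex.mul_re, Complex.mul_im, Complex.add_re, Complex.add_im, Complex.conj_re,
    Complex.conj_im, Complex.sub_re, Complex.sub_im, Complex.one_re, Complex.one_im,
    Complex.ofReal_re, Complex.ofReal_im, map_sub, map_one]
  ring

private lemma mb_key {δ' β' R Q : ℝ} {x y : ℝ} (hR0 : 0 ≤ R) (hR : R < 1) (hQ0 : 0 ≤ Q)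
    (hQ : Q ≤ R ^ 2) (hβ : 0 ≤ β') (hx : |x| ≤ β') (hy : |y| ≤ Q * β') :
    |δ' * (1 - Q ^ 2) + x * (R ^ 2 - Q ^ 2) + (1 - R ^ 2) * y - δ' * (1 - Q ^ 2)| ≤
      β' * ((R ^ 2 + Q) * (1 - Q)) := by
  have hQ1 : Q ≤ 1 := by nlinarith
  have h1 : 0 ≤ R ^ 2 - Q ^ 2 := by nlinarith
  have h2 : 0 ≤ 1 - R ^ 2 := by nlinarith
  have e1 : δ' * (1 - Q ^ 2) + x * (R ^ 2 - Q ^ 2) + (1 - R ^ 2) * y - δ' * (1 - Q ^ 2) =
    x * (R ^ 2 - Q ^ 2) + (1 - R ^ 2) * y := by ring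
  rw [e1]
  have h3 : |x * (R ^ 2 - Q ^ 2)| ≤ β' * (R ^ 2 - Q ^ 2) := by
    rw [abs_mul, abs_of_nonneg h1]
    exact mul_le_mul_of_nonneg_right hx h1
  have h4 : |(1 - R ^ 2) * y| ≤ (1 - R ^ 2) * (Q * β') := by
    rw [abs_mul, abs_of_nonneg h2]
    exact mul_le_mul_of_nonneg_left hy h2
  calc |x * (R ^ 2 - Q ^ 2) + (1 - R ^ 2) * y| ≤ |x * (R ^ 2 - Q ^ 2)| + |(1 - R ^ 2) * y| :=
        abs_add_le _ _
    _ ≤ β' * (R ^ 2 - Q ^ 2) + (1 - R ^ 2) * (Q * β') := add_le_add h3 h4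
    _ = β' * ((R ^ 2 + Q) * (1 - Q)) := by ring

private lemma mb_est (A : Cn 2 →L[ℂ] Cn 2) {e f : Cn 2} (he : ‖e‖ = 1) (hf : ‖f‖ = 1)
    (hef : ip e f = 0) (b : Cn 2) {z : Cn 2} (hz : z ∈ ball (0 : Cn 2) 1) :
    |(ip (Hb A e f b z) z).re * ‖1 - qf e f z‖ ^ 2 - (ip (A z) z).re * (1 - ‖qf e f z‖ ^ 2)| ≤
      ‖ip z b‖ * ((‖z‖ ^ 2 + ‖qf e f z‖) * (1 - ‖qf e f z‖)) := by
  obtain ⟨h1, h2, h3, hne⟩ := mb_one_sub_ne he hf hef hz
  rw [mb_re_Hb A he hf hef b hz]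
  refine mb_key (norm_nonneg _) h2 (norm_nonneg _) h1 (norm_nonneg _) (Complex.abs_re_le_norm _) ?_
  refine (Complex.abs_re_le_norm _).trans (le_of_eq ?_)
  rw [norm_mul, Complex.norm_conj]

private lemma mb_hasFDerivAt_ip {n : ℕ} (e : Cn n) (z : Cn n) :
    HasFDerivAt (fun z : Cn n => ip z e) (innerSL ℂ e) z := by
  have : (fun z : Cn n => ip z e) = (innerSL ℂ e : Cn n → ℂ) := by
    funext w
    rfl
  rw [this]
  exact (innerSL ℂ e).hasFDerivAt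

private lemma mb_diff_ip {n : ℕ} (e : Cn n) : Differentiable ℂ (fun z : Cn n => ip z e) :=
  fun z => (mb_hasFDerivAt_ip e z).differentiableAt

private lemma mb_diff_qf {n : ℕ} (e f : Cn n) : Differentiable ℂ (fun z : Cn n => qf e f z) := by
  unfold qf
  exact ((mb_diff_ip e).const_mul 2).mul (mb_diff_ip f)

private lemma mb_abs_qf {E : Type*} [NormedAddCommGroup E] [NormedSpace ℂ E] {u v : E → ℂ}
    {u' v' : E →L[ℂ] ℂ} (hu : HasFDerivAt u u' 0) (hv : HasFDerivAt v v' 0) (hu0 : u 0 = 0)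
    (hv0 : v 0 = 0) : HasFDerivAt (fun z => 2 * u z * v z) (0 : E →L[ℂ] ℂ) 0 := by
  have h := (hu.const_mul 2).fun_mul hv
  refine h.congr_fderiv ?_
  ext z
  simp [hu0, hv0]

private lemma mb_abs_fderiv {E : Type*} [NormedAddCommGroup E] [NormedSpace ℂ E] {q β : E → ℂ}
    {β' : E →L[ℂ] ℂ} (D A : E →L[ℂ] E) (b : E) (hq : HasFDerivAt q (0 : E →L[ℂ] ℂ) 0)
    (hq0 : q 0 = 0) (hβ : HasFDerivAt β β' 0) (hβ0 : β 0 = 0) :
    HasFDerivAt (fun z => ((1 + q z) / (1 - q z)) • D z + (β z / (1 - q z)) • z +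
      (q z / (1 - q z)) • b + (A z - D z)) A 0 := by
  have h1q : HasFDerivAt (fun z => 1 - q z) (-(0 : E →L[ℂ] ℂ)) 0 := hq.const_sub 1
  have hp : HasFDerivAt (fun z => 1 + q z) (0 : E →L[ℂ] ℂ) 0 := hq.const_add 1
  have hinv : HasFDerivAt (fun z => (1 - q z)⁻¹) (0 : E →L[ℂ] ℂ) 0 := by
    have h := (hasDerivAt_inv (x := (1 - q 0)) (by rw [hq0]; simp)).comp_hasFDerivAt (0 : E) h1q
    refine HasFDerivAt.congr_fderiv (f := fun z => (1 - q z)⁻¹) h ?_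
    ext z
    simp
  have hc1 : HasFDerivAt (fun z => (1 + q z) * (1 - q z)⁻¹) (0 : E →L[ℂ] ℂ) 0 := by
    refine (hp.fun_mul hinv).congr_fderiv ?_
    ext z
    simp
  have hc3 : HasFDerivAt (fun z => q z * (1 - q z)⁻¹) (0 : E →L[ℂ] ℂ) 0 := by
    refine (hq.fun_mul hinv).congr_fderiv ?_
    ext z
    simp
  have hc2 := hβ.fun_mul hinv
  have ht1 := hc1.fun_smul (D.hasFDerivAt (x := (0 : E)))
  have ht2 := hc2.fun_smul (hasFDerivAt_id (𝕜 := ℂ) (0 : E))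
  have ht3 := hc3.smul_const b
  have ht4 := (A.hasFDerivAt (x := (0 : E))).fun_sub (D.hasFDerivAt (x := (0 : E)))
  have h := ((ht1.fun_add ht2).fun_add ht3).fun_add ht4
  simp only [div_eq_mul_inv]
  refine h.congr_fderiv ?_
  ext z
  simp [hq0, hβ0]

private lemma mb_abs_diffOn {E : Type*} [NormedAddCommGroup E] [NormedSpace ℂ E] {q β : E → ℂ}
    {S : Set E} (D A : E →L[ℂ] E) (b : E) (hq : DifferentiableOn ℂ q S)
    (hne : ∀ z ∈ S, 1 - q z ≠ 0) (hβ : DifferentiableOn ℂ β S) :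
    DifferentiableOn ℂ (fun z => ((1 + q z) / (1 - q z)) • D z + (β z / (1 - q z)) • z +
      (q z / (1 - q z)) • b + (A z - D z)) S := by
  have h1q : DifferentiableOn ℂ (fun z => 1 - q z) S := hq.const_sub 1
  have hp : DifferentiableOn ℂ (fun z => 1 + q z) S := hq.const_add 1
  have hinv : DifferentiableOn ℂ (fun z => (1 - q z)⁻¹) S := h1q.fun_inv hne
  have hc1 : DifferentiableOn ℂ (fun z => (1 + q z) * (1 - q z)⁻¹) S := hp.fun_mul hinv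
  have hc3 : DifferentiableOn ℂ (fun z => q z * (1 - q z)⁻¹) S := hq.fun_mul hinv
  have hc2 : DifferentiableOn ℂ (fun z => β z * (1 - q z)⁻¹) S := hβ.fun_mul hinv
  simp only [div_eq_mul_inv]
  exact (((hc1.fun_smul D.differentiableOn).fun_add (hc2.fun_smul differentiableOn_id)).fun_add
    (hc3.smul_const b)).fun_add (A.differentiableOn.fun_sub D.differentiableOn)

private lemma mb_Hb_hasFDerivAt (A : Cn 2 →L[ℂ] Cn 2) (e f b : Cn 2) :
    HasFDerivAt (Hb A e f b) A 0 := by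
  have hq := mb_abs_qf (mb_hasFDerivAt_ip e (0 : Cn 2)) (mb_hasFDerivAt_ip f (0 : Cn 2))
    (mb_zero_left e) (mb_zero_left f)
  exact mb_abs_fderiv (herm A) A b hq (mb_qf_zero e f) (mb_hasFDerivAt_ip b (0 : Cn 2))
    (mb_zero_left b)

private lemma mb_BA {A : Cn 2 →L[ℂ] Cn 2} {b : Cn 2} (hb : b ∈ BA A) (z : Cn 2) :
    ‖ip z b‖ * ‖z‖ ≤ (ip (A z) z).re := by
  rcases eq_or_ne z 0 with rfl | hz
  · simp [mb_zero_left]
  · have hR : 0 < ‖z‖ := norm_pos_iff.2 hz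
    have h1 := hb (((‖z‖⁻¹ : ℝ) : ℂ) • z) (by
      rw [norm_smul, Complex.norm_real, Real.norm_of_nonneg (by positivity)]
      field_simp)
    rw [mb_smul, norm_mul, Complex.norm_real, Real.norm_of_nonneg (by positivity), map_smul,
      mb_smul, mb_smul_right, Complex.conj_ofReal, ← mul_assoc, ← Complex.ofReal_mul,
      Complex.re_ofReal_mul] at h1
    have h2 : ‖z‖⁻¹ * ‖ip z b‖ * ‖z‖ ^ 2 ≤ ‖z‖⁻¹ * ‖z‖⁻¹ * (ip (A z) z).re * ‖z‖ ^ 2 :=
      mul_le_mul_of_nonneg_right h1 (by positivity)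
    have e1 : ‖z‖⁻¹ * ‖ip z b‖ * ‖z‖ ^ 2 = ‖ip z b‖ * ‖z‖ := by field_simp
    have e2 : ‖z‖⁻¹ * ‖z‖⁻¹ * (ip (A z) z).re * ‖z‖ ^ 2 = (ip (A z) z).re := by field_simp
    rw [e1, e2] at h2
    exact h2

private lemma mb_Hb_zero (A : Cn 2 →L[ℂ] Cn 2) (e f b : Cn 2) : Hb A e f b 0 = 0 := by
  unfold Hb
  rw [mb_qf_zero]
  simp

private lemma mb_diffOn (A : Cn 2 →L[ℂ] Cn 2) {e f : Cn 2} (he : ‖e‖ = 1) (hf : ‖f‖ = 1)
    (hef : ip e f = 0) (b : Cn 2) : DifferentiableOn ℂ (Hb A e f b) (ball 0 1) := by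
  have hq : DifferentiableOn ℂ (fun z : Cn 2 => qf e f z) (ball 0 1) :=
    (mb_diff_qf e f).differentiableOn
  have hb : DifferentiableOn ℂ (fun z : Cn 2 => ip z b) (ball 0 1) :=
    (mb_diff_ip b).differentiableOn
  exact mb_abs_diffOn (herm A) A b hq (fun z hz => (mb_one_sub_ne he hf hef hz).2.2.2) hb

private lemma mb_mem_NA {A : Cn 2 →L[ℂ] Cn 2} (hA : ∀ z : Cn 2, z ≠ 0 → 0 < (ip (A z) z).re)
    {e f : Cn 2} (he : ‖e‖ = 1) (hf : ‖f‖ = 1) (hef : ip e f = 0) {b : Cn 2}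
    (hb : b ∈ BA A) : Hb A e f b ∈ NA A := by
  refine ⟨mb_diffOn A he hf hef b, mb_Hb_zero A e f b, (mb_Hb_hasFDerivAt A e f b).fderiv, ?_⟩
  intro z hz hz0
  obtain ⟨h1, h2, h3, hne⟩ := mb_one_sub_ne he hf hef hz
  have hest := mb_est A he hf hef b hz
  have hδ := hA z hz0
  have hβ := mb_BA hb z
  have hR : 0 < ‖z‖ := norm_pos_iff.2 hz0
  set R := ‖z‖ with hRdef
  set Q := ‖qf e f z‖ with hQdef
  set δ := (ip (A z) z).re with hδdef
  set X := (ip (Hb A e f b z) z).re * ‖1 - qf e f z‖ ^ 2 with hX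
  have hQ0 : 0 ≤ Q := norm_nonneg _
  have h4 := (abs_le.1 hest).1
  have hnn : 0 ≤ (R ^ 2 + Q) * (1 - Q) := by
    have : 0 ≤ 1 - Q := by linarith
    positivity
  have h5 : ‖ip z b‖ * ((R ^ 2 + Q) * (1 - Q)) * R ≤ δ * ((R ^ 2 + Q) * (1 - Q)) := by
    calc ‖ip z b‖ * ((R ^ 2 + Q) * (1 - Q)) * R = ‖ip z b‖ * R * ((R ^ 2 + Q) * (1 - Q)) := by ring
      _ ≤ _ := mul_le_mul_of_nonneg_right hβ hnn
  have h6 : (R ^ 2 + Q) * (1 - Q) < R * (1 - Q ^ 2) := by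
    have : 0 < (1 - Q) * ((1 - R) * (R - Q)) := by
      have a1 : 0 < 1 - Q := by linarith
      have a2 : 0 < 1 - R := by linarith
      have a3 : 0 < R - Q := by nlinarith
      positivity
    nlinarith
  have h7 : 0 < X * R := by
    have : -(‖ip z b‖ * ((R ^ 2 + Q) * (1 - Q))) * R ≤ (X - δ * (1 - Q ^ 2)) * R :=
      mul_le_mul_of_nonneg_right h4 hR.le
    nlinarith
  have h8 : 0 < X := by
    by_contra hcon
    push Not at hcon
    nlinarith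
  have h9 : 0 < ‖1 - qf e f z‖ ^ 2 := by
    have := norm_pos_iff.2 hne
    positivity
  by_contra hcon
  push Not at hcon
  have : X ≤ 0 := by
    rw [hX]
    exact mul_nonpos_of_nonpos_of_nonneg hcon h9.le
  linarith

private lemma mb_unit {A : Cn 2 →L[ℂ] Cn 2} {e f : Cn 2} (he : ‖e‖ = 1) (hf : ‖f‖ = 1)
    (hef : ip e f = 0) {b : Cn 2} (h : Hb A e f b ∈ NA A) {ζ : Cn 2} (hζ : ‖ζ‖ = 1)
    (hq : ‖qf e f ζ‖ < 1) : 0 ≤ (ip (A ζ) ζ).re + (ip ζ b).re := by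
  obtain ⟨_, _, _, hpos⟩ := h
  have h1 : ∀ R : ℝ, 0 < R → R < 1 → 0 ≤ R ^ 2 * (ip (A ζ) ζ).re * (1 - (R ^ 2 * ‖qf e f ζ‖) ^ 2) +
      R * (ip ζ b).re * (R ^ 2 - (R ^ 2 * ‖qf e f ζ‖) ^ 2) +
        (1 - R ^ 2) * (R ^ 3 * (qf e f ζ * (starRingEnd ℂ) (ip ζ b)).re) := by
    intro R hR0 hR1
    have hn : ‖(R : ℂ) • ζ‖ = R := by
      rw [norm_smul, Complex.norm_real, Real.norm_of_nonneg hR0.le, hζ, mul_one]
    have hz : (R : ℂ) • ζ ∈ ball (0 : Cn 2) 1 := by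
      rw [mem_ball_zero_iff, hn]
      exact hR1
    have hz0 : (R : ℂ) • ζ ≠ 0 := by
      rw [← norm_pos_iff, hn]
      exact hR0
    have h2 := hpos _ hz hz0
    have h3 := mb_re_Hb A he hf hef b hz
    have h4 : 0 ≤ (ip (Hb A e f b ((R : ℂ) • ζ)) ((R : ℂ) • ζ)).re *
        ‖1 - qf e f ((R : ℂ) • ζ)‖ ^ 2 := by positivity
    rw [h3, hn, mb_qf_smul, norm_mul, norm_pow, Complex.norm_real, Real.norm_of_nonneg hR0.le,
      map_smul, mb_smul, mb_smul_right, Complex.conj_ofReal, mb_smul, map_mul,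
      Complex.conj_ofReal] at h4
    have e1 : ((R : ℂ) * ((R : ℂ) * ip (A ζ) ζ)).re = R ^ 2 * (ip (A ζ) ζ).re := by
      rw [← mul_assoc, ← Complex.ofReal_mul, Complex.re_ofReal_mul]; ring
    have e2 : ((R : ℂ) * ip ζ b).re = R * (ip ζ b).re := by
      rw [Complex.re_ofReal_mul]
    have e3 : ((R : ℂ) ^ 2 * qf e f ζ * ((R : ℂ) * (starRingEnd ℂ) (ip ζ b))).re =
        R ^ 3 * (qf e f ζ * (starRingEnd ℂ) (ip ζ b)).re := by
      have : (R : ℂ) ^ 2 * qf e f ζ * ((R : ℂ) * (starRingEnd ℂ) (ip ζ b)) =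
          ((R ^ 3 : ℝ) : ℂ) * (qf e f ζ * (starRingEnd ℂ) (ip ζ b)) := by
        push_cast; ring
      rw [this, Complex.re_ofReal_mul]
    rw [e1, e2, e3] at h4
    exact h4
  set Q := ‖qf e f ζ‖ with hQ
  set δ := (ip (A ζ) ζ).re
  set x := (ip ζ b).re
  set y := (qf e f ζ * (starRingEnd ℂ) (ip ζ b)).re
  have hcont : Continuous (fun R : ℝ => R ^ 2 * δ * (1 - (R ^ 2 * Q) ^ 2) +
      R * x * (R ^ 2 - (R ^ 2 * Q) ^ 2) + (1 - R ^ 2) * (R ^ 3 * y)) := by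
    fun_prop
  have hmem : (1 : ℝ) ∈ closure (Set.Ioo (0 : ℝ) 1) := by
    rw [closure_Ioo (by norm_num)]
    simp
  have h2 : (1 : ℝ) ∈ {R : ℝ | 0 ≤ R ^ 2 * δ * (1 - (R ^ 2 * Q) ^ 2) +
      R * x * (R ^ 2 - (R ^ 2 * Q) ^ 2) + (1 - R ^ 2) * (R ^ 3 * y)} := by
    have hcl : IsClosed {R : ℝ | 0 ≤ R ^ 2 * δ * (1 - (R ^ 2 * Q) ^ 2) +
      R * x * (R ^ 2 - (R ^ 2 * Q) ^ 2) + (1 - R ^ 2) * (R ^ 3 * y)} :=
      isClosed_le continuous_const hcont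
    exact hcl.closure_subset_iff.2 (fun R hR => h1 R hR.1 hR.2) hmem
  simp only [Set.mem_ofPred_eq] at h2
  have h3 : 0 ≤ (δ + x) * (1 - Q ^ 2) := by nlinarith
  have h4 : 0 < 1 - Q ^ 2 := by
    have : 0 ≤ Q := norm_nonneg _
    nlinarith
  exact nonneg_of_mul_nonneg_left h3 h4

private lemma mb_scaled {A : Cn 2 →L[ℂ] Cn 2} {e f : Cn 2} (he : ‖e‖ = 1) (hf : ‖f‖ = 1)
    (hef : ip e f = 0) {b : Cn 2} (h : Hb A e f b ∈ NA A) {z : Cn 2}
    (hne : ‖ip z e‖ ≠ ‖ip z f‖) : 0 ≤ (ip (A z) z).re + ‖z‖ * (ip z b).re := by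
  have hz : z ≠ 0 := by
    rintro rfl
    exact hne (by rw [mb_zero_left, mb_zero_left])
  have hR : 0 < ‖z‖ := norm_pos_iff.2 hz
  have hinv : 0 < ‖z‖⁻¹ := by positivity
  have hq : ‖qf e f z‖ < ‖z‖ ^ 2 := by
    rw [mb_qnorm]
    have h1 := mb_bessel he hf hef z
    have h2 : 0 < (‖ip z e‖ - ‖ip z f‖) ^ 2 := by
      have : ‖ip z e‖ - ‖ip z f‖ ≠ 0 := sub_ne_zero.2 hne
      positivity
    nlinarith
  have h1 := mb_unit he hf hef h (ζ := ((‖z‖⁻¹ : ℝ) : ℂ) • z) (by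
      rw [norm_smul, Complex.norm_real, Real.norm_of_nonneg hinv.le]
      field_simp) (by
      rw [mb_qf_smul, norm_mul, norm_pow, Complex.norm_real, Real.norm_of_nonneg hinv.le]
      have : ‖z‖⁻¹ ^ 2 * ‖qf e f z‖ < ‖z‖⁻¹ ^ 2 * ‖z‖ ^ 2 :=
        mul_lt_mul_of_pos_left hq (by positivity)
      have e1 : ‖z‖⁻¹ ^ 2 * ‖z‖ ^ 2 = 1 := by field_simp
      rwa [e1] at this)
  rw [map_smul, mb_smul, mb_smul_right, Complex.conj_ofReal, mb_smul, ← mul_assoc,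
    ← Complex.ofReal_mul, Complex.re_ofReal_mul, Complex.re_ofReal_mul] at h1
  have h2 : 0 ≤ (‖z‖⁻¹ * ‖z‖⁻¹ * (ip (A z) z).re + ‖z‖⁻¹ * (ip z b).re) * ‖z‖ ^ 2 :=
    mul_nonneg h1 (by positivity)
  have e2 : (‖z‖⁻¹ * ‖z‖⁻¹ * (ip (A z) z).re + ‖z‖⁻¹ * (ip z b).re) * ‖z‖ ^ 2 =
      (ip (A z) z).re + ‖z‖ * (ip z b).re := by
    field_simp
  rw [e2] at h2
  exact h2

private lemma mb_ip_cont {n : ℕ} {X : Type*} [TopologicalSpace X] {u v : X → Cn n}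
    (hu : Continuous u) (hv : Continuous v) : Continuous (fun x => ip (u x) (v x)) := by
  unfold ip
  exact hv.inner hu

private lemma mb_all {A : Cn 2 →L[ℂ] Cn 2} {e f : Cn 2} (he : ‖e‖ = 1) (hf : ‖f‖ = 1)
    (hef : ip e f = 0) {b : Cn 2} (h : Hb A e f b ∈ NA A) {z : Cn 2}
    (hz : ip z e ≠ 0) : 0 ≤ (ip (A z) z).re + ‖z‖ * (ip z b).re := by
  by_cases hne : ‖ip z e‖ = ‖ip z f‖
  swap
  · exact mb_scaled he hf hef h hne
  set w : ℝ → Cn 2 := fun t => z + ((t : ℂ) * ip z e) • e with hw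
  have hwc : Continuous w := by
    rw [hw]
    exact continuous_const.add
      ((Complex.continuous_ofReal.mul continuous_const).smul continuous_const)
  have h1 : ∀ t : ℝ, 0 < t → 0 ≤ (ip (A (w t)) (w t)).re + ‖w t‖ * (ip (w t) b).re := by
    intro t ht
    refine mb_scaled he hf hef h ?_
    have e1 : ip (w t) e = ((1 + t : ℝ) : ℂ) * ip z e := by
      rw [hw]
      simp only
      rw [mb_add, mb_smul, mb_self, he]
      push_cast
      ring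
    have e2 : ip (w t) f = ip z f := by
      rw [hw]
      simp only
      rw [mb_add, mb_smul, hef, mul_zero, add_zero]
    rw [e1, e2, norm_mul, Complex.norm_real, Real.norm_of_nonneg (by linarith), ← hne]
    have : 0 < ‖ip z e‖ := norm_pos_iff.2 hz
    intro hcon
    nlinarith
  have hcont : Continuous (fun t : ℝ => (ip (A (w t)) (w t)).re + ‖w t‖ * (ip (w t) b).re) := by
    refine Continuous.add ?_ ?_
    · exact Complex.continuous_re.comp (mb_ip_cont (A.continuous.comp hwc) hwc)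
    · exact hwc.norm.mul (Complex.continuous_re.comp (mb_ip_cont hwc continuous_const))
  have hmem : (0 : ℝ) ∈ closure (Set.Ioi (0 : ℝ)) := by
    rw [closure_Ioi]
    simp
  have hcl : IsClosed {t : ℝ | 0 ≤ (ip (A (w t)) (w t)).re + ‖w t‖ * (ip (w t) b).re} :=
    isClosed_le continuous_const hcont
  have h2 := hcl.closure_subset_iff.2 (fun t ht => h1 t ht) hmem
  simp only [Set.mem_ofPred_eq] at h2
  have e0 : w 0 = z := by simp [hw]
  rw [e0] at h2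
  exact h2

private lemma mb_all' {A : Cn 2 →L[ℂ] Cn 2} {e f : Cn 2} (he : ‖e‖ = 1) (hf : ‖f‖ = 1)
    (hef : ip e f = 0) {b : Cn 2} (h : Hb A e f b ∈ NA A) (z : Cn 2) :
    0 ≤ (ip (A z) z).re + ‖z‖ * (ip z b).re := by
  by_cases hz : ip z e = 0
  swap
  · exact mb_all he hf hef h hz
  set w : ℝ → Cn 2 := fun t => z + (t : ℂ) • e with hw
  have hwc : Continuous w := by
    rw [hw]
    exact continuous_const.add (Complex.continuous_ofReal.smul continuous_const)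
  have h1 : ∀ t : ℝ, 0 < t → 0 ≤ (ip (A (w t)) (w t)).re + ‖w t‖ * (ip (w t) b).re := by
    intro t ht
    refine mb_all he hf hef h ?_
    rw [hw]
    simp only
    rw [mb_add, mb_smul, mb_self, he, hz]
    push_cast
    simpa using ht.ne'
  have hcont : Continuous (fun t : ℝ => (ip (A (w t)) (w t)).re + ‖w t‖ * (ip (w t) b).re) := by
    refine Continuous.add ?_ ?_
    · exact Complex.continuous_re.comp (mb_ip_cont (A.continuous.comp hwc) hwc)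
    · exact hwc.norm.mul (Complex.continuous_re.comp (mb_ip_cont hwc continuous_const))
  have hmem : (0 : ℝ) ∈ closure (Set.Ioi (0 : ℝ)) := by
    rw [closure_Ioi]
    simp
  have hcl : IsClosed {t : ℝ | 0 ≤ (ip (A (w t)) (w t)).re + ‖w t‖ * (ip (w t) b).re} :=
    isClosed_le continuous_const hcont
  have h2 := hcl.closure_subset_iff.2 (fun t ht => h1 t ht) hmem
  simp only [Set.mem_ofPred_eq] at h2
  have e0 : w 0 = z := by simp [hw]
  rw [e0] at h2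
  exact h2

private lemma mb_mem_BA {A : Cn 2 →L[ℂ] Cn 2} {e f : Cn 2} (he : ‖e‖ = 1) (hf : ‖f‖ = 1)
    (hef : ip e f = 0) {b : Cn 2} (h : Hb A e f b ∈ NA A) : b ∈ BA A := by
  intro ζ hζ
  rcases eq_or_ne (ip ζ b) 0 with h0 | h0
  · have h1 := mb_all' he hf hef h ζ
    rw [h0, Complex.zero_re, mul_zero, add_zero] at h1
    rw [h0, norm_zero]
    exact h1
  · have hn : 0 < ‖ip ζ b‖ := norm_pos_iff.2 h0
    set ω : ℂ := -((starRingEnd ℂ) (ip ζ b) / (‖ip ζ b‖ : ℂ)) with hω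
    have hωn : ‖ω‖ = 1 := by
      rw [hω, norm_neg, norm_div, Complex.norm_conj, Complex.norm_real, Real.norm_of_nonneg hn.le]
      field_simp
    have h1 := mb_all' he hf hef h (ω • ζ)
    rw [norm_smul, hωn, hζ, map_smul, mb_smul, mb_smul_right, mb_smul, ← mul_assoc,
      Complex.mul_conj, Complex.normSq_eq_norm_sq, hωn] at h1
    have e1 : ω * ip ζ b = ((-‖ip ζ b‖ : ℝ) : ℂ) := by
      have h2 : (starRingEnd ℂ) (ip ζ b) * ip ζ b = ((‖ip ζ b‖ ^ 2 : ℝ) : ℂ) := by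
        rw [mul_comm, Complex.mul_conj, Complex.normSq_eq_norm_sq]
      have hn' : (‖ip ζ b‖ : ℂ) ≠ 0 := by exact_mod_cast hn.ne'
      rw [hω, neg_mul, div_mul_eq_mul_div, h2]
      push_cast
      field_simp
    rw [e1] at h1
    simp only [one_pow, Complex.ofReal_one, one_mul, mul_one, Complex.ofReal_re] at h1
    linarith


theorem norm_qf_le {e f : Cn 2} (he : ‖e‖ = 1) (hf : ‖f‖ = 1) (hef : ip e f = 0) (z : Cn 2) :
    ‖qf e f z‖ ≤ ‖z‖ ^ 2 := by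
  rw [mb_qnorm]
  have := mb_bessel he hf hef z
  nlinarith [sq_nonneg (‖ip z e‖ - ‖ip z f‖)]

theorem re_Hb (A : Cn 2 →L[ℂ] Cn 2) {e f : Cn 2} (he : ‖e‖ = 1) (hf : ‖f‖ = 1)
    (hef : ip e f = 0) (b : Cn 2) {z : Cn 2} (hz : z ∈ ball (0 : Cn 2) 1) :
    (ip (Hb A e f b z) z).re * ‖1 - qf e f z‖ ^ 2 =
      (ip (A z) z).re * (1 - ‖qf e f z‖ ^ 2) + (ip z b).re * (‖z‖ ^ 2 - ‖qf e f z‖ ^ 2) +
        (1 - ‖z‖ ^ 2) * (qf e f z * (starRingEnd ℂ) (ip z b)).re := by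
  exact mb_re_Hb A he hf hef b hz

theorem differentiableOn_Hb (A : Cn 2 →L[ℂ] Cn 2) {e f : Cn 2} (he : ‖e‖ = 1) (hf : ‖f‖ = 1)
    (hef : ip e f = 0) (b : Cn 2) : DifferentiableOn ℂ (Hb A e f b) (ball 0 1) := by
  exact mb_diffOn A he hf hef b

theorem fderiv_Hb (A : Cn 2 →L[ℂ] Cn 2) {e f : Cn 2} (he : ‖e‖ = 1) (hf : ‖f‖ = 1)
    (hef : ip e f = 0) (b : Cn 2) : fderiv ℂ (Hb A e f b) 0 = A := by
  exact (mb_Hb_hasFDerivAt A e f b).fderiv

theorem Hb_mem_iff {A : Cn 2 →L[ℂ] Cn 2} (hA : ∀ z : Cn 2, z ≠ 0 → 0 < (ip (A z) z).re)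
    {e f : Cn 2} (he : ‖e‖ = 1) (hf : ‖f‖ = 1) (hef : ip e f = 0) (b : Cn 2) :
    Hb A e f b ∈ NA A ↔ b ∈ BA A := by
  exact ⟨fun h => mb_mem_BA he hf hef h, fun h => mb_mem_NA hA he hf hef h⟩

/-- domination, for every `b` -/
theorem dominated (A : Cn 2 →L[ℂ] Cn 2) {e f : Cn 2} (he : ‖e‖ = 1) (hf : ‖f‖ = 1)
    (hef : ip e f = 0) (b : Cn 2) : ∃ C : ℝ, 0 ≤ C ∧ ∀ z ∈ ball (0 : Cn 2) 1,
    |(ip (Hb A e f b z) z).re| * ‖1 - qf e f z‖ ^ 2 ≤ C * (‖z‖ ^ 2 * (1 - ‖qf e f z‖ ^ 2)) := by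
  refine ⟨‖A‖ + ‖b‖, by positivity, fun z hz => ?_⟩
  obtain ⟨h1, h2, h3, hne⟩ := mb_one_sub_ne he hf hef hz
  have hest := mb_est A he hf hef b hz
  have hβ := mb_norm_le z b
  have hδ : |(ip (A z) z).re| ≤ ‖A‖ * ‖z‖ ^ 2 := by
    refine (Complex.abs_re_le_norm _).trans ((mb_norm_le _ _).trans ?_)
    have := A.le_opNorm z
    nlinarith [norm_nonneg z]
  set R := ‖z‖ with hRdef
  set Q := ‖qf e f z‖ with hQdef
  set δ := (ip (A z) z).re with hδdef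
  have hQ0 : 0 ≤ Q := norm_nonneg _
  have hR0 : 0 ≤ R := norm_nonneg _
  have hb0 : 0 ≤ ‖b‖ := norm_nonneg _
  have hsq : 0 ≤ ‖1 - qf e f z‖ ^ 2 := by positivity
  have e1 : |(ip (Hb A e f b z) z).re| * ‖1 - qf e f z‖ ^ 2 =
      |(ip (Hb A e f b z) z).re * ‖1 - qf e f z‖ ^ 2| := by
    rw [abs_mul, abs_of_nonneg hsq]
  rw [e1]
  set X := (ip (Hb A e f b z) z).re * ‖1 - qf e f z‖ ^ 2 with hX
  have hQ2 : 0 ≤ 1 - Q ^ 2 := by nlinarith
  have h4 : |X| ≤ |X - δ * (1 - Q ^ 2)| + |δ * (1 - Q ^ 2)| := by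
    calc |X| = |(X - δ * (1 - Q ^ 2)) + δ * (1 - Q ^ 2)| := by rw [sub_add_cancel]
      _ ≤ _ := abs_add_le _ _
  have h5 : |δ * (1 - Q ^ 2)| ≤ ‖A‖ * R ^ 2 * (1 - Q ^ 2) := by
    rw [abs_mul, abs_of_nonneg hQ2]
    exact mul_le_mul_of_nonneg_right hδ hQ2
  have h6 : (R ^ 2 + Q) * (1 - Q) ≤ R * (1 - Q ^ 2) := by
    have : 0 ≤ (1 - Q) * ((1 - R) * (R - Q)) := by
      have a1 : 0 ≤ 1 - Q := by linarith
      have a2 : 0 ≤ 1 - R := by linarith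
      have a3 : 0 ≤ R - Q := by nlinarith
      positivity
    nlinarith
  have h7 : ‖ip z b‖ * ((R ^ 2 + Q) * (1 - Q)) ≤ ‖b‖ * R ^ 2 * (1 - Q ^ 2) := by
    have hnn : 0 ≤ (R ^ 2 + Q) * (1 - Q) := by
      have : 0 ≤ 1 - Q := by linarith
      positivity
    calc ‖ip z b‖ * ((R ^ 2 + Q) * (1 - Q)) ≤ (R * ‖b‖) * ((R ^ 2 + Q) * (1 - Q)) :=
          mul_le_mul_of_nonneg_right hβ hnn
      _ ≤ (R * ‖b‖) * (R * (1 - Q ^ 2)) := mul_le_mul_of_nonneg_left h6 (by positivity)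
      _ = _ := by ring
  calc |X| ≤ ‖b‖ * R ^ 2 * (1 - Q ^ 2) + ‖A‖ * R ^ 2 * (1 - Q ^ 2) :=
        h4.trans (add_le_add (hest.trans h7) h5)
    _ = _ := by ring

theorem Hb_inj (A : Cn 2 →L[ℂ] Cn 2) {e f : Cn 2} (he : ‖e‖ = 1) (hf : ‖f‖ = 1)
    (hef : ip e f = 0) {b b' : Cn 2}
    (h : ∀ z ∈ ball (0 : Cn 2) 1, Hb A e f b z = Hb A e f b' z) : b = b' := by
  set c : Cn 2 := b - b' with hc
  have hrel : ∀ z ∈ ball (0 : Cn 2) 1, ip z c • z + qf e f z • c = 0 := by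
    intro z hz
    obtain ⟨_, _, _, hne⟩ := mb_one_sub_ne he hf hef hz
    have h1 := h z hz
    unfold Hb at h1
    have e1 : ip z c = ip z b - ip z b' := by
      rw [hc]; unfold ip; rw [inner_sub_left]
    have h2 : (ip z b / (1 - qf e f z)) • z + (qf e f z / (1 - qf e f z)) • b =
        (ip z b' / (1 - qf e f z)) • z + (qf e f z / (1 - qf e f z)) • b' := by
      have h3 := add_right_cancel h1
      rw [add_assoc, add_assoc] at h3
      exact add_left_cancel h3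
    have h4 : (1 - qf e f z) • ((ip z b / (1 - qf e f z)) • z +
        (qf e f z / (1 - qf e f z)) • b) = (1 - qf e f z) •
        ((ip z b' / (1 - qf e f z)) • z + (qf e f z / (1 - qf e f z)) • b') := by rw [h2]
    rw [smul_add, smul_add, smul_smul, smul_smul, smul_smul, smul_smul,
      mul_div_cancel₀ _ hne, mul_div_cancel₀ _ hne, mul_div_cancel₀ _ hne] at h4
    rw [e1, hc, sub_smul, smul_sub]
    have h5 : ip z b • z + qf e f z • b - (ip z b' • z + qf e f z • b') = 0 := sub_eq_zero.2 h4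
    rw [← h5]
    abel
  have hball : ∀ w : Cn 2, ‖w‖ ≤ 2 → ((1 / 4 : ℝ) : ℂ) • w ∈ ball (0 : Cn 2) 1 := by
    intro w hw
    rw [mem_ball_zero_iff, norm_smul, Complex.norm_real, Real.norm_of_nonneg (by norm_num)]
    linarith
  have hfe : ip f e = 0 := by rw [← mb_conj, hef, map_zero]
  have hee : ip e e = 1 := by rw [mb_self, he]; simp
  have hff : ip f f = 1 := by rw [mb_self, hf]; simp
  have h4 : (((1 / 4 : ℝ) : ℂ)) ≠ 0 := by
    intro hcon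
    have := congrArg Complex.re hcon
    simp at this
  have hec : ip e c = 0 := by
    have h1 := hrel _ (hball e (by rw [he]; norm_num))
    have hq : qf e f (((1 / 4 : ℝ) : ℂ) • e) = 0 := by
      rw [mb_qf_smul]; unfold qf; rw [hef]; ring
    rw [hq, zero_smul, add_zero, mb_smul, smul_smul] at h1
    have he0 : e ≠ 0 := by
      intro hcon; rw [hcon, norm_zero] at he; exact zero_ne_one he
    rcases smul_eq_zero.1 h1 with h2 | h2
    · rcases mul_eq_zero.1 h2 with h3 | h3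
      · rcases mul_eq_zero.1 h3 with h5 | h5
        · exact absurd h5 h4
        · exact h5
      · exact absurd h3 h4
    · exact absurd h2 he0
  have hfc : ip f c = 0 := by
    have h1 := hrel _ (hball f (by rw [hf]; norm_num))
    have hq : qf e f (((1 / 4 : ℝ) : ℂ) • f) = 0 := by
      rw [mb_qf_smul]; unfold qf; rw [hfe]; ring
    rw [hq, zero_smul, add_zero, mb_smul, smul_smul] at h1
    have hf0 : f ≠ 0 := by
      intro hcon; rw [hcon, norm_zero] at hf; exact zero_ne_one hf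
    rcases smul_eq_zero.1 h1 with h2 | h2
    · rcases mul_eq_zero.1 h2 with h3 | h3
      · rcases mul_eq_zero.1 h3 with h5 | h5
        · exact absurd h5 h4
        · exact h5
      · exact absurd h3 h4
    · exact absurd h2 hf0
  have h1 := hrel _ (hball (e + f) (by
    have := norm_add_le e f
    rw [he, hf] at this
    linarith))
  rw [mb_smul, mb_add, hec, hfc, add_zero, mul_zero, zero_smul, zero_add, mb_qf_smul] at h1
  have hq : qf e f (e + f) = 2 := by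
    unfold qf
    rw [mb_add, mb_add, hee, hff, hef, hfe]
    ring
  rw [hq] at h1
  rcases smul_eq_zero.1 h1 with h2 | h2
  · exfalso
    rcases mul_eq_zero.1 h2 with h3 | h3
    · exact h4 (pow_eq_zero_iff (two_ne_zero) |>.1 h3)
    · exact two_ne_zero h3
  · exact sub_eq_zero.1 h2

/-- `Hb` is real affine in `b` -/
theorem Hb_affine (A : Cn 2 →L[ℂ] Cn 2) (e f b b' : Cn 2) (t : ℝ) (z : Cn 2) :
    Hb A e f ((t : ℂ) • b + ((1 - t : ℝ) : ℂ) • b') z =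
      (t : ℂ) • Hb A e f b z + ((1 - t : ℝ) : ℂ) • Hb A e f b' z := by
  unfold Hb
  rw [mb_add_right, mb_smul_right, mb_smul_right, Complex.conj_ofReal, Complex.conj_ofReal]
  have e1 : (((1 - t : ℝ) : ℂ)) = 1 - (t : ℂ) := by push_cast; ring
  rw [e1]
  simp only [smul_add, smul_sub, smul_smul, add_smul, sub_smul]
  module

end Pool.Agent.P1ae5
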