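import Pool.Agent.Lib.P1ae5.AllPlaneVal
import Pool.Agent.Lib.P1ae5.AllBasic
import Pool.Agent.Lib.P1ae5.Member

/-!
P1ae5.AllMem (MP_1ae5d5_an). STUB, statements fixed.

For `OPair X Y` and `z = ξ X + η Y` in the ball put `s = ‖z‖^2 = |ξ|^2+|η|^2`,
`q = qq z = ξ^2+η^2`, `w = ww l J X Y ξ η`. By `plane_val`,
`ip (VLJ l J z) z = w s + q conj w`, hence (Re (1+q)/(1-q) |1-q|^2 = 1 - |q|^2,
`ip (herm A z) z` real `= (ip (A z) z).re`, `ip (A z - herm A z) z` purely imaginary)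
`re_hLJ`: `(ip (h z) z).re * |1-q|^2 = (ip (A z) z).re (1-|q|^2) + w.re (s - |q|^2)
   + (1-s) (q conj w).re`.
This is the formula of `re_Hb` (Member.lean) for the compression `A'` of `A` to the plane:
`A' ζ = toLp 2 ![ip (A z) (ofR X), ip (A z) (ofR Y)]`, `z = ζ 0 • ofR X + ζ 1 • ofR Y`,
`b = toLp 2 ![bb l J X Y, bb l J Y X]`, `e = (1, I)/√2`, `f = (1, -I)/√2`
(`qf e f ζ = ζ 0^2 + ζ 1^2`, `ip ζ b = ww l J X Y (ζ 0) (ζ 1)`, `ip (A' ζ) ζ = ip (A z) z`).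
`mem_iff`: (←) `z ≠ 0` in the ball, `exists_plane`; `KKA` says `b ∈ BA A'`, so
`Hb A' e f b ∈ NA A'` by `Hb_mem_iff`, hence `0 < (ip (Hb A' e f b ζ) ζ).re`, and
`(ip (hLJ z) z).re` is the same number (divide by `|1-q|^2 > 0`). Regularity from AllBasic.
(→) for every `OPair X Y` the map `Hb A' e f b` is in `NA A'` (regularity from Member.lean,
positivity from the formula), so `b ∈ BA A'` by `Hb_mem_iff`.
`dominated_hLJ`: with `M = ‖A‖`, `|w| ≤ M √s` (homogeneity of `ww`, `KKA`),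
`|w.re (s - |q|^2) + (1-s) (q conj w).re| ≤ |w| (1-|q|)(s+|q|) ≤ 2 M s (1-|q|) √s ≤ 2 M s (1-|q|^2)`
(`|q| ≤ s < 1`: `s - |q|^2 + (1-s)|q| = (1-|q|)(s+|q|)`). So `C = 3 ‖A‖` works.
-/

open Metric

namespace Pool.Agent.P1ae5

namespace AllMemAux

lemma am_smul {n : ℕ} (a : ℂ) (z w : Cn n) : ip (a • z) w = a * ip z w := by
  unfold ip; rw [inner_smul_right]

lemma am_add {n : ℕ} (z z' w : Cn n) : ip (z + z') w = ip z w + ip z' w := by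
  unfold ip; rw [inner_add_right]

lemma am_sub {n : ℕ} (z z' w : Cn n) : ip (z - z') w = ip z w - ip z' w := by
  unfold ip; rw [inner_sub_right]

lemma am_smul_right {n : ℕ} (a : ℂ) (z w : Cn n) :
    ip z (a • w) = (starRingEnd ℂ) a * ip z w := by
  unfold ip; rw [inner_smul_left]

lemma am_add_right {n : ℕ} (z w w' : Cn n) : ip z (w + w') = ip z w + ip z w' := by
  unfold ip; rw [inner_add_left]

lemma am_norm_le {n : ℕ} (z w : Cn n) : ‖ip z w‖ ≤ ‖z‖ * ‖w‖ := by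
  unfold ip; rw [mul_comm]; exact norm_inner_le_norm w z

lemma am_herm_ip {n : ℕ} (A : Cn n →L[ℂ] Cn n) (z : Cn n) :
    ip (herm A z) z = (((ip (A z) z).re : ℝ) : ℂ) := by
  have h1 : herm A z = (1 / 2 : ℂ) • (A z + ContinuousLinearMap.adjoint A z) := by
    simp [herm]
  rw [h1, am_smul, am_add]
  have h2 : ip (ContinuousLinearMap.adjoint A z) z = (starRingEnd ℂ) (ip (A z) z) := by
    unfold ip
    rw [ContinuousLinearMap.adjoint_inner_right, inner_conj_symm]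
  rw [h2]
  apply Complex.ext
  · simp
    ring
  · simp

lemma am_div_re (w u : ℂ) (hu : u ≠ 0) :
    (w / u).re * ‖u‖ ^ 2 = (w * (starRingEnd ℂ) u).re := by
  have h1 : ‖u‖ ^ 2 = Complex.normSq u := (Complex.normSq_eq_norm_sq u).symm
  have h2 : w / u * (Complex.normSq u : ℂ) = w * (starRingEnd ℂ) u := by
    rw [← Complex.mul_conj]
    field_simp
  rw [h1, ← h2, Complex.re_mul_ofReal]

lemma am_key {δ' β' R Q : ℝ} {x y : ℝ} (hQ0 : 0 ≤ Q) (hR0 : 0 ≤ R) (hR : R < 1)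
    (hQ : Q ≤ R ^ 2) (hx : |x| ≤ β') (hy : |y| ≤ Q * β') :
    |δ' * (1 - Q ^ 2) + x * (R ^ 2 - Q ^ 2) + (1 - R ^ 2) * y - δ' * (1 - Q ^ 2)| ≤
      β' * ((R ^ 2 + Q) * (1 - Q)) := by
  have hQ1 : Q ≤ 1 := by nlinarith
  have h1 : 0 ≤ R ^ 2 - Q ^ 2 := by nlinarith
  have h2 : 0 ≤ 1 - R ^ 2 := by nlinarith
  have e1 : δ' * (1 - Q ^ 2) + x * (R ^ 2 - Q ^ 2) + (1 - R ^ 2) * y - δ' * (1 - Q ^ 2) =
    x * (R ^ 2 - Q ^ 2) + (1 - R ^ 2) * y := by ring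
  rw [e1]
  have h3 : |x * (R ^ 2 - Q ^ 2)| ≤ β' * (R ^ 2 - Q ^ 2) := by
    rw [abs_mul, abs_of_nonneg h1]
    exact mul_le_mul_of_nonneg_right hx h1
  have h4 : |(1 - R ^ 2) * y| ≤ (1 - R ^ 2) * (Q * β') := by
    rw [abs_mul, abs_of_nonneg h2]
    exact mul_le_mul_of_nonneg_left hy h2
  calc |x * (R ^ 2 - Q ^ 2) + (1 - R ^ 2) * y| ≤ |x * (R ^ 2 - Q ^ 2)| + |(1 - R ^ 2) * y| :=
        abs_add_le _ _
    _ ≤ β' * (R ^ 2 - Q ^ 2) + (1 - R ^ 2) * (Q * β') := add_le_add h3 h4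
    _ = β' * ((R ^ 2 + Q) * (1 - Q)) := by ring

/-- the embedding of the plane -/
noncomputable def PX {n : ℕ} (X Y : RV n) : Cn 2 →L[ℂ] Cn n :=
  (EuclideanSpace.proj (0 : Fin 2) : Cn 2 →L[ℂ] ℂ).smulRight (ofR X) +
    (EuclideanSpace.proj (1 : Fin 2) : Cn 2 →L[ℂ] ℂ).smulRight (ofR Y)

lemma PX_apply {n : ℕ} (X Y : RV n) (ζ : Cn 2) : PX X Y ζ = ζ 0 • ofR X + ζ 1 • ofR Y := by
  simp [PX]

/-- the compression -/
noncomputable def cA {n : ℕ} (A : Cn n →L[ℂ] Cn n) (X Y : RV n) : Cn 2 →L[ℂ] Cn 2 :=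
  (ContinuousLinearMap.adjoint (PX X Y)).comp (A.comp (PX X Y))

lemma ip_cA {n : ℕ} (A : Cn n →L[ℂ] Cn n) (X Y : RV n) (ζ : Cn 2) :
    ip (cA A X Y ζ) ζ = ip (A (PX X Y ζ)) (PX X Y ζ) := by
  unfold ip cA
  rw [ContinuousLinearMap.comp_apply, ContinuousLinearMap.comp_apply,
    ContinuousLinearMap.adjoint_inner_right]

lemma norm_PX {n : ℕ} {X Y : RV n} (h : OPair X Y) (ζ : Cn 2) : ‖PX X Y ζ‖ = ‖ζ‖ := by
  have h1 : ‖PX X Y ζ‖ ^ 2 = ‖ζ‖ ^ 2 := by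
    rw [PX_apply, norm_plane h, EuclideanSpace.norm_sq_eq, Fin.sum_univ_two]
  exact (sq_eq_sq₀ (norm_nonneg _) (norm_nonneg _)).1 h1

/-- `(1, I)/√2` -/
noncomputable def ee : Cn 2 :=
  WithLp.toLp 2 ![((1 / √2 : ℝ) : ℂ), ((1 / √2 : ℝ) : ℂ) * Complex.I]

/-- `(1, -I)/√2` -/
noncomputable def ff : Cn 2 :=
  WithLp.toLp 2 ![((1 / √2 : ℝ) : ℂ), -(((1 / √2 : ℝ) : ℂ) * Complex.I)]

/-- the vector `b` -/
noncomputable def bV {n : ℕ} (l : RV n) (J : Bil n) (X Y : RV n) : Cn 2 :=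
  WithLp.toLp 2 ![bb l J X Y, bb l J Y X]

lemma ip_two (z w : Cn 2) : ip z w = z 0 * (starRingEnd ℂ) (w 0) + z 1 * (starRingEnd ℂ) (w 1) := by
  unfold ip
  rw [PiLp.inner_apply, Fin.sum_univ_two]
  simp [RCLike.inner_apply]

lemma sq2 : ((1 / √2 : ℝ)) * (1 / √2 : ℝ) = 1 / 2 := by
  rw [div_mul_div_comm, one_mul, Real.mul_self_sqrt (by norm_num)]

lemma sq2C : (((1 / √2 : ℝ)) : ℂ) * ((1 / √2 : ℝ) : ℂ) = 1 / 2 := by
  rw [← Complex.ofReal_mul, sq2]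
  push_cast
  rfl

lemma ip_ee (z : Cn 2) : ip z ee = ((1 / √2 : ℝ) : ℂ) * (z 0 - Complex.I * z 1) := by
  rw [ip_two]
  change z 0 * (starRingEnd ℂ) (((1 / √2 : ℝ) : ℂ)) +
    z 1 * (starRingEnd ℂ) (((1 / √2 : ℝ) : ℂ) * Complex.I) = _
  rw [map_mul, Complex.conj_ofReal, Complex.conj_I]
  ring

lemma ip_ff (z : Cn 2) : ip z ff = ((1 / √2 : ℝ) : ℂ) * (z 0 + Complex.I * z 1) := by
  rw [ip_two]
  change z 0 * (starRingEnd ℂ) (((1 / √2 : ℝ) : ℂ)) +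
    z 1 * (starRingEnd ℂ) (-(((1 / √2 : ℝ) : ℂ) * Complex.I)) = _
  rw [map_neg, map_mul, Complex.conj_ofReal, Complex.conj_I]
  ring

lemma qf_eeff (z : Cn 2) : qf ee ff z = z 0 ^ 2 + z 1 ^ 2 := by
  unfold qf
  rw [ip_ee, ip_ff]
  linear_combination 2 * (z 0 - Complex.I * z 1) * (z 0 + Complex.I * z 1) * sq2C -
    (z 1) ^ 2 * Complex.I_sq

lemma norm_ee : ‖ee‖ = 1 := by
  have h1 : ‖ee‖ ^ 2 = 1 := by
    rw [EuclideanSpace.norm_sq_eq, Fin.sum_univ_two]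
    change ‖(((1 / √2 : ℝ)) : ℂ)‖ ^ 2 + ‖(((1 / √2 : ℝ)) : ℂ) * Complex.I‖ ^ 2 = 1
    rw [norm_mul, Complex.norm_I, mul_one, Complex.norm_real, Real.norm_eq_abs, sq_abs, sq, sq2]
    norm_num
  nlinarith [norm_nonneg ee]

lemma norm_ff : ‖ff‖ = 1 := by
  have h1 : ‖ff‖ ^ 2 = 1 := by
    rw [EuclideanSpace.norm_sq_eq, Fin.sum_univ_two]
    change ‖(((1 / √2 : ℝ)) : ℂ)‖ ^ 2 + ‖-((((1 / √2 : ℝ)) : ℂ) * Complex.I)‖ ^ 2 = 1
    rw [norm_neg, norm_mul, Complex.norm_I, mul_one, Complex.norm_real, Real.norm_eq_abs, sq_abs,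
      sq, sq2]
    norm_num
  nlinarith [norm_nonneg ff]

lemma ip_eeff : ip ee ff = 0 := by
  rw [ip_ff]
  change (((1 / √2 : ℝ)) : ℂ) * ((((1 / √2 : ℝ)) : ℂ) +
    Complex.I * ((((1 / √2 : ℝ)) : ℂ) * Complex.I)) = 0
  linear_combination (((1 / √2 : ℝ)) : ℂ) * (((1 / √2 : ℝ)) : ℂ) * Complex.I_sq

lemma ip_bV {n : ℕ} (l : RV n) (J : Bil n) (X Y : RV n) (ζ : Cn 2) :
    ip ζ (bV l J X Y) = ww l J X Y (ζ 0) (ζ 1) := by
  rw [ip_two]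
  rfl

lemma ip_VLJ {n : ℕ} {l : RV n} {J : Bil n} (hJ : IsTan J) {X Y : RV n} (h : OPair X Y)
    (ξ η : ℂ) :
    ip (VLJ l J (ξ • ofR X + η • ofR Y)) (ξ • ofR X + η • ofR Y) =
      ww l J X Y ξ η * ((‖ξ‖ ^ 2 + ‖η‖ ^ 2 : ℝ) : ℂ) +
        (ξ ^ 2 + η ^ 2) * (starRingEnd ℂ) (ww l J X Y ξ η) := by
  obtain ⟨h1, h2⟩ := plane_val (l := l) hJ h ξ η
  rw [am_add_right, am_smul_right, am_smul_right, h1, h2]
  have e1 : (((‖ξ‖ ^ 2 + ‖η‖ ^ 2 : ℝ)) : ℂ) =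
      ξ * (starRingEnd ℂ) ξ + η * (starRingEnd ℂ) η := by
    rw [Complex.mul_conj, Complex.mul_conj, Complex.normSq_eq_norm_sq, Complex.normSq_eq_norm_sq]
    push_cast
    ring
  have e2 : (starRingEnd ℂ) (ww l J X Y ξ η) =
      (starRingEnd ℂ) ξ * bb l J X Y + (starRingEnd ℂ) η * bb l J Y X := by
    unfold ww
    rw [map_add, map_mul, map_mul, Complex.conj_conj, Complex.conj_conj]
  rw [e1, e2]
  ring

end AllMemAux

open AllMemAux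

theorem re_hLJ {n : ℕ} (A : Cn n →L[ℂ] Cn n) {l : RV n} {J : Bil n} (hJ : IsTan J)
    {X Y : RV n} (h : OPair X Y) {ξ η : ℂ} (hξ : ‖ξ‖ ^ 2 + ‖η‖ ^ 2 < 1) :
    (ip (hLJ A l J (ξ • ofR X + η • ofR Y)) (ξ • ofR X + η • ofR Y)).re *
        ‖1 - (ξ ^ 2 + η ^ 2)‖ ^ 2 =
      (ip (A (ξ • ofR X + η • ofR Y)) (ξ • ofR X + η • ofR Y)).re * (1 - ‖ξ ^ 2 + η ^ 2‖ ^ 2) +
        (ww l J X Y ξ η).re * ((‖ξ‖ ^ 2 + ‖η‖ ^ 2) - ‖ξ ^ 2 + η ^ 2‖ ^ 2) +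
        (1 - (‖ξ‖ ^ 2 + ‖η‖ ^ 2)) * ((ξ ^ 2 + η ^ 2) * (starRingEnd ℂ) (ww l J X Y ξ η)).re := by
  have hne : 1 - (ξ ^ 2 + η ^ 2) ≠ 0 := by
    intro h0
    have h1 : ξ ^ 2 + η ^ 2 = 1 := by linear_combination -h0
    have h2 : ‖ξ ^ 2 + η ^ 2‖ ≤ ‖ξ‖ ^ 2 + ‖η‖ ^ 2 := by
      refine (norm_add_le _ _).trans ?_
      rw [norm_pow, norm_pow]
    rw [h1, norm_one] at h2
    linarith
  have hV := ip_VLJ (l := l) hJ h ξ η
  have hq := qq_plane h ξ η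
  set z := ξ • ofR X + η • ofR Y with hz
  set q : ℂ := ξ ^ 2 + η ^ 2 with hqd
  set w : ℂ := ww l J X Y ξ η with hw
  set s : ℝ := ‖ξ‖ ^ 2 + ‖η‖ ^ 2 with hs
  set δ : ℝ := (ip (A z) z).re with hδ
  have hip : ip (hLJ A l J z) z =
      ((1 + q) * (δ : ℂ) + w * (s : ℂ) + q * (starRingEnd ℂ) w) / (1 - q) +
        (ip (A z) z - (δ : ℂ)) := by
    unfold hLJ
    rw [hq, am_add, am_add, am_smul, am_smul, am_sub, am_herm_ip, hV, ← hδ]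
    field_simp
    ring
  rw [hip, Complex.add_re, add_mul, am_div_re _ _ hne]
  have h0 : (ip (A z) z - (δ : ℂ)).re = 0 := by simp [hδ]
  rw [h0, zero_mul, add_zero]
  have h1 : ‖q‖ ^ 2 = q.re ^ 2 + q.im ^ 2 := by
    rw [← Complex.normSq_eq_norm_sq, Complex.normSq_apply]; ring
  rw [h1]
  simp only [Complex.mul_re, Complex.mul_im, Complex.add_re, Complex.add_im, Complex.conj_re,
    Complex.conj_im, Complex.sub_re, Complex.sub_im, Complex.one_re, Complex.one_im,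
    Complex.ofReal_re, Complex.ofReal_im, map_sub, map_one]
  ring

namespace AllMemAux

/-- the comparison with the two-dimensional map -/
lemma cmp {n : ℕ} (A : Cn n →L[ℂ] Cn n) {l : RV n} {J : Bil n} (hJ : IsTan J)
    {X Y : RV n} (h : OPair X Y) {ζ : Cn 2} (hζ : ζ ∈ ball (0 : Cn 2) 1) :
    (ip (hLJ A l J (PX X Y ζ)) (PX X Y ζ)).re =
      (ip (Hb (cA A X Y) ee ff (bV l J X Y) ζ) ζ).re := by
  have hn : ‖ζ‖ < 1 := by simpa using hζ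
  have hs : ‖ζ 0‖ ^ 2 + ‖ζ 1‖ ^ 2 = ‖ζ‖ ^ 2 := by
    rw [EuclideanSpace.norm_sq_eq, Fin.sum_univ_two]
  have hlt : ‖ζ 0‖ ^ 2 + ‖ζ 1‖ ^ 2 < 1 := by
    rw [hs]
    nlinarith [norm_nonneg ζ]
  have h1 := re_hLJ A (l := l) hJ h hlt
  have h2 := re_Hb (cA A X Y) norm_ee norm_ff ip_eeff (bV l J X Y) hζ
  rw [qf_eeff, ip_bV, ip_cA, PX_apply, ← hs] at h2
  have h3 : 0 < ‖1 - (ζ 0 ^ 2 + ζ 1 ^ 2)‖ ^ 2 := by
    have hne : 1 - (ζ 0 ^ 2 + ζ 1 ^ 2) ≠ 0 := by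
      intro h0
      have h1 : ζ 0 ^ 2 + ζ 1 ^ 2 = 1 := by linear_combination -h0
      have h2 : ‖ζ 0 ^ 2 + ζ 1 ^ 2‖ ≤ ‖ζ 0‖ ^ 2 + ‖ζ 1‖ ^ 2 := by
        refine (norm_add_le _ _).trans ?_
        rw [norm_pow, norm_pow]
      rw [h1, norm_one] at h2
      linarith
    have := norm_pos_iff.2 hne
    positivity
  rw [PX_apply]
  exact mul_right_cancel₀ h3.ne' (h1.trans h2.symm)

lemma Hb_zero' (A : Cn 2 →L[ℂ] Cn 2) (b : Cn 2) : Hb A ee ff b 0 = 0 := by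
  unfold Hb
  rw [qf_eeff]
  simp

end AllMemAux

theorem hLJ_mem_iff {n : ℕ} (hn : 2 ≤ n) {A : Cn n →L[ℂ] Cn n}
    (hA : ∀ z : Cn n, z ≠ 0 → 0 < (ip (A z) z).re) {l : RV n} {J : Bil n} (hJ : IsTan J) :
    hLJ A l J ∈ NA A ↔ KKA A l J := by
  have hA' : ∀ X Y : RV n, OPair X Y → ∀ ζ : Cn 2, ζ ≠ 0 → 0 < (ip (cA A X Y ζ) ζ).re := by
    intro X Y h ζ hζ
    rw [ip_cA]
    refine hA _ fun h0 => hζ ?_
    rw [← norm_eq_zero, ← norm_PX h, h0, norm_zero]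
  constructor
  · intro hmem
    refine ⟨hJ, fun X Y h ξ η hξη => ?_⟩
    have h1 : Hb (cA A X Y) ee ff (bV l J X Y) ∈ NA (cA A X Y) := by
      refine ⟨differentiableOn_Hb _ norm_ee norm_ff ip_eeff _, Hb_zero' _ _,
        fderiv_Hb _ norm_ee norm_ff ip_eeff _, fun ζ hζ hζ0 => ?_⟩
      rw [← cmp A hJ h hζ]
      refine hmem.2.2.2 _ ?_ ?_
      · rw [mem_ball_zero_iff, norm_PX h]
        simpa using hζ
      · intro h0
        apply hζ0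
        rw [← norm_eq_zero, ← norm_PX h, h0, norm_zero]
    have h2 := (Hb_mem_iff (hA' X Y h) norm_ee norm_ff ip_eeff _).1 h1
    have h3 := h2 (WithLp.toLp 2 ![ξ, η]) (by
      have : ‖(WithLp.toLp 2 ![ξ, η] : Cn 2)‖ ^ 2 = 1 := by
        rw [EuclideanSpace.norm_sq_eq, Fin.sum_univ_two]
        exact hξη
      nlinarith [norm_nonneg (WithLp.toLp 2 ![ξ, η] : Cn 2)])
    rw [ip_bV, ip_cA, PX_apply] at h3
    exact h3
  · intro hK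
    refine ⟨diff_hLJ A l hJ.1, hLJ_zero A l J, fderiv_hLJ A l hJ.1, fun z hz hz0 => ?_⟩
    obtain ⟨X, Y, ξ, η, h, hzz⟩ := exists_plane hn z
    have hP : PX X Y (WithLp.toLp 2 ![ξ, η]) = z := by
      rw [PX_apply, hzz]
      rfl
    have hball : (WithLp.toLp 2 ![ξ, η] : Cn 2) ∈ ball (0 : Cn 2) 1 := by
      rw [mem_ball_zero_iff, ← norm_PX h, hP]
      simpa using hz
    rw [← hP, cmp A hJ h hball]
    have h1 : bV l J X Y ∈ BA (cA A X Y) := by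
      intro ζ hζ
      rw [ip_bV, ip_cA, PX_apply]
      refine hK.2 X Y h (ζ 0) (ζ 1) ?_
      have : ‖ζ‖ ^ 2 = 1 := by rw [hζ]; norm_num
      rw [EuclideanSpace.norm_sq_eq, Fin.sum_univ_two] at this
      exact this
    have h2 := (Hb_mem_iff (hA' X Y h) norm_ee norm_ff ip_eeff _).2 h1
    refine h2.2.2.2 _ hball ?_
    intro h0
    apply hz0
    rw [← hP, h0, map_zero]

theorem dominated_hLJ {n : ℕ} (hn : 2 ≤ n) {A : Cn n →L[ℂ] Cn n} {l : RV n} {J : Bil n}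
    (hK : KKA A l J) : ∃ C : ℝ, 0 ≤ C ∧ ∀ z ∈ ball (0 : Cn n) 1,
      |(ip (hLJ A l J z) z).re| * ‖1 - qq z‖ ^ 2 ≤ C * (‖z‖ ^ 2 * (1 - ‖qq z‖ ^ 2)) := by
  refine ⟨‖A‖ + ‖A‖, by positivity, fun z hz => ?_⟩
  obtain ⟨X, Y, ξ, η, h, hzz⟩ := exists_plane hn z
  have hR1 : ‖z‖ < 1 := by simpa using hz
  have hR0 : 0 ≤ ‖z‖ := norm_nonneg z
  have hs : ‖z‖ ^ 2 = ‖ξ‖ ^ 2 + ‖η‖ ^ 2 := by rw [hzz, norm_plane h]
  have hlt : ‖ξ‖ ^ 2 + ‖η‖ ^ 2 < 1 := by rw [← hs]; nlinarith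
  have hqz : qq z = ξ ^ 2 + η ^ 2 := by rw [hzz, qq_plane h]
  have hmain := re_hLJ A (l := l) hK.1 h hlt
  rw [← hzz, ← hs, ← hqz] at hmain
  have hQle : ‖qq z‖ ≤ ‖z‖ ^ 2 := norm_qq_le z
  have hδ : |(ip (A z) z).re| ≤ ‖A‖ * ‖z‖ ^ 2 := by
    refine (Complex.abs_re_le_norm _).trans ((am_norm_le _ _).trans ?_)
    have := A.le_opNorm z
    nlinarith [norm_nonneg z]
  have hw : ‖ww l J X Y ξ η‖ ≤ ‖z‖ * ‖A‖ := by
    rcases eq_or_lt_of_le hR0 with h0 | hpos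
    · have h1 : ‖ξ‖ ^ 2 + ‖η‖ ^ 2 = 0 := by rw [← hs, ← h0]; norm_num
      have h2 : ξ = 0 := by
        rw [← norm_eq_zero]
        nlinarith [sq_nonneg ‖ξ‖, sq_nonneg ‖η‖]
      have h3 : η = 0 := by
        rw [← norm_eq_zero]
        nlinarith [sq_nonneg ‖ξ‖, sq_nonneg ‖η‖]
      rw [h2, h3]
      unfold ww
      simp only [zero_mul, add_zero, norm_zero]
      positivity
    · have hinv : 0 < ‖z‖⁻¹ := inv_pos.2 hpos
      have h1 := hK.2 X Y h ((‖z‖⁻¹ : ℝ) * ξ) ((‖z‖⁻¹ : ℝ) * η) (by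
        rw [norm_mul, norm_mul, Complex.norm_real, Real.norm_of_nonneg hinv.le, mul_pow, mul_pow,
          ← mul_add, ← hs, ← mul_pow, inv_mul_cancel₀ hpos.ne', one_pow])
      have h2 : ww l J X Y ((‖z‖⁻¹ : ℝ) * ξ) ((‖z‖⁻¹ : ℝ) * η) =
          (‖z‖⁻¹ : ℝ) * ww l J X Y ξ η := by
        unfold ww
        ring
      have h3 : (((‖z‖⁻¹ : ℝ) : ℂ) * ξ) • ofR X + (((‖z‖⁻¹ : ℝ) : ℂ) * η) • ofR Y =
          ((‖z‖⁻¹ : ℝ) : ℂ) • z := by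
        rw [hzz, smul_add, smul_smul, smul_smul]
      rw [h2, h3, norm_mul, Complex.norm_real, Real.norm_of_nonneg hinv.le] at h1
      have h4 : (ip (A (((‖z‖⁻¹ : ℝ) : ℂ) • z)) (((‖z‖⁻¹ : ℝ) : ℂ) • z)).re ≤ ‖A‖ := by
        have hn1 : ‖(((‖z‖⁻¹ : ℝ) : ℂ) • z)‖ = 1 := by
          rw [norm_smul, Complex.norm_real, Real.norm_of_nonneg hinv.le,
            inv_mul_cancel₀ hpos.ne']
        refine (Complex.re_le_norm _).trans ((am_norm_le _ _).trans ?_)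
        rw [hn1, mul_one]
        have := A.le_opNorm (((‖z‖⁻¹ : ℝ) : ℂ) • z)
        rw [hn1, mul_one] at this
        exact this
      have h5 : ‖z‖ * (‖z‖⁻¹ * ‖ww l J X Y ξ η‖) ≤ ‖z‖ * ‖A‖ :=
        mul_le_mul_of_nonneg_left (h1.trans h4) hR0
      rwa [← mul_assoc, mul_inv_cancel₀ hpos.ne', one_mul] at h5
  set R := ‖z‖ with hRdef
  set Q := ‖qq z‖ with hQdef
  set δ := (ip (A z) z).re with hδdef
  set β := ‖ww l J X Y ξ η‖ with hβdef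
  have hest := am_key (δ' := δ) (β' := β) (R := R) (Q := Q) (x := (ww l J X Y ξ η).re)
    (y := (qq z * (starRingEnd ℂ) (ww l J X Y ξ η)).re) (norm_nonneg _) hR0 hR1 hQle
    (Complex.abs_re_le_norm _) (by
      refine (Complex.abs_re_le_norm _).trans (le_of_eq ?_)
      rw [norm_mul, Complex.norm_conj])
  rw [← hmain] at hest
  have hQ0 : 0 ≤ Q := norm_nonneg _
  have hA0 : 0 ≤ ‖A‖ := norm_nonneg _
  have hβ0 : 0 ≤ β := norm_nonneg _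
  have hsq : 0 ≤ ‖1 - qq z‖ ^ 2 := by positivity
  have e1 : |(ip (hLJ A l J z) z).re| * ‖1 - qq z‖ ^ 2 =
      |(ip (hLJ A l J z) z).re * ‖1 - qq z‖ ^ 2| := by
    rw [abs_mul, abs_of_nonneg hsq]
  rw [e1]
  set X' := (ip (hLJ A l J z) z).re * ‖1 - qq z‖ ^ 2 with hX
  have hQ1 : Q ≤ 1 := by nlinarith
  have hQ2 : 0 ≤ 1 - Q ^ 2 := by nlinarith
  have h4 : |X'| ≤ |X' - δ * (1 - Q ^ 2)| + |δ * (1 - Q ^ 2)| := by
    calc |X'| = |(X' - δ * (1 - Q ^ 2)) + δ * (1 - Q ^ 2)| := by rw [sub_add_cancel]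
      _ ≤ _ := abs_add_le _ _
  have h5 : |δ * (1 - Q ^ 2)| ≤ ‖A‖ * R ^ 2 * (1 - Q ^ 2) := by
    rw [abs_mul, abs_of_nonneg hQ2]
    exact mul_le_mul_of_nonneg_right hδ hQ2
  have h6 : (R ^ 2 + Q) * (1 - Q) ≤ R * (1 - Q ^ 2) := by
    have : 0 ≤ (1 - Q) * ((1 - R) * (R - Q)) := by
      have a1 : 0 ≤ 1 - Q := by linarith
      have a2 : 0 ≤ 1 - R := by linarith
      have a3 : 0 ≤ R - Q := by nlinarith
      positivity
    nlinarith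
  have h7 : β * ((R ^ 2 + Q) * (1 - Q)) ≤ ‖A‖ * R ^ 2 * (1 - Q ^ 2) := by
    have hnn : 0 ≤ (R ^ 2 + Q) * (1 - Q) := by
      have : 0 ≤ 1 - Q := by linarith
      positivity
    calc β * ((R ^ 2 + Q) * (1 - Q)) ≤ (R * ‖A‖) * ((R ^ 2 + Q) * (1 - Q)) :=
          mul_le_mul_of_nonneg_right hw hnn
      _ ≤ (R * ‖A‖) * (R * (1 - Q ^ 2)) := mul_le_mul_of_nonneg_left h6 (by positivity)
      _ = _ := by ring
  calc |X'| ≤ ‖A‖ * R ^ 2 * (1 - Q ^ 2) + ‖A‖ * R ^ 2 * (1 - Q ^ 2) :=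
        h4.trans (add_le_add (hest.trans h7) h5)
    _ = _ := by ring

theorem KKA_zero {n : ℕ} {A : Cn n →L[ℂ] Cn n}
    (hA : ∀ z : Cn n, z ≠ 0 → 0 < (ip (A z) z).re) : KKA A (0 : RV n) (0 : Bil n) := by
  refine ⟨⟨fun x y => rfl, fun x => ?_⟩, fun X Y h ξ η hξη => ?_⟩
  · unfold rdot
    simp
  · have h1 : ∀ X Y : RV n, bb (0 : RV n) (0 : Bil n) X Y = 0 := by
      intro X Y
      unfold bb rdot
      simp
    unfold ww
    rw [h1, h1, map_zero, mul_zero, mul_zero, add_zero, norm_zero]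
    by_cases hz : ξ • ofR X + η • ofR Y = 0
    · rw [hz, map_zero]
      unfold ip
      simp
    · exact (hA _ hz).le

/-- for `A` with Hermitian part `1` -/
theorem KKA_iff_KK {n : ℕ} {A : Cn n →L[ℂ] Cn n}
    (hA : ∀ z : Cn n, (ip (A z) z).re = ‖z‖ ^ 2) (l : RV n) (J : Bil n) :
    KKA A l J ↔ KK l J := by
  have hbb : ∀ X Y : RV n, ‖bb l J X Y‖ ^ 2 = (rdot l X / 2) ^ 2 + rdot (J Y Y) X ^ 2 := by
    intro X Y
    rw [← Complex.normSq_eq_norm_sq, Complex.normSq_apply]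
    unfold bb
    simp
    ring
  unfold KKA KK
  refine and_congr_right fun _ => forall_congr' fun X => forall_congr' fun Y =>
    forall_congr' fun h => ?_
  have hS : (rdot l X / 2) ^ 2 + (rdot l Y / 2) ^ 2 + rdot (J Y Y) X ^ 2 + rdot (J X X) Y ^ 2 =
      ‖bb l J X Y‖ ^ 2 + ‖bb l J Y X‖ ^ 2 := by
    rw [hbb, hbb]
    ring
  rw [hS]
  constructor
  · intro hK
    by_contra hcon
    push Not at hcon
    set S := ‖bb l J X Y‖ ^ 2 + ‖bb l J Y X‖ ^ 2 with hSd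
    have hS0 : 0 < S := by linarith
    have hr0 : 0 < √S := Real.sqrt_pos.2 hS0
    have hrr : √S * √S = S := Real.mul_self_sqrt hS0.le
    have h1 := hK (((√S)⁻¹ : ℝ) * bb l J X Y) (((√S)⁻¹ : ℝ) * bb l J Y X) (by
      rw [norm_mul, norm_mul, Complex.norm_real, Real.norm_of_nonneg (inv_pos.2 hr0).le, mul_pow,
        mul_pow, ← mul_add, ← hSd, inv_pow, sq, hrr, inv_mul_cancel₀ hS0.ne'])
    rw [hA, norm_plane h] at h1
    rw [norm_mul, norm_mul, Complex.norm_real, Real.norm_of_nonneg (inv_pos.2 hr0).le, mul_pow,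
        mul_pow, ← mul_add, ← hSd, inv_pow, sq, hrr, inv_mul_cancel₀ hS0.ne'] at h1
    have h2 : ww l J X Y (((√S)⁻¹ : ℝ) * bb l J X Y) (((√S)⁻¹ : ℝ) * bb l J Y X) =
        ((√S : ℝ) : ℂ) := by
      unfold ww
      have e1 : (((√S)⁻¹ : ℝ) : ℂ) * bb l J X Y * (starRingEnd ℂ) (bb l J X Y) +
          (((√S)⁻¹ : ℝ) : ℂ) * bb l J Y X * (starRingEnd ℂ) (bb l J Y X) =
          (((√S)⁻¹ * S : ℝ) : ℂ) := by
        rw [mul_assoc, mul_assoc, Complex.mul_conj, Complex.mul_conj, Complex.normSq_eq_norm_sq,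
          Complex.normSq_eq_norm_sq, hSd]
        push_cast
        ring
      rw [e1]
      congr 1
      nth_rewrite 2 [← hrr]
      rw [← mul_assoc, inv_mul_cancel₀ hr0.ne', one_mul]
    rw [h2, Complex.norm_real, Real.norm_of_nonneg hr0.le] at h1
    nlinarith
  · intro hle ξ η hξη
    rw [hA, norm_plane h, hξη]
    have h1 : ‖ww l J X Y ξ η‖ ≤ ‖ξ‖ * ‖bb l J X Y‖ + ‖η‖ * ‖bb l J Y X‖ := by
      unfold ww
      refine (norm_add_le _ _).trans ?_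
      rw [norm_mul, norm_mul, Complex.norm_conj, Complex.norm_conj]
    nlinarith [sq_nonneg (‖ξ‖ - ‖bb l J X Y‖), sq_nonneg (‖η‖ - ‖bb l J Y X‖)]

end Pool.Agent.P1ae5
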