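import Pool.Agent.Lib.P1ae5.AllDefs

/-! Explicit skew matrices (black box). -/

namespace Pool.Agent.P1ae5

/-- `(K, K')` is an extreme point of the body of pairs of skew matrices -/
def ExtrZZ {k : ℕ} (K K' : Matrix (Fin k) (Fin k) ℝ) : Prop :=
  ZZ K K' ∧ ∀ K1 K1' K2 K2' : Matrix (Fin k) (Fin k) ℝ, ZZ K1 K1' → ZZ K2 K2' →
    ∀ t : ℝ, 0 < t → t < 1 →
    K = t • K1 + (1 - t) • K2 → K' = t • K1' + (1 - t) • K2' →
    (K1 = K ∧ K1' = K') ∧ (K2 = K ∧ K2' = K')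

/-- skew matrix with entries `1` at `(2m, 2m+1)` -/
def KE (k : ℕ) : Matrix (Fin k) (Fin k) ℝ := fun i j =>
  if j.val = i.val + 1 ∧ i.val % 2 = 0 then 1
  else if i.val = j.val + 1 ∧ j.val % 2 = 0 then -1 else 0

/-- skew matrix with entries `1` at `(4a, 4a+2)` and `-1` at `(4a+1, 4a+3)` -/
def KF (k : ℕ) : Matrix (Fin k) (Fin k) ℝ := fun i j =>
  if j.val = i.val + 2 ∧ i.val % 4 = 0 then 1
  else if j.val = i.val + 2 ∧ i.val % 4 = 1 then -1
  else if i.val = j.val + 2 ∧ j.val % 4 = 0 then -1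
  else if i.val = j.val + 2 ∧ j.val % 4 = 1 then 1 else 0

end Pool.Agent.P1ae5
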