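import Pool.Agent.Lib.P1ae5.AllDefs

/-!
P1ae5.ZFace (MP_1ae5d5_an). STUB, statement fixed. Real linear algebra.

Notation: `a = ea k`, `c = ec k`, `W = {emb w}`; `a ⟂ c ⟂ W`. `J(x,y) = J1 x y`, tangential
(`IsTan J1`), so polarizing `rdot (J x x) x = 0`:
  (T1) `2 J(x,y).x = - J(x,x).y`; (T2) `J(x,y).z + J(y,z).x + J(z,x).y = 0`.
For `(l,J)` put `β(l,J;X,Y) = (l.X/2, l.Y/2, J(Y,Y).X, J(X,X).Y) ∈ R^4`, linear in `(l,J)`.
`KK` says `|β| ≤ 1` for every orthonormal pair. If `|β(2a, JZ; X,Y)| = 1` then, since it is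
`t β(l1,J1) + (1-t) β(l2,J2)` with both of norm `≤ 1`, strict convexity gives
`β(l1,J1;X,Y) = β(2a,JZ;X,Y)`.  (In Lean: `t|u|^2+(1-t)|v|^2 - |tu+(1-t)v|^2 = t(1-t)|u-v|^2`.)
(1) `X = a`, `Y ⟂ a` unit: `β(2a,JZ;a,Y) = (1, 0, JZ(Y,Y).a, JZ(a,a).Y) = (1,0,0,0)`, norm 1. So
    `l1.a = 2`, `l1.Y = 0` for all unit `Y ⟂ a`: `l1 = 2a`. Also `J(Y,Y).a = 0` and `J(a,a).Y = 0`;
    with `J(a,a).a = 0`: `J(a,a) = 0`. Polarizing: `J(y,y').a = 0` for all `y, y' ⟂ a`.
(2) `X = c`, `Y = y ∈ W` unit: `β(2a,JZ;c,y) = (0,0,-1,JZ(c,c).y = 0)`, norm 1. So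
    `J(y,y).c = -|y|^2` for `y ∈ W`, and `J(c,c).y = 0`; with `J(c,c).c = 0`, `J(c,c).a = 0`:
    `J(c,c) = 0`.
(3) For `x', y ⟂ a` orthonormal and `s^2 + σ^2 = 1`, `KK` for the pair `(s a + σ x', y)`:
    `J(y,y).X = σ J(y,y).x'`, `J(X,X).y = σ(2 s J(a,x').y + σ J(x',x').y)` (as `J(a,a) = 0`), so
    (*) `(J(y,y).x')^2 + (2 s J(a,x').y + σ J(x',x').y)^2 ≤ 1` for `σ ≠ 0`
    (divide `s^2 + σ^2 (...) ≤ 1` by `σ^2`).
(4) `y ∈ W` unit, `w ∈ W` unit, `w ⟂ y`, `x' = cos φ c + sin φ w`, `s = 0, σ = 1` in (*):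
    `(- cos φ + sin φ β)^2 ≤ 1`, `β = J(y,y).w`, for all `φ`; the maximum is `1 + β^2`
    (take `(cos φ, sin φ) = (-1, β)/√(1+β^2)`), so `β = 0`. So `J(y,y).w = 0` for all `w ∈ W`
    orthogonal to `y`, and `J(y,y).y = 0`, `J(y,y).a = 0`, `J(y,y).c = -|y|^2`:
    `J(y,y) = -|y|^2 c` for `y ∈ W`, and `J(y,y') = -(y.y') c` by polarization.
(5) `y ∈ W` unit, `x' = c`, `s = σ = 1/√2` in (*): `(J(y,y).c)^2 = 1` so
    `2 s J(a,c).y + σ J(c,c).y = 0`, thus `J(a,c).y = 0`. And `J(a,c).a = -J(a,a).c/2 = 0`,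
    `J(a,c).c = -J(c,c).a/2 = 0` by (T1). So `J(a,c) = 0`.
(6) For `y ∈ W`: `J(a,y).a = 0` (T1), `J(a,y).c = -J(y,c).a - J(c,a).y = 0` (T2). So `J(a,y) ∈ W`;
    define `K1` by `emb (K1 w) = 2 J(a, emb w)`; `K1` is skew because `2 J(a,y).y = -J(y,y).a = 0`.
(7) For `y ∈ W`: `J(c,y).a = 0` (1), `J(c,y).c = -J(c,c).y/2 = 0`, and `2 J(c,y).y = -J(y,y).c
    = |y|^2`. So `2 J(c,y) = y + K1' y` with `K1'` skew on `W`: define
    `emb (K1' w) = 2 J(c, emb w) - emb w`.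
(8) So `J1 = JZ K1 K1'` (both symmetric bilinear, equal on the basis `a, c, e_j`:
    `JZ(a,a) = 0, JZ(a,c) = 0, JZ(c,c) = 0, JZ(a,y) = K y/2, JZ(c,y) = (y + K'y)/2,
    JZ(y,y') = -(y.y') c`).
The statement is symmetric in the two members, so it is enough to state it for the first.
-/

open Metric

namespace Pool.Agent.P1ae5

namespace ZFaceAux

theorem rdot_comm {n : ℕ} (x y : RV n) : rdot x y = rdot y x := by
  unfold rdot
  exact Finset.sum_congr rfl fun i _ => mul_comm _ _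

theorem rdot_add_left {n : ℕ} (x y z : RV n) : rdot (x + y) z = rdot x z + rdot y z := by
  simp [rdot, add_mul, Finset.sum_add_distrib]

theorem rdot_add_right {n : ℕ} (x y z : RV n) : rdot x (y + z) = rdot x y + rdot x z := by
  simp [rdot, mul_add, Finset.sum_add_distrib]

theorem rdot_smul_left {n : ℕ} (c : ℝ) (x y : RV n) : rdot (c • x) y = c * rdot x y := by
  simp [rdot, Finset.mul_sum, mul_assoc]

theorem rdot_smul_right {n : ℕ} (c : ℝ) (x y : RV n) : rdot x (c • y) = c * rdot x y := by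
  rw [rdot_comm, rdot_smul_left, rdot_comm]

theorem rdot_zero_left {n : ℕ} (x : RV n) : rdot 0 x = 0 := by simp [rdot]

theorem rdot_zero_right {n : ℕ} (x : RV n) : rdot x 0 = 0 := by simp [rdot]

theorem rdot_sub_left {n : ℕ} (x y z : RV n) : rdot (x - y) z = rdot x z - rdot y z := by
  simp [rdot, sub_mul, Finset.sum_sub_distrib]

theorem rdot_self_nonneg {n : ℕ} (x : RV n) : 0 ≤ rdot x x :=
  Finset.sum_nonneg fun i _ => mul_self_nonneg _

theorem eq_zero_of_rdot {n : ℕ} {x : RV n} (h : rdot x x = 0) : x = 0 := by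
  have h1 := (Finset.sum_eq_zero_iff_of_nonneg (fun i _ => mul_self_nonneg (x i))).1 h
  funext i
  exact mul_self_eq_zero.1 (h1 i (Finset.mem_univ i))

theorem rdot_split {k : ℕ} (x y : RV (k + 2)) :
    rdot x y = x 0 * y 0 + x 1 * y 1 + rdot (tl x) (tl y) := by
  unfold rdot tl
  rw [Fin.sum_univ_succ, Fin.sum_univ_succ, ← add_assoc]
  rfl

theorem decomp {k : ℕ} (x : RV (k + 2)) : x = x 0 • ea k + x 1 • ec k + emb (tl x) := by
  funext i
  refine Fin.cases ?_ (fun j => Fin.cases ?_ (fun m => ?_) j) i <;> simp [ea, ec, emb, tl]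

theorem emb_zero' {k : ℕ} (w : RV k) : (emb w : RV (k + 2)) 0 = 0 := rfl

theorem emb_one' {k : ℕ} (w : RV k) : (emb w : RV (k + 2)) 1 = 0 := rfl

theorem tl_emb {k : ℕ} (w : RV k) : tl (emb w) = w := rfl

theorem ea_zero' {k : ℕ} : (ea k) 0 = 1 := rfl

theorem ea_one' {k : ℕ} : (ea k) 1 = 0 := rfl

theorem tl_ea {k : ℕ} : tl (ea k) = 0 := rfl

theorem ec_zero' {k : ℕ} : (ec k) 0 = 0 := rfl

theorem ec_one' {k : ℕ} : (ec k) 1 = 1 := rfl

theorem tl_ec {k : ℕ} : tl (ec k) = 0 := rfl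

theorem emb_add {k : ℕ} (w w' : RV k) : (emb (w + w') : RV (k + 2)) = emb w + emb w' := by
  funext i
  refine Fin.cases ?_ (fun j => Fin.cases ?_ (fun m => ?_) j) i <;> simp [emb]

theorem emb_smul {k : ℕ} (c : ℝ) (w : RV k) : (emb (c • w) : RV (k + 2)) = c • emb w := by
  funext i
  refine Fin.cases ?_ (fun j => Fin.cases ?_ (fun m => ?_) j) i <;> simp [emb]

theorem rdot_ea {k : ℕ} (x : RV (k + 2)) : rdot x (ea k) = x 0 := by
  rw [rdot_split, ea_zero', ea_one', tl_ea, rdot_zero_right]; ring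

theorem rdot_ec {k : ℕ} (x : RV (k + 2)) : rdot x (ec k) = x 1 := by
  rw [rdot_split, ec_zero', ec_one', tl_ec, rdot_zero_right]; ring

theorem rdot_emb {k : ℕ} (x : RV (k + 2)) (w : RV k) : rdot x (emb w) = rdot (tl x) w := by
  rw [rdot_split, emb_zero', emb_one', tl_emb]; ring

theorem ext_of {k : ℕ} {x y : RV (k + 2)} (h0 : x 0 = y 0) (h1 : x 1 = y 1)
    (h2 : tl x = tl y) : x = y := by
  rw [decomp x, decomp y, h0, h1, h2]

/-- (T1) -/
theorem T1 {n : ℕ} {J : Bil n} (hJ : IsTan J) (x y : RV n) :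
    2 * rdot (J x y) x = -rdot (J x x) y := by
  have e1 := hJ.2 (x + y)
  have e2 := hJ.2 (x + (-1 : ℝ) • y)
  have ex := hJ.2 x
  have ey := hJ.2 y
  simp only [map_add, map_smul, LinearMap.add_apply, LinearMap.smul_apply, rdot_add_left,
    rdot_add_right, rdot_smul_left, rdot_smul_right, hJ.1 y x] at e1 e2
  linarith

/-- (T2) -/
theorem T2 {n : ℕ} {J : Bil n} (hJ : IsTan J) (x y z : RV n) :
    rdot (J x y) z + rdot (J y z) x + rdot (J z x) y = 0 := by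
  have e1 := T1 hJ (x + z) y
  have e2 := T1 hJ x y
  have e3 := T1 hJ z y
  simp only [map_add, LinearMap.add_apply, rdot_add_left, rdot_add_right, hJ.1 x z, hJ.1 z y]
    at e1 e2 e3
  linarith

theorem strict {t a1 a2 a3 a4 b1 b2 b3 b4 c1 c2 c3 c4 : ℝ} (ht0 : 0 < t) (ht1 : t < 1)
    (ha : a1 ^ 2 + a2 ^ 2 + a3 ^ 2 + a4 ^ 2 ≤ 1) (hb : b1 ^ 2 + b2 ^ 2 + b3 ^ 2 + b4 ^ 2 ≤ 1)
    (hc : c1 ^ 2 + c2 ^ 2 + c3 ^ 2 + c4 ^ 2 = 1)
    (h1 : c1 = t * a1 + (1 - t) * b1) (h2 : c2 = t * a2 + (1 - t) * b2)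
    (h3 : c3 = t * a3 + (1 - t) * b3) (h4 : c4 = t * a4 + (1 - t) * b4) :
    a1 = c1 ∧ a2 = c2 ∧ a3 = c3 ∧ a4 = c4 := by
  have key : t * (1 - t) * ((a1 - b1) ^ 2 + (a2 - b2) ^ 2 + (a3 - b3) ^ 2 + (a4 - b4) ^ 2) =
      t * (a1 ^ 2 + a2 ^ 2 + a3 ^ 2 + a4 ^ 2) + (1 - t) * (b1 ^ 2 + b2 ^ 2 + b3 ^ 2 + b4 ^ 2) -
        (c1 ^ 2 + c2 ^ 2 + c3 ^ 2 + c4 ^ 2) := by
    rw [h1, h2, h3, h4]; ring
  have hle : t * (1 - t) * ((a1 - b1) ^ 2 + (a2 - b2) ^ 2 + (a3 - b3) ^ 2 + (a4 - b4) ^ 2) ≤ 0 := by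
    rw [key, hc]
    nlinarith [mul_le_mul_of_nonneg_left ha ht0.le,
      mul_le_mul_of_nonneg_left hb (sub_nonneg.2 ht1.le)]
  have hpos : 0 < t * (1 - t) := mul_pos ht0 (by linarith)
  have hs : (a1 - b1) ^ 2 + (a2 - b2) ^ 2 + (a3 - b3) ^ 2 + (a4 - b4) ^ 2 ≤ 0 := by
    by_contra hcon
    push Not at hcon
    have := mul_pos hpos hcon
    linarith
  have q1 : a1 - b1 = 0 := by
    have : (a1 - b1) ^ 2 = 0 := by
      linarith [sq_nonneg (a1 - b1), sq_nonneg (a2 - b2), sq_nonneg (a3 - b3), sq_nonneg (a4 - b4)]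
    exact pow_eq_zero_iff (two_ne_zero) |>.1 this
  have q2 : a2 - b2 = 0 := by
    have : (a2 - b2) ^ 2 = 0 := by
      linarith [sq_nonneg (a1 - b1), sq_nonneg (a2 - b2), sq_nonneg (a3 - b3), sq_nonneg (a4 - b4)]
    exact pow_eq_zero_iff (two_ne_zero) |>.1 this
  have q3 : a3 - b3 = 0 := by
    have : (a3 - b3) ^ 2 = 0 := by
      linarith [sq_nonneg (a1 - b1), sq_nonneg (a2 - b2), sq_nonneg (a3 - b3), sq_nonneg (a4 - b4)]
    exact pow_eq_zero_iff (two_ne_zero) |>.1 this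
  have q4 : a4 - b4 = 0 := by
    have : (a4 - b4) ^ 2 = 0 := by
      linarith [sq_nonneg (a1 - b1), sq_nonneg (a2 - b2), sq_nonneg (a3 - b3), sq_nonneg (a4 - b4)]
    exact pow_eq_zero_iff (two_ne_zero) |>.1 this
  have r1 : b1 = a1 := by linarith
  have r2 : b2 = a2 := by linarith
  have r3 : b3 = a3 := by linarith
  have r4 : b4 = a4 := by linarith
  rw [h1, h2, h3, h4, r1, r2, r3, r4]
  refine ⟨by ring, by ring, by ring, by ring⟩

theorem beta_eq {k : ℕ} {K K' : Matrix (Fin k) (Fin k) ℝ}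
    {l1 l2 : RV (k + 2)} {J1 J2 : Bil (k + 2)} (h1 : KK l1 J1) (h2 : KK l2 J2)
    {t : ℝ} (ht0 : 0 < t) (ht1 : t < 1)
    (hl : (2 : ℝ) • ea k = t • l1 + (1 - t) • l2)
    (hJ : JZ K K' = t • J1 + (1 - t) • J2) {X Y : RV (k + 2)} (hXY : OPair X Y)
    (h : (rdot ((2 : ℝ) • ea k) X / 2) ^ 2 + (rdot ((2 : ℝ) • ea k) Y / 2) ^ 2 +
      rdot (JZ K K' Y Y) X ^ 2 + rdot (JZ K K' X X) Y ^ 2 = 1) :
    rdot l1 X = rdot ((2 : ℝ) • ea k) X ∧ rdot l1 Y = rdot ((2 : ℝ) • ea k) Y ∧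
      rdot (J1 Y Y) X = rdot (JZ K K' Y Y) X ∧ rdot (J1 X X) Y = rdot (JZ K K' X X) Y := by
  have hlX : ∀ Z, rdot ((2 : ℝ) • ea k) Z = t * rdot l1 Z + (1 - t) * rdot l2 Z := by
    intro Z
    rw [hl, rdot_add_left, rdot_smul_left, rdot_smul_left]
  have hJX : ∀ Z Z', rdot (JZ K K' Z Z) Z' = t * rdot (J1 Z Z) Z' +
      (1 - t) * rdot (J2 Z Z) Z' := by
    intro Z Z'
    rw [hJ]
    simp only [LinearMap.add_apply, LinearMap.smul_apply, rdot_add_left, rdot_smul_left]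
  obtain ⟨e1, e2, e3, e4⟩ := strict ht0 ht1 (h1.2 X Y hXY) (h2.2 X Y hXY) h
    (by rw [hlX]; ring) (by rw [hlX]; ring) (hJX _ _) (hJX _ _)
  exact ⟨by linarith, by linarith, e3, e4⟩

theorem tl_zero {k : ℕ} : tl (0 : RV (k + 2)) = 0 := rfl

/-- scaling: a quadratic statement for unit vectors implies it for all vectors -/
theorem scale {n : ℕ} (x : RV n) (hx : x ≠ 0) :
    ∃ r : ℝ, r ≠ 0 ∧ r ^ 2 = rdot x x ∧ ∃ y : RV n, rdot y y = 1 ∧ x = r • y := by
  have h0 : 0 < rdot x x := lt_of_le_of_ne (rdot_self_nonneg x) fun h => hx (eq_zero_of_rdot h.symm)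
  have hr : √(rdot x x) ≠ 0 := (Real.sqrt_pos.2 h0).ne'
  have hsq : √(rdot x x) ^ 2 = rdot x x := Real.sq_sqrt h0.le
  refine ⟨√(rdot x x), hr, hsq, (√(rdot x x))⁻¹ • x, ?_, ?_⟩
  · rw [rdot_smul_left, rdot_smul_right, ← mul_assoc, ← sq, inv_pow, hsq,
      inv_mul_cancel₀ h0.ne']
  · rw [smul_smul, mul_inv_cancel₀ hr, one_smul]

theorem skew_of {k : ℕ} {M : Matrix (Fin k) (Fin k) ℝ}
    (h : ∀ w : RV k, rdot (M.mulVec w) w = 0) : M.transpose = -M := by
  have hs : ∀ i (x : RV k), rdot x (Pi.single i 1) = x i := by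
    intro i x
    simp [rdot, Pi.single_apply]
  have hm : ∀ i j, M.mulVec (Pi.single j 1) i = M i j := by
    intro i j
    simp
  ext i j
  rw [Matrix.transpose_apply, Matrix.neg_apply]
  have e := h (Pi.single i 1 + Pi.single j 1)
  have ei := h (Pi.single i 1)
  have ej := h (Pi.single j 1)
  rw [Matrix.mulVec_add, rdot_add_left, rdot_add_right, rdot_add_right] at e
  simp only [hs, hm] at e ei ej
  linarith

end ZFaceAux

open ZFaceAux in
theorem z_face {k : ℕ} {K K' : Matrix (Fin k) (Fin k) ℝ} (hs : SK K K')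
    {l1 l2 : RV (k + 2)} {J1 J2 : Bil (k + 2)} (h1 : KK l1 J1) (h2 : KK l2 J2)
    {t : ℝ} (ht0 : 0 < t) (ht1 : t < 1)
    (hl : (2 : ℝ) • ea k = t • l1 + (1 - t) • l2)
    (hJ : JZ K K' = t • J1 + (1 - t) • J2) :
    l1 = (2 : ℝ) • ea k ∧ ∃ K1 K1' : Matrix (Fin k) (Fin k) ℝ, SK K1 K1' ∧ J1 = JZ K1 K1' := by
  have hT := h1.1
  have B := fun {X Y : RV (k + 2)} (hXY : OPair X Y) =>
    beta_eq (K := K) (K' := K') h1 h2 ht0 ht1 hl hJ hXY
  have h2a : ∀ x : RV (k + 2), rdot ((2 : ℝ) • ea k) x = 2 * x 0 := by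
    intro x
    rw [rdot_smul_left, rdot_comm, rdot_ea]
  have hJZaa : JZ K K' (ea k) (ea k) = 0 := by
    rw [JZ_apply, tl_ea, ea_zero', ea_one']
    funext i
    refine Fin.cases ?_ (fun j => Fin.cases ?_ (fun m => ?_) j) i <;> simp [emb, rdot, ec]
  have hJZcc : JZ K K' (ec k) (ec k) = 0 := by
    rw [JZ_apply, tl_ec, ec_zero', ec_one']
    funext i
    refine Fin.cases ?_ (fun j => Fin.cases ?_ (fun m => ?_) j) i <;> simp [emb, rdot, ec]
  have hJZ0 : ∀ x y, JZ K K' x y 0 = 0 := by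
    intro x y
    rw [JZ_apply]
    simp [emb, ec]
  have hJZ1 : ∀ x y, JZ K K' x y 1 = -rdot (tl x) (tl y) := by
    intro x y
    rw [JZ_apply, Pi.sub_apply, emb_one', Pi.smul_apply, ec_one', smul_eq_mul]
    ring
  -- step 1
  have s1 : ∀ Y : RV (k + 2), Y 0 = 0 → rdot Y Y = 1 →
      l1 0 = 2 ∧ rdot l1 Y = 0 ∧ J1 Y Y 0 = 0 ∧ rdot (J1 (ea k) (ea k)) Y = 0 := by
    intro Y hY0 hY1
    have hop : OPair (ea k) Y := ⟨by rw [rdot_ea, ea_zero'], hY1, by rw [rdot_comm, rdot_ea, hY0]⟩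
    obtain ⟨b1, b2, b3, b4⟩ := B hop (by
      rw [h2a, h2a, hY0, ea_zero', rdot_ea, hJZ0, hJZaa, rdot_zero_left]; norm_num)
    rw [rdot_ea, h2a, ea_zero'] at b1
    rw [h2a, hY0] at b2
    rw [rdot_ea, rdot_ea, hJZ0] at b3
    rw [hJZaa, rdot_zero_left] at b4
    exact ⟨by linarith, by linarith, b3, b4⟩
  have hc1 : rdot (ec k) (ec k) = 1 := by rw [rdot_ec, ec_one']
  have hl10 : l1 0 = 2 := (s1 (ec k) ec_zero' hc1).1
  have hl11 : l1 1 = 0 := by
    have := (s1 (ec k) ec_zero' hc1).2.1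
    rwa [rdot_ec] at this
  have hsing : ∀ (m : Fin k) (x : RV k), rdot x (Pi.single m 1) = x m := by
    intro m x
    simp [rdot, Pi.single_apply]
  have hunit : ∀ m : Fin k, rdot (emb (Pi.single m (1 : ℝ)) : RV (k + 2))
      (emb (Pi.single m 1)) = 1 := by
    intro m
    rw [rdot_emb, tl_emb, hsing, Pi.single_eq_same]
  have hl1 : l1 = (2 : ℝ) • ea k := by
    refine ext_of ?_ ?_ ?_
    · rw [hl10, Pi.smul_apply, ea_zero', smul_eq_mul, mul_one]
    · rw [hl11, Pi.smul_apply, ea_one', smul_eq_mul, mul_zero]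
    · funext m
      have := (s1 (emb (Pi.single m 1)) rfl (hunit m)).2.1
      rw [rdot_emb, hsing] at this
      rw [this]
      simp [tl, ea]
  refine ⟨hl1, ?_⟩
  have hJ0 : ∀ y : RV (k + 2), y 0 = 0 → J1 y y 0 = 0 := by
    intro y hy
    by_cases hy0 : y = 0
    · rw [hy0]; simp
    · obtain ⟨r, hr, -, y', hy', hyy⟩ := scale y hy0
      have hy'0 : y' 0 = 0 := by
        rw [hyy, Pi.smul_apply, smul_eq_mul] at hy
        exact (mul_eq_zero.1 hy).resolve_left hr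
      rw [hyy]
      simp only [map_smul, LinearMap.smul_apply, Pi.smul_apply, smul_eq_mul,
        (s1 y' hy'0 hy').2.2.1, mul_zero]
  have hJ0' : ∀ y y' : RV (k + 2), y 0 = 0 → y' 0 = 0 → J1 y y' 0 = 0 := by
    intro y y' hy hy'
    have e := hJ0 (y + y') (by rw [Pi.add_apply, hy, hy', add_zero])
    have e1 := hJ0 y hy
    have e2 := hJ0 y' hy'
    simp only [map_add, LinearMap.add_apply, Pi.add_apply, hT.1 y' y] at e
    linarith
  have hJaa : J1 (ea k) (ea k) = 0 := by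
    refine ext_of ?_ ?_ ?_
    · have := hT.2 (ea k)
      rw [rdot_ea] at this
      simpa using this
    · have := (s1 (ec k) ec_zero' hc1).2.2.2
      rw [rdot_ec] at this
      simpa using this
    · funext m
      have := (s1 (emb (Pi.single m 1)) rfl (hunit m)).2.2.2
      rw [rdot_emb, hsing] at this
      rw [this]
      rfl
  -- step 2
  have s2 : ∀ w : RV k, rdot w w = 1 → J1 (emb w) (emb w) 1 = -1 ∧
      rdot (J1 (ec k) (ec k)) (emb w) = 0 := by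
    intro w hw
    have hop : OPair (ec k) (emb w) :=
      ⟨hc1, by rw [rdot_emb, tl_emb, hw], by rw [rdot_emb, tl_ec, rdot_zero_left]⟩
    obtain ⟨b1, b2, b3, b4⟩ := B hop (by
      rw [h2a, h2a, ec_zero', emb_zero', rdot_ec, hJZ1, tl_emb, hw, hJZcc, rdot_zero_left]
      norm_num)
    rw [rdot_ec, rdot_ec, hJZ1, tl_emb, hw] at b3
    rw [hJZcc, rdot_zero_left] at b4
    exact ⟨b3, b4⟩
  have hJcc : J1 (ec k) (ec k) = 0 := by
    refine ext_of ?_ ?_ ?_
    · rw [hJ0 _ ec_zero']; rfl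
    · have := hT.2 (ec k)
      rw [rdot_ec] at this
      simpa using this
    · funext m
      have := (s2 (Pi.single m 1) (by rw [hsing, Pi.single_eq_same])).2
      rw [rdot_emb, hsing] at this
      rw [this]
      rfl
  -- step 3
  have s3 : ∀ (x y : RV (k + 2)) (s σ : ℝ), x 0 = 0 → y 0 = 0 → rdot x x = 1 → rdot y y = 1 →
      rdot x y = 0 → s ^ 2 + σ ^ 2 = 1 → σ ≠ 0 →
      rdot (J1 y y) x ^ 2 + (2 * s * rdot (J1 (ea k) x) y + σ * rdot (J1 x x) y) ^ 2 ≤ 1 := by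
    intro x y s σ hx0 hy0 hx hy hxy hsσ hσ
    have hop : OPair (s • ea k + σ • x) y := by
      refine ⟨?_, hy, ?_⟩
      · simp only [rdot_add_left, rdot_add_right, rdot_smul_left, rdot_smul_right, hx]
        rw [rdot_ea, ea_zero', rdot_ea, hx0, rdot_comm, rdot_ea, hx0]
        linarith
      · simp only [rdot_add_left, rdot_smul_left, hxy]
        rw [rdot_comm, rdot_ea, hy0]
        ring
    have h := h1.2 _ _ hop
    rw [hl1, h2a, h2a, hy0] at h
    have hX0 : (s • ea k + σ • x) 0 = s := by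
      rw [Pi.add_apply, Pi.smul_apply, Pi.smul_apply, ea_zero', hx0, smul_eq_mul, smul_eq_mul]
      ring
    rw [hX0] at h
    have e1 : rdot (J1 y y) (s • ea k + σ • x) = σ * rdot (J1 y y) x := by
      rw [rdot_add_right, rdot_smul_right, rdot_smul_right, rdot_ea, hJ0 y hy0]
      ring
    have e2 : rdot (J1 (s • ea k + σ • x) (s • ea k + σ • x)) y =
        σ * (2 * s * rdot (J1 (ea k) x) y + σ * rdot (J1 x x) y) := by
      simp only [map_add, map_smul, LinearMap.add_apply, LinearMap.smul_apply, rdot_add_left,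
        rdot_smul_left, hJaa, rdot_zero_left, hT.1 x (ea k)]
      ring
    rw [e1, e2] at h
    have h3 : σ ^ 2 * (rdot (J1 y y) x ^ 2 +
        (2 * s * rdot (J1 (ea k) x) y + σ * rdot (J1 x x) y) ^ 2) ≤ σ ^ 2 * 1 := by
      nlinarith
    exact le_of_mul_le_mul_left h3 (by positivity)
  -- step 4
  have s4 : ∀ w v : RV k, rdot w w = 1 → rdot v v = 1 → rdot w v = 0 →
      rdot (J1 (emb w) (emb w)) (emb v) = 0 := by
    intro w v hw hv hwv
    obtain ⟨β, hβ⟩ : ∃ β, β = rdot (J1 (emb w) (emb w)) (emb v) := ⟨_, rfl⟩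
    rw [← hβ]
    have hr : 0 < 1 + β ^ 2 := by positivity
    have hR : √(1 + β ^ 2) ^ 2 = 1 + β ^ 2 := Real.sq_sqrt hr.le
    have hR0 : 0 < √(1 + β ^ 2) := Real.sqrt_pos.2 hr
    obtain ⟨R, hRd⟩ : ∃ R, R = √(1 + β ^ 2) := ⟨_, rfl⟩
    rw [← hRd] at hR hR0
    have hRi : R⁻¹ ^ 2 * (1 + β ^ 2) = 1 := by
      rw [← hR, inv_pow, inv_mul_cancel₀ (by positivity)]
    have h := s3 (-R⁻¹ • ec k + (R⁻¹ * β) • emb v) (emb w) 0 1
      (by simp [ec, emb]) rfl
      (by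
        simp only [rdot_add_left, rdot_add_right, rdot_smul_left, rdot_smul_right]
        rw [hc1, rdot_ec, emb_one', rdot_emb, tl_ec, rdot_zero_left, rdot_emb, tl_emb, hv]
        linarith [hRi])
      (by rw [rdot_emb, tl_emb, hw])
      (by
        simp only [rdot_add_left, rdot_smul_left]
        rw [rdot_emb, tl_ec, rdot_zero_left, rdot_emb, tl_emb, rdot_comm, hwv]
        ring)
      (by norm_num) one_ne_zero
    have e1 : rdot (J1 (emb w) (emb w)) (-R⁻¹ • ec k + (R⁻¹ * β) • emb v) = R⁻¹ * (1 + β ^ 2) := by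
      rw [rdot_add_right, rdot_smul_right, rdot_smul_right, rdot_ec, (s2 w hw).1, ← hβ]
      ring
    rw [e1] at h
    have h4 : (R⁻¹ * (1 + β ^ 2)) ^ 2 = 1 + β ^ 2 := by
      have : (R⁻¹ * (1 + β ^ 2)) ^ 2 = R⁻¹ ^ 2 * (1 + β ^ 2) * (1 + β ^ 2) := by ring
      rw [this, hRi, one_mul]
    have h5 : β ^ 2 ≤ 0 := by
      nlinarith [sq_nonneg (2 * 0 * rdot (J1 (ea k) (-R⁻¹ • ec k + (R⁻¹ * β) • emb v)) (emb w) +
        1 * rdot (J1 (-R⁻¹ • ec k + (R⁻¹ * β) • emb v) (-R⁻¹ • ec k + (R⁻¹ * β) • emb v))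
          (emb w))]
    exact pow_eq_zero_iff (two_ne_zero) |>.1 (le_antisymm h5 (sq_nonneg β))
  have hJyy1 : ∀ w : RV k, rdot w w = 1 → J1 (emb w) (emb w) = (-1 : ℝ) • ec k := by
    intro w hw
    refine ext_of ?_ ?_ ?_
    · rw [hJ0 _ (emb_zero' w), Pi.smul_apply, ec_zero', smul_zero]
    · rw [(s2 w hw).1, Pi.smul_apply, ec_one', smul_eq_mul, mul_one]
    · have hz : tl ((-1 : ℝ) • ec k) = 0 := by
        funext m
        simp [tl, ec]
      rw [hz]
      by_contra hne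
      obtain ⟨r, hr, hr2, v, hv, hvv⟩ := scale _ hne
      have hperp : rdot (tl (J1 (emb w) (emb w))) w = 0 := by
        have := hT.2 (emb w)
        rwa [rdot_emb] at this
      have hvw : rdot w v = 0 := by
        rw [hvv, rdot_smul_left] at hperp
        rw [rdot_comm]
        exact (mul_eq_zero.1 hperp).resolve_left hr
      have h5 := s4 w v hw hv hvw
      rw [rdot_emb, hvv, rdot_smul_left, hv, mul_one] at h5
      exact hr h5
  have hJyy : ∀ w : RV k, J1 (emb w) (emb w) = (-rdot w w) • ec k := by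
    intro w
    by_cases hw : w = 0
    · have : (emb w : RV (k + 2)) = 0 := by
        rw [hw]
        funext i
        refine Fin.cases ?_ (fun j => Fin.cases ?_ (fun m => ?_) j) i <;> simp [emb]
      rw [this, hw, rdot_zero_left]
      simp
    · obtain ⟨r, hr, hr2, v, hv, hvv⟩ := scale _ hw
      have h5 := hJyy1 v hv
      rw [← hr2, hvv, emb_smul]
      simp only [map_smul, LinearMap.smul_apply, h5, smul_smul]
      congr 1
      ring
  have hJyz : ∀ w v : RV k, J1 (emb w) (emb v) = (-rdot w v) • ec k := by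
    intro w v
    have e := hJyy (w + v)
    rw [emb_add] at e
    simp only [map_add, LinearMap.add_apply, hJyy, hT.1 (emb v) (emb w), rdot_add_left,
      rdot_add_right, rdot_comm v w] at e
    have e2 : (2 : ℝ) • J1 (emb w) (emb v) = (2 : ℝ) • ((-rdot w v) • ec k) := by
      have e3 : (2 : ℝ) • J1 (emb w) (emb v) = (-rdot w w • ec k + J1 (emb w) (emb v) +
        (J1 (emb w) (emb v) + -rdot v v • ec k)) + (rdot w w + rdot v v) • ec k := by
        module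
      rw [e3, e]
      module
    exact smul_right_injective _ (two_ne_zero) e2
  -- step 5
  have hJac : J1 (ea k) (ec k) = 0 := by
    refine ext_of ?_ ?_ ?_
    · have := T1 hT (ea k) (ec k)
      rw [hJaa, rdot_zero_left, rdot_ea] at this
      rw [Pi.zero_apply]
      linarith
    · have := T1 hT (ec k) (ea k)
      rw [hJcc, rdot_zero_left, rdot_ec, hT.1] at this
      rw [Pi.zero_apply]
      linarith
    · funext m
      have hw : rdot (Pi.single m (1 : ℝ) : RV k) (Pi.single m 1) = 1 := by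
        rw [hsing, Pi.single_eq_same]
      have h2 : √(2 : ℝ) ^ 2 = 2 := Real.sq_sqrt (by norm_num)
      have h2p : 0 < √(2 : ℝ) := by positivity
      have hσ : (√(2 : ℝ))⁻¹ ^ 2 = 1 / 2 := by rw [inv_pow, h2]; norm_num
      have h := s3 (ec k) (emb (Pi.single m 1)) (√2)⁻¹ (√2)⁻¹ ec_zero' rfl hc1 (hunit m)
        (by rw [rdot_emb, tl_ec, rdot_zero_left]) (by rw [hσ]; norm_num) (by positivity)
      rw [rdot_ec, (s2 _ hw).1, hJcc, rdot_zero_left, rdot_emb, hsing] at h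
      have h3 : (2 * (√2)⁻¹ * tl (J1 (ea k) (ec k)) m) ^ 2 =
          2 * (tl (J1 (ea k) (ec k)) m) ^ 2 := by
        rw [mul_pow, mul_pow, hσ]; ring
      have h4 : (tl (J1 (ea k) (ec k)) m) ^ 2 ≤ 0 := by
        have : (2 * (√2)⁻¹ * tl (J1 (ea k) (ec k)) m + (√2)⁻¹ * 0) ^ 2 =
          2 * (tl (J1 (ea k) (ec k)) m) ^ 2 := by rw [← h3]; ring
        rw [this] at h
        linarith
      exact pow_eq_zero_iff (two_ne_zero) |>.1 (le_antisymm h4 (sq_nonneg _))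
  -- steps 6, 7
  obtain ⟨f, hf⟩ : ∃ f : RV k →ₗ[ℝ] RV k, ∀ w, f w = tl ((2 : ℝ) • J1 (ea k) (emb w)) := by
    refine ⟨{ toFun := fun w => tl ((2 : ℝ) • J1 (ea k) (emb w))
              map_add' := fun w v => ?_
              map_smul' := fun c w => ?_ }, fun w => rfl⟩
    · funext m
      rw [emb_add]
      simp [tl]
      ring
    · funext m
      rw [emb_smul]
      simp [tl]
      ring
  obtain ⟨g, hg⟩ : ∃ g : RV k →ₗ[ℝ] RV k, ∀ w, g w = tl ((2 : ℝ) • J1 (ec k) (emb w)) - w := by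
    refine ⟨{ toFun := fun w => tl ((2 : ℝ) • J1 (ec k) (emb w)) - w
              map_add' := fun w v => ?_
              map_smul' := fun c w => ?_ }, fun w => rfl⟩
    · funext m
      rw [emb_add]
      simp [tl]
      ring
    · funext m
      rw [emb_smul]
      simp [tl]
      ring
  have htl2 : ∀ x : RV (k + 2), tl ((2 : ℝ) • x) = (2 : ℝ) • tl x := fun x => rfl
  refine ⟨LinearMap.toMatrix' f, LinearMap.toMatrix' g, ⟨skew_of fun w => ?_,
    skew_of fun w => ?_⟩, ?_⟩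
  · rw [LinearMap.toMatrix'_mulVec, hf, htl2, rdot_smul_left, ← rdot_emb]
    have := T1 hT (emb w) (ea k)
    rw [rdot_ea, hJ0 _ (emb_zero' w), hT.1] at this
    linarith
  · rw [LinearMap.toMatrix'_mulVec, hg, htl2, rdot_sub_left, rdot_smul_left, ← rdot_emb]
    have := T1 hT (emb w) (ec k)
    rw [rdot_ec, hJyy, Pi.smul_apply, ec_one', hT.1, smul_eq_mul] at this
    linarith
  · have hJa : ∀ w : RV k, J1 (ea k) (emb w) = emb ((1 / 2 : ℝ) • f w) := by
      intro w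
      refine ext_of ?_ ?_ ?_
      · have := T1 hT (ea k) (emb w)
        rw [hJaa, rdot_zero_left, rdot_ea] at this
        rw [emb_zero']
        linarith
      · have := T2 hT (ea k) (emb w) (ec k)
        rw [rdot_ec, rdot_ea, hJ0' _ _ (emb_zero' w) ec_zero', hT.1 (ec k), hJac,
          rdot_zero_left] at this
        rw [emb_one']
        linarith
      · rw [tl_emb, hf, htl2, smul_smul]
        norm_num
    have hJc : ∀ w : RV k, J1 (ec k) (emb w) = emb ((1 / 2 : ℝ) • (w + g w)) := by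
      intro w
      refine ext_of ?_ ?_ ?_
      · rw [hJ0' _ _ ec_zero' (emb_zero' w), emb_zero']
      · have := T1 hT (ec k) (emb w)
        rw [hJcc, rdot_zero_left, rdot_ec] at this
        rw [emb_one']
        linarith
      · rw [tl_emb, hg, htl2]
        funext m
        simp
    refine LinearMap.ext fun x => LinearMap.ext fun y => ?_
    rw [JZ_apply]
    simp only [LinearMap.toMatrix'_mulVec]
    conv_lhs => rw [decomp x, decomp y]
    simp only [map_add, map_smul, LinearMap.add_apply, LinearMap.smul_apply, hJaa, hJcc, hJac,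
      hT.1 (ec k) (ea k), hT.1 (emb (tl x)) (ea k), hT.1 (emb (tl x)) (ec k), hJa, hJc, hJyz,
      emb_add, emb_smul]
    module

end Pool.Agent.P1ae5
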