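import Pool.Agent.Lib.P1ae5.AllDefs

/-!
P1ae5.ZInj (MP_1ae5d5_an). STUB, statements fixed.

`JZ_inj`: evaluate at `(ea k, emb e_j)` and `(ec k, emb e_j)`.
`VLJ_JZ`: the formula for `V`: with `z = (z0, z1, w)`, `V z = (z0^2 + q, z0 z1 - i w.w,
(z0 + i z1) w + i (z0 K w + z1 K' w))`: `l = 2 e_0`, so `(1/2) ∑ l_i z_i = z0`,
`(1/2) qq z • ofR (2 e_0) = (q, 0, ...)`, and
`J(z,z)` complexified is `(0, -w.w, z0 K w + z1 (w + K' w))` by expanding real and imaginary parts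
(`J(x,x) - J(y,y) + 2 i J(x,y)` for `z = x + i y`).
-/

open Metric

namespace Pool.Agent.P1ae5

namespace ZInjAux

variable {k : ℕ}

lemma emb_zero (w : RV k) : emb w 0 = 0 := rfl
lemma emb_one (w : RV k) : emb w 1 = 0 := rfl
lemma emb_ss (w : RV k) (j : Fin k) : emb w j.succ.succ = w j := rfl
lemma ea_zero : ea k 0 = 1 := rfl
lemma ea_one : ea k 1 = 0 := rfl
lemma ea_ss (j : Fin k) : ea k j.succ.succ = 0 := rfl
lemma ec_zero : ec k 0 = 0 := rfl
lemma ec_one : ec k 1 = 1 := rfl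
lemma ec_ss (j : Fin k) : ec k j.succ.succ = 0 := rfl
lemma tl_emb (w : RV k) : tl (emb w) = w := rfl
lemma tl_ea : tl (ea k) = 0 := rfl
lemma tl_ec : tl (ec k) = 0 := rfl

lemma JZ_zero (K K' : Matrix (Fin k) (Fin k) ℝ) (x y : RV (k + 2)) : JZ K K' x y 0 = 0 := by
  rw [JZ_apply]
  simp [emb_zero, ec_zero]

lemma JZ_one (K K' : Matrix (Fin k) (Fin k) ℝ) (x y : RV (k + 2)) :
    JZ K K' x y 1 = -rdot (tl x) (tl y) := by
  rw [JZ_apply]
  simp [emb_one, ec_one]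

lemma JZ_ss (K K' : Matrix (Fin k) (Fin k) ℝ) (x y : RV (k + 2)) (j : Fin k) :
    JZ K K' x y j.succ.succ = 1 / 2 * (x 0 * K.mulVec (tl y) j + y 0 * K.mulVec (tl x) j +
      x 1 * (tl y j + K'.mulVec (tl y) j) + y 1 * (tl x j + K'.mulVec (tl x) j)) := by
  rw [JZ_apply]
  simp [emb_ss, ec_ss]
  ring

end ZInjAux

open ZInjAux

theorem JZ_inj {k : ℕ} {K K' L L' : Matrix (Fin k) (Fin k) ℝ} (h : JZ K K' = JZ L L') :
    K = L ∧ K' = L' := by
  constructor
  · ext i j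
    have h1 := congrFun (LinearMap.congr_fun₂ h (ea k) (emb (Pi.single j 1))) i.succ.succ
    rw [JZ_ss, JZ_ss, tl_emb, tl_ea, ea_zero, ea_one, emb_zero, emb_one] at h1
    simp only [Matrix.mulVec_single_one, Matrix.mulVec_zero, Matrix.col_apply] at h1
    linarith
  · ext i j
    have h1 := congrFun (LinearMap.congr_fun₂ h (ec k) (emb (Pi.single j 1))) i.succ.succ
    rw [JZ_ss, JZ_ss, tl_emb, tl_ec, ec_zero, ec_one, emb_zero, emb_one] at h1
    simp only [Matrix.mulVec_single_one, Matrix.mulVec_zero, Matrix.col_apply] at h1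
    linarith

theorem JZ_affine {k : ℕ} (K K' L L' : Matrix (Fin k) (Fin k) ℝ) (t : ℝ) :
    JZ (t • K + (1 - t) • L) (t • K' + (1 - t) • L') = t • JZ K K' + (1 - t) • JZ L L' := by
  refine LinearMap.ext₂ fun x y => ?_
  funext i
  refine Fin.cases ?_ (fun j => Fin.cases ?_ (fun m => ?_) j) i
  · simp only [LinearMap.add_apply, LinearMap.smul_apply, Pi.add_apply, Pi.smul_apply, JZ_zero]
    simp
  · change JZ _ _ x y 1 = _
    simp only [LinearMap.add_apply, LinearMap.smul_apply, Pi.add_apply, Pi.smul_apply]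
    change _ = t • JZ K K' x y 1 + (1 - t) • JZ L L' x y 1
    rw [JZ_one, JZ_one, JZ_one]
    simp only [smul_eq_mul]
    ring
  · simp only [LinearMap.add_apply, LinearMap.smul_apply, Pi.add_apply, Pi.smul_apply, JZ_ss,
      Matrix.add_mulVec, Matrix.smul_mulVec, smul_eq_mul]
    ring

theorem VLJ_JZ {k : ℕ} (K K' : Matrix (Fin k) (Fin k) ℝ) (z : Cn (k + 2)) :
    VLJ ((2 : ℝ) • ea k) (JZ K K') z =
      z 0 • z + WithLp.toLp 2 (Fin.cons (qq z)
        (Fin.cons (-(Complex.I * ∑ j : Fin k, z j.succ.succ ^ 2))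
          (fun j : Fin k => Complex.I * (z 1 * z j.succ.succ +
            ∑ m : Fin k, (z 0 * (K j m : ℂ) + z 1 * (K' j m : ℂ)) * z m.succ.succ)))) := by
  have hl : (1 / 2 : ℂ) * ∑ i, ((((2 : ℝ) • ea k) i : ℝ) : ℂ) * z i = z 0 := by
    rw [Fin.sum_univ_succ, Fin.sum_univ_succ]
    have h1 : ∀ j : Fin k, ((((2 : ℝ) • ea k) j.succ.succ : ℝ) : ℂ) * z j.succ.succ = 0 := by
      intro j
      rw [Pi.smul_apply, ea_ss]
      simp
    have h2 : ((((2 : ℝ) • ea k) (Fin.succ 0) : ℝ) : ℂ) * z (Fin.succ 0) = 0 := by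
      have : ea k (Fin.succ 0) = 0 := rfl
      rw [Pi.smul_apply, this]
      simp
    rw [Finset.sum_eq_zero fun j _ => h1 j, h2, Pi.smul_apply, ea_zero]
    push_cast
    simp
  have hz : ∀ i, z i = ((reV z i : ℝ) : ℂ) + ((imV z i : ℝ) : ℂ) * Complex.I := fun i =>
    (Complex.re_add_im (z i)).symm
  generalize hx : reV z = x at hz
  generalize hy : imV z = y at hz
  unfold VLJ
  rw [hl, hx, hy]
  ext i
  refine Fin.cases ?_ (fun j => Fin.cases ?_ (fun m => ?_) j) i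
  · have e1 : (ofR ((2 : ℝ) • ea k) : Cn (k + 2)) 0 = 2 := by
      change ((((2 : ℝ) • ea k) 0 : ℝ) : ℂ) = 2
      rw [Pi.smul_apply, ea_zero]
      simp
    have e2 : (ofR (JZ K K' x x - JZ K K' y y) : Cn (k + 2)) 0 = 0 := by
      change (((JZ K K' x x - JZ K K' y y) 0 : ℝ) : ℂ) = 0
      rw [Pi.sub_apply, JZ_zero, JZ_zero]
      simp
    have e3 : (ofR (JZ K K' x y) : Cn (k + 2)) 0 = 0 := by
      change (((JZ K K' x y) 0 : ℝ) : ℂ) = 0
      rw [JZ_zero]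
      simp
    simp only [PiLp.add_apply, PiLp.smul_apply, smul_eq_mul, e1, e2, e3]
    change _ = z 0 * z 0 + qq z
    ring
  · have e1 : (ofR ((2 : ℝ) • ea k) : Cn (k + 2)) (Fin.succ 0) = 0 := by
      change ((((2 : ℝ) • ea k) (Fin.succ 0) : ℝ) : ℂ) = 0
      have : ea k (Fin.succ 0) = 0 := rfl
      rw [Pi.smul_apply, this]
      simp
    have e2 : (ofR (JZ K K' x x - JZ K K' y y) : Cn (k + 2)) (Fin.succ 0) =
        -((rdot (tl x) (tl x) : ℝ) : ℂ) + ((rdot (tl y) (tl y) : ℝ) : ℂ) := by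
      change (((JZ K K' x x - JZ K K' y y) 1 : ℝ) : ℂ) = _
      rw [Pi.sub_apply, JZ_one, JZ_one]
      push_cast
      ring
    have e3 : (ofR (JZ K K' x y) : Cn (k + 2)) (Fin.succ 0) =
        -((rdot (tl x) (tl y) : ℝ) : ℂ) := by
      change (((JZ K K' x y) 1 : ℝ) : ℂ) = _
      rw [JZ_one]
      push_cast
      ring
    simp only [PiLp.add_apply, PiLp.smul_apply, smul_eq_mul, e1, e2, e3]
    change _ = z 0 * z (Fin.succ 0) + -(Complex.I * ∑ j : Fin k, z j.succ.succ ^ 2)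
    have e4 : ∑ j : Fin k, z j.succ.succ ^ 2 = ((rdot (tl x) (tl x) : ℝ) : ℂ) -
        ((rdot (tl y) (tl y) : ℝ) : ℂ) + 2 * Complex.I * ((rdot (tl x) (tl y) : ℝ) : ℂ) := by
      unfold rdot tl
      push_cast
      rw [Finset.mul_sum, ← Finset.sum_sub_distrib, ← Finset.sum_add_distrib]
      refine Finset.sum_congr rfl fun j _ => ?_
      rw [hz]
      linear_combination ((y j.succ.succ : ℝ) : ℂ) ^ 2 * Complex.I_sq
    rw [e4]
    ring
  · have e1 : (ofR ((2 : ℝ) • ea k) : Cn (k + 2)) m.succ.succ = 0 := by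
      change ((((2 : ℝ) • ea k) m.succ.succ : ℝ) : ℂ) = 0
      rw [Pi.smul_apply, ea_ss]
      simp
    have e2 : (ofR (JZ K K' x x - JZ K K' y y) : Cn (k + 2)) m.succ.succ =
        (x 0 * (K.mulVec (tl x) m : ℂ) + x 1 * ((tl x m : ℂ) + (K'.mulVec (tl x) m : ℂ))) -
        (y 0 * (K.mulVec (tl y) m : ℂ) + y 1 * ((tl y m : ℂ) + (K'.mulVec (tl y) m : ℂ))) := by
      change (((JZ K K' x x - JZ K K' y y) m.succ.succ : ℝ) : ℂ) = _
      rw [Pi.sub_apply, JZ_ss, JZ_ss]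
      push_cast
      ring
    have e3 : (ofR (JZ K K' x y) : Cn (k + 2)) m.succ.succ =
        1 / 2 * (x 0 * (K.mulVec (tl y) m : ℂ) + y 0 * (K.mulVec (tl x) m : ℂ) +
          x 1 * ((tl y m : ℂ) + (K'.mulVec (tl y) m : ℂ)) +
          y 1 * ((tl x m : ℂ) + (K'.mulVec (tl x) m : ℂ))) := by
      change (((JZ K K' x y) m.succ.succ : ℝ) : ℂ) = _
      rw [JZ_ss]
      push_cast
      ring
    simp only [PiLp.add_apply, PiLp.smul_apply, smul_eq_mul, e1, e2, e3]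
    change _ = z 0 * z m.succ.succ + Complex.I * (z 1 * z m.succ.succ +
            ∑ m' : Fin k, (z 0 * (K m m' : ℂ) + z 1 * (K' m m' : ℂ)) * z m'.succ.succ)
    have e4 : ∑ m' : Fin k, (z 0 * (K m m' : ℂ) + z 1 * (K' m m' : ℂ)) * z m'.succ.succ =
        z 0 * ((K.mulVec (tl x) m : ℂ) + (K.mulVec (tl y) m : ℂ) * Complex.I) +
        z 1 * ((K'.mulVec (tl x) m : ℂ) + (K'.mulVec (tl y) m : ℂ) * Complex.I) := by
      have e5 : ∀ (M : Matrix (Fin k) (Fin k) ℝ) (w : RV k),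
          (M.mulVec w m : ℂ) = ∑ m', (M m m' : ℂ) * (w m' : ℂ) := by
        intro M w
        change (((∑ m', M m m' * w m' : ℝ)) : ℂ) = _
        push_cast
        rfl
      rw [e5, e5, e5, e5, Finset.sum_mul, Finset.sum_mul, ← Finset.sum_add_distrib,
        ← Finset.sum_add_distrib, Finset.mul_sum, Finset.mul_sum, ← Finset.sum_add_distrib]
      refine Finset.sum_congr rfl fun m' _ => ?_
      rw [hz m'.succ.succ]
      unfold tl
      ring
    rw [e4]
    have hm : z m.succ.succ = (tl x m : ℂ) + (tl y m : ℂ) * Complex.I := hz _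
    rw [hm, hz 0, hz 1]
    linear_combination (-Complex.I) * ((y 0 : ℂ) * (K.mulVec (tl y) m : ℂ) + (y 1 : ℂ) *
      ((tl y m : ℂ) + (K'.mulVec (tl y) m : ℂ))) * Complex.I_sq

end Pool.Agent.P1ae5
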