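import Pool.Agent.Lib.P1ae5.AllDefs

/-!
P1ae5.ZMember (MP_1ae5d5_an). STUB, statement fixed. Real linear algebra.

Notation: `a = ea k`, `c = ec k`, `W = {emb w}`, `J = JZ K K'`, so
`J(a,a) = J(a,c) = J(c,c) = 0`, `J(a,y) = K y/2`, `J(c,y) = (y + K' y)/2`,
`J(y,y') = -(y.y') c` for `y, y' ∈ W`.
(0) `IsTan J`: symmetric, and with `x = (x0, x1, w)`:
    `J(x,x).x = w.(x0 K w + x1 w + x1 K' w) - |w|^2 x1 = 0` (`K, K'` skew).
(1) For tangential `J` and orthonormal `X, Y`, with `b1 = J(Y,Y).X`, `b2 = J(X,X).Y` and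
    `u = ξ X + η Y` (real `ξ, η`): `J(u,u).X = η (η b1 - ξ b2)`, `J(u,u).Y = ξ (ξ b2 - η b1)`
    (uses `2 J(X,Y).X = - J(X,X).Y`, `2 J(X,Y).Y = -J(Y,Y).X`). Hence for the rotated pair
    `X' = C X + S Y`, `Y' = -S X + C Y`, `C^2+S^2 = 1`:
    `J(Y',Y').X' = C b1 + S b2`, `J(X',X').Y' = -S b1 + C b2`. So
    `N(X,Y) = (X.a)^2 + (Y.a)^2 + b1^2 + b2^2` is rotation invariant.
(2) `ZZ → KK`. Let `X, Y` be orthonormal. Rotating we may assume `Y.a = 0`. Write
    `X = s a + σ x'`, `s^2 + σ^2 = 1`, `x' ⟂ a`; if `σ = 0` then `N = s^2 + 0 = 1`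
    (`J(Y,Y).a = 0`, `J(a,a) = 0`). Otherwise `x'` is a unit vector orthogonal to `a` and `Y = y`,
    `N = s^2 + σ^2 [ j1^2 + (s m + σ j2)^2 ]`, `j1 = J(y,y).x'`, `j2 = J(x',x').y`,
    `m = 2 J(a,x').y`, because `J(Y,Y).a = 0`, `J(a,a) = 0`. By Cauchy-Schwarz
    `(s m + σ j2)^2 ≤ m^2 + j2^2`, so it is enough that
    (**) `j1^2 + j2^2 + m^2 ≤ 1` for all orthonormal `x', y ⟂ a`.
    The left side of (**) is invariant under rotation of `(x', y)` (`j1^2+j2^2` by (1); `m` because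
    `(x,y) ↦ 2 J(a,x).y = K x.y` is skew on `a^⟂`). So we may assume `y ⟂ c`, i.e. `y ∈ W`, and
    `x' = C c + S w`, `w ∈ W`; `w` unit if `S ≠ 0`. Then `j1 = -C`, `m = S (K w . y)`,
    `j2 = 2 C S J(c,w).y + S^2 J(w,w).y = C S (K' w . y)`, and
    `j1^2 + j2^2 + m^2 = C^2 + S^2 [ (K w.y)^2 + C^2 (K' w.y)^2 ] ≤ C^2 + S^2 = 1`.
(3) `KK → ZZ`. Let `w, y ∈ W` be orthonormal, `p = K w.y`, `p' = K' w.y`. For `C^2+S^2 = 1`,
    `s^2+σ^2 = 1`, the pair `X = s a + σ (C c + S w)`, `Y = y` gives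
    `s^2 + σ^2 [ C^2 + (s S p + σ C S p')^2 ] ≤ 1`, i.e. for `σ ≠ 0`, `S ≠ 0`:
    `(s p + σ C p')^2 ≤ 1`. By continuity this holds for all `s, σ, C`
    with `s^2+σ^2 = 1`, `|C| ≤ 1`; take `C = 1`, `(s,σ) = (p,p')/√(p^2+p'^2)`.
-/

open Metric

namespace Pool.Agent.P1ae5

namespace ZMemberAux

lemma rdot_eq {n : ℕ} (x y : RV n) : rdot x y = x ⬝ᵥ y := rfl

lemma rdot_comm {n : ℕ} (x y : RV n) : rdot x y = rdot y x := by
  rw [rdot_eq, rdot_eq, dotProduct_comm]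

lemma rdot_smul_left {n : ℕ} (c : ℝ) (x y : RV n) : rdot (c • x) y = c * rdot x y := by
  rw [rdot_eq, rdot_eq, smul_dotProduct, smul_eq_mul]

lemma rdot_smul_right {n : ℕ} (c : ℝ) (x y : RV n) : rdot x (c • y) = c * rdot x y := by
  rw [rdot_comm, rdot_smul_left, rdot_comm]

lemma rdot_add_left {n : ℕ} (x x' y : RV n) : rdot (x + x') y = rdot x y + rdot x' y := by
  rw [rdot_eq, rdot_eq, rdot_eq, add_dotProduct]

lemma rdot_sub_left {n : ℕ} (x x' y : RV n) : rdot (x - x') y = rdot x y - rdot x' y := by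
  rw [rdot_eq, rdot_eq, rdot_eq, sub_dotProduct]

lemma rdot_sub_right {n : ℕ} (x y y' : RV n) : rdot x (y - y') = rdot x y - rdot x y' := by
  rw [rdot_comm, rdot_sub_left, rdot_comm y, rdot_comm y']

lemma rdot_self_nonneg {n : ℕ} (x : RV n) : 0 ≤ rdot x x :=
  Finset.sum_nonneg fun i _ => mul_self_nonneg (x i)

lemma eq_zero_of_rdot {n : ℕ} {x : RV n} (h : rdot x x = 0) : x = 0 := by
  have h1 := (Finset.sum_eq_zero_iff_of_nonneg (fun i _ => mul_self_nonneg (x i))).1 h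
  funext i
  exact mul_self_eq_zero.1 (h1 i (Finset.mem_univ i))

lemma rdot_split {k : ℕ} (x y : RV (k + 2)) :
    rdot x y = x 0 * y 0 + x 1 * y 1 + rdot (tl x) (tl y) := by
  unfold rdot tl
  rw [Fin.sum_univ_succ, Fin.sum_univ_succ]
  simp only [Fin.succ_zero_eq_one]
  ring

lemma rdot_emb {k : ℕ} (w : RV k) (x : RV (k + 2)) : rdot (emb w) x = rdot w (tl x) := by
  rw [rdot_split]
  have h0 : emb w 0 = 0 := rfl
  have h1 : emb w 1 = 0 := rfl
  have h2 : tl (emb w) = w := rfl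
  rw [h0, h1, h2]
  ring

lemma rdot_ec {k : ℕ} (x : RV (k + 2)) : rdot (ec k) x = x 1 := by
  rw [rdot_split]
  have h0 : ec k 0 = 0 := rfl
  have h1 : ec k 1 = 1 := rfl
  have h2 : tl (ec k) = 0 := rfl
  rw [h0, h1, h2]
  simp [rdot]

lemma rdot_ea {k : ℕ} (x : RV (k + 2)) : rdot (ea k) x = x 0 := by
  rw [rdot_split]
  have h0 : ea k 0 = 1 := rfl
  have h1 : ea k 1 = 0 := rfl
  have h2 : tl (ea k) = 0 := rfl
  rw [h0, h1, h2]
  simp [rdot]

lemma rdot_skew {k : ℕ} {K : Matrix (Fin k) (Fin k) ℝ} (hK : K.transpose = -K) (v w : RV k) :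
    rdot (K.mulVec v) w = - rdot (K.mulVec w) v := by
  have h1 : rdot (K.mulVec v) w = rdot v (K.transpose.mulVec w) := by
    rw [rdot_eq, rdot_eq, Matrix.mulVec_transpose, dotProduct_comm, Matrix.dotProduct_mulVec,
      dotProduct_comm]
  rw [h1, hK, Matrix.neg_mulVec, rdot_eq, dotProduct_neg, ← rdot_eq, rdot_comm]

lemma rdot_skew_self {k : ℕ} {K : Matrix (Fin k) (Fin k) ℝ} (hK : K.transpose = -K) (v : RV k) :
    rdot (K.mulVec v) v = 0 := by
  have := rdot_skew hK v v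
  linarith

lemma JZ_dot {k : ℕ} (K K' : Matrix (Fin k) (Fin k) ℝ) (y x : RV (k + 2)) :
    rdot (JZ K K' y y) x = y 0 * rdot (K.mulVec (tl y)) (tl x) +
      y 1 * (rdot (tl y) (tl x) + rdot (K'.mulVec (tl y)) (tl x)) - rdot (tl y) (tl y) * x 1 := by
  rw [JZ_apply, rdot_sub_left, rdot_smul_left, rdot_emb, rdot_ec, rdot_smul_left, rdot_add_left,
    rdot_add_left, rdot_add_left, rdot_smul_left, rdot_smul_left, rdot_add_left]
  ring

/-- for `ZZ` pairs and arbitrary vectors -/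
lemma area {k : ℕ} {K K' : Matrix (Fin k) (Fin k) ℝ} (h : ZZ K K') (v w : RV k) :
    rdot (K.mulVec w) v ^ 2 + rdot (K'.mulVec w) v ^ 2 ≤
      rdot v v * rdot w w - rdot v w ^ 2 := by
  obtain ⟨⟨hK, hK'⟩, hZ⟩ := h
  rcases (rdot_self_nonneg v).eq_or_lt with hn | hn
  · have hv := eq_zero_of_rdot hn.symm
    subst hv
    simp [rdot]
  set n := rdot v v with hndef
  set s := rdot v w with hsdef
  set m := rdot w w with hmdef
  set u : RV k := w - (s / n) • v with hu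
  have huv : rdot u v = 0 := by
    rw [hu, rdot_sub_left, rdot_smul_left, ← hndef, rdot_comm w v, ← hsdef]
    field_simp
    ring
  have huu : rdot u u = (n * m - s ^ 2) / n := by
    have h1 : rdot u u = rdot u w - (s / n) * rdot u v := by
      conv_lhs => rw [hu]
      rw [← hu, rdot_sub_right, rdot_smul_right]
    rw [h1, huv, hu, rdot_sub_left, rdot_smul_left, ← hsdef, ← hmdef]
    field_simp
    ring
  have hKu : rdot (K.mulVec u) v = rdot (K.mulVec w) v := by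
    rw [hu, Matrix.mulVec_sub, Matrix.mulVec_smul, rdot_sub_left, rdot_smul_left,
      rdot_skew_self hK]
    ring
  have hKu' : rdot (K'.mulVec u) v = rdot (K'.mulVec w) v := by
    rw [hu, Matrix.mulVec_sub, Matrix.mulVec_smul, rdot_sub_left, rdot_smul_left,
      rdot_skew_self hK']
    ring
  rcases (rdot_self_nonneg u).eq_or_lt with h0 | h0
  · have hu0 := eq_zero_of_rdot h0.symm
    have hD : n * m - s ^ 2 = 0 := by
      rw [← h0] at huu
      have := (div_eq_zero_iff.1 huu.symm).resolve_right hn.ne'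
      exact this
    rw [← hKu, ← hKu', hu0, hD]
    simp [rdot]
  · set r := Real.sqrt (rdot u u) with hr
    set t := Real.sqrt n with ht
    have hr0 : 0 < r := Real.sqrt_pos.2 h0
    have ht0 : 0 < t := Real.sqrt_pos.2 hn
    have hr2 : r ^ 2 = rdot u u := Real.sq_sqrt h0.le
    have ht2 : t ^ 2 = n := Real.sq_sqrt hn.le
    have hP : OPair (r⁻¹ • u) (t⁻¹ • v) := by
      refine ⟨?_, ?_, ?_⟩
      · rw [rdot_smul_left, rdot_smul_right, ← hr2]
        field_simp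
      · rw [rdot_smul_left, rdot_smul_right, ← hndef, ← ht2]
        field_simp
      · rw [rdot_smul_left, rdot_smul_right, huv]
        ring
    have h1 := hZ _ _ hP
    rw [Matrix.mulVec_smul, Matrix.mulVec_smul, rdot_smul_left, rdot_smul_left, rdot_smul_right,
      rdot_smul_right, hKu, hKu'] at h1
    have h2 : r ^ 2 * t ^ 2 = n * m - s ^ 2 := by
      rw [hr2, ht2, huu]
      field_simp
    rw [← h2]
    have h3 : (r⁻¹ * (t⁻¹ * rdot (K.mulVec w) v)) ^ 2 + (r⁻¹ * (t⁻¹ * rdot (K'.mulVec w) v)) ^ 2 =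
        (rdot (K.mulVec w) v ^ 2 + rdot (K'.mulVec w) v ^ 2) / (r ^ 2 * t ^ 2) := by
      field_simp
    rw [h3, div_le_one (by positivity)] at h1
    exact h1

/-- the algebraic inequality -/
lemma alg {x0 x1 y0 y1 n m s p p' : ℝ} (hn : 0 ≤ n) (hm : 0 ≤ m)
    (hx : x0 * x0 + x1 * x1 + n = 1) (hy : y0 * y0 + y1 * y1 + m = 1)
    (hxy : x0 * y0 + x1 * y1 + s = 0) (hp : p ^ 2 + p' ^ 2 ≤ n * m - s ^ 2) :
    x0 ^ 2 + y0 ^ 2 + (y0 * p + y1 * (s + p') - m * x1) ^ 2 +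
      (x0 * (-p) + x1 * (s + -p') - n * y1) ^ 2 ≤ 1 := by
  have en : n = 1 - x0 ^ 2 - x1 ^ 2 := by linarith
  have em : m = 1 - y0 ^ 2 - y1 ^ 2 := by linarith
  have es : s = -(x0 * y0) - x1 * y1 := by linarith
  set A := x0 ^ 2 + y0 ^ 2 with hA
  set B := x1 ^ 2 + y1 ^ 2 with hB
  set C := x0 * x1 + y0 * y1 with hC
  set D := x0 * y1 - x1 * y0 with hD
  set q := p - D with hq
  have hdet : n * m - s ^ 2 = (1 - A) * (1 - B) - C ^ 2 := by
    rw [en, em, es, hA, hB, hC]; ring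
  have hdet' : n * m - s ^ 2 = 1 - A - B + D ^ 2 := by
    rw [en, em, es, hA, hB, hD]; ring
  have hsum : (1 - A) + (1 - B) = n + m := by
    rw [en, em, hA, hB]; ring
  have hT : x0 ^ 2 + y0 ^ 2 + (y0 * p + y1 * (s + p') - m * x1) ^ 2 +
      (x0 * (-p) + x1 * (s + -p') - n * y1) ^ 2 =
      A + B + A * q ^ 2 + B * p' ^ 2 + 2 * C * q * p' + 2 * q * D := by
    have e1 : y0 * p + y1 * (s + p') - m * x1 = y0 * q + y1 * p' - x1 := by
      rw [em, es, hq, hD]; ring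
    have e2 : x0 * (-p) + x1 * (s + -p') - n * y1 = -(x0 * q + x1 * p' + y1) := by
      rw [en, es, hq, hD]; ring
    rw [e1, e2, hA, hB, hC, hD]; ring
  rw [hA] at hT ⊢
  rw [hT]
  rw [← hA]
  have hdn : 0 ≤ (1 - A) * (1 - B) - C ^ 2 := by
    rw [← hdet]
    have : 0 ≤ p ^ 2 + p' ^ 2 := by positivity
    linarith
  have hA1 : 0 ≤ 1 - A := by
    by_contra hneg
    push Not at hneg
    have hB1 : 0 < 1 - B := by linarith
    nlinarith [sq_nonneg C, mul_pos_of_neg_of_neg hneg (neg_lt_zero.2 hB1)]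
  have hB1 : 0 ≤ 1 - B := by
    by_contra hneg
    push Not at hneg
    have hA2 : 0 < 1 - A := by linarith
    nlinarith [sq_nonneg C, mul_pos_of_neg_of_neg hneg (neg_lt_zero.2 hA2)]
  have hquad : 0 ≤ (1 - A) * q ^ 2 - 2 * C * q * p' + (1 - B) * p' ^ 2 := by
    rcases hA1.eq_or_lt with h0 | h0
    · have hC0 : C = 0 := by
        have : C ^ 2 ≤ 0 := by rw [← h0] at hdn; linarith
        nlinarith [sq_nonneg C]
      rw [hC0, ← h0]
      have := mul_nonneg hB1 (sq_nonneg p')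
      linarith
    · have h1 : 0 ≤ ((1 - A) * q - C * p') ^ 2 +
          ((1 - A) * (1 - B) - C ^ 2) * p' ^ 2 := by positivity
      have h2 : ((1 - A) * q - C * p') ^ 2 + ((1 - A) * (1 - B) - C ^ 2) * p' ^ 2 =
          (1 - A) * ((1 - A) * q ^ 2 - 2 * C * q * p' + (1 - B) * p' ^ 2) := by ring
      rw [h2] at h1
      exact nonneg_of_mul_nonneg_right h1 h0
  have hpq : p = q + D := by rw [hq]; ring
  rw [hdet', hpq] at hp
  nlinarith

end ZMemberAux

open ZMemberAux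

theorem isTan_JZ {k : ℕ} {K K' : Matrix (Fin k) (Fin k) ℝ} (hs : SK K K') :
    IsTan (JZ K K') := by
  refine ⟨fun x y => ?_, fun x => ?_⟩
  · rw [JZ_apply, JZ_apply, rdot_comm (tl x) (tl y)]
    congr 2
    congr 1
    abel
  · rw [JZ_dot, rdot_skew_self hs.1, rdot_skew_self hs.2]
    ring

theorem z_member {k : ℕ} {K K' : Matrix (Fin k) (Fin k) ℝ} (hs : SK K K') :
    KK ((2 : ℝ) • ea k) (JZ K K') ↔ ZZ K K' := by
  have hl : ∀ x : RV (k + 2), rdot ((2 : ℝ) • ea k) x / 2 = x 0 := by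
    intro x
    rw [rdot_smul_left, rdot_ea]
    ring
  constructor
  · rintro ⟨_, hK⟩
    refine ⟨hs, fun w y hwy => ?_⟩
    obtain ⟨hw, hy, hwy0⟩ := hwy
    set p := rdot (K.mulVec w) y with hp
    set p' := rdot (K'.mulVec w) y with hp'
    have key : ∀ x0 x1 : ℝ, x0 ^ 2 + x1 ^ 2 < 1 → (x0 * p + x1 * p') ^ 2 ≤ 1 := by
      intro x0 x1 hlt
      set n := 1 - (x0 ^ 2 + x1 ^ 2) with hn
      have hn0 : 0 < n := by linarith
      set r := Real.sqrt n with hr
      have hr0 : 0 < r := Real.sqrt_pos.2 hn0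
      have hr2 : r ^ 2 = n := Real.sq_sqrt hn0.le
      set X : RV (k + 2) := Fin.cons x0 (Fin.cons x1 (r • w)) with hX
      set Y : RV (k + 2) := Fin.cons 0 (Fin.cons 0 y) with hY
      have X0 : X 0 = x0 := rfl
      have X1 : X 1 = x1 := rfl
      have XT : tl X = r • w := rfl
      have Y0 : Y 0 = 0 := rfl
      have Y1 : Y 1 = 0 := rfl
      have YT : tl Y = y := rfl
      have hO : OPair X Y := by
        refine ⟨?_, ?_, ?_⟩
        · rw [rdot_split, X0, X1, XT, rdot_smul_left, rdot_smul_right, hw]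
          nlinarith
        · rw [rdot_split, Y0, Y1, YT, hy]
          ring
        · rw [rdot_split, X0, X1, XT, Y0, Y1, YT, rdot_smul_left, hwy0]
          ring
      have h1 := hK X Y hO
      rw [hl, hl, JZ_dot, JZ_dot, X0, X1, XT, Y0, Y1, YT, Matrix.mulVec_smul, Matrix.mulVec_smul,
        rdot_smul_left, rdot_smul_left, rdot_smul_left, rdot_smul_left, hy,
        hwy0, ← hp, ← hp', mul_zero, mul_zero, zero_mul, zero_mul, sub_zero] at h1
      have h2 : n * (x0 * p + x1 * p') ^ 2 ≤ n := by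
        have e3 : n * (x0 * p + x1 * p') ^ 2 = (x0 * (r * p) + x1 * (0 + r * p')) ^ 2 := by
          rw [← hr2]; ring
        rw [e3]
        nlinarith
      exact le_of_mul_le_mul_left (by linarith) hn0
    by_contra hcon
    push Not at hcon
    set R := p ^ 2 + p' ^ 2 with hR
    have hR0 : 0 < R := by linarith
    have h1 := key ((1 / R) * p * Real.sqrt ((R + 1) / 2)) ((1 / R) * p' * Real.sqrt ((R + 1) / 2))
      (by
        have e : ((1 / R) * p * Real.sqrt ((R + 1) / 2)) ^ 2 +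
            ((1 / R) * p' * Real.sqrt ((R + 1) / 2)) ^ 2 =
            (1 / R) ^ 2 * (p ^ 2 + p' ^ 2) * (Real.sqrt ((R + 1) / 2)) ^ 2 := by ring
        rw [e, Real.sq_sqrt (by linarith), ← hR]
        have e2 : (1 / R) ^ 2 * R * ((R + 1) / 2) = (R + 1) / (2 * R) := by
          field_simp
        rw [e2, div_lt_one (by linarith)]
        linarith)
    have e : ((1 / R) * p * Real.sqrt ((R + 1) / 2) * p +
        (1 / R) * p' * Real.sqrt ((R + 1) / 2) * p') ^ 2 =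
        (1 / R) ^ 2 * (p ^ 2 + p' ^ 2) ^ 2 * (Real.sqrt ((R + 1) / 2)) ^ 2 := by ring
    rw [e, Real.sq_sqrt (by linarith), ← hR] at h1
    have e2 : (1 / R) ^ 2 * R ^ 2 * ((R + 1) / 2) = (R + 1) / 2 := by
      field_simp
    rw [e2] at h1
    linarith
  · intro hZ
    refine ⟨isTan_JZ hs, fun X Y hO => ?_⟩
    obtain ⟨hX, hY, hXY⟩ := hO
    rw [rdot_split] at hX hY hXY
    rw [hl, hl, JZ_dot, JZ_dot, rdot_skew hs.1 (tl X) (tl Y), rdot_skew hs.2 (tl X) (tl Y),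
      rdot_comm (tl Y) (tl X)]
    exact alg (rdot_self_nonneg _) (rdot_self_nonneg _) hX hY hXY
      (area hZ (tl X) (tl Y))

end Pool.Agent.P1ae5
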