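import Pool.Agent.Lib.P1ae5.AllStruct
import Pool.Agent.Lib.P1ae5.AllMem
import Pool.Agent.Lib.P1ae5.ZFace
import Pool.Agent.Lib.P1ae5.ZMember
import Pool.Agent.Lib.P1ae5.ZInj
import Pool.Agent.Lib.P1ae5.ExplDefs

/-!
P1ae5.AllFace: the face of `N_A` in all dimensions (owner helper48).
-/

open Metric

namespace Pool.Agent.P1ae5

/-- `(l, J)` is an extreme point of the convex body attached to `A` -/
def ExtrKKA {n : ℕ} (A : Cn n →L[ℂ] Cn n) (l : RV n) (J : Bil n) : Prop :=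
  KKA A l J ∧ ∀ l1 J1 l2 J2, KKA A l1 J1 → KKA A l2 J2 → ∀ t : ℝ, 0 < t → t < 1 →
    l = t • l1 + (1 - t) • l2 → J = t • J1 + (1 - t) • J2 →
    (l1 = l ∧ J1 = J) ∧ (l2 = l ∧ J2 = J)

theorem all_face {n : ℕ} (hn : 2 ≤ n) {A : Cn n →L[ℂ] Cn n}
    (hA : ∀ z : Cn n, z ≠ 0 → 0 < (ip (A z) z).re) {l : RV n} {J : Bil n} (hK : KKA A l J)
    {g₁ g₂ : Cn n → Cn n} (hg1 : g₁ ∈ NA A) (hg2 : g₂ ∈ NA A) {t : ℝ} (ht0 : 0 < t)
    (ht1 : t < 1)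
    (h : ∀ z ∈ ball (0 : Cn n) 1,
      hLJ A l J z = (t : ℂ) • g₁ z + ((1 - t : ℝ) : ℂ) • g₂ z) :
    ∃ l1 J1, KKA A l1 J1 ∧ ∀ z ∈ ball (0 : Cn n) 1, g₁ z = hLJ A l1 J1 z := by
  have hK0 := KKA_zero hA
  obtain ⟨C0, hC0, hd0⟩ := dominated_hLJ hn hK0
  obtain ⟨C, hC, hd⟩ := dominated_hLJ hn hK
  have hre : ∀ z ∈ ball (0 : Cn n) 1, 0 ≤ (ip (g₁ z) z).re ∧
      t * (ip (g₁ z) z).re ≤ (ip (hLJ A l J z) z).re := by
    intro z hz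
    have hnn : ∀ g ∈ NA A, 0 ≤ (ip (g z) z).re := by
      intro g hg
      by_cases hz0 : z = 0
      · subst hz0
        rw [hg.2.1]
        simp [ip]
      · exact (hg.2.2.2 z hz hz0).le
    refine ⟨hnn _ hg1, ?_⟩
    have e0 : ip (hLJ A l J z) z = (t : ℂ) * ip (g₁ z) z + ((1 - t : ℝ) : ℂ) * ip (g₂ z) z := by
      rw [h z hz]
      unfold ip
      rw [inner_add_right, inner_smul_right, inner_smul_right]
    rw [e0, Complex.add_re, Complex.re_ofReal_mul, Complex.re_ofReal_mul]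
    have := hnn _ hg2
    nlinarith
  have hT0 : ∀ x y : RV n, (0 : Bil n) x y = (0 : Bil n) y x := fun _ _ => rfl
  have hH0 := diff_hLJ A (0 : RV n) hT0
  obtain ⟨l1, J1, hJ1, hb₁⟩ := all_struct hn (G := fun z => g₁ z - hLJ A 0 0 z)
    (hg1.1.sub hH0)
    (by simp [hg1.2.1, hLJ_zero])
    (by
      have hball : ball (0 : Cn n) 1 ∈ nhds (0 : Cn n) := ball_mem_nhds _ one_pos
      have e1 : fderiv ℂ (fun z => g₁ z - hLJ A 0 0 z) 0 =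
          fderiv ℂ g₁ 0 - fderiv ℂ (hLJ A 0 0) 0 :=
        fderiv_sub (hg1.1.differentiableAt hball) (hH0.differentiableAt hball)
      rw [e1, hg1.2.2.1, fderiv_hLJ A 0 hT0, sub_self])
    (C := C / t + C0)
    (by
      intro z hz
      obtain ⟨k1, k2⟩ := hre z hz
      have k3 := hd z hz
      have k4 := hd0 z hz
      have k6 : |(ip (g₁ z - hLJ A 0 0 z) z).re| ≤
          (ip (g₁ z) z).re + |(ip (hLJ A 0 0 z) z).re| := by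
        rw [ip_sub_left', Complex.sub_re]
        calc |(ip (g₁ z) z).re - (ip (hLJ A 0 0 z) z).re|
            ≤ |(ip (g₁ z) z).re| + |(ip (hLJ A 0 0 z) z).re| := abs_sub _ _
          _ = _ := by rw [abs_of_nonneg k1]
      have k7 : (ip (g₁ z) z).re ≤ |(ip (hLJ A l J z) z).re| / t := by
        rw [le_div_iff₀ ht0]
        have := le_abs_self (ip (hLJ A l J z) z).re
        nlinarith
      have k8 : (ip (g₁ z) z).re * ‖1 - qq z‖ ^ 2 ≤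
          C / t * (‖z‖ ^ 2 * (1 - ‖qq z‖ ^ 2)) := by
        calc (ip (g₁ z) z).re * ‖1 - qq z‖ ^ 2
            ≤ |(ip (hLJ A l J z) z).re| / t * ‖1 - qq z‖ ^ 2 := by gcongr
          _ = (|(ip (hLJ A l J z) z).re| * ‖1 - qq z‖ ^ 2) / t := by ring
          _ ≤ (C * (‖z‖ ^ 2 * (1 - ‖qq z‖ ^ 2))) / t := by gcongr
          _ = _ := by ring
      calc |(ip (g₁ z - hLJ A 0 0 z) z).re| * ‖1 - qq z‖ ^ 2
          ≤ ((ip (g₁ z) z).re + |(ip (hLJ A 0 0 z) z).re|) * ‖1 - qq z‖ ^ 2 := by gcongr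
        _ = (ip (g₁ z) z).re * ‖1 - qq z‖ ^ 2 +
            |(ip (hLJ A 0 0 z) z).re| * ‖1 - qq z‖ ^ 2 := by ring
        _ ≤ _ := by rw [add_mul]; exact add_le_add k8 k4)
  have hEq : ∀ z ∈ ball (0 : Cn n) 1, g₁ z = hLJ A l1 J1 z := by
    intro z hz
    have e1 := hb₁ z hz
    have e2 := hLJ_add A 0 l1 0 J1 z
    rw [zero_add, zero_add, ← e1] at e2
    rw [e2]
    abel
  refine ⟨l1, J1, ?_, hEq⟩
  rw [← hLJ_mem_iff hn hA hJ1]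
  refine ⟨diff_hLJ A l1 hJ1.1, hLJ_zero A l1 J1, fderiv_hLJ A l1 hJ1.1, ?_⟩
  intro z hz hz0
  rw [← hEq z hz]
  exact hg1.2.2.2 z hz hz0

/-- The face and its decomposition. -/
theorem all_face2 {n : ℕ} (hn : 2 ≤ n) {A : Cn n →L[ℂ] Cn n}
    (hA : ∀ z : Cn n, z ≠ 0 → 0 < (ip (A z) z).re) {l : RV n} {J : Bil n} (hK : KKA A l J)
    {g₁ g₂ : Cn n → Cn n} (hg1 : g₁ ∈ NA A) (hg2 : g₂ ∈ NA A) {t : ℝ} (ht0 : 0 < t)
    (ht1 : t < 1)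
    (h : ∀ z ∈ ball (0 : Cn n) 1,
      hLJ A l J z = (t : ℂ) • g₁ z + ((1 - t : ℝ) : ℂ) • g₂ z) :
    ∃ l1 J1 l2 J2, KKA A l1 J1 ∧ KKA A l2 J2 ∧ l = t • l1 + (1 - t) • l2 ∧
      J = t • J1 + (1 - t) • J2 ∧
      ∀ z ∈ ball (0 : Cn n) 1, g₁ z = hLJ A l1 J1 z ∧ g₂ z = hLJ A l2 J2 z := by
  obtain ⟨l1, J1, hK1, e1⟩ := all_face hn hA hK hg1 hg2 ht0 ht1 h
  obtain ⟨l2, J2, hK2, e2⟩ := all_face hn hA hK hg2 hg1 (t := 1 - t) (by linarith) (by linarith)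
      (fun z hz => by
        rw [h z hz, add_comm]
        congr 2
        push_cast; ring)
  have hT : IsTan (t • J1 + (1 - t) • J2) := by
    refine ⟨fun x y => ?_, fun x => ?_⟩
    · simp only [LinearMap.add_apply, LinearMap.smul_apply]
      rw [hK1.1.1 x y, hK2.1.1 x y]
    · have a1 := hK1.1.2 x
      have a2 := hK2.1.2 x
      simp only [LinearMap.add_apply, LinearMap.smul_apply]
      have : rdot (t • J1 x x + (1 - t) • J2 x x) x = t * rdot (J1 x x) x +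
          (1 - t) * rdot (J2 x x) x := by
        unfold rdot
        rw [Finset.mul_sum, Finset.mul_sum, ← Finset.sum_add_distrib]
        refine Finset.sum_congr rfl fun i _ => ?_
        simp only [Pi.add_apply, Pi.smul_apply, smul_eq_mul]
        ring
      rw [this, a1, a2]; ring
  obtain ⟨f1, f2⟩ := hLJ_inj A hK.1 hT (fun z hz => by
    rw [h z hz, e1 z hz, e2 z hz, hLJ_affine])
  exact ⟨l1, J1, l2, J2, hK1, hK2, f1, f2, fun z hz => ⟨e1 z hz, e2 z hz⟩⟩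

/-- Extreme points on the face. -/
theorem all_main {n : ℕ} (hn : 2 ≤ n) {A : Cn n →L[ℂ] Cn n}
    (hA : ∀ z : Cn n, z ≠ 0 → 0 < (ip (A z) z).re) {l : RV n} {J : Bil n} (hT : IsTan J) :
    IsExtreme A (hLJ A l J) ↔ ExtrKKA A l J := by
  constructor
  · rintro ⟨hm, hx⟩
    refine ⟨(hLJ_mem_iff hn hA hT).1 hm, ?_⟩
    intro l1 J1 l2 J2 h1 h2 t ht0 ht1 hl hJ
    have key := hx _ ((hLJ_mem_iff hn hA h1.1).2 h1) _ ((hLJ_mem_iff hn hA h2.1).2 h2) t ht0 ht1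
      (fun z _ => by rw [hl, hJ]; exact hLJ_affine A l1 l2 J1 J2 t z)
    obtain ⟨a1, a2⟩ := hLJ_inj A h1.1 hT (fun z hz => (key z hz).1)
    obtain ⟨b1, b2⟩ := hLJ_inj A h2.1 hT (fun z hz => (key z hz).2)
    exact ⟨⟨a1, a2⟩, ⟨b1, b2⟩⟩
  · rintro ⟨hK, hx⟩
    refine ⟨(hLJ_mem_iff hn hA hT).2 hK, ?_⟩
    intro g₁ hg1 g₂ hg2 t ht0 ht1 h z hz
    obtain ⟨l1, J1, l2, J2, hK1, hK2, hl, hJ, hg⟩ := all_face2 hn hA hK hg1 hg2 ht0 ht1 h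
    obtain ⟨⟨a1, a2⟩, ⟨b1, b2⟩⟩ := hx l1 J1 l2 J2 hK1 hK2 t ht0 ht1 hl hJ
    rw [(hg z hz).1, (hg z hz).2, a1, a2, b1, b2]
    exact ⟨rfl, rfl⟩

theorem pos_of_one {n : ℕ} {A : Cn n →L[ℂ] Cn n}
    (hA : ∀ z : Cn n, (ip (A z) z).re = ‖z‖ ^ 2) :
    ∀ z : Cn n, z ≠ 0 → 0 < (ip (A z) z).re := by
  intro z hz
  rw [hA]
  have := norm_pos_iff.2 hz
  positivity

/-- the maps `h_Z` -/
noncomputable def hZ {k : ℕ} (A : Cn (k + 2) →L[ℂ] Cn (k + 2)) (K K' : Matrix (Fin k) (Fin k) ℝ) :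
    Cn (k + 2) → Cn (k + 2) := hLJ A ((2 : ℝ) • ea k) (JZ K K')

theorem hZ_mem_iff {k : ℕ} {A : Cn (k + 2) →L[ℂ] Cn (k + 2)}
    (hA : ∀ z : Cn (k + 2), (ip (A z) z).re = ‖z‖ ^ 2) {K K' : Matrix (Fin k) (Fin k) ℝ}
    (hs : SK K K') : hZ A K K' ∈ NA A ↔ ZZ K K' := by
  unfold hZ
  rw [hLJ_mem_iff (by omega) (pos_of_one hA) (isTan_JZ hs), KKA_iff_KK hA, z_member hs]

theorem z_face2 {k : ℕ} {A : Cn (k + 2) →L[ℂ] Cn (k + 2)}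
    (hA : ∀ z : Cn (k + 2), (ip (A z) z).re = ‖z‖ ^ 2) {K K' : Matrix (Fin k) (Fin k) ℝ}
    (hZ0 : ZZ K K') {g₁ g₂ : Cn (k + 2) → Cn (k + 2)} (hg1 : g₁ ∈ NA A) (hg2 : g₂ ∈ NA A)
    {t : ℝ} (ht0 : 0 < t) (ht1 : t < 1)
    (h : ∀ z ∈ ball (0 : Cn (k + 2)) 1,
      hZ A K K' z = (t : ℂ) • g₁ z + ((1 - t : ℝ) : ℂ) • g₂ z) :
    ∃ K1 K1' K2 K2' : Matrix (Fin k) (Fin k) ℝ, ZZ K1 K1' ∧ ZZ K2 K2' ∧
      K = t • K1 + (1 - t) • K2 ∧ K' = t • K1' + (1 - t) • K2' ∧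
      ∀ z ∈ ball (0 : Cn (k + 2)) 1, g₁ z = hZ A K1 K1' z ∧ g₂ z = hZ A K2 K2' z := by
  have hs := hZ0.1
  have hK : KKA A ((2 : ℝ) • ea k) (JZ K K') := by
    rw [KKA_iff_KK hA, z_member hs]; exact hZ0
  obtain ⟨l1, J1, l2, J2, hK1, hK2, hl, hJ, hg⟩ :=
    all_face2 (by omega) (pos_of_one hA) hK hg1 hg2 ht0 ht1 h
  rw [KKA_iff_KK hA] at hK1 hK2
  obtain ⟨hl1, K1, K1', hs1, hJ1⟩ := z_face hs hK1 hK2 ht0 ht1 hl hJ
  obtain ⟨hl2, K2, K2', hs2, hJ2⟩ := z_face hs hK2 hK1 (t := 1 - t) (by linarith) (by linarith)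
    (hl.trans (by module)) (hJ.trans (by module))
  subst hl1 hl2 hJ1 hJ2
  rw [← JZ_affine] at hJ
  obtain ⟨e1, e2⟩ := JZ_inj hJ
  exact ⟨K1, K1', K2, K2', (z_member hs1).1 hK1, (z_member hs2).1 hK2, e1, e2, hg⟩

theorem z_main {k : ℕ} {A : Cn (k + 2) →L[ℂ] Cn (k + 2)}
    (hA : ∀ z : Cn (k + 2), (ip (A z) z).re = ‖z‖ ^ 2) {K K' : Matrix (Fin k) (Fin k) ℝ}
    (hs : SK K K') : IsExtreme A (hZ A K K') ↔ ExtrZZ K K' := by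
  constructor
  · rintro ⟨hm, hx⟩
    refine ⟨(hZ_mem_iff hA hs).1 hm, ?_⟩
    intro K1 K1' K2 K2' h1 h2 t ht0 ht1 hK hK'
    have key := hx _ ((hZ_mem_iff hA h1.1).2 h1) _ ((hZ_mem_iff hA h2.1).2 h2) t ht0 ht1
      (fun z _ => by
        have e : (2 : ℝ) • ea k = t • ((2 : ℝ) • ea k) + (1 - t) • ((2 : ℝ) • ea k) := by
          rw [← add_smul]; simp
        unfold hZ
        rw [hK, hK', JZ_affine, ← hLJ_affine, ← e])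
    have a := hLJ_inj A (isTan_JZ h1.1) (isTan_JZ hs) (fun z hz => (key z hz).1)
    have b := hLJ_inj A (isTan_JZ h2.1) (isTan_JZ hs) (fun z hz => (key z hz).2)
    exact ⟨JZ_inj a.2, JZ_inj b.2⟩
  · rintro ⟨hZ0, hx⟩
    refine ⟨(hZ_mem_iff hA hs).2 hZ0, ?_⟩
    intro g₁ hg1 g₂ hg2 t ht0 ht1 h z hz
    obtain ⟨K1, K1', K2, K2', h1, h2, e1, e2, hg⟩ := z_face2 hA hZ0 hg1 hg2 ht0 ht1 h
    obtain ⟨⟨a1, a2⟩, ⟨b1, b2⟩⟩ := hx K1 K1' K2 K2' h1 h2 t ht0 ht1 e1 e2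
    rw [(hg z hz).1, (hg z hz).2, a1, a2, b1, b2]
    exact ⟨rfl, rfl⟩

end Pool.Agent.P1ae5
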