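import Pool.Agent.Lib.P1ae5.KeyDiag

/-!
MODULE P1ae5.KeyAlg (1.5 h). Uses `diag_const` (black box): `c1 (m+1) (n+1) = 2 c1 m n` and
`c2 (m+1) (n+1) = 2 c2 m n` whenever `m + n ≥ 2`. All powers are integer powers (zpow).

PROOF of `key_alg`. Put `r^2 = (1+x)/2`, `s^2 = (1-x)/2`, `0 < r, s`, `x ∈ (-1, 1)`,
`τ = 2 r s`, `τ^2 = 1 - x^2`, `1 - 4 r^2 s^2 = x^2`. By `h01, h02`: `up c1 c2 j k r s = 0` if
`j + k ≤ 0`. So for `j + k ≥ 1`, `N2 j k = up j k / 2`; for `j + k = 0`, `N2 j k = 0`; and always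
`N2 (-j) (-k) = conj (N2 j k)`. By `diag_const`, `up (j+1) (k+1) = τ up j k` when `j + k ≥ 1`
(for `(j, k)` with `j + k ≥ 1` the indices `(j+1, k)` and `(j, k+1)` have sum `≥ 2`).
(a) `j + k = 2`: `N2 (j-1) (k-1) = 0`, so `h2` at `(j, k)` is
 `‖(1 + τ^2 - τ^2) up j k / 2‖ ≤ C x^2`, i.e. `r^j s^k (c1 (j+1) k r^2 + c2 j (k+1) s^2) = O(x^2)`,
 hence `c1 (j+1) k = 0 = c2 j (k+1)` (coefficients of `1` and `x` of
 `((c1+c2) + x (c1-c2))/2`). So `c1 m n = c2 m n = 0` for all `m + n = 3`, hence by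
 `diag_const` for all odd `m + n ≥ 3`.
(b) `j + k = 1`: `h2` at `(j, k)`, with `N2 (j+1) (k+1) = τ N2 j k` and
 `N2 (j-1) (k-1) = conj (N2 (1-j) (1-k))`: `‖N2 j k - τ conj (N2 (1-j) (1-k))‖ ≤ C x^2`.
 If `j ≥ 3` (`k ≤ -2`) or `j ≤ -2`: `c1 (j+1) k = 0 = c2 j (k+1)` by `h01, h02` (negative index).
 `(j,k) = (2,-1)`: `N2 = r^2 s c2 2 0 / 2`; `(1-j, 1-k) = (-1, 2)`: `N2 = r s^2 c1 0 2 / 2`
 (since `c1 3 (-1) = 0`, `c2 (-1) 3 = 0`). Divide by `s` (`s ≥ 1/2` near `x = 0`):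
 `r^2 c2 2 0 - (τ^2 / 2) conj (c1 0 2) = O(x^2)` with `r^2 = (1+x)/2`, `τ^2 = 1 - x^2`:
 coefficient of `x`: `c2 2 0 = 0`; constant term: `c1 0 2 = 0`.
 `(j,k) = (1,0)`: `N2 = r (c1 2 0 r^2 + c2 1 1 s^2) / 2`, `(0,1)`:
 `N2 = s (c1 1 1 r^2 + c2 0 2 s^2) / 2`.
 Multiply by `r`: `r^2 (c1 2 0 r^2 + c2 1 1 s^2) - (τ^2/2) conj (c1 1 1 r^2 + c2 0 2 s^2) = O(x^2)`.
 Constant term: `c1 2 0 + c2 1 1 = conj (c1 1 1 + c2 0 2)`; coefficient of `x`: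
 `2 c1 2 0 = conj (c1 1 1 - c2 0 2)`. So `c1 1 1 = 2 conj B1 + B2`, `c2 1 1 = B1 + 2 conj B2` with
 `B1 = c1 2 0`, `B2 = c2 0 2`.
So among `m + n = 2` only `c1 2 0, c1 1 1, c2 1 1, c2 0 2` survive
(`c1 0 2 = 0`, `c2 2 0 = 0`, the others have a negative index), and the conclusion follows from
`diag_const` (if `(m-1) + (n-1) ≥ 2`), (a) (`m + n = 3`), the above (`m + n = 2`) and `h01, h02`
(`m + n ≤ 1`). The conclusion lists the coefficients of `(1 - 2 z w) G_i`.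
-/

open Filter Topology

namespace Pool.Agent.P1ae5

namespace KeyAlgAux

lemma up_eq (c1 c2 : ℤ → ℤ → ℂ) (j k : ℤ) {r s : ℝ} (hr : 0 < r) (hs : 0 < s) :
    up c1 c2 j k r s =
      (r : ℂ) ^ j * (s : ℂ) ^ k * (c1 (j + 1) k * (r : ℂ) ^ 2 + c2 j (k + 1) * (s : ℂ) ^ 2) := by
  have hr0 : (r : ℂ) ≠ 0 := by exact_mod_cast hr.ne'
  have hs0 : (s : ℂ) ≠ 0 := by exact_mod_cast hs.ne'
  unfold up
  rw [zpow_add₀ hr0, zpow_add₀ hs0]
  have h1 : (r : ℂ) ^ (2 : ℤ) = (r : ℂ) ^ 2 := by norm_cast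
  have h2 : (s : ℂ) ^ (2 : ℤ) = (s : ℂ) ^ 2 := by norm_cast
  rw [h1, h2]
  ring

lemma up_zero {c1 c2 : ℤ → ℤ → ℂ} {C : ℝ} (h : KeyHyp c1 c2 C) {j k : ℤ} (hjk : j + k ≤ 0) (r s : ℝ) :
    up c1 c2 j k r s = 0 := by
  unfold up
  rw [h.h01 (j + 1) k (by omega), h.h02 j (k + 1) (by omega)]
  ring

lemma up_succ {c1 c2 : ℤ → ℤ → ℂ} {C : ℝ} (h : KeyHyp c1 c2 C) {j k : ℤ} (hjk : 1 ≤ j + k) {r s : ℝ}
    (hr : 0 < r) (hs : 0 < s) :
    up c1 c2 (j + 1) (k + 1) r s = 2 * r * s * up c1 c2 j k r s := by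
  have hr0 : (r : ℂ) ≠ 0 := by exact_mod_cast hr.ne'
  have hs0 : (s : ℂ) ≠ 0 := by exact_mod_cast hs.ne'
  rw [up_eq c1 c2 (j + 1) (k + 1) hr hs, up_eq c1 c2 j k hr hs,
    (diag_const h (j + 1) k (by omega)).1, (diag_const h j (k + 1) (by omega)).2,
    zpow_add_one₀ hr0, zpow_add_one₀ hs0]
  ring

lemma coef {α β : ℂ} {K : ℝ} (h : ∀ x : ℝ, 0 < x → x < 1 / 2 → ‖α + β * x‖ ≤ K * x ^ 2) :
    α = 0 ∧ β = 0 := by
  have hlim : Tendsto (fun n : ℕ => (1 : ℝ) / ((n : ℝ) + 1)) atTop (𝓝 0) := tendsto_one_div_add_atTop_nhds_zero_nat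
  have hev : ∀ᶠ n : ℕ in atTop, 0 < (1 : ℝ) / ((n : ℝ) + 1) ∧ (1 : ℝ) / ((n : ℝ) + 1) < 1 / 2 := by
    filter_upwards [eventually_gt_atTop 1] with n hn
    have hn' : (1 : ℝ) < n := by exact_mod_cast hn
    refine ⟨by positivity, ?_⟩
    rw [div_lt_div_iff₀ (by positivity) (by norm_num)]
    linarith
  have hα : α = 0 := by
    have h1 : Tendsto (fun n : ℕ => ‖α + β * ((1 : ℝ) / ((n : ℝ) + 1) : ℝ)‖) atTop (𝓝 ‖α + β * ((0 : ℝ) : ℂ)‖) := by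
      refine Tendsto.norm (tendsto_const_nhds.add (tendsto_const_nhds.mul ?_))
      exact (Complex.continuous_ofReal.tendsto 0).comp hlim
    have h2 : Tendsto (fun n : ℕ => K * ((1 : ℝ) / ((n : ℝ) + 1)) ^ 2) atTop (𝓝 (K * 0 ^ 2)) :=
      tendsto_const_nhds.mul (hlim.pow 2)
    have h3 := le_of_tendsto_of_tendsto h1 h2 (by
      filter_upwards [hev] with n hn
      exact h _ hn.1 hn.2)
    simp only [Complex.ofReal_zero, mul_zero, add_zero, ne_eq, OfNat.ofNat_ne_zero, not_false_eq_true, zero_pow] at h3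
    exact norm_le_zero_iff.mp h3
  refine ⟨hα, ?_⟩
  subst hα
  have h2 : Tendsto (fun n : ℕ => K * ((1 : ℝ) / ((n : ℝ) + 1))) atTop (𝓝 (K * 0)) :=
    tendsto_const_nhds.mul hlim
  have h3 := ge_of_tendsto h2 (b := ‖β‖) (by
    filter_upwards [hev] with n hn
    have h4 := h _ hn.1 hn.2
    rw [zero_add, norm_mul, Complex.norm_real, Real.norm_eq_abs, abs_of_pos hn.1] at h4
    have h5 : ‖β‖ * ((1 : ℝ) / ((n : ℝ) + 1)) ≤ (K * ((1 : ℝ) / ((n : ℝ) + 1))) * ((1 : ℝ) / ((n : ℝ) + 1)) := by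
      rw [mul_assoc, ← sq]
      exact h4
    exact le_of_mul_le_mul_right h5 hn.1)
  rw [mul_zero] at h3
  exact norm_le_zero_iff.mp h3

lemma param {x : ℝ} (hx0 : 0 < x) (hx1 : x < 1 / 2) : ∃ r s : ℝ, 1 / 2 ≤ r ∧ r ≤ 1 ∧ 1 / 2 ≤ s ∧ s ≤ 1 ∧
    r ^ 2 = (1 + x) / 2 ∧ s ^ 2 = (1 - x) / 2 := by
  have h1 : Real.sqrt ((1 + x) / 2) ^ 2 = (1 + x) / 2 := Real.sq_sqrt (by linarith)
  have h2 : Real.sqrt ((1 - x) / 2) ^ 2 = (1 - x) / 2 := Real.sq_sqrt (by linarith)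
  refine ⟨Real.sqrt ((1 + x) / 2), Real.sqrt ((1 - x) / 2), ?_, ?_, ?_, ?_, h1, h2⟩
  · exact Real.le_sqrt_of_sq_le (by linarith)
  · exact Real.sqrt_le_iff.mpr ⟨by norm_num, by linarith⟩
  · exact Real.le_sqrt_of_sq_le (by linarith)
  · exact Real.sqrt_le_iff.mpr ⟨by norm_num, by linarith⟩

lemma zpow_ge {t : ℝ} (h1 : 1 / 2 ≤ t) (h2 : t ≤ 1) (j : ℤ) : (1 / 2 : ℝ) ^ j.natAbs ≤ t ^ j := by
  have ht : 0 < t := by linarith
  rcases le_total 0 j with hj | hj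
  · obtain ⟨n, rfl⟩ := Int.eq_ofNat_of_zero_le hj
    rw [Int.natAbs_natCast, zpow_natCast]
    exact pow_le_pow_left₀ (by norm_num) h1 n
  · obtain ⟨n, hn⟩ := Int.eq_ofNat_of_zero_le (neg_nonneg.mpr hj)
    have hj2 : j = -(n : ℤ) := by omega
    subst hj2
    rw [Int.natAbs_neg, Int.natAbs_natCast, zpow_neg, zpow_natCast]
    have h3 : (1 / 2 : ℝ) ^ n ≤ 1 := pow_le_one₀ (by norm_num) (by norm_num)
    have h4 : t ^ n ≤ 1 := pow_le_one₀ ht.le h2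
    exact h3.trans ((one_le_inv₀ (by positivity)).mpr h4)

/-- Inequality `h2` in terms of `up` if `j + k = 2`. -/
lemma ineq2 {c1 c2 : ℤ → ℤ → ℂ} {C : ℝ} (h : KeyHyp c1 c2 C) {j k : ℤ} (hjk : j + k = 2) {r s : ℝ}
    (hr : 0 < r) (hs : 0 < s) (hrs : r ^ 2 + s ^ 2 = 1) :
    ‖up c1 c2 j k r s‖ ≤ 2 * (C * (1 - 4 * r ^ 2 * s ^ 2)) := by
  have h2 := h.h2 j k r s hr hs hrs
  unfold N2 at h2
  rw [up_zero h (j := -j) (k := -k) (by omega), up_zero h (j := j - 1) (k := k - 1) (by omega),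
    up_zero h (j := -(j - 1)) (k := -(k - 1)) (by omega), up_zero h (j := -(j + 1)) (k := -(k + 1)) (by omega),
    up_succ h (by omega) hr hs, map_zero] at h2
  have e : (1 + 4 * (r : ℂ) ^ 2 * (s : ℂ) ^ 2) * ((up c1 c2 j k r s + 0) / 2) -
      2 * r * s * ((0 + 0) / 2 + (2 * r * s * up c1 c2 j k r s + 0) / 2) = up c1 c2 j k r s / 2 := by ring
  rw [e, norm_div] at h2
  have e2 : ‖(2 : ℂ)‖ = 2 := by norm_num
  rw [e2] at h2
  linarith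

/-- Inequality `h2` in terms of `up` if `j + k = 1`. -/
lemma ineq1 {c1 c2 : ℤ → ℤ → ℂ} {C : ℝ} (h : KeyHyp c1 c2 C) {j k : ℤ} (hjk : j + k = 1) {r s : ℝ}
    (hr : 0 < r) (hs : 0 < s) (hrs : r ^ 2 + s ^ 2 = 1) :
    ‖up c1 c2 j k r s - 2 * r * s * (starRingEnd ℂ) (up c1 c2 (-(j - 1)) (-(k - 1)) r s)‖ ≤
      2 * (C * (1 - 4 * r ^ 2 * s ^ 2)) := by
  have h2 := h.h2 j k r s hr hs hrs
  unfold N2 at h2
  rw [up_zero h (j := -j) (k := -k) (by omega), up_zero h (j := j - 1) (k := k - 1) (by omega),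
    up_zero h (j := -(j + 1)) (k := -(k + 1)) (by omega),
    up_succ h (by omega) hr hs, map_zero] at h2
  have e : (1 + 4 * (r : ℂ) ^ 2 * (s : ℂ) ^ 2) * ((up c1 c2 j k r s + 0) / 2) -
      2 * r * s * ((0 + (starRingEnd ℂ) (up c1 c2 (-(j - 1)) (-(k - 1)) r s)) / 2 +
        (2 * r * s * up c1 c2 j k r s + 0) / 2) =
      (up c1 c2 j k r s - 2 * r * s * (starRingEnd ℂ) (up c1 c2 (-(j - 1)) (-(k - 1)) r s)) / 2 := by ring
  rw [e, norm_div] at h2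
  have e2 : ‖(2 : ℂ)‖ = 2 := by norm_num
  rw [e2] at h2
  linarith

lemma C_nonneg {c1 c2 : ℤ → ℤ → ℂ} {C : ℝ} (h : KeyHyp c1 c2 C) : 0 ≤ C := by
  obtain ⟨r, s, hr1, hr2, hs1, hs2, hr, hs⟩ := param (x := 1 / 4) (by norm_num) (by norm_num)
  exact (norm_nonneg _).trans (h.h1 0 0 r s (by linarith) (by linarith) (by rw [hr, hs]; norm_num))

/-- Coefficients with index sum three vanish. -/
lemma three {c1 c2 : ℤ → ℤ → ℂ} {C : ℝ} (h : KeyHyp c1 c2 C) {j k : ℤ} (hjk : j + k = 2) :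
    c1 (j + 1) k = 0 ∧ c2 j (k + 1) = 0 := by
  set κ : ℝ := (1 / 2 : ℝ) ^ j.natAbs * (1 / 2 : ℝ) ^ k.natAbs with hκ
  have hκ0 : 0 < κ := by positivity
  have hC := C_nonneg h
  have hmain := coef (α := (c1 (j + 1) k + c2 j (k + 1)) / 2) (β := (c1 (j + 1) k - c2 j (k + 1)) / 2)
    (K := κ⁻¹ * (2 * C)) (by
      intro x hx0 hx1
      obtain ⟨r, s, hr1, hr2, hs1, hs2, hr, hs⟩ := param hx0 hx1
      have hr0 : 0 < r := by linarith
      have hs0 : 0 < s := by linarith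
      have h1 := ineq2 h hjk hr0 hs0 (by rw [hr, hs]; ring)
      rw [up_eq c1 c2 j k hr0 hs0, norm_mul, norm_mul] at h1
      have e1 : ‖(r : ℂ) ^ j‖ = r ^ j := by
        rw [norm_zpow, Complex.norm_real, Real.norm_eq_abs, abs_of_pos hr0]
      have e2 : ‖(s : ℂ) ^ k‖ = s ^ k := by
        rw [norm_zpow, Complex.norm_real, Real.norm_eq_abs, abs_of_pos hs0]
      have e3 : (1 - 4 * r ^ 2 * s ^ 2) = x ^ 2 := by rw [hr, hs]; ring
      have hr' : (r : ℂ) ^ 2 = (1 + x) / 2 := by exact_mod_cast congrArg (fun t : ℝ => (t : ℂ)) hr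
      have hs' : (s : ℂ) ^ 2 = (1 - x) / 2 := by exact_mod_cast congrArg (fun t : ℝ => (t : ℂ)) hs
      have e4 : c1 (j + 1) k * (r : ℂ) ^ 2 + c2 j (k + 1) * (s : ℂ) ^ 2 =
          (c1 (j + 1) k + c2 j (k + 1)) / 2 + (c1 (j + 1) k - c2 j (k + 1)) / 2 * x := by
        rw [hr', hs']
        ring
      rw [e1, e2, e3, e4] at h1
      have h2 : κ ≤ r ^ j * s ^ k :=
        mul_le_mul (zpow_ge hr1 hr2 j) (zpow_ge hs1 hs2 k) (by positivity) (by positivity)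
      set N := ‖(c1 (j + 1) k + c2 j (k + 1)) / 2 + (c1 (j + 1) k - c2 j (k + 1)) / 2 * (x : ℂ)‖ with hN
      have hN0 : 0 ≤ N := norm_nonneg _
      have h3 : κ * N ≤ 2 * (C * x ^ 2) := (mul_le_mul_of_nonneg_right h2 hN0).trans h1
      calc N = κ⁻¹ * (κ * N) := by field_simp
        _ ≤ κ⁻¹ * (2 * (C * x ^ 2)) := mul_le_mul_of_nonneg_left h3 (by positivity)
        _ = _ := by ring)
  obtain ⟨h1, h2⟩ := hmain
  constructor
  · linear_combination h1 + h2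
  · linear_combination h1 - h2

/-- The coefficients `c2 2 0` and `c1 0 2` vanish. -/
lemma two_outer {c1 c2 : ℤ → ℤ → ℂ} {C : ℝ} (h : KeyHyp c1 c2 C) : c2 2 0 = 0 ∧ c1 0 2 = 0 := by
  have hC := C_nonneg h
  set B := c2 2 0 with hB
  set D := (starRingEnd ℂ) (c1 0 2) with hD
  have hmain := coef (α := (B - D) / 2) (β := B / 2) (K := 4 * C + ‖D‖) (by
    intro x hx0 hx1
    obtain ⟨r, s, hr1, hr2, hs1, hs2, hr, hs⟩ := param hx0 hx1
    have hr0 : 0 < r := by linarith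
    have hs0 : 0 < s := by linarith
    have h1 := ineq1 h (j := 2) (k := -1) (by norm_num) hr0 hs0 (by rw [hr, hs]; ring)
    have e3 : (1 - 4 * r ^ 2 * s ^ 2) = x ^ 2 := by rw [hr, hs]; ring
    have hr' : (r : ℂ) ^ 2 = (1 + x) / 2 := by exact_mod_cast congrArg (fun t : ℝ => (t : ℂ)) hr
    have hs' : (s : ℂ) ^ 2 = (1 - x) / 2 := by exact_mod_cast congrArg (fun t : ℝ => (t : ℂ)) hs
    have u1 : up c1 c2 2 (-1) r s = (r : ℂ) ^ 2 * s * B := by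
      unfold up
      rw [h.h01 (2 + 1) (-1) (by norm_num)]
      norm_num
      left
      norm_cast
    have u2 : up c1 c2 (-(2 - 1)) (-(-1 - 1)) r s = (r : ℂ) * (s : ℂ) ^ 2 * c1 0 2 := by
      unfold up
      rw [h.h02 (-(2 - 1)) (-(-1 - 1) + 1) (by norm_num)]
      norm_num
    rw [u1, u2, e3, map_mul, map_mul, map_pow, Complex.conj_ofReal, Complex.conj_ofReal, ← hD] at h1
    have e5 : (r : ℂ) ^ 2 * s * B - 2 * r * s * (r * (s : ℂ) ^ 2 * D) =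
        s * (((B - D) / 2 + B / 2 * x) + (x : ℂ) ^ 2 / 2 * D) := by
      have : 2 * (r : ℂ) * s * (r * (s : ℂ) ^ 2 * D) = s * (2 * ((r : ℂ) ^ 2 * (s : ℂ) ^ 2) * D) := by ring
      rw [this, hr', hs']
      ring
    rw [e5, norm_mul, Complex.norm_real, Real.norm_eq_abs, abs_of_pos hs0] at h1
    set N := ‖((B - D) / 2 + B / 2 * (x : ℂ)) + (x : ℂ) ^ 2 / 2 * D‖ with hN
    have hN0 : 0 ≤ N := norm_nonneg _
    have h3 : N ≤ 4 * (C * x ^ 2) := by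
      have : 1 / 2 * N ≤ s * N := mul_le_mul_of_nonneg_right hs1 hN0
      linarith
    have h4 : ‖(x : ℂ) ^ 2 / 2 * D‖ ≤ ‖D‖ * x ^ 2 := by
      rw [norm_mul, norm_div, norm_pow, Complex.norm_real, Real.norm_eq_abs, abs_of_pos hx0]
      have e2 : ‖(2 : ℂ)‖ = 2 := by norm_num
      rw [e2]
      have := norm_nonneg D
      have : 0 ≤ x ^ 2 * ‖D‖ := by positivity
      linarith
    have h5 : ‖(B - D) / 2 + B / 2 * (x : ℂ)‖ ≤ N + ‖(x : ℂ) ^ 2 / 2 * D‖ := by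
      have := norm_sub_le (((B - D) / 2 + B / 2 * (x : ℂ)) + (x : ℂ) ^ 2 / 2 * D) ((x : ℂ) ^ 2 / 2 * D)
      rwa [add_sub_cancel_right] at this
    calc ‖(B - D) / 2 + B / 2 * (x : ℂ)‖ ≤ 4 * (C * x ^ 2) + ‖D‖ * x ^ 2 := by linarith
      _ = _ := by ring)
  obtain ⟨h1, h2⟩ := hmain
  have hB0 : B = 0 := by linear_combination 2 * h2
  have hD0 : D = 0 := by linear_combination 2 * h2 - 2 * h1
  refine ⟨hB0, ?_⟩
  rw [hD] at hD0
  exact (map_eq_zero _).mp hD0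

/-- The inner coefficients. -/
lemma two_inner {c1 c2 : ℤ → ℤ → ℂ} {C : ℝ} (h : KeyHyp c1 c2 C) :
    c1 1 1 = 2 * (starRingEnd ℂ) (c1 2 0) + c2 0 2 ∧ c2 1 1 = c1 2 0 + 2 * (starRingEnd ℂ) (c2 0 2) := by
  have hC := C_nonneg h
  set B1 := c1 2 0 with hB1
  set B2 := c2 0 2 with hB2
  set P := c2 1 1 with hP
  set Q := c1 1 1 with hQ
  set Q' := (starRingEnd ℂ) Q with hQ'
  set B2' := (starRingEnd ℂ) B2 with hB2'
  have hmain := coef (α := (B1 + P) / 4 - (Q' + B2') / 4) (β := B1 / 2 - (Q' - B2') / 4)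
    (K := 2 * C + ‖B1 - P‖ + ‖Q' + B2'‖ + ‖Q' - B2'‖) (by
    intro x hx0 hx1
    obtain ⟨r, s, hr1, hr2, hs1, hs2, hr, hs⟩ := param hx0 hx1
    have hr0 : 0 < r := by linarith
    have hs0 : 0 < s := by linarith
    have h1 := ineq1 h (j := 1) (k := 0) (by norm_num) hr0 hs0 (by rw [hr, hs]; ring)
    have e3 : (1 - 4 * r ^ 2 * s ^ 2) = x ^ 2 := by rw [hr, hs]; ring
    have hr' : (r : ℂ) ^ 2 = (1 + x) / 2 := by exact_mod_cast congrArg (fun t : ℝ => (t : ℂ)) hr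
    have hs' : (s : ℂ) ^ 2 = (1 - x) / 2 := by exact_mod_cast congrArg (fun t : ℝ => (t : ℂ)) hs
    have u1 : up c1 c2 1 0 r s = (r : ℂ) * (B1 * (r : ℂ) ^ 2 + P * (s : ℂ) ^ 2) := by
      rw [up_eq c1 c2 1 0 hr0 hs0]
      norm_num
      left
      rfl
    have u2 : up c1 c2 (-(1 - 1)) (-(0 - 1)) r s = (s : ℂ) * (Q * (r : ℂ) ^ 2 + B2 * (s : ℂ) ^ 2) := by
      rw [up_eq c1 c2 _ _ hr0 hs0]
      norm_num
      left
      rfl
    rw [u1, u2, e3, map_mul, map_add, map_mul, map_mul, map_pow, map_pow, Complex.conj_ofReal,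
      Complex.conj_ofReal, ← hQ', ← hB2'] at h1
    have h6 : ‖(r : ℂ) * ((r : ℂ) * (B1 * (r : ℂ) ^ 2 + P * (s : ℂ) ^ 2) -
        2 * r * s * (s * (Q' * (r : ℂ) ^ 2 + B2' * (s : ℂ) ^ 2)))‖ ≤ 2 * (C * x ^ 2) := by
      rw [norm_mul, Complex.norm_real, Real.norm_eq_abs, abs_of_pos hr0]
      calc r * ‖(r : ℂ) * (B1 * (r : ℂ) ^ 2 + P * (s : ℂ) ^ 2) -
            2 * r * s * (s * (Q' * (r : ℂ) ^ 2 + B2' * (s : ℂ) ^ 2))‖
          ≤ 1 * ‖(r : ℂ) * (B1 * (r : ℂ) ^ 2 + P * (s : ℂ) ^ 2) -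
            2 * r * s * (s * (Q' * (r : ℂ) ^ 2 + B2' * (s : ℂ) ^ 2))‖ :=
            mul_le_mul_of_nonneg_right hr2 (norm_nonneg _)
        _ ≤ _ := by rw [one_mul]; exact h1
    have e5 : (r : ℂ) * ((r : ℂ) * (B1 * (r : ℂ) ^ 2 + P * (s : ℂ) ^ 2) -
        2 * r * s * (s * (Q' * (r : ℂ) ^ 2 + B2' * (s : ℂ) ^ 2))) =
        (((B1 + P) / 4 - (Q' + B2') / 4) + (B1 / 2 - (Q' - B2') / 4) * x) +
          ((x : ℂ) ^ 2 / 4 * (B1 - P) + (x : ℂ) ^ 2 / 4 * (Q' + B2') + (x : ℂ) ^ 3 / 4 * (Q' - B2')) := by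
      have : (r : ℂ) * ((r : ℂ) * (B1 * (r : ℂ) ^ 2 + P * (s : ℂ) ^ 2) -
        2 * r * s * (s * (Q' * (r : ℂ) ^ 2 + B2' * (s : ℂ) ^ 2))) =
        (r : ℂ) ^ 2 * (B1 * (r : ℂ) ^ 2 + P * (s : ℂ) ^ 2) -
          2 * ((r : ℂ) ^ 2 * (s : ℂ) ^ 2) * (Q' * (r : ℂ) ^ 2 + B2' * (s : ℂ) ^ 2) := by ring
      rw [this, hr', hs']
      ring
    rw [e5] at h6
    set M := ((B1 + P) / 4 - (Q' + B2') / 4) + (B1 / 2 - (Q' - B2') / 4) * (x : ℂ) with hM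
    set E := ((x : ℂ) ^ 2 / 4 * (B1 - P) + (x : ℂ) ^ 2 / 4 * (Q' + B2') + (x : ℂ) ^ 3 / 4 * (Q' - B2')) with hE
    have nx : ‖(x : ℂ)‖ = x := by rw [Complex.norm_real, Real.norm_eq_abs, abs_of_pos hx0]
    have n4 : ‖(4 : ℂ)‖ = 4 := by norm_num
    have hE1 : ‖E‖ ≤ x ^ 2 / 4 * ‖B1 - P‖ + x ^ 2 / 4 * ‖Q' + B2'‖ + x ^ 3 / 4 * ‖Q' - B2'‖ := by
      have f1 : ‖(x : ℂ) ^ 2 / 4 * (B1 - P)‖ = x ^ 2 / 4 * ‖B1 - P‖ := by
        rw [norm_mul, norm_div, norm_pow, nx, n4]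
      have f2 : ‖(x : ℂ) ^ 2 / 4 * (Q' + B2')‖ = x ^ 2 / 4 * ‖Q' + B2'‖ := by
        rw [norm_mul, norm_div, norm_pow, nx, n4]
      have f3 : ‖(x : ℂ) ^ 3 / 4 * (Q' - B2')‖ = x ^ 3 / 4 * ‖Q' - B2'‖ := by
        rw [norm_mul, norm_div, norm_pow, nx, n4]
      have f4 := norm_add_le ((x : ℂ) ^ 2 / 4 * (B1 - P) + (x : ℂ) ^ 2 / 4 * (Q' + B2'))
        ((x : ℂ) ^ 3 / 4 * (Q' - B2'))
      have f5 := norm_add_le ((x : ℂ) ^ 2 / 4 * (B1 - P)) ((x : ℂ) ^ 2 / 4 * (Q' + B2'))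
      rw [hE]
      linarith
    have g1 := norm_nonneg (B1 - P)
    have g2 := norm_nonneg (Q' + B2')
    have g3 := norm_nonneg (Q' - B2')
    have g4 : x ^ 3 / 4 * ‖Q' - B2'‖ ≤ x ^ 2 * ‖Q' - B2'‖ := by
      apply mul_le_mul_of_nonneg_right _ g3
      nlinarith [sq_nonneg x]
    have g5 : x ^ 2 / 4 * ‖B1 - P‖ ≤ x ^ 2 * ‖B1 - P‖ := by
      apply mul_le_mul_of_nonneg_right _ g1
      nlinarith [sq_nonneg x]
    have g6 : x ^ 2 / 4 * ‖Q' + B2'‖ ≤ x ^ 2 * ‖Q' + B2'‖ := by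
      apply mul_le_mul_of_nonneg_right _ g2
      nlinarith [sq_nonneg x]
    have h5 : ‖M‖ ≤ ‖M + E‖ + ‖E‖ := by
      have := norm_sub_le (M + E) E
      rwa [add_sub_cancel_right] at this
    calc ‖M‖ ≤ 2 * (C * x ^ 2) + (x ^ 2 * ‖B1 - P‖ + x ^ 2 * ‖Q' + B2'‖ + x ^ 2 * ‖Q' - B2'‖) := by linarith
      _ = _ := by ring)
  obtain ⟨h1, h2⟩ := hmain
  have k1 : Q' = 2 * B1 + B2' := by linear_combination (-4) * h2
  have k2 : P = Q' + B2' - B1 := by linear_combination 4 * h1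
  have k3 : Q = 2 * (starRingEnd ℂ) B1 + B2 := by
    have := congrArg (starRingEnd ℂ) k1
    rw [hQ', hB2', Complex.conj_conj, map_add, map_mul, Complex.conj_conj, map_ofNat] at this
    exact this
  refine ⟨k3, ?_⟩
  rw [k2, k1]
  ring

end KeyAlgAux

open KeyAlgAux

theorem key_alg {c1 c2 : ℤ → ℤ → ℂ} {C : ℝ} (h : KeyHyp c1 c2 C) :
    ∀ m n : ℤ,
      c1 m n - 2 * c1 (m - 1) (n - 1) =
        (if m = 2 ∧ n = 0 then c1 2 0 else 0) +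
        (if m = 1 ∧ n = 1 then 2 * (starRingEnd ℂ) (c1 2 0) + c2 0 2 else 0) ∧
      c2 m n - 2 * c2 (m - 1) (n - 1) =
        (if m = 0 ∧ n = 2 then c2 0 2 else 0) +
        (if m = 1 ∧ n = 1 then c1 2 0 + 2 * (starRingEnd ℂ) (c2 0 2) else 0) := by
  intro m n
  rcases lt_or_ge 3 (m + n) with h4 | h4
  · have h1 := diag_const h (m - 1) (n - 1) (by omega)
    rw [sub_add_cancel, sub_add_cancel] at h1
    rw [if_neg (by omega), if_neg (by omega), if_neg (by omega), if_neg (by omega), h1.1, h1.2]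
    constructor <;> ring
  · have z1 : c1 (m - 1) (n - 1) = 0 := h.h01 _ _ (by omega)
    have z2 : c2 (m - 1) (n - 1) = 0 := h.h02 _ _ (by omega)
    rw [z1, z2]
    rcases lt_or_ge (m + n) 3 with h3 | h3
    · rcases lt_or_ge (m + n) 2 with h2 | h2
      · rw [h.h01 m n (by omega), h.h02 m n (by omega), if_neg (by omega), if_neg (by omega), if_neg (by omega),
          if_neg (by omega)]
        constructor <;> ring
      · have hmn : m + n = 2 := by omega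
        by_cases hm : m < 0
        · rw [h.h01 m n (by omega), h.h02 m n (by omega), if_neg (by omega), if_neg (by omega), if_neg (by omega),
            if_neg (by omega)]
          constructor <;> ring
        · by_cases hn : n < 0
          · rw [h.h01 m n (by omega), h.h02 m n (by omega), if_neg (by omega), if_neg (by omega),
              if_neg (by omega), if_neg (by omega)]
            constructor <;> ring
          · have hc : (m = 0 ∧ n = 2) ∨ (m = 1 ∧ n = 1) ∨ (m = 2 ∧ n = 0) := by omega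
            obtain ⟨o1, o2⟩ := two_outer h
            obtain ⟨i1, i2⟩ := two_inner h
            rcases hc with ⟨rfl, rfl⟩ | ⟨rfl, rfl⟩ | ⟨rfl, rfl⟩
            · rw [o2, if_neg (by omega), if_neg (by omega), if_pos (by omega), if_neg (by omega)]
              constructor <;> ring
            · rw [if_neg (by omega), if_pos (by omega), if_neg (by omega), if_pos (by omega)]
              constructor
              · rw [i1]; ring
              · rw [i2]; ring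
            · rw [o1, if_pos (by omega), if_neg (by omega), if_neg (by omega), if_neg (by omega)]
              constructor <;> ring
    · have hmn : m + n = 3 := by omega
      have t1 := (three h (j := m - 1) (k := n) (by omega)).1
      have t2 := (three h (j := m) (k := n - 1) (by omega)).2
      rw [sub_add_cancel] at t1 t2
      rw [t1, t2, if_neg (by omega), if_neg (by omega), if_neg (by omega), if_neg (by omega)]
      constructor <;> ring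

end Pool.Agent.P1ae5
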