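import Pool.Agent.Lib.P1ae5.KeyPrep
import Pool.Agent.Lib.P1ae5.KeyAlg

/-!
P1ae5.Key: the key lemma (owner helper48).
-/

open Metric Filter Topology

namespace Pool.Agent.P1ae5

theorem continuous_E1 : Continuous E1 := by
  unfold E1; fun_prop

theorem norm_E1 (α : ℝ) : ‖E1 α‖ = 1 := by
  unfold E1; exact Complex.norm_exp_ofReal_mul_I α

theorem E1_ne (α : ℝ) : E1 α ≠ 0 := by
  unfold E1; exact Complex.exp_ne_zero _

theorem conj_E1 (α : ℝ) : (starRingEnd ℂ) (E1 α) = E1 α ^ (-1 : ℤ) := by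
  rw [zpow_neg_one]
  have h := Complex.mul_conj (E1 α)
  rw [Complex.normSq_eq_norm_sq, norm_E1] at h
  field_simp [E1_ne α]
  rw [mul_comm, h]; norm_num

theorem hol2_torus_cont {F : ℂ → ℂ → ℂ} (hF : Hol2 F) {r s : ℝ} (h : r ^ 2 + s ^ 2 < 1) :
    Continuous (fun p : ℝ × ℝ => F (r * E1 p.1) (s * E1 p.2)) := by
  have h1 : Continuous (fun p : ℝ × ℝ => ((r : ℂ) * E1 p.1, (s : ℂ) * E1 p.2)) := by
    have := continuous_E1
    fun_prop
  refine hF.cont.comp_continuous h1 ?_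
  intro p
  simp only [Set.mem_setOf_eq, norm_mul, norm_E1, mul_one, Complex.norm_real, Real.norm_eq_abs,
    sq_abs]
  exact h

section
variable {F1 F2 : ℂ → ℂ → ℂ} {c1 c2 : ℤ → ℤ → ℂ}

/-- the real part on the torus, as a complex valued function -/
noncomputable def NN (F1 F2 : ℂ → ℂ → ℂ) (r s : ℝ) (α β : ℝ) : ℂ :=
  (((F1 (r * E1 α) (s * E1 β) * (starRingEnd ℂ) (r * E1 α) +
    F2 (r * E1 α) (s * E1 β) * (starRingEnd ℂ) (s * E1 β)).re : ℝ) : ℂ)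

theorem NN_cont (hF1 : Hol2 F1) (hF2 : Hol2 F2) {r s : ℝ} (h : r ^ 2 + s ^ 2 < 1) :
    Continuous (fun p : ℝ × ℝ => NN F1 F2 r s p.1 p.2) := by
  unfold NN
  have h1 := hol2_torus_cont hF1 h
  have h2 := hol2_torus_cont hF2 h
  have h3 := continuous_E1
  refine Complex.continuous_ofReal.comp (Complex.continuous_re.comp ?_)
  refine (h1.mul ?_).add (h2.mul ?_)
  · exact Complex.continuous_conj.comp (continuous_const.mul (h3.comp continuous_fst))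
  · exact Complex.continuous_conj.comp (continuous_const.mul (h3.comp continuous_snd))

theorem tang_NN (hF1 : Hol2 F1) (hF2 : Hol2 F2)
    (hc1 : ∀ (m n : ℤ) (r s : ℝ), 0 < r → 0 < s → r ^ 2 + s ^ 2 < 1 →
      T F1 m n r s = c1 m n * ((r : ℂ) ^ m * (s : ℂ) ^ n))
    (hc2 : ∀ (m n : ℤ) (r s : ℝ), 0 < r → 0 < s → r ^ 2 + s ^ 2 < 1 →
      T F2 m n r s = c2 m n * ((r : ℂ) ^ m * (s : ℂ) ^ n))
    (j k : ℤ) {r s : ℝ} (hr : 0 < r) (hs : 0 < s) (h : r ^ 2 + s ^ 2 < 1) :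
    Tang (NN F1 F2 r s) j k = N2 c1 c2 j k r s := by
  have k1 := hol2_torus_cont hF1 h
  have k2 := hol2_torus_cont hF2 h
  have kE := continuous_E1
  have hrc : (r : ℂ) ≠ 0 := by exact_mod_cast hr.ne'
  have hsc : (s : ℂ) ≠ 0 := by exact_mod_cast hs.ne'
  -- the function without the real part
  set g : ℝ → ℝ → ℂ := fun α β =>
    (r : ℂ) * (E1 α ^ (-1 : ℤ) * E1 β ^ (0 : ℤ) * F1 (r * E1 α) (s * E1 β)) +
    (s : ℂ) * (E1 α ^ (0 : ℤ) * E1 β ^ (-1 : ℤ) * F2 (r * E1 α) (s * E1 β)) with hg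
  have c1' : Continuous (fun p : ℝ × ℝ =>
      (r : ℂ) * (E1 p.1 ^ (-1 : ℤ) * E1 p.2 ^ (0 : ℤ) * F1 (r * E1 p.1) (s * E1 p.2))) := by
    refine continuous_const.mul ((Continuous.mul ?_ ?_).mul k1)
    · exact (kE.comp continuous_fst).zpow₀ _ (fun p => Or.inl (E1_ne _))
    · exact (kE.comp continuous_snd).zpow₀ _ (fun p => Or.inl (E1_ne _))
  have c2' : Continuous (fun p : ℝ × ℝ =>
      (s : ℂ) * (E1 p.1 ^ (0 : ℤ) * E1 p.2 ^ (-1 : ℤ) * F2 (r * E1 p.1) (s * E1 p.2))) := by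
    refine continuous_const.mul ((Continuous.mul ?_ ?_).mul k2)
    · exact (kE.comp continuous_fst).zpow₀ _ (fun p => Or.inl (E1_ne _))
    · exact (kE.comp continuous_snd).zpow₀ _ (fun p => Or.inl (E1_ne _))
  have hgc : Continuous (fun p : ℝ × ℝ => g p.1 p.2) := c1'.add c2'
  have hTg : ∀ j k : ℤ, Tang g j k = up c1 c2 j k r s := by
    intro j k
    have e1 : Tang g j k = Tang (fun α β =>
        (r : ℂ) * (E1 α ^ (-1 : ℤ) * E1 β ^ (0 : ℤ) * F1 (r * E1 α) (s * E1 β))) j k +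
        Tang (fun α β =>
        (s : ℂ) * (E1 α ^ (0 : ℤ) * E1 β ^ (-1 : ℤ) * F2 (r * E1 α) (s * E1 β))) j k :=
      tang_add c1' c2' j k
    rw [e1, tang_const_mul, tang_const_mul,
      tang_shift (fun α β => F1 (r * E1 α) (s * E1 β)) (-1) 0 j k,
      tang_shift (fun α β => F2 (r * E1 α) (s * E1 β)) 0 (-1) j k]
    have e2 := hc1 (j - -1) (k - 0) r s hr hs h
    have e3 := hc2 (j - 0) (k - -1) r s hr hs h
    unfold T at e2 e3
    rw [e2, e3]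
    unfold up
    have a1 : (r : ℂ) ^ (j + 2) = r * (r : ℂ) ^ (j + 1) := by
      rw [show j + 2 = 1 + (j + 1) by ring, zpow_add₀ hrc, zpow_one]
    have a2 : (s : ℂ) ^ (k + 2) = s * (s : ℂ) ^ (k + 1) := by
      rw [show k + 2 = 1 + (k + 1) by ring, zpow_add₀ hsc, zpow_one]
    rw [a1, a2, sub_neg_eq_add, sub_neg_eq_add, sub_zero, sub_zero]
    ring
  have hNg : NN F1 F2 r s = fun α β => (1 / 2 : ℂ) * (g α β + (starRingEnd ℂ) (g α β)) := by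
    ext α β
    have e4 : F1 (r * E1 α) (s * E1 β) * (starRingEnd ℂ) (r * E1 α) +
        F2 (r * E1 α) (s * E1 β) * (starRingEnd ℂ) (s * E1 β) = g α β := by
      simp only [hg, map_mul, Complex.conj_ofReal, conj_E1, zpow_zero]
      ring
    unfold NN
    rw [e4, Complex.add_conj]
    push_cast
    ring
  have hcg : Continuous (fun p : ℝ × ℝ => (starRingEnd ℂ) (g p.1 p.2)) :=
    Complex.continuous_conj.comp hgc
  rw [hNg, tang_const_mul, tang_add hgc hcg, tang_conj hgc, hTg, hTg]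
  unfold N2
  ring

theorem tang_W (hF1 : Hol2 F1) (hF2 : Hol2 F2)
    (j k : ℤ) {r s : ℝ} (h : r ^ 2 + s ^ 2 < 1) :
    Tang (fun α β => NN F1 F2 r s α β *
      ((‖1 - 2 * ((r : ℂ) * E1 α) * (s * E1 β)‖ ^ 2 : ℝ) : ℂ)) j k =
    (1 + 4 * (r : ℂ) ^ 2 * (s : ℂ) ^ 2) * Tang (NN F1 F2 r s) j k -
      2 * r * s * (Tang (NN F1 F2 r s) (j - 1) (k - 1) + Tang (NN F1 F2 r s) (j + 1) (k + 1)) := by
  have hN := NN_cont hF1 hF2 h
  have kE := continuous_E1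
  set g := NN F1 F2 r s with hg
  have z1 : Continuous (fun p : ℝ × ℝ => E1 p.1 ^ (1 : ℤ) * E1 p.2 ^ (1 : ℤ) * g p.1 p.2) := by
    refine (Continuous.mul ?_ ?_).mul hN
    · exact (kE.comp continuous_fst).zpow₀ _ (fun p => Or.inl (E1_ne _))
    · exact (kE.comp continuous_snd).zpow₀ _ (fun p => Or.inl (E1_ne _))
  have z2 : Continuous (fun p : ℝ × ℝ => E1 p.1 ^ (-1 : ℤ) * E1 p.2 ^ (-1 : ℤ) * g p.1 p.2) := by
    refine (Continuous.mul ?_ ?_).mul hN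
    · exact (kE.comp continuous_fst).zpow₀ _ (fun p => Or.inl (E1_ne _))
    · exact (kE.comp continuous_snd).zpow₀ _ (fun p => Or.inl (E1_ne _))
  have hform : (fun α β => g α β * ((‖1 - 2 * ((r : ℂ) * E1 α) * (s * E1 β)‖ ^ 2 : ℝ) : ℂ)) =
      fun α β => (1 + 4 * (r : ℂ) ^ 2 * (s : ℂ) ^ 2) * g α β +
        ((-2 * r * s : ℂ) * (E1 α ^ (1 : ℤ) * E1 β ^ (1 : ℤ) * g α β) +
         (-2 * r * s : ℂ) * (E1 α ^ (-1 : ℤ) * E1 β ^ (-1 : ℤ) * g α β)) := by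
    ext α β
    have e1 : ((‖1 - 2 * ((r : ℂ) * E1 α) * (s * E1 β)‖ ^ 2 : ℝ) : ℂ) =
        (1 - 2 * ((r : ℂ) * E1 α) * (s * E1 β)) *
          (starRingEnd ℂ) (1 - 2 * ((r : ℂ) * E1 α) * (s * E1 β)) := by
      rw [Complex.mul_conj, Complex.normSq_eq_norm_sq]
    rw [e1]
    simp only [map_sub, map_mul, map_one, Complex.conj_ofReal, conj_E1, map_ofNat, zpow_one,
      zpow_neg_one]
    have a1 := E1_ne α
    have a2 := E1_ne β
    field_simp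
    ring
  rw [hform, tang_add (continuous_const.mul hN)
    ((continuous_const.mul z1).add (continuous_const.mul z2)),
    tang_add (continuous_const.mul z1) (continuous_const.mul z2),
    tang_const_mul, tang_const_mul, tang_const_mul, tang_shift, tang_shift]
  rw [sub_neg_eq_add, sub_neg_eq_add]
  ring

/-- the Cayley transform of `q = 2 z w` -/
noncomputable def pc (z w : ℂ) : ℂ := (1 + 2 * z * w) / (1 - 2 * z * w)

theorem norm_two_mul_lt {z w : ℂ} (h : ‖z‖ ^ 2 + ‖w‖ ^ 2 < 1) : ‖2 * z * w‖ < 1 := by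
  rw [norm_mul, norm_mul, Complex.norm_ofNat]
  nlinarith [sq_nonneg (‖z‖ - ‖w‖)]

theorem one_sub_ne {z w : ℂ} (h : ‖z‖ ^ 2 + ‖w‖ ^ 2 < 1) : (1 : ℂ) - 2 * z * w ≠ 0 := by
  intro h0
  have h1 := norm_two_mul_lt h
  have h2 : 2 * z * w = 1 := by linear_combination -h0
  rw [h2] at h1
  simp at h1

theorem hol2_pc : Hol2 pc := by
  unfold pc
  refine ⟨?_, ?_, ?_⟩
  · refine ContinuousOn.div (by fun_prop) (by fun_prop) ?_
    intro p hp
    exact one_sub_ne hp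
  · intro z w h
    have := one_sub_ne h
    refine DifferentiableAt.div (by fun_prop) (by fun_prop) this
  · intro z w h
    have := one_sub_ne h
    refine DifferentiableAt.div (by fun_prop) (by fun_prop) this

theorem T_pc {r s : ℝ} (hr : 0 < r) (hs : 0 < s) (h : r ^ 2 + s ^ 2 < 1) : T pc 0 0 r s = 1 := by
  obtain ⟨c, hc, -, h0⟩ := torus_coeff hol2_pc
  rw [hc 0 0 r s hr hs h, h0]
  simp [pc]

theorem re_pc {z w : ℂ} (h : ‖z‖ ^ 2 + ‖w‖ ^ 2 < 1) :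
    (pc z w).re = (1 - ‖2 * z * w‖ ^ 2) / ‖1 - 2 * z * w‖ ^ 2 := by
  have h1 := one_sub_ne h
  unfold pc
  set q := 2 * z * w
  rw [Complex.div_re, Complex.normSq_eq_norm_sq]
  have h2 : ‖1 - q‖ ^ 2 ≠ 0 := by
    have : ‖1 - q‖ ≠ 0 := norm_ne_zero_iff.2 h1
    positivity
  field_simp
  have h3 : ‖q‖ ^ 2 = q.re * q.re + q.im * q.im := by
    rw [← Complex.normSq_eq_norm_sq, Complex.normSq_apply]
  rw [h3]
  simp
  ring

theorem bound1 (hF1 : Hol2 F1) (hF2 : Hol2 F2) {C : ℝ} (hC0 : 0 ≤ C)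
    (hC : ∀ z w : ℂ, ‖z‖ ^ 2 + ‖w‖ ^ 2 < 1 →
      |(F1 z w * (starRingEnd ℂ) z + F2 z w * (starRingEnd ℂ) w).re| * ‖1 - 2 * z * w‖ ^ 2 ≤
        C * ((‖z‖ ^ 2 + ‖w‖ ^ 2) * (1 - ‖2 * z * w‖ ^ 2)))
    (j k : ℤ) {r s : ℝ} (hr : 0 < r) (hs : 0 < s) (h : r ^ 2 + s ^ 2 < 1) :
    ‖Tang (NN F1 F2 r s) j k‖ ≤ C := by
  have hball : ∀ α β : ℝ, ‖(r : ℂ) * E1 α‖ ^ 2 + ‖(s : ℂ) * E1 β‖ ^ 2 < 1 := by
    intro α β
    simp only [norm_mul, norm_E1, mul_one, Complex.norm_real, Real.norm_eq_abs, sq_abs]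
    exact h
  have hN := NN_cont hF1 hF2 h
  have hpc := hol2_torus_cont hol2_pc h
  set u : ℝ → ℝ → ℝ := fun α β => C * (pc (r * E1 α) (s * E1 β)).re with hu
  have huc : Continuous (fun p : ℝ × ℝ => u p.1 p.2) :=
    continuous_const.mul (Complex.continuous_re.comp hpc)
  have hle : ∀ α β, ‖NN F1 F2 r s α β‖ ≤ u α β := by
    intro α β
    have h1 := hC _ _ (hball α β)
    have h2 := re_pc (hball α β)
    have h3 := norm_two_mul_lt (hball α β)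
    have h4 : 0 < ‖1 - 2 * ((r : ℂ) * E1 α) * ((s : ℂ) * E1 β)‖ ^ 2 := by
      have := norm_pos_iff.2 (one_sub_ne (hball α β))
      positivity
    have h5 := hball α β
    have h6 : 0 ≤ 1 - ‖2 * ((r : ℂ) * E1 α) * ((s : ℂ) * E1 β)‖ ^ 2 := by
      nlinarith [norm_nonneg (2 * ((r : ℂ) * E1 α) * ((s : ℂ) * E1 β))]
    simp only [hu, NN]
    rw [h2, Complex.norm_real, Real.norm_eq_abs, mul_div_assoc', le_div_iff₀ h4]
    refine h1.trans ?_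
    refine mul_le_mul_of_nonneg_left ?_ hC0
    calc (‖(r : ℂ) * E1 α‖ ^ 2 + ‖(s : ℂ) * E1 β‖ ^ 2) *
          (1 - ‖2 * ((r : ℂ) * E1 α) * ((s : ℂ) * E1 β)‖ ^ 2)
        ≤ 1 * (1 - ‖2 * ((r : ℂ) * E1 α) * ((s : ℂ) * E1 β)‖ ^ 2) := by gcongr
      _ = _ := one_mul _
  refine (tang_norm_le hN huc hle j k).trans ?_
  have e1 : (fun α β => ((u α β : ℝ) : ℂ)) = fun α β =>
      (C / 2 : ℂ) * (pc (r * E1 α) (s * E1 β) + (starRingEnd ℂ) (pc (r * E1 α) (s * E1 β))) := by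
    ext α β
    simp only [hu]
    rw [Complex.add_conj]
    push_cast
    ring
  rw [e1, tang_const_mul, tang_add hpc (Complex.continuous_conj.comp hpc), tang_conj hpc]
  have e2 := T_pc hr hs h
  unfold T at e2
  rw [neg_zero, e2, map_one]
  apply le_of_eq
  have e3 : (C / 2 : ℂ) * (1 + 1) = (C : ℂ) := by ring
  rw [e3, Complex.ofReal_re]

theorem bound2 (hF1 : Hol2 F1) (hF2 : Hol2 F2) {C : ℝ} (hC0 : 0 ≤ C)
    (hC : ∀ z w : ℂ, ‖z‖ ^ 2 + ‖w‖ ^ 2 < 1 →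
      |(F1 z w * (starRingEnd ℂ) z + F2 z w * (starRingEnd ℂ) w).re| * ‖1 - 2 * z * w‖ ^ 2 ≤
        C * ((‖z‖ ^ 2 + ‖w‖ ^ 2) * (1 - ‖2 * z * w‖ ^ 2)))
    (j k : ℤ) {r s : ℝ} (hr : 0 < r) (hs : 0 < s) (h : r ^ 2 + s ^ 2 < 1) :
    ‖(1 + 4 * (r : ℂ) ^ 2 * (s : ℂ) ^ 2) * Tang (NN F1 F2 r s) j k -
      2 * r * s * (Tang (NN F1 F2 r s) (j - 1) (k - 1) + Tang (NN F1 F2 r s) (j + 1) (k + 1))‖ ≤
      C * (1 - 4 * r ^ 2 * s ^ 2) := by
  rw [← tang_W hF1 hF2 j k h]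
  have hN := NN_cont hF1 hF2 h
  have kE := continuous_E1
  have hball : ∀ α β : ℝ, ‖(r : ℂ) * E1 α‖ ^ 2 + ‖(s : ℂ) * E1 β‖ ^ 2 < 1 := by
    intro α β
    simp only [norm_mul, norm_E1, mul_one, Complex.norm_real, Real.norm_eq_abs, sq_abs]
    exact h
  refine tang_norm_le_const ?_ ?_ j k
  · refine hN.mul (Complex.continuous_ofReal.comp (Continuous.pow (Continuous.norm ?_) 2))
    fun_prop
  · intro α β
    have h1 := hC _ _ (hball α β)
    have h3 : ‖2 * ((r : ℂ) * E1 α) * ((s : ℂ) * E1 β)‖ ^ 2 = 4 * r ^ 2 * s ^ 2 := by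
      simp only [norm_mul, norm_E1, mul_one, Complex.norm_real, Real.norm_eq_abs,
        Complex.norm_ofNat, mul_pow, sq_abs]
      norm_num
    have h4 : ‖(r : ℂ) * E1 α‖ ^ 2 + ‖(s : ℂ) * E1 β‖ ^ 2 = r ^ 2 + s ^ 2 := by
      simp only [norm_mul, norm_E1, mul_one, Complex.norm_real, Real.norm_eq_abs, sq_abs]
    have h5 : 0 ≤ 1 - 4 * r ^ 2 * s ^ 2 := by
      nlinarith [sq_nonneg (r ^ 2 - s ^ 2), sq_nonneg r, sq_nonneg s]
    rw [h3, h4] at h1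
    rw [norm_mul, Complex.norm_real, norm_pow, norm_norm]
    unfold NN
    rw [Complex.norm_real, Real.norm_eq_abs]
    refine h1.trans ?_
    refine mul_le_mul_of_nonneg_left ?_ hC0
    calc (r ^ 2 + s ^ 2) * (1 - 4 * r ^ 2 * s ^ 2) ≤ 1 * (1 - 4 * r ^ 2 * s ^ 2) := by gcongr
      _ = _ := one_mul _

end

theorem N2_continuous (c1 c2 : ℤ → ℤ → ℂ) (j k : ℤ) {r s : ℝ} (hr : 0 < r) (hs : 0 < s) :
    ContinuousAt (fun ρ : ℝ => N2 c1 c2 j k (ρ * r) (ρ * s)) 1 := by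
  have hrc : (r : ℂ) ≠ 0 := by exact_mod_cast hr.ne'
  have hsc : (s : ℂ) ≠ 0 := by exact_mod_cast hs.ne'
  have h1 : ∀ (m : ℤ) (x : ℝ), x ≠ 0 → ContinuousAt (fun ρ : ℝ => (((ρ * x : ℝ)) : ℂ) ^ m) 1 := by
    intro m x hx
    refine ContinuousAt.zpow₀ ?_ m (Or.inl ?_)
    · exact (Complex.continuous_ofReal.comp (continuous_id.mul continuous_const)).continuousAt
    · simpa using hx
  have hup : ∀ j k : ℤ, ContinuousAt (fun ρ : ℝ => up c1 c2 j k (ρ * r) (ρ * s)) 1 := by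
    intro j k
    unfold up
    exact (((h1 _ r hr.ne').mul (h1 _ s hs.ne')).mul continuousAt_const).add
      (((h1 _ r hr.ne').mul (h1 _ s hs.ne')).mul continuousAt_const)
  unfold N2
  exact ((hup j k).add (Complex.continuous_conj.continuousAt.comp (hup (-j) (-k)))).div_const 2

theorem keyhyp {F1 F2 : ℂ → ℂ → ℂ} (hF1 : Hol2 F1) (hF2 : Hol2 F2) {c1 c2 : ℤ → ℤ → ℂ}
    (hc1 : ∀ (m n : ℤ) (r s : ℝ), 0 < r → 0 < s → r ^ 2 + s ^ 2 < 1 →
      T F1 m n r s = c1 m n * ((r : ℂ) ^ m * (s : ℂ) ^ n))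
    (hc2 : ∀ (m n : ℤ) (r s : ℝ), 0 < r → 0 < s → r ^ 2 + s ^ 2 < 1 →
      T F2 m n r s = c2 m n * ((r : ℂ) ^ m * (s : ℂ) ^ n))
    (h01 : ∀ m n : ℤ, (m < 0 ∨ n < 0 ∨ m + n ≤ 1) → c1 m n = 0)
    (h02 : ∀ m n : ℤ, (m < 0 ∨ n < 0 ∨ m + n ≤ 1) → c2 m n = 0)
    {C : ℝ} (hC0 : 0 ≤ C)
    (hC : ∀ z w : ℂ, ‖z‖ ^ 2 + ‖w‖ ^ 2 < 1 →
      |(F1 z w * (starRingEnd ℂ) z + F2 z w * (starRingEnd ℂ) w).re| * ‖1 - 2 * z * w‖ ^ 2 ≤
        C * ((‖z‖ ^ 2 + ‖w‖ ^ 2) * (1 - ‖2 * z * w‖ ^ 2))) : KeyHyp c1 c2 C := by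
  -- approach the unit sphere from inside
  have hev : ∀ {r s : ℝ}, 0 < r → 0 < s → r ^ 2 + s ^ 2 = 1 →
      ∀ᶠ ρ : ℝ in 𝓝[<] 1, 0 < ρ * r ∧ 0 < ρ * s ∧ (ρ * r) ^ 2 + (ρ * s) ^ 2 < 1 := by
    intro r s hr hs h
    have h1 : ∀ᶠ ρ : ℝ in 𝓝[<] 1, 0 < ρ :=
      (lt_mem_nhds (show (0 : ℝ) < 1 by norm_num)).filter_mono nhdsWithin_le_nhds
    filter_upwards [h1, self_mem_nhdsWithin] with ρ hρ hρ1
    have hρ1' : ρ < 1 := hρ1
    refine ⟨by positivity, by positivity, ?_⟩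
    have : (ρ * r) ^ 2 + (ρ * s) ^ 2 = ρ ^ 2 * (r ^ 2 + s ^ 2) := by ring
    rw [this, h]; nlinarith
  refine ⟨h01, h02, ?_, ?_⟩
  · intro j k r s hr hs h
    have hlim : Tendsto (fun ρ : ℝ => ‖N2 c1 c2 j k (ρ * r) (ρ * s)‖) (𝓝[<] 1)
        (𝓝 ‖N2 c1 c2 j k r s‖) := by
      have := (N2_continuous c1 c2 j k hr hs).norm.tendsto
      simp only [one_mul] at this
      exact this.mono_left nhdsWithin_le_nhds
    refine le_of_tendsto hlim ?_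
    filter_upwards [hev hr hs h] with ρ hρ
    rw [← tang_NN hF1 hF2 hc1 hc2 j k hρ.1 hρ.2.1 hρ.2.2]
    exact bound1 hF1 hF2 hC0 hC j k hρ.1 hρ.2.1 hρ.2.2
  · intro j k r s hr hs h
    have hlimL : Tendsto (fun ρ : ℝ => ‖(1 + 4 * (((ρ * r : ℝ)) : ℂ) ^ 2 * (((ρ * s : ℝ)) : ℂ) ^ 2) *
        N2 c1 c2 j k (ρ * r) (ρ * s) -
        2 * ((ρ * r : ℝ) : ℂ) * ((ρ * s : ℝ) : ℂ) * (N2 c1 c2 (j - 1) (k - 1) (ρ * r) (ρ * s) +
          N2 c1 c2 (j + 1) (k + 1) (ρ * r) (ρ * s))‖) (𝓝[<] 1)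
        (𝓝 ‖(1 + 4 * (r : ℂ) ^ 2 * (s : ℂ) ^ 2) * N2 c1 c2 j k r s -
        2 * r * s * (N2 c1 c2 (j - 1) (k - 1) r s + N2 c1 c2 (j + 1) (k + 1) r s)‖) := by
      have a1 := N2_continuous c1 c2 j k hr hs
      have a2 := N2_continuous c1 c2 (j - 1) (k - 1) hr hs
      have a3 := N2_continuous c1 c2 (j + 1) (k + 1) hr hs
      have hr' : ContinuousAt (fun ρ : ℝ => (((ρ * r : ℝ)) : ℂ)) 1 :=
        (Complex.continuous_ofReal.comp (continuous_id.mul continuous_const)).continuousAt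
      have hs' : ContinuousAt (fun ρ : ℝ => (((ρ * s : ℝ)) : ℂ)) 1 :=
        (Complex.continuous_ofReal.comp (continuous_id.mul continuous_const)).continuousAt
      have h8 : ContinuousAt (fun ρ : ℝ => (1 + 4 * (((ρ * r : ℝ)) : ℂ) ^ 2 *
          (((ρ * s : ℝ)) : ℂ) ^ 2) * N2 c1 c2 j k (ρ * r) (ρ * s) -
          2 * ((ρ * r : ℝ) : ℂ) * ((ρ * s : ℝ) : ℂ) *
          (N2 c1 c2 (j - 1) (k - 1) (ρ * r) (ρ * s) +
          N2 c1 c2 (j + 1) (k + 1) (ρ * r) (ρ * s))) 1 :=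
        (((continuousAt_const (y := (1 : ℂ))).add
        (((continuousAt_const (y := (4 : ℂ))).mul (hr'.pow 2)).mul (hs'.pow 2))).mul a1).sub
        ((((continuousAt_const (y := (2 : ℂ))).mul hr').mul hs').mul (a2.add a3))
      have h9 := h8.norm.tendsto
      simp only [one_mul] at h9
      exact h9.mono_left nhdsWithin_le_nhds
    have hlimR : Tendsto (fun ρ : ℝ => C * (1 - 4 * (ρ * r) ^ 2 * (ρ * s) ^ 2)) (𝓝[<] 1)
        (𝓝 (C * (1 - 4 * r ^ 2 * s ^ 2))) := by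
      have h6 : ContinuousAt (fun ρ : ℝ => C * (1 - 4 * (ρ * r) ^ 2 * (ρ * s) ^ 2)) 1 := by
        fun_prop
      have h7 : Tendsto (fun ρ : ℝ => C * (1 - 4 * (ρ * r) ^ 2 * (ρ * s) ^ 2)) (𝓝 1)
          (𝓝 (C * (1 - 4 * (1 * r) ^ 2 * (1 * s) ^ 2))) := h6.tendsto
      rw [one_mul, one_mul] at h7
      exact h7.mono_left nhdsWithin_le_nhds
    refine le_of_tendsto_of_tendsto hlimL hlimR ?_
    filter_upwards [hev hr hs h] with ρ hρ
    rw [← tang_NN hF1 hF2 hc1 hc2 j k hρ.1 hρ.2.1 hρ.2.2,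
      ← tang_NN hF1 hF2 hc1 hc2 (j - 1) (k - 1) hρ.1 hρ.2.1 hρ.2.2,
      ← tang_NN hF1 hF2 hc1 hc2 (j + 1) (k + 1) hρ.1 hρ.2.1 hρ.2.2]
    exact bound2 hF1 hF2 hC0 hC j k hρ.1 hρ.2.1 hρ.2.2

/-- a holomorphic function with the coefficients of `(a z^2 + b z w + c w^2)/(1 - 2 z w)` -/
theorem quad_of_coeff {F : ℂ → ℂ → ℂ} (hF : Hol2 F) {c : ℤ → ℤ → ℂ}
    (hc : ∀ (m n : ℤ) (r s : ℝ), 0 < r → 0 < s → r ^ 2 + s ^ 2 < 1 →
      T F m n r s = c m n * ((r : ℂ) ^ m * (s : ℂ) ^ n))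
    {A B D : ℂ}
    (h : ∀ m n : ℤ, c m n - 2 * c (m - 1) (n - 1) = (if m = 2 ∧ n = 0 then A else 0) +
      (if m = 1 ∧ n = 1 then B else 0) + (if m = 0 ∧ n = 2 then D else 0))
    {z w : ℂ} (hzw : ‖z‖ ^ 2 + ‖w‖ ^ 2 < 1) :
    (1 - 2 * z * w) * F z w = A * z ^ 2 + B * (z * w) + D * w ^ 2 := by
  set H : ℂ → ℂ → ℂ := fun z w =>
    (1 - 2 * z * w) * F z w - (A * z ^ 2 + B * (z * w) + D * w ^ 2) with hH
  have hHol : Hol2 H := by
    refine ⟨?_, ?_, ?_⟩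
    · refine ContinuousOn.sub (ContinuousOn.mul ?_ hF.cont) ?_
      · fun_prop
      · fun_prop
    · intro z w h
      have := hF.d1 z w h
      exact DifferentiableAt.sub (DifferentiableAt.mul (by fun_prop) this) (by fun_prop)
    · intro z w h
      have := hF.d2 z w h
      exact DifferentiableAt.sub (DifferentiableAt.mul (by fun_prop) this) (by fun_prop)
  have hT : ∀ (m n : ℤ) (r s : ℝ), 0 < r → 0 < s → r ^ 2 + s ^ 2 < 1 → T H m n r s = 0 := by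
    intro m n r s hr hs hrs
    have kF := hol2_torus_cont hF hrs
    have kE := continuous_E1
    have hrc : (r : ℂ) ≠ 0 := by exact_mod_cast hr.ne'
    have hsc : (s : ℂ) ≠ 0 := by exact_mod_cast hs.ne'
    set g : ℝ → ℝ → ℂ := fun α β => F (r * E1 α) (s * E1 β) with hg
    have zc : ∀ (a b : ℤ) (u : ℝ → ℝ → ℂ), Continuous (fun p : ℝ × ℝ => u p.1 p.2) →
        Continuous (fun p : ℝ × ℝ => E1 p.1 ^ a * E1 p.2 ^ b * u p.1 p.2) := by
      intro a b u hu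
      refine (Continuous.mul ?_ ?_).mul hu
      · exact (kE.comp continuous_fst).zpow₀ _ (fun p => Or.inl (E1_ne _))
      · exact (kE.comp continuous_snd).zpow₀ _ (fun p => Or.inl (E1_ne _))
    have hone : Continuous (fun p : ℝ × ℝ => (fun _ _ => (1 : ℂ)) p.1 p.2) := continuous_const
    have hform : (fun α β => H (r * E1 α) (s * E1 β)) = fun α β =>
        g α β + ((-2 * r * s : ℂ) * (E1 α ^ (1 : ℤ) * E1 β ^ (1 : ℤ) * g α β) +
        ((-A * r ^ 2 : ℂ) * (E1 α ^ (2 : ℤ) * E1 β ^ (0 : ℤ) * (fun _ _ => (1 : ℂ)) α β) +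
        ((-B * (r * s) : ℂ) * (E1 α ^ (1 : ℤ) * E1 β ^ (1 : ℤ) * (fun _ _ => (1 : ℂ)) α β) +
        (-D * s ^ 2 : ℂ) * (E1 α ^ (0 : ℤ) * E1 β ^ (2 : ℤ) * (fun _ _ => (1 : ℂ)) α β)))) := by
      ext α β
      simp only [hH, hg, zpow_one, zpow_zero]
      rw [show E1 α ^ (2 : ℤ) = E1 α ^ 2 from by norm_cast,
        show E1 β ^ (2 : ℤ) = E1 β ^ 2 from by norm_cast]
      ring
    unfold T
    rw [hform]
    have q1 := zc 1 1 g kF
    have q2 := zc 2 0 (fun _ _ => 1) hone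
    have q3 := zc 1 1 (fun _ _ => 1) hone
    have q4 := zc 0 2 (fun _ _ => 1) hone
    rw [tang_add kF ((continuous_const.mul q1).add ((continuous_const.mul q2).add
        ((continuous_const.mul q3).add (continuous_const.mul q4)))),
      tang_add (continuous_const.mul q1) ((continuous_const.mul q2).add
        ((continuous_const.mul q3).add (continuous_const.mul q4))),
      tang_add (continuous_const.mul q2)
        ((continuous_const.mul q3).add (continuous_const.mul q4)),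
      tang_add (continuous_const.mul q3) (continuous_const.mul q4),
      tang_const_mul, tang_const_mul, tang_const_mul, tang_const_mul,
      tang_shift, tang_shift, tang_shift, tang_shift, tang_one, tang_one, tang_one]
    have e1 := hc m n r s hr hs hrs
    have e2 := hc (m - 1) (n - 1) r s hr hs hrs
    unfold T at e1 e2
    rw [hg, e1, e2]
    have e3 : (r : ℂ) ^ m = r * (r : ℂ) ^ (m - 1) := by
      rw [zpow_sub_one₀ hrc]; field_simp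
    have e4 : (s : ℂ) ^ n = s * (s : ℂ) ^ (n - 1) := by
      rw [zpow_sub_one₀ hsc]; field_simp
    have e5 : c m n * ((r : ℂ) ^ m * (s : ℂ) ^ n) + (-2 * r * s : ℂ) *
        (c (m - 1) (n - 1) * ((r : ℂ) ^ (m - 1) * (s : ℂ) ^ (n - 1))) =
        (c m n - 2 * c (m - 1) (n - 1)) * ((r : ℂ) ^ m * (s : ℂ) ^ n) := by
      rw [e3, e4]; ring
    rw [← add_assoc, e5, h m n]
    simp only [sub_eq_zero, sub_zero]
    by_cases h20 : m = 2 ∧ n = 0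
    · obtain ⟨rfl, rfl⟩ := h20
      norm_num
    · by_cases h11 : m = 1 ∧ n = 1
      · obtain ⟨rfl, rfl⟩ := h11
        norm_num
      · by_cases h02 : m = 0 ∧ n = 2
        · obtain ⟨rfl, rfl⟩ := h02
          norm_num
        · simp [h20, h11, h02]
  have := torus_unique hHol hT z w hzw
  simp only [hH] at this
  linear_combination this

theorem key_lemma {e f : Cn 2} (he : ‖e‖ = 1) (hf : ‖f‖ = 1) (hef : ip e f = 0)
    {G : Cn 2 → Cn 2} (hG : DifferentiableOn ℂ G (ball 0 1)) (h0 : G 0 = 0)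
    (h1 : fderiv ℂ G 0 = 0) {C : ℝ}
    (hC : ∀ z ∈ ball (0 : Cn 2) 1, |(ip (G z) z).re| * ‖1 - qf e f z‖ ^ 2 ≤
      C * (‖z‖ ^ 2 * (1 - ‖qf e f z‖ ^ 2))) :
    ∃ b : Cn 2, ∀ z ∈ ball (0 : Cn 2) 1,
      G z = (ip z b / (1 - qf e f z)) • z + (qf e f z / (1 - qf e f z)) • b := by
  set F1 : ℂ → ℂ → ℂ := fun z w => ip (G (PP e f z w)) e with hF1d
  set F2 : ℂ → ℂ → ℂ := fun z w => ip (G (PP e f z w)) f with hF2d
  have hF1 : Hol2 F1 := hol2_coord he hf hef hG e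
  have hF2 : Hol2 F2 := hol2_coord he hf hef hG f
  obtain ⟨c1, hc1, hc1n, -⟩ := torus_coeff hF1
  obtain ⟨c2, hc2, hc2n, -⟩ := torus_coeff hF2
  obtain ⟨K, hK0, hK⟩ := second_order hG h0 h1
  have hsmall : ∀ v : Cn 2, ‖v‖ = 1 → ∀ z w : ℂ, ‖z‖ ^ 2 + ‖w‖ ^ 2 < 1 / 4 →
      ‖ip (G (PP e f z w)) v‖ ≤ K * (‖z‖ ^ 2 + ‖w‖ ^ 2) := by
    intro v hv z w hzw
    have e1 := norm_PP he hf hef z w
    have e2 : ‖PP e f z w‖ < 1 / 2 := by
      nlinarith [norm_nonneg (PP e f z w)]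
    calc ‖ip (G (PP e f z w)) v‖ ≤ ‖v‖ * ‖G (PP e f z w)‖ := norm_inner_le_norm _ _
      _ = ‖G (PP e f z w)‖ := by rw [hv, one_mul]
      _ ≤ K * ‖PP e f z w‖ ^ 2 := hK _ e2
      _ = _ := by rw [e1]
  have h01 : ∀ m n : ℤ, (m < 0 ∨ n < 0 ∨ m + n ≤ 1) → c1 m n = 0 := by
    intro m n h
    rcases h with h | h | h
    · exact hc1n m n (Or.inl h)
    · exact hc1n m n (Or.inr h)
    · exact coeff_small hF1 hc1 (by norm_num : (0 : ℝ) < 1 / 4) (hsmall e he) m n h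
  have h02 : ∀ m n : ℤ, (m < 0 ∨ n < 0 ∨ m + n ≤ 1) → c2 m n = 0 := by
    intro m n h
    rcases h with h | h | h
    · exact hc2n m n (Or.inl h)
    · exact hc2n m n (Or.inr h)
    · exact coeff_small hF2 hc2 (by norm_num : (0 : ℝ) < 1 / 4) (hsmall f hf) m n h
  have hC' : ∀ z w : ℂ, ‖z‖ ^ 2 + ‖w‖ ^ 2 < 1 →
      |(F1 z w * (starRingEnd ℂ) z + F2 z w * (starRingEnd ℂ) w).re| * ‖1 - 2 * z * w‖ ^ 2 ≤
        |C| * ((‖z‖ ^ 2 + ‖w‖ ^ 2) * (1 - ‖2 * z * w‖ ^ 2)) := by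
    intro z w hzw
    have e1 := hC _ (PP_mem_ball he hf hef hzw)
    rw [ip_PP_right he hf hef, qf_PP he hf hef, norm_PP he hf hef] at e1
    refine e1.trans ?_
    refine mul_le_mul_of_nonneg_right (le_abs_self C) ?_
    have := norm_two_mul_lt hzw
    have h5 : 0 ≤ 1 - ‖2 * z * w‖ ^ 2 := by nlinarith [norm_nonneg (2 * z * w)]
    positivity
  have hkey := key_alg (keyhyp hF1 hF2 hc1 hc2 h01 h02 (abs_nonneg C) hC')
  set B1 := c1 2 0 with hB1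
  set B2 := c2 0 2 with hB2
  refine ⟨(starRingEnd ℂ) B1 • e + (starRingEnd ℂ) B2 • f, ?_⟩
  have q1 : ∀ z w : ℂ, ‖z‖ ^ 2 + ‖w‖ ^ 2 < 1 →
      (1 - 2 * z * w) * F1 z w = B1 * z ^ 2 + (2 * (starRingEnd ℂ) B1 + B2) * (z * w) + 0 * w ^ 2 := by
    intro z w hzw
    refine quad_of_coeff hF1 hc1 ?_ hzw
    intro m n
    rw [(hkey m n).1]
    simp
  have q2 : ∀ z w : ℂ, ‖z‖ ^ 2 + ‖w‖ ^ 2 < 1 →
      (1 - 2 * z * w) * F2 z w = 0 * z ^ 2 + (B1 + 2 * (starRingEnd ℂ) B2) * (z * w) + B2 * w ^ 2 := by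
    intro z w hzw
    refine quad_of_coeff hF2 hc2 ?_ hzw
    intro m n
    rw [(hkey m n).2]
    simp only [ite_self, zero_add]
    ring
  intro y hy
  set z := ip y e with hz
  set w := ip y f with hw
  have hyP : y = PP e f z w := expand he hf hef y
  have hzw : ‖z‖ ^ 2 + ‖w‖ ^ 2 < 1 := by
    rw [← norm_PP he hf hef, ← hyP]
    rw [mem_ball_zero_iff] at hy
    nlinarith [norm_nonneg y]
  have hne := one_sub_ne hzw
  have hq : qf e f y = 2 * z * w := by rw [hyP, qf_PP he hf hef]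
  have hGy : G y = PP e f (F1 z w) (F2 z w) := by
    have := expand he hf hef (G y)
    rw [this, hF1d, hF2d]
    simp only
    rw [← hyP]
  have hib : ip y ((starRingEnd ℂ) B1 • e + (starRingEnd ℂ) B2 • f) = B1 * z + B2 * w := by
    have := ip_PP_right he hf hef y ((starRingEnd ℂ) B1) ((starRingEnd ℂ) B2)
    unfold PP at this
    rw [this, Complex.conj_conj, Complex.conj_conj, ← hz, ← hw]
    ring
  have f1 : F1 z w = (B1 * z ^ 2 + (2 * (starRingEnd ℂ) B1 + B2) * (z * w)) / (1 - 2 * z * w) := by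
    rw [eq_div_iff hne, mul_comm, q1 z w hzw]; ring
  have f2 : F2 z w = ((B1 + 2 * (starRingEnd ℂ) B2) * (z * w) + B2 * w ^ 2) / (1 - 2 * z * w) := by
    rw [eq_div_iff hne, mul_comm, q2 z w hzw]; ring
  rw [hib, hq, hGy]
  conv_rhs => rw [hyP]
  unfold PP
  rw [smul_add, smul_smul, smul_smul, smul_add, smul_smul, smul_smul]
  have e1 : F1 z w = (B1 * z + B2 * w) / (1 - 2 * z * w) * z +
      2 * z * w / (1 - 2 * z * w) * (starRingEnd ℂ) B1 := by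
    rw [f1]; field_simp; ring
  have e2 : F2 z w = (B1 * z + B2 * w) / (1 - 2 * z * w) * w +
      2 * z * w / (1 - 2 * z * w) * (starRingEnd ℂ) B2 := by
    rw [f2]; field_simp; ring
  rw [e1, e2, add_smul, add_smul]
  abel

end Pool.Agent.P1ae5
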