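import Pool.Agent.Lib.P1ae5.AllDefs
import Pool.Agent.Lib.P1ae5.Key

/-!
P1ae5.AllPlane (MP_1ae5d5_an).

Proof. Let `Φ : Cn 2 → Cn n`, `Φ ζ = ζ 0 • ofR X + ζ 1 • ofR Y`, a linear isometry because
`X, Y` are orthonormal; `qq (Φ ζ) = ζ 0 ^ 2 + ζ 1 ^ 2`.
Put `G' ζ = toLp 2 ![ip (G (Φ ζ)) (ofR X), ip (G (Φ ζ)) (ofR Y)]`. Then `G'` is holomorphic on the
ball of `Cn 2`, `G' 0 = 0`, `fderiv G' 0 = 0`, and `ip (G' ζ) ζ = ip (G (Φ ζ)) (Φ ζ)`.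
Let `e = (1, I)/√2`, `f = (1, -I)/√2` in `Cn 2`: orthonormal, `ip ζ e = (ζ 0 - I ζ 1)/√2`,
`ip ζ f = (ζ 0 + I ζ 1)/√2`, so `qf e f ζ = ζ 0 ^ 2 + ζ 1 ^ 2`. Apply `key_lemma`:
`G' ζ = (ip ζ b/(1-q)) • ζ + (q/(1-q)) • b`, with `ip ζ b = ζ 0 conj (b 0) + ζ 1 conj (b 1)`.
Take the two coordinates and multiply by `1 - q ≠ 0`; `b1 = b 0`, `b2 = b 1`.
-/

open Metric

namespace Pool.Agent.P1ae5

namespace AllPlaneAux

variable {n : ℕ}

theorem ip_add_left (u v w : Cn n) : ip (u + v) w = ip u w + ip v w := by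
  unfold ip; exact inner_add_right _ _ _

theorem ip_smul_left (c : ℂ) (u w : Cn n) : ip (c • u) w = c * ip u w := by
  unfold ip; exact inner_smul_right _ _ _

theorem ip_add_right (u v w : Cn n) : ip u (v + w) = ip u v + ip u w := by
  unfold ip; exact inner_add_left _ _ _

theorem ip_smul_right (c : ℂ) (u w : Cn n) : ip u (c • w) = (starRingEnd ℂ) c * ip u w := by
  unfold ip; exact inner_smul_left _ _ _

theorem ip_ofR (x y : RV n) : ip (ofR x) (ofR y) = ((rdot x y : ℝ) : ℂ) := by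
  simp [ip, ofR, rdot, PiLp.inner_apply]

theorem ip_two (u v : Cn 2) :
    ip u v = u 0 * (starRingEnd ℂ) (v 0) + u 1 * (starRingEnd ℂ) (v 1) := by
  simp [ip, PiLp.inner_apply, Fin.sum_univ_two]

theorem qq_ofR (x : RV n) : qq (ofR x) = ((rdot x x : ℝ) : ℂ) := by
  simp only [qq, ofR, rdot, Complex.ofReal_sum, Complex.ofReal_mul]
  exact Finset.sum_congr rfl fun i _ => by ring

/-- the linear isometry onto the plane -/
noncomputable def Ph (X Y : RV n) (ζ : Cn 2) : Cn n := ζ 0 • ofR X + ζ 1 • ofR Y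

theorem norm_sq_ip (u : Cn n) : ((‖u‖ ^ 2 : ℝ) : ℂ) = ip u u := by
  unfold ip
  rw [inner_self_eq_norm_sq_to_K]; norm_cast

theorem norm_Ph {X Y : RV n} (h : OPair X Y) (ζ : Cn 2) : ‖Ph X Y ζ‖ = ‖ζ‖ := by
  have h3 : rdot Y X = 0 := by
    rw [← h.2.2]; simp only [rdot]; exact Finset.sum_congr rfl fun i _ => mul_comm _ _
  have e : ((‖Ph X Y ζ‖ ^ 2 : ℝ) : ℂ) = ((‖ζ‖ ^ 2 : ℝ) : ℂ) := by
    rw [norm_sq_ip, norm_sq_ip, ip_two]
    simp only [Ph, ip_add_left, ip_smul_left, ip_add_right, ip_smul_right, ip_ofR, h.1, h.2.1,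
      h.2.2, h3]
    push_cast; ring
  have e' : ‖Ph X Y ζ‖ ^ 2 = ‖ζ‖ ^ 2 := by exact_mod_cast e
  exact (pow_left_inj₀ (norm_nonneg _) (norm_nonneg _) two_ne_zero).1 e'

theorem qq_Ph {X Y : RV n} (h : OPair X Y) (ζ : Cn 2) : qq (Ph X Y ζ) = ζ 0 ^ 2 + ζ 1 ^ 2 := by
  have e : qq (Ph X Y ζ) = ζ 0 ^ 2 * ((rdot X X : ℝ) : ℂ) + 2 * ζ 0 * ζ 1 * ((rdot X Y : ℝ) : ℂ) +
      ζ 1 ^ 2 * ((rdot Y Y : ℝ) : ℂ) := by
    simp only [qq, Ph, ofR, rdot, Complex.ofReal_sum, Complex.ofReal_mul, Finset.mul_sum,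
      ← Finset.sum_add_distrib, PiLp.add_apply, PiLp.smul_apply, smul_eq_mul]
    exact Finset.sum_congr rfl fun i _ => by ring
  rw [e, h.1, h.2.1, h.2.2]; push_cast; ring

/-- the linear map `v ↦ (<v, X>, <v, Y>)` -/
noncomputable def LL (X Y : RV n) : Cn n →ₗ[ℂ] Cn 2 where
  toFun v := WithLp.toLp 2 ![ip v (ofR X), ip v (ofR Y)]
  map_add' u v := by
    ext i; fin_cases i <;> simp [ip_add_left]
  map_smul' c v := by
    ext i; fin_cases i <;> simp [ip_smul_left]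

/-- the first vector -/
noncomputable def ee : Cn 2 := WithLp.toLp 2 ![((√2 / 2 : ℝ) : ℂ), ((√2 / 2 : ℝ) : ℂ) * Complex.I]

/-- the second vector -/
noncomputable def ff : Cn 2 :=
  WithLp.toLp 2 ![((√2 / 2 : ℝ) : ℂ), -(((√2 / 2 : ℝ) : ℂ) * Complex.I)]

theorem hs2 : (((√2 / 2 : ℝ) : ℂ)) * (((√2 / 2 : ℝ) : ℂ)) = 1 / 2 := by
  rw [← Complex.ofReal_mul]
  have : √2 / 2 * (√2 / 2) = 1 / 2 := by
    have := Real.mul_self_sqrt (show (0 : ℝ) ≤ 2 by norm_num)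
    nlinarith
  rw [this]; norm_num

theorem norm_ee : ‖ee‖ = 1 := by
  have e : ((‖ee‖ ^ 2 : ℝ) : ℂ) = ((1 : ℝ) : ℂ) := by
    rw [norm_sq_ip, ip_two]
    simp only [ee, Matrix.cons_val_zero, Matrix.cons_val_one, map_mul, Complex.conj_ofReal,
      Complex.conj_I]
    have := Complex.I_mul_I
    rw [Complex.ofReal_one]
    linear_combination (1 - Complex.I * Complex.I) * hs2 - (1 / 2) * this
  have e' : ‖ee‖ ^ 2 = 1 := by exact_mod_cast e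
  exact (pow_eq_one_iff_of_nonneg (norm_nonneg _) two_ne_zero).1 e'

theorem norm_ff : ‖ff‖ = 1 := by
  have e : ((‖ff‖ ^ 2 : ℝ) : ℂ) = ((1 : ℝ) : ℂ) := by
    rw [norm_sq_ip, ip_two]
    simp only [ff, Matrix.cons_val_zero, Matrix.cons_val_one, map_mul, map_neg,
      Complex.conj_ofReal, Complex.conj_I]
    have := Complex.I_mul_I
    rw [Complex.ofReal_one]
    linear_combination (1 - Complex.I * Complex.I) * hs2 - (1 / 2) * this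
  have e' : ‖ff‖ ^ 2 = 1 := by exact_mod_cast e
  exact (pow_eq_one_iff_of_nonneg (norm_nonneg _) two_ne_zero).1 e'

theorem ip_ef : ip ee ff = 0 := by
  rw [ip_two]
  simp only [ee, ff, Matrix.cons_val_zero, Matrix.cons_val_one, map_mul, map_neg,
      Complex.conj_ofReal, Complex.conj_I]
  have := Complex.I_mul_I
  linear_combination (1 + Complex.I * Complex.I) * hs2 + (1 / 2) * this

theorem qf_ef (ζ : Cn 2) : qf ee ff ζ = ζ 0 ^ 2 + ζ 1 ^ 2 := by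
  unfold qf
  rw [ip_two, ip_two]
  simp only [ee, ff, Matrix.cons_val_zero, Matrix.cons_val_one, map_mul, map_neg,
      Complex.conj_ofReal, Complex.conj_I]
  have := Complex.I_mul_I
  linear_combination (2 * (ζ 0 ^ 2 - ζ 1 ^ 2 * Complex.I * Complex.I)) * hs2 - (ζ 1 ^ 2) * this

end AllPlaneAux

open AllPlaneAux

theorem plane {n : ℕ} {G : Cn n → Cn n} {C : ℝ} (hG : DifferentiableOn ℂ G (ball 0 1))
    (h0 : G 0 = 0) (h1 : fderiv ℂ G 0 = 0)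
    (hC : ∀ z ∈ ball (0 : Cn n) 1,
      |(ip (G z) z).re| * ‖1 - qq z‖ ^ 2 ≤ C * (‖z‖ ^ 2 * (1 - ‖qq z‖ ^ 2)))
    {X Y : RV n} (hXY : OPair X Y) :
    ∃ b1 b2 : ℂ, ∀ ξ η : ℂ, ‖ξ‖ ^ 2 + ‖η‖ ^ 2 < 1 →
      (1 - (ξ ^ 2 + η ^ 2)) * ip (G (ξ • ofR X + η • ofR Y)) (ofR X) =
        (ξ * (starRingEnd ℂ) b1 + η * (starRingEnd ℂ) b2) * ξ + (ξ ^ 2 + η ^ 2) * b1 ∧
      (1 - (ξ ^ 2 + η ^ 2)) * ip (G (ξ • ofR X + η • ofR Y)) (ofR Y) =
        (ξ * (starRingEnd ℂ) b1 + η * (starRingEnd ℂ) b2) * η + (ξ ^ 2 + η ^ 2) * b2 := by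
  set L : Cn n →L[ℂ] Cn 2 := LinearMap.toContinuousLinearMap (LL X Y) with hL
  have hLa : ∀ v, L v = WithLp.toLp 2 ![ip v (ofR X), ip v (ofR Y)] := fun v => rfl
  have hPhd : Differentiable ℂ (Ph X Y) := by
    have : Ph X Y = fun ζ : Cn 2 => ζ 0 • ofR X + ζ 1 • ofR Y := rfl
    rw [this]; fun_prop
  have hPh0 : Ph X Y 0 = 0 := by simp [Ph]
  have hPhm : ∀ ζ ∈ ball (0 : Cn 2) 1, Ph X Y ζ ∈ ball (0 : Cn n) 1 := by
    intro ζ hζ
    rw [mem_ball_zero_iff] at hζ ⊢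
    rwa [norm_Ph hXY]
  have hGd : DifferentiableAt ℂ G 0 :=
    hG.differentiableAt (isOpen_ball.mem_nhds (mem_ball_self one_pos))
  have hG0 : HasFDerivAt G (0 : Cn n →L[ℂ] Cn n) (Ph X Y 0) := by
    rw [hPh0, ← h1]; exact hGd.hasFDerivAt
  obtain ⟨b, hb⟩ := key_lemma norm_ee norm_ff ip_ef (G := fun ζ => L (G (Ph X Y ζ)))
    (L.differentiable.comp_differentiableOn (hG.comp hPhd.differentiableOn hPhm))
    (by simp only [hPh0, h0, map_zero])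
    (by
      have h2 : HasFDerivAt (fun ζ => L (G (Ph X Y ζ)))
          (L.comp ((0 : Cn n →L[ℂ] Cn n).comp (fderiv ℂ (Ph X Y) 0))) (0 : Cn 2) :=
        L.hasFDerivAt.comp 0 (hG0.comp 0 (hPhd 0).hasFDerivAt)
      rw [h2.fderiv]; simp)
    (C := C) (by
      intro ζ hζ
      have h3 := hC _ (hPhm ζ hζ)
      rw [qq_Ph hXY, norm_Ph hXY] at h3
      rw [qf_ef]
      have h4 : ip (L (G (Ph X Y ζ))) ζ = ip (G (Ph X Y ζ)) (Ph X Y ζ) := by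
        rw [ip_two, hLa]
        conv_rhs => rw [Ph, ip_add_right, ip_smul_right, ip_smul_right]
        simp only [Matrix.cons_val_zero, Matrix.cons_val_one]
        simp only [Ph]
        ring
      rw [h4]; exact h3)
  refine ⟨b 0, b 1, fun ξ η hξη => ?_⟩
  set ζ : Cn 2 := WithLp.toLp 2 ![ξ, η] with hζ
  have hζ0 : ζ 0 = ξ := rfl
  have hζ1 : ζ 1 = η := rfl
  have hnz : ‖ζ‖ ^ 2 = ‖ξ‖ ^ 2 + ‖η‖ ^ 2 := by
    rw [EuclideanSpace.norm_sq_eq, Fin.sum_univ_two, hζ0, hζ1]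
  have hζb : ζ ∈ ball (0 : Cn 2) 1 := by
    rw [mem_ball_zero_iff]
    nlinarith [norm_nonneg ζ]
  have h5 := hb ζ hζb
  rw [qf_ef, hζ0, hζ1, ip_two, hζ0, hζ1] at h5
  have hne : (1 - (ξ ^ 2 + η ^ 2) : ℂ) ≠ 0 := by
    intro h6
    have h7 : ‖ξ ^ 2 + η ^ 2‖ < 1 := by
      calc ‖ξ ^ 2 + η ^ 2‖ ≤ ‖ξ ^ 2‖ + ‖η ^ 2‖ := norm_add_le _ _
        _ = ‖ξ‖ ^ 2 + ‖η‖ ^ 2 := by rw [norm_pow, norm_pow]
        _ < 1 := hξη
    rw [← sub_eq_zero.1 h6] at h7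
    simp at h7
  have hPe : Ph X Y ζ = ξ • ofR X + η • ofR Y := rfl
  rw [hPe, hLa] at h5
  have h8 := congrArg (fun v : Cn 2 => v 0) h5
  have h9 := congrArg (fun v : Cn 2 => v 1) h5
  simp only [PiLp.add_apply, PiLp.smul_apply, smul_eq_mul, Matrix.cons_val_zero,
    Matrix.cons_val_one, hζ0, hζ1] at h8 h9
  rw [h8, h9]
  constructor
  · field_simp
  · field_simp

end Pool.Agent.P1ae5
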