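import Pool.Agent.Lib.P1ae5.AllDefs

/-!
P1ae5.AllPlaneVal (MP_1ae5d5_an). STUB, statements fixed.

`exists_plane`: take the span of the real vectors `reV z, imV z`; Gram-Schmidt, `n ≥ 2` to complete
in the degenerate cases (`n ≥ 2` gives, for every unit vector, a unit vector orthogonal to it).

`plane_val`: `J` tangential: `rdot (J x x) x = 0`; polarizing (`x + t y` and comparing coefficients
of `t`), `2 rdot (J x y) x = - rdot (J x x) y`. Put `z = ξ X + η Y`, `Jc` = complexification of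
`J` (the bracket in the definition of `VLJ` is `Jc(z,z) = ξ^2 J(X,X) + 2 ξ η J(X,Y) + η^2 J(Y,Y)`;
here `reV z = ξ.re X + η.re Y`, `imV z = ξ.im X + η.im Y`). Its dot product with `X` is
`ξ^2 * 0 - ξ η J(X,X).Y + η^2 J(Y,Y).X`. With `j1 = J(Y,Y).X`, `j2 = J(X,X).Y` real,
`b1 = l.X/2 + i j1`, `b2 = l.Y/2 + i j2`:
`(ξ conj b1 + η conj b2) ξ + (ξ^2+η^2) b1 = (ξ l.X/2 + η l.Y/2) ξ + (ξ^2+η^2) l.X/2
  + i(-ξ^2 j1 - ξ η j2 + ξ^2 j1 + η^2 j1)`. Same for `Y`.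
`norm_plane`, `qq_plane`: orthonormality.
-/

open Metric

namespace Pool.Agent.P1ae5

namespace PlaneValAux

theorem rdot_comm {n : ℕ} (x y : RV n) : rdot x y = rdot y x :=
  Finset.sum_congr rfl fun _ _ => mul_comm _ _

theorem rdot_add {n : ℕ} (x y z : RV n) : rdot (x + y) z = rdot x z + rdot y z := by
  simp [rdot, add_mul, Finset.sum_add_distrib]

theorem rdot_sub {n : ℕ} (x y z : RV n) : rdot (x - y) z = rdot x z - rdot y z := by
  simp [rdot, sub_mul, Finset.sum_sub_distrib]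

theorem rdot_smul {n : ℕ} (c : ℝ) (x z : RV n) : rdot (c • x) z = c * rdot x z := by
  simp [rdot, Finset.mul_sum, mul_assoc]

theorem rdot_add' {n : ℕ} (x y z : RV n) : rdot x (y + z) = rdot x y + rdot x z := by
  rw [rdot_comm, rdot_add, rdot_comm y, rdot_comm z]

theorem rdot_sub' {n : ℕ} (x y z : RV n) : rdot x (y - z) = rdot x y - rdot x z := by
  rw [rdot_comm, rdot_sub, rdot_comm y, rdot_comm z]

theorem rdot_smul' {n : ℕ} (c : ℝ) (x z : RV n) : rdot x (c • z) = c * rdot x z := by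
  rw [rdot_comm, rdot_smul, rdot_comm]

theorem rdot_nonneg {n : ℕ} (x : RV n) : 0 ≤ rdot x x :=
  Finset.sum_nonneg fun _ _ => mul_self_nonneg _

theorem rdot_eq_zero {n : ℕ} {x : RV n} (h : rdot x x = 0) : x = 0 := by
  funext i
  have h1 := (Finset.sum_eq_zero_iff_of_nonneg fun j _ => mul_self_nonneg (x j)).1 h i
    (Finset.mem_univ i)
  simpa using h1

/-- normalization -/
theorem normz {n : ℕ} {x : RV n} (h : x ≠ 0) : ∃ (X : RV n) (a : ℝ), rdot X X = 1 ∧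
    x = a • X ∧ X = a⁻¹ • x := by
  have h1 : 0 < rdot x x :=
    lt_of_le_of_ne (rdot_nonneg x) fun h' => h (rdot_eq_zero h'.symm)
  have h2 : Real.sqrt (rdot x x) ≠ 0 := (Real.sqrt_pos.2 h1).ne'
  refine ⟨(Real.sqrt (rdot x x))⁻¹ • x, Real.sqrt (rdot x x), ?_, ?_, rfl⟩
  · rw [rdot_smul, rdot_smul']
    have h3 := Real.mul_self_sqrt h1.le
    field_simp
    nlinarith [h3]
  · rw [smul_smul, mul_inv_cancel₀ h2, one_smul]

theorem exists_orth {n : ℕ} (hn : 2 ≤ n) {X : RV n} (hX : rdot X X = 1) :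
    ∃ Y : RV n, rdot Y Y = 1 ∧ rdot X Y = 0 := by
  have h1 : ∃ i, 0 < 1 - X i * X i := by
    by_contra hcon
    push Not at hcon
    have h2 : ∑ i : Fin n, (1 - X i * X i) ≤ 0 := Finset.sum_nonpos fun i _ => hcon i
    rw [Finset.sum_sub_distrib] at h2
    have h3 : ∑ i : Fin n, X i * X i = 1 := hX
    rw [h3] at h2
    simp only [Finset.sum_const, Finset.card_univ, Fintype.card_fin, nsmul_eq_mul, mul_one] at h2
    have h4 : (2 : ℝ) ≤ n := by exact_mod_cast hn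
    linarith
  obtain ⟨i, hi⟩ := h1
  have h0 : rdot (Pi.single i 1) X = X i := by
    simp [rdot, Pi.single_apply]
  have h0' : rdot (Pi.single i 1 : RV n) (Pi.single i 1) = 1 := by
    simp [rdot, Pi.single_apply]
  have e1 : rdot (Pi.single i 1 - X i • X) (Pi.single i 1 - X i • X) = 1 - X i * X i := by
    rw [rdot_sub, rdot_sub', rdot_sub', rdot_smul', rdot_smul, rdot_smul, rdot_smul', h0, h0', hX,
      rdot_comm X, h0]
    ring
  have e2 : rdot X (Pi.single i 1 - X i • X) = 0 := by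
    rw [rdot_sub', rdot_smul', rdot_comm X (Pi.single i 1), h0, hX]
    ring
  have hne : (Pi.single i 1 - X i • X : RV n) ≠ 0 := by
    intro h
    rw [h] at e1
    have : rdot (0 : RV n) 0 = 0 := by simp [rdot]
    rw [this] at e1
    linarith
  obtain ⟨Y, a, hY1, hY2, hY3⟩ := normz hne
  refine ⟨Y, hY1, ?_⟩
  rw [hY3, rdot_smul', e2, mul_zero]

theorem real_plane {n : ℕ} (hn : 2 ≤ n) (x y : RV n) :
    ∃ (X Y : RV n) (a b c d : ℝ), OPair X Y ∧ x = a • X + b • Y ∧ y = c • X + d • Y := by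
  have hA : ∃ (X : RV n) (a : ℝ), rdot X X = 1 ∧ x = a • X := by
    by_cases hx : x = 0
    · refine ⟨Pi.single ⟨0, by omega⟩ 1, 0, ?_, ?_⟩
      · simp [rdot, Pi.single_apply]
      · simp [hx]
    · obtain ⟨X, a, h1, h2, _⟩ := normz hx
      exact ⟨X, a, h1, h2⟩
  obtain ⟨X, a, hX, hx⟩ := hA
  have hB : ∃ (Y : RV n) (d : ℝ), rdot Y Y = 1 ∧ rdot X Y = 0 ∧
      y - rdot y X • X = d • Y := by
    by_cases hr : y - rdot y X • X = 0
    · obtain ⟨Y, h1, h2⟩ := exists_orth hn hX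
      exact ⟨Y, 0, h1, h2, by rw [hr, zero_smul]⟩
    · obtain ⟨Y, d, h1, h2, h3⟩ := normz hr
      refine ⟨Y, d, h1, ?_, h2⟩
      rw [h3, rdot_smul', rdot_sub', rdot_smul', hX, rdot_comm X y]
      ring
  obtain ⟨Y, d, hY, hXY, hy⟩ := hB
  refine ⟨X, Y, a, 0, rdot y X, d, ⟨hX, hY, hXY⟩, ?_, ?_⟩
  · rw [zero_smul, add_zero]; exact hx
  · rw [← hy]; abel

theorem ofR_apply {n : ℕ} (x : RV n) (i : Fin n) : (ofR x) i = ((x i : ℝ) : ℂ) := rfl

theorem ip_ofR {n : ℕ} (v : Cn n) (X : RV n) : ip v (ofR X) = ∑ i, v i * (X i : ℂ) := by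
  unfold ip
  rw [PiLp.inner_apply]
  refine Finset.sum_congr rfl fun i _ => ?_
  rw [ofR_apply]
  simp [mul_comm]

theorem ip_add {n : ℕ} (u v w : Cn n) : ip (u + v) w = ip u w + ip v w := inner_add_right _ _ _

theorem ip_smul {n : ℕ} (c : ℂ) (u w : Cn n) : ip (c • u) w = c * ip u w :=
  inner_smul_right _ _ _

theorem ip_real {n : ℕ} (x X : RV n) : ip (ofR x) (ofR X) = ((rdot x X : ℝ) : ℂ) := by
  rw [ip_ofR, rdot]
  push_cast
  rfl

theorem ip_X {n : ℕ} {X Y : RV n} (h : OPair X Y) (ξ η : ℂ) :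
    ip (ξ • ofR X + η • ofR Y) (ofR X) = ξ := by
  rw [ip_add, ip_smul, ip_smul, ip_real, ip_real, rdot_comm Y X, h.1, h.2.2]
  simp

theorem opair_symm {n : ℕ} {X Y : RV n} (h : OPair X Y) : OPair Y X :=
  ⟨h.2.1, h.1, by rw [rdot_comm]; exact h.2.2⟩

theorem sum_l {n : ℕ} (l X Y : RV n) (ξ η : ℂ) :
    ∑ i, (l i : ℂ) * (ξ • ofR X + η • ofR Y) i =
      ξ * ((rdot l X : ℝ) : ℂ) + η * ((rdot l Y : ℝ) : ℂ) := by
  simp only [rdot]
  push_cast
  rw [Finset.mul_sum, Finset.mul_sum, ← Finset.sum_add_distrib]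
  refine Finset.sum_congr rfl fun i _ => ?_
  simp only [PiLp.add_apply, PiLp.smul_apply, smul_eq_mul, ofR_apply]
  ring

theorem reV_plane {n : ℕ} (X Y : RV n) (ξ η : ℂ) :
    reV (ξ • ofR X + η • ofR Y) = ξ.re • X + η.re • Y := by
  funext i
  simp [reV, ofR_apply]

theorem imV_plane {n : ℕ} (X Y : RV n) (ξ η : ℂ) :
    imV (ξ • ofR X + η • ofR Y) = ξ.im • X + η.im • Y := by
  funext i
  simp [imV, ofR_apply]

theorem qq_pl {n : ℕ} {X Y : RV n} (h : OPair X Y) (ξ η : ℂ) :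
    qq (ξ • ofR X + η • ofR Y) = ξ ^ 2 + η ^ 2 := by
  have h1 : ∑ i, ((X i : ℝ) : ℂ) * (X i : ℂ) = 1 := by
    have := congrArg (fun r : ℝ => (r : ℂ)) h.1
    simpa [rdot] using this
  have h2 : ∑ i, ((Y i : ℝ) : ℂ) * (Y i : ℂ) = 1 := by
    have := congrArg (fun r : ℝ => (r : ℂ)) h.2.1
    simpa [rdot] using this
  have h3 : ∑ i, ((X i : ℝ) : ℂ) * (Y i : ℂ) = 0 := by
    have := congrArg (fun r : ℝ => (r : ℂ)) h.2.2
    simpa [rdot] using this
  have h4 : qq (ξ • ofR X + η • ofR Y) = ξ ^ 2 * ∑ i, ((X i : ℝ) : ℂ) * (X i : ℂ) +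
      η ^ 2 * ∑ i, ((Y i : ℝ) : ℂ) * (Y i : ℂ) +
      2 * ξ * η * ∑ i, ((X i : ℝ) : ℂ) * (Y i : ℂ) := by
    unfold qq
    rw [Finset.mul_sum, Finset.mul_sum, Finset.mul_sum, ← Finset.sum_add_distrib,
      ← Finset.sum_add_distrib]
    refine Finset.sum_congr rfl fun i _ => ?_
    simp only [PiLp.add_apply, PiLp.smul_apply, smul_eq_mul, ofR_apply]
    ring
  rw [h4, h1, h2, h3]
  ring

theorem polar {n : ℕ} {J : Bil n} (hJ : IsTan J) (X Y : RV n) :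
    2 * rdot (J X Y) X = - rdot (J X X) Y := by
  obtain ⟨hs, ht⟩ := hJ
  have h1 := ht (X + Y)
  have h2 := ht (X - Y)
  have h3 := ht X
  have h4 := ht Y
  simp only [map_add, LinearMap.add_apply, rdot_add, rdot_add', hs Y X] at h1
  simp only [map_sub, LinearMap.sub_apply, rdot_sub, rdot_sub', hs Y X] at h2
  linarith

theorem dotJ {n : ℕ} {J : Bil n} (hJ : IsTan J) (X Y : RV n) (a b c d : ℝ) :
    rdot (J (a • X + b • Y) (c • X + d • Y)) X =
      -(a * d + b * c) / 2 * rdot (J X X) Y + b * d * rdot (J Y Y) X := by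
  have h1 := polar hJ X Y
  have h2 := hJ.2 X
  simp only [map_add, map_smul, LinearMap.add_apply, LinearMap.smul_apply, rdot_add, rdot_smul,
    smul_add, hJ.1 Y X]
  rw [h2]
  linear_combination (a * d + b * c) / 2 * h1

theorem ip_VLJ {n : ℕ} (l : RV n) (J : Bil n) (z : Cn n) (X : RV n) :
    ip (VLJ l J z) (ofR X) = (1 / 2 * ∑ i, (l i : ℂ) * z i) * ip z (ofR X) +
      1 / 2 * qq z * ((rdot l X : ℝ) : ℂ) +
      Complex.I * (((rdot (J (reV z) (reV z) - J (imV z) (imV z)) X : ℝ) : ℂ) +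
        2 * Complex.I * ((rdot (J (reV z) (imV z)) X : ℝ) : ℂ)) := by
  unfold VLJ
  rw [ip_add, ip_add, ip_smul, ip_smul, ip_smul, ip_add, ip_smul, ip_real, ip_real, ip_real]

theorem val_X {n : ℕ} {l : RV n} {J : Bil n} (hJ : IsTan J) {X Y : RV n} (h : OPair X Y)
    (ξ η : ℂ) :
    ip (VLJ l J (ξ • ofR X + η • ofR Y)) (ofR X) =
      ww l J X Y ξ η * ξ + (ξ ^ 2 + η ^ 2) * bb l J X Y := by
  rw [ip_VLJ, ip_X h, sum_l, qq_pl h, reV_plane, imV_plane, rdot_sub, dotJ hJ, dotJ hJ, dotJ hJ]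
  unfold ww bb
  have e1 : ξ = (ξ.re : ℂ) + (ξ.im : ℂ) * Complex.I := (Complex.re_add_im ξ).symm
  have e2 : η = (η.re : ℂ) + (η.im : ℂ) * Complex.I := (Complex.re_add_im η).symm
  generalize ξ.re = a at *
  generalize ξ.im = c at *
  generalize η.re = b at *
  generalize η.im = d at *
  subst e1 e2
  simp only [map_add, map_mul, Complex.conj_ofReal, Complex.conj_I]
  push_cast
  generalize ((rdot (J X X) Y : ℝ) : ℂ) = j2
  generalize ((rdot (J Y Y) X : ℝ) : ℂ) = j1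
  have hI : Complex.I ^ 2 = -1 := Complex.I_sq
  have hI3 : Complex.I ^ 3 = -Complex.I := by rw [pow_succ, hI]; ring
  ring_nf
  simp only [hI, hI3]
  ring

end PlaneValAux

open PlaneValAux

theorem exists_plane {n : ℕ} (hn : 2 ≤ n) (z : Cn n) :
    ∃ (X Y : RV n) (ξ η : ℂ), OPair X Y ∧ z = ξ • ofR X + η • ofR Y := by
  obtain ⟨X, Y, a, b, c, d, hO, hx, hy⟩ := real_plane hn (reV z) (imV z)
  refine ⟨X, Y, (a : ℂ) + (c : ℂ) * Complex.I, (b : ℂ) + (d : ℂ) * Complex.I, hO, ?_⟩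
  ext i
  have h1 : (z i).re = a * X i + b * Y i := congrFun hx i
  have h2 : (z i).im = c * X i + d * Y i := congrFun hy i
  simp only [PiLp.add_apply, PiLp.smul_apply, smul_eq_mul, ofR_apply]
  apply Complex.ext
  · simp [h1]
  · simp [h2]

theorem norm_plane {n : ℕ} {X Y : RV n} (h : OPair X Y) (ξ η : ℂ) :
    ‖ξ • ofR X + η • ofR Y‖ ^ 2 = ‖ξ‖ ^ 2 + ‖η‖ ^ 2 := by
  have h1 : ∑ i, X i * X i = 1 := h.1
  have h2 : ∑ i, Y i * Y i = 1 := h.2.1
  have h3 : ∑ i, X i * Y i = 0 := h.2.2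
  rw [EuclideanSpace.norm_sq_eq]
  have h4 : ∑ i, ‖(ξ • ofR X + η • ofR Y) i‖ ^ 2 = (ξ.re ^ 2 + ξ.im ^ 2) * ∑ i, X i * X i +
      (η.re ^ 2 + η.im ^ 2) * ∑ i, Y i * Y i +
      2 * (ξ.re * η.re + ξ.im * η.im) * ∑ i, X i * Y i := by
    rw [Finset.mul_sum, Finset.mul_sum, Finset.mul_sum, ← Finset.sum_add_distrib,
      ← Finset.sum_add_distrib]
    refine Finset.sum_congr rfl fun i _ => ?_
    rw [← Complex.normSq_eq_norm_sq, Complex.normSq_apply]
    simp only [PiLp.add_apply, PiLp.smul_apply, smul_eq_mul, ofR_apply, Complex.add_re,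
      Complex.add_im, Complex.mul_re, Complex.mul_im, Complex.ofReal_re, Complex.ofReal_im]
    ring
  rw [h4, h1, h2, h3, ← Complex.normSq_eq_norm_sq, ← Complex.normSq_eq_norm_sq,
    Complex.normSq_apply, Complex.normSq_apply]
  ring

theorem qq_plane {n : ℕ} {X Y : RV n} (h : OPair X Y) (ξ η : ℂ) :
    qq (ξ • ofR X + η • ofR Y) = ξ ^ 2 + η ^ 2 := qq_pl h ξ η

theorem plane_val {n : ℕ} {l : RV n} {J : Bil n} (hJ : IsTan J) {X Y : RV n} (h : OPair X Y)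
    (ξ η : ℂ) :
    ip (VLJ l J (ξ • ofR X + η • ofR Y)) (ofR X) =
      ww l J X Y ξ η * ξ + (ξ ^ 2 + η ^ 2) * bb l J X Y ∧
    ip (VLJ l J (ξ • ofR X + η • ofR Y)) (ofR Y) =
      ww l J X Y ξ η * η + (ξ ^ 2 + η ^ 2) * bb l J Y X := by
  refine ⟨val_X hJ h ξ η, ?_⟩
  have h1 := val_X (l := l) hJ (opair_symm h) η ξ
  rw [add_comm (η • ofR Y) (ξ • ofR X)] at h1
  rw [h1]
  unfold ww
  ring

end Pool.Agent.P1ae5
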