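import Pool.Agent.Lib.P1ae5.AllDefs

/-!
P1ae5.QuadHom (MP_1ae5d5_an).

Proof. `W z := R^2 F (z / R)` for any `R > ‖z‖` (here `R = 1 + ‖z‖`) is well defined, entire,
positively homogeneous of degree 2 and bounded by `M ‖z‖^2`. For fixed `z, w` the function
`g λ = W (z + λ w)` is entire with quadratic growth, so `g λ = g 0 + λ g'(0) + λ^2 c` by the Cauchy
estimates, and `c = lim g t / t^2 = W w` (`t → ∞` real). With `λ = 1`:
`fderiv ℂ W z w = W (z + w) - W z - W w`, which is symmetric in `z, w` and linear in `w`.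
-/

open Metric

namespace Pool.Agent.P1ae5

namespace QuadHomAux

open Filter Topology

variable {E : Type*} [NormedAddCommGroup E] [NormedSpace ℂ E] [CompleteSpace E]

/-- entire functions of quadratic growth are quadratic polynomials -/
theorem poly_two {g : ℂ → E} (hg : Differentiable ℂ g) {M a b : ℝ} (hM : 0 ≤ M) (ha : 0 ≤ a)
    (hb : 0 ≤ b) (h : ∀ l : ℂ, ‖g l‖ ≤ M * (a + ‖l‖ * b) ^ 2) :
    ∃ c : E, ∀ l : ℂ, g l = g 0 + l • deriv g 0 + l ^ 2 • c := by
  have hz : ∀ n : ℕ, 3 ≤ n → iteratedDeriv n g 0 = 0 := by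
    intro n hn
    have hb' : ∀ R : ℝ, 1 ≤ R → ‖iteratedDeriv n g 0‖ ≤ (n.factorial * (M * (a + b) ^ 2)) / R := by
      intro R hR
      have hR0 : 0 < R := by linarith
      have h1 := Complex.norm_iteratedDeriv_le_of_forall_mem_sphere_norm_le (c := 0) (R := R)
        (C := M * (a + R * b) ^ 2) n hR0 hg.diffContOnCl (by
          intro z hz
          have hz' : ‖z‖ = R := mem_sphere_zero_iff_norm.1 hz
          have := h z
          rwa [hz'] at this)
      refine h1.trans ?_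
      have h2 : (a + R * b) ^ 2 ≤ R ^ 2 * (a + b) ^ 2 := by
        rw [← mul_pow]
        refine pow_le_pow_left₀ (by positivity) ?_ 2
        nlinarith
      have h3 : R ^ 3 ≤ R ^ n := pow_le_pow_right₀ hR hn
      calc n.factorial * (M * (a + R * b) ^ 2) / R ^ n
          ≤ n.factorial * (M * (R ^ 2 * (a + b) ^ 2)) / R ^ 3 := by
            gcongr
        _ = (n.factorial * (M * (a + b) ^ 2)) / R := by
            field_simp
    have hlim : Tendsto (fun R : ℝ => (n.factorial * (M * (a + b) ^ 2)) / R) atTop (𝓝 0) :=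
      tendsto_const_nhds.div_atTop tendsto_id
    have h4 : ‖iteratedDeriv n g 0‖ ≤ 0 := by
      refine ge_of_tendsto hlim ?_
      filter_upwards [eventually_ge_atTop (1:ℝ)] with R hR
      exact hb' R hR
    exact norm_le_zero_iff.1 h4
  refine ⟨(2 : ℂ)⁻¹ • iteratedDeriv 2 g 0, fun l => ?_⟩
  have h1 := Complex.hasSum_taylorSeries_of_entire hg 0 l
  have h2 : HasSum (fun n : ℕ => ((n.factorial : ℕ) : ℂ)⁻¹ • (l - 0) ^ n • iteratedDeriv n g 0)
      (∑ n ∈ Finset.range 3, ((n.factorial : ℕ) : ℂ)⁻¹ • (l - 0) ^ n • iteratedDeriv n g 0) := by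
    refine hasSum_sum_of_ne_finset_zero ?_
    intro n hn
    rw [hz n (by simpa using hn), smul_zero, smul_zero]
  rw [h1.unique h2, Finset.sum_range_succ, Finset.sum_range_succ, Finset.sum_range_one]
  simp only [Nat.factorial, sub_zero, pow_zero, pow_one, iteratedDeriv_zero, iteratedDeriv_one]
  norm_num
  rw [smul_comm]

end QuadHomAux

open QuadHomAux Filter Topology in
theorem quad_hom {n : ℕ} {F : Cn n → Cn n} (hF : DifferentiableOn ℂ F (ball 0 1))
    (h : ∀ z ∈ ball (0 : Cn n) 1, ∀ t : ℝ, 0 < t → t < 1 →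
      F ((t : ℂ) • z) = ((t : ℂ) ^ 2) • F z) :
    ∃ B : Cn n →ₗ[ℂ] Cn n →ₗ[ℂ] Cn n, (∀ z w, B z w = B w z) ∧
      ∀ z ∈ ball (0 : Cn n) 1, F z = B z z := by
  -- the function with a given scale
  set V : ℝ → Cn n → Cn n := fun R z => ((R : ℂ) ^ 2) • F (((R : ℂ)⁻¹) • z) with hV
  have hmem : ∀ (R : ℝ) (z : Cn n), ‖z‖ < R → ((R : ℂ)⁻¹) • z ∈ ball (0 : Cn n) 1 := by
    intro R z hz
    have hR : 0 < R := lt_of_le_of_lt (norm_nonneg z) hz
    rw [mem_ball_zero_iff, norm_smul, norm_inv, Complex.norm_real, Real.norm_eq_abs,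
      abs_of_pos hR, inv_mul_lt_iff₀ hR, mul_one]
    exact hz
  have hV12 : ∀ (R₁ R₂ : ℝ) (z : Cn n), ‖z‖ < R₁ → R₁ < R₂ → V R₁ z = V R₂ z := by
    intro R₁ R₂ z h1 h2
    have hR1 : 0 < R₁ := lt_of_le_of_lt (norm_nonneg z) h1
    have hR2 : 0 < R₂ := hR1.trans h2
    have h3 := h _ (hmem R₁ z h1) (R₁ / R₂) (by positivity) ((div_lt_one hR2).2 h2)
    have c1 : (R₁ : ℂ) ≠ 0 := by exact_mod_cast hR1.ne'
    have c2 : (R₂ : ℂ) ≠ 0 := by exact_mod_cast hR2.ne'
    have h4 : (((R₁ / R₂ : ℝ) : ℂ)) • (((R₁ : ℂ)⁻¹) • z) = ((R₂ : ℂ)⁻¹) • z := by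
      rw [smul_smul]
      congr 1
      push_cast
      field_simp
    rw [h4] at h3
    simp only [hV]
    rw [h3, smul_smul]
    congr 1
    push_cast
    field_simp
  have hVV : ∀ (R₁ R₂ : ℝ) (z : Cn n), ‖z‖ < R₁ → ‖z‖ < R₂ → V R₁ z = V R₂ z := by
    intro R₁ R₂ z h1 h2
    rcases lt_trichotomy R₁ R₂ with h3 | h3 | h3
    · exact hV12 R₁ R₂ z h1 h3
    · rw [h3]
    · exact (hV12 R₂ R₁ z h2 h3).symm
  set W : Cn n → Cn n := fun z => V (1 + ‖z‖) z with hW
  have hWV : ∀ (R : ℝ) (z : Cn n), ‖z‖ < R → W z = V R z := fun R z hz =>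
    hVV _ R z (by linarith) hz
  have hWF : ∀ z ∈ ball (0 : Cn n) 1, W z = F z := by
    intro z hz
    rw [hWV 1 z (mem_ball_zero_iff.1 hz)]
    simp only [hV, Complex.ofReal_one, one_pow, inv_one, one_smul]
  have hWd : Differentiable ℂ W := by
    intro z
    set R : ℝ := 1 + ‖z‖ with hR
    have hzR : ‖z‖ < R := by rw [hR]; linarith
    have h1 : DifferentiableAt ℂ (V R) z := by
      have h2 : DifferentiableAt ℂ F (((R : ℂ)⁻¹) • z) :=
        hF.differentiableAt (isOpen_ball.mem_nhds (hmem R z hzR))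
      have h4 : DifferentiableAt ℂ (fun y : Cn n => ((R : ℂ)⁻¹) • y) z := by fun_prop
      have h3 : DifferentiableAt ℂ (fun y : Cn n => F (((R : ℂ)⁻¹) • y)) z :=
        DifferentiableAt.comp z h2 h4
      exact h3.const_smul ((R : ℂ) ^ 2)
    refine h1.congr_of_eventuallyEq ?_
    have h2 : ∀ᶠ y in 𝓝 z, ‖y‖ < R :=
      (continuous_norm.tendsto z).eventually (gt_mem_nhds hzR)
    filter_upwards [h2] with y hy
    exact hWV R y hy
  have hWt : ∀ (t : ℝ) (z : Cn n), 0 < t → W ((t : ℂ) • z) = ((t : ℂ) ^ 2) • W z := by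
    intro t z ht
    have ct : (t : ℂ) ≠ 0 := by exact_mod_cast ht.ne'
    have h1 : ‖(t : ℂ) • z‖ < t * (1 + ‖z‖) := by
      rw [norm_smul, Complex.norm_real, Real.norm_eq_abs, abs_of_pos ht]
      nlinarith
    rw [hWV _ _ h1]
    have c1 : ((1 + ‖z‖ : ℝ) : ℂ) ≠ 0 := by
      have : (0:ℝ) < 1 + ‖z‖ := by positivity
      exact_mod_cast this.ne'
    simp only [hW, hV]
    have e1 : (((t * (1 + ‖z‖) : ℝ) : ℂ))⁻¹ • ((t : ℂ) • z) = (((1 + ‖z‖ : ℝ) : ℂ))⁻¹ • z := by
      rw [smul_smul]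
      congr 1
      rw [Complex.ofReal_mul]
      field_simp
    rw [e1, smul_smul]
    congr 1
    rw [Complex.ofReal_mul]
    ring
  have hW0 : W 0 = 0 := by
    have h1 := hWt 2 0 (by norm_num)
    rw [smul_zero] at h1
    have h2 : ∀ v : Cn n, ((2:ℝ):ℂ) ^ 2 • v = v + (3 : ℂ) • v := by
      intro v
      push_cast
      module
    rw [h2] at h1
    have h3 : (3 : ℂ) • W 0 = 0 := by
      have h4 : W 0 + 0 = W 0 + (3 : ℂ) • W 0 := by
        rw [add_zero]
        exact h1
      exact (add_left_cancel h4).symm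
    exact (smul_eq_zero.1 h3).resolve_left (by norm_num)
  -- quadratic growth
  obtain ⟨M, hM0, hM⟩ : ∃ M : ℝ, 0 ≤ M ∧ ∀ z : Cn n, ‖W z‖ ≤ M * ‖z‖ ^ 2 := by
    have hc : IsCompact (closedBall (0 : Cn n) 1) := isCompact_closedBall 0 1
    obtain ⟨C, hC⟩ := hc.exists_bound_of_continuousOn (f := W) hWd.continuous.continuousOn
    refine ⟨|C|, abs_nonneg C, fun z => ?_⟩
    by_cases hz : z = 0
    · rw [hz, hW0]
      simp
    · have hz0 : 0 < ‖z‖ := norm_pos_iff.2 hz
      have cz : (((‖z‖ : ℝ)) : ℂ) ≠ 0 := by exact_mod_cast hz0.ne'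
      have e1 : z = ((‖z‖ : ℝ) : ℂ) • ((((‖z‖ : ℝ) : ℂ))⁻¹ • z) := by
        rw [smul_smul, mul_inv_cancel₀ cz, one_smul]
      have e2 : ‖(((‖z‖ : ℝ) : ℂ))⁻¹ • z‖ = 1 := by
        rw [norm_smul, norm_inv, Complex.norm_real, norm_norm, inv_mul_cancel₀ hz0.ne']
      have h1 := hC ((((‖z‖ : ℝ) : ℂ))⁻¹ • z) (by
        rw [mem_closedBall_zero_iff, e2])
      conv_lhs => rw [e1]
      rw [hWt _ _ hz0, norm_smul, norm_pow, Complex.norm_real, norm_norm, mul_comm]
      exact mul_le_mul_of_nonneg_right (h1.trans (le_abs_self C)) (by positivity)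
  -- the polarisation is the derivative
  have key : ∀ z w : Cn n, fderiv ℂ W z w = W (z + w) - W z - W w := by
    intro z w
    have hline : Differentiable ℂ (fun l : ℂ => z + l • w) :=
      (differentiable_const z).add (differentiable_id.smul_const w)
    have hg : Differentiable ℂ (fun l : ℂ => W (z + l • w)) := hWd.comp hline
    obtain ⟨c, hc⟩ := poly_two hg hM0 (norm_nonneg z) (norm_nonneg w) (by
      intro l
      refine (hM _).trans ?_
      refine mul_le_mul_of_nonneg_left ?_ hM0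
      refine pow_le_pow_left₀ (norm_nonneg _) ?_ 2
      exact (norm_add_le _ _).trans (by rw [norm_smul]))
    have hder : deriv (fun l : ℂ => W (z + l • w)) 0 = fderiv ℂ W z w := by
      have h1 : HasDerivAt (fun l : ℂ => z + l • w) w 0 := by
        have := ((hasDerivAt_id (0:ℂ)).smul_const w).const_add z
        simpa using this
      have h2 : HasFDerivAt W (fderiv ℂ W z) (z + (0:ℂ) • w) := by
        rw [zero_smul, add_zero]
        exact (hWd z).hasFDerivAt
      exact (h2.comp_hasDerivAt 0 h1).deriv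
    simp only [zero_smul, add_zero] at hc
    rw [hder] at hc
    -- the leading coefficient
    have hcw : c = W w := by
      have t1 : Tendsto (fun t : ℝ => (((t : ℂ))⁻¹ ^ 2) • W (z + (t : ℂ) • w)) atTop (𝓝 c) := by
        have hinv : Tendsto (fun t : ℝ => ((t : ℂ))⁻¹) atTop (𝓝 0) := by
          have := (Complex.continuous_ofReal.tendsto (0:ℝ)).comp tendsto_inv_atTop_zero
          simpa [Function.comp_def] using this
        have h1 : Tendsto (fun t : ℝ => (((t : ℂ))⁻¹ ^ 2) • W z + ((t : ℂ))⁻¹ • fderiv ℂ W z w + c)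
            atTop (𝓝 (((0:ℂ) ^ 2) • W z + (0:ℂ) • fderiv ℂ W z w + c)) :=
          (((hinv.pow 2).smul_const _).add (hinv.smul_const _)).add_const c
        have h2 : (((0:ℂ) ^ 2) • W z + (0:ℂ) • fderiv ℂ W z w + c) = c := by simp
        rw [h2] at h1
        refine h1.congr' ?_
        filter_upwards [eventually_gt_atTop (0:ℝ)] with t ht
        have ct : (t : ℂ) ≠ 0 := by exact_mod_cast ht.ne'
        rw [hc, smul_add, smul_add, smul_smul, smul_smul]
        congr 1
        · congr 2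
          field_simp
        · rw [smul_smul, ← mul_pow, inv_mul_cancel₀ ct, one_pow, one_smul]
      have t2 : Tendsto (fun t : ℝ => (((t : ℂ))⁻¹ ^ 2) • W (z + (t : ℂ) • w)) atTop
          (𝓝 (W w)) := by
        have hinv : Tendsto (fun t : ℝ => ((t : ℂ))⁻¹) atTop (𝓝 0) := by
          have := (Complex.continuous_ofReal.tendsto (0:ℝ)).comp tendsto_inv_atTop_zero
          simpa [Function.comp_def] using this
        have h1 : Tendsto (fun t : ℝ => W (((t : ℂ))⁻¹ • z + w)) atTop (𝓝 (W ((0:ℂ) • z + w))) :=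
          (hWd.continuous.tendsto _).comp ((hinv.smul_const z).add_const w)
        rw [zero_smul, zero_add] at h1
        refine h1.congr' ?_
        filter_upwards [eventually_gt_atTop (0:ℝ)] with t ht
        have ct : (t : ℂ) ≠ 0 := by exact_mod_cast ht.ne'
        have e1 : z + (t : ℂ) • w = (t : ℂ) • (((t : ℂ))⁻¹ • z + w) := by
          rw [smul_add, smul_smul, mul_inv_cancel₀ ct, one_smul]
        rw [e1, hWt _ _ ht, smul_smul, ← mul_pow, inv_mul_cancel₀ ct, one_pow, one_smul]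
      exact tendsto_nhds_unique t1 t2
    have h1 := hc 1
    rw [one_smul, one_smul, one_pow, one_smul, hcw] at h1
    rw [h1]
    abel
  have hsymm : ∀ z w : Cn n, fderiv ℂ W z w = fderiv ℂ W w z := by
    intro z w
    rw [key z w, key w z, add_comm w z]
    abel
  refine ⟨LinearMap.mk₂ ℂ (fun z w => (1 / 2 : ℂ) • fderiv ℂ W z w) ?_ ?_ ?_ ?_, ?_, ?_⟩
  · intro z z' w
    rw [hsymm (z + z') w, hsymm z w, hsymm z' w, map_add, smul_add]
  · intro c z w
    rw [hsymm (c • z) w, hsymm z w, map_smul, smul_comm]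
  · intro z w w'
    rw [map_add, smul_add]
  · intro c z w
    rw [map_smul, smul_comm]
  · intro z w
    rw [LinearMap.mk₂_apply, LinearMap.mk₂_apply, hsymm]
  · intro z hz
    rw [LinearMap.mk₂_apply, key, ← hWF z hz]
    have h1 : z + z = ((2:ℝ):ℂ) • z := by
      push_cast
      rw [two_smul]
    rw [h1, hWt 2 z (by norm_num)]
    have h2 : ∀ v : Cn n, (((2:ℝ):ℂ) ^ 2 • v - v - v) = (2 : ℂ) • v := by
      intro v
      push_cast
      module
    rw [h2, smul_smul]
    norm_num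

end Pool.Agent.P1ae5
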