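import Pool.Agent.Lib.P1ae5.AllDefs

/-!
P1ae5.RealZero (MP_1ae5d5_an).

Proof. By induction on `m ≤ n`: `F z = 0` for every `z` in the ball whose coordinates
`z_j`, `j ≥ m`, are real. Case `m = 0`: `z = ofR (reV z)`. Step: let `z_j` be real for
`j ≥ m + 1`. The function `ζ ↦ F (z with z_m replaced by ζ)` is holomorphic on the disc
`|ζ|^2 < 1 - ∑_{j ≠ m} |z_j|^2` (open, convex, it contains `0` and `z_m`) and vanishes at its real
points by the induction hypothesis; the real points accumulate at `0`, so by the identity theorem
(`AnalyticOnNhd.eqOn_zero_of_preconnected_of_frequently_eq_zero`) it vanishes on the disc.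
-/

open Metric Filter Topology

namespace Pool.Agent.P1ae5

theorem real_zero {n : ℕ} {F : Cn n → Cn n} (hF : DifferentiableOn ℂ F (ball 0 1))
    (h : ∀ x : RV n, ofR x ∈ ball (0 : Cn n) 1 → F (ofR x) = 0) :
    ∀ z ∈ ball (0 : Cn n) 1, F z = 0 := by
  have key : ∀ m : ℕ, ∀ z ∈ ball (0 : Cn n) 1, (∀ j : Fin n, m ≤ (j : ℕ) → (z j).im = 0) →
      F z = 0 := by
    intro m
    induction m with
    | zero =>
      intro z hz hj
      have e : ofR (reV z) = z := by
        ext j
        exact Complex.ext rfl (by simpa [ofR] using (hj j (Nat.zero_le _)).symm)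
      rw [← e] at hz ⊢
      exact h _ hz
    | succ m ih =>
      intro z hz hj
      by_cases hm : m < n
      · set i : Fin n := ⟨m, hm⟩ with hi
        set φ : ℂ → Cn n := fun ζ => z + (ζ - z i) • EuclideanSpace.single i (1 : ℂ) with hφ
        have hφi : ∀ ζ, φ ζ i = ζ := by
          intro ζ; simp [hφ]
        have hφj : ∀ ζ, ∀ j, j ≠ i → φ ζ j = z j := by
          intro ζ j hji; simp [hφ, hji]
        have hφz : φ (z i) = z := by simp [hφ]
        have hdiff : Differentiable ℂ φ := by
          rw [hφ]; fun_prop
        set U : Set ℂ := φ ⁻¹' ball (0 : Cn n) 1 with hU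
        have hUo : IsOpen U := isOpen_ball.preimage hdiff.continuous
        have hUc : Convex ℝ U := by
          intro a ha b hb s t hs ht hst
          simp only [hU, Set.mem_preimage, mem_ball_zero_iff] at ha hb ⊢
          have e : φ (s • a + t • b) = s • φ a + t • φ b := by
            have hst' : (s : ℂ) + t = 1 := by exact_mod_cast hst
            simp only [hφ]
            ext j
            simp only [PiLp.add_apply, PiLp.smul_apply, smul_eq_mul, Complex.real_smul]
            linear_combination (-(z j) + z i * (EuclideanSpace.single i (1 : ℂ)).ofLp j) * hst'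
          rw [e]
          exact mem_ball_zero_iff.1 (convex_ball (0 : Cn n) 1 (mem_ball_zero_iff.2 ha)
            (mem_ball_zero_iff.2 hb) hs ht hst)
        have hx0 : (((z i).re : ℝ) : ℂ) ∈ U := by
          simp only [hU, Set.mem_preimage, mem_ball_zero_iff] at hz ⊢
          refine lt_of_le_of_lt ?_ hz
          rw [EuclideanSpace.norm_eq, EuclideanSpace.norm_eq]
          refine Real.sqrt_le_sqrt (Finset.sum_le_sum fun j _ => ?_)
          by_cases hji : j = i
          · rw [hji, hφi]
            have := Complex.abs_re_le_norm (z i)
            rw [Complex.norm_real, Real.norm_eq_abs]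
            exact pow_le_pow_left₀ (abs_nonneg _) this 2
          · rw [hφj _ _ hji]
        have hzU : z i ∈ U := by
          simp only [hU, Set.mem_preimage]; rw [hφz]; exact hz
        have han : AnalyticOnNhd ℂ (fun ζ => F (φ ζ)) U :=
          DifferentiableOn.analyticOnNhd
            (hF.comp hdiff.differentiableOn (fun ζ hζ => hζ)) hUo
        have hfr : ∃ᶠ ζ in 𝓝[≠] (((z i).re : ℝ) : ℂ), F (φ ζ) = 0 := by
          have hcont : Tendsto (fun k : ℕ => (((z i).re + 1 / ((k : ℝ) + 1) : ℝ) : ℂ)) atTop
              (𝓝[≠] (((z i).re : ℝ) : ℂ)) := by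
            refine tendsto_nhdsWithin_iff.2 ⟨?_, ?_⟩
            · have h1 : Tendsto (fun k : ℕ => (z i).re + 1 / ((k : ℝ) + 1)) atTop
                  (𝓝 ((z i).re + 0)) :=
                tendsto_const_nhds.add tendsto_one_div_add_atTop_nhds_zero_nat
              rw [add_zero] at h1
              exact (Complex.continuous_ofReal.tendsto _).comp h1
            · refine Eventually.of_forall fun k => ?_
              simp only [Set.mem_compl_iff, Set.mem_singleton_iff, Complex.ofReal_inj]
              have : 0 < 1 / ((k : ℝ) + 1) := by positivity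
              linarith
          have hev : ∀ᶠ k : ℕ in atTop,
              F (φ (((z i).re + 1 / ((k : ℝ) + 1) : ℝ) : ℂ)) = 0 := by
            have h2 : ∀ᶠ ζ in 𝓝[≠] (((z i).re : ℝ) : ℂ), ζ ∈ U :=
              mem_nhdsWithin_of_mem_nhds (hUo.mem_nhds hx0)
            filter_upwards [hcont.eventually h2] with k hk
            refine ih _ hk ?_
            intro j hjm
            by_cases hji : j = i
            · rw [hji, hφi]; exact Complex.ofReal_im _
            · rw [hφj _ _ hji]
              refine hj j ?_
              have : (j : ℕ) ≠ m := fun h' => hji (Fin.ext h')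
              omega
          exact hcont.frequently hev.frequently
        have := han.eqOn_zero_of_preconnected_of_frequently_eq_zero hUc.isPreconnected hx0 hfr hzU
        simp only [Pi.zero_apply] at this
        rwa [hφz] at this
      · exact ih z hz (fun j hj' => absurd (lt_of_le_of_lt hj' j.2) hm)
  intro z hz
  exact key n z hz (fun j hj => absurd j.2 (by omega))

end Pool.Agent.P1ae5
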