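import Pool.Agent.Lib.P1ae5.AllDefs

/-!
P1ae5.StructAlg (MP_1ae5d5_an). STUB, statement fixed.

Proof. Write `B (ofR x) (ofR y) = ofR (R x y) + I • ofR (J x y)` with `R, J` real bilinear and
symmetric (coordinatewise real and imaginary parts). By homogeneity the two relations hold for all
complex `ξ, η` (replace `ξ, η` by `ξ/s, η/s`), so comparing the coefficients of
`ξ^2, ξ η, η^2` (for orthonormal `X, Y`, all dots are with real vectors, `ip v (ofR X) = ∑ v_i X_i`)
  `B(X,X).X = 2 Re b1`, `2 B(X,Y).X = conj b2`, `B(Y,Y).X = b1`,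
  `B(X,X).Y = b2`, `2 B(X,Y).Y = conj b1`, `B(Y,Y).Y = 2 Re b2`.
Imaginary parts: `J(X,X).X = 0` for every unit vector `X` (choose `Y` orthogonal to `X`, `n ≥ 2`),
hence `J(x,x).x = 0` for all `x` by homogeneity: `IsTan J`.
Real parts: `R(X,X).X = 2 R(Y,Y).X`, `2 R(X,Y).X = R(X,X).Y`, and the same with `X, Y`
exchanged. Put `φ(x) = R(x,x).x`. Then `R(X,X).Y = φ(Y)/2`, `2 R(X,Y).X = φ(Y)/2`,
`2 R(X,Y).Y = φ(X)/2`, `R(Y,Y).X = φ(X)/2`, so for `x = ξ X + η Y` (`ξ, η` real)
`φ(x) = ξ^3 φ(X) + ξ^2 η φ(Y) + ξ η^2 φ(X) + η^3 φ(Y) = (ξ^2 + η^2)(ξ φ(X) + η φ(Y))`.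
So `L(x) := φ(x)/|x|^2` (`L 0 = 0`) satisfies `L(ξX + ηY) = ξ L(X) + η L(Y)` for orthonormal `X, Y`;
any two vectors lie in the span of an orthonormal pair (`n ≥ 2`), so `L` is linear:
`L(x) = l.x`. For a unit vector `X` and `Y` orthonormal to it: `R(X,X).X = l.X`,
`R(X,X).Y = l.Y/2`; so `R(X,X) = (l.X/2) X + l/2` (both sides have the same scalar product with
`X` and with every unit `Y` orthogonal to `X`). Homogeneity: `R(x,x) = (l.x/2) x + (|x|^2/2) l`,
and by polarization `R(x,y) = ((l.x) y + (l.y) x)/4 + (x.y/2) l`.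
Finally for `z = x + i y`, `z = ofR x + I • ofR y`,
`B z z = B(x,x) - B(y,y) + 2 i B(x,y)`, which is `VLJ l J z`
(`∑ l_i z_i = l.x + i l.y`, `qq z = |x|^2 - |y|^2 + 2 i x.y`).
-/

open Metric

namespace Pool.Agent.P1ae5

namespace StructAlgAux

variable {n : ℕ}

lemma ofR_apply (x : RV n) (i : Fin n) : ofR x i = ((x i : ℝ) : ℂ) := rfl

lemma ofR_add (x y : RV n) : ofR (x + y) = ofR x + ofR y := by
  ext i
  rw [PiLp.add_apply, ofR_apply, ofR_apply, ofR_apply, Pi.add_apply, Complex.ofReal_add]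

lemma ofR_smul (c : ℝ) (x : RV n) : ofR (c • x) = (c : ℂ) • ofR x := by
  ext i
  rw [PiLp.smul_apply, ofR_apply, ofR_apply, Pi.smul_apply, smul_eq_mul, smul_eq_mul,
    Complex.ofReal_mul]

lemma reV_add (z w : Cn n) : reV (z + w) = reV z + reV w := by
  funext i
  simp [reV]

lemma imV_add (z w : Cn n) : imV (z + w) = imV z + imV w := by
  funext i
  simp [imV]

lemma reV_smul (c : ℝ) (z : Cn n) : reV ((c : ℂ) • z) = c • reV z := by
  funext i
  simp [reV]

lemma imV_smul (c : ℝ) (z : Cn n) : imV ((c : ℂ) • z) = c • imV z := by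
  funext i
  simp [imV]

lemma decomp (z : Cn n) : z = ofR (reV z) + Complex.I • ofR (imV z) := by
  ext i
  rw [PiLp.add_apply, PiLp.smul_apply, ofR_apply, ofR_apply, smul_eq_mul]
  unfold reV imV
  rw [mul_comm]
  exact (Complex.re_add_im _).symm

/-- the real part of `B` on real vectors -/
noncomputable def RB (B : Cn n →ₗ[ℂ] Cn n →ₗ[ℂ] Cn n) : Bil n :=
  LinearMap.mk₂ ℝ (fun x y => reV (B (ofR x) (ofR y)))
    (fun x x' y => by rw [ofR_add, map_add, LinearMap.add_apply, reV_add])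
    (fun c x y => by rw [ofR_smul, map_smul, LinearMap.smul_apply, reV_smul])
    (fun x y y' => by rw [ofR_add, map_add, reV_add])
    (fun c x y => by rw [ofR_smul, map_smul, reV_smul])

/-- the imaginary part of `B` on real vectors -/
noncomputable def JB (B : Cn n →ₗ[ℂ] Cn n →ₗ[ℂ] Cn n) : Bil n :=
  LinearMap.mk₂ ℝ (fun x y => imV (B (ofR x) (ofR y)))
    (fun x x' y => by rw [ofR_add, map_add, LinearMap.add_apply, imV_add])
    (fun c x y => by rw [ofR_smul, map_smul, LinearMap.smul_apply, imV_smul])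
    (fun x y y' => by rw [ofR_add, map_add, imV_add])
    (fun c x y => by rw [ofR_smul, map_smul, imV_smul])

lemma RB_apply (B : Cn n →ₗ[ℂ] Cn n →ₗ[ℂ] Cn n) (x y : RV n) :
    RB B x y = reV (B (ofR x) (ofR y)) := rfl

lemma JB_apply (B : Cn n →ₗ[ℂ] Cn n →ₗ[ℂ] Cn n) (x y : RV n) :
    JB B x y = imV (B (ofR x) (ofR y)) := rfl

lemma B_eq (B : Cn n →ₗ[ℂ] Cn n →ₗ[ℂ] Cn n) (x y : RV n) :
    B (ofR x) (ofR y) = ofR (RB B x y) + Complex.I • ofR (JB B x y) := decomp _

lemma ip_ofR (v : Cn n) (X : RV n) : ip v (ofR X) = ∑ i, v i * (X i : ℂ) := by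
  unfold ip
  rw [PiLp.inner_apply]
  refine Finset.sum_congr rfl fun i _ => ?_
  rw [ofR_apply]
  simp [mul_comm]

lemma ip_re (v : Cn n) (X : RV n) : (ip v (ofR X)).re = rdot (reV v) X := by
  rw [ip_ofR, Complex.re_sum]
  unfold rdot reV
  refine Finset.sum_congr rfl fun i _ => ?_
  simp

lemma ip_im (v : Cn n) (X : RV n) : (ip v (ofR X)).im = rdot (imV v) X := by
  rw [ip_ofR, Complex.im_sum]
  unfold rdot imV
  refine Finset.sum_congr rfl fun i _ => ?_
  simp

lemma ip_expand (B : Cn n →ₗ[ℂ] Cn n →ₗ[ℂ] Cn n) (hs : ∀ z w, B z w = B w z) (ξ η : ℂ)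
    (a b c : Cn n) : ip (B (ξ • a + η • b) (ξ • a + η • b)) c =
      ξ ^ 2 * ip (B a a) c + 2 * ξ * η * ip (B a b) c + η ^ 2 * ip (B b b) c := by
  have h : B (ξ • a + η • b) (ξ • a + η • b) =
      (ξ ^ 2) • B a a + (2 * ξ * η) • B a b + (η ^ 2) • B b b := by
    simp only [map_add, LinearMap.add_apply, map_smul, LinearMap.smul_apply, hs b a]
    module
  unfold ip
  rw [h]
  simp only [inner_add_right, inner_smul_right]

lemma rels (B : Cn n →ₗ[ℂ] Cn n →ₗ[ℂ] Cn n)
    (hs : ∀ z w, B z w = B w z)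
    (hrel : ∀ X Y : RV n, OPair X Y → ∃ b1 b2 : ℂ, ∀ ξ η : ℂ, ‖ξ‖ ^ 2 + ‖η‖ ^ 2 < 1 →
      ip (B (ξ • ofR X + η • ofR Y) (ξ • ofR X + η • ofR Y)) (ofR X) =
        (ξ * (starRingEnd ℂ) b1 + η * (starRingEnd ℂ) b2) * ξ + (ξ ^ 2 + η ^ 2) * b1 ∧
      ip (B (ξ • ofR X + η • ofR Y) (ξ • ofR X + η • ofR Y)) (ofR Y) =
        (ξ * (starRingEnd ℂ) b1 + η * (starRingEnd ℂ) b2) * η + (ξ ^ 2 + η ^ 2) * b2)
    {X Y : RV n} (h : OPair X Y) :
    rdot (JB B X X) X = 0 ∧ rdot (RB B X X) X = 2 * rdot (RB B Y Y) X ∧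
      2 * rdot (RB B X Y) X = rdot (RB B X X) Y := by
  obtain ⟨b1, b2, hb⟩ := hrel X Y h
  have h1 := hb (1 / 2) 0 (by norm_num)
  have h2 := hb 0 (1 / 2) (by norm_num)
  have h3 := hb (1 / 2) (1 / 2) (by norm_num)
  rw [ip_expand B hs, ip_expand B hs] at h1 h2 h3
  obtain ⟨h1, h1'⟩ := h1
  obtain ⟨h2, -⟩ := h2
  obtain ⟨h3, -⟩ := h3
  have p1 : ip (B (ofR X) (ofR X)) (ofR X) = (starRingEnd ℂ) b1 + b1 := by
    linear_combination 4 * h1
  have p2 : ip (B (ofR Y) (ofR Y)) (ofR X) = b1 := by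
    linear_combination 4 * h2
  have p3 : 2 * ip (B (ofR X) (ofR Y)) (ofR X) = (starRingEnd ℂ) b2 := by
    linear_combination 4 * h3 - 4 * h1 - 4 * h2
  have p4 : ip (B (ofR X) (ofR X)) (ofR Y) = b2 := by
    linear_combination 4 * h1'
  rw [JB_apply, RB_apply, RB_apply, RB_apply, ← ip_im, ← ip_re, ← ip_re, ← ip_re, ← ip_re,
    p1, p2, p4]
  refine ⟨by simp, ?_, ?_⟩
  · simp
    ring
  · have := congrArg Complex.re p3
    simpa using this

/-- the standard basis -/
def es (i : Fin n) : RV n := Pi.single i 1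

lemma rdot_es (v : RV n) (i : Fin n) : rdot v (es i) = v i := by
  simp [rdot, es, Pi.single_apply]

lemma es_self (i : Fin n) : es i i = 1 := by simp [es]

lemma es_ne {i j : Fin n} (h : i ≠ j) : es i j = 0 := by
  unfold es
  exact Pi.single_eq_of_ne (Ne.symm h) _

lemma rdot_add_left (a b c : RV n) : rdot (a + b) c = rdot a c + rdot b c := by
  simp [rdot, add_mul, Finset.sum_add_distrib]

lemma rdot_smul_left (r : ℝ) (a b : RV n) : rdot (r • a) b = r * rdot a b := by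
  simp [rdot, Finset.mul_sum, mul_assoc]

lemma rdot_comm (a b : RV n) : rdot a b = rdot b a := by
  simp [rdot, mul_comm]

lemma rdot_add_right (a b c : RV n) : rdot a (b + c) = rdot a b + rdot a c := by
  rw [rdot_comm, rdot_add_left, rdot_comm b, rdot_comm c]

lemma rdot_smul_right (r : ℝ) (a b : RV n) : rdot a (r • b) = r * rdot a b := by
  rw [rdot_comm, rdot_smul_left, rdot_comm]

lemma opair_es {i j : Fin n} (h : i ≠ j) : OPair (es i) (es j) := by
  refine ⟨?_, ?_, ?_⟩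
  · rw [rdot_es, es_self]
  · rw [rdot_es, es_self]
  · rw [rdot_es, es_ne h]

lemma sqrt_two_inv : (Real.sqrt 2)⁻¹ * (Real.sqrt 2)⁻¹ = 1 / 2 := by
  rw [← mul_inv, Real.mul_self_sqrt (by norm_num)]
  norm_num

lemma opair_mix {i j k : Fin n} (hij : i ≠ j) (hik : i ≠ k) (hjk : j ≠ k) :
    OPair (es i) ((Real.sqrt 2)⁻¹ • (es j + es k)) := by
  refine ⟨?_, ?_, ?_⟩
  · rw [rdot_es, es_self]
  · rw [rdot_smul_left, rdot_smul_right, ← mul_assoc, sqrt_two_inv, rdot_add_left,
      rdot_add_right, rdot_add_right, rdot_es, rdot_es, rdot_es, rdot_es, es_self, es_self,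
      es_ne hjk, es_ne hjk.symm]
    norm_num
  · rw [rdot_smul_right, rdot_add_right, rdot_es, rdot_es, es_ne hij, es_ne hik]
    norm_num

/-- there is a unit vector orthogonal to a unit vector -/
lemma exists_opair (hn : 2 ≤ n) (X : RV n) (hX : rdot X X = 1) : ∃ Y, OPair X Y := by
  obtain ⟨i0, hi0⟩ : ∃ i0 : Fin n, i0 = ⟨0, by omega⟩ := ⟨_, rfl⟩
  obtain ⟨i1, hi1⟩ : ∃ i1 : Fin n, i1 = ⟨1, by omega⟩ := ⟨_, rfl⟩
  have hne : i0 ≠ i1 := by
    rw [hi0, hi1]
    intro h
    have := congrArg Fin.val h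
    simp at this
  by_cases h0 : X i0 ^ 2 + X i1 ^ 2 = 0
  · refine ⟨es i0, hX, ?_, ?_⟩
    · rw [rdot_es, es_self]
    · rw [rdot_es]
      nlinarith [sq_nonneg (X i0), sq_nonneg (X i1), pow_eq_zero_iff (two_ne_zero) (a := X i0)]
  · have hpos : 0 < X i0 ^ 2 + X i1 ^ 2 := lt_of_le_of_ne (by positivity) (Ne.symm h0)
    obtain ⟨c, hc⟩ : ∃ c : ℝ, c = (Real.sqrt (X i0 ^ 2 + X i1 ^ 2))⁻¹ := ⟨_, rfl⟩
    have hc2 : c * c * (X i0 ^ 2 + X i1 ^ 2) = 1 := by
      rw [hc, ← mul_inv, Real.mul_self_sqrt hpos.le, inv_mul_cancel₀ h0]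
    refine ⟨c • ((-X i1) • es i0 + X i0 • es i1), hX, ?_, ?_⟩
    · rw [rdot_smul_left, rdot_smul_right, rdot_add_left, rdot_add_right, rdot_add_right,
        rdot_smul_left, rdot_smul_left, rdot_smul_left, rdot_smul_left, rdot_smul_right,
        rdot_smul_right, rdot_smul_right, rdot_smul_right, rdot_es, rdot_es, rdot_es, rdot_es,
        es_self, es_self, es_ne hne, es_ne hne.symm]
      linarith
    · rw [rdot_smul_right, rdot_add_right, rdot_smul_right, rdot_smul_right, rdot_es, rdot_es]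
      ring

end StructAlgAux

open StructAlgAux

theorem struct_alg {n : ℕ} (hn : 2 ≤ n) (B : Cn n →ₗ[ℂ] Cn n →ₗ[ℂ] Cn n)
    (hs : ∀ z w, B z w = B w z)
    (hrel : ∀ X Y : RV n, OPair X Y → ∃ b1 b2 : ℂ, ∀ ξ η : ℂ, ‖ξ‖ ^ 2 + ‖η‖ ^ 2 < 1 →
      ip (B (ξ • ofR X + η • ofR Y) (ξ • ofR X + η • ofR Y)) (ofR X) =
        (ξ * (starRingEnd ℂ) b1 + η * (starRingEnd ℂ) b2) * ξ + (ξ ^ 2 + η ^ 2) * b1 ∧
      ip (B (ξ • ofR X + η • ofR Y) (ξ • ofR X + η • ofR Y)) (ofR Y) =
        (ξ * (starRingEnd ℂ) b1 + η * (starRingEnd ℂ) b2) * η + (ξ ^ 2 + η ^ 2) * b2) :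
    ∃ (l : RV n) (J : Bil n), IsTan J ∧ ∀ z : Cn n, B z z = VLJ l J z := by
  have hsR : ∀ x y, RB B x y = RB B y x := fun x y => by rw [RB_apply, RB_apply, hs]
  have hsJ : ∀ x y, JB B x y = JB B y x := fun x y => by rw [JB_apply, JB_apply, hs]
  -- the tangential part
  have hT : IsTan (JB B) := by
    refine ⟨hsJ, fun x => ?_⟩
    by_cases hx : rdot x x = 0
    · have hx0 : x = 0 := by
        funext i
        have h1 : ∑ i, x i * x i = 0 := hx
        have h2 := (Finset.sum_eq_zero_iff_of_nonneg (fun i _ => mul_self_nonneg (x i))).1 h1 i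
          (Finset.mem_univ i)
        exact mul_self_eq_zero.1 h2
      rw [hx0]
      simp [rdot]
    · have hpos : 0 < rdot x x := lt_of_le_of_ne (Finset.sum_nonneg fun i _ => mul_self_nonneg _)
        (Ne.symm hx)
      obtain ⟨c, hc⟩ : ∃ c : ℝ, c = (Real.sqrt (rdot x x))⁻¹ := ⟨_, rfl⟩
      have hc0 : c ≠ 0 := by
        rw [hc]
        exact inv_ne_zero (Real.sqrt_ne_zero'.2 hpos)
      have hc2 : c * c * rdot x x = 1 := by
        rw [hc, ← mul_inv, Real.mul_self_sqrt hpos.le, inv_mul_cancel₀ hx]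
      have hX : rdot (c • x) (c • x) = 1 := by
        rw [rdot_smul_left, rdot_smul_right]
        linarith
      obtain ⟨Y, hY⟩ := exists_opair hn _ hX
      have h1 := (rels B hs hrel hY).1
      rw [map_smul, map_smul, LinearMap.smul_apply, rdot_smul_left, rdot_smul_left,
        rdot_smul_right] at h1
      rcases mul_eq_zero.1 h1 with h | h
      · exact absurd h hc0
      rcases mul_eq_zero.1 h with h | h
      · exact absurd h hc0
      rcases mul_eq_zero.1 h with h | h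
      · exact absurd h hc0
      exact h
  -- the real part
  obtain ⟨l, hl⟩ : ∃ l : RV n, l = fun i => RB B (es i) (es i) i := ⟨_, rfl⟩
  have r1 : ∀ i j : Fin n, i ≠ j → RB B (es i) (es i) j = l j / 2 := by
    intro i j hij
    have h1 := (rels B hs hrel (opair_es hij.symm)).2.1
    rw [rdot_es, rdot_es] at h1
    rw [hl]
    dsimp only
    linarith
  have r2 : ∀ i j : Fin n, i ≠ j → RB B (es i) (es j) i = l j / 4 := by
    intro i j hij
    have h1 := (rels B hs hrel (opair_es hij)).2.2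
    rw [rdot_es, rdot_es, r1 i j hij] at h1
    linarith
  have r3 : ∀ i j k : Fin n, i ≠ j → i ≠ k → j ≠ k → RB B (es j) (es k) i = 0 := by
    intro i j k hij hik hjk
    have h1 := (rels B hs hrel (opair_mix hij hik hjk)).2.1
    have h0 : RB B ((Real.sqrt 2)⁻¹ • (es j + es k)) ((Real.sqrt 2)⁻¹ • (es j + es k)) =
        ((Real.sqrt 2)⁻¹ * (Real.sqrt 2)⁻¹) • (RB B (es j) (es j) + (2 : ℝ) • RB B (es j) (es k) +
          RB B (es k) (es k)) := by
      simp only [map_add, LinearMap.add_apply, map_smul, LinearMap.smul_apply, hsR (es k) (es j)]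
      module
    rw [h0, rdot_es, rdot_es, sqrt_two_inv, Pi.smul_apply, Pi.add_apply, Pi.add_apply,
      Pi.smul_apply, r1 j i hij.symm, r1 k i hik.symm, smul_eq_mul, smul_eq_mul] at h1
    have h2 : RB B (es i) (es i) i = l i := by rw [hl]
    rw [h2] at h1
    linarith
  have hdiag : ∀ i j : Fin n, RB B (es i) (es j) =
      (1 / 4 : ℝ) • (l i • es j + l j • es i) + (rdot (es i) (es j) / 2) • l := by
    intro i j
    funext k
    rw [Pi.add_apply, Pi.smul_apply, Pi.add_apply, Pi.smul_apply, Pi.smul_apply, Pi.smul_apply,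
      smul_eq_mul, smul_eq_mul, smul_eq_mul, smul_eq_mul, rdot_es]
    by_cases hij : i = j
    · subst hij
      rw [es_self]
      by_cases hik : i = k
      · subst hik
        have h2 : RB B (es i) (es i) i = l i := by rw [hl]
        rw [h2, es_self]
        ring
      · rw [r1 i k hik, es_ne hik]
        ring
    · rw [es_ne hij]
      by_cases hik : i = k
      · subst hik
        rw [r2 i j hij, es_self, es_ne (Ne.symm hij)]
        ring
      · by_cases hjk : j = k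
        · subst hjk
          rw [hsR, r2 j i (Ne.symm hij), es_self, es_ne hij]
          ring
        · rw [r3 k i j (Ne.symm hik) (Ne.symm hjk) hij, es_ne hik, es_ne hjk]
          ring
  -- the general formula
  have hR : ∀ x y : RV n, RB B x y =
      (1 / 4 : ℝ) • (rdot l x • y + rdot l y • x) + (rdot x y / 2) • l := by
    obtain ⟨Q, hQ⟩ : ∃ Q : Bil n, ∀ x y, Q x y =
        (1 / 4 : ℝ) • (rdot l x • y + rdot l y • x) + (rdot x y / 2) • l := by
      refine ⟨LinearMap.mk₂ ℝ (fun x y => (1 / 4 : ℝ) • (rdot l x • y + rdot l y • x) +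
        (rdot x y / 2) • l) ?_ ?_ ?_ ?_, fun x y => rfl⟩
      · intro x x' y
        funext i
        simp only [rdot_add_right, rdot_add_left, Pi.add_apply, Pi.smul_apply, smul_eq_mul]
        ring
      · intro c x y
        funext i
        simp only [rdot_smul_right, rdot_smul_left, Pi.add_apply, Pi.smul_apply, smul_eq_mul]
        ring
      · intro x y y'
        funext i
        simp only [rdot_add_right, Pi.add_apply, Pi.smul_apply, smul_eq_mul]
        ring
      · intro c x y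
        funext i
        simp only [rdot_smul_right, Pi.add_apply, Pi.smul_apply, smul_eq_mul]
        ring
    have hQB : RB B = Q := by
      refine (Pi.basisFun ℝ (Fin n)).ext fun i => ?_
      refine (Pi.basisFun ℝ (Fin n)).ext fun j => ?_
      rw [Pi.basisFun_apply, Pi.basisFun_apply]
      have h1 := hdiag i j
      have h2 := hQ (es i) (es j)
      rw [rdot_es, rdot_es] at h2
      unfold es at h1 h2
      rw [h1, h2]
    intro x y
    rw [hQB, hQ]
  refine ⟨l, JB B, hT, fun z => ?_⟩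
  obtain ⟨x, hx⟩ : ∃ x, x = reV z := ⟨_, rfl⟩
  obtain ⟨y, hy⟩ : ∃ y, y = imV z := ⟨_, rfl⟩
  have hz : z = ofR x + Complex.I • ofR y := by
    rw [hx, hy]
    exact decomp z
  have hzi : ∀ i, z i = (x i : ℂ) + Complex.I * (y i : ℂ) := by
    intro i
    rw [hz, PiLp.add_apply, PiLp.smul_apply, ofR_apply, ofR_apply, smul_eq_mul]
  have hBzz : B z z = B (ofR x) (ofR x) - B (ofR y) (ofR y) +
      (2 * Complex.I) • B (ofR x) (ofR y) := by
    rw [hz]
    simp only [map_add, LinearMap.add_apply, map_smul, LinearMap.smul_apply, hs (ofR y) (ofR x),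
      smul_smul, smul_add, Complex.I_mul_I]
    module
  have hlz : ∑ i, (l i : ℂ) * z i = (rdot l x : ℂ) + Complex.I * (rdot l y : ℂ) := by
    unfold rdot
    push_cast
    rw [Finset.mul_sum, ← Finset.sum_add_distrib]
    refine Finset.sum_congr rfl fun i _ => ?_
    rw [hzi]
    ring
  have hqz : qq z = (rdot x x : ℂ) - (rdot y y : ℂ) + 2 * Complex.I * (rdot x y : ℂ) := by
    unfold qq rdot
    push_cast
    rw [Finset.mul_sum, ← Finset.sum_sub_distrib, ← Finset.sum_add_distrib]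
    refine Finset.sum_congr rfl fun i _ => ?_
    rw [hzi]
    linear_combination ((y i : ℂ) ^ 2) * Complex.I_sq
  rw [hBzz, B_eq, B_eq, B_eq, hR x x, hR y y, hR x y]
  unfold VLJ
  rw [← hx, ← hy, hlz, hqz]
  ext i
  simp only [PiLp.add_apply, PiLp.sub_apply, PiLp.smul_apply, ofR_apply, smul_eq_mul,
    Pi.add_apply, Pi.smul_apply, Pi.sub_apply, hzi]
  push_cast
  linear_combination (-(1 / 2) * (rdot l y : ℂ) * (y i : ℂ)) * Complex.I_sq

end Pool.Agent.P1ae5
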