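import Pool.Agent.Lib.P1ae5.AllPlane
import Pool.Agent.Lib.P1ae5.RealZero
import Pool.Agent.Lib.P1ae5.QuadHom
import Pool.Agent.Lib.P1ae5.StructAlg
import Pool.Agent.Lib.P1ae5.AllPlaneVal
import Pool.Agent.Lib.P1ae5.AllBasic

/-!
P1ae5.AllStruct: dominated maps in all dimensions (owner helper48).
-/

open Metric

namespace Pool.Agent.P1ae5

theorem ip_ofR {n : ℕ} (v : Cn n) (x : RV n) : ip v (ofR x) = ∑ i, v i * ((x i : ℝ) : ℂ) := by
  unfold ip ofR
  rw [PiLp.inner_apply]
  refine Finset.sum_congr rfl fun i _ => ?_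
  simp [mul_comm]

theorem ofR_smul {n : ℕ} (t : ℝ) (x : RV n) : ofR (t • x) = (t : ℂ) • ofR x := by
  ext i
  simp [ofR]

theorem norm_ofR_sq {n : ℕ} (x : RV n) : ‖ofR x‖ ^ 2 = rdot x x := by
  rw [EuclideanSpace.norm_sq_eq]
  unfold rdot
  refine Finset.sum_congr rfl fun i _ => ?_
  simp [ofR, sq]

theorem exists_unit {n : ℕ} {x : RV n} (hx : x ≠ 0) :
    ∃ X : RV n, ∃ r : ℝ, 0 < r ∧ rdot X X = 1 ∧ x = r • X := by
  have hpos : 0 < rdot x x := by
    have h1 : 0 ≤ rdot x x := Finset.sum_nonneg fun i _ => mul_self_nonneg _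
    rcases h1.lt_or_eq with h | h
    · exact h
    · exfalso
      apply hx
      funext i
      have := (Finset.sum_eq_zero_iff_of_nonneg (fun i _ => mul_self_nonneg (x i))).1 h.symm i
        (Finset.mem_univ i)
      exact mul_self_eq_zero.1 this
  refine ⟨(Real.sqrt (rdot x x))⁻¹ • x, Real.sqrt (rdot x x), Real.sqrt_pos.2 hpos, ?_, ?_⟩
  · have h2 : rdot ((Real.sqrt (rdot x x))⁻¹ • x) ((Real.sqrt (rdot x x))⁻¹ • x) =
        ((Real.sqrt (rdot x x))⁻¹) ^ 2 * rdot x x := by
      unfold rdot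
      rw [Finset.mul_sum]
      refine Finset.sum_congr rfl fun i _ => ?_
      simp only [Pi.smul_apply, smul_eq_mul]
      ring
    rw [h2, inv_pow, Real.sq_sqrt hpos.le, inv_mul_cancel₀ hpos.ne']
  · rw [smul_smul, mul_inv_cancel₀ (Real.sqrt_pos.2 hpos).ne', one_smul]

theorem ip_sub_left' {n : ℕ} (x y z : Cn n) : ip (x - y) z = ip x z - ip y z := by
  unfold ip; exact inner_sub_right _ _ _

theorem ip_smul_left' {n : ℕ} (c : ℂ) (x z : Cn n) : ip (c • x) z = c * ip x z := by
  unfold ip; exact inner_smul_right _ _ _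

/-- a vector orthogonal to `X` and to all unit vectors orthogonal to `X` is zero -/
theorem zero_of_ip {n : ℕ} {X : RV n} (hX : rdot X X = 1) {v : Cn n}
    (h1 : ip v (ofR X) = 0) (h2 : ∀ Y, OPair X Y → ip v (ofR Y) = 0) : v = 0 := by
  have key : ∀ y : RV n, ip v (ofR y) = 0 := by
    intro y
    set y' : RV n := y - rdot X y • X with hy'
    have hXy : rdot X y' = 0 := by
      have : rdot X y' = rdot X y - rdot X y * rdot X X := by
        unfold rdot
        rw [Finset.mul_sum, ← Finset.sum_sub_distrib]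
        refine Finset.sum_congr rfl fun i _ => ?_
        simp only [hy', rdot, Pi.sub_apply, Pi.smul_apply, smul_eq_mul]
        ring
      rw [this, hX]; ring
    have hy'0 : ip v (ofR y') = 0 := by
      by_cases h0 : y' = 0
      · rw [h0, ip_ofR]; simp
      · obtain ⟨Y, r, hr, hY, hyY⟩ := exists_unit h0
        have hXY : rdot X Y = 0 := by
          have h3 : rdot X y' = r * rdot X Y := by
            rw [hyY]
            unfold rdot
            rw [Finset.mul_sum]
            refine Finset.sum_congr rfl fun i _ => ?_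
            simp only [Pi.smul_apply, smul_eq_mul]
            ring
          rw [h3] at hXy
          rcases mul_eq_zero.1 hXy with h4 | h4
          · exact absurd h4 hr.ne'
          · exact h4
        have h5 := h2 Y ⟨hX, hY, hXY⟩
        rw [ip_ofR] at h5
        rw [hyY, ip_ofR]
        have : ∑ i, v i * (((r • Y) i : ℝ) : ℂ) = (r : ℂ) * ∑ i, v i * ((Y i : ℝ) : ℂ) := by
          rw [Finset.mul_sum]
          refine Finset.sum_congr rfl fun i _ => ?_
          simp only [Pi.smul_apply, smul_eq_mul]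
          push_cast
          ring
        rw [this, h5, mul_zero]
    have h6 : ip v (ofR y) = ip v (ofR y') + (rdot X y : ℂ) * ip v (ofR X) := by
      rw [ip_ofR, ip_ofR, ip_ofR, Finset.mul_sum, ← Finset.sum_add_distrib]
      refine Finset.sum_congr rfl fun i _ => ?_
      simp only [hy', Pi.sub_apply, Pi.smul_apply, smul_eq_mul]
      push_cast
      ring
    rw [h6, hy'0, h1, mul_zero, add_zero]
  ext i
  have h7 := key (Pi.single i 1)
  rw [ip_ofR] at h7
  have h8 : ∑ j, v j * (((Pi.single i 1 : RV n) j : ℝ) : ℂ) = v i := by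
    rw [Finset.sum_eq_single i]
    · simp
    · intro j _ hj
      rw [Pi.single_eq_of_ne hj]
      simp
    · intro h; exact absurd (Finset.mem_univ i) h
  rw [h8] at h7
  simpa using h7

theorem diff_qq {n : ℕ} : Differentiable ℂ (qq : Cn n → ℂ) := by
  unfold qq
  refine Differentiable.fun_sum fun i _ => ?_
  have : Differentiable ℂ (fun z : Cn n => z i) := by
    exact (EuclideanSpace.proj i : Cn n →L[ℂ] ℂ).differentiable
  exact this.pow 2

theorem qq_smul {n : ℕ} (c : ℂ) (z : Cn n) : qq (c • z) = c ^ 2 * qq z := by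
  unfold qq
  rw [Finset.mul_sum]
  refine Finset.sum_congr rfl fun i _ => ?_
  simp only [PiLp.smul_apply, smul_eq_mul]
  ring

/-- Dominated maps. -/
theorem all_struct {n : ℕ} (hn : 2 ≤ n) {G : Cn n → Cn n} {C : ℝ}
    (hG : DifferentiableOn ℂ G (ball 0 1)) (h0 : G 0 = 0) (h1 : fderiv ℂ G 0 = 0)
    (hC : ∀ z ∈ ball (0 : Cn n) 1,
      |(ip (G z) z).re| * ‖1 - qq z‖ ^ 2 ≤ C * (‖z‖ ^ 2 * (1 - ‖qq z‖ ^ 2))) :
    ∃ (l : RV n) (J : Bil n), IsTan J ∧
      ∀ z ∈ ball (0 : Cn n) 1, G z = (1 / (1 - qq z)) • VLJ l J z := by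
  obtain ⟨F, hF⟩ : ∃ F : Cn n → Cn n, ∀ z, F z = (1 - qq z) • G z := ⟨_, fun _ => rfl⟩
  have hFd : DifferentiableOn ℂ F (ball 0 1) := by
    have : DifferentiableOn ℂ (fun z : Cn n => 1 - qq z) (ball 0 1) :=
      ((differentiable_const _).sub diff_qq).differentiableOn
    exact (this.smul hG).congr fun z _ => hF z
  have hpl : ∀ X Y : RV n, OPair X Y → ∃ b1 b2 : ℂ, ∀ ξ η : ℂ, ‖ξ‖ ^ 2 + ‖η‖ ^ 2 < 1 →
      ip (F (ξ • ofR X + η • ofR Y)) (ofR X) =
        (ξ * (starRingEnd ℂ) b1 + η * (starRingEnd ℂ) b2) * ξ + (ξ ^ 2 + η ^ 2) * b1 ∧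
      ip (F (ξ • ofR X + η • ofR Y)) (ofR Y) =
        (ξ * (starRingEnd ℂ) b1 + η * (starRingEnd ℂ) b2) * η + (ξ ^ 2 + η ^ 2) * b2 := by
    intro X Y hXY
    obtain ⟨b1, b2, hb⟩ := plane hG h0 h1 hC hXY
    refine ⟨b1, b2, fun ξ η hξ => ?_⟩
    obtain ⟨e1, e2⟩ := hb ξ η hξ
    rw [hF, ip_smul_left', ip_smul_left', qq_plane hXY]
    exact ⟨e1, e2⟩
  -- homogeneity at real points
  have hreal : ∀ x : RV n, ofR x ∈ ball (0 : Cn n) 1 → ∀ t : ℝ, 0 < t → t < 1 →
      F ((t : ℂ) • ofR x) = ((t : ℂ) ^ 2) • F (ofR x) := by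
    intro x hx t ht0 ht1
    by_cases hx0 : x = 0
    · have : ofR x = (0 : Cn n) := by rw [hx0]; ext i; simp [ofR]
      rw [this, smul_zero]
      simp [hF, h0]
    · obtain ⟨X, r, hr, hX, hxX⟩ := exists_unit hx0
      have hr1 : r ^ 2 < 1 := by
        have h2 : ‖ofR x‖ ^ 2 = r ^ 2 := by
          rw [norm_ofR_sq, hxX]
          have : rdot (r • X) (r • X) = r ^ 2 * rdot X X := by
            unfold rdot
            rw [Finset.mul_sum]
            refine Finset.sum_congr rfl fun i _ => ?_
            simp only [Pi.smul_apply, smul_eq_mul]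
            ring
          rw [this, hX, mul_one]
        have h3 : ‖ofR x‖ < 1 := by simpa using hx
        nlinarith [norm_nonneg (ofR x)]
      have hkey : ∀ Y, OPair X Y →
          ip (F ((t : ℂ) • ofR x) - ((t : ℂ) ^ 2) • F (ofR x)) (ofR X) = 0 ∧
          ip (F ((t : ℂ) • ofR x) - ((t : ℂ) ^ 2) • F (ofR x)) (ofR Y) = 0 := by
        intro Y hXY
        obtain ⟨b1, b2, hb⟩ := hpl X Y hXY
        have g1 := hb (r : ℂ) 0 (by
          rw [Complex.norm_real, Real.norm_of_nonneg hr.le]; simpa using hr1)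
        have g2 := hb ((t * r : ℝ) : ℂ) 0 (by
          rw [Complex.norm_real, Real.norm_of_nonneg (by positivity)]
          have : (t * r) ^ 2 < 1 := by
            have : t ^ 2 < 1 := by nlinarith
            calc (t * r) ^ 2 = t ^ 2 * r ^ 2 := by ring
              _ ≤ 1 * r ^ 2 := by gcongr
              _ < 1 := by linarith
          simpa using this)
        rw [zero_smul, add_zero] at g1 g2
        have e1 : (r : ℂ) • ofR X = ofR x := by rw [hxX, ofR_smul]
        have e2 : ((t * r : ℝ) : ℂ) • ofR X = (t : ℂ) • ofR x := by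
          rw [← e1, smul_smul]; push_cast; rfl
        rw [e1] at g1
        rw [e2] at g2
        constructor
        · rw [ip_sub_left', ip_smul_left', g1.1, g2.1]
          push_cast
          ring
        · rw [ip_sub_left', ip_smul_left', g1.2, g2.2]
          push_cast
          ring
      have hYex : ∃ Y, OPair X Y := by
        -- a unit vector orthogonal to `X`
        obtain ⟨X', Y', ξ, η, hXY', hX'⟩ := exists_plane hn (ofR X)
        -- `X = ξ.re X' + η.re Y'`
        have hre : X = ξ.re • X' + η.re • Y' := by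
          funext i
          have h4 := congrArg (fun v : Cn n => (v i).re) hX'
          simpa [ofR] using h4
        refine ⟨(-η.re) • X' + ξ.re • Y', hX, ?_, ?_⟩
        · have h5 : rdot ((-η.re) • X' + ξ.re • Y') ((-η.re) • X' + ξ.re • Y') =
              η.re ^ 2 * rdot X' X' + ξ.re ^ 2 * rdot Y' Y' - 2 * (η.re * ξ.re) * rdot X' Y' := by
            unfold rdot
            rw [Finset.mul_sum, Finset.mul_sum, Finset.mul_sum, ← Finset.sum_add_distrib,
              ← Finset.sum_sub_distrib]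
            refine Finset.sum_congr rfl fun i _ => ?_
            simp only [Pi.add_apply, Pi.smul_apply, smul_eq_mul]
            ring
          have h6 : rdot X X =
              ξ.re ^ 2 * rdot X' X' + η.re ^ 2 * rdot Y' Y' + 2 * (η.re * ξ.re) * rdot X' Y' := by
            conv_lhs => rw [hre]
            unfold rdot
            rw [Finset.mul_sum, Finset.mul_sum, Finset.mul_sum, ← Finset.sum_add_distrib,
              ← Finset.sum_add_distrib]
            refine Finset.sum_congr rfl fun i _ => ?_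
            simp only [Pi.add_apply, Pi.smul_apply, smul_eq_mul]
            ring
          rw [hXY'.1, hXY'.2.1, hXY'.2.2] at h5 h6
          rw [h5]
          linarith [hX]
        · have h5 : rdot X ((-η.re) • X' + ξ.re • Y') =
              (-(η.re * ξ.re)) * rdot X' X' + (ξ.re * η.re) * rdot Y' Y' +
                (ξ.re ^ 2 - η.re ^ 2) * rdot X' Y' := by
            conv_lhs => rw [hre]
            unfold rdot
            rw [Finset.mul_sum, Finset.mul_sum, Finset.mul_sum, ← Finset.sum_add_distrib,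
              ← Finset.sum_add_distrib]
            refine Finset.sum_congr rfl fun i _ => ?_
            simp only [Pi.add_apply, Pi.smul_apply, smul_eq_mul]
            ring
          rw [hXY'.1, hXY'.2.1, hXY'.2.2] at h5
          rw [h5]
          ring
      obtain ⟨Y0, hY0⟩ := hYex
      have hz := zero_of_ip hX (hkey Y0 hY0).1 (fun Y hY => (hkey Y hY).2)
      exact sub_eq_zero.1 hz
  have hhom : ∀ z ∈ ball (0 : Cn n) 1, ∀ t : ℝ, 0 < t → t < 1 →
      F ((t : ℂ) • z) = ((t : ℂ) ^ 2) • F z := by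
    intro z hz t ht0 ht1
    have hmaps : ∀ z ∈ ball (0 : Cn n) 1, (t : ℂ) • z ∈ ball (0 : Cn n) 1 := by
      intro z hz
      rw [mem_ball_zero_iff] at hz ⊢
      rw [norm_smul, Complex.norm_real, Real.norm_of_nonneg ht0.le]
      nlinarith [norm_nonneg z]
    have := real_zero (F := fun z => F ((t : ℂ) • z) - ((t : ℂ) ^ 2) • F z)
      (by
        refine DifferentiableOn.sub ?_ ((hFd.const_smul ((t : ℂ) ^ 2)).congr fun _ _ => rfl)
        refine hFd.comp (t := ball 0 1) ?_ (fun z hz => hmaps z hz)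
        exact (differentiable_id.const_smul (t : ℂ)).differentiableOn)
      (fun x hx => by rw [hreal x hx t ht0 ht1, sub_self]) z hz
    exact sub_eq_zero.1 this
  obtain ⟨B, hBs, hB⟩ := quad_hom hFd hhom
  obtain ⟨l, J, hJ, hlJ⟩ := struct_alg hn B hBs (by
    intro X Y hXY
    obtain ⟨b1, b2, hb⟩ := hpl X Y hXY
    refine ⟨b1, b2, fun ξ η hξ => ?_⟩
    have hmem : ξ • ofR X + η • ofR Y ∈ ball (0 : Cn n) 1 := by
      rw [mem_ball_zero_iff]
      have := norm_plane hXY ξ η
      nlinarith [norm_nonneg (ξ • ofR X + η • ofR Y)]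
    rw [← hB _ hmem]
    exact hb ξ η hξ)
  refine ⟨l, J, hJ, fun z hz => ?_⟩
  rw [← hlJ z, ← hB z hz, hF, smul_smul, one_div, inv_mul_cancel₀ (one_sub_qq_ne hz), one_smul]

end Pool.Agent.P1ae5
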