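import Mathlib

/-!
Definitions used in the statements of the results on MP_1ae5d5_an, for a general complex inner
product space `E` (applied with `E = EuclideanSpace ℂ (Fin n)`).
-/

open Metric

namespace Pool.Agent.P1ae5.St

variable {E : Type} [NormedAddCommGroup E] [InnerProductSpace ℂ E]

/-- the scalar product of the problem, linear in the first variable: `<z,w> = sum z_j conj w_j` -/
noncomputable def sp (z w : E) : ℂ := inner ℂ w z

/-- `Re <Az,z> > 0` for all nonzero `z`, i.e. `m(A) > 0` -/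
def IsPos (A : E →L[ℂ] E) : Prop := ∀ z : E, z ≠ 0 → 0 < (sp (A z) z).re

/-- The family `N_A`: holomorphic maps `h` of the open unit ball with `h 0 = 0`, `Dh(0) = A` and
`Re <h z, z> > 0` for `z` in the ball, `z` nonzero. Only the values on the ball matter. -/
def FamN (A : E →L[ℂ] E) : Set (E → E) :=
  {h | DifferentiableOn ℂ h (ball 0 1) ∧ h 0 = 0 ∧ fderiv ℂ h 0 = A ∧
    ∀ z ∈ ball (0 : E) 1, z ≠ 0 → 0 < (sp (h z) z).re}

/-- `h = t g₁ + (1-t) g₂` on the unit ball -/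
def IsComb (t : ℝ) (h g₁ g₂ : E → E) : Prop :=
  ∀ z ∈ ball (0 : E) 1, h z = (t : ℂ) • g₁ z + ((1 - t : ℝ) : ℂ) • g₂ z

/-- `h` is an extreme point of `N_A` (as an element of `H(B)`) -/
def IsExtr (A : E →L[ℂ] E) (h : E → E) : Prop :=
  h ∈ FamN A ∧ ∀ g₁ ∈ FamN A, ∀ g₂ ∈ FamN A, ∀ t : ℝ, 0 < t → t < 1 → IsComb t h g₁ g₂ →
    ∀ z ∈ ball (0 : E) 1, g₁ z = h z ∧ g₂ z = h z

/-- continuous complex linear functionals on the space `H(B)` of holomorphic maps of the ball with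
the topology of locally uniform convergence: linear and bounded by the sup norm over some compact
subset of the ball -/
def IsFunc (Λ : (E → E) → ℂ) : Prop :=
  (∀ f g : E → E, DifferentiableOn ℂ f (ball 0 1) → DifferentiableOn ℂ g (ball 0 1) →
    Λ (f + g) = Λ f + Λ g) ∧
  (∀ (c : ℂ) (f : E → E), DifferentiableOn ℂ f (ball 0 1) → Λ (c • f) = c * Λ f) ∧
  ∃ K : Set E, K ⊆ ball 0 1 ∧ IsCompact K ∧ ∃ C : ℝ, ∀ f : E → E,
    DifferentiableOn ℂ f (ball 0 1) → ∀ M : ℝ, 0 ≤ M → (∀ z ∈ K, ‖f z‖ ≤ M) → ‖Λ f‖ ≤ C * M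

/-- `h` is a support point of `N_A` -/
def IsSupp (A : E →L[ℂ] E) (h : E → E) : Prop :=
  h ∈ FamN A ∧ ∃ Λ : (E → E) → ℂ, IsFunc Λ ∧
    (∃ g ∈ FamN A, (Λ g).re ≠ (Λ h).re) ∧ ∀ g ∈ FamN A, (Λ g).re ≤ (Λ h).re

/-- `D z`, `D = (A + A^*)/2` the Hermitian part of `A` -/
noncomputable def hp [CompleteSpace E] (A : E →L[ℂ] E) (z : E) : E :=
  (1 / 2 : ℂ) • (A z + ContinuousLinearMap.adjoint A z)

/-- the scalar multiple `p(z) D z + (A - D) z` -/
noncomputable def scalarMap [CompleteSpace E] (A : E →L[ℂ] E) (p : E → ℂ) (z : E) : E :=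
  p z • hp A z + (A z - hp A z)

/-- the quadratic form `q(z) = 2 <z,e> <z,f>` -/
noncomputable def q2 (e f z : E) : ℂ := 2 * sp z e * sp z f

/-- the maps `H_b(z) = (1+q)/(1-q) D z + (<z,b> z + q b)/(1-q) + (A-D) z`,
`q(z) = 2 <z,e><z,f>` -/
noncomputable def HH [CompleteSpace E] (A : E →L[ℂ] E) (e f b : E) (z : E) : E :=
  ((1 + q2 e f z) / (1 - q2 e f z)) • hp A z + (sp z b / (1 - q2 e f z)) • z +
    (q2 e f z / (1 - q2 e f z)) • b + (A z - hp A z)

/-- the convex body `B_A = {b : |<z,b>| ≤ Re <Az,z> for all unit vectors z}` -/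
def Body (A : E →L[ℂ] E) : Set E :=
  {b | ∀ z : E, ‖z‖ = 1 → ‖sp z b‖ ≤ (sp (A z) z).re}

/-- `e, f` is an orthonormal pair -/
def IsOrtho (e f : E) : Prop := ‖e‖ = 1 ∧ ‖f‖ = 1 ∧ sp e f = 0

end Pool.Agent.P1ae5.St
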