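import Pool.Agent.Lib.P1ae5.Defs
import Pool.Agent.Lib.P1ae5.Stmt

/-! Translation between the two sets of definitions. -/

open Metric

namespace Pool.Agent.P1ae5

theorem famN_eq {n : ℕ} (A : Cn n →L[ℂ] Cn n) : St.FamN A = NA A := rfl

theorem hp_eq {n : ℕ} (A : Cn n →L[ℂ] Cn n) (z : Cn n) : St.hp A z = herm A z := rfl

theorem isExtr_iff {n : ℕ} (A : Cn n →L[ℂ] Cn n) (h : Cn n → Cn n) :
    St.IsExtr A h ↔ IsExtreme A h := Iff.rfl

theorem isSupp_iff {n : ℕ} (A : Cn n →L[ℂ] Cn n) (h : Cn n → Cn n) :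
    St.IsSupp A h ↔ IsSupport A h := Iff.rfl

theorem HH_eq (A : Cn 2 →L[ℂ] Cn 2) (e f b : Cn 2) : St.HH A e f b = Hb A e f b := rfl

theorem body_eq {n : ℕ} (A : Cn n →L[ℂ] Cn n) : St.Body A = BA A := rfl

theorem scalarMap_eq {n : ℕ} (A : Cn n →L[ℂ] Cn n) (p : Cn n → ℂ) :
    St.scalarMap A p = fun z => p z • herm A z + (A z - herm A z) := rfl

end Pool.Agent.P1ae5
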