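import Mathlib

/-!
Extreme points and support points of the family `N_A` of holomorphic maps of the unit ball of
`C^n` (problem MP_1ae5d5_an): definitions.
-/

open Metric

namespace Pool.Agent.P1ae5

/-- `C^n` with the Euclidean norm -/
abbrev Cn (n : ℕ) := EuclideanSpace ℂ (Fin n)

/-- the scalar product of the problem, `ip z w = sum_j z_j conj (w_j)` -/
noncomputable def ip {n : ℕ} (z w : Cn n) : ℂ := inner ℂ w z

/-- The family `N_A`: holomorphic maps `h` of the open unit ball with `h 0 = 0`, `Dh(0) = A` and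
`Re <h z, z> > 0` for `z` in the ball, `z` nonzero. Only the values on the ball matter. -/
def NA {n : ℕ} (A : Cn n →L[ℂ] Cn n) : Set (Cn n → Cn n) :=
  {h | DifferentiableOn ℂ h (ball 0 1) ∧ h 0 = 0 ∧ fderiv ℂ h 0 = A ∧
    ∀ z ∈ ball (0 : Cn n) 1, z ≠ 0 → 0 < (ip (h z) z).re}

/-- `h` is an extreme point of `N_A` (as an element of `H(B^n)`): `h` is in `N_A` and
`h = t g₁ + (1 - t) g₂` on the ball with `0 < t < 1` and `g₁, g₂` in `N_A` forces
`g₁ = g₂ = h` on the ball. -/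
def IsExtreme {n : ℕ} (A : Cn n →L[ℂ] Cn n) (h : Cn n → Cn n) : Prop :=
  h ∈ NA A ∧ ∀ g₁ ∈ NA A, ∀ g₂ ∈ NA A, ∀ t : ℝ, 0 < t → t < 1 →
    (∀ z ∈ ball (0 : Cn n) 1, h z = (t : ℂ) • g₁ z + ((1 - t : ℝ) : ℂ) • g₂ z) →
    ∀ z ∈ ball (0 : Cn n) 1, g₁ z = h z ∧ g₂ z = h z

/-- continuous (complex) linear functionals on the space `H(B^n)` of holomorphic maps of the ball
with the topology of locally uniform convergence: linear and bounded by the sup norm over some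
compact subset of the ball. -/
def IsFunctional {n : ℕ} (Λ : (Cn n → Cn n) → ℂ) : Prop :=
  (∀ f g : Cn n → Cn n, DifferentiableOn ℂ f (ball 0 1) → DifferentiableOn ℂ g (ball 0 1) →
    Λ (f + g) = Λ f + Λ g) ∧
  (∀ (c : ℂ) (f : Cn n → Cn n), DifferentiableOn ℂ f (ball 0 1) → Λ (c • f) = c * Λ f) ∧
  ∃ K : Set (Cn n), K ⊆ ball 0 1 ∧ IsCompact K ∧ ∃ C : ℝ, ∀ f : Cn n → Cn n,
    DifferentiableOn ℂ f (ball 0 1) → ∀ M : ℝ, 0 ≤ M → (∀ z ∈ K, ‖f z‖ ≤ M) → ‖Λ f‖ ≤ C * M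

/-- `h` is a support point of `N_A`: some continuous linear functional whose real part is not
constant on `N_A` has real part maximal over `N_A` at `h`. -/
def IsSupport {n : ℕ} (A : Cn n →L[ℂ] Cn n) (h : Cn n → Cn n) : Prop :=
  h ∈ NA A ∧ ∃ Λ : (Cn n → Cn n) → ℂ, IsFunctional Λ ∧
    (∃ g ∈ NA A, (Λ g).re ≠ (Λ h).re) ∧ ∀ g ∈ NA A, (Λ g).re ≤ (Λ h).re

/-- the Hermitian part `(A + A^*)/2` of `A` -/
noncomputable def herm {n : ℕ} (A : Cn n →L[ℂ] Cn n) : Cn n →L[ℂ] Cn n :=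
  (1 / 2 : ℂ) • (A + ContinuousLinearMap.adjoint A)

/-- the quadratic form `q(z) = 2 <z,e> <z,f>` -/
noncomputable def qf {n : ℕ} (e f z : Cn n) : ℂ := 2 * ip z e * ip z f

/-- the maps `H_b(z) = (1+q)/(1-q) D z + (<z,b> z + q b)/(1-q) + (A-D) z`, `D` the Hermitian part
of `A` and `q(z) = 2 <z,e><z,f>` -/
noncomputable def Hb {n : ℕ} (A : Cn n →L[ℂ] Cn n) (e f b : Cn n) (z : Cn n) : Cn n :=
  ((1 + qf e f z) / (1 - qf e f z)) • herm A z + (ip z b / (1 - qf e f z)) • z +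
    (qf e f z / (1 - qf e f z)) • b + (A z - herm A z)

/-- the convex body `B_A = {b : |<z,b>| <= Re <Az,z> for all unit vectors z}` -/
def BA {n : ℕ} (A : Cn n →L[ℂ] Cn n) : Set (Cn n) :=
  {b | ∀ z : Cn n, ‖z‖ = 1 → ‖ip z b‖ ≤ (ip (A z) z).re}

end Pool.Agent.P1ae5
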