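import Pool.Agent.Lib.P1ae5.Defs

/-!
MODULE P1ae5.Exposed (1.2 h). Explicit extreme points of the convex body
`BA A = {b : |<z,b>| ≤ Re <Az,z> for unit z}` when `Re <Az,z> < 2 Re <Aw,w>` for all unit `z, w`.

PROOF. `D = herm A`, `<Dz,z> = Re <Az,z> =: δ(z)` (real), `D` self-adjoint. Let `‖ζ‖ = 1`,
`d = δ(ζ)`, `b = 2 D ζ - d ζ`.
(1) for unit `z`: `δ(z) - Re <z,b> = <D(z-ζ),(z-ζ)> - (d/2) ‖z-ζ‖^2 ≥ 0` (expand; the first term is
`‖z-ζ‖^2 δ(unit)`, and `d < 2 δ(unit)` by hypothesis). Replace `z` by `ω z`, `|ω| = 1`: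
`|<z,b>| ≤ δ(z)`; so `b ∈ BA A`. Also `Re <ζ,b> = d`.
(2) let `b = s b1 + (1-s) b2` with `b1, b2 ∈ BA A`, `0 < s < 1`. Then `Re <ζ,b1> ≤ d`,
`Re <ζ,b2> ≤ d` and the combination is `d`, so `Re <ζ,b1> = d`. The function
`F(z) = δ(z) - ‖z‖ Re <z,b1>` is `≥ 0` for all `z` and `F(ζ) = 0`; for every `v` and real `t`,
`F(ζ + t v) ≥ 0`; its derivative at `t = 0` vanishes:
`2 Re <D ζ, v> - Re <ζ,v> d - Re <v, b1> = 0` (`d/dt ‖ζ+tv‖ = Re <ζ,v>`), so
`Re <v, 2Dζ - dζ - b1> = 0` for all `v`, i.e. `b1 = b`. (To avoid differentiating the norm: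
`Re <z,b1> ‖z‖ ≤ δ(z)` gives `(Re <z,b1>)^2 ≤ ...`; or use `‖z‖ ≤ (1 + ‖z‖^2)/2` when
`Re <z, b1> ≥ 0`: `F2(z) = δ(z) - ((1+‖z‖^2)/2) Re <z,b1>` is NOT nonneg, so rather use
`‖ζ + t v‖ ≥ 1 + t Re <ζ,v>` for the lower bound on the norm and `Re <ζ + t v, b1> > 0` for small
`t`: `(1 + t Re <ζ,v>) Re <ζ + t v, b1> ≤ δ(ζ + t v)`, both sides polynomials in `t`, equal at
`t = 0`, for all small `t` of both signs, so the linear coefficients agree.)
-/

open Metric

namespace Pool.Agent.P1ae5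

namespace ExposedAux

variable {n : ℕ}

/-- the real bilinear form of the Hermitian part -/
noncomputable def bf (A : Cn n →L[ℂ] Cn n) (x y : Cn n) : ℝ := (inner ℂ (herm A x) y).re

/-- the real scalar product -/
noncomputable def rp (x y : Cn n) : ℝ := (inner ℂ x y : ℂ).re

lemma rp_comm (x y : Cn n) : rp x y = rp y x := by
  unfold rp
  rw [← inner_conj_symm, Complex.conj_re]

lemma rp_add_left (x y z : Cn n) : rp (x + y) z = rp x z + rp y z := by
  unfold rp
  rw [inner_add_left, Complex.add_re]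

lemma rp_add_right (x y z : Cn n) : rp x (y + z) = rp x y + rp x z := by
  unfold rp
  rw [inner_add_right, Complex.add_re]

lemma rp_sub_left (x y z : Cn n) : rp (x - y) z = rp x z - rp y z := by
  unfold rp
  rw [inner_sub_left, Complex.sub_re]

lemma rp_sub_right (x y z : Cn n) : rp x (y - z) = rp x y - rp x z := by
  unfold rp
  rw [inner_sub_right, Complex.sub_re]

lemma rp_smul_left (t : ℝ) (x z : Cn n) : rp ((t : ℂ) • x) z = t * rp x z := by
  unfold rp
  rw [inner_smul_left, Complex.conj_ofReal, Complex.re_ofReal_mul]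

lemma rp_smul_right (t : ℝ) (x z : Cn n) : rp x ((t : ℂ) • z) = t * rp x z := by
  unfold rp
  rw [inner_smul_right, Complex.re_ofReal_mul]

lemma rp_self (x : Cn n) : rp x x = ‖x‖ ^ 2 := by
  unfold rp
  rw [inner_self_eq_norm_sq_to_K]
  norm_cast

lemma bf_eq (A : Cn n →L[ℂ] Cn n) (x y : Cn n) : bf A x y = rp (herm A x) y := rfl

lemma herm_symm (A : Cn n →L[ℂ] Cn n) (x y : Cn n) :
    inner ℂ (herm A x) y = inner ℂ x (herm A y) := by
  unfold herm
  simp only [ContinuousLinearMap.smul_apply, ContinuousLinearMap.add_apply, inner_smul_left,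
    inner_smul_right, inner_add_left, inner_add_right, ContinuousLinearMap.adjoint_inner_left,
    ContinuousLinearMap.adjoint_inner_right]
  have : (starRingEnd ℂ) (1 / 2 : ℂ) = 1 / 2 := by
    rw [map_div₀, map_one, Complex.conj_ofNat]
  rw [this]
  ring

lemma bf_comm (A : Cn n →L[ℂ] Cn n) (x y : Cn n) : bf A x y = bf A y x := by
  unfold bf
  rw [herm_symm, ← inner_conj_symm, Complex.conj_re]

lemma bf_self (A : Cn n →L[ℂ] Cn n) (x : Cn n) : bf A x x = (ip (A x) x).re := by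
  unfold bf ip herm
  simp only [ContinuousLinearMap.smul_apply, ContinuousLinearMap.add_apply, inner_smul_left,
    inner_add_left, ContinuousLinearMap.adjoint_inner_left]
  have : (starRingEnd ℂ) (1 / 2 : ℂ) = ((1 / 2 : ℝ) : ℂ) := by
    rw [map_div₀, map_one, Complex.conj_ofNat]
    push_cast
    rfl
  rw [this, Complex.re_ofReal_mul, Complex.add_re]
  have h2 : (inner ℂ (A x) x : ℂ).re = (inner ℂ x (A x) : ℂ).re := by
    rw [← inner_conj_symm, Complex.conj_re]
  rw [h2]
  ring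

lemma bf_add_right (A : Cn n →L[ℂ] Cn n) (x y z : Cn n) :
    bf A x (y + z) = bf A x y + bf A x z := rp_add_right _ _ _

lemma bf_sub_right (A : Cn n →L[ℂ] Cn n) (x y z : Cn n) :
    bf A x (y - z) = bf A x y - bf A x z := rp_sub_right _ _ _

lemma bf_smul_right (A : Cn n →L[ℂ] Cn n) (t : ℝ) (x z : Cn n) :
    bf A x ((t : ℂ) • z) = t * bf A x z := rp_smul_right _ _ _

lemma bf_add_left (A : Cn n →L[ℂ] Cn n) (x y z : Cn n) :
    bf A (x + y) z = bf A x z + bf A y z := by
  rw [bf_comm, bf_add_right, bf_comm A z x, bf_comm A z y]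

lemma bf_sub_left (A : Cn n →L[ℂ] Cn n) (x y z : Cn n) :
    bf A (x - y) z = bf A x z - bf A y z := by
  rw [bf_comm, bf_sub_right, bf_comm A z x, bf_comm A z y]

lemma bf_smul_left (A : Cn n →L[ℂ] Cn n) (t : ℝ) (x z : Cn n) :
    bf A ((t : ℂ) • x) z = t * bf A x z := by
  rw [bf_comm, bf_smul_right, bf_comm]

/-- the form on arbitrary vectors, from the unit vectors -/
lemma bf_lower {A : Cn n →L[ℂ] Cn n} {d : ℝ}
    (h : ∀ w : Cn n, ‖w‖ = 1 → d ≤ (ip (A w) w).re) (w : Cn n) :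
    d * ‖w‖ ^ 2 ≤ bf A w w := by
  rcases eq_or_ne w 0 with rfl | hw
  · simp [bf]
  · have hn : 0 < ‖w‖ := norm_pos_iff.2 hw
    have h1 := h (((‖w‖⁻¹ : ℝ) : ℂ) • w) (by
      rw [norm_smul, Complex.norm_real, norm_inv, norm_norm, inv_mul_cancel₀ hn.ne'])
    rw [← bf_self, bf_smul_left, bf_smul_right] at h1
    have h2 : ‖w‖⁻¹ * (‖w‖⁻¹ * bf A w w) = bf A w w / ‖w‖ ^ 2 := by
      field_simp
    rw [h2, le_div_iff₀ (by positivity)] at h1
    exact h1

/-- `ip z b` in terms of the real form -/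
lemma re_ip (z b : Cn n) : (ip z b).re = rp b z := rfl

lemma lin_zero {c e r : ℝ} (hr : 0 < r) (h : ∀ t : ℝ, |t| ≤ r → 0 ≤ t * c + t ^ 2 * e) :
    c = 0 := by
  by_contra hc
  set t : ℝ := min r (|c| / (2 * (|e| + 1))) with ht
  have hc' : 0 < |c| := abs_pos.2 hc
  have ht0 : 0 < t := lt_min hr (by positivity)
  have ht1 : t ≤ r := min_le_left _ _
  have ht2 : t * (2 * (|e| + 1)) ≤ |c| := by
    rw [← le_div_iff₀ (by positivity)]
    exact min_le_right _ _
  have key : t ^ 2 * e < t * |c| := by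
    have h1 : t * e < |c| := by
      have h2 : t * e ≤ t * |e| := mul_le_mul_of_nonneg_left (le_abs_self e) ht0.le
      have h3 : 0 ≤ t * |e| := by positivity
      nlinarith
    nlinarith
  rcases lt_or_gt_of_ne hc with hneg | hpos
  · have h1 := h t (by rw [abs_of_pos ht0]; exact ht1)
    rw [abs_of_neg hneg] at key
    nlinarith
  · have h1 := h (-t) (by rw [abs_neg, abs_of_pos ht0]; exact ht1)
    rw [abs_of_pos hpos] at key
    nlinarith

end ExposedAux

open ExposedAux in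
theorem exposed_mem {n : ℕ} {A : Cn n →L[ℂ] Cn n}
    (h2 : ∀ z w : Cn n, ‖z‖ = 1 → ‖w‖ = 1 → (ip (A z) z).re < 2 * (ip (A w) w).re)
    {ζ : Cn n} (hζ : ‖ζ‖ = 1) :
    (2 : ℂ) • herm A ζ - (((ip (A ζ) ζ).re : ℝ) : ℂ) • ζ ∈ (BA A).extremePoints ℝ := by
  set d : ℝ := (ip (A ζ) ζ).re with hd
  set b : Cn n := (2 : ℂ) • herm A ζ - (d : ℂ) • ζ with hb
  have hζ2 : rp ζ ζ = 1 := by rw [rp_self, hζ]; norm_num
  have hdB : bf A ζ ζ = d := bf_self A ζ
  have hdpos : 0 < d := by
    have := h2 ζ ζ hζ hζ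
    linarith
  have hbz : ∀ z, rp b z = 2 * bf A ζ z - d * rp ζ z := by
    intro z
    have h3 : ((2 : ℂ)) = ((2 : ℝ) : ℂ) := by norm_num
    rw [hb, h3, rp_sub_left, rp_smul_left, rp_smul_left, bf_eq]
  have hquad : ∀ w : Cn n, d / 2 * ‖w‖ ^ 2 ≤ bf A w w := fun w =>
    bf_lower (fun w hw => by
      have := h2 ζ w hζ hw
      linarith) w
  -- real part bound on the unit sphere
  have hreal : ∀ z : Cn n, ‖z‖ = 1 → rp b z ≤ bf A z z := by
    intro z hz
    have h3 := hquad (z - ζ)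
    have h4 : ‖z - ζ‖ ^ 2 = 2 - 2 * rp ζ z := by
      rw [← rp_self, rp_sub_left, rp_sub_right, rp_sub_right, hζ2, rp_self, hz, rp_comm z ζ]
      ring
    rw [h4, bf_sub_left, bf_sub_right, bf_sub_right, hdB, bf_comm A z ζ] at h3
    rw [hbz]
    linarith
  have hmem : b ∈ BA A := by
    intro z hz
    rw [← bf_self]
    rcases eq_or_ne (ip z b) 0 with h0 | h0
    · rw [h0, norm_zero]
      have := hquad z
      have h5 : 0 ≤ d / 2 * ‖z‖ ^ 2 := by positivity
      linarith
    · set ω : ℂ := (starRingEnd ℂ) (ip z b) / (‖ip z b‖ : ℂ) with hω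
      have hn : (‖ip z b‖ : ℂ) ≠ 0 := by
        rw [Ne, Complex.ofReal_eq_zero, norm_eq_zero]
        exact h0
      have hωn : ‖ω‖ = 1 := by
        rw [hω, norm_div, RCLike.norm_conj, Complex.norm_real, norm_norm,
          div_self (norm_ne_zero_iff.2 h0)]
      have h5 := hreal (ω • z) (by rw [norm_smul, hωn, hz, one_mul])
      have h6 : rp b (ω • z) = ‖ip z b‖ := by
        unfold rp
        rw [inner_smul_right]
        have h7 : (inner ℂ b z : ℂ) = ip z b := rfl
        rw [h7, hω, div_mul_eq_mul_div, ← Complex.normSq_eq_conj_mul_self, Complex.normSq_eq_norm_sq]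
        rw [← Complex.ofReal_div, Complex.ofReal_re]
        rw [pow_two, mul_div_assoc, div_self (norm_ne_zero_iff.2 h0), mul_one]
      have h8 : bf A (ω • z) (ω • z) = bf A z z := by
        unfold bf
        rw [map_smul, inner_smul_left, inner_smul_right, ← mul_assoc,
          ← Complex.normSq_eq_conj_mul_self, Complex.normSq_eq_norm_sq, hωn]
        norm_num
      rw [h6, h8] at h5
      exact h5
  rw [mem_extremePoints_iff_left]
  refine ⟨hmem, fun b1 hb1 b2 hb2 hseg => ?_⟩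
  obtain ⟨s, t, hs, ht, hst, hsum⟩ := hseg
  have hb1r : ∀ z : Cn n, ‖z‖ = 1 → rp b1 z ≤ bf A z z := fun z hz => by
    have h3 := hb1 z hz
    rw [bf_self, ← re_ip]
    exact (Complex.re_le_norm _).trans h3
  have hb2r : ∀ z : Cn n, ‖z‖ = 1 → rp b2 z ≤ bf A z z := fun z hz => by
    have h3 := hb2 z hz
    rw [bf_self, ← re_ip]
    exact (Complex.re_le_norm _).trans h3
  have hL1 : rp b1 ζ = d := by
    have h3 := hb1r ζ hζ
    have h4 := hb2r ζ hζ
    rw [hdB] at h3 h4
    have h5 : rp b ζ = d := by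
      rw [hbz, hdB, hζ2]
      ring
    have h6 : rp b ζ = s * rp b1 ζ + t * rp b2 ζ := by
      rw [← hsum, rp_add_left]
      have e1 : s • b1 = ((s : ℝ) : ℂ) • b1 := (Complex.coe_smul s b1).symm
      have e2 : t • b2 = ((t : ℝ) : ℂ) • b2 := (Complex.coe_smul t b2).symm
      rw [e1, e2, rp_smul_left, rp_smul_left]
    have h7 : t * rp b2 ζ ≤ t * d := mul_le_mul_of_nonneg_left h4 ht.le
    have h8 : s * d ≤ s * rp b1 ζ := by
      have : (s + t) * d = d := by rw [hst, one_mul]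
      nlinarith
    exact le_antisymm h3 (le_of_mul_le_mul_left h8 hs)
  -- all vectors
  have hall : ∀ z : Cn n, ‖z‖ * rp b1 z ≤ bf A z z := by
    intro z
    rcases eq_or_ne z 0 with rfl | hz
    · simp [bf]
    · have hn : 0 < ‖z‖ := norm_pos_iff.2 hz
      have h3 := hb1r (((‖z‖⁻¹ : ℝ) : ℂ) • z) (by
        rw [norm_smul, Complex.norm_real, norm_inv, norm_norm, inv_mul_cancel₀ hn.ne'])
      rw [rp_smul_right, bf_smul_left, bf_smul_right] at h3
      have h4 : ‖z‖ ^ 2 * (‖z‖⁻¹ * rp b1 z) ≤ ‖z‖ ^ 2 * (‖z‖⁻¹ * (‖z‖⁻¹ * bf A z z)) :=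
        mul_le_mul_of_nonneg_left h3 (by positivity)
      have h5 : ‖z‖ ^ 2 * (‖z‖⁻¹ * rp b1 z) = ‖z‖ * rp b1 z := by
        field_simp
      have h6 : ‖z‖ ^ 2 * (‖z‖⁻¹ * (‖z‖⁻¹ * bf A z z)) = bf A z z := by
        field_simp
      rw [h5, h6] at h4
      exact h4
  -- the derivative
  have hder : ∀ v : Cn n, 2 * bf A ζ v - d * rp ζ v - rp b1 v = 0 := by
    intro v
    have hr : ∃ r > 0, ∀ t : ℝ, |t| ≤ r → 0 ≤ d + t * rp b1 v := by
      refine ⟨d / (|rp b1 v| + 1), by positivity, fun t ht => ?_⟩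
      have h3 : |t * rp b1 v| ≤ d := by
        rw [abs_mul]
        have h4 : |t| * |rp b1 v| ≤ d / (|rp b1 v| + 1) * |rp b1 v| :=
          mul_le_mul_of_nonneg_right ht (abs_nonneg _)
        have h5 : d / (|rp b1 v| + 1) * |rp b1 v| ≤ d := by
          rw [div_mul_eq_mul_div, div_le_iff₀ (by positivity)]
          nlinarith [abs_nonneg (rp b1 v)]
        linarith
      have := (abs_le.1 h3).1
      linarith
    obtain ⟨r, hr0, hr⟩ := hr
    refine lin_zero (e := bf A v v - rp ζ v * rp b1 v) hr0 fun t ht => ?_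
    set z : Cn n := ζ + (t : ℂ) • v with hz
    have h3 := hall z
    have h4 : rp b1 z = d + t * rp b1 v := by
      rw [hz, rp_add_right, rp_smul_right, hL1]
    have h5 : bf A z z = d + 2 * t * bf A ζ v + t ^ 2 * bf A v v := by
      rw [hz, bf_add_left, bf_add_right, bf_add_right, bf_smul_left, bf_smul_left, bf_smul_right,
        bf_smul_right, hdB, bf_comm A v ζ]
      ring
    have h6 : 1 + t * rp ζ v ≤ ‖z‖ := by
      have h7 : rp ζ z = 1 + t * rp ζ v := by
        rw [hz, rp_add_right, rp_smul_right, hζ2]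
      rw [← h7]
      have h8 : rp ζ z ≤ ‖ζ‖ * ‖z‖ := by
        unfold rp
        exact (Complex.re_le_norm _).trans (norm_inner_le_norm ζ z)
      rw [hζ, one_mul] at h8
      exact h8
    have h7 : (1 + t * rp ζ v) * rp b1 z ≤ ‖z‖ * rp b1 z := by
      refine mul_le_mul_of_nonneg_right h6 ?_
      rw [h4]
      exact hr t ht
    rw [h4] at h7 h3
    rw [h5] at h3
    nlinarith
  have hfin : rp (b - b1) (b - b1) = 0 := by
    rw [rp_sub_left, hbz]
    have := hder (b - b1)
    linarith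
  rw [rp_self, sq_eq_zero_iff, norm_eq_zero, sub_eq_zero] at hfin
  exact hfin.symm

/-- for `A = 1` the body is the closed unit ball and its extreme points are the unit vectors
(strict convexity; Mathlib has `StrictConvexSpace`, `extremePoints_closedBall` may exist) -/
theorem extreme_BA_one (b : Cn 2) :
    b ∈ (BA (ContinuousLinearMap.id ℂ (Cn 2))).extremePoints ℝ ↔ ‖b‖ = 1 := by
  have h1 : BA (ContinuousLinearMap.id ℂ (Cn 2)) = closedBall (0 : Cn 2) 1 := by
    ext c
    rw [mem_closedBall_zero_iff]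
    constructor
    · intro hc
      rcases eq_or_ne c 0 with rfl | h0
      · simp
      · have hn : 0 < ‖c‖ := norm_pos_iff.2 h0
        have h2 := hc (((‖c‖⁻¹ : ℝ) : ℂ) • c) (by
          rw [norm_smul, Complex.norm_real, norm_inv, norm_norm, inv_mul_cancel₀ hn.ne'])
        have h3 : (ip ((ContinuousLinearMap.id ℂ (Cn 2)) (((‖c‖⁻¹ : ℝ) : ℂ) • c))
            (((‖c‖⁻¹ : ℝ) : ℂ) • c)).re = 1 := by
          rw [ContinuousLinearMap.id_apply]
          have := ExposedAux.rp_self (((‖c‖⁻¹ : ℝ) : ℂ) • c)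
          unfold ExposedAux.rp at this
          unfold ip
          rw [this, norm_smul, Complex.norm_real, norm_inv, norm_norm, inv_mul_cancel₀ hn.ne']
          norm_num
        rw [h3] at h2
        have h4 : ‖ip (((‖c‖⁻¹ : ℝ) : ℂ) • c) c‖ = ‖c‖ := by
          unfold ip
          rw [inner_smul_right, inner_self_eq_norm_sq_to_K, norm_mul, Complex.norm_real, norm_inv,
            norm_norm]
          norm_cast
          rw [abs_of_nonneg (by positivity)]
          field_simp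
        rw [h4] at h2
        exact h2
    · intro hc z hz
      have h3 : (ip ((ContinuousLinearMap.id ℂ (Cn 2)) z) z).re = 1 := by
        rw [ContinuousLinearMap.id_apply]
        have := ExposedAux.rp_self z
        unfold ExposedAux.rp at this
        unfold ip
        rw [this, hz]
        norm_num
      rw [h3]
      unfold ip
      refine (norm_inner_le_norm c z).trans ?_
      rw [hz, mul_one]
      exact hc
  rw [h1, StrictConvexSpace.extremePoints_closedBall_eq_sphere, mem_sphere_zero_iff_norm]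

end Pool.Agent.P1ae5
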