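import Pool.Agent.Lib.P1ae5.Stmt

/-! Statement-level definitions for the face theorem in dimension two. -/

open Metric

namespace Pool.Agent.P1ae5.St

variable {E : Type} [NormedAddCommGroup E] [InnerProductSpace ℂ E] [CompleteSpace E]

/-- `{H_b : b ∈ B_A}` is a face of `N_A`: if `H_b = t g₁ + (1-t) g₂` on the ball with
`b ∈ B_A`, `g₁, g₂ ∈ N_A`, `0 < t < 1`, then `g₁ = H_{b₁}`, `g₂ = H_{b₂}` on the ball for some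
`b₁, b₂ ∈ B_A` with `b = t b₁ + (1-t) b₂`. -/
def IsFaceHH (A : E →L[ℂ] E) (e f : E) : Prop :=
  ∀ b ∈ Body A, ∀ g₁ ∈ FamN A, ∀ g₂ ∈ FamN A, ∀ t : ℝ, 0 < t → t < 1 →
    IsComb t (HH A e f b) g₁ g₂ →
    ∃ b₁ ∈ Body A, ∃ b₂ ∈ Body A, b = (t : ℂ) • b₁ + ((1 - t : ℝ) : ℂ) • b₂ ∧
      ∀ z ∈ ball (0 : E) 1, g₁ z = HH A e f b₁ z ∧ g₂ z = HH A e f b₂ z

/-- `b` is an extreme point of the convex body `B_A` -/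
def IsExtrBody (A : E →L[ℂ] E) (b : E) : Prop :=
  b ∈ Body A ∧ ∀ b₁ ∈ Body A, ∀ b₂ ∈ Body A, ∀ t : ℝ, 0 < t → t < 1 →
    b = (t : ℂ) • b₁ + ((1 - t : ℝ) : ℂ) • b₂ → b₁ = b ∧ b₂ = b

/-- `Re <Az,z> < 2 Re <Aw,w>` for all unit vectors `z, w` -/
def IsPinched (A : E →L[ℂ] E) : Prop :=
  ∀ z w : E, ‖z‖ = 1 → ‖w‖ = 1 → (sp (A z) z).re < 2 * (sp (A w) w).re

/-- the point `2 D ζ - <Dζ,ζ> ζ` -/
noncomputable def bpt (A : E →L[ℂ] E) (ζ : E) : E :=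
  (2 : ℂ) • hp A ζ - (((sp (A ζ) ζ).re : ℝ) : ℂ) • ζ

end Pool.Agent.P1ae5.St
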