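import Pool.Agent.Lib.P1ae5.Final
import Pool.Agent.Lib.P1ae5.Bridge
import Pool.Agent.Lib.P1ae5.StmtTwo

/-!
Extreme points of `N_A` in dimension two: an explicitly described face of `N_A`.
-/

open Metric Pool.Agent.P1ae5

namespace Pool.Agent.P1ae5.FaceDimTwo

lemma extrBody_iff (A : Cn 2 →L[ℂ] Cn 2) (b : Cn 2) :
    St.IsExtrBody A b ↔ b ∈ (BA A).extremePoints ℝ := by
  constructor
  · rintro ⟨hb, hx⟩
    refine ⟨hb, ?_⟩
    intro b1 hb1 b2 hb2 hs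
    obtain ⟨s, s', hs0, hs0', hss, rfl⟩ := hs
    have hs' : s' = 1 - s := by linarith
    subst hs'
    refine (hx b1 hb1 b2 hb2 s hs0 (by linarith) ?_).1
    rw [Complex.coe_smul, Complex.coe_smul]
  · intro hb
    refine ⟨hb.1, ?_⟩
    intro b1 hb1 b2 hb2 t ht0 ht1 hbb
    have hseg : b ∈ openSegment ℝ b1 b2 := by
      refine ⟨t, 1 - t, ht0, by linarith, by ring, ?_⟩
      rw [hbb, Complex.coe_smul, Complex.coe_smul]
    refine ⟨hb.2 hb1 hb2 hseg, ?_⟩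
    rw [openSegment_symm] at hseg
    exact hb.2 hb2 hb1 hseg

/-- Let `A` be a linear operator on `C^2` with `Re <Az,z> > 0` for `z ≠ 0`, `D` its Hermitian
part, `(e, f)` an orthonormal basis of `C^2`, `q(z) = 2 <z,e><z,f>` and
`H_b(z) = (1+q)/(1-q) D z + (<z,b> z + q b)/(1-q) + (A - D) z` for `b ∈ C^2`.
(1) `H_b ∈ N_A` iff `b ∈ B_A`, i.e. `|<z,b>| ≤ Re <Az,z>` for all unit vectors `z`.
(2) `{H_b : b ∈ B_A}` is a face of `N_A`.
(3) `H_b` is an extreme point of `N_A` iff `b` is an extreme point of the convex body `B_A`.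
(4) If `Re <Az,z> < 2 Re <Aw,w>` for all unit vectors `z, w`, then `H_b` is an extreme point of
`N_A` for `b = 2 D ζ - <Dζ,ζ> ζ`, for every unit vector `ζ`.
(5) If `A = 1`, then `H_b` is an extreme point of `N_A` iff `‖b‖ = 1`. -/
theorem result (A : EuclideanSpace ℂ (Fin 2) →L[ℂ] EuclideanSpace ℂ (Fin 2)) (hA : St.IsPos A)
    (e f : EuclideanSpace ℂ (Fin 2)) (hef : St.IsOrtho e f) :
    (∀ b, St.HH A e f b ∈ St.FamN A ↔ b ∈ St.Body A) ∧
    St.IsFaceHH A e f ∧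
    (∀ b, St.IsExtr A (St.HH A e f b) ↔ St.IsExtrBody A b) ∧
    (St.IsPinched A → ∀ ζ, ‖ζ‖ = 1 → St.IsExtr A (St.HH A e f (St.bpt A ζ))) ∧
    ((∀ z, A z = z) → ∀ b, St.IsExtr A (St.HH A e f b) ↔ ‖b‖ = 1) := by
  obtain ⟨he, hf, hef⟩ := hef
  refine ⟨fun b => Hb_mem_iff hA he hf hef b, ?_,
    fun b => (main hA he hf hef b).trans (extrBody_iff A b).symm, ?_, ?_⟩
  · intro b _ g₁ hg1 g₂ hg2 t ht0 ht1 h
    obtain ⟨b₁, hb₁, e1⟩ := face hA he hf hef hg1 hg2 ht0 ht1 h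
    obtain ⟨b₂, hb₂, e2⟩ := face hA he hf hef hg2 hg1 (t := 1 - t) (by linarith) (by linarith)
      (fun z hz => by
        have h1 : Hb A e f b z = (t : ℂ) • g₁ z + ((1 - t : ℝ) : ℂ) • g₂ z := h z hz
        rw [h1, add_comm]
        congr 2
        push_cast; ring)
    refine ⟨b₁, hb₁, b₂, hb₂, ?_, fun z hz => ⟨e1 z hz, e2 z hz⟩⟩
    refine Hb_inj A he hf hef fun z hz => ?_
    have h1 : Hb A e f b z = (t : ℂ) • g₁ z + ((1 - t : ℝ) : ℂ) • g₂ z := h z hz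
    rw [h1, e1 z hz, e2 z hz, Hb_affine]
  · intro h2 ζ hζ
    exact (main hA he hf hef _).2 (exposed_mem h2 hζ)
  · intro hA1 b
    have hid : A = ContinuousLinearMap.id ℂ (Cn 2) := by
      ext1 z
      rw [ContinuousLinearMap.id_apply]
      exact hA1 z
    subst hid
    exact (main hA he hf hef b).trans (extreme_BA_one b)

end Pool.Agent.P1ae5.FaceDimTwo
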