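import Pool.Agent.Lib.P1ae5.Key
import Pool.Agent.Lib.P1ae5.Member
import Pool.Agent.Lib.P1ae5.Exposed

/-!
P1ae5.Final: assembly (owner helper48).
-/

open Metric

namespace Pool.Agent.P1ae5

theorem qf_lt_one {e f : Cn 2} (he : ‖e‖ = 1) (hf : ‖f‖ = 1) (hef : ip e f = 0)
    {z : Cn 2} (hz : z ∈ ball (0 : Cn 2) 1) : ‖qf e f z‖ < 1 := by
  have h := norm_qf_le he hf hef z
  have hz' : ‖z‖ < 1 := by simpa using hz
  have : ‖z‖ ^ 2 < 1 := by nlinarith [norm_nonneg z]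
  linarith

theorem ip_sub_left {n : ℕ} (x y z : Cn n) : ip (x - y) z = ip x z - ip y z := by
  unfold ip; exact inner_sub_right _ _ _

theorem ip_add_left {n : ℕ} (x y z : Cn n) : ip (x + y) z = ip x z + ip y z := by
  unfold ip; exact inner_add_right _ _ _

theorem ip_smul_left {n : ℕ} (c : ℂ) (x z : Cn n) : ip (c • x) z = c * ip x z := by
  unfold ip; exact inner_smul_right _ _ _

/-- The face of `N_A` generated by `Hb b`. -/
theorem face {A : Cn 2 →L[ℂ] Cn 2} (hA : ∀ z : Cn 2, z ≠ 0 → 0 < (ip (A z) z).re)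
    {e f : Cn 2} (he : ‖e‖ = 1) (hf : ‖f‖ = 1) (hef : ip e f = 0) {b : Cn 2}
    {g₁ g₂ : Cn 2 → Cn 2} (hg1 : g₁ ∈ NA A) (hg2 : g₂ ∈ NA A) {t : ℝ} (ht0 : 0 < t)
    (ht1 : t < 1)
    (h : ∀ z ∈ ball (0 : Cn 2) 1,
      Hb A e f b z = (t : ℂ) • g₁ z + ((1 - t : ℝ) : ℂ) • g₂ z) :
    ∃ b₁ ∈ BA A, ∀ z ∈ ball (0 : Cn 2) 1, g₁ z = Hb A e f b₁ z := by
  obtain ⟨C0, hC0, hd0⟩ := dominated A he hf hef (0 : Cn 2)
  obtain ⟨C, hC, hd⟩ := dominated A he hf hef b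
  -- domination of `g₁`
  have hre : ∀ z ∈ ball (0 : Cn 2) 1, 0 ≤ (ip (g₁ z) z).re ∧
      t * (ip (g₁ z) z).re ≤ (ip (Hb A e f b z) z).re := by
    intro z hz
    have hnn : ∀ g ∈ NA A, 0 ≤ (ip (g z) z).re := by
      intro g hg
      by_cases hz0 : z = 0
      · subst hz0
        rw [hg.2.1]
        simp [ip]
      · exact (hg.2.2.2 z hz hz0).le
    refine ⟨hnn _ hg1, ?_⟩
    rw [h z hz, ip_add_left, ip_smul_left, ip_smul_left, Complex.add_re, Complex.re_ofReal_mul,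
      Complex.re_ofReal_mul]
    have := hnn _ hg2
    nlinarith
  have hH0 := differentiableOn_Hb A he hf hef (0 : Cn 2)
  obtain ⟨b₁, hb₁⟩ := key_lemma he hf hef (G := fun z => g₁ z - Hb A e f 0 z)
    (hg1.1.sub hH0)
    (by
      have : Hb A e f 0 0 = 0 := by simp [Hb, qf, ip]
      simp [hg1.2.1, this])
    (by
      have hball : ball (0 : Cn 2) 1 ∈ nhds (0 : Cn 2) := ball_mem_nhds _ one_pos
      have e1 : fderiv ℂ (fun z => g₁ z - Hb A e f 0 z) 0 =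
          fderiv ℂ g₁ 0 - fderiv ℂ (Hb A e f 0) 0 :=
        fderiv_sub (hg1.1.differentiableAt hball) (hH0.differentiableAt hball)
      rw [e1, hg1.2.2.1, fderiv_Hb A he hf hef, sub_self])
    (C := C / t + C0)
    (by
      intro z hz
      obtain ⟨k1, k2⟩ := hre z hz
      have k3 := hd z hz
      have k4 := hd0 z hz
      have k5 : 0 ≤ ‖1 - qf e f z‖ ^ 2 := by positivity
      have k6 : |(ip (g₁ z - Hb A e f 0 z) z).re| ≤
          (ip (g₁ z) z).re + |(ip (Hb A e f 0 z) z).re| := by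
        rw [ip_sub_left, Complex.sub_re]
        calc |(ip (g₁ z) z).re - (ip (Hb A e f 0 z) z).re|
            ≤ |(ip (g₁ z) z).re| + |(ip (Hb A e f 0 z) z).re| := abs_sub _ _
          _ = _ := by rw [abs_of_nonneg k1]
      have k7 : (ip (g₁ z) z).re ≤ |(ip (Hb A e f b z) z).re| / t := by
        rw [le_div_iff₀ ht0]
        have := le_abs_self (ip (Hb A e f b z) z).re
        nlinarith
      have k8 : (ip (g₁ z) z).re * ‖1 - qf e f z‖ ^ 2 ≤
          C / t * (‖z‖ ^ 2 * (1 - ‖qf e f z‖ ^ 2)) := by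
        calc (ip (g₁ z) z).re * ‖1 - qf e f z‖ ^ 2
            ≤ |(ip (Hb A e f b z) z).re| / t * ‖1 - qf e f z‖ ^ 2 := by gcongr
          _ = (|(ip (Hb A e f b z) z).re| * ‖1 - qf e f z‖ ^ 2) / t := by ring
          _ ≤ (C * (‖z‖ ^ 2 * (1 - ‖qf e f z‖ ^ 2))) / t := by gcongr
          _ = _ := by ring
      calc |(ip (g₁ z - Hb A e f 0 z) z).re| * ‖1 - qf e f z‖ ^ 2
          ≤ ((ip (g₁ z) z).re + |(ip (Hb A e f 0 z) z).re|) * ‖1 - qf e f z‖ ^ 2 := by gcongr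
        _ = (ip (g₁ z) z).re * ‖1 - qf e f z‖ ^ 2 +
            |(ip (Hb A e f 0 z) z).re| * ‖1 - qf e f z‖ ^ 2 := by ring
        _ ≤ _ := by rw [add_mul]; exact add_le_add k8 k4)
  have hEq : ∀ z ∈ ball (0 : Cn 2) 1, g₁ z = Hb A e f b₁ z := by
    intro z hz
    have := hb₁ z hz
    have e2 : g₁ z = Hb A e f 0 z + ((ip z b₁ / (1 - qf e f z)) • z +
        (qf e f z / (1 - qf e f z)) • b₁) := by rw [← this]; abel
    rw [e2]
    unfold Hb
    simp only [ip, inner_zero_left, zero_div, zero_smul, smul_zero, add_zero]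
    abel
  refine ⟨b₁, ?_, hEq⟩
  rw [← Hb_mem_iff hA he hf hef]
  refine ⟨differentiableOn_Hb A he hf hef b₁, ?_, fderiv_Hb A he hf hef b₁, ?_⟩
  · simp [Hb, qf, ip]
  · intro z hz hz0
    rw [← hEq z hz]
    exact hg1.2.2.2 z hz hz0

/-- Main theorem -/
theorem main {A : Cn 2 →L[ℂ] Cn 2} (hA : ∀ z : Cn 2, z ≠ 0 → 0 < (ip (A z) z).re)
    {e f : Cn 2} (he : ‖e‖ = 1) (hf : ‖f‖ = 1) (hef : ip e f = 0) (b : Cn 2) :
    IsExtreme A (Hb A e f b) ↔ b ∈ (BA A).extremePoints ℝ := by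
  constructor
  · rintro ⟨hm, hx⟩
    refine ⟨(Hb_mem_iff hA he hf hef b).1 hm, ?_⟩
    intro b1 hb1 b2 hb2 hs
    obtain ⟨s, s', hs0, hs0', hss, rfl⟩ := hs
    have hs' : s' = 1 - s := by linarith
    subst hs'
    have key := hx _ ((Hb_mem_iff hA he hf hef b1).2 hb1) _
      ((Hb_mem_iff hA he hf hef b2).2 hb2) s hs0 (by linarith)
      (by
        intro z _
        have e0 : s • b1 + (1 - s) • b2 = (s : ℂ) • b1 + ((1 - s : ℝ) : ℂ) • b2 := by
          rw [Complex.coe_smul, Complex.coe_smul]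
        rw [e0]
        exact Hb_affine A e f b1 b2 s z)
    exact Hb_inj A he hf hef fun z hz => (key z hz).1
  · intro hb
    have hbm := (Hb_mem_iff hA he hf hef b).2 hb.1
    refine ⟨hbm, ?_⟩
    intro g₁ hg1 g₂ hg2 t ht0 ht1 h z hz
    obtain ⟨b₁, hb₁, e1⟩ := face hA he hf hef hg1 hg2 ht0 ht1 h
    obtain ⟨b₂, hb₂, e2⟩ := face hA he hf hef hg2 hg1 (t := 1 - t) (by linarith) (by linarith)
      (fun z hz => by
        rw [h z hz, add_comm]
        congr 2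
        push_cast; ring)
    have hbb : b = (t : ℂ) • b₁ + ((1 - t : ℝ) : ℂ) • b₂ := by
      refine Hb_inj A he hf hef fun z hz => ?_
      rw [h z hz, e1 z hz, e2 z hz, Hb_affine]
    have hseg : b ∈ openSegment ℝ b₁ b₂ := by
      refine ⟨t, 1 - t, ht0, by linarith, by ring, ?_⟩
      rw [hbb, Complex.coe_smul, Complex.coe_smul]
    have hx1 : b₁ = b := hb.2 hb₁ hb₂ hseg
    have hx2 : b₂ = b := by
      rw [openSegment_symm] at hseg
      exact hb.2 hb₂ hb₁ hseg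
    rw [e1 z hz, e2 z hz, hx1, hx2]
    exact ⟨rfl, rfl⟩

end Pool.Agent.P1ae5
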