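import Mathlib

/-! Definitions for the algebraic part of the key lemma (black box). -/

namespace Pool.Agent.P1ae5

/-- upper part -/
noncomputable def up (c1 c2 : ℤ → ℤ → ℂ) (j k : ℤ) (r s : ℝ) : ℂ :=
  (r : ℂ) ^ (j + 2) * (s : ℂ) ^ k * c1 (j + 1) k + (r : ℂ) ^ j * (s : ℂ) ^ (k + 2) * c2 j (k + 1)

/-- Fourier coefficient of the real part -/
noncomputable def N2 (c1 c2 : ℤ → ℤ → ℂ) (j k : ℤ) (r s : ℝ) : ℂ :=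
  (up c1 c2 j k r s + (starRingEnd ℂ) (up c1 c2 (-j) (-k) r s)) / 2

/-- the hypotheses of the algebraic key lemma -/
structure KeyHyp (c1 c2 : ℤ → ℤ → ℂ) (C : ℝ) : Prop where
  h01 : ∀ m n : ℤ, (m < 0 ∨ n < 0 ∨ m + n ≤ 1) → c1 m n = 0
  h02 : ∀ m n : ℤ, (m < 0 ∨ n < 0 ∨ m + n ≤ 1) → c2 m n = 0
  h1 : ∀ (j k : ℤ) (r s : ℝ), 0 < r → 0 < s → r ^ 2 + s ^ 2 = 1 → ‖N2 c1 c2 j k r s‖ ≤ C
  h2 : ∀ (j k : ℤ) (r s : ℝ), 0 < r → 0 < s → r ^ 2 + s ^ 2 = 1 →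
      ‖(1 + 4 * (r : ℂ) ^ 2 * (s : ℂ) ^ 2) * N2 c1 c2 j k r s -
        2 * r * s * (N2 c1 c2 (j - 1) (k - 1) r s + N2 c1 c2 (j + 1) (k + 1) r s)‖ ≤
        C * (1 - 4 * r ^ 2 * s ^ 2)

end Pool.Agent.P1ae5
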