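import Pool.Agent.Lib.P1ae5.KeyDefs

/-!
MODULE P1ae5.KeyDiag (1.5 h). Pure algebra and one-variable estimates; all indices are `ℤ`, all
powers are integer powers (zpow).

PROOF of `diag_const`. Put `r^2 = (1+x)/2`, `s^2 = (1-x)/2`, `0 < r, s`, `x ∈ (-1, 1)`,
`τ = 2 r s`, `τ^2 = 1 - x^2`, `1 - 4 r^2 s^2 = x^2`. By `h01, h02`: `up c1 c2 j k r s = 0` if
`j + k ≤ 0`. So for `j + k ≥ 1`, `N2 j k = up j k / 2`.
Fix `d : ℤ` and look at the diagonal `(j, k) = (k + d, k)`. For `2 k + d ≥ 1` let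
`u k = c1 (k+d+1) k / 2^k`, `v k = c2 (k+d) (k+1) / 2^k`, `M k = u k r^2 + v k s^2 =
((u+v) + x (u-v)) / 2`. Then `N2 (k+d) k = r^d τ^k M k / 2` (`r^(k+d) s^k = r^d (r s)^k`).
(1) If `2 (k-1) + d ≥ 1`, `h2` at `(k+d, k)` reads
 `‖r^d τ^k ((2 - x^2) M k - M (k-1) - (1 - x^2) M (k+1)) / 2‖ ≤ C x^2`. For fixed `k, d` and
 `|x| ≤ 1/2` the factor `r^d τ^k` is bounded below, so the second differences of `u + v` and of
 `u - v` vanish (an expression `P0 + P1 x + P2 x^2 + P3 x^3` bounded by `C' x^2` for all small `x`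
 has `P0 = P1 = 0`: `x = 0`, then divide by `x` and let `x → 0`).
 So `u + v` and `u - v` are affine in `k` on `2k + d ≥ 1`.
(2) `h1` at `x = 0` (where `τ = 1`) bounds `u k + v k` for all large `k`, so `u + v` is constant,
 `u k = u + a k`, `v k = v - a k`. `h1` at `x = 1/√k` for large `k` (`τ^k = (1 - 1/k)^(k/2) ≥ 1/2`
 for `k ≥ 2` because `(1 - 1/k)^k ≥ 1/4`; `r^d` is bounded below since `1/2 ≤ r^2 ≤ 1`) bounds
 `(u+v) + x (u - v + 2 a k)`, so `a √k` is bounded and `a = 0`.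
 Hence `u, v` are CONSTANT on `2k + d ≥ 1`. With `(m, n) = (k+d+1, k)` resp. `(k+d, k+1)` this is
 the claim (`m + n ≥ 2` iff `2k + d ≥ 1`).
-/

open Filter Topology

namespace Pool.Agent.P1ae5

namespace KeyDiagAux

noncomputable def uu (c1 : ℤ → ℤ → ℂ) (d k : ℤ) : ℂ := c1 (k + d + 1) k / 2 ^ k

noncomputable def vv (c2 : ℤ → ℤ → ℂ) (d k : ℤ) : ℂ := c2 (k + d) (k + 1) / 2 ^ k

noncomputable def MM (c1 c2 : ℤ → ℤ → ℂ) (d k : ℤ) (x : ℝ) : ℂ :=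
  uu c1 d k * (1 + x) + vv c2 d k * (1 - x)

theorem N2_eq {c1 c2 : ℤ → ℤ → ℂ} {C : ℝ} (h : KeyHyp c1 c2 C) {d k : ℤ} (hk : 1 ≤ 2 * k + d)
    {r s x : ℝ} (hr : 0 < r) (hs : 0 < s) (hrx : r ^ 2 = (1 + x) / 2) (hsx : s ^ 2 = (1 - x) / 2) :
    N2 c1 c2 (k + d) k r s = (r : ℂ) ^ d * (2 * r * s : ℂ) ^ k * MM c1 c2 d k x / 4 := by
  have hr0 : (r : ℂ) ≠ 0 := by exact_mod_cast hr.ne'
  have hs0 : (s : ℂ) ≠ 0 := by exact_mod_cast hs.ne'
  have h2k : (2 : ℂ) ^ k ≠ 0 := zpow_ne_zero _ (by norm_num)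
  have hz : up c1 c2 (-(k + d)) (-k) r s = 0 := by
    unfold up
    rw [h.h01 _ _ (Or.inr (Or.inr (by omega))), h.h02 _ _ (Or.inr (Or.inr (by omega)))]
    ring
  have hrx' : (r : ℂ) ^ 2 = (1 + x) / 2 := by exact_mod_cast congrArg (fun t : ℝ => (t : ℂ)) hrx
  have hsx' : (s : ℂ) ^ 2 = (1 - x) / 2 := by exact_mod_cast congrArg (fun t : ℝ => (t : ℂ)) hsx
  unfold N2
  rw [hz, map_zero, add_zero]
  unfold up MM uu vv
  have e1 : (r : ℂ) ^ (k + d + 2) = (r : ℂ) ^ k * (r : ℂ) ^ d * (r : ℂ) ^ 2 := by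
    rw [zpow_add₀ hr0, zpow_add₀ hr0]
    norm_cast
  have e2 : (s : ℂ) ^ (k + 2) = (s : ℂ) ^ k * (s : ℂ) ^ 2 := by
    rw [zpow_add₀ hs0]
    norm_cast
  have e3 : (r : ℂ) ^ (k + d) = (r : ℂ) ^ k * (r : ℂ) ^ d := zpow_add₀ hr0 _ _
  have e4 : (2 * r * s : ℂ) ^ k = 2 ^ k * (r : ℂ) ^ k * (s : ℂ) ^ k := by
    rw [mul_zpow, mul_zpow]
  rw [e1, e2, e3, e4, hrx', hsx']
  field_simp
  ring

theorem zpow_lower {t : ℝ} (h1 : 1 / 2 ≤ t) (h2 : t ≤ 1) (n : ℤ) :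
    (1 / 2 : ℝ) ^ n.natAbs ≤ t ^ n := by
  have ht : 0 < t := by linarith
  rcases Int.natAbs_eq n with hn | hn
  · conv_rhs => rw [hn]
    rw [zpow_natCast]
    exact pow_le_pow_left₀ (by norm_num) h1 _
  · conv_rhs => rw [hn]
    rw [zpow_neg, zpow_natCast]
    have h3 : (1 / 2 : ℝ) ^ n.natAbs ≤ 1 := pow_le_one₀ (by norm_num) (by norm_num)
    have h4 : t ^ n.natAbs ≤ 1 := pow_le_one₀ ht.le h2
    exact h3.trans ((one_le_inv₀ (pow_pos ht _)).2 h4)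

theorem poly_zero {P0 P1 P2 P3 : ℂ} {K : ℝ}
    (h : ∀ x : ℝ, |x| ≤ 1 / 2 → ‖P0 + x * P1 + x ^ 2 * P2 + x ^ 3 * P3‖ ≤ K * x ^ 2) :
    P0 = 0 ∧ P1 = 0 := by
  have h0 : P0 = 0 := by
    have := h 0 (by norm_num)
    simpa using this
  refine ⟨h0, ?_⟩
  subst h0
  by_contra hP
  have hP1 : 0 < ‖P1‖ := norm_pos_iff.2 hP
  set S := |K| + ‖P2‖ + ‖P3‖ + 1 with hS
  have hS0 : 0 < S := by positivity
  set x := min (1 / 2) (‖P1‖ / (2 * S)) with hx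
  have hx0 : 0 < x := lt_min (by norm_num) (by positivity)
  have hx1 : x ≤ 1 / 2 := min_le_left _ _
  have hx2 : x ≤ ‖P1‖ / (2 * S) := min_le_right _ _
  have h1 := h x (by rw [abs_of_pos hx0]; exact hx1)
  rw [zero_add] at h1
  have hxn : ‖(x : ℂ)‖ = x := by rw [Complex.norm_real, Real.norm_eq_abs, abs_of_pos hx0]
  have h2 : x * ‖P1‖ ≤ ‖(x : ℂ) * P1 + x ^ 2 * P2 + x ^ 3 * P3‖ + x ^ 2 * ‖P2‖ + x ^ 3 * ‖P3‖ := by
    have e1 : (x : ℂ) * P1 = ((x : ℂ) * P1 + x ^ 2 * P2 + x ^ 3 * P3) - x ^ 2 * P2 - x ^ 3 * P3 := by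
      ring
    have e2 : x * ‖P1‖ = ‖(x : ℂ) * P1‖ := by rw [norm_mul, hxn]
    have e3 : x ^ 2 * ‖P2‖ = ‖(x : ℂ) ^ 2 * P2‖ := by rw [norm_mul, norm_pow, hxn]
    have e4 : x ^ 3 * ‖P3‖ = ‖(x : ℂ) ^ 3 * P3‖ := by rw [norm_mul, norm_pow, hxn]
    rw [e2, e3, e4]
    conv_lhs => rw [e1]
    exact (norm_sub_le _ _).trans (add_le_add (norm_sub_le _ _) le_rfl)
  have h3 : x ^ 3 ≤ x ^ 2 := by
    calc x ^ 3 = x ^ 2 * x := by ring
      _ ≤ x ^ 2 * 1 := mul_le_mul_of_nonneg_left (by linarith) (by positivity)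
      _ = _ := mul_one _
  have h4 : x * ‖P1‖ ≤ x * (x * S) := by
    have h5 : x ^ 3 * ‖P3‖ ≤ x ^ 2 * ‖P3‖ := mul_le_mul_of_nonneg_right h3 (norm_nonneg _)
    have h6 : K * x ^ 2 ≤ |K| * x ^ 2 := mul_le_mul_of_nonneg_right (le_abs_self _) (by positivity)
    have h7 : x * (x * S) = |K| * x ^ 2 + x ^ 2 * ‖P2‖ + x ^ 2 * ‖P3‖ + x ^ 2 := by
      rw [hS]
      ring
    rw [h7]
    have h8 : 0 ≤ x ^ 2 := by positivity
    linarith
  have h5 : ‖P1‖ ≤ x * S := le_of_mul_le_mul_left h4 hx0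
  have h6 : x * (2 * S) ≤ ‖P1‖ := (le_div_iff₀ (by positivity)).1 hx2
  linarith

theorem bdd_zero {a b : ℂ} {K : ℝ} (h : ∀ i : ℕ, ‖a + i * b‖ ≤ K) : b = 0 := by
  by_contra hb
  have hb0 : 0 < ‖b‖ := norm_pos_iff.2 hb
  obtain ⟨i, hi⟩ := exists_nat_gt ((K + ‖a‖) / ‖b‖)
  rw [div_lt_iff₀ hb0] at hi
  have h1 : (i : ℝ) * ‖b‖ = ‖(a + i * b) - a‖ := by
    rw [add_sub_cancel_left, norm_mul, Complex.norm_natCast]
  have h2 := norm_sub_le (a + i * b) a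
  have h3 := h i
  linarith

theorem affine {f : ℤ → ℂ} {k0 : ℤ}
    (h : ∀ k, k0 + 1 ≤ k → 2 * f k - f (k - 1) - f (k + 1) = 0) (i : ℕ) :
    f (k0 + i) = f k0 + i * (f (k0 + 1) - f k0) ∧
      f (k0 + i + 1) = f k0 + (i + 1) * (f (k0 + 1) - f k0) := by
  induction i with
  | zero =>
    constructor
    · simp
    · simp
  | succ n ih =>
    have h1 : k0 + ((n + 1 : ℕ) : ℤ) = k0 + n + 1 := by push_cast; ring
    rw [h1]
    refine ⟨by rw [ih.2]; push_cast; ring, ?_⟩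
    have h2 := h (k0 + n + 1) (by omega)
    rw [show k0 + (n : ℤ) + 1 - 1 = k0 + n by ring, ih.1, ih.2] at h2
    push_cast
    linear_combination -h2

/-- the radii -/
theorem exists_rs {x : ℝ} (hx : |x| ≤ 1 / 2) : ∃ r s : ℝ, 0 < r ∧ 0 < s ∧ r ^ 2 = (1 + x) / 2 ∧
    s ^ 2 = (1 - x) / 2 ∧ r ^ 2 + s ^ 2 = 1 ∧ 1 / 2 ≤ r ∧ r ≤ 1 ∧ 1 / 2 ≤ 2 * r * s ∧ 2 * r * s ≤ 1 ∧
    (2 * r * s) ^ 2 = 1 - x ^ 2 := by
  obtain ⟨hx1, hx2⟩ := abs_le.1 hx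
  have h1 : 0 < (1 + x) / 2 := by linarith
  have h2 : 0 < (1 - x) / 2 := by linarith
  have e1 : Real.sqrt ((1 + x) / 2) ^ 2 = (1 + x) / 2 := Real.sq_sqrt h1.le
  have e2 : Real.sqrt ((1 - x) / 2) ^ 2 = (1 - x) / 2 := Real.sq_sqrt h2.le
  have p1 : 0 < Real.sqrt ((1 + x) / 2) := Real.sqrt_pos.2 h1
  have p2 : 0 < Real.sqrt ((1 - x) / 2) := Real.sqrt_pos.2 h2
  set r := Real.sqrt ((1 + x) / 2) with hr
  set s := Real.sqrt ((1 - x) / 2) with hs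
  have e3 : (2 * r * s) ^ 2 = 1 - x ^ 2 := by
    calc (2 * r * s) ^ 2 = 4 * r ^ 2 * s ^ 2 := by ring
      _ = _ := by rw [e1, e2]; ring
  have hxx : x ^ 2 ≤ 1 / 4 := by nlinarith
  refine ⟨r, s, p1, p2, e1, e2, by rw [e1, e2]; ring, ?_, ?_, ?_, ?_, e3⟩
  · refine le_of_sq_le_sq ?_ p1.le
    rw [e1]
    linarith
  · refine le_of_sq_le_sq ?_ zero_le_one
    rw [e1]
    linarith
  · refine le_of_sq_le_sq ?_ (by positivity)
    rw [e3]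
    linarith
  · refine le_of_sq_le_sq ?_ zero_le_one
    rw [e3]
    have := sq_nonneg x
    linarith

theorem norm_pre {r s : ℝ} (hr : 0 < r) (hs : 0 < s) (d k : ℤ) (z : ℂ) :
    ‖(r : ℂ) ^ d * (2 * r * s : ℂ) ^ k * z / 4‖ = r ^ d * (2 * r * s) ^ k * ‖z‖ / 4 := by
  have e1 : (2 * r * s : ℂ) = ((2 * r * s : ℝ) : ℂ) := by push_cast; ring
  rw [e1, norm_div, norm_mul, norm_mul, norm_zpow, norm_zpow, Complex.norm_real, Complex.norm_real,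
    Real.norm_eq_abs, Real.norm_eq_abs, abs_of_pos hr, abs_of_pos (by positivity : 0 < 2 * r * s)]
  norm_num

theorem second_diff {c1 c2 : ℤ → ℤ → ℂ} {C : ℝ} (h : KeyHyp c1 c2 C) {d k : ℤ}
    (hk : 1 ≤ 2 * (k - 1) + d) :
    2 * (uu c1 d k + vv c2 d k) - (uu c1 d (k - 1) + vv c2 d (k - 1)) -
        (uu c1 d (k + 1) + vv c2 d (k + 1)) = 0 ∧
      2 * (uu c1 d k - vv c2 d k) - (uu c1 d (k - 1) - vv c2 d (k - 1)) -
        (uu c1 d (k + 1) - vv c2 d (k + 1)) = 0 := by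
  set c := (1 / 2 : ℝ) ^ d.natAbs * (1 / 2 : ℝ) ^ k.natAbs / 4 with hc
  have hc0 : 0 < c := by positivity
  apply poly_zero (P2 := (uu c1 d (k + 1) + vv c2 d (k + 1)) - (uu c1 d k + vv c2 d k))
    (P3 := (uu c1 d (k + 1) - vv c2 d (k + 1)) - (uu c1 d k - vv c2 d k)) (K := C / c)
  intro x hx
  obtain ⟨r, s, hr, hs, hrx, hsx, hrs, hr1, hr2, ht1, ht2, htx⟩ := exists_rs hx
  have h2 := h.h2 (k + d) k r s hr hs hrs
  rw [show k + d - 1 = (k - 1) + d by ring, show k + d + 1 = (k + 1) + d by ring,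
    N2_eq h (by omega) hr hs hrx hsx, N2_eq h hk hr hs hrx hsx,
    N2_eq h (show 1 ≤ 2 * (k + 1) + d by omega) hr hs hrx hsx] at h2
  have hτ0 : (2 * r * s : ℂ) ≠ 0 := by
    have : (2 * r * s : ℝ) ≠ 0 := by positivity
    exact_mod_cast this
  have htx' : (2 * r * s : ℂ) ^ 2 = 1 - x ^ 2 := by
    exact_mod_cast congrArg (fun t : ℝ => (t : ℂ)) htx
  have e1 : (1 + 4 * (r : ℂ) ^ 2 * (s : ℂ) ^ 2) *
        ((r : ℂ) ^ d * (2 * r * s : ℂ) ^ k * MM c1 c2 d k x / 4) -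
        2 * r * s * ((r : ℂ) ^ d * (2 * r * s : ℂ) ^ (k - 1) * MM c1 c2 d (k - 1) x / 4 +
          (r : ℂ) ^ d * (2 * r * s : ℂ) ^ (k + 1) * MM c1 c2 d (k + 1) x / 4) =
      (r : ℂ) ^ d * (2 * r * s : ℂ) ^ k * ((1 + (2 * r * s : ℂ) ^ 2) * MM c1 c2 d k x -
        MM c1 c2 d (k - 1) x - (2 * r * s : ℂ) ^ 2 * MM c1 c2 d (k + 1) x) / 4 := by
    have f1 : (2 * r * s : ℂ) ^ k = (2 * r * s : ℂ) ^ (k - 1) * (2 * r * s : ℂ) := by
      rw [← zpow_add_one₀ hτ0]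
      congr 1
      ring
    have f2 : (2 * r * s : ℂ) ^ (k + 1) = (2 * r * s : ℂ) ^ (k - 1) * (2 * r * s : ℂ) ^ 2 := by
      rw [zpow_add_one₀ hτ0, f1]
      ring
    rw [f2, f1]
    ring
  rw [e1, htx', norm_pre hr hs] at h2
  have e2 : 1 - 4 * r ^ 2 * s ^ 2 = x ^ 2 := by
    have : (2 * r * s) ^ 2 = 4 * r ^ 2 * s ^ 2 := by ring
    rw [← this, htx]
    ring
  rw [e2] at h2
  have e3 : (1 + (1 - (x : ℂ) ^ 2)) * MM c1 c2 d k x - MM c1 c2 d (k - 1) x -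
      (1 - (x : ℂ) ^ 2) * MM c1 c2 d (k + 1) x =
      (2 * (uu c1 d k + vv c2 d k) - (uu c1 d (k - 1) + vv c2 d (k - 1)) -
        (uu c1 d (k + 1) + vv c2 d (k + 1))) +
      x * (2 * (uu c1 d k - vv c2 d k) - (uu c1 d (k - 1) - vv c2 d (k - 1)) -
        (uu c1 d (k + 1) - vv c2 d (k + 1))) +
      x ^ 2 * ((uu c1 d (k + 1) + vv c2 d (k + 1)) - (uu c1 d k + vv c2 d k)) +
      x ^ 3 * ((uu c1 d (k + 1) - vv c2 d (k + 1)) - (uu c1 d k - vv c2 d k)) := by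
    unfold MM
    ring
  rw [e3] at h2
  have h3 : c ≤ r ^ d * (2 * r * s) ^ k / 4 := by
    rw [hc]
    have := mul_le_mul (zpow_lower hr1 hr2 d) (zpow_lower ht1 ht2 k) (by positivity)
      (by positivity)
    linarith
  rw [div_mul_eq_mul_div, le_div_iff₀ hc0]
  refine le_trans ?_ h2
  rw [mul_comm _ c]
  calc c * _ ≤ (r ^ d * (2 * r * s) ^ k / 4) * _ := mul_le_mul_of_nonneg_right h3 (norm_nonneg _)
    _ = _ := by ring

theorem MM_bound {c1 c2 : ℤ → ℤ → ℂ} {C : ℝ} (h : KeyHyp c1 c2 C) {d k : ℤ}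
    (hk : 1 ≤ 2 * k + d) {x c : ℝ} (hx : |x| ≤ 1 / 2) (hc : 0 < c)
    (hτ : ∀ t : ℝ, 0 < t → t ≤ 1 → t ^ 2 = 1 - x ^ 2 → c ≤ t ^ k) :
    ‖MM c1 c2 d k x‖ ≤ 4 * C / ((1 / 2 : ℝ) ^ d.natAbs * c) := by
  obtain ⟨r, s, hr, hs, hrx, hsx, hrs, hr1, hr2, ht1, ht2, htx⟩ := exists_rs hx
  have h1 := h.h1 (k + d) k r s hr hs hrs
  rw [N2_eq h hk hr hs hrx hsx, norm_pre hr hs] at h1
  rw [le_div_iff₀ (by positivity)]
  have h3 : (1 / 2 : ℝ) ^ d.natAbs * c ≤ r ^ d * (2 * r * s) ^ k :=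
    mul_le_mul (zpow_lower hr1 hr2 d) (hτ _ (by positivity) ht2 htx) hc.le (by positivity)
  calc ‖MM c1 c2 d k x‖ * ((1 / 2 : ℝ) ^ d.natAbs * c) ≤
        ‖MM c1 c2 d k x‖ * (r ^ d * (2 * r * s) ^ k) := mul_le_mul_of_nonneg_left h3 (norm_nonneg _)
    _ ≤ 4 * C := by linarith

theorem uv_const {c1 c2 : ℤ → ℤ → ℂ} {C : ℝ} (h : KeyHyp c1 c2 C) {d k0 : ℤ}
    (hk : 1 ≤ 2 * k0 + d) : uu c1 d (k0 + 1) = uu c1 d k0 ∧ vv c2 d (k0 + 1) = vv c2 d k0 := by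
  set p : ℤ → ℂ := fun k => uu c1 d k + vv c2 d k with hp
  set q : ℤ → ℂ := fun k => uu c1 d k - vv c2 d k with hq
  have hpa : ∀ k, k0 + 1 ≤ k → 2 * p k - p (k - 1) - p (k + 1) = 0 := fun k hk' =>
    (second_diff h (show 1 ≤ 2 * (k - 1) + d by omega)).1
  have hqa : ∀ k, k0 + 1 ≤ k → 2 * q k - q (k - 1) - q (k + 1) = 0 := fun k hk' =>
    (second_diff h (show 1 ≤ 2 * (k - 1) + d by omega)).2
  have hM : ∀ k (x : ℝ), MM c1 c2 d k x = p k + x * q k := by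
    intro k x
    rw [hp, hq]
    unfold MM
    ring
  have hα : p (k0 + 1) - p k0 = 0 := by
    apply bdd_zero (a := p k0) (K := 4 * C / ((1 / 2 : ℝ) ^ d.natAbs * 1))
    intro i
    rw [← (affine hpa i).1]
    have h1 := MM_bound h (show 1 ≤ 2 * (k0 + i) + d by omega) (x := 0) (c := 1) (by norm_num)
      one_pos (by
        intro t ht _ ht2
        have h2 : t = 1 := by
          have : (t - 1) * (t + 1) = 0 := by nlinarith
          rcases mul_eq_zero.1 this with h3 | h3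
          · linarith
          · linarith
        rw [h2, one_zpow])
    rw [hM] at h1
    simpa using h1
  have hpc : ∀ i : ℕ, p (k0 + i) = p k0 := by
    intro i
    rw [(affine hpa i).1, hα, mul_zero, add_zero]
  have hβ : q (k0 + 1) - q k0 = 0 := by
    by_contra hb
    set β := q (k0 + 1) - q k0 with hβd
    have hb0 : 0 < ‖β‖ := norm_pos_iff.2 hb
    set K := 4 * C / ((1 / 2 : ℝ) ^ d.natAbs * (3 / 4)) with hK
    obtain ⟨m, hm⟩ := exists_nat_gt ((2 * |K| + 2 * ‖p k0‖ + ‖q k0‖ + ‖(k0 : ℂ)‖ * ‖β‖) / ‖β‖ +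
      |(k0 : ℝ)| + 1)
    have hS0 : 0 ≤ (2 * |K| + 2 * ‖p k0‖ + ‖q k0‖ + ‖(k0 : ℂ)‖ * ‖β‖) / ‖β‖ := by positivity
    have hk0a := abs_nonneg (k0 : ℝ)
    have hm1 : (1 : ℝ) ≤ m := by linarith
    have hm1' : 1 ≤ m := by exact_mod_cast hm1
    have hmk : k0 ≤ (m : ℤ) ^ 2 := by
      have h1 : (k0 : ℝ) ≤ m := by
        have := le_abs_self (k0 : ℝ)
        linarith
      have h2 : k0 ≤ (m : ℤ) := by exact_mod_cast h1
      have h3 : (m : ℤ) ≤ (m : ℤ) ^ 2 := by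
        have : (1 : ℤ) ≤ m := by exact_mod_cast hm1'
        nlinarith
      exact h2.trans h3
    obtain ⟨i, hi⟩ : ∃ i : ℕ, k0 + (i : ℤ) = (m : ℤ) ^ 2 := ⟨((m : ℤ) ^ 2 - k0).toNat, by
      rw [Int.toNat_of_nonneg (by omega)]
      ring⟩
    have hx : |1 / (2 * (m : ℝ))| ≤ 1 / 2 := by
      rw [abs_of_pos (by positivity), div_le_div_iff₀ (by positivity) (by norm_num)]
      linarith
    have h1 := MM_bound h (show 1 ≤ 2 * (k0 + i) + d by omega) (x := 1 / (2 * (m : ℝ)))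
      (c := 3 / 4) hx (by norm_num) (by
        intro t ht ht1 ht2
        rw [hi]
        have e1 : t ^ ((m : ℤ) ^ 2) = t ^ (m ^ 2) := by
          rw [← zpow_natCast]
          norm_cast
        rw [e1]
        have e2 : 1 + ((m ^ 2 : ℕ) : ℝ) * (-(1 / (2 * (m : ℝ))) ^ 2) ≤
            (1 + (-(1 / (2 * (m : ℝ))) ^ 2)) ^ (m ^ 2) := by
          refine one_add_mul_le_pow ?_ _
          have h3 : (1 / (2 * (m : ℝ))) ^ 2 ≤ (1 / 2) ^ 2 := by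
            refine pow_le_pow_left₀ (by positivity) ?_ 2
            exact (le_abs_self _).trans hx
          linarith
        have e3 : 1 + ((m ^ 2 : ℕ) : ℝ) * (-(1 / (2 * (m : ℝ))) ^ 2) = 3 / 4 := by
          have : (m : ℝ) ≠ 0 := by positivity
          push_cast
          field_simp
          norm_num
        rw [e3] at e2
        have e4 : (1 + (-(1 / (2 * (m : ℝ))) ^ 2)) = t ^ 2 := by rw [ht2]; ring
        rw [e4] at e2
        refine e2.trans ?_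
        rw [← pow_mul, mul_comm, pow_mul]
        have e5 : t ^ (m ^ 2) ≤ 1 := pow_le_one₀ ht.le ht1
        have e6 : 0 ≤ t ^ (m ^ 2) := by positivity
        nlinarith)
    rw [hM, hpc, (affine hqa i).1, ← hβd, ← hK] at h1
    have hm0 : (m : ℂ) ≠ 0 := by
      have : m ≠ 0 := by omega
      exact_mod_cast this
    have hic : (i : ℂ) = (m : ℂ) ^ 2 - k0 := by
      have := congrArg (fun z : ℤ => (z : ℂ)) hi
      push_cast at this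
      linear_combination this
    have h2 : (m : ℂ) * (m * β) = 2 * m * (p k0 + ((1 / (2 * (m : ℝ)) : ℝ) : ℂ) *
        (q k0 + i * β)) - 2 * m * p k0 - q k0 + k0 * β := by
      rw [hic]
      push_cast
      field_simp
      ring
    have h3 : (m : ℝ) * (m * ‖β‖) ≤ 2 * m * |K| + 2 * m * ‖p k0‖ + ‖q k0‖ + ‖(k0 : ℂ)‖ * ‖β‖ := by
      have e1 : (m : ℝ) * (m * ‖β‖) = ‖(m : ℂ) * (m * β)‖ := by
        rw [norm_mul, norm_mul, Complex.norm_natCast]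
      rw [e1, h2]
      have n1 := norm_add_le (2 * m * (p k0 + ((1 / (2 * (m : ℝ)) : ℝ) : ℂ) *
        (q k0 + i * β)) - 2 * m * p k0 - q k0) (k0 * β)
      have n2 := norm_sub_le (2 * m * (p k0 + ((1 / (2 * (m : ℝ)) : ℝ) : ℂ) *
        (q k0 + i * β)) - 2 * m * p k0) (q k0)
      have n3 := norm_sub_le (2 * m * (p k0 + ((1 / (2 * (m : ℝ)) : ℝ) : ℂ) *
        (q k0 + i * β))) (2 * m * p k0)
      have n4 : ‖2 * m * (p k0 + ((1 / (2 * (m : ℝ)) : ℝ) : ℂ) * (q k0 + i * β))‖ ≤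
          2 * m * |K| := by
        rw [norm_mul, norm_mul, Complex.norm_natCast, Complex.norm_ofNat]
        exact mul_le_mul_of_nonneg_left (h1.trans (le_abs_self _)) (by positivity)
      have n5 : ‖2 * m * p k0‖ = 2 * m * ‖p k0‖ := by
        rw [norm_mul, norm_mul, Complex.norm_natCast, Complex.norm_ofNat]
      have n6 : ‖(k0 : ℂ) * β‖ = ‖(k0 : ℂ)‖ * ‖β‖ := norm_mul _ _
      linarith
    have h4 : (m : ℝ) * (m * ‖β‖) ≤
        m * (2 * |K| + 2 * ‖p k0‖ + ‖q k0‖ + ‖(k0 : ℂ)‖ * ‖β‖) := by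
      have e1 : ‖q k0‖ ≤ m * ‖q k0‖ := le_mul_of_one_le_left (norm_nonneg _) hm1
      have e2 : ‖(k0 : ℂ)‖ * ‖β‖ ≤ m * (‖(k0 : ℂ)‖ * ‖β‖) :=
        le_mul_of_one_le_left (by positivity) hm1
      linarith
    have h5 : m * ‖β‖ ≤ 2 * |K| + 2 * ‖p k0‖ + ‖q k0‖ + ‖(k0 : ℂ)‖ * ‖β‖ :=
      le_of_mul_le_mul_left h4 (by linarith)
    have h6 : (2 * |K| + 2 * ‖p k0‖ + ‖q k0‖ + ‖(k0 : ℂ)‖ * ‖β‖) / ‖β‖ < m := by linarith
    rw [div_lt_iff₀ hb0] at h6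
    linarith
  rw [hp] at hα
  rw [hq] at hβ
  simp only at hα hβ
  constructor
  · linear_combination (hα + hβ) / 2
  · linear_combination (hα - hβ) / 2

end KeyDiagAux

open KeyDiagAux

theorem diag_const {c1 c2 : ℤ → ℤ → ℂ} {C : ℝ} (h : KeyHyp c1 c2 C) (m n : ℤ)
    (hmn : 2 ≤ m + n) :
    c1 (m + 1) (n + 1) = 2 * c1 m n ∧ c2 (m + 1) (n + 1) = 2 * c2 m n := by
  constructor
  · have h1 := (uv_const h (d := m - 1 - n) (k0 := n) (by omega)).1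
    unfold uu at h1
    rw [show n + 1 + (m - 1 - n) + 1 = m + 1 by ring, show n + (m - 1 - n) + 1 = m by ring,
      zpow_add_one₀ (by norm_num)] at h1
    have h2 : (2 : ℂ) ^ n ≠ 0 := zpow_ne_zero _ (by norm_num)
    field_simp at h1
    linear_combination h1
  · have h1 := (uv_const h (d := m - n + 1) (k0 := n - 1) (by omega)).2
    unfold vv at h1
    rw [show n - 1 + 1 + (m - n + 1) = m + 1 by ring, show n - 1 + (m - n + 1) = m by ring,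
      zpow_add_one₀ (by norm_num), show n - 1 + 1 = n by ring] at h1
    have h2 : (2 : ℂ) ^ (n - 1) ≠ 0 := zpow_ne_zero _ (by norm_num)
    field_simp at h1
    linear_combination h1

end Pool.Agent.P1ae5
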