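import Pool.Agent.Lib.P1ae5.TangBasic

/-!
MODULE P1ae5.TorusHol (1.5 h). Torus coefficients of holomorphic functions of two variables.

`torus_scale1` : PROOF. For fixed `β` put `w = s * E1 β`, `g z = F z w`, holomorphic for
`‖z‖ ^ 2 < 1 - s ^ 2`. By `Complex.circleIntegral_sub_center_inv_smul_eq_of_differentiable_on_annulus_off_countable`
(center 0, radii `r ≤ r'` or `r' ≤ r`, f z = g z * z ^ (-m)) and
`circleIntegral` unfolding (`circleMap 0 r α = r * exp (α I)`, derivative `circleMap * I`) one gets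
`r ^ (-m) ∫ α, g (r E1 α) E1 α ^ (-m) = r' ^ (-m) ∫ α, g (r' E1 α) E1 α ^ (-m)`. Now integrate
over `β` (exchange the order of the two interval integrals of a continuous function:
`MeasureTheory.integral_integral_swap` / `intervalIntegral_integral_swap`, integrand continuous on
the compact rectangle). `torus_scale2` is the same in the other variable (no exchange needed).

`torus_coeff` : go from `(r, s)` to `(δ, s)`, `(δ, δ)`, `(1/2, δ)`, `(1/2, 1/2)` with
`δ ≤ min r s (1/2)`: so `T F m n r s = c m n * r ^ m * s ^ n` with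
`c m n = T F m n (1/2) (1/2) * 2 ^ m * 2 ^ n`. `c m n = 0` for `m < 0`: fix `s = 1/2`; `F` is
bounded on the compact set `‖z‖ ≤ 1/2, ‖w‖ ≤ 1/2`, so `‖c m n‖ r ^ m (1/2) ^ n ≤ M`
(`tang_norm_le_const`) for all `0 < r ≤ 1/2`; let `r → 0`. Same for `n < 0`. `c 0 0 = F 0 0`:
`T F 0 0 r r → F 0 0` as `r → 0` by continuity (`T F 0 0 r r - F 0 0 = T (F - F 0 0) 0 0 r r`).

`coeff_small` : on the torus of radii `r = s = ε` the bound gives
`‖c m n‖ ε ^ (m + n) ≤ 2 C ε ^ 2`, let `ε → 0`.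

`torus_unique` : `tang_unique` gives `F (r E1 α) (s E1 β) = 0` for all `r, s > 0` in range; every
`z ≠ 0` is `‖z‖ * E1 (arg z)`; points with `z = 0` or `w = 0` by continuity.
-/

open MeasureTheory

namespace Pool.Agent.P1ae5

namespace TorusHolAux

theorem norm_E1 (α : ℝ) : ‖E1 α‖ = 1 := by
  unfold E1
  exact Complex.norm_exp_ofReal_mul_I α

theorem E1_ne (α : ℝ) : E1 α ≠ 0 := Complex.exp_ne_zero _

theorem continuous_E1 : Continuous E1 := by
  unfold E1
  fun_prop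

theorem E1_periodic (α : ℝ) : E1 (α + 2 * Real.pi) = E1 α := by
  unfold E1
  have h : ((α + 2 * Real.pi : ℝ) : ℂ) * Complex.I =
      (α : ℂ) * Complex.I + 2 * Real.pi * Complex.I := by
    push_cast
    ring
  rw [h, Complex.exp_add, Complex.exp_two_pi_mul_I, mul_one]

theorem norm_mul_E1 {r : ℝ} (hr : 0 ≤ r) (α : ℝ) : ‖(r : ℂ) * E1 α‖ = r := by
  rw [norm_mul, norm_E1, mul_one, Complex.norm_real, Real.norm_eq_abs, abs_of_nonneg hr]

theorem continuous_zpow_E1 (m : ℤ) : Continuous fun α : ℝ => E1 α ^ m :=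
  continuous_E1.zpow₀ m fun α => Or.inl (E1_ne α)

/-- one variable, increasing radii -/
theorem one_dim_le {g : ℂ → ℂ} {ρ : ℝ} (hd : ∀ z, ‖z‖ ^ 2 < ρ → DifferentiableAt ℂ g z) (m : ℤ)
    {r R : ℝ} (hr : 0 < r) (hrR : r ≤ R) (hR : R ^ 2 < ρ) :
    (∫ α in (0 : ℝ)..2 * Real.pi, g (R * E1 α) * E1 α ^ (-m)) * (r : ℂ) ^ m =
    (∫ α in (0 : ℝ)..2 * Real.pi, g (r * E1 α) * E1 α ^ (-m)) * (R : ℂ) ^ m := by
  have hR0 : 0 < R := lt_of_lt_of_le hr hrR
  have key : ∀ {q : ℝ}, 0 < q → (∮ z in C(0, q), (z - 0)⁻¹ • (g z * z ^ (-m))) =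
      Complex.I * (q : ℂ) ^ (-m) *
        ∫ α in (0 : ℝ)..2 * Real.pi, g (q * E1 α) * E1 α ^ (-m) := by
    intro q hq
    have hq' : (q : ℂ) ≠ 0 := by exact_mod_cast hq.ne'
    rw [circleIntegral, ← intervalIntegral.integral_const_mul]
    refine intervalIntegral.integral_congr fun α _ => ?_
    have e1 : circleMap 0 q α = q * E1 α := by
      simp [circleMap, E1]
    have hne : (q : ℂ) * E1 α ≠ 0 := mul_ne_zero hq' (E1_ne α)
    have hE := E1_ne α
    simp only [deriv_circleMap, e1, smul_eq_mul, sub_zero]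
    rw [mul_zpow]
    field_simp
  have hcd : ∀ z : ℂ, z ∈ Metric.closedBall (0 : ℂ) R → z ≠ 0 →
      DifferentiableAt ℂ (fun z => g z * z ^ (-m)) z := by
    intro z hz hz0
    have hz1 : ‖z‖ ≤ R := by simpa using hz
    refine (hd z ?_).mul (differentiableAt_zpow.mpr (Or.inl hz0))
    exact lt_of_le_of_lt (pow_le_pow_left₀ (norm_nonneg _) hz1 2) hR
  have hmain := Complex.circleIntegral_sub_center_inv_smul_eq_of_differentiable_on_annulus_off_countable
    (c := 0) hr hrR (f := fun z => g z * z ^ (-m)) (s := ∅) Set.countable_empty ?_ ?_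
  · rw [key hR0, key hr] at hmain
    have hr' : (r : ℂ) ≠ 0 := by exact_mod_cast hr.ne'
    have hR' : (R : ℂ) ≠ 0 := by exact_mod_cast hR0.ne'
    have h1 : (R : ℂ) ^ (-m) * (∫ α in (0 : ℝ)..2 * Real.pi, g (R * E1 α) * E1 α ^ (-m)) =
        (r : ℂ) ^ (-m) * ∫ α in (0 : ℝ)..2 * Real.pi, g (r * E1 α) * E1 α ^ (-m) := by
      refine mul_left_cancel₀ Complex.I_ne_zero ?_
      rw [← mul_assoc, ← mul_assoc]
      exact hmain
    rw [zpow_neg, zpow_neg] at h1
    have h2 : (R : ℂ) ^ m ≠ 0 := zpow_ne_zero _ hR'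
    have h3 : (r : ℂ) ^ m ≠ 0 := zpow_ne_zero _ hr'
    field_simp at h1
    linear_combination h1
  · intro z hz
    refine (hcd z hz.1 ?_).continuousAt.continuousWithinAt
    rintro rfl
    exact hz.2 (Metric.mem_ball_self hr)
  · intro z hz
    refine hcd z (Metric.ball_subset_closedBall hz.1.1) ?_
    rintro rfl
    exact hz.1.2 (Metric.mem_closedBall_self hr.le)

theorem one_dim {g : ℂ → ℂ} {ρ : ℝ} (hd : ∀ z, ‖z‖ ^ 2 < ρ → DifferentiableAt ℂ g z) (m : ℤ)
    {r r' : ℝ} (hr : 0 < r) (hr' : 0 < r') (h1 : r ^ 2 < ρ) (h2 : r' ^ 2 < ρ) :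
    (∫ α in (0 : ℝ)..2 * Real.pi, g (r * E1 α) * E1 α ^ (-m)) * (r' : ℂ) ^ m =
    (∫ α in (0 : ℝ)..2 * Real.pi, g (r' * E1 α) * E1 α ^ (-m)) * (r : ℂ) ^ m := by
  rcases le_total r r' with h | h
  · exact (one_dim_le hd m hr h h2).symm
  · exact one_dim_le hd m hr' h h1

theorem cont_torus {F : ℂ → ℂ → ℂ} (hF : Hol2 F) {r s : ℝ} (hr : 0 < r) (hs : 0 < s)
    (h : r ^ 2 + s ^ 2 < 1) : Continuous fun p : ℝ × ℝ => F (r * E1 p.1) (s * E1 p.2) := by
  have h1 : Continuous fun p : ℝ × ℝ => ((r * E1 p.1, s * E1 p.2) : ℂ × ℂ) := by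
    have := continuous_E1
    fun_prop
  have h2 := hF.cont.comp_continuous h1 (fun p => by
    show ‖(r : ℂ) * E1 p.1‖ ^ 2 + ‖(s : ℂ) * E1 p.2‖ ^ 2 < 1
    rw [norm_mul_E1 hr.le, norm_mul_E1 hs.le]
    exact h)
  exact h2

theorem zero_of_small {x M ε : ℝ} (hx : 0 ≤ x) (hε : 0 < ε)
    (h : ∀ r, 0 < r → r ≤ ε → x ≤ M * r) : x = 0 := by
  by_contra hne
  have hx0 : 0 < x := lt_of_le_of_ne hx (Ne.symm hne)
  have h1 := h ε hε le_rfl
  have hM : 0 < M := by
    by_contra hM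
    push Not at hM
    have : M * ε ≤ 0 := mul_nonpos_of_nonpos_of_nonneg hM hε.le
    linarith
  have h2 := h (min ε (x / (2 * M))) (lt_min hε (by positivity)) (min_le_left _ _)
  have h3 : M * min ε (x / (2 * M)) ≤ M * (x / (2 * M)) :=
    mul_le_mul_of_nonneg_left (min_le_right _ _) hM.le
  have h4 : M * (x / (2 * M)) = x / 2 := by field_simp
  linarith

theorem tang_const (c : ℂ) : Tang (fun _ _ => c) 0 0 = c := by
  unfold Tang
  simp only [neg_zero, zpow_zero, mul_one, intervalIntegral.integral_const, sub_zero]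
  have hpi : ((2 * Real.pi : ℝ) : ℂ) ≠ 0 := by
    have : (2 * Real.pi : ℝ) ≠ 0 := by positivity
    exact_mod_cast this
  rw [Complex.real_smul, Complex.real_smul]
  field_simp

/-- bound on a compact bidisc -/
theorem exists_bound {F : ℂ → ℂ → ℂ} (hF : Hol2 F) :
    ∃ M : ℝ, 0 ≤ M ∧ ∀ z w : ℂ, ‖z‖ ≤ 1 / 2 → ‖w‖ ≤ 1 / 2 → ‖F z w‖ ≤ M := by
  have hK : IsCompact (Metric.closedBall (0 : ℂ) (1 / 2) ×ˢ Metric.closedBall (0 : ℂ) (1 / 2)) :=
    (isCompact_closedBall _ _).prod (isCompact_closedBall _ _)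
  have hcont : ContinuousOn (fun p : ℂ × ℂ => F p.1 p.2)
      (Metric.closedBall (0 : ℂ) (1 / 2) ×ˢ Metric.closedBall (0 : ℂ) (1 / 2)) := by
    refine hF.cont.mono ?_
    rintro ⟨z, w⟩ ⟨hz, hw⟩
    have hz' : ‖z‖ ≤ 1 / 2 := by simpa using hz
    have hw' : ‖w‖ ≤ 1 / 2 := by simpa using hw
    show ‖z‖ ^ 2 + ‖w‖ ^ 2 < 1
    have h1 := pow_le_pow_left₀ (norm_nonneg _) hz' 2
    have h2 := pow_le_pow_left₀ (norm_nonneg _) hw' 2
    norm_num at h1 h2
    linarith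
  obtain ⟨M, hM⟩ := hK.exists_bound_of_continuousOn hcont
  refine ⟨max M 0, le_max_right _ _, fun z w hz hw => ?_⟩
  exact (hM (z, w) ⟨by simpa using hz, by simpa using hw⟩).trans (le_max_left _ _)

end TorusHolAux

open TorusHolAux

theorem torus_scale1 {F : ℂ → ℂ → ℂ} (hF : Hol2 F) (m n : ℤ) {r r' s : ℝ} (hr : 0 < r)
    (hr' : 0 < r') (hs : 0 < s) (h1 : r ^ 2 + s ^ 2 < 1) (h2 : r' ^ 2 + s ^ 2 < 1) :
    T F m n r s * (r' : ℂ) ^ m = T F m n r' s * (r : ℂ) ^ m := by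
  have hswap : ∀ q : ℝ, 0 < q → q ^ 2 + s ^ 2 < 1 → T F m n q s =
      ((2 * Real.pi : ℝ) : ℂ)⁻¹ ^ 2 * ∫ β in (0 : ℝ)..2 * Real.pi,
        (∫ α in (0 : ℝ)..2 * Real.pi, F (q * E1 α) (s * E1 β) * E1 α ^ (-m)) *
          E1 β ^ (-n) := by
    intro q hq hqs
    unfold T Tang
    congr 1
    rw [intervalIntegral_intervalIntegral_swap]
    · refine intervalIntegral.integral_congr fun β _ => ?_
      beta_reduce
      rw [← intervalIntegral.integral_mul_const]
      refine intervalIntegral.integral_congr fun α _ => ?_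
      beta_reduce
      ring
    · have hc : Continuous (Function.uncurry fun α β : ℝ =>
          F (q * E1 α) (s * E1 β) * (E1 α ^ (-m) * E1 β ^ (-n))) := by
        have h3 := cont_torus hF hq hs hqs
        have h4 := (continuous_zpow_E1 (-m)).comp (continuous_fst (X := ℝ) (Y := ℝ))
        have h5 := (continuous_zpow_E1 (-n)).comp (continuous_snd (X := ℝ) (Y := ℝ))
        exact h3.mul (h4.mul h5)
      exact (hc.continuousOn.integrableOn_compact
        (isCompact_uIcc.prod isCompact_uIcc)).mono_set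
          (Set.prod_mono Set.uIoc_subset_uIcc Set.uIoc_subset_uIcc)
  rw [hswap r hr h1, hswap r' hr' h2, mul_assoc, mul_assoc, ← intervalIntegral.integral_mul_const,
    ← intervalIntegral.integral_mul_const]
  congr 1
  refine intervalIntegral.integral_congr fun β _ => ?_
  beta_reduce
  have hd : ∀ z : ℂ, ‖z‖ ^ 2 < 1 - s ^ 2 → DifferentiableAt ℂ (fun x => F x (s * E1 β)) z := by
    intro z hz
    refine hF.d1 z _ ?_
    rw [norm_mul_E1 hs.le]
    linarith
  have := one_dim hd m hr hr' (by linarith) (by linarith)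
  calc _ = ((∫ α in (0 : ℝ)..2 * Real.pi, F (r * E1 α) (s * E1 β) * E1 α ^ (-m)) *
          (r' : ℂ) ^ m) * E1 β ^ (-n) := by ring
    _ = ((∫ α in (0 : ℝ)..2 * Real.pi, F (r' * E1 α) (s * E1 β) * E1 α ^ (-m)) *
          (r : ℂ) ^ m) * E1 β ^ (-n) := by rw [this]
    _ = _ := by ring

theorem torus_scale2 {F : ℂ → ℂ → ℂ} (hF : Hol2 F) (m n : ℤ) {r s s' : ℝ} (hr : 0 < r)
    (hs : 0 < s) (hs' : 0 < s') (h1 : r ^ 2 + s ^ 2 < 1) (h2 : r ^ 2 + s' ^ 2 < 1) :
    T F m n r s * (s' : ℂ) ^ n = T F m n r s' * (s : ℂ) ^ n := by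
  have hin : ∀ q : ℝ, T F m n r q =
      ((2 * Real.pi : ℝ) : ℂ)⁻¹ ^ 2 * ∫ α in (0 : ℝ)..2 * Real.pi,
        (∫ β in (0 : ℝ)..2 * Real.pi, F (r * E1 α) (q * E1 β) * E1 β ^ (-n)) *
          E1 α ^ (-m) := by
    intro q
    unfold T Tang
    congr 1
    refine intervalIntegral.integral_congr fun α _ => ?_
    beta_reduce
    rw [← intervalIntegral.integral_mul_const]
    refine intervalIntegral.integral_congr fun β _ => ?_
    beta_reduce
    ring
  rw [hin s, hin s', mul_assoc, mul_assoc, ← intervalIntegral.integral_mul_const,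
    ← intervalIntegral.integral_mul_const]
  congr 1
  refine intervalIntegral.integral_congr fun α _ => ?_
  beta_reduce
  have hd : ∀ w : ℂ, ‖w‖ ^ 2 < 1 - r ^ 2 → DifferentiableAt ℂ (fun x => F (r * E1 α) x) w := by
    intro w hw
    refine hF.d2 _ w ?_
    rw [norm_mul_E1 hr.le]
    linarith
  have := one_dim hd n hs hs' (by linarith) (by linarith)
  calc _ = ((∫ β in (0 : ℝ)..2 * Real.pi, F (r * E1 α) (s * E1 β) * E1 β ^ (-n)) *
          (s' : ℂ) ^ n) * E1 α ^ (-m) := by ring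
    _ = ((∫ β in (0 : ℝ)..2 * Real.pi, F (r * E1 α) (s' * E1 β) * E1 β ^ (-n)) *
          (s : ℂ) ^ n) * E1 α ^ (-m) := by rw [this]
    _ = _ := by ring

theorem torus_coeff {F : ℂ → ℂ → ℂ} (hF : Hol2 F) : ∃ c : ℤ → ℤ → ℂ,
    (∀ (m n : ℤ) (r s : ℝ), 0 < r → 0 < s → r ^ 2 + s ^ 2 < 1 →
      T F m n r s = c m n * ((r : ℂ) ^ m * (s : ℂ) ^ n)) ∧
    (∀ m n : ℤ, m < 0 ∨ n < 0 → c m n = 0) ∧ c 0 0 = F 0 0 := by
  set c : ℤ → ℤ → ℂ := fun m n => T F m n (1 / 2) (1 / 2) * ((2 : ℂ) ^ m * (2 : ℂ) ^ n) with hc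
  have hform : ∀ (m n : ℤ) (r s : ℝ), 0 < r → 0 < s → r ^ 2 + s ^ 2 < 1 →
      T F m n r s = c m n * ((r : ℂ) ^ m * (s : ℂ) ^ n) := by
    intro m n r s hr hs hrs
    set δ : ℝ := min (min r s) (1 / 2) with hδ
    have hδ0 : 0 < δ := lt_min (lt_min hr hs) (by norm_num)
    have hδr : δ ≤ r := (min_le_left _ _).trans (min_le_left _ _)
    have hδs : δ ≤ s := (min_le_left _ _).trans (min_le_right _ _)
    have hδ2 : δ ≤ 1 / 2 := min_le_right _ _
    have q1 : δ ^ 2 ≤ r ^ 2 := pow_le_pow_left₀ hδ0.le hδr 2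
    have q2 : δ ^ 2 ≤ (1 / 2) ^ 2 := pow_le_pow_left₀ hδ0.le hδ2 2
    norm_num at q2
    have e1 := torus_scale1 hF m n hr hδ0 hs hrs (by linarith)
    have e2 := torus_scale2 hF m n hδ0 hs hδ0 (by linarith) (by linarith)
    have e3 := torus_scale1 hF m n (r' := 1 / 2) hδ0 (by norm_num) hδ0 (by linarith)
      (by norm_num; linarith)
    have e4 := torus_scale2 hF m n (r := 1 / 2) (s' := 1 / 2) (by norm_num) hδ0 (by norm_num)
      (by norm_num; linarith) (by norm_num)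
    have hr' : (r : ℂ) ≠ 0 := by exact_mod_cast hr.ne'
    have hs' : (s : ℂ) ≠ 0 := by exact_mod_cast hs.ne'
    have hδ' : (δ : ℂ) ≠ 0 := by exact_mod_cast hδ0.ne'
    have z1 : (δ : ℂ) ^ m ≠ 0 := zpow_ne_zero _ hδ'
    have z2 : (δ : ℂ) ^ n ≠ 0 := zpow_ne_zero _ hδ'
    have z3 : ((1 / 2 : ℝ) : ℂ) ^ m * (2 : ℂ) ^ m = 1 := by
      rw [← mul_zpow]
      push_cast
      norm_num
    have z4 : ((1 / 2 : ℝ) : ℂ) ^ n * (2 : ℂ) ^ n = 1 := by
      rw [← mul_zpow]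
      push_cast
      norm_num
    have f4 : T F m n (1 / 2) δ = T F m n (1 / 2) (1 / 2) * (2 : ℂ) ^ n * (δ : ℂ) ^ n := by
      linear_combination ((2 : ℂ) ^ n) * e4 - T F m n (1 / 2) δ * z4
    have f3 : T F m n δ δ = T F m n (1 / 2) δ * (2 : ℂ) ^ m * (δ : ℂ) ^ m := by
      linear_combination ((2 : ℂ) ^ m) * e3 - T F m n δ δ * z3
    refine mul_right_cancel₀ z1 (mul_right_cancel₀ z2 ?_)
    calc T F m n r s * (δ : ℂ) ^ m * (δ : ℂ) ^ n = T F m n δ s * (δ : ℂ) ^ n * (r : ℂ) ^ m := by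
          rw [e1]; ring
      _ = T F m n δ δ * (s : ℂ) ^ n * (r : ℂ) ^ m := by rw [e2]
      _ = _ := by
          rw [f3, f4]
          simp only [hc]
          ring
  clear_value c
  obtain ⟨M, hM, hMb⟩ := exists_bound hF
  have hTM : ∀ (m n : ℤ) (r s : ℝ), 0 < r → r ≤ 1 / 2 → 0 < s → s ≤ 1 / 2 →
      ‖T F m n r s‖ ≤ M := by
    intro m n r s hr hr2 hs hs2
    have q1 := pow_le_pow_left₀ hr.le hr2 2
    have q2 := pow_le_pow_left₀ hs.le hs2 2
    norm_num at q1 q2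
    refine tang_norm_le_const (cont_torus hF hr hs (by linarith)) (fun α β => ?_) m n
    refine hMb _ _ ?_ ?_
    · rw [norm_mul_E1 hr.le]
      exact hr2
    · rw [norm_mul_E1 hs.le]
      exact hs2
  -- negative exponents
  have hneg : ∀ {k : ℤ} {r : ℝ}, k < 0 → 0 < r → r ≤ 1 / 2 → 1 ≤ r ^ k * r := by
    intro k r hk hr hr2
    have h1 : r ^ (-1 : ℤ) ≤ r ^ k :=
      zpow_le_zpow_right_of_le_one₀ hr (by linarith) (by omega)
    have h2 : r ^ (-1 : ℤ) * r = 1 := by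
      rw [zpow_neg_one, inv_mul_cancel₀ hr.ne']
    calc (1 : ℝ) = r ^ (-1 : ℤ) * r := h2.symm
      _ ≤ r ^ k * r := mul_le_mul_of_nonneg_right h1 hr.le
  refine ⟨c, hform, ?_, ?_⟩
  · intro m n hmn
    rw [← norm_eq_zero]
    rcases hmn with hm | hn
    · have hx : ‖c m n‖ * (1 / 2 : ℝ) ^ n = 0 := by
        refine zero_of_small (M := M) (ε := 1 / 2) (by positivity) (by norm_num) ?_
        intro r hr hr2
        have h1 := hTM m n r (1 / 2) hr hr2 (by norm_num) le_rfl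
        have q1 := pow_le_pow_left₀ hr.le hr2 2
        norm_num at q1
        rw [hform m n r (1 / 2) hr (by norm_num) (by norm_num; linarith), norm_mul, norm_mul,
          norm_zpow, norm_zpow, Complex.norm_real, Complex.norm_real, Real.norm_eq_abs,
          Real.norm_eq_abs, abs_of_pos hr, abs_of_pos (by norm_num : (0 : ℝ) < 1 / 2)] at h1
        have h2 := hneg hm hr hr2
        calc ‖c m n‖ * (1 / 2 : ℝ) ^ n = ‖c m n‖ * (1 / 2 : ℝ) ^ n * 1 := (mul_one _).symm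
          _ ≤ ‖c m n‖ * (1 / 2 : ℝ) ^ n * (r ^ m * r) :=
              mul_le_mul_of_nonneg_left h2 (by positivity)
          _ = ‖c m n‖ * (r ^ m * (1 / 2 : ℝ) ^ n) * r := by ring
          _ ≤ M * r := mul_le_mul_of_nonneg_right h1 hr.le
      rcases mul_eq_zero.mp hx with h | h
      · exact h
      · exact absurd h (zpow_ne_zero _ (by norm_num))
    · have hx : ‖c m n‖ * (1 / 2 : ℝ) ^ m = 0 := by
        refine zero_of_small (M := M) (ε := 1 / 2) (by positivity) (by norm_num) ?_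
        intro s hs hs2
        have h1 := hTM m n (1 / 2) s (by norm_num) le_rfl hs hs2
        have q1 := pow_le_pow_left₀ hs.le hs2 2
        norm_num at q1
        rw [hform m n (1 / 2) s (by norm_num) hs (by norm_num; linarith), norm_mul, norm_mul,
          norm_zpow, norm_zpow, Complex.norm_real, Complex.norm_real, Real.norm_eq_abs,
          Real.norm_eq_abs, abs_of_pos hs, abs_of_pos (by norm_num : (0 : ℝ) < 1 / 2)] at h1
        have h2 := hneg hn hs hs2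
        calc ‖c m n‖ * (1 / 2 : ℝ) ^ m = ‖c m n‖ * (1 / 2 : ℝ) ^ m * 1 := (mul_one _).symm
          _ ≤ ‖c m n‖ * (1 / 2 : ℝ) ^ m * (s ^ n * s) :=
              mul_le_mul_of_nonneg_left h2 (by positivity)
          _ = ‖c m n‖ * ((1 / 2 : ℝ) ^ m * s ^ n) * s := by ring
          _ ≤ M * s := mul_le_mul_of_nonneg_right h1 hs.le
      rcases mul_eq_zero.mp hx with h | h
      · exact h
      · exact absurd h (zpow_ne_zero _ (by norm_num))
  · -- the constant coefficient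
    have hlim : ∀ ε : ℝ, 0 < ε → ‖c 0 0 - F 0 0‖ ≤ ε := by
      intro ε hε
      have hopen : IsOpen {p : ℂ × ℂ | ‖p.1‖ ^ 2 + ‖p.2‖ ^ 2 < 1} :=
        isOpen_lt (by fun_prop) continuous_const
      have hca : ContinuousAt (fun p : ℂ × ℂ => F p.1 p.2) (0, 0) :=
        hF.cont.continuousAt (hopen.mem_nhds (by simp))
      obtain ⟨δ, hδ, hδb⟩ := Metric.continuousAt_iff.mp hca ε hε
      set r : ℝ := min (δ / 2) (1 / 2) with hr
      have hr0 : 0 < r := lt_min (by positivity) (by norm_num)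
      have hr2 : r ≤ 1 / 2 := min_le_right _ _
      have hrδ : r < δ := lt_of_le_of_lt (min_le_left _ _) (by linarith)
      have q1 := pow_le_pow_left₀ hr0.le hr2 2
      norm_num at q1
      have h1 := hform 0 0 r r hr0 hr0 (by linarith)
      simp only [zpow_zero, mul_one] at h1
      have hct := cont_torus hF hr0 hr0 (show r ^ 2 + r ^ 2 < 1 by linarith)
      have h2 : Tang (fun α β => F (r * E1 α) (r * E1 β) + (-F 0 0)) 0 0 =
          c 0 0 - F 0 0 := by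
        rw [tang_add hct continuous_const, tang_const, ← h1]
        unfold T
        ring
      rw [← h2]
      refine tang_norm_le_const (hct.add continuous_const) (fun α β => ?_) 0 0
      have h3 := hδb (x := (r * E1 α, r * E1 β)) (by
        rw [dist_eq_norm, Prod.norm_def]
        simp only [Prod.mk_sub_mk, sub_zero]
        rw [norm_mul_E1 hr0.le, norm_mul_E1 hr0.le, max_self]
        exact hrδ)
      rw [dist_eq_norm] at h3
      rw [← sub_eq_add_neg]
      exact h3.le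
    have h0 : ‖c 0 0 - F 0 0‖ = 0 :=
      le_antisymm (le_of_forall_pos_le_add fun ε hε => by rw [zero_add]; exact hlim ε hε)
        (norm_nonneg _)
    exact sub_eq_zero.mp (norm_eq_zero.mp h0)

theorem coeff_small {F : ℂ → ℂ → ℂ} (hF : Hol2 F) {c : ℤ → ℤ → ℂ}
    (hc : ∀ (m n : ℤ) (r s : ℝ), 0 < r → 0 < s → r ^ 2 + s ^ 2 < 1 →
      T F m n r s = c m n * ((r : ℂ) ^ m * (s : ℂ) ^ n))
    {C δ : ℝ} (hδ : 0 < δ)
    (hb : ∀ z w : ℂ, ‖z‖ ^ 2 + ‖w‖ ^ 2 < δ → ‖F z w‖ ≤ C * (‖z‖ ^ 2 + ‖w‖ ^ 2))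
    (m n : ℤ) (hmn : m + n ≤ 1) : c m n = 0 := by
  rw [← norm_eq_zero]
  refine zero_of_small (M := 2 * C) (ε := min (1 / 2) (min (δ / 4) (1 / 2))) (norm_nonneg _)
    (by positivity) ?_
  intro ε hε hεle
  have hε2 : ε ≤ 1 / 2 := hεle.trans (min_le_left _ _)
  have hεδ : ε ≤ δ / 4 := (hεle.trans (min_le_right _ _)).trans (min_le_left _ _)
  have hsq : ε ^ 2 + ε ^ 2 < δ := by nlinarith
  have q1 := pow_le_pow_left₀ hε.le hε2 2
  norm_num at q1
  have h1 : ‖T F m n ε ε‖ ≤ C * (ε ^ 2 + ε ^ 2) := by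
    refine tang_norm_le_const (cont_torus hF hε hε (by linarith)) (fun α β => ?_) m n
    have := hb (ε * E1 α) (ε * E1 β) (by
      rw [norm_mul_E1 hε.le, norm_mul_E1 hε.le]
      exact hsq)
    rwa [norm_mul_E1 hε.le, norm_mul_E1 hε.le] at this
  rw [hc m n ε ε hε hε (by linarith), norm_mul, norm_mul, norm_zpow, norm_zpow,
    Complex.norm_real, Real.norm_eq_abs, abs_of_pos hε, ← zpow_add₀ hε.ne'] at h1
  have h2 : ε ≤ ε ^ (m + n) := by
    calc ε = ε ^ (1 : ℤ) := (zpow_one ε).symm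
      _ ≤ ε ^ (m + n) := zpow_le_zpow_right_of_le_one₀ hε (by linarith) hmn
  have h3 : ‖c m n‖ * ε ≤ C * (ε ^ 2 + ε ^ 2) :=
    (mul_le_mul_of_nonneg_left h2 (norm_nonneg _)).trans h1
  have h4 : ‖c m n‖ * ε ≤ 2 * C * ε * ε := by
    calc _ ≤ C * (ε ^ 2 + ε ^ 2) := h3
      _ = _ := by ring
  exact le_of_mul_le_mul_right h4 hε

theorem torus_unique {F : ℂ → ℂ → ℂ} (hF : Hol2 F)
    (h : ∀ (m n : ℤ) (r s : ℝ), 0 < r → 0 < s → r ^ 2 + s ^ 2 < 1 → T F m n r s = 0)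
    (z w : ℂ) (hzw : ‖z‖ ^ 2 + ‖w‖ ^ 2 < 1) : F z w = 0 := by
  -- points with both coordinates nonzero
  have hne : ∀ z w : ℂ, z ≠ 0 → w ≠ 0 → ‖z‖ ^ 2 + ‖w‖ ^ 2 < 1 → F z w = 0 := by
    intro z w hz hw hzw
    have hr : 0 < ‖z‖ := norm_pos_iff.mpr hz
    have hs : 0 < ‖w‖ := norm_pos_iff.mpr hw
    have h1 := tang_unique (g := fun α β => F (‖z‖ * E1 α) (‖w‖ * E1 β))
      (cont_torus hF hr hs hzw) (fun α β => by simp only [E1_periodic])
      (fun α β => by simp only [E1_periodic]) (fun m n => h m n ‖z‖ ‖w‖ hr hs hzw)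
      (Complex.arg z) (Complex.arg w)
    have e1 : (‖z‖ : ℂ) * E1 (Complex.arg z) = z := Complex.norm_mul_exp_arg_mul_I z
    have e2 : (‖w‖ : ℂ) * E1 (Complex.arg w) = w := Complex.norm_mul_exp_arg_mul_I w
    simp only [e1, e2] at h1
    exact h1
  have hopen : IsOpen {p : ℂ × ℂ | ‖p.1‖ ^ 2 + ‖p.2‖ ^ 2 < 1} :=
    isOpen_lt (by fun_prop) continuous_const
  have hca : ContinuousAt (fun p : ℂ × ℂ => F p.1 p.2) (z, w) :=
    hF.cont.continuousAt (hopen.mem_nhds hzw)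
  have hpath : Filter.Tendsto (fun t : ℝ => ((z + t, w + t) : ℂ × ℂ)) (nhdsWithin 0 {0}ᶜ)
      (nhds (z, w)) := by
    have hc : Continuous fun t : ℝ => ((z + t, w + t) : ℂ × ℂ) := by fun_prop
    have := hc.tendsto 0
    simp only [Complex.ofReal_zero, add_zero] at this
    exact this.mono_left nhdsWithin_le_nhds
  have hlim : Filter.Tendsto (fun t : ℝ => F (z + t) (w + t)) (nhdsWithin 0 {0}ᶜ)
      (nhds (F z w)) := hca.tendsto.comp hpath
  have hnz : ∀ u : ℂ, ∀ᶠ t : ℝ in nhdsWithin 0 {0}ᶜ, u + t ≠ 0 := by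
    intro u
    by_cases hu : u = 0
    · filter_upwards [self_mem_nhdsWithin] with t ht
      rw [hu, zero_add]
      exact_mod_cast ht
    · have hc : Continuous fun t : ℝ => u + (t : ℂ) := by fun_prop
      have h1 : ∀ᶠ t : ℝ in nhds 0, u + (t : ℂ) ≠ 0 := by
        refine hc.continuousAt.eventually_ne ?_
        simpa using hu
      exact h1.filter_mono nhdsWithin_le_nhds
  have hev : ∀ᶠ t : ℝ in nhdsWithin 0 {0}ᶜ, F (z + t) (w + t) = 0 := by
    filter_upwards [hnz z, hnz w, hpath.eventually (hopen.mem_nhds hzw)] with t h1 h2 h3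
    exact hne _ _ h1 h2 h3
  have hlim0 : Filter.Tendsto (fun t : ℝ => F (z + t) (w + t)) (nhdsWithin 0 {0}ᶜ)
      (nhds 0) := tendsto_const_nhds.congr' (hev.mono fun t ht => ht.symm)
  exact tendsto_nhds_unique hlim hlim0

end Pool.Agent.P1ae5
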