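import Pool.Agent.Lib.P1ae5.Defs
import Pool.Agent.Lib.P1ae5.TorusHol

/-!
P1ae5.KeyPrep: coordinates in an orthonormal basis and second order vanishing (owner helper48).
-/

open Metric

namespace Pool.Agent.P1ae5

/-- the point with coordinates `z, w` -/
noncomputable def PP (e f : Cn 2) (z w : ℂ) : Cn 2 := z • e + w • f

section basis

variable {e f : Cn 2} (he : ‖e‖ = 1) (hf : ‖f‖ = 1) (hef : ip e f = 0)
include he hf hef

theorem ip_ee : ip e e = 1 := by
  unfold ip; rw [inner_self_eq_norm_sq_to_K, he]; simp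

omit he hf in
theorem ip_fe : ip f e = 0 := by
  unfold ip at *
  rw [← inner_conj_symm, hef, map_zero]

theorem ip_PP_e (z w : ℂ) : ip (PP e f z w) e = z := by
  have h1 := ip_ee he hf hef
  have h2 := ip_fe hef
  unfold PP ip at *
  rw [inner_add_right, inner_smul_right, inner_smul_right, h1, h2]; ring

theorem ip_PP_f (z w : ℂ) : ip (PP e f z w) f = w := by
  have h1 : ip f f = 1 := by unfold ip; rw [inner_self_eq_norm_sq_to_K, hf]; simp
  unfold PP
  unfold ip at *
  rw [inner_add_right, inner_smul_right, inner_smul_right, h1, hef]; ring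

theorem orthonormal_ef : Orthonormal ℂ ![e, f] := by
  rw [orthonormal_iff_ite]
  intro i j
  have h1 := ip_ee he hf hef
  have h1' : ip f f = 1 := by unfold ip; rw [inner_self_eq_norm_sq_to_K, hf]; simp
  have h2 := ip_fe hef
  unfold ip at *
  fin_cases i <;> fin_cases j
  · change inner ℂ e e = _; rw [h1]; simp
  · change inner ℂ e f = _; rw [h2]; simp
  · change inner ℂ f e = _; rw [hef]; simp
  · change inner ℂ f f = _; rw [h1']; simp

theorem expand (y : Cn 2) : y = PP e f (ip y e) (ip y f) := by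
  have hon := orthonormal_ef he hf hef
  let B := basisOfOrthonormalOfCardEqFinrank (𝕜 := ℂ) (E := Cn 2) hon (by simp)
  have hB : ⇑B = ![e, f] := coe_basisOfOrthonormalOfCardEqFinrank hon (by simp)
  let B' := B.toOrthonormalBasis (by rw [hB]; exact hon)
  have hB' : ⇑B' = ![e, f] := by simp [B', hB]
  have h := B'.sum_repr' y
  rw [Fin.sum_univ_two, hB'] at h
  simp only [Matrix.cons_val_zero, Matrix.cons_val_one] at h
  unfold PP ip
  exact h.symm

theorem norm_PP (z w : ℂ) : ‖PP e f z w‖ ^ 2 = ‖z‖ ^ 2 + ‖w‖ ^ 2 := by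
  have h0 : inner ℂ (z • e) (w • f) = (0 : ℂ) := by
    have h2 := ip_fe hef
    unfold ip at h2
    rw [inner_smul_left, inner_smul_right, h2]; simp
  have := norm_add_sq_eq_norm_sq_add_norm_sq_of_inner_eq_zero (𝕜 := ℂ) (z • e) (w • f) h0
  unfold PP
  rw [norm_smul, norm_smul, he, hf] at this
  nlinarith [this]

theorem PP_mem_ball {z w : ℂ} (h : ‖z‖ ^ 2 + ‖w‖ ^ 2 < 1) : PP e f z w ∈ ball (0 : Cn 2) 1 := by
  rw [← norm_PP he hf hef] at h
  rw [mem_ball_zero_iff]
  nlinarith [norm_nonneg (PP e f z w)]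

theorem qf_PP (z w : ℂ) : qf e f (PP e f z w) = 2 * z * w := by
  unfold qf
  rw [ip_PP_e he hf hef, ip_PP_f he hf hef]

theorem ip_PP_right (y : Cn 2) (z w : ℂ) :
    ip y (PP e f z w) = ip y e * (starRingEnd ℂ) z + ip y f * (starRingEnd ℂ) w := by
  unfold PP ip
  rw [inner_add_left, inner_smul_left, inner_smul_left]; ring

omit he hf hef in
theorem differentiable_PP : Differentiable ℂ (fun p : ℂ × ℂ => PP e f p.1 p.2) := by
  unfold PP
  exact (differentiable_fst.smul_const e).add (differentiable_snd.smul_const f)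

theorem hol2_coord {G : Cn 2 → Cn 2} (hG : DifferentiableOn ℂ G (ball 0 1)) (v : Cn 2) :
    Hol2 (fun z w => ip (G (PP e f z w)) v) := by
  have hopen : IsOpen (ball (0 : Cn 2) 1) := isOpen_ball
  have hip : Differentiable ℂ (fun y : Cn 2 => ip y v) := by
    have : (fun y : Cn 2 => ip y v) = fun y => innerSL ℂ v y := by
      ext y; simp [ip]
    rw [this]
    exact (innerSL ℂ v).differentiable
  have key : ∀ p : ℂ × ℂ, ‖p.1‖ ^ 2 + ‖p.2‖ ^ 2 < 1 →
      DifferentiableAt ℂ (fun p : ℂ × ℂ => ip (G (PP e f p.1 p.2)) v) p := by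
    intro p hp
    have h1 : DifferentiableAt ℂ G (PP e f p.1 p.2) :=
      hG.differentiableAt (hopen.mem_nhds (PP_mem_ball he hf hef hp))
    exact (hip _).comp p (h1.comp p (differentiable_PP p))
  refine ⟨fun p hp => (key p hp).continuousAt.continuousWithinAt, ?_, ?_⟩
  · intro z w h
    have h2 : DifferentiableAt ℂ (fun x : ℂ => (x, w)) z :=
      differentiableAt_id.prodMk (differentiableAt_const w)
    exact DifferentiableAt.comp (g := fun p : ℂ × ℂ => ip (G (PP e f p.1 p.2)) v)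
      (f := fun x : ℂ => (x, w)) z (key (z, w) h) h2
  · intro z w h
    have h2 : DifferentiableAt ℂ (fun x : ℂ => (z, x)) w :=
      (differentiableAt_const z).prodMk differentiableAt_id
    exact DifferentiableAt.comp (g := fun p : ℂ × ℂ => ip (G (PP e f p.1 p.2)) v)
      (f := fun x : ℂ => (z, x)) w (key (z, w) h) h2

end basis

/-- second order vanishing -/
theorem second_order {G : Cn 2 → Cn 2} (hG : DifferentiableOn ℂ G (ball 0 1)) (h0 : G 0 = 0)
    (h1 : fderiv ℂ G 0 = 0) : ∃ C : ℝ, 0 ≤ C ∧ ∀ y : Cn 2, ‖y‖ < 1 / 2 → ‖G y‖ ≤ C * ‖y‖ ^ 2 := by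
  have hcont : ContinuousOn G (closedBall 0 (1 / 2)) :=
    hG.continuousOn.mono (closedBall_subset_ball (by norm_num))
  obtain ⟨M, hM⟩ := (isCompact_closedBall (0 : Cn 2) (1 / 2)).exists_bound_of_continuousOn hcont
  set M' : ℝ := max M 1 with hM'
  have hM0 : 0 < M' := lt_of_lt_of_le one_pos (le_max_right _ _)
  have hMM : ∀ y : Cn 2, ‖y‖ ≤ 1 / 2 → ‖G y‖ < 2 * M' := by
    intro y hy
    have := hM y (by simpa using hy)
    have h3 : M ≤ M' := le_max_left _ _
    linarith
  refine ⟨16 * (2 * M'), by positivity, ?_⟩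
  intro y hy
  by_cases hy0 : y = 0
  · subst hy0; simp [h0]
  have hn : 0 < ‖y‖ := norm_pos_iff.2 hy0
  set u : Cn 2 := ((‖y‖⁻¹ : ℝ) : ℂ) • y with hu
  have hun : ‖u‖ = 1 := by
    rw [hu, norm_smul, Complex.norm_real, norm_inv, norm_norm, inv_mul_cancel₀ hn.ne']
  have hyu : y = ((‖y‖ : ℝ) : ℂ) • u := by
    rw [hu, smul_smul, ← Complex.ofReal_mul, mul_inv_cancel₀ hn.ne', Complex.ofReal_one, one_smul]
  set φ : ℂ → Cn 2 := fun l => G (l • u) with hφ
  have hmem : ∀ l ∈ ball (0 : ℂ) (1 / 2), l • u ∈ ball (0 : Cn 2) 1 := by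
    intro l hl
    rw [mem_ball_zero_iff] at hl ⊢
    rw [norm_smul, hun]; linarith
  have hφd : DifferentiableOn ℂ φ (ball 0 (1 / 2)) := by
    intro l hl
    have h3 : DifferentiableAt ℂ G (l • u) := hG.differentiableAt (isOpen_ball.mem_nhds (hmem l hl))
    exact (h3.comp l (differentiableAt_id.smul_const u)).differentiableWithinAt
  have hφ0 : φ 0 = 0 := by simp [hφ, h0]
  have hφ1 : deriv φ 0 = 0 := by
    have h3 : HasFDerivAt G (fderiv ℂ G 0) ((0 : ℂ) • u) := by
      rw [zero_smul]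
      exact (hG.differentiableAt (isOpen_ball.mem_nhds (by simp))).hasFDerivAt
    have h4 : HasDerivAt (fun l : ℂ => l • u) u 0 := by
      simpa using (hasDerivAt_id (0 : ℂ)).smul_const u
    have h5 := h3.comp_hasDerivAt (0 : ℂ) h4
    rw [h1] at h5
    have h6 := h5.deriv
    simp only [ContinuousLinearMap.zero_apply] at h6
    exact h6
  have hmap : Set.MapsTo φ (ball 0 (1 / 2)) (ball (φ 0) (2 * M')) := by
    intro l hl
    rw [hφ0, mem_ball_zero_iff]
    apply hMM
    rw [mem_ball_zero_iff] at hl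
    rw [norm_smul, hun]; linarith
  set ψ : ℂ → Cn 2 := dslope φ 0 with hψ
  have hψd : DifferentiableOn ℂ ψ (ball 0 (1 / 2)) :=
    (Complex.differentiableOn_dslope (ball_mem_nhds _ (by norm_num))).2 hφd
  have hψb : ∀ l ∈ ball (0 : ℂ) (1 / 2), ‖ψ l‖ ≤ 2 * M' / (1 / 2) := by
    intro l hl
    exact Complex.norm_dslope_le_div_of_mapsTo_ball hφd
      (hmap.mono_right ball_subset_closedBall) hl
  have hψ0 : ψ 0 = 0 := by rw [hψ, dslope_same, hφ1]
  have hmap2 : Set.MapsTo ψ (ball 0 (1 / 2)) (ball (ψ 0) (8 * M')) := by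
    intro l hl
    rw [hψ0, mem_ball_zero_iff]
    have := hψb l hl
    linarith
  have hχ : ∀ l ∈ ball (0 : ℂ) (1 / 2), ‖dslope ψ 0 l‖ ≤ 8 * M' / (1 / 2) := by
    intro l hl
    exact Complex.norm_dslope_le_div_of_mapsTo_ball hψd
      (hmap2.mono_right ball_subset_closedBall) hl
  set l : ℂ := ((‖y‖ : ℝ) : ℂ) with hl
  have hlb : l ∈ ball (0 : ℂ) (1 / 2) := by
    rw [mem_ball_zero_iff, hl, Complex.norm_real, norm_norm]; exact hy
  have e1 : φ l = l • ψ l := by
    have := sub_smul_dslope φ 0 l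
    rw [sub_zero, hφ0, sub_zero] at this
    exact this.symm
  have e2 : ψ l = l • dslope ψ 0 l := by
    have := sub_smul_dslope ψ 0 l
    rw [sub_zero, hψ0, sub_zero] at this
    exact this.symm
  have e3 : G y = l • (l • dslope ψ 0 l) := by
    rw [← e2, ← e1, hφ]
    simp only
    rw [← hyu]
  rw [e3, norm_smul, norm_smul, hl, Complex.norm_real, norm_norm]
  have := hχ l hlb
  calc ‖y‖ * (‖y‖ * ‖dslope ψ 0 l‖) ≤ ‖y‖ * (‖y‖ * (8 * M' / (1 / 2))) := by gcongr
    _ ≤ _ := by nlinarith [sq_nonneg ‖y‖]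

/-- the constant function -/
theorem tang_one (m n : ℤ) : Tang (fun _ _ => 1) m n = if m = 0 ∧ n = 0 then 1 else 0 := by
  have hint : ∀ k : ℤ, ∫ α in (0 : ℝ)..2 * Real.pi, E1 α ^ (-k) =
      if k = 0 then ((2 * Real.pi : ℝ) : ℂ) else 0 := by
    intro k
    split_ifs with hk
    · subst hk; simp
    · have h1 : ∀ α : ℝ, E1 α ^ (-k) = Complex.exp ((-(k : ℂ) * Complex.I) * α) := by
        intro α
        unfold E1
        rw [← Complex.exp_int_mul]
        congr 1
        push_cast; ring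
      have h2 : (-(k : ℂ) * Complex.I) ≠ 0 := by
        simp [hk, Complex.I_ne_zero]
      simp_rw [h1]
      rw [integral_exp_mul_complex h2]
      have h3 : Complex.exp (-(k : ℂ) * Complex.I * ((2 * Real.pi : ℝ) : ℂ)) = 1 := by
        rw [Complex.exp_eq_one_iff]
        exact ⟨-k, by push_cast; ring⟩
      rw [h3]; simp
  unfold Tang
  have hpi : ((2 * Real.pi : ℝ) : ℂ) ≠ 0 := by
    simp [Real.pi_ne_zero]
  simp_rw [one_mul, intervalIntegral.integral_const_mul, hint, intervalIntegral.integral_mul_const,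
    hint]
  by_cases hm : m = 0 <;> by_cases hn : n = 0 <;> simp only [hm, hn, if_true, if_false, and_true,
    and_false, false_and, mul_zero, zero_mul]
  field_simp

end Pool.Agent.P1ae5
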