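import Pool.Agent.Lib.P1ae5.Defs

/-!
P1ae5.NotSupp (MP_1ae5d5_an). STUB, statements fixed.

Hypothesis: `P` holomorphic on the ball, `P z ≠ 0` there, and
`‖P z‖ * ‖z‖^2 ≤ (ip (h z) z).re` on the ball. Then `h` is not a support point.

Proof. Suppose `Λ` is a functional, `Re Λ` maximal over `NA A` at `h`, and `g0 ∈ NA A` with
`Re Λ g0 ≠ Re Λ h`. Put `f = g0 - h`: holomorphic, `f 0 = 0`, `fderiv f 0 = 0`,
`Re Λ f = Re Λ g0 - Re Λ h ≠ 0` (linearity; `Λ (f + h) = Λ f + Λ h`, and `f + h = g0`).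
Let `k = f/P` (`k z = (P z)⁻¹ • f z`), holomorphic on the ball, `k 0 = 0`, `fderiv k 0 = 0`. For
`0 < ρ < 1` put `k_ρ z = k (ρ z)`, holomorphic on the ball of radius `1/ρ > 1`, with vanishing
value and derivative at `0`: so there is `M` with `‖k_ρ z‖ ≤ M ‖z‖^2`... we only need
`‖k_ρ z‖ ≤ M ‖z‖` on the unit ball (near `0` from differentiability at `0` with `k_ρ 0 = 0`,
elsewhere since `k_ρ` is continuous on the compact closed unit ball; alternatively
`z ↦ ‖k_ρ z‖/‖z‖` extends...; or Schwarz lemma `Complex.norm_le_norm_of_mapsTo_ball`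
applied on slices). Let `ε = 1/(2M+2)` and `g z = ε P z k_ρ z` (`= ε • (P z • k (ρ z))`). Then
`|Re ip (g z) z| ≤ ε M ‖P z‖ ‖z‖^2 < Re ip (h z) z` for `z ≠ 0` in the ball, `g` is
holomorphic, `g 0 = 0`, `fderiv g 0 = 0`. So `h + g` and `h - g` are in `NA A`, and maximality gives
`Re Λ g = 0` (`Λ (h + g) = Λ h + Λ g`, `Λ (h - g) = Λ h - Λ g`). So `Re Λ (P k_ρ) = 0` for all
`0 < ρ < 1` (`Λ (c • ·)` with `c = ε` real). As `ρ → 1`, `P k_ρ → P k = f` uniformly on the
compact `K ⊆ ball 0 1` of the functional (uniform continuity of `k` on a compact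
neighbourhood: `K ⊆ closedBall 0 r`, `r < 1`, `k` uniformly continuous on `closedBall 0 r`, `P`
bounded on `K`); so `Λ (P k_ρ) → Λ f` and `Re Λ f = 0`, a contradiction.

Second statement: if `P` is holomorphic, not identically zero on the ball, with
`‖P z‖ * ‖z‖^2 ≤ (ip (h z) z).re` and `h ∈ NA A`, then `h` is not extreme (`n ≥ 1`): let
`g z = (1/2) P z • (z_0 • z)`; `|Re ip (g z) z| = (1/2) |Re (P z z_0)| ‖z‖^2 < ...` for `z ≠ 0`
(`|z_0| < 1`, and `0 < (ip (h z) z).re`), `g 0 = 0`, `fderiv g 0 = 0`, so `h ± g ∈ NA A` and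
`h = (1/2)(h+g) + (1/2)(h-g)`; extremality gives `g = 0` on the ball, hence `P z z_0 = 0` for
all `z` in the ball, `P = 0` where `z_0 ≠ 0`, and everywhere by continuity: contradiction.
-/

open Metric

namespace Pool.Agent.P1ae5

namespace NotSuppAux

lemma ns_norm_le {n : ℕ} (z w : Cn n) : ‖ip z w‖ ≤ ‖z‖ * ‖w‖ := by
  unfold ip; rw [mul_comm]; exact norm_inner_le_norm w z

lemma ns_add {n : ℕ} (z z' w : Cn n) : ip (z + z') w = ip z w + ip z' w := by
  unfold ip; rw [inner_add_right]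

lemma ns_smul {n : ℕ} (a : ℂ) (z w : Cn n) : ip (a • z) w = a * ip z w := by
  unfold ip; rw [inner_smul_right]

lemma ball_nhds {n : ℕ} : ball (0 : Cn n) 1 ∈ nhds (0 : Cn n) := ball_mem_nhds 0 one_pos

/-- perturbation of a member of the family -/
lemma perturb {n : ℕ} {A : Cn n →L[ℂ] Cn n} {h g : Cn n → Cn n} (hh : h ∈ NA A)
    (hg : DifferentiableOn ℂ g (ball 0 1)) (hg0 : g 0 = 0)
    (hg1 : HasFDerivAt g (0 : Cn n →L[ℂ] Cn n) 0)
    (hlt : ∀ z ∈ ball (0 : Cn n) 1, z ≠ 0 → |(ip (g z) z).re| < (ip (h z) z).re) :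
    h + g ∈ NA A := by
  obtain ⟨h1, h2, h3, h4⟩ := hh
  refine ⟨h1.add hg, by simp [h2, hg0], ?_, fun z hz hz0 => ?_⟩
  · have hd : HasFDerivAt h A 0 := by
      have := (h1.differentiableAt ball_nhds).hasFDerivAt
      rwa [h3] at this
    have := (hd.add hg1).fderiv
    rwa [add_zero] at this
  · rw [Pi.add_apply, ns_add, Complex.add_re]
    have := (abs_lt.1 (hlt z hz hz0)).1
    linarith

end NotSuppAux

open NotSuppAux

theorem not_support_of_minorant {n : ℕ} {A : Cn n →L[ℂ] Cn n} {h : Cn n → Cn n}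
    {P : Cn n → ℂ} (hP : DifferentiableOn ℂ P (ball 0 1))
    (hP0 : ∀ z ∈ ball (0 : Cn n) 1, P z ≠ 0)
    (hm : ∀ z ∈ ball (0 : Cn n) 1, ‖P z‖ * ‖z‖ ^ 2 ≤ (ip (h z) z).re) :
    ¬ IsSupport A h := by
  rintro ⟨hh, Λ, ⟨hadd, hsm, K, hKb, hKc, C, hC⟩, ⟨g0, hg0, hne⟩, hmax⟩
  obtain ⟨h1, h2, h3, h4⟩ := hh
  obtain ⟨a1, a2, a3, a4⟩ := hg0
  have hhd : HasFDerivAt h A 0 := by
    have := (h1.differentiableAt ball_nhds).hasFDerivAt
    rwa [h3] at this
  have hgd : HasFDerivAt g0 A 0 := by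
    have := (a1.differentiableAt ball_nhds).hasFDerivAt
    rwa [a3] at this
  let f : Cn n → Cn n := fun z => g0 z - h z
  have hf : DifferentiableOn ℂ f (ball 0 1) := a1.fun_sub h1
  have hf0 : f 0 = 0 := by simp [f, a2, h2]
  have hfd : HasFDerivAt f (0 : Cn n →L[ℂ] Cn n) 0 := by
    have := hgd.fun_sub hhd
    rwa [sub_self] at this
  let k : Cn n → Cn n := fun z => (P z)⁻¹ • f z
  have hk : DifferentiableOn ℂ k (ball 0 1) := (hP.fun_inv hP0).fun_smul hf
  have hk0 : k 0 = 0 := by simp [k, hf0]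
  have hkd : HasFDerivAt k (0 : Cn n →L[ℂ] Cn n) 0 := by
    have hPi : HasFDerivAt (fun z => (P z)⁻¹) (fderiv ℂ (fun z => (P z)⁻¹) 0) 0 :=
      ((hP.fun_inv hP0).differentiableAt ball_nhds).hasFDerivAt
    have h5 := hPi.fun_smul hfd
    refine h5.congr_fderiv ?_
    ext z
    simp [hf0]
  have hPk : ∀ z ∈ ball (0 : Cn n) 1, P z • k z = f z := by
    intro z hz
    change P z • (P z)⁻¹ • f z = f z
    rw [smul_smul, mul_inv_cancel₀ (hP0 z hz), one_smul]
  -- the functional vanishes on `P k_ρ`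
  have hvan : ∀ ρ : ℝ, 0 < ρ → ρ < 1 → (Λ (fun z => P z • k ((ρ : ℂ) • z))).re = 0 ∧
      DifferentiableOn ℂ (fun z => P z • k ((ρ : ℂ) • z)) (ball 0 1) := by
    intro ρ hρ0 hρ1
    have hnρ : ∀ z : Cn n, ‖(ρ : ℂ) • z‖ = ρ * ‖z‖ := fun z => by
      rw [norm_smul, Complex.norm_real, Real.norm_of_nonneg hρ0.le]
    have hmaps : ∀ z ∈ closedBall (0 : Cn n) 1, (ρ : ℂ) • z ∈ ball (0 : Cn n) 1 := by
      intro z hz
      rw [mem_ball_zero_iff, hnρ]
      rw [mem_closedBall_zero_iff] at hz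
      nlinarith [norm_nonneg z]
    have hsmd : Differentiable ℂ fun z : Cn n => (ρ : ℂ) • z := by fun_prop
    have hkρ : DifferentiableOn ℂ (fun z => k ((ρ : ℂ) • z)) (closedBall 0 1) :=
      hk.fun_comp hsmd.differentiableOn hmaps
    have hkρ' : DifferentiableOn ℂ (fun z => k ((ρ : ℂ) • z)) (ball 0 1) :=
      hkρ.mono ball_subset_closedBall
    have hkρd : HasFDerivAt (fun z => k ((ρ : ℂ) • z)) (0 : Cn n →L[ℂ] Cn n) 0 := by
      have h5 : HasFDerivAt (fun z : Cn n => (ρ : ℂ) • z)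
          ((ρ : ℂ) • ContinuousLinearMap.id ℂ (Cn n)) 0 :=
        ((ρ : ℂ) • ContinuousLinearMap.id ℂ (Cn n)).hasFDerivAt
      have h6 : HasFDerivAt k (0 : Cn n →L[ℂ] Cn n) ((ρ : ℂ) • (0 : Cn n)) := by
        rw [smul_zero]
        exact hkd
      have h7 := h6.comp (0 : Cn n) h5
      rw [ContinuousLinearMap.zero_comp] at h7
      exact h7
    obtain ⟨M, hM0, hM⟩ : ∃ M : ℝ, 0 ≤ M ∧ ∀ z ∈ ball (0 : Cn n) 1,
        ‖k ((ρ : ℂ) • z)‖ ≤ M * ‖z‖ := by
      have h5 := (hasFDerivAt_iff_isLittleO_nhds_zero.1 hkρd)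
      have h6 := h5.def one_pos
      obtain ⟨δ, hδ, h7⟩ := Metric.eventually_nhds_iff.1 h6
      obtain ⟨B, hB⟩ := (isCompact_closedBall (0 : Cn n) 1).exists_bound_of_continuousOn
        hkρ.continuousOn
      have hB0 : 0 ≤ B := (norm_nonneg _).trans (hB 0 (by simp))
      refine ⟨1 + B / δ, by positivity, fun z hz => ?_⟩
      have hBd : 0 ≤ B / δ := by positivity
      by_cases hz' : ‖z‖ < δ
      · have h8 := h7 (y := z) (by rwa [dist_zero_right])
        simp only [zero_add, smul_zero, hk0, sub_zero, zero_apply,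
          one_mul] at h8
        have : 0 ≤ B / δ * ‖z‖ := by positivity
        linarith
      · push Not at hz'
        have h8 := hB z (ball_subset_closedBall hz)
        have h9 : B ≤ B / δ * ‖z‖ := by
          have : B / δ * δ ≤ B / δ * ‖z‖ := mul_le_mul_of_nonneg_left hz' hBd
          rwa [div_mul_cancel₀ _ hδ.ne'] at this
        have := norm_nonneg z
        linarith
    have hF : DifferentiableOn ℂ (fun z => P z • k ((ρ : ℂ) • z)) (ball 0 1) :=
      hP.fun_smul hkρ'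
    have hF1 : HasFDerivAt (fun z => P z • k ((ρ : ℂ) • z)) (0 : Cn n →L[ℂ] Cn n) 0 := by
      have h5 := ((hP.differentiableAt ball_nhds).hasFDerivAt).fun_smul hkρd
      refine h5.congr_fderiv ?_
      ext z
      simp [hk0]
    refine ⟨?_, hF⟩
    set ε : ℝ := 1 / (M + 1) with hε
    have hε0 : 0 < ε := by positivity
    have hεM : ε * M < 1 := by
      rw [hε, one_div, inv_mul_lt_iff₀ (by positivity)]
      linarith
    let F : Cn n → Cn n := fun z => P z • k ((ρ : ℂ) • z)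
    have hFz : ∀ z, F z = P z • k ((ρ : ℂ) • z) := fun z => rfl
    have hF0 : F 0 = 0 := by simp [F, hk0]
    have key : ∀ c : ℂ, ‖c‖ = ε → h + c • F ∈ NA A := by
      intro c hc
      refine perturb ⟨h1, h2, h3, h4⟩ (hF.const_smul c) (by simp [hF0]) ?_ fun z hz hz0 => ?_
      · have := hF1.const_smul c
        rw [smul_zero] at this
        exact this
      · have hpz : 0 < ‖P z‖ := norm_pos_iff.2 (hP0 z hz)
        have hz1 : 0 < ‖z‖ := norm_pos_iff.2 hz0
        refine lt_of_lt_of_le ?_ (hm z hz)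
        rw [Pi.smul_apply, ns_smul]
        refine lt_of_le_of_lt (Complex.abs_re_le_norm _) ?_
        rw [norm_mul, hc]
        have h5 : ‖ip (F z) z‖ ≤ ‖P z‖ * (M * ‖z‖) * ‖z‖ := by
          refine (ns_norm_le _ _).trans ?_
          rw [hFz, norm_smul]
          gcongr
          exact hM z hz
        calc ε * ‖ip (F z) z‖ ≤ ε * (‖P z‖ * (M * ‖z‖) * ‖z‖) :=
              mul_le_mul_of_nonneg_left h5 hε0.le
          _ = (ε * M) * (‖P z‖ * ‖z‖ ^ 2) := by ring
          _ < 1 * (‖P z‖ * ‖z‖ ^ 2) := mul_lt_mul_of_pos_right hεM (by positivity)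
          _ = ‖P z‖ * ‖z‖ ^ 2 := one_mul _
    have hlin : ∀ c : ℂ, ‖c‖ = ε → (c * Λ F).re ≤ 0 := by
      intro c hc
      have h5 := hmax _ (key c hc)
      rw [hadd h (c • F) h1 (hF.const_smul c), hsm c F hF, Complex.add_re] at h5
      linarith
    have h5 := hlin (ε : ℂ) (by rw [Complex.norm_real, Real.norm_of_nonneg hε0.le])
    have h6 := hlin (-(ε : ℂ)) (by rw [norm_neg, Complex.norm_real, Real.norm_of_nonneg hε0.le])
    rw [neg_mul, Complex.neg_re, Complex.re_ofReal_mul] at h6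
    rw [Complex.re_ofReal_mul] at h5
    have h7 : ε * (Λ F).re = 0 := by linarith
    exact (mul_eq_zero.1 h7).resolve_left hε0.ne'
  -- the value on `f`
  have hΛf : (Λ f).re ≠ 0 := by
    have h5 := hadd f h hf h1
    have h6 : f + h = g0 := by
      funext z
      simp [f]
    rw [h6] at h5
    intro h7
    apply hne
    rw [h5, Complex.add_re, h7, zero_add]
  -- approximation
  obtain ⟨r, hr1, hKr⟩ : ∃ r : ℝ, r < 1 ∧ K ⊆ closedBall (0 : Cn n) r := by
    rcases K.eq_empty_or_nonempty with hK | hK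
    · exact ⟨0, one_pos, by simp [hK]⟩
    · obtain ⟨z0, hz0, hz0m⟩ := hKc.exists_isMaxOn hK continuous_norm.continuousOn
      refine ⟨‖z0‖, by simpa using hKb hz0, fun z hz => ?_⟩
      rw [mem_closedBall_zero_iff]
      exact hz0m hz
  have hrb : closedBall (0 : Cn n) r ⊆ ball 0 1 := closedBall_subset_ball hr1
  have huc : UniformContinuousOn k (closedBall (0 : Cn n) r) :=
    (isCompact_closedBall _ _).uniformContinuousOn_of_continuous (hk.continuousOn.mono hrb)
  obtain ⟨B, hB⟩ := hKc.exists_bound_of_continuousOn (hP.continuousOn.mono hKb)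
  set τ : ℝ := |(Λ f).re| with hτ
  have hτ0 : 0 < τ := abs_pos.2 hΛf
  set η : ℝ := τ / (2 * (|C| + 1)) with hη
  have hη0 : 0 < η := by positivity
  obtain ⟨δ, hδ, hδ'⟩ := Metric.uniformContinuousOn_iff.1 huc (η / (|B| + 1)) (by positivity)
  obtain ⟨ρ, hρ0, hρ1, hρδ⟩ : ∃ ρ : ℝ, 0 < ρ ∧ ρ < 1 ∧ 1 - ρ < δ := by
    refine ⟨max (1 / 2) (1 - δ / 2), lt_of_lt_of_le (by norm_num) (le_max_left _ _), ?_, ?_⟩
    · exact max_lt (by norm_num) (by linarith)
    · have := le_max_right (1 / 2 : ℝ) (1 - δ / 2)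
      linarith
  obtain ⟨v1, v2⟩ := hvan ρ hρ0 hρ1
  set F : Cn n → Cn n := fun z => P z • k ((ρ : ℂ) • z) with hFdef
  have hG : DifferentiableOn ℂ (f + (-1 : ℂ) • F) (ball 0 1) := hf.add (v2.const_smul _)
  have hbound : ∀ z ∈ K, ‖(f + (-1 : ℂ) • F) z‖ ≤ η := by
    intro z hz
    have hzb := hKb hz
    have hzr := hKr hz
    have e1 : (f + (-1 : ℂ) • F) z = P z • (k z - k ((ρ : ℂ) • z)) := by
      rw [Pi.add_apply, Pi.smul_apply, ← hPk z hzb, hFdef, smul_sub]
      simp [sub_eq_add_neg]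
    have hρz : (ρ : ℂ) • z ∈ closedBall (0 : Cn n) r := by
      rw [mem_closedBall_zero_iff] at hzr ⊢
      rw [norm_smul, Complex.norm_real, Real.norm_of_nonneg hρ0.le]
      nlinarith [norm_nonneg z]
    have hdist : dist z ((ρ : ℂ) • z) < δ := by
      have e2 : z - (ρ : ℂ) • z = ((1 - ρ : ℝ) : ℂ) • z := by
        push_cast
        rw [sub_smul, one_smul]
      rw [dist_eq_norm, e2, norm_smul, Complex.norm_real, Real.norm_of_nonneg (by linarith)]
      have : ‖z‖ < 1 := by simpa using hzb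
      nlinarith [norm_nonneg z]
    have h5 := hδ' z hzr _ hρz hdist
    rw [dist_eq_norm] at h5
    rw [e1, norm_smul]
    have hBz : ‖P z‖ ≤ |B| + 1 := by
      have := hB z hz
      have := le_abs_self B
      linarith
    calc ‖P z‖ * ‖k z - k ((ρ : ℂ) • z)‖ ≤ (|B| + 1) * (η / (|B| + 1)) := by
          gcongr
      _ = η := by field_simp
  have h5 := hC _ hG η hη0.le hbound
  rw [hadd f _ hf (v2.const_smul _), hsm _ _ v2] at h5
  have h6 : (Λ f + -1 * Λ F).re = (Λ f).re := by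
    rw [neg_one_mul, Complex.add_re, Complex.neg_re, v1, neg_zero, add_zero]
  have h7 : τ ≤ C * η := by
    rw [hτ, ← h6]
    exact (Complex.abs_re_le_norm _).trans h5
  have h8 : C * η ≤ |C| * η := mul_le_mul_of_nonneg_right (le_abs_self C) hη0.le
  have h9 : (|C| + 1) * η = τ / 2 := by
    rw [hη]
    field_simp
  nlinarith

theorem not_extreme_of_minorant {n : ℕ} (hn : 1 ≤ n) {A : Cn n →L[ℂ] Cn n} {h : Cn n → Cn n}
    {P : Cn n → ℂ} (hP : DifferentiableOn ℂ P (ball 0 1))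
    (hP0 : ∃ z ∈ ball (0 : Cn n) 1, P z ≠ 0)
    (hm : ∀ z ∈ ball (0 : Cn n) 1, ‖P z‖ * ‖z‖ ^ 2 ≤ (ip (h z) z).re) :
    ¬ IsExtreme A h := by
  rintro ⟨hh, hext⟩
  obtain ⟨h1, h2, h3, h4⟩ := hh
  let i0 : Fin n := ⟨0, hn⟩
  have hpr : Differentiable ℂ fun z : Cn n => z i0 :=
    (EuclideanSpace.proj i0 : Cn n →L[ℂ] ℂ).differentiable
  let φ : Cn n → ℂ := fun z => P z * z i0
  have hφ : DifferentiableOn ℂ φ (ball 0 1) := hP.fun_mul hpr.differentiableOn
  have hφ0 : φ 0 = 0 := by simp [φ]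
  let G : Cn n → Cn n := fun z => φ z • z
  have hG : DifferentiableOn ℂ G (ball 0 1) := hφ.fun_smul differentiableOn_id
  have hG0 : G 0 = 0 := by simp [G]
  have hG1 : HasFDerivAt G (0 : Cn n →L[ℂ] Cn n) 0 := by
    have h5 := ((hφ.differentiableAt ball_nhds).hasFDerivAt).fun_smul (hasFDerivAt_id (0 : Cn n))
    refine h5.congr_fderiv ?_
    ext z
    simp [hφ0]
  have key : ∀ c : ℂ, ‖c‖ = 1 / 2 → h + c • G ∈ NA A := by
    intro c hc
    refine perturb ⟨h1, h2, h3, h4⟩ (hG.const_smul c) (by simp [hG0]) ?_ fun z hz hz0 => ?_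
    · have := hG1.const_smul c
      rw [smul_zero] at this
      exact this
    · have hpos := h4 z hz hz0
      have hz1 : ‖z‖ < 1 := by simpa using hz
      rw [Pi.smul_apply, ns_smul]
      refine lt_of_le_of_lt (Complex.abs_re_le_norm _) ?_
      rw [norm_mul, hc]
      have hi : ‖z i0‖ ≤ ‖z‖ := by
        have := PiLp.norm_apply_le z i0
        exact this
      have h5 : ‖ip (G z) z‖ ≤ ‖P z‖ * ‖z‖ ^ 2 := by
        refine (ns_norm_le _ _).trans ?_
        change ‖(P z * z i0) • z‖ * ‖z‖ ≤ _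
        rw [norm_smul, norm_mul]
        have : ‖P z‖ * ‖z i0‖ ≤ ‖P z‖ * 1 :=
          mul_le_mul_of_nonneg_left (hi.trans hz1.le) (norm_nonneg _)
        have h6 := mul_le_mul_of_nonneg_right this (sq_nonneg ‖z‖)
        nlinarith
      have := hm z hz
      linarith
  have k1 := key (1 / 2) (by norm_num)
  have k2 := key (-(1 / 2)) (by norm_num)
  have hG' : ∀ z ∈ ball (0 : Cn n) 1, G z = 0 := by
    intro z hz
    have h5 := (hext _ k1 _ k2 (1 / 2) (by norm_num) (by norm_num) (fun z hz => by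
      rw [Pi.add_apply, Pi.add_apply, Pi.smul_apply, Pi.smul_apply]
      push_cast
      module) z hz).1
    rw [Pi.add_apply, Pi.smul_apply] at h5
    have h6 : (1 / 2 : ℂ) • G z = 0 := by
      have := congrArg (fun v => v - h z) h5
      simpa using this
    exact (smul_eq_zero.1 h6).resolve_left (by norm_num)
  have hPz : ∀ z ∈ ball (0 : Cn n) 1, z i0 ≠ 0 → P z = 0 := by
    intro z hz hzi
    have h5 := hG' z hz
    rcases smul_eq_zero.1 h5 with h6 | h6
    · exact (mul_eq_zero.1 h6).resolve_right hzi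
    · exfalso
      apply hzi
      rw [h6]
      rfl
  obtain ⟨z, hz, hPz0⟩ := hP0
  apply hPz0
  by_cases hzi : z i0 ≠ 0
  · exact hPz z hz hzi
  · push Not at hzi
    -- approximate by `z + t e`
    let e : Cn n := EuclideanSpace.single i0 (1 : ℂ)
    have hei : e i0 = 1 := by simp [e]
    have hcont : Filter.Tendsto (fun m : ℕ => z + ((1 / ((m : ℝ) + 1) : ℝ) : ℂ) • e)
        Filter.atTop (nhds z) := by
      have h5 : Filter.Tendsto (fun m : ℕ => (((1 / ((m : ℝ) + 1) : ℝ)) : ℂ)) Filter.atTop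
          (nhds 0) := by
        have := tendsto_one_div_add_atTop_nhds_zero_nat (𝕜 := ℝ)
        have h6 := (Complex.continuous_ofReal.tendsto 0).comp this
        rw [Complex.ofReal_zero] at h6
        exact h6
      have h6 := (h5.smul_const e).const_add z
      simpa using h6
    have hPc : Filter.Tendsto (fun m : ℕ => P (z + ((1 / ((m : ℝ) + 1) : ℝ) : ℂ) • e))
        Filter.atTop (nhds (P z)) := by
      have h5 : ContinuousAt P z := hP.continuousOn.continuousAt (isOpen_ball.mem_nhds hz)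
      exact h5.tendsto.comp hcont
    have hev : ∀ᶠ m : ℕ in Filter.atTop, P (z + ((1 / ((m : ℝ) + 1) : ℝ) : ℂ) • e) = 0 := by
      have h5 := hcont.eventually (isOpen_ball.mem_nhds hz)
      filter_upwards [h5] with m hm'
      refine hPz _ hm' ?_
      rw [PiLp.add_apply, PiLp.smul_apply, hzi, hei, zero_add, smul_eq_mul, mul_one]
      have : (0 : ℝ) < 1 / ((m : ℝ) + 1) := by positivity
      exact Complex.ofReal_ne_zero.2 this.ne'
    exact tendsto_nhds_unique hPc ((Filter.tendsto_congr' hev).2 tendsto_const_nhds)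

end Pool.Agent.P1ae5
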