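import Pool.Agent.Lib.P1ae5.Defs

/-! Rotations and rotation averages (black box). -/

open Metric MeasureTheory

namespace Pool.Agent.P1ae5

/-- `e^{iθ}` -/
noncomputable def cis (θ : ℝ) : ℂ := Complex.exp ((θ : ℂ) * Complex.I)

/-- the rotation `z ↦ x⁻¹ H(x z)` -/
noncomputable def rot {n : ℕ} (x : ℂ) (H : Cn n → Cn n) (z : Cn n) : Cn n := x⁻¹ • H (x • z)

/-- the average `z ↦ ∫ e^{-iθ} H(e^{iθ} z) dμ(θ)` -/
noncomputable def rotAvg {n : ℕ} (μ : Measure ℝ) (H : Cn n → Cn n) (z : Cn n) : Cn n :=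
  ∫ θ, rot (cis θ) H z ∂μ

end Pool.Agent.P1ae5
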