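import Pool.Agent.Lib.P1ae5.Defs

/-!
MODULE P1ae5.Scalar (2.5 h). No map `p(z) D z + (A - D) z` with scalar `p` is an extreme point of
`N_A` when `n ≥ 2` (`D = herm A`).

PROOF. `ip z w = inner ℂ w z` is linear in `z`, conjugate linear in `w`; write `<z,w>`.
Let `p1 = fderiv ℂ p 0`, `p1 z = <z, a>` for some `a` (Riesz). As `n ≥ 2` choose `b ≠ 0` with
`<b, a> = 0`. For `b' ∈ {b, i b}` let `K z = -(1/4)(<z,a> b' + <z,b'> a)` (Hermitian),
`L z = (1/2) <z,a> b' + K z = (1/4)(<z,a> b' - <z,b'> a)` (anti-Hermitian: `Re <L z, z> = 0`),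
`g(z) = ((p+1)/2) <z,b'> z + ((p-1)/2) b' + p K z - L z`.
* `g` is holomorphic on the ball, `g(0) = 0`, `Dg(0) = (1/2) p1(·) b' + K - L = 0`.
* With `β = <z,b'>`, `R = ‖z‖ < 1`: `Re <g z, z> = Re[(p+1) β] R^2/2 + Re[(p-1) conj β]/2 +
  Re p <K z,z> = R^2 Re p Re β + (1-R^2) Re[(p-1) conj β]/2 + Re p <K z, z>`.
* `w = (p-1)/(p+1)` maps the ball to the unit disc, `w 0 = 0`, so `|w z| ≤ R` (Schwarz on the
  slice `λ ↦ w (λ z/‖z‖)`), and `|p - 1| = 2|w|/|1-w|`, `Re p = (1-|w|^2)/|1-w|^2`,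
  `|1-w| ≤ 2`, `|w|/(1-|w|^2) ≤ R/(1-R^2)`: `(1 - R^2) |p - 1| ≤ 4 R Re p`.
* so `|Re <g z, z>| ≤ (3 ‖b'‖ + ‖K‖) R^2 Re p` (use `|β| ≤ R ‖b'‖`).
* `h = p D z + (A-D) z` has `Re <h z, z> = Re p <D z,z> ≥ m R^2 Re p` with
  `m = min_{‖z‖=1} Re <A z,z> > 0` (compactness of the sphere, `Re <Az,z> = <Dz,z>`).
  So `h ± ε g ∈ N_A` for small `ε > 0`; if `h` is extreme then `g = 0` on the ball.
* `g = 0` at `z = λ b` (`λ` small real, not 0; `p1 b = 0`), tested against `b`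
  (`<a, b> = 0`): for `b' = b`: `(p+1) λ^2 ‖b‖^2 + (p-1) = 0`; for `b' = i b`:
  `-(p+1) λ^2 ‖b‖^2 + (p-1) = 0` (up to the common factor `i ‖b‖^2/2`), `p = p(λ b)`.
  Adding: `p = 1`, subtracting: `(p+1) λ^2 ‖b‖^2 = 0`, contradiction.
-/

open Metric

namespace Pool.Agent.P1ae5

private lemma sc_smul {n : ℕ} (a : ℂ) (z w : Cn n) : ip (a • z) w = a * ip z w := by
  unfold ip; rw [inner_smul_right]

private lemma sc_add {n : ℕ} (z z' w : Cn n) : ip (z + z') w = ip z w + ip z' w := by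
  unfold ip; rw [inner_add_right]

private lemma sc_sub {n : ℕ} (z z' w : Cn n) : ip (z - z') w = ip z w - ip z' w := by
  unfold ip; rw [inner_sub_right]

private lemma sc_smul_right {n : ℕ} (a : ℂ) (z w : Cn n) :
    ip z (a • w) = (starRingEnd ℂ) a * ip z w := by
  unfold ip; rw [inner_smul_left]

private lemma sc_conj {n : ℕ} (z w : Cn n) : (starRingEnd ℂ) (ip z w) = ip w z := by
  unfold ip; rw [inner_conj_symm]

private lemma sc_self {n : ℕ} (z : Cn n) : ip z z = ((‖z‖ ^ 2 : ℝ) : ℂ) := by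
  unfold ip; rw [inner_self_eq_norm_sq_to_K]; push_cast; rfl

private lemma sc_norm_le {n : ℕ} (z w : Cn n) : ‖ip z w‖ ≤ ‖z‖ * ‖w‖ := by
  unfold ip; rw [mul_comm]; exact norm_inner_le_norm w z

private lemma sc_zero_left {n : ℕ} (w : Cn n) : ip 0 w = 0 := by
  unfold ip; rw [inner_zero_right]

private lemma sc_herm_ip {n : ℕ} (A : Cn n →L[ℂ] Cn n) (z : Cn n) :
    ip (herm A z) z = (((ip (A z) z).re : ℝ) : ℂ) := by
  have h1 : herm A z = (1 / 2 : ℂ) • (A z + ContinuousLinearMap.adjoint A z) := by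
    simp [herm]
  rw [h1, sc_smul, sc_add]
  have h2 : ip (ContinuousLinearMap.adjoint A z) z = (starRingEnd ℂ) (ip (A z) z) := by
    unfold ip
    rw [ContinuousLinearMap.adjoint_inner_right, inner_conj_symm]
  rw [h2]
  apply Complex.ext
  · simp
    ring
  · simp

private lemma sc_hasFDerivAt_ip {n : ℕ} (e : Cn n) (z : Cn n) :
    HasFDerivAt (fun z : Cn n => ip z e) (innerSL ℂ e) z := by
  have : (fun z : Cn n => ip z e) = (innerSL ℂ e : Cn n → ℂ) := by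
    funext w
    rfl
  rw [this]
  exact (innerSL ℂ e).hasFDerivAt

private lemma sc_diff_ip {n : ℕ} (e : Cn n) : Differentiable ℂ (fun z : Cn n => ip z e) :=
  fun z => (sc_hasFDerivAt_ip e z).differentiableAt

/-- the perturbation -/
private noncomputable def scG {n : ℕ} (p : Cn n → ℂ) (a b : Cn n) (z : Cn n) : Cn n :=
  ((p z + 1) / 2 * ip z b) • z + ((p z - 1) / 2) • b -
    (p z / 4) • (ip z a • b + ip z b • a) - (1 / 4 : ℂ) • (ip z a • b - ip z b • a)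

private lemma sc_re {n : ℕ} (p : Cn n → ℂ) (a b z : Cn n) :
    (ip (scG p a b z) z).re = ‖z‖ ^ 2 * (p z).re * (ip z b).re +
      (1 - ‖z‖ ^ 2) * ((p z - 1) * (starRingEnd ℂ) (ip z b)).re / 2 -
      (p z).re * (ip z a * (starRingEnd ℂ) (ip z b)).re / 2 := by
  have hip : ip (scG p a b z) z = (p z + 1) / 2 * ip z b * ((‖z‖ ^ 2 : ℝ) : ℂ) +
      (p z - 1) / 2 * (starRingEnd ℂ) (ip z b) -
      p z / 4 * (ip z a * (starRingEnd ℂ) (ip z b) + ip z b * (starRingEnd ℂ) (ip z a)) -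
      1 / 4 * (ip z a * (starRingEnd ℂ) (ip z b) - ip z b * (starRingEnd ℂ) (ip z a)) := by
    unfold scG
    rw [sc_sub, sc_sub, sc_add, sc_smul, sc_smul, sc_smul, sc_smul, sc_add, sc_sub, sc_smul,
      sc_smul, sc_self, sc_conj z b, sc_conj z a]
  rw [hip]
  generalize ip z a = α
  generalize ip z b = β
  generalize p z = w
  generalize (‖z‖ ^ 2 : ℝ) = r
  have h2 : w / 2 = w * ((1 / 2 : ℝ) : ℂ) := by push_cast; ring
  have h3 : (w + 1) / 2 = (w + 1) * ((1 / 2 : ℝ) : ℂ) := by push_cast; ring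
  have h4 : (w - 1) / 2 = (w - 1) * ((1 / 2 : ℝ) : ℂ) := by push_cast; ring
  have h5 : w / 4 = w * ((1 / 4 : ℝ) : ℂ) := by push_cast; ring
  have h6 : (1 / 4 : ℂ) = ((1 / 4 : ℝ) : ℂ) := by push_cast; ring
  rw [h3, h4, h5, h6]
  simp only [Complex.mul_re, Complex.mul_im, Complex.add_re, Complex.add_im, Complex.conj_re,
    Complex.conj_im, Complex.sub_re, Complex.sub_im, Complex.one_re, Complex.one_im,
    Complex.ofReal_re, Complex.ofReal_im]
  ring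

private lemma sc_schwarz {n : ℕ} {p : Cn n → ℂ} (hp : DifferentiableOn ℂ p (ball 0 1))
    (hp0 : p 0 = 1) (hpre : ∀ z ∈ ball (0 : Cn n) 1, 0 < (p z).re) {z : Cn n}
    (hz : z ∈ ball (0 : Cn n) 1) : (1 - ‖z‖ ^ 2) * ‖p z - 1‖ ≤ 4 * ‖z‖ * (p z).re := by
  have hlt : ‖z‖ < 1 := by simpa using hz
  have hne : ∀ w ∈ ball (0 : Cn n) 1, p w + 1 ≠ 0 := by
    intro w hw h0
    have h1 := hpre w hw
    have h2 : (p w + 1).re = 0 := by rw [h0, Complex.zero_re]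
    rw [Complex.add_re, Complex.one_re] at h2
    linarith
  have hsq : ∀ w : ℂ, ‖w + 1‖ ^ 2 - ‖w - 1‖ ^ 2 = 4 * w.re := by
    intro w
    rw [← Complex.normSq_eq_norm_sq, ← Complex.normSq_eq_norm_sq, Complex.normSq_apply,
      Complex.normSq_apply]
    simp only [Complex.add_re, Complex.add_im, Complex.sub_re, Complex.sub_im, Complex.one_re,
      Complex.one_im]
    ring
  have hd : DifferentiableOn ℂ (fun w => (p w - 1) * (p w + 1)⁻¹) (ball (0 : Cn n) 1) :=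
    (hp.sub_const 1).fun_mul ((hp.add_const 1).fun_inv hne)
  have hmaps : Set.MapsTo (fun w => (p w - 1) * (p w + 1)⁻¹) (ball (0 : Cn n) 1)
      (closedBall (0 : ℂ) 1) := by
    intro w hw
    rw [mem_closedBall_zero_iff, norm_mul, norm_inv]
    have h1 : 0 < ‖p w + 1‖ := norm_pos_iff.2 (hne w hw)
    rw [← div_eq_mul_inv, div_le_one h1]
    have h2 := hsq (p w)
    have h3 := hpre w hw
    nlinarith [norm_nonneg (p w - 1)]
  have h := Complex.norm_le_norm_of_mapsTo_ball hd hmaps (by rw [hp0]; simp) hlt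
  rw [norm_mul, norm_inv] at h
  have h1 : 0 < ‖p z + 1‖ := norm_pos_iff.2 (hne z hz)
  rw [← div_eq_mul_inv, div_le_iff₀ h1] at h
  have h2 := hsq (p z)
  have h3 := hpre z hz
  have h4 : 1 ≤ ‖p z + 1‖ := by
    have h5 := Complex.re_le_norm (p z + 1)
    rw [Complex.add_re, Complex.one_re] at h5
    linarith
  set R := ‖z‖
  set x := ‖p z - 1‖
  set y := ‖p z + 1‖
  have hR0 : 0 ≤ R := norm_nonneg _
  have hx0 : 0 ≤ x := norm_nonneg _
  have h5 : x ^ 2 ≤ (R * y) ^ 2 := by gcongr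
  have h6 : (1 - R ^ 2) * y ^ 2 ≤ 4 * (p z).re := by nlinarith
  have h7 : 0 ≤ 1 - R ^ 2 := by nlinarith
  have h8 : (1 - R ^ 2) * (x * y) ≤ R * (4 * (p z).re) := by
    calc (1 - R ^ 2) * (x * y) ≤ (1 - R ^ 2) * ((R * y) * y) := by gcongr
      _ = R * ((1 - R ^ 2) * y ^ 2) := by ring
      _ ≤ _ := mul_le_mul_of_nonneg_left h6 hR0
  have h9 : (1 - R ^ 2) * x * 1 ≤ (1 - R ^ 2) * x * y := by gcongr
  linarith

private lemma sc_bound {n : ℕ} {p : Cn n → ℂ} (hp : DifferentiableOn ℂ p (ball 0 1))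
    (hp0 : p 0 = 1) (hpre : ∀ z ∈ ball (0 : Cn n) 1, 0 < (p z).re) (a b : Cn n) {z : Cn n}
    (hz : z ∈ ball (0 : Cn n) 1) : |(ip (scG p a b z) z).re| ≤
      (3 * ‖b‖ + ‖a‖ * ‖b‖) * (‖z‖ ^ 2 * (p z).re) := by
  have hlt : ‖z‖ < 1 := by simpa using hz
  have hS := sc_schwarz hp hp0 hpre hz
  have hu := hpre z hz
  have hα := sc_norm_le z a
  have hβ := sc_norm_le z b
  rw [sc_re]
  set u := (p z).re with hudef
  have hR0 : 0 ≤ ‖z‖ := norm_nonneg _
  have hb0 : 0 ≤ ‖b‖ := norm_nonneg _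
  have ha0 : 0 ≤ ‖a‖ := norm_nonneg _
  have h1 : |(ip z b).re| ≤ ‖z‖ * ‖b‖ := (Complex.abs_re_le_norm _).trans hβ
  have h2 : |((p z - 1) * (starRingEnd ℂ) (ip z b)).re| ≤ ‖p z - 1‖ * (‖z‖ * ‖b‖) := by
    refine (Complex.abs_re_le_norm _).trans ?_
    rw [norm_mul, Complex.norm_conj]
    exact mul_le_mul_of_nonneg_left hβ (norm_nonneg _)
  have h3 : |(ip z a * (starRingEnd ℂ) (ip z b)).re| ≤ ‖z‖ * ‖a‖ * (‖z‖ * ‖b‖) := by
    refine (Complex.abs_re_le_norm _).trans ?_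
    rw [norm_mul, Complex.norm_conj]
    exact mul_le_mul hα hβ (norm_nonneg _) (by positivity)
  have h7 : 0 ≤ 1 - ‖z‖ ^ 2 := by nlinarith
  have t1 : |‖z‖ ^ 2 * u * (ip z b).re| ≤ ‖z‖ ^ 2 * u * ‖b‖ := by
    rw [abs_mul, abs_of_nonneg (by positivity)]
    have h8 : |(ip z b).re| ≤ 1 * ‖b‖ := h1.trans (mul_le_mul_of_nonneg_right hlt.le hb0)
    rw [one_mul] at h8
    exact mul_le_mul_of_nonneg_left h8 (by positivity)
  have t2 : |(1 - ‖z‖ ^ 2) * ((p z - 1) * (starRingEnd ℂ) (ip z b)).re / 2| ≤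
      2 * ‖b‖ * (‖z‖ ^ 2 * u) := by
    rw [abs_div, abs_mul, abs_of_nonneg h7, abs_of_pos (by norm_num : (0 : ℝ) < 2),
      div_le_iff₀ (by norm_num)]
    calc (1 - ‖z‖ ^ 2) * |((p z - 1) * (starRingEnd ℂ) (ip z b)).re| ≤
          (1 - ‖z‖ ^ 2) * (‖p z - 1‖ * (‖z‖ * ‖b‖)) := mul_le_mul_of_nonneg_left h2 h7
      _ = ((1 - ‖z‖ ^ 2) * ‖p z - 1‖) * (‖z‖ * ‖b‖) := by ring
      _ ≤ (4 * ‖z‖ * u) * (‖z‖ * ‖b‖) := mul_le_mul_of_nonneg_right hS (by positivity)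
      _ = 2 * ‖b‖ * (‖z‖ ^ 2 * u) * 2 := by ring
  have t3 : |u * (ip z a * (starRingEnd ℂ) (ip z b)).re / 2| ≤ ‖a‖ * ‖b‖ * (‖z‖ ^ 2 * u) := by
    rw [abs_div, abs_mul, abs_of_pos hu, abs_of_pos (by norm_num : (0 : ℝ) < 2),
      div_le_iff₀ (by norm_num)]
    calc u * |(ip z a * (starRingEnd ℂ) (ip z b)).re| ≤ u * (‖z‖ * ‖a‖ * (‖z‖ * ‖b‖)) :=
          mul_le_mul_of_nonneg_left h3 hu.le
      _ = ‖a‖ * ‖b‖ * (‖z‖ ^ 2 * u) := by ring
      _ ≤ ‖a‖ * ‖b‖ * (‖z‖ ^ 2 * u) * 2 := by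
        have : 0 ≤ ‖a‖ * ‖b‖ * (‖z‖ ^ 2 * u) := by positivity
        linarith
  have h9 := abs_sub (‖z‖ ^ 2 * u * (ip z b).re +
      (1 - ‖z‖ ^ 2) * ((p z - 1) * (starRingEnd ℂ) (ip z b)).re / 2)
      (u * (ip z a * (starRingEnd ℂ) (ip z b)).re / 2)
  have h10 := abs_add_le (‖z‖ ^ 2 * u * (ip z b).re)
      ((1 - ‖z‖ ^ 2) * ((p z - 1) * (starRingEnd ℂ) (ip z b)).re / 2)
  calc _ ≤ ‖z‖ ^ 2 * u * ‖b‖ + 2 * ‖b‖ * (‖z‖ ^ 2 * u) + ‖a‖ * ‖b‖ * (‖z‖ ^ 2 * u) := by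
        linarith
    _ = _ := by ring

private lemma sc_abs_fderiv {E : Type*} [NormedAddCommGroup E] [NormedSpace ℂ E]
    {p α β : E → ℂ} {α' β' : E →L[ℂ] ℂ} (D A : E →L[ℂ] E) (a b : E) (ε : ℂ)
    (hp : HasFDerivAt p α' 0) (hα : HasFDerivAt α α' 0) (hβ : HasFDerivAt β β' 0)
    (hp0 : p 0 = 1) (hα0 : α 0 = 0) (hβ0 : β 0 = 0) :
    HasFDerivAt (fun z => (p z • D z + (A z - D z)) + ε • (((p z + 1) / 2 * β z) • z +
      ((p z - 1) / 2) • b - (p z / 4) • (α z • b + β z • a) -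
      (1 / 4 : ℂ) • (α z • b - β z • a))) A 0 := by
  have hD : HasFDerivAt D D (0 : E) := D.hasFDerivAt
  have hA : HasFDerivAt A A (0 : E) := A.hasFDerivAt
  have h1 := (hp.fun_smul hD).fun_add (hA.fun_sub hD)
  have hp2 := ((hp.add_const 1).mul_const (1 / 2 : ℂ)).fun_mul hβ
  have h2 := hp2.fun_smul (hasFDerivAt_id (𝕜 := ℂ) (0 : E))
  have h3 := ((hp.sub_const 1).mul_const (1 / 2 : ℂ)).smul_const b
  have hab : HasFDerivAt (fun z => α z • b + β z • a) _ (0 : E) :=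
    (hα.smul_const b).fun_add (hβ.smul_const a)
  have hab' : HasFDerivAt (fun z => α z • b - β z • a) _ (0 : E) :=
    (hα.smul_const b).fun_sub (hβ.smul_const a)
  have h4 := (hp.mul_const (1 / 4 : ℂ)).fun_smul hab
  have h5 := hab'.const_smul (1 / 4 : ℂ)
  have h6 := h1.fun_add ((((h2.fun_add h3).fun_sub h4).fun_sub h5).const_smul ε)
  have h7 : (fun z => (p z • D z + (A z - D z)) + ε • (((p z + 1) / 2 * β z) • z +
      ((p z - 1) / 2) • b - (p z / 4) • (α z • b + β z • a) -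
      (1 / 4 : ℂ) • (α z • b - β z • a))) = (fun z => (p z • D z + (A z - D z)) +
      ε • (((p z + 1) * (1 / 2) * β z) • z +
      ((p z - 1) * (1 / 2)) • b - (p z * (1 / 4)) • (α z • b + β z • a) -
      (1 / 4 : ℂ) • (α z • b - β z • a))) := by
    funext z
    simp only [div_eq_mul_inv, one_mul]
  rw [h7]
  refine HasFDerivAt.congr_fderiv h6 ?_
  ext z
  simp [hp0, hα0, hβ0]
  right
  module

private lemma sc_diffOn {E : Type*} [NormedAddCommGroup E] [NormedSpace ℂ E] {S : Set E}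
    {p α β : E → ℂ} (D A : E →L[ℂ] E) (a b : E) (ε : ℂ)
    (hp : DifferentiableOn ℂ p S) (hα : DifferentiableOn ℂ α S) (hβ : DifferentiableOn ℂ β S) :
    DifferentiableOn ℂ (fun z => (p z • D z + (A z - D z)) + ε • (((p z + 1) / 2 * β z) • z +
      ((p z - 1) / 2) • b - (p z / 4) • (α z • b + β z • a) -
      (1 / 4 : ℂ) • (α z • b - β z • a))) S := by
  have hD : DifferentiableOn ℂ D S := D.differentiableOn
  have hA : DifferentiableOn ℂ A S := A.differentiableOn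
  simp only [div_eq_mul_inv]
  have h1 := (hp.fun_smul hD).fun_add (hA.fun_sub hD)
  have hp2 := ((hp.add_const 1).mul_const (2⁻¹ : ℂ)).fun_mul hβ
  have h2 := hp2.fun_smul (differentiableOn_id (𝕜 := ℂ) (s := S))
  have h3 := ((hp.sub_const 1).mul_const (2⁻¹ : ℂ)).smul_const b
  have hab : DifferentiableOn ℂ (fun z => α z • b + β z • a) S :=
    (hα.smul_const b).fun_add (hβ.smul_const a)
  have hab' : DifferentiableOn ℂ (fun z => α z • b - β z • a) S :=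
    (hα.smul_const b).fun_sub (hβ.smul_const a)
  have h4 := (hp.mul_const (4⁻¹ : ℂ)).fun_smul hab
  have h5 := hab'.const_smul (1 * 4⁻¹ : ℂ)
  exact h1.fun_add ((((h2.fun_add h3).fun_sub h4).fun_sub h5).const_smul ε)

private lemma sc_mem {n : ℕ} {A : Cn n →L[ℂ] Cn n} {p : Cn n → ℂ} {m : ℝ}
    (hm : ∀ z : Cn n, m * ‖z‖ ^ 2 ≤ (ip (A z) z).re)
    (hp : DifferentiableOn ℂ p (ball 0 1)) (hp0 : p 0 = 1)
    (hpre : ∀ z ∈ ball (0 : Cn n) 1, 0 < (p z).re) {a : Cn n} (b : Cn n)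
    (ha : HasFDerivAt p (innerSL ℂ a) 0) (ε : ℝ)
    (hε : |ε| * (3 * ‖b‖ + ‖a‖ * ‖b‖) < m) :
    (fun z => (p z • herm A z + (A z - herm A z)) + (ε : ℂ) • scG p a b z) ∈ NA A := by
  refine ⟨?_, ?_, ?_, ?_⟩
  · exact sc_diffOn (herm A) A a b (ε : ℂ) hp (sc_diff_ip a).differentiableOn
      (sc_diff_ip b).differentiableOn
  · simp [scG, hp0, sc_zero_left]
  · exact (sc_abs_fderiv (herm A) A a b (ε : ℂ) ha (sc_hasFDerivAt_ip a 0)
      (sc_hasFDerivAt_ip b 0) hp0 (sc_zero_left a) (sc_zero_left b)).fderiv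
  · intro z hz hz0
    have hu := hpre z hz
    have hB := sc_bound hp hp0 hpre a b hz
    have hR : 0 < ‖z‖ := norm_pos_iff.2 hz0
    have e1 : (ip ((p z • herm A z + (A z - herm A z)) + (ε : ℂ) • scG p a b z) z).re =
        (p z).re * (ip (A z) z).re + ε * (ip (scG p a b z) z).re := by
      rw [sc_add, sc_add, sc_smul, sc_sub, sc_smul, sc_herm_ip, Complex.add_re, Complex.add_re,
        Complex.sub_re, Complex.re_ofReal_mul, Complex.re_mul_ofReal, Complex.ofReal_re]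
      ring
    change 0 < (ip ((p z • herm A z + (A z - herm A z)) + (ε : ℂ) • scG p a b z) z).re
    rw [e1]
    have h1 : |ε * (ip (scG p a b z) z).re| ≤
        |ε| * ((3 * ‖b‖ + ‖a‖ * ‖b‖) * (‖z‖ ^ 2 * (p z).re)) := by
      rw [abs_mul]
      exact mul_le_mul_of_nonneg_left hB (abs_nonneg _)
    have h2 := (abs_le.1 h1).1
    have h3 : m * ‖z‖ ^ 2 * (p z).re ≤ (p z).re * (ip (A z) z).re := by
      calc m * ‖z‖ ^ 2 * (p z).re = (p z).re * (m * ‖z‖ ^ 2) := by ring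
        _ ≤ _ := mul_le_mul_of_nonneg_left (hm z) hu.le
    have h4 : 0 < (m - |ε| * (3 * ‖b‖ + ‖a‖ * ‖b‖)) * (‖z‖ ^ 2 * (p z).re) := by
      have : 0 < m - |ε| * (3 * ‖b‖ + ‖a‖ * ‖b‖) := by linarith
      positivity
    nlinarith

private lemma sc_min {n : ℕ} (hn : 2 ≤ n) {A : Cn n →L[ℂ] Cn n}
    (hA : ∀ z : Cn n, z ≠ 0 → 0 < (ip (A z) z).re) :
    ∃ m : ℝ, 0 < m ∧ ∀ z : Cn n, m * ‖z‖ ^ 2 ≤ (ip (A z) z).re := by
  have hcont : Continuous (fun z : Cn n => (ip (A z) z).re) := by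
    unfold ip
    exact Complex.continuous_re.comp (continuous_id.inner A.continuous)
  set e : Cn n := EuclideanSpace.single (⟨0, by omega⟩ : Fin n) (1 : ℂ) with he
  have hen : ‖e‖ = 1 := by simp [he]
  obtain ⟨z0, hz0, hmin⟩ := (isCompact_sphere (0 : Cn n) 1).exists_isMinOn
    ⟨e, by simp [hen]⟩ hcont.continuousOn
  have hz0n : ‖z0‖ = 1 := by simpa using hz0
  have hz0ne : z0 ≠ 0 := by
    intro h; rw [h, norm_zero] at hz0n; exact zero_ne_one hz0n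
  refine ⟨(ip (A z0) z0).re, hA z0 hz0ne, fun z => ?_⟩
  rcases eq_or_ne z 0 with rfl | hz
  · simp [sc_zero_left]
  · have hR : 0 < ‖z‖ := norm_pos_iff.2 hz
    have hinv : 0 < ‖z‖⁻¹ := by positivity
    have h1 : ((‖z‖⁻¹ : ℝ) : ℂ) • z ∈ sphere (0 : Cn n) 1 := by
      rw [mem_sphere_zero_iff_norm, norm_smul, Complex.norm_real, Real.norm_of_nonneg hinv.le]
      field_simp
    have h2 := hmin h1
    simp only [Set.mem_ofPred_eq] at h2
    rw [map_smul, sc_smul, sc_smul_right, Complex.conj_ofReal, ← mul_assoc, ← Complex.ofReal_mul,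
      Complex.re_ofReal_mul] at h2
    have h3 : (ip (A z0) z0).re * ‖z‖ ^ 2 ≤ ‖z‖⁻¹ * ‖z‖⁻¹ * (ip (A z) z).re * ‖z‖ ^ 2 :=
      mul_le_mul_of_nonneg_right h2 (by positivity)
    have e2 : ‖z‖⁻¹ * ‖z‖⁻¹ * (ip (A z) z).re * ‖z‖ ^ 2 = (ip (A z) z).re := by field_simp
    rw [e2] at h3
    exact h3

private lemma sc_vanish {n : ℕ} {A : Cn n →L[ℂ] Cn n} {p : Cn n → ℂ} {m : ℝ} (hm0 : 0 < m)
    (hm : ∀ z : Cn n, m * ‖z‖ ^ 2 ≤ (ip (A z) z).re)
    (hp : DifferentiableOn ℂ p (ball 0 1)) (hp0 : p 0 = 1)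
    (hpre : ∀ z ∈ ball (0 : Cn n) 1, 0 < (p z).re) {a : Cn n} (b : Cn n)
    (ha : HasFDerivAt p (innerSL ℂ a) 0)
    (hext : IsExtreme A (fun z => p z • herm A z + (A z - herm A z))) :
    ∀ z ∈ ball (0 : Cn n) 1, scG p a b z = 0 := by
  intro z hz
  set K : ℝ := 3 * ‖b‖ + ‖a‖ * ‖b‖ with hK
  have hK0 : 0 ≤ K := by positivity
  set ε : ℝ := m / (2 * (K + 1)) with hε
  have hε0 : 0 < ε := by positivity
  have hεm : ε * K < m := by
    rw [hε, div_mul_eq_mul_div, div_lt_iff₀ (by positivity)]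
    nlinarith
  have h1 := sc_mem hm hp hp0 hpre b ha ε (by rwa [abs_of_pos hε0])
  have h2 := sc_mem hm hp hp0 hpre b ha (-ε) (by rwa [abs_neg, abs_of_pos hε0])
  have h3 := hext.2 _ h1 _ h2 (1 / 2) (by norm_num) (by norm_num) (by
    intro w _
    have e1 : (((1 / 2 : ℝ) : ℂ)) = 1 / 2 := by push_cast; ring
    have e2 : (((1 - 1 / 2 : ℝ) : ℂ)) = 1 / 2 := by push_cast; ring
    simp only [e1, e2]
    push_cast
    module) z hz
  have h4 := h3.1
  simp only at h4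
  have h5 : (ε : ℂ) • scG p a b z = 0 := by
    have := sub_eq_zero.2 h4
    rw [add_sub_cancel_left] at this
    exact this
  rcases smul_eq_zero.1 h5 with h6 | h6
  · exfalso
    have : ε = 0 := by exact_mod_cast h6
    linarith
  · exact h6

private lemma sc_exists {n : ℕ} (hn : 2 ≤ n) (a : Cn n) : ∃ b : Cn n, ‖b‖ = 1 ∧ ip b a = 0 := by
  suffices h : ∃ b : Cn n, b ≠ 0 ∧ ip b a = 0 by
    obtain ⟨b, hb, hba⟩ := h
    have hR : 0 < ‖b‖ := norm_pos_iff.2 hb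
    have hinv : 0 < ‖b‖⁻¹ := by positivity
    refine ⟨((‖b‖⁻¹ : ℝ) : ℂ) • b, ?_, ?_⟩
    · rw [norm_smul, Complex.norm_real, Real.norm_of_nonneg hinv.le]
      field_simp
    · rw [sc_smul, hba, mul_zero]
  set i0 : Fin n := ⟨0, by omega⟩ with hi0
  set i1 : Fin n := ⟨1, by omega⟩ with hi1
  have hne : i0 ≠ i1 := by
    intro h
    have := congrArg Fin.val h
    simp [hi0, hi1] at this
  set e0 : Cn n := EuclideanSpace.single i0 (1 : ℂ) with he0
  set e1 : Cn n := EuclideanSpace.single i1 (1 : ℂ) with he1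
  have hn0 : ‖e0‖ = 1 := by simp [he0]
  by_cases h0 : ip e0 a = 0
  · refine ⟨e0, ?_, h0⟩
    intro h; rw [h, norm_zero] at hn0; exact zero_ne_one hn0
  · refine ⟨ip e1 a • e0 - ip e0 a • e1, ?_, ?_⟩
    · intro h
      have h1 := congrArg (fun v : Cn n => v i1) h
      simp [he0, he1, hne.symm] at h1
      exact h0 h1
    · rw [sc_sub, sc_smul, sc_smul]
      ring


theorem scalar_not_extreme {n : ℕ} (hn : 2 ≤ n) {A : Cn n →L[ℂ] Cn n}
    (hA : ∀ z : Cn n, z ≠ 0 → 0 < (ip (A z) z).re) {p : Cn n → ℂ}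
    (hp : DifferentiableOn ℂ p (ball 0 1)) (hp0 : p 0 = 1)
    (hpre : ∀ z ∈ ball (0 : Cn n) 1, 0 < (p z).re) :
    (fun z => p z • herm A z + (A z - herm A z)) ∈ NA A ∧
      ¬ IsExtreme A (fun z => p z • herm A z + (A z - herm A z)) := by
  obtain ⟨m, hm0, hm⟩ := sc_min hn hA
  have hpd : DifferentiableAt ℂ p 0 := hp.differentiableAt (ball_mem_nhds _ one_pos)
  set a : Cn n := (InnerProductSpace.toDual ℂ (Cn n)).symm (fderiv ℂ p 0) with ha
  have hpa : innerSL ℂ a = fderiv ℂ p 0 := by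
    ext z
    rw [innerSL_apply_apply, ha, InnerProductSpace.toDual_symm_apply]
  have hap : HasFDerivAt p (innerSL ℂ a) 0 := by
    rw [hpa]
    exact hpd.hasFDerivAt
  constructor
  · have h := sc_mem hm hp hp0 hpre 0 hap 0 (by simpa using hm0)
    have e1 : (fun z => (p z • herm A z + (A z - herm A z)) + ((0 : ℝ) : ℂ) • scG p a 0 z) =
        (fun z => p z • herm A z + (A z - herm A z)) := by
      funext z
      simp
    rw [e1] at h
    exact h
  · intro hext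
    obtain ⟨b, hbn, hba⟩ := sc_exists hn a
    have hab : ip a b = 0 := by rw [← sc_conj, hba, map_zero]
    have hbb : ip b b = 1 := by rw [sc_self, hbn]; simp
    obtain ⟨z, hz⟩ : ∃ z : Cn n, z = ((1 / 2 : ℝ) : ℂ) • b := ⟨_, rfl⟩
    have hzb : z ∈ ball (0 : Cn n) 1 := by
      rw [mem_ball_zero_iff, hz, norm_smul, Complex.norm_real, hbn,
        Real.norm_of_nonneg (by norm_num)]
      norm_num
    have hza : ip z a = 0 := by rw [hz, sc_smul, hba, mul_zero]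
    have hzbb : ip z b = 1 / 2 := by
      rw [hz, sc_smul, hbb]; push_cast; ring
    have key : ∀ c : ℂ, (p z + 1) / 2 * (starRingEnd ℂ c * (1 / 2)) * (1 / 2) +
        (p z - 1) / 2 * c = 0 := by
      intro c
      have h1 := sc_vanish hm0 hm hp hp0 hpre (c • b) hap hext z hzb
      have h2 : ip (scG p a (c • b) z) b = 0 := by rw [h1, sc_zero_left]
      unfold scG at h2
      simp only [sc_sub, sc_add, sc_smul, sc_smul_right, hza, hab, hzbb, hbb] at h2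
      rw [← h2]
      ring
    have k1 := key 1
    have k2 := key Complex.I
    rw [map_one] at k1
    rw [Complex.conj_I] at k2
    have h3 : (p z + 1) = 0 := by
      have h4 : Complex.I * ((p z + 1) / 2 * (1 * (1 / 2)) * (1 / 2) + (p z - 1) / 2 * 1) -
        ((p z + 1) / 2 * (-Complex.I * (1 / 2)) * (1 / 2) + (p z - 1) / 2 * Complex.I) = 0 := by
        rw [k1, k2]; ring
      have h5 : Complex.I * (p z + 1) = 0 := by
        linear_combination 4 * h4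
      rcases mul_eq_zero.1 h5 with h6 | h6
      · exact absurd h6 Complex.I_ne_zero
      · exact h6
    have h7 := hpre z hzb
    have h8 : (p z + 1).re = 0 := by rw [h3, Complex.zero_re]
    rw [Complex.add_re, Complex.one_re] at h8
    linarith

end Pool.Agent.P1ae5
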