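import Pool.Agent.Lib.P1ae5.Stmt

/-! Statement-level definitions for the face theorem in all dimensions. -/

open Metric

namespace Pool.Agent.P1ae5.St

/-- real scalar product -/
def rd {n : ℕ} (x y : Fin n → ℝ) : ℝ := ∑ i, x i * y i

/-- orthonormal pairs of real vectors -/
def IsON {n : ℕ} (X Y : Fin n → ℝ) : Prop := rd X X = 1 ∧ rd Y Y = 1 ∧ rd X Y = 0

/-- a real vector as an element of `C^n` -/
noncomputable def toC {n : ℕ} (x : Fin n → ℝ) : EuclideanSpace ℂ (Fin n) :=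
  WithLp.toLp 2 (fun i => ((x i : ℝ) : ℂ))

/-- `q(z) = z_1^2 + ... + z_n^2` -/
noncomputable def qn {n : ℕ} (z : EuclideanSpace ℂ (Fin n)) : ℂ := ∑ i, z i ^ 2

/-- real bilinear maps of `R^n` -/
abbrev BilMap (n : ℕ) := (Fin n → ℝ) →ₗ[ℝ] (Fin n → ℝ) →ₗ[ℝ] (Fin n → ℝ)

/-- symmetric bilinear maps `J` with `x . J(x,x) = 0` -/
def IsTg {n : ℕ} (J : BilMap n) : Prop := (∀ x y, J x y = J y x) ∧ ∀ x, rd (J x x) x = 0

/-- real part -/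
noncomputable def rpart {n : ℕ} (z : EuclideanSpace ℂ (Fin n)) : Fin n → ℝ := fun i => (z i).re

/-- imaginary part -/
noncomputable def ipart {n : ℕ} (z : EuclideanSpace ℂ (Fin n)) : Fin n → ℝ := fun i => (z i).im

/-- the quadratic map `V(z) = (l.z/2) z + (q(z)/2) l + i J(z,z)`, where
`J(z,z) = J(x,x) - J(y,y) + 2 i J(x,y)` for `z = x + i y` -/
noncomputable def VL {n : ℕ} (l : Fin n → ℝ) (J : BilMap n) (z : EuclideanSpace ℂ (Fin n)) :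
    EuclideanSpace ℂ (Fin n) :=
  ((1 / 2 : ℂ) * ∑ i, (l i : ℂ) * z i) • z + ((1 / 2 : ℂ) * qn z) • toC l +
    Complex.I • (toC (J (rpart z) (rpart z) - J (ipart z) (ipart z)) +
      (2 * Complex.I) • toC (J (rpart z) (ipart z)))

/-- the maps `H_{l,J}(z) = (1+q)/(1-q) D z + V(z)/(1-q) + (A z - D z)`, `D = (A + A^*)/2` -/
noncomputable def HL {n : ℕ} (A : EuclideanSpace ℂ (Fin n) →L[ℂ] EuclideanSpace ℂ (Fin n))
    (l : Fin n → ℝ) (J : BilMap n) (z : EuclideanSpace ℂ (Fin n)) : EuclideanSpace ℂ (Fin n) :=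
  ((1 + qn z) / (1 - qn z)) • hp A z + (1 / (1 - qn z)) • VL l J z + (A z - hp A z)

/-- the number `β(X,Y) = l.X/2 + i J(Y,Y).X` -/
noncomputable def bet {n : ℕ} (l : Fin n → ℝ) (J : BilMap n) (X Y : Fin n → ℝ) : ℂ :=
  ((rd l X / 2 : ℝ) : ℂ) + Complex.I * ((rd (J Y Y) X : ℝ) : ℂ)

/-- the form `w(ξ,η) = ξ conj β(X,Y) + η conj β(Y,X)` -/
noncomputable def wf {n : ℕ} (l : Fin n → ℝ) (J : BilMap n) (X Y : Fin n → ℝ) (ξ η : ℂ) : ℂ :=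
  ξ * (starRingEnd ℂ) (bet l J X Y) + η * (starRingEnd ℂ) (bet l J Y X)

/-- the convex body attached to `A` -/
def InK {n : ℕ} (A : EuclideanSpace ℂ (Fin n) →L[ℂ] EuclideanSpace ℂ (Fin n))
    (l : Fin n → ℝ) (J : BilMap n) : Prop :=
  IsTg J ∧ ∀ X Y : Fin n → ℝ, IsON X Y → ∀ ξ η : ℂ, ‖ξ‖ ^ 2 + ‖η‖ ^ 2 = 1 →
    ‖wf l J X Y ξ η‖ ≤ (sp (A (ξ • toC X + η • toC Y)) (ξ • toC X + η • toC Y)).re

/-- `(l,J)` is an extreme point of this convex body -/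
def IsExtrK {n : ℕ} (A : EuclideanSpace ℂ (Fin n) →L[ℂ] EuclideanSpace ℂ (Fin n))
    (l : Fin n → ℝ) (J : BilMap n) : Prop :=
  InK A l J ∧ ∀ l₁ J₁ l₂ J₂, InK A l₁ J₁ → InK A l₂ J₂ → ∀ t : ℝ, 0 < t → t < 1 →
    l = t • l₁ + (1 - t) • l₂ → J = t • J₁ + (1 - t) • J₂ →
    (l₁ = l ∧ J₁ = J) ∧ (l₂ = l ∧ J₂ = J)

/-- the maps `H_{l,J}`, `(l,J)` in the convex body, form a face of `N_A` -/
def IsFaceHL {n : ℕ} (A : EuclideanSpace ℂ (Fin n) →L[ℂ] EuclideanSpace ℂ (Fin n)) : Prop :=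
  ∀ l J, InK A l J → ∀ g₁ ∈ FamN A, ∀ g₂ ∈ FamN A, ∀ t : ℝ, 0 < t → t < 1 →
    IsComb t (HL A l J) g₁ g₂ → ∃ l₁ J₁ l₂ J₂, InK A l₁ J₁ ∧ InK A l₂ J₂ ∧
      l = t • l₁ + (1 - t) • l₂ ∧ J = t • J₁ + (1 - t) • J₂ ∧
      ∀ z ∈ ball (0 : EuclideanSpace ℂ (Fin n)) 1, g₁ z = HL A l₁ J₁ z ∧ g₂ z = HL A l₂ J₂ z

/-- pairs `(K,K')` of skew-symmetric real matrices -/
def IsSk {k : ℕ} (K K' : Matrix (Fin k) (Fin k) ℝ) : Prop :=
  K.transpose = -K ∧ K'.transpose = -K'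

/-- the convex body `Z_k`: pairs of skew-symmetric real matrices with
`(K x . y)^2 + (K' x . y)^2 ≤ 1` for orthonormal real `x, y` -/
def InZ {k : ℕ} (K K' : Matrix (Fin k) (Fin k) ℝ) : Prop :=
  IsSk K K' ∧ ∀ x y : Fin k → ℝ, IsON x y →
    rd (K.mulVec x) y ^ 2 + rd (K'.mulVec x) y ^ 2 ≤ 1

/-- `(K,K')` is an extreme point of `Z_k` -/
def IsExtrZ {k : ℕ} (K K' : Matrix (Fin k) (Fin k) ℝ) : Prop :=
  InZ K K' ∧ ∀ K₁ K₁' K₂ K₂' : Matrix (Fin k) (Fin k) ℝ, InZ K₁ K₁' → InZ K₂ K₂' →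
    ∀ t : ℝ, 0 < t → t < 1 → K = t • K₁ + (1 - t) • K₂ → K' = t • K₁' + (1 - t) • K₂' →
    (K₁ = K ∧ K₁' = K') ∧ (K₂ = K ∧ K₂' = K')

/-- `V(z) = (z_0^2 + q, z_0 z_1 - i w.w, z_0 w + i (z_1 w + z_0 K w + z_1 K' w))`,
`z = (z_0, z_1, w)`, `w ∈ C^k` -/
noncomputable def VZ {k : ℕ} (K K' : Matrix (Fin k) (Fin k) ℝ)
    (z : EuclideanSpace ℂ (Fin (k + 2))) : EuclideanSpace ℂ (Fin (k + 2)) :=
  z 0 • z + WithLp.toLp 2 (Fin.cons (qn z)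
    (Fin.cons (-(Complex.I * ∑ j : Fin k, z j.succ.succ ^ 2))
      (fun j : Fin k => Complex.I * (z 1 * z j.succ.succ +
        ∑ m : Fin k, (z 0 * (K j m : ℂ) + z 1 * (K' j m : ℂ)) * z m.succ.succ))))

/-- the maps `h_Z(z) = (1+q)/(1-q) z + V(z)/(1-q) + (A z - z)` -/
noncomputable def HZ {k : ℕ}
    (A : EuclideanSpace ℂ (Fin (k + 2)) →L[ℂ] EuclideanSpace ℂ (Fin (k + 2)))
    (K K' : Matrix (Fin k) (Fin k) ℝ) (z : EuclideanSpace ℂ (Fin (k + 2))) :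
    EuclideanSpace ℂ (Fin (k + 2)) :=
  ((1 + qn z) / (1 - qn z)) • z + (1 / (1 - qn z)) • VZ K K' z + (A z - z)

/-- skew matrix with entries `1` at `(2m, 2m+1)` (indices from 0), zero elsewhere above the
diagonal -/
def Ke (k : ℕ) : Matrix (Fin k) (Fin k) ℝ := fun i j =>
  if j.val = i.val + 1 ∧ i.val % 2 = 0 then 1
  else if i.val = j.val + 1 ∧ j.val % 2 = 0 then -1 else 0

/-- skew matrix with entries `1` at `(4a, 4a+2)` and `-1` at `(4a+1, 4a+3)`, zero elsewhere above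
the diagonal -/
def Kf (k : ℕ) : Matrix (Fin k) (Fin k) ℝ := fun i j =>
  if j.val = i.val + 2 ∧ i.val % 4 = 0 then 1
  else if j.val = i.val + 2 ∧ i.val % 4 = 1 then -1
  else if i.val = j.val + 2 ∧ j.val % 4 = 0 then -1
  else if i.val = j.val + 2 ∧ j.val % 4 = 1 then 1 else 0

end Pool.Agent.P1ae5.St
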