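import Pool.Agent.Lib.P1ae5.StmtAll

/-! Statement-level definitions for the one-parameter family of extreme points. -/

namespace Pool.Agent.P1ae5.St

/-- skew matrix with entries `cos t` at `(0,1)`, `sin t` at `(2,3)` and, as `Ke k`, entries `1` at
`(2m, 2m+1)` for `m ≥ 2`, zero elsewhere above the diagonal -/
noncomputable def Kc (k : ℕ) (t : ℝ) : Matrix (Fin k) (Fin k) ℝ := fun i j =>
  if i.val < 4 ∧ j.val < 4 then
    if i.val = 0 ∧ j.val = 1 then Real.cos t else if i.val = 1 ∧ j.val = 0 then -Real.cos t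
    else if i.val = 2 ∧ j.val = 3 then Real.sin t
    else if i.val = 3 ∧ j.val = 2 then -Real.sin t else 0
  else Ke k i j

/-- skew matrix with entries `cos t` at `(0,2)`, `sin t` at `(1,3)` and, as `Kf k`, entries `1` at
`(4a, 4a+2)` and `-1` at `(4a+1, 4a+3)` for `a ≥ 1`, zero elsewhere above the diagonal -/
noncomputable def Kd (k : ℕ) (t : ℝ) : Matrix (Fin k) (Fin k) ℝ := fun i j =>
  if i.val < 4 ∧ j.val < 4 then
    if i.val = 0 ∧ j.val = 2 then Real.cos t else if i.val = 2 ∧ j.val = 0 then -Real.cos t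
    else if i.val = 1 ∧ j.val = 3 then Real.sin t
    else if i.val = 3 ∧ j.val = 1 then -Real.sin t else 0
  else Kf k i j

/-- skew matrix with entries `cos t` at `(0,1)`, `-sin t` at `(1,3)` and `(2,4)`, and `1` at
`(2m+1, 2m+2)` for `m ≥ 2`, zero elsewhere above the diagonal -/
noncomputable def Kg (k : ℕ) (t : ℝ) : Matrix (Fin k) (Fin k) ℝ := fun i j =>
  if i.val < 5 ∧ j.val < 5 then
    if i.val = 0 ∧ j.val = 1 then Real.cos t else if i.val = 1 ∧ j.val = 0 then -Real.cos t
    else if i.val = 1 ∧ j.val = 3 then -Real.sin t else if i.val = 3 ∧ j.val = 1 then Real.sin t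
    else if i.val = 2 ∧ j.val = 4 then -Real.sin t
    else if i.val = 4 ∧ j.val = 2 then Real.sin t else 0
  else if j.val = i.val + 1 ∧ i.val % 2 = 1 then 1
  else if i.val = j.val + 1 ∧ j.val % 2 = 1 then -1 else 0

/-- skew matrix with entries `cos t` at `(0,2)`, `sin t` at `(2,3)`, `-sin t` at `(1,4)`, and, for
`a ≥ 1`, `1` at `(4a+1, 4a+3)` and `-1` at `(4a+2, 4a+4)`, zero elsewhere above the diagonal -/
noncomputable def Kh (k : ℕ) (t : ℝ) : Matrix (Fin k) (Fin k) ℝ := fun i j =>
  if i.val < 5 ∧ j.val < 5 then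
    if i.val = 0 ∧ j.val = 2 then Real.cos t else if i.val = 2 ∧ j.val = 0 then -Real.cos t
    else if i.val = 2 ∧ j.val = 3 then Real.sin t else if i.val = 3 ∧ j.val = 2 then -Real.sin t
    else if i.val = 1 ∧ j.val = 4 then -Real.sin t
    else if i.val = 4 ∧ j.val = 1 then Real.sin t else 0
  else if j.val = i.val + 2 ∧ i.val % 4 = 1 then 1
  else if j.val = i.val + 2 ∧ i.val % 4 = 2 then -1
  else if i.val = j.val + 2 ∧ j.val % 4 = 1 then -1
  else if i.val = j.val + 2 ∧ j.val % 4 = 2 then 1 else 0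

/-- the first matrix of the family -/
noncomputable def KT (k : ℕ) (t : ℝ) : Matrix (Fin k) (Fin k) ℝ :=
  if k % 4 = 1 then Kg k t else Kc k t

/-- the second matrix of the family -/
noncomputable def KU (k : ℕ) (t : ℝ) : Matrix (Fin k) (Fin k) ℝ :=
  if k % 4 = 1 then Kh k t else Kd k t

end Pool.Agent.P1ae5.St
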