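import Pool.Agent.Lib.P1ae5.Stmt

/-! Statement-level definitions for the theorem on support points. -/

open Metric MeasureTheory

namespace Pool.Agent.P1ae5.St

variable {E : Type} [NormedAddCommGroup E] [InnerProductSpace ℂ E]

/-- `e^{iθ}` -/
noncomputable def expi (θ : ℝ) : ℂ := Complex.exp ((θ : ℂ) * Complex.I)

/-- the rotation `z ↦ x⁻¹ H(x z)` -/
noncomputable def rotE (x : ℂ) (H : E → E) (z : E) : E := x⁻¹ • H (x • z)

/-- the average of rotations `z ↦ ∫ e^{-iθ} H(e^{iθ} z) dμ(θ)` -/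
noncomputable def avgE (μ : Measure ℝ) (H : E → E) (z : E) : E := ∫ θ, rotE (expi θ) H z ∂μ

/-- the image of `μ` on the unit circle has finite support -/
def IsFinSupp (μ : Measure ℝ) : Prop := ∃ S : Set ℂ, S.Finite ∧ ∀ᵐ θ ∂μ, expi θ ∈ S

/-- the slice `λ ↦ <h(λ u),u>/λ` of `h` is a finite combination of the functions
`(1 + ω λ)/(1 - ω λ)`, `|ω| = 1`, with nonnegative coefficients, plus an imaginary constant -/
def IsFinSlice (h : E → E) (u : E) : Prop :=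
  ∃ (N : ℕ) (ν : Fin N → ℝ) (ω : Fin N → ℂ) (γ : ℝ), (∀ i, 0 ≤ ν i) ∧ (∀ i, ‖ω i‖ = 1) ∧
    ∀ l : ℂ, ‖l‖ < 1 → l ≠ 0 → sp (h (l • u)) u / l =
      ∑ i, (ν i : ℂ) * ((1 + ω i * l) / (1 - ω i * l)) + γ * Complex.I

end Pool.Agent.P1ae5.St
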