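import Pool.Agent.Lib.P1ae5.SuppExt

/-!
P1ae5.SuppAvg (MP_1ae5d5_an).

`rot_mem`: `⟨x⁻¹ H(x z), z⟩ = ⟨H(x z), x z⟩` for `|x| = 1`; chain rule.
`rotAvg_mem`: holomorphy of the integral: `hasFDerivAt_integral_of_dominated_of_fderiv_le` on
`ball z₀ δ` inside a closed ball of radius `r < 1` (`fderiv ℂ H` is locally bounded by Cauchy
estimates; if continuity of `fderiv ℂ H` on the ball is not available, derive measurability in `θ`
from limits of difference quotients), or any other route (Osgood, Morera on slices).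
`rotAvg 0 = 0`, `fderiv = ∫ A dμ = A`.
Positivity: `Re ⟨rotAvg z, z⟩ = ∫ Re ⟨H(cis θ z), cis θ z⟩ dμ > 0` (the integrand is
continuous, periodic and positive, so `≥ c > 0`, and `μ` is a probability measure).
`functional_rotAvg`: with `r, Λ'` from `exists_ext`, `θ ↦ (rot (cis θ) H)` restricted to
`closedBall 0 r` is a bounded continuous map `ℝ → C(closedBall 0 r, Cn n)` (uniform continuity of
`H` on `closedBall 0 r`; or `ContinuousMap.curry` of the jointly continuous map), so it is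
integrable, `Λ'` commutes with the integral (`ContinuousLinearMap.integral_comp_comm`), and the
integral evaluated at `z` is `rotAvg μ H z` (`ContinuousLinearMap.integral_comp_comm` with
the evaluation map).
-/

open Metric MeasureTheory

namespace Pool.Agent.P1ae5

namespace SuppAvgAux

variable {n : ℕ}

theorem norm_cis (θ : ℝ) : ‖cis θ‖ = 1 := Complex.norm_exp_ofReal_mul_I θ

theorem cis_ne (θ : ℝ) : cis θ ≠ 0 := Complex.exp_ne_zero _

theorem continuous_cis : Continuous cis := by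
  unfold cis
  fun_prop

theorem rot_diff {H : Cn n → Cn n} (hH : DifferentiableOn ℂ H (ball 0 1)) {x : ℂ} (hx : ‖x‖ = 1) :
    DifferentiableOn ℂ (rot x H) (ball 0 1) := by
  have h : DifferentiableOn ℂ (fun z : Cn n => H (x • z)) (ball 0 1) := by
    refine hH.comp (by fun_prop) ?_
    intro z hz
    rw [mem_ball_zero_iff] at hz ⊢
    rwa [norm_smul, hx, one_mul]
  exact h.const_smul x⁻¹

theorem rot_ip {H : Cn n → Cn n} {x : ℂ} (hx : ‖x‖ = 1) (z : Cn n) :
    ip (rot x H z) z = ip (H (x • z)) (x • z) := by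
  unfold ip rot
  rw [inner_smul_right, inner_smul_left]
  congr 1
  have : (starRingEnd ℂ) x = x⁻¹ := by
    rw [Complex.inv_def, Complex.normSq_eq_norm_sq, hx]
    simp
  exact this.symm

theorem rot_hasFDerivAt {H : Cn n → Cn n} (hH : DifferentiableOn ℂ H (ball 0 1)) {x : ℂ}
    (hx : ‖x‖ = 1) {z : Cn n} (hz : z ∈ ball (0 : Cn n) 1) :
    HasFDerivAt (rot x H) (fderiv ℂ H (x • z)) z := by
  have hx0 : x ≠ 0 := by
    rintro rfl
    simp at hx
  have hxz : x • z ∈ ball (0 : Cn n) 1 := by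
    rw [mem_ball_zero_iff] at hz ⊢
    rwa [norm_smul, hx, one_mul]
  have h1 : HasFDerivAt H (fderiv ℂ H (x • z)) (x • z) :=
    ((hH _ hxz).differentiableAt (isOpen_ball.mem_nhds hxz)).hasFDerivAt
  have h2 : HasFDerivAt (fun w : Cn n => x • w) (x • ContinuousLinearMap.id ℂ (Cn n)) z :=
    (hasFDerivAt_id z).const_smul x
  have h3 := (h1.comp z h2).const_smul x⁻¹
  have e : x⁻¹ • (fderiv ℂ H (x • z)).comp (x • ContinuousLinearMap.id ℂ (Cn n)) =
      fderiv ℂ H (x • z) := by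
    rw [ContinuousLinearMap.comp_smul, ContinuousLinearMap.comp_id, smul_smul,
      inv_mul_cancel₀ hx0, one_smul]
  rw [e] at h3
  exact h3

/-- Cauchy estimate -/
theorem norm_fderiv_le {G : Cn n → Cn n} {z : Cn n} {ρ M : ℝ} (hρ : 0 < ρ) (hM : 0 ≤ M)
    (hG : ∀ w ∈ closedBall z ρ, DifferentiableAt ℂ G w) (hb : ∀ w ∈ closedBall z ρ, ‖G w‖ ≤ M) :
    ‖fderiv ℂ G z‖ ≤ M / ρ := by
  refine ContinuousLinearMap.opNorm_le_bound _ (by positivity) fun v => ?_
  rcases eq_or_ne v 0 with rfl | hv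
  · simp
  have hv0 : 0 < ‖v‖ := norm_pos_iff.2 hv
  set g : ℂ → Cn n := fun t => G (z + t • v) with hg
  have hR : 0 < ρ / ‖v‖ := by positivity
  have hin : ∀ t ∈ closedBall (0 : ℂ) (ρ / ‖v‖), z + t • v ∈ closedBall z ρ := by
    intro t ht
    rw [mem_closedBall_zero_iff] at ht
    rw [mem_closedBall, dist_eq_norm, add_sub_cancel_left, norm_smul]
    rwa [le_div_iff₀ hv0] at ht
  have hd : ∀ t ∈ closedBall (0 : ℂ) (ρ / ‖v‖), DifferentiableAt ℂ g t := by
    intro t ht
    exact (hG _ (hin t ht)).comp t (by fun_prop)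
  have hdc : DiffContOnCl ℂ g (ball 0 (ρ / ‖v‖)) := by
    refine DifferentiableOn.diffContOnCl ?_
    rw [closure_ball _ hR.ne']
    exact fun t ht => (hd t ht).differentiableWithinAt
  have h1 := Complex.norm_deriv_le_of_forall_mem_sphere_norm_le (C := M) hR hdc
    (fun t ht => hb _ (hin t (sphere_subset_closedBall ht)))
  have h2 : deriv g 0 = fderiv ℂ G z v := by
    have h3 : HasFDerivAt G (fderiv ℂ G (z + (0 : ℂ) • v)) (z + (0 : ℂ) • v) :=
      (hG _ (hin 0 (mem_closedBall_self hR.le))).hasFDerivAt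
    have h4 : HasDerivAt (fun t : ℂ => z + t • v) v 0 := by
      simpa using ((hasDerivAt_id (0 : ℂ)).smul_const v).const_add z
    have h5 := h3.comp_hasDerivAt (0 : ℂ) h4
    rw [zero_smul, add_zero] at h5
    exact h5.deriv
  rw [h2] at h1
  refine h1.trans (le_of_eq ?_)
  field_simp

theorem exists_bound {H : Cn n → Cn n} (hH : DifferentiableOn ℂ H (ball 0 1)) {r : ℝ}
    (hr : r < 1) : ∃ M : ℝ, 0 ≤ M ∧ ∀ w ∈ closedBall (0 : Cn n) r, ‖H w‖ ≤ M := by
  have hsub : closedBall (0 : Cn n) r ⊆ ball 0 1 := closedBall_subset_ball hr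
  obtain ⟨M, hM⟩ := (isCompact_closedBall (0 : Cn n) r).exists_bound_of_continuousOn
    (hH.continuousOn.mono hsub)
  exact ⟨max M 0, le_max_right _ _, fun w hw => (hM w hw).trans (le_max_left _ _)⟩

theorem continuousOn_fderiv {H : Cn n → Cn n} (hH : DifferentiableOn ℂ H (ball 0 1)) :
    ContinuousOn (fderiv ℂ H) (ball 0 1) := by
  intro z₀ hz₀
  rw [mem_ball_zero_iff] at hz₀
  apply ContinuousAt.continuousWithinAt
  rw [Metric.continuousAt_iff]
  intro ε hε
  set ρ : ℝ := (1 - ‖z₀‖) / 3 with hρ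
  have hρ0 : 0 < ρ := by rw [hρ]; linarith
  have hr : ‖z₀‖ + 2 * ρ < 1 := by rw [hρ]; linarith
  have hsub : closedBall (0 : Cn n) (‖z₀‖ + 2 * ρ) ⊆ ball 0 1 := closedBall_subset_ball hr
  have huc := (isCompact_closedBall (0 : Cn n) (‖z₀‖ + 2 * ρ)).uniformContinuousOn_of_continuous
    (hH.continuousOn.mono hsub)
  rw [Metric.uniformContinuousOn_iff] at huc
  obtain ⟨δ, hδ, hδ'⟩ := huc (ε * ρ / 2) (by positivity)
  refine ⟨min δ ρ, lt_min hδ hρ0, fun z hz => ?_⟩
  have hz1 : dist z z₀ < δ := lt_of_lt_of_le hz (min_le_left _ _)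
  have hz2 : dist z z₀ < ρ := lt_of_lt_of_le hz (min_le_right _ _)
  have hdiff : ∀ w ∈ ball (0 : Cn n) 1, DifferentiableAt ℂ H w := fun w hw =>
    (hH w hw).differentiableAt (isOpen_ball.mem_nhds hw)
  have hA : ∀ w ∈ closedBall z₀ ρ, w ∈ closedBall (0 : Cn n) (‖z₀‖ + 2 * ρ) := by
    intro w hw
    rw [mem_closedBall, dist_eq_norm] at hw
    rw [mem_closedBall_zero_iff]
    have := norm_add_le z₀ (w - z₀)
    rw [add_sub_cancel] at this
    linarith
  have hB : ∀ w ∈ closedBall z₀ ρ, w + (z - z₀) ∈ closedBall (0 : Cn n) (‖z₀‖ + 2 * ρ) := by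
    intro w hw
    rw [mem_closedBall, dist_eq_norm] at hw
    rw [mem_closedBall_zero_iff]
    rw [dist_eq_norm] at hz2
    have h1 := norm_add_le z₀ (w - z₀)
    rw [add_sub_cancel] at h1
    have h2 := norm_add_le w (z - z₀)
    linarith
  set G : Cn n → Cn n := fun w => H (w + (z - z₀)) - H w with hG
  have hdA : ∀ w ∈ closedBall z₀ ρ, DifferentiableAt ℂ H w := fun w hw => hdiff w (hsub (hA w hw))
  have hdB : ∀ w ∈ closedBall z₀ ρ, DifferentiableAt ℂ (fun w => H (w + (z - z₀))) w :=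
    fun w hw => (hdiff _ (hsub (hB w hw))).comp w (by fun_prop)
  have h1 := norm_fderiv_le (G := G) (z := z₀) (M := ε * ρ / 2) hρ0 (by positivity)
    (fun w hw => (hdB w hw).sub (hdA w hw)) (fun w hw => by
      have := hδ' _ (hB w hw) _ (hA w hw) (by
        rw [dist_eq_norm, add_sub_cancel_left, ← dist_eq_norm]
        exact hz1)
      rw [dist_eq_norm] at this
      exact this.le)
  have hself := mem_closedBall_self (x := z₀) hρ0.le
  have h2 : fderiv ℂ G z₀ = fderiv ℂ H z - fderiv ℂ H z₀ := by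
    have h3 : fderiv ℂ G z₀ = fderiv ℂ (fun w => H (w + (z - z₀))) z₀ - fderiv ℂ H z₀ :=
      fderiv_sub (hdB z₀ hself) (hdA z₀ hself)
    rw [h3, fderiv_comp_add_right, add_sub_cancel]
  rw [dist_eq_norm, ← h2]
  refine lt_of_le_of_lt h1 ?_
  rw [div_lt_iff₀ hρ0]
  nlinarith

theorem cis_smul_mem {z : Cn n} {r : ℝ} (hz : ‖z‖ ≤ r) (θ : ℝ) :
    cis θ • z ∈ closedBall (0 : Cn n) r := by
  rw [mem_closedBall_zero_iff, norm_smul, norm_cis, one_mul]
  exact hz

theorem continuous_cis_smul (z : Cn n) : Continuous fun θ : ℝ => cis θ • z :=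
  continuous_cis.smul continuous_const

theorem continuous_rot {H : Cn n → Cn n} (hH : DifferentiableOn ℂ H (ball 0 1)) {z : Cn n}
    (hz : z ∈ ball (0 : Cn n) 1) : Continuous fun θ : ℝ => rot (cis θ) H z := by
  unfold rot
  refine (continuous_cis.inv₀ cis_ne).smul ?_
  refine hH.continuousOn.comp_continuous (continuous_cis_smul z) fun θ => ?_
  rw [mem_ball_zero_iff] at hz ⊢
  rwa [norm_smul, norm_cis, one_mul]

theorem norm_rot (H : Cn n → Cn n) (z : Cn n) (θ : ℝ) : ‖rot (cis θ) H z‖ = ‖H (cis θ • z)‖ := by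
  unfold rot
  rw [norm_smul, norm_inv, norm_cis, inv_one, one_mul]

theorem integrable_rot {H : Cn n → Cn n} (hH : DifferentiableOn ℂ H (ball 0 1)) {z : Cn n}
    (hz : z ∈ ball (0 : Cn n) 1) (μ : Measure ℝ) [IsFiniteMeasure μ] :
    Integrable (fun θ : ℝ => rot (cis θ) H z) μ := by
  obtain ⟨M, -, hM⟩ := exists_bound hH (r := ‖z‖) (mem_ball_zero_iff.1 hz)
  refine Integrable.of_bound (continuous_rot hH hz).aestronglyMeasurable M
    (Filter.Eventually.of_forall fun θ => ?_)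
  rw [norm_rot]
  exact hM _ (cis_smul_mem le_rfl θ)

theorem rotAvg_hasFDerivAt {H : Cn n → Cn n} (hH : DifferentiableOn ℂ H (ball 0 1)) {z₀ : Cn n}
    (hz₀ : z₀ ∈ ball (0 : Cn n) 1) (μ : Measure ℝ) [IsFiniteMeasure μ] :
    HasFDerivAt (rotAvg μ H) (∫ θ, fderiv ℂ H (cis θ • z₀) ∂μ) z₀ := by
  have hz := hz₀
  rw [mem_ball_zero_iff] at hz
  set ρ : ℝ := (1 - ‖z₀‖) / 3 with hρ
  have hρ0 : 0 < ρ := by rw [hρ]; linarith
  have hr : ‖z₀‖ + 2 * ρ < 1 := by rw [hρ]; linarith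
  obtain ⟨M, hM0, hM⟩ := exists_bound hH hr
  have hdiff : ∀ w ∈ ball (0 : Cn n) 1, DifferentiableAt ℂ H w := fun w hw =>
    (hH w hw).differentiableAt (isOpen_ball.mem_nhds hw)
  have hin : ∀ z ∈ ball z₀ ρ, ‖z‖ ≤ ‖z₀‖ + ρ := by
    intro z hz
    rw [mem_ball, dist_eq_norm] at hz
    have := norm_add_le z₀ (z - z₀)
    rw [add_sub_cancel] at this
    linarith
  have hbd : ∀ w : Cn n, ‖w‖ ≤ ‖z₀‖ + ρ → ‖fderiv ℂ H w‖ ≤ M / ρ := by
    intro w hw
    have hsub : closedBall w ρ ⊆ closedBall (0 : Cn n) (‖z₀‖ + 2 * ρ) := by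
      intro u hu
      rw [mem_closedBall, dist_eq_norm] at hu
      rw [mem_closedBall_zero_iff]
      have := norm_add_le w (u - w)
      rw [add_sub_cancel] at this
      linarith
    exact norm_fderiv_le hρ0 hM0 (fun u hu => hdiff u (closedBall_subset_ball hr (hsub hu)))
      fun u hu => hM u (hsub hu)
  refine hasFDerivAt_integral_of_dominated_of_fderiv_le (F := fun z θ => rot (cis θ) H z)
    (F' := fun z θ => fderiv ℂ H (cis θ • z)) (bound := fun _ => M / ρ) (s := ball z₀ ρ)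
    (ball_mem_nhds z₀ hρ0) ?_ (integrable_rot hH hz₀ μ) ?_ ?_ (integrable_const _) ?_
  · filter_upwards [isOpen_ball.mem_nhds hz₀] with z hz
    exact (continuous_rot hH hz).aestronglyMeasurable
  · refine Continuous.aestronglyMeasurable ?_
    refine (continuousOn_fderiv hH).comp_continuous (continuous_cis_smul z₀) fun θ => ?_
    rw [mem_ball_zero_iff, norm_smul, norm_cis, one_mul]
    exact hz
  · refine Filter.Eventually.of_forall fun θ z hz => hbd _ ?_
    rw [norm_smul, norm_cis, one_mul]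
    exact hin z hz
  · refine Filter.Eventually.of_forall fun θ z hz => rot_hasFDerivAt hH (norm_cis θ) ?_
    rw [mem_ball_zero_iff]
    have := hin z hz
    linarith

end SuppAvgAux

open SuppAvgAux

theorem rot_mem {n : ℕ} {A : Cn n →L[ℂ] Cn n} {H : Cn n → Cn n} (hH : H ∈ NA A) {x : ℂ}
    (hx : ‖x‖ = 1) : rot x H ∈ NA A := by
  obtain ⟨h1, h2, h3, h4⟩ := hH
  have hx0 : x ≠ 0 := by
    rintro rfl
    simp at hx
  refine ⟨rot_diff h1 hx, ?_, ?_, ?_⟩
  · simp [rot, h2]
  · have := (rot_hasFDerivAt h1 hx (z := 0) (mem_ball_self one_pos)).fderiv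
    rw [this, smul_zero, h3]
  · intro z hz hz0
    rw [rot_ip hx]
    refine h4 _ ?_ (smul_ne_zero hx0 hz0)
    rw [mem_ball_zero_iff] at hz ⊢
    rwa [norm_smul, hx, one_mul]

theorem rotAvg_mem {n : ℕ} {A : Cn n →L[ℂ] Cn n} {H : Cn n → Cn n} (hH : H ∈ NA A)
    (μ : Measure ℝ) [IsProbabilityMeasure μ] : rotAvg μ H ∈ NA A := by
  obtain ⟨h1, h2, h3, h4⟩ := hH
  refine ⟨fun z hz => (rotAvg_hasFDerivAt h1 hz μ).differentiableAt.differentiableWithinAt,
    ?_, ?_, ?_⟩
  · simp [rotAvg, rot, h2]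
  · rw [(rotAvg_hasFDerivAt h1 (mem_ball_self one_pos) μ).fderiv]
    simp [h3]
  · intro z hz hz0
    have hint := integrable_rot h1 hz μ
    have e : ip (rotAvg μ H z) z = ∫ θ, ip (rot (cis θ) H z) z ∂μ := by
      unfold ip rotAvg
      exact ((innerSL ℂ z).integral_comp_comm hint).symm
    have hint2 : Integrable (fun θ => ip (rot (cis θ) H z) z) μ :=
      (innerSL ℂ z).integrable_comp hint
    have e2 : (ip (rotAvg μ H z) z).re = ∫ θ, (ip (rot (cis θ) H z) z).re ∂μ := by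
      rw [e]
      exact (Complex.reCLM.integral_comp_comm hint2).symm
    rw [e2]
    have hpos : ∀ θ : ℝ, 0 < (ip (rot (cis θ) H z) z).re := by
      intro θ
      exact (rot_mem ⟨h1, h2, h3, h4⟩ (norm_cis θ)).2.2.2 z hz hz0
    rw [integral_pos_iff_support_of_nonneg (fun θ => (hpos θ).le) (Complex.reCLM.integrable_comp hint2)]
    have hs : (Function.support fun θ : ℝ => (ip (rot (cis θ) H z) z).re) = Set.univ := by
      ext θ
      simp [(hpos θ).ne']
    rw [hs]
    simp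

namespace SuppAvgAux

variable {n : ℕ}

/-- the rotations as a continuous family of continuous maps -/
theorem exists_family {H : Cn n → Cn n} (hH : DifferentiableOn ℂ H (ball 0 1)) {r : ℝ}
    (hr : r < 1) : ∃ Φ : C(ℝ, C(closedBall (0 : Cn n) r, Cn n)),
      ∀ θ z, Φ θ z = rot (cis θ) H z := by
  have hc : Continuous fun p : ℝ × closedBall (0 : Cn n) r => rot (cis p.1) H (p.2 : Cn n) := by
    unfold rot
    refine ((continuous_cis.comp continuous_fst).inv₀ fun p => cis_ne _).smul ?_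
    refine hH.continuousOn.comp_continuous
      ((continuous_cis.comp continuous_fst).smul (continuous_subtype_val.comp continuous_snd))
      fun p => ?_
    have := cis_smul_mem (mem_closedBall_zero_iff.1 p.2.2) p.1
    exact closedBall_subset_ball hr this
  exact ⟨ContinuousMap.curry ⟨_, hc⟩, fun θ z => rfl⟩

end SuppAvgAux

theorem continuous_functional_rot {n : ℕ} {Λ : (Cn n → Cn n) → ℂ} (hΛ : IsFunctional Λ)
    {H : Cn n → Cn n} (hH : DifferentiableOn ℂ H (ball 0 1)) :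
    Continuous (fun θ : ℝ => Λ (rot (cis θ) H)) := by
  obtain ⟨r, hr0, hr1, Λ', hΛ'⟩ := exists_ext hΛ
  obtain ⟨Φ, hΦ⟩ := exists_family hH hr1
  have e : (fun θ : ℝ => Λ (rot (cis θ) H)) = fun θ => Λ' (Φ θ) := by
    funext θ
    exact hΛ' _ (rot_diff hH (norm_cis θ)) _ (fun z => hΦ θ z)
  rw [e]
  exact Λ'.continuous.comp Φ.continuous

theorem functional_rotAvg {n : ℕ} {Λ : (Cn n → Cn n) → ℂ} (hΛ : IsFunctional Λ)
    {A : Cn n →L[ℂ] Cn n} {H : Cn n → Cn n} (hH : H ∈ NA A)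
    (μ : Measure ℝ) [IsProbabilityMeasure μ] :
    Λ (rotAvg μ H) = ∫ θ : ℝ, Λ (rot (cis θ) H) ∂μ := by
  obtain ⟨r, hr0, hr1, Λ', hΛ'⟩ := exists_ext hΛ
  obtain ⟨Φ, hΦ⟩ := exists_family hH.1 hr1
  obtain ⟨M, hM0, hM⟩ := exists_bound hH.1 hr1
  have hint : Integrable (fun θ => Φ θ) μ := by
    refine Integrable.of_bound Φ.continuous.aestronglyMeasurable M
      (Filter.Eventually.of_forall fun θ => ?_)
    refine (ContinuousMap.norm_le _ hM0).2 fun z => ?_
    rw [hΦ, norm_rot]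
    exact hM _ (cis_smul_mem (mem_closedBall_zero_iff.1 z.2) θ)
  have e1 : Λ (rotAvg μ H) = Λ' (∫ θ, Φ θ ∂μ) := by
    refine hΛ' _ (rotAvg_mem hH μ).1 _ fun z => ?_
    have h1 := (ContinuousMap.evalCLM ℂ z).integral_comp_comm hint
    have h2 : (∫ θ, Φ θ ∂μ) z = ∫ θ, Φ θ z ∂μ := h1.symm
    rw [h2]
    unfold rotAvg
    exact integral_congr_ae (Filter.Eventually.of_forall fun θ => hΦ θ z)
  rw [e1, ← Λ'.integral_comp_comm hint]
  refine integral_congr_ae (Filter.Eventually.of_forall fun θ => ?_)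
  exact (hΛ' _ (rot_diff hH.1 (norm_cis θ)) _ (fun z => hΦ θ z)).symm

end Pool.Agent.P1ae5
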