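import Pool.Agent.Lib.P1ae5.RotDefs

/-!
P1ae5.SuppExt (MP_1ae5d5_an). STUB, statement fixed.

Proof. `Λ` is bounded by `C * sup_K`; `K` is compact in the open ball, so `K ⊆ closedBall 0 r` for
some `0 < r < 1`; replace `C` by `|C|`. Let `X = C(closedBall 0 r, Cn n)` (`closedBall 0 r` is a
compact space, finite dimension), `S ⊆ X` the submodule of the restrictions of the functions
holomorphic on the unit ball. If `f, f'` have the same restriction then `Λ f = Λ f'` (bound with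
`M = 0` for `f - f' = f + (-1) • f'`). So `Λ` induces a linear functional on `S`, bounded by
`|C| * norm`; extend by Hahn-Banach (`exists_extension_norm_eq`, over `ℂ`).
(In Lean it may be easier to define a linear map on the submodule
`{f | DifferentiableOn ℂ f (ball 0 1)}` of `Cn n → Cn n` and to push it forward to the range of the
restriction map, e.g. by choosing a preimage with `Classical.choose`.)
-/

open Metric MeasureTheory

namespace Pool.Agent.P1ae5

/-- two holomorphic maps which agree on a set containing `K` have the same image -/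
theorem suppExt_congr {n : ℕ} {Λ : (Cn n → Cn n) → ℂ}
    (hadd : ∀ f g : Cn n → Cn n, DifferentiableOn ℂ f (ball 0 1) →
      DifferentiableOn ℂ g (ball 0 1) → Λ (f + g) = Λ f + Λ g)
    (hsmul : ∀ (c : ℂ) (f : Cn n → Cn n), DifferentiableOn ℂ f (ball 0 1) →
      Λ (c • f) = c * Λ f)
    {K : Set (Cn n)} {C : ℝ}
    (hC : ∀ f : Cn n → Cn n, DifferentiableOn ℂ f (ball 0 1) → ∀ M : ℝ, 0 ≤ M →
      (∀ z ∈ K, ‖f z‖ ≤ M) → ‖Λ f‖ ≤ C * M)
    {f f' : Cn n → Cn n} (hf : DifferentiableOn ℂ f (ball 0 1))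
    (hf' : DifferentiableOn ℂ f' (ball 0 1)) (h : ∀ z ∈ K, f z = f' z) : Λ f = Λ f' := by
  have hf'' : DifferentiableOn ℂ ((-1 : ℂ) • f') (ball 0 1) := hf'.const_smul (-1 : ℂ)
  have h1 := hC (f + (-1 : ℂ) • f') (hf.add hf'') 0 le_rfl (fun z hz => by
    simp [h z hz])
  rw [hadd f _ hf hf'', hsmul (-1) f' hf', mul_zero] at h1
  have h2 : Λ f + -1 * Λ f' = 0 := norm_eq_zero.1 (le_antisymm h1 (norm_nonneg _))
  linear_combination h2

theorem exists_ext {n : ℕ} {Λ : (Cn n → Cn n) → ℂ} (hΛ : IsFunctional Λ) :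
    ∃ r : ℝ, 0 < r ∧ r < 1 ∧ ∃ Λ' : C(closedBall (0 : Cn n) r, Cn n) →L[ℂ] ℂ,
      ∀ f : Cn n → Cn n, DifferentiableOn ℂ f (ball 0 1) →
        ∀ g : C(closedBall (0 : Cn n) r, Cn n), (∀ z, g z = f z) → Λ f = Λ' g := by
  classical
  obtain ⟨hadd, hsmul, K, hK1, hK, C, hC⟩ := hΛ
  obtain ⟨r, ⟨hr0, hr1⟩, hKr⟩ := exists_pos_lt_subset_ball (one_pos) hK.isClosed hK1
  have hKr' : ∀ z ∈ K, z ∈ closedBall (0 : Cn n) r := fun z hz =>
    ball_subset_closedBall (hKr hz)
  have : CompactSpace (closedBall (0 : Cn n) r) :=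
    isCompact_iff_compactSpace.1 (isCompact_closedBall _ _)
  refine ⟨r, hr0, hr1, ?_⟩
  let S : Submodule ℂ C(closedBall (0 : Cn n) r, Cn n) :=
    { carrier := {g | ∃ f : Cn n → Cn n, DifferentiableOn ℂ f (ball 0 1) ∧ ∀ z, g z = f z}
      add_mem' := by
        rintro g g' ⟨f, hf, h1⟩ ⟨f', hf', h2⟩
        exact ⟨f + f', hf.add hf', fun z => by simp [h1, h2]⟩
      zero_mem' := ⟨0, differentiableOn_const 0, fun z => by simp⟩
      smul_mem' := by
        rintro c g ⟨f, hf, h1⟩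
        exact ⟨c • f, hf.const_smul c, fun z => by simp [h1]⟩ }
  choose F hF1 hF2 using fun g : S => g.2
  have hcongr : ∀ {f f' : Cn n → Cn n}, DifferentiableOn ℂ f (ball 0 1) →
      DifferentiableOn ℂ f' (ball 0 1) → (∀ z ∈ closedBall (0 : Cn n) r, f z = f' z) →
      Λ f = Λ f' := fun hf hf' h =>
    suppExt_congr hadd hsmul hC hf hf' (fun z hz => h z (hKr' z hz))
  let L : S →ₗ[ℂ] ℂ :=
    { toFun := fun g => Λ (F g)
      map_add' := by
        intro g g'
        rw [← hadd _ _ (hF1 g) (hF1 g')]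
        refine hcongr (hF1 _) ((hF1 g).add (hF1 g')) fun z hz => ?_
        have h1 := hF2 (g + g') ⟨z, hz⟩
        have h2 := hF2 g ⟨z, hz⟩
        have h3 := hF2 g' ⟨z, hz⟩
        simp only [Submodule.coe_add, ContinuousMap.add_apply] at h1
        rw [← h1, h2, h3]
        rfl
      map_smul' := by
        intro c g
        rw [RingHom.id_apply, smul_eq_mul, ← hsmul c _ (hF1 g)]
        refine hcongr (hF1 _) ((hF1 g).const_smul c) fun z hz => ?_
        have h1 := hF2 (c • g) ⟨z, hz⟩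
        have h2 := hF2 g ⟨z, hz⟩
        simp only [Submodule.coe_smul, ContinuousMap.smul_apply] at h1
        rw [← h1, h2]
        rfl }
  have hL : ∀ g : S, ‖L g‖ ≤ |C| * ‖g‖ := by
    intro g
    have h1 := hC (F g) (hF1 g) ‖(g : C(closedBall (0 : Cn n) r, Cn n))‖ (norm_nonneg _) (fun z hz => by
      have h2 := hF2 g ⟨z, hKr' z hz⟩
      rw [← h2]
      exact ContinuousMap.norm_coe_le_norm _ _)
    exact h1.trans (mul_le_mul_of_nonneg_right (le_abs_self C) (norm_nonneg _))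
  obtain ⟨Λ', hΛ', -⟩ := exists_extension_norm_eq S (L.mkContinuous |C| hL)
  refine ⟨Λ', fun f hf g hg => ?_⟩
  have hgS : g ∈ S := ⟨f, hf, hg⟩
  have h1 := hΛ' ⟨g, hgS⟩
  rw [LinearMap.mkContinuous_apply] at h1
  rw [h1]
  refine hcongr hf (hF1 _) fun z hz => ?_
  rw [← hF2 ⟨g, hgS⟩ ⟨z, hz⟩]
  exact (hg ⟨z, hz⟩).symm

end Pool.Agent.P1ae5
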