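import Pool.Agent.Lib.P1ae5.SuppExt

/-!
P1ae5.SuppIdent (MP_1ae5d5_an): identity theorem and mean value property for
`x ↦ Λ (x⁻¹ H(x z))`. The map is the composition of a continuous functional on
`C(closedBall 0 r, Cn n)` and a Cauchy integral with values in this Banach space.
-/

open Metric MeasureTheory

namespace Pool.Agent.P1ae5

namespace SuppIdentAux

theorem circleMap_arg {R : ℝ} {ζ : ℂ} (h : ‖ζ‖ = R) : circleMap 0 R (Complex.arg ζ) = ζ := by
  rw [circleMap, zero_add, ← h, Complex.norm_mul_exp_arg_mul_I]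

theorem exists_curve {n : ℕ} {H : Cn n → Cn n} (hH : DifferentiableOn ℂ H (ball 0 1)) {r R : ℝ}
    (hR : 0 < R) (hrR : R * r < 1) :
    ∃ g : C(ℝ, C(closedBall (0 : Cn n) r, Cn n)), ∀ θ z,
      g θ z = (circleMap 0 R θ)⁻¹ • H (circleMap 0 R θ • (z : Cn n)) := by
  have hcont : Continuous fun p : ℝ × closedBall (0 : Cn n) r =>
      (circleMap 0 R p.1)⁻¹ • H (circleMap 0 R p.1 • (p.2 : Cn n)) := by
    have h1 : Continuous fun p : ℝ × closedBall (0 : Cn n) r => circleMap 0 R p.1 :=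
      (continuous_circleMap 0 R).comp continuous_fst
    refine Continuous.smul (h1.inv₀ fun p => circleMap_ne_center hR.ne') ?_
    refine hH.continuousOn.comp_continuous
      (h1.smul (continuous_subtype_val.comp continuous_snd)) fun p => ?_
    have h2 : ‖(p.2 : Cn n)‖ ≤ r := mem_closedBall_zero_iff.1 p.2.2
    have h3 : ‖circleMap 0 R p.1‖ = R := by simp [abs_of_pos hR]
    rw [mem_ball_zero_iff, norm_smul, h3]
    exact (mul_le_mul_of_nonneg_left h2 hR.le).trans_lt hrR
  exact ⟨ContinuousMap.curry ⟨_, hcont⟩, fun θ z => rfl⟩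

theorem exists_holo {n : ℕ} {H : Cn n → Cn n} (hH : DifferentiableOn ℂ H (ball 0 1))
    (h0 : H 0 = 0) {r R : ℝ} (hr : 0 < r) (hR : 0 < R) (hrR : R * r < 1) :
    ∃ Φ : ℂ → C(closedBall (0 : Cn n) r, Cn n), AnalyticOnNhd ℂ Φ (ball 0 R) ∧
      ∀ x ∈ ball (0 : ℂ) R, ∀ z : closedBall (0 : Cn n) r,
        Φ x z = dslope (fun ζ : ℂ => H (ζ • (z : Cn n))) 0 x := by
  obtain ⟨g, hg⟩ := exists_curve hH hR hrR
  set f : ℂ → C(closedBall (0 : Cn n) r, Cn n) := fun ζ => g (Complex.arg ζ) with hf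
  have hfg : ∀ θ, f (circleMap 0 R θ) = g θ := by
    intro θ
    ext1 z
    have h1 : circleMap 0 R (Complex.arg (circleMap 0 R θ)) = circleMap 0 R θ :=
      circleMap_arg (by simp [abs_of_pos hR])
    rw [hf]
    simp only [hg, h1]
  have hfi : CircleIntegrable f 0 R := by
    have h1 : (fun θ => f (circleMap 0 R θ)) = g := funext hfg
    rw [CircleIntegrable, h1]
    exact g.continuous.intervalIntegrable _ _
  refine ⟨fun w => (2 * Real.pi * Complex.I : ℂ)⁻¹ • ∮ z in C(0, R), (z - w)⁻¹ • f z, ?_, ?_⟩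
  · have h1 := hasFPowerSeriesOn_cauchy_integral (R := ⟨R, hR.le⟩) hfi hR
    have h2 := h1.analyticOnNhd
    intro x hx
    refine h2 x ?_
    have h3 := Metric.eball_coe (x := (0 : ℂ)) (ε := (⟨R, hR.le⟩ : NNReal))
    rw [h3]
    exact hx
  · intro x hx z
    have hxR : ‖x‖ < R := by simpa using hx
    have hz : ‖(z : Cn n)‖ ≤ r := mem_closedBall_zero_iff.1 z.2
    have hne : ∀ θ, circleMap 0 R θ - x ≠ 0 := by
      intro θ h
      rw [sub_eq_zero] at h
      rw [← h] at hxR
      simp [abs_of_pos hR] at hxR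
    set L : C(closedBall (0 : Cn n) r, Cn n) →L[ℂ] Cn n := ContinuousMap.evalCLM ℂ z with hL
    have hLe : ∀ F : C(closedBall (0 : Cn n) r, Cn n), L F = F z := fun F => rfl
    have hint : IntervalIntegrable (fun θ => deriv (circleMap 0 R) θ •
        ((circleMap 0 R θ - x)⁻¹ • f (circleMap 0 R θ))) volume 0 (2 * Real.pi) := by
      simp only [hfg]
      have c1 : Continuous fun θ => deriv (circleMap 0 R) θ := by
        rw [show (fun θ => deriv (circleMap 0 R) θ) = fun θ => circleMap 0 R θ * Complex.I by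
          funext θ; simp [deriv_circleMap]]
        exact (continuous_circleMap 0 R).mul continuous_const
      have c2 : Continuous fun θ => (circleMap 0 R θ - x)⁻¹ :=
        ((continuous_circleMap 0 R).sub continuous_const).inv₀ hne
      have c3 : Continuous fun θ => deriv (circleMap 0 R) θ • ((circleMap 0 R θ - x)⁻¹ • g θ) :=
        c1.smul (c2.smul g.continuous)
      exact c3.intervalIntegrable _ _
    have e1 : ((2 * Real.pi * Complex.I : ℂ)⁻¹ • ∮ ζ in C(0, R), (ζ - x)⁻¹ • f ζ) z =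
        (2 * Real.pi * Complex.I : ℂ)⁻¹ • ∮ ζ in C(0, R), (ζ - x)⁻¹ • (f ζ z) := by
      rw [← hLe, map_smul, circleIntegral, circleIntegral, ← L.intervalIntegral_comp_comm hint]
      congr 1
    have e2 : (∮ ζ in C(0, R), (ζ - x)⁻¹ • (f ζ z)) = ∮ ζ in C(0, R), (ζ - x)⁻¹ •
        dslope (fun ζ : ℂ => H (ζ • (z : Cn n))) 0 ζ := by
      refine circleIntegral.integral_congr hR.le fun ζ hζ => ?_
      have h1 : ‖ζ‖ = R := by simpa using hζ
      have h2 : ζ ≠ 0 := by
        rintro rfl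
        simp at h1
        exact hR.ne h1
      have h3 : f ζ z = ζ⁻¹ • H (ζ • (z : Cn n)) := by
        rw [hf]
        simp only [hg, circleMap_arg h1]
      simp only [h3, dslope_of_ne _ h2, slope_def_module, sub_zero, zero_smul, h0]
    have hd : DifferentiableOn ℂ (fun ζ : ℂ => H (ζ • (z : Cn n))) (ball 0 (1 / r)) := by
      refine hH.comp (by fun_prop) fun ζ hζ => ?_
      have h1 : ‖ζ‖ < 1 / r := by simpa using hζ
      rw [mem_ball_zero_iff, norm_smul]
      calc ‖ζ‖ * ‖(z : Cn n)‖ ≤ ‖ζ‖ * r := by gcongr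
        _ < 1 := by rwa [← lt_div_iff₀ hr]
    have hRr : R < 1 / r := by rwa [lt_div_iff₀ hr]
    have hd2 : DifferentiableOn ℂ (dslope (fun ζ : ℂ => H (ζ • (z : Cn n))) 0) (ball 0 (1 / r)) :=
      (Complex.differentiableOn_dslope (ball_mem_nhds _ (by positivity))).2 hd
    have e3 := Complex.two_pi_I_inv_smul_circleIntegral_sub_inv_smul_of_differentiable_on_off_countable
      (s := ∅) Set.countable_empty hx
      (hd2.continuousOn.mono fun ζ hζ => by
        have h1 : ‖ζ‖ ≤ R := by simpa using hζ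
        exact mem_ball_zero_iff.2 (h1.trans_lt hRr))
      (fun ζ hζ => by
        have h1 : ‖ζ‖ < R := by simpa using hζ.1
        exact hd2.differentiableAt (isOpen_ball.mem_nhds (mem_ball_zero_iff.2 (h1.trans hRr))))
    rw [e1, e2, e3]

end SuppIdentAux

open SuppIdentAux in
theorem rot_ident {n : ℕ} {Λ : (Cn n → Cn n) → ℂ} (hΛ : IsFunctional Λ)
    {A : Cn n →L[ℂ] Cn n} {H : Cn n → Cn n} (hH : H ∈ NA A) {M : ℝ}
    (hinf : {x : ℂ | ‖x‖ = 1 ∧ (Λ (rot x H)).re = M}.Infinite) :
    (Λ (fun z => A z)).re = M := by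
  obtain ⟨hHd, hH0, hHA, -⟩ := hH
  obtain ⟨r, hr0, hr1, Λ', hext⟩ := exists_ext hΛ
  obtain ⟨R, hR1, hRr⟩ : ∃ R : ℝ, 1 < R ∧ R * r < 1 := by
    refine ⟨(1 + 1 / r) / 2, ?_, ?_⟩
    · have : 1 < 1 / r := by rwa [lt_div_iff₀ hr0, one_mul]
      linarith
    · have : 1 / r * r = 1 := by field_simp
      nlinarith
  have hR0 : 0 < R := by linarith
  obtain ⟨Φ, hΦ, hΦv⟩ := exists_holo hHd hH0 hr0 hR0 hRr
  set F : ℂ → ℂ := fun x => Λ' (Φ x) with hFdef
  have hF : AnalyticOnNhd ℂ F (ball 0 R) := Λ'.comp_analyticOnNhd hΦ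
  have hF1 : ∀ x : ℂ, ‖x‖ = 1 → Λ (rot x H) = F x := by
    intro x hx
    have hx0 : x ≠ 0 := by
      rintro rfl
      simp at hx
    refine hext _ ?_ (Φ x) fun z => ?_
    · have h2 : DifferentiableOn ℂ (fun z : Cn n => H (x • z)) (ball 0 1) := by
        refine hHd.comp (s := ball 0 1) (f := fun z : Cn n => x • z) (by fun_prop) fun z hz => ?_
        have h1 : ‖z‖ < 1 := by simpa using hz
        rw [mem_ball_zero_iff, norm_smul, hx, one_mul]
        exact h1
      exact h2.const_smul x⁻¹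
    · rw [hΦv x (by rw [mem_ball_zero_iff, hx]; exact hR1), dslope_of_ne _ hx0]
      simp only [slope_def_module, sub_zero, zero_smul, hH0, rot]
  have hF0 : Λ (fun z => A z) = F 0 := by
    refine hext _ A.differentiable.differentiableOn (Φ 0) fun z => ?_
    rw [hΦv 0 (mem_ball_self hR0), dslope_same]
    have h1 : HasFDerivAt H A ((0 : ℂ) • (z : Cn n)) := by
      rw [zero_smul, ← hHA]
      exact (hHd.differentiableAt (ball_mem_nhds _ one_pos)).hasFDerivAt
    have h2 : HasDerivAt (fun ζ : ℂ => ζ • (z : Cn n)) (z : Cn n) 0 := by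
      simpa using (hasDerivAt_id (0 : ℂ)).smul_const (z : Cn n)
    exact (h1.comp_hasDerivAt (0 : ℂ) h2).deriv
  set u : ℝ → ℝ := fun θ => (F (circleMap 0 1 θ)).re with hu
  have hmem : ∀ θ, circleMap 0 1 θ ∈ ball (0 : ℂ) R := by
    intro θ
    rw [mem_ball_zero_iff]
    simpa using hR1
  have hua : AnalyticOnNhd ℝ u Set.univ := by
    intro θ _
    have h1 : AnalyticAt ℝ F (circleMap 0 1 θ) := (hF _ (hmem θ)).restrictScalars
    exact (Complex.reCLM.analyticAt _).comp
      (h1.comp (analyticOnNhd_circleMap 0 1 θ (Set.mem_univ θ)))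
  have hT : {θ : ℝ | θ ∈ Set.Icc (-Real.pi) Real.pi ∧ u θ = M}.Infinite := by
    refine (Set.Infinite.image (f := Complex.arg) ?_ hinf).mono ?_
    · intro x hx y hy hxy
      rw [← circleMap_arg hx.1, ← circleMap_arg hy.1, hxy]
    · rintro _ ⟨x, hx, rfl⟩
      refine ⟨⟨(Complex.neg_pi_lt_arg x).le, Complex.arg_le_pi x⟩, ?_⟩
      have h1 : circleMap 0 1 (Complex.arg x) = x := circleMap_arg hx.1
      rw [hu]
      simp only [h1]
      rw [← hF1 x hx.1]
      exact hx.2
  obtain ⟨θ₀, -, hacc⟩ := hT.exists_accPt_of_subset_isCompact isCompact_Icc (fun θ hθ => hθ.1)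
  rw [accPt_iff_frequently_nhdsNE] at hacc
  have hconst : Set.EqOn u (fun _ => M) Set.univ :=
    hua.eqOn_of_preconnected_of_frequently_eq analyticOnNhd_const isPreconnected_univ
      (Set.mem_univ θ₀) (hacc.mono fun θ hθ => hθ.2)
  have hdc : DiffContOnCl ℂ F (ball 0 |1|) := by
    refine DifferentiableOn.diffContOnCl ?_
    intro x hx
    refine (hF x ?_).differentiableAt.differentiableWithinAt
    have h1 : x ∈ closedBall (0 : ℂ) |1| := closure_ball_subset_closedBall hx
    rw [mem_closedBall_zero_iff, abs_one] at h1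
    rw [mem_ball_zero_iff]
    linarith
  have hav := hdc.circleAverage
  have hci : CircleIntegrable F 0 1 := by
    refine ContinuousOn.circleIntegrable zero_le_one ?_
    intro x hx
    refine (hF x ?_).differentiableAt.continuousAt.continuousWithinAt
    have h1 : ‖x‖ = 1 := by simpa using hx
    rw [mem_ball_zero_iff, h1]
    exact hR1
  have h2 := Complex.reCLM.circleAverage_comp_comm hci
  have h3 : Real.circleAverage (Complex.reCLM ∘ F) 0 1 = M := by
    refine Real.circleAverage_const_on_circle fun x hx => ?_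
    have h4 : ‖x‖ = 1 := by simpa using hx
    have h5 := hconst (Set.mem_univ (Complex.arg x))
    simp only [hu, circleMap_arg h4] at h5
    exact h5
  rw [hF0, ← h3, h2, hav]
  rfl

end Pool.Agent.P1ae5
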