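import Pool.Agent.Lib.P1ae5.Defs

/-!
MODULE P1ae5.SupportSlice (2 h). A map `h` of `N_A` one of whose slices has a finitely supported
Herglotz measure is a support point.

PROOF. Let `Π(λ) = ∏ i, (1 - ω i λ)`, `T(φ) = |Π(e^{iφ})|^2 ≥ 0`, a trigonometric polynomial,
`T = ∑_{|k| ≤ N} T_k e^{ikφ}`, `T_{-k} = conj T_k`, `T_0 > 0` (mean value of `T`). For holomorphic
`g` on the ball let `G(λ) = ip (g (λ x)) x`, `|λ| < 1`. For `0 < r < 1` put
`L_r(g) = (1/2π) ∫ T(φ) G(r e^{iφ}) / (r e^{iφ}) dφ`; for `g ∈ N_A`, `G(0) = 0`,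
`G(λ)/λ = ∑_{k ≥ 0} c_k λ^k`, `c_0 = ip (A x) x`, and `L_r(g) = ∑_{0 ≤ k ≤ N} T_{-k} c_k r^k`.
Define `Λ(g) = - ∑_{0 ≤ k ≤ N} T_{-k} c_k(g)` with `c_k(g)` the Taylor coefficient of order `k+1`
at 0 of `G` (for every holomorphic `g`): a continuous linear functional (Cauchy estimates on
`|λ| = 1/2`, `K = {λ x : |λ| ≤ 1/2}` resp. `= 1/2`,
`Complex.norm_iteratedDeriv_le_of_forall_mem_sphere_norm_le`; or write `c_k` as a circle
integral).
For `g ∈ N_A`: `Re (G(λ)/λ) = Re <g(λx), λx> / |λ|^2 > 0`, so `Re L_r(g) ≥ 0`; `r → 1`: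
`Re Λ(g) ≤ 0`.
For `h`: `Re (G(λ)/λ) = ∑ μ i (1 - |λ|^2)/|1 - ω i λ|^2` and with `λ = r e^{iφ}`
`|1 - ω i e^{iφ}| ≤ 2 |1 - ω i λ|`, `|1 - ω j e^{iφ}| ≤ 2`, so
`T(φ) Re (G(λ)/λ) ≤ C (1 - r^2)`, and `Re Λ(h) = 0`. So `h` maximises `Re Λ`.
Not constant: `g = A` (the linear map) is in `N_A` and `Re Λ(A) = - T_0 Re (ip (A x) x) < 0`.
-/

open Metric

namespace Pool.Agent.P1ae5

namespace SupportSliceAux

open Complex Filter Topology

variable {n N : ℕ}

/-- the trigonometric polynomial, continued to the punctured plane -/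
noncomputable def TT (ω : Fin N → ℂ) (z : ℂ) : ℂ :=
  ∏ i, ((1 - ω i * z) * (1 - (starRingEnd ℂ) (ω i) * z⁻¹))

/-- its values on the unit circle -/
noncomputable def tt (ω : Fin N → ℂ) (θ : ℝ) : ℝ := ∏ i, ‖1 - ω i * circleMap 0 1 θ‖ ^ 2

lemma norm_cm {r : ℝ} (hr : 0 ≤ r) (θ : ℝ) : ‖circleMap 0 r θ‖ = r := by
  rw [norm_circleMap_zero, abs_of_nonneg hr]

lemma TT_circle (ω : Fin N → ℂ) (θ : ℝ) : TT ω (circleMap 0 1 θ) = ((tt ω θ : ℝ) : ℂ) := by
  unfold TT tt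
  rw [Complex.ofReal_prod]
  refine Finset.prod_congr rfl fun i _ => ?_
  rw [Complex.inv_eq_conj (norm_cm zero_le_one θ), Complex.ofReal_pow, ← Complex.mul_conj', map_sub,
    map_one, map_mul]

lemma tt_nonneg (ω : Fin N → ℂ) (θ : ℝ) : 0 ≤ tt ω θ :=
  Finset.prod_nonneg fun _ _ => by positivity

lemma continuous_tt (ω : Fin N → ℂ) : Continuous (tt ω) := by
  unfold tt
  refine continuous_finsetProd _ fun i _ => ?_
  have := continuous_circleMap 0 1
  fun_prop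

/-- the integrand -/
noncomputable def FF (ω : Fin N → ℂ) (x : Cn n) (g : Cn n → Cn n) (r : ℝ) (l : ℂ) : ℂ :=
  TT ω (l / r) * (ip (g (l • x)) x / l ^ 2)

lemma differentiableAt_TT {ω : Fin N → ℂ} {z : ℂ} (hz : z ≠ 0) : DifferentiableAt ℂ (TT ω) z := by
  unfold TT
  refine DifferentiableAt.fun_finsetProd fun i _ => ?_
  exact ((differentiableAt_const _).sub ((differentiableAt_const _).mul differentiableAt_id)).mul
    ((differentiableAt_const _).sub ((differentiableAt_const _).mul (differentiableAt_inv hz)))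

lemma mem_ball_of {x : Cn n} (hx : ‖x‖ = 1) {l : ℂ} (hl : ‖l‖ < 1) :
    l • x ∈ ball (0 : Cn n) 1 := by
  rw [mem_ball_zero_iff, norm_smul, hx, mul_one]
  exact hl

lemma differentiableAt_G {g : Cn n → Cn n} (hg : DifferentiableOn ℂ g (ball 0 1)) {x : Cn n}
    (hx : ‖x‖ = 1) {l : ℂ} (hl : ‖l‖ < 1) :
    DifferentiableAt ℂ (fun l : ℂ => ip (g (l • x)) x) l := by
  have h1 : DifferentiableAt ℂ g (l • x) :=
    (hg _ (mem_ball_of hx hl)).differentiableAt (isOpen_ball.mem_nhds (mem_ball_of hx hl))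
  have h2 : DifferentiableAt ℂ (fun l : ℂ => g (l • x)) l :=
    DifferentiableAt.comp l h1 (differentiableAt_id.smul_const x)
  unfold ip
  exact (innerSL ℂ x).differentiableAt.comp l h2

lemma differentiableAt_FF {ω : Fin N → ℂ} {g : Cn n → Cn n}
    (hg : DifferentiableOn ℂ g (ball 0 1)) {x : Cn n} (hx : ‖x‖ = 1) {l : ℂ} (hl : ‖l‖ < 1)
    (hl0 : l ≠ 0) {r : ℝ} (hr : 0 < r) : DifferentiableAt ℂ (FF ω x g r) l := by
  have hr0 : (r : ℂ) ≠ 0 := by exact_mod_cast hr.ne'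
  unfold FF
  have h1 : DifferentiableAt ℂ (fun l : ℂ => TT ω (l / r)) l :=
    DifferentiableAt.comp (g := TT ω) (f := fun l : ℂ => l / r) l
      (differentiableAt_TT (div_ne_zero hl0 hr0)) (differentiableAt_id.div_const _)
  exact h1.mul ((differentiableAt_G hg hx hl).div (differentiableAt_id.pow 2) (pow_ne_zero 2 hl0))

/-- the functional, up to the factor `I` -/
noncomputable def JJ (ω : Fin N → ℂ) (x : Cn n) (g : Cn n → Cn n) (r : ℝ) : ℂ :=
  ∮ l in C(0, 1 / 2), FF ω x g r l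

lemma cm_ne {r : ℝ} (hr : 0 < r) (θ : ℝ) : circleMap 0 r θ ≠ 0 := by
  have := norm_cm hr.le θ
  intro h
  rw [h, norm_zero] at this
  linarith

lemma cm_div {r : ℝ} (hr : 0 < r) (θ : ℝ) : circleMap 0 r θ / r = circleMap 0 1 θ := by
  have hr0 : (r : ℂ) ≠ 0 := by exact_mod_cast hr.ne'
  unfold circleMap
  rw [zero_add, zero_add, Complex.ofReal_one, one_mul, mul_comm, mul_div_assoc, div_self hr0,
    mul_one]

lemma JJ_eq {ω : Fin N → ℂ} {g : Cn n → Cn n} (hg : DifferentiableOn ℂ g (ball 0 1)) {x : Cn n}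
    (hx : ‖x‖ = 1) {r : ℝ} (hr : 1 / 2 ≤ r) (hr1 : r < 1) :
    JJ ω x g r = I * ∫ θ in (0 : ℝ)..2 * Real.pi,
      ((tt ω θ : ℝ) : ℂ) * (ip (g (circleMap 0 r θ • x)) x / circleMap 0 r θ) := by
  have hr0 : 0 < r := by linarith
  unfold JJ
  have h1 := circleIntegral_eq_of_differentiable_on_annulus_off_countable (c := 0)
    (f := FF ω x g r) (s := ∅) (by norm_num : (0 : ℝ) < 1 / 2) hr Set.countable_empty (by
      intro z hz
      have h2 : ‖z‖ ≤ r := by simpa using hz.1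
      have h3 : 1 / 2 ≤ ‖z‖ := by simpa using hz.2
      have h4 : z ≠ 0 := by
        intro h
        rw [h, norm_zero] at h3
        norm_num at h3
      exact (differentiableAt_FF hg hx (by linarith) h4 hr0).continuousAt.continuousWithinAt) (by
      intro z hz
      have h2 : ‖z‖ < r := by simpa using hz.1.1
      have h3 : 1 / 2 < ‖z‖ := by simpa using hz.1.2
      have h4 : z ≠ 0 := by
        intro h
        rw [h, norm_zero] at h3
        norm_num at h3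
      exact differentiableAt_FF hg hx (by linarith) h4 hr0)
  rw [← h1, ← intervalIntegral.integral_const_mul]
  unfold circleIntegral
  refine intervalIntegral.integral_congr fun θ _ => ?_
  simp only
  rw [deriv_circleMap, smul_eq_mul]
  unfold FF
  rw [cm_div hr0, TT_circle]
  have h5 := cm_ne hr0 θ
  field_simp

lemma cont_G {g : Cn n → Cn n} (hg : DifferentiableOn ℂ g (ball 0 1)) {x : Cn n}
    (hx : ‖x‖ = 1) {r : ℝ} (hr0 : 0 < r) (hr1 : r < 1) :
    Continuous fun θ : ℝ => ip (g (circleMap 0 r θ • x)) x := by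
  refine continuous_iff_continuousAt.2 fun θ => ?_
  have h1 : ‖circleMap 0 r θ‖ < 1 := by
    rw [norm_cm hr0.le]
    exact hr1
  exact ContinuousAt.comp (f := fun θ => circleMap 0 r θ)
    (g := fun l : ℂ => ip (g (l • x)) x) (differentiableAt_G hg hx h1).continuousAt
    (continuous_circleMap 0 r).continuousAt

lemma cont_Gdiv {g : Cn n → Cn n} (hg : DifferentiableOn ℂ g (ball 0 1)) {x : Cn n}
    (hx : ‖x‖ = 1) {r : ℝ} (hr0 : 0 < r) (hr1 : r < 1) :
    Continuous fun θ : ℝ => ip (g (circleMap 0 r θ • x)) x / circleMap 0 r θ :=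
  (cont_G hg hx hr0 hr1).div (continuous_circleMap 0 r) (cm_ne hr0)

lemma re_JJ {ω : Fin N → ℂ} {g : Cn n → Cn n} (hg : DifferentiableOn ℂ g (ball 0 1)) {x : Cn n}
    (hx : ‖x‖ = 1) {r : ℝ} (hr : 1 / 2 ≤ r) (hr1 : r < 1) :
    (I * JJ ω x g r).re = -∫ θ in (0 : ℝ)..2 * Real.pi,
      tt ω θ * (ip (g (circleMap 0 r θ • x)) x / circleMap 0 r θ).re := by
  have hr0 : 0 < r := by linarith
  rw [JJ_eq hg hx hr hr1, ← mul_assoc, Complex.I_mul_I, neg_one_mul, Complex.neg_re]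
  congr 1
  have hc : Continuous fun θ : ℝ =>
      ((tt ω θ : ℝ) : ℂ) * (ip (g (circleMap 0 r θ • x)) x / circleMap 0 r θ) :=
    (Complex.continuous_ofReal.comp (continuous_tt ω)).mul (cont_Gdiv hg hx hr0 hr1)
  have hi : IntervalIntegrable (fun θ : ℝ =>
      ((tt ω θ : ℝ) : ℂ) * (ip (g (circleMap 0 r θ • x)) x / circleMap 0 r θ))
      MeasureTheory.volume 0 (2 * Real.pi) := hc.intervalIntegrable _ _
  have h1 := Complex.reCLM.intervalIntegral_comp_comm hi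
  rw [Complex.reCLM_apply] at h1
  rw [← h1]
  refine intervalIntegral.integral_congr fun θ _ => ?_
  rw [Complex.reCLM_apply, Complex.re_ofReal_mul]

/-- the radii -/
noncomputable def rk (k : ℕ) : ℝ := 1 - 1 / ((k : ℝ) + 2)

lemma rk_ge (k : ℕ) : 1 / 2 ≤ rk k := by
  unfold rk
  have h1 : (0 : ℝ) ≤ k := Nat.cast_nonneg k
  have h2 : 1 / ((k : ℝ) + 2) ≤ 1 / 2 := one_div_le_one_div_of_le (by norm_num) (by linarith)
  linarith

lemma rk_lt (k : ℕ) : rk k < 1 := by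
  unfold rk
  have h1 : (0 : ℝ) ≤ k := Nat.cast_nonneg k
  have h2 : 0 < 1 / ((k : ℝ) + 2) := by positivity
  linarith

lemma tendsto_rk : Tendsto rk atTop (𝓝 1) := by
  unfold rk
  have h1 : Tendsto (fun k : ℕ => (k : ℝ) + 2) atTop atTop :=
    tendsto_atTop_add_const_right _ _ tendsto_natCast_atTop_atTop
  have h2 := (tendsto_const_nhds (x := (1 : ℝ))).sub (h1.inv_tendsto_atTop)
  simp only [sub_zero] at h2
  refine h2.congr fun k => ?_
  simp [one_div]

/-- the integrand as a function of the radius and the angle -/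
noncomputable def HH (ω : Fin N → ℂ) (x : Cn n) (g : Cn n → Cn n) (r : ℝ) (θ : ℝ) : ℂ :=
  (circleMap 0 (1 / 2) θ * I) * (TT ω (circleMap 0 (1 / 2) θ / (r : ℂ)) *
    (ip (g (circleMap 0 (1 / 2) θ • x)) x / circleMap 0 (1 / 2) θ ^ 2))

lemma JJ_HH (ω : Fin N → ℂ) (x : Cn n) (g : Cn n → Cn n) (r : ℝ) :
    JJ ω x g r = ∫ θ in (0 : ℝ)..2 * Real.pi, HH ω x g r θ := by
  unfold JJ circleIntegral
  refine intervalIntegral.integral_congr fun θ _ => ?_
  simp only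
  rw [deriv_circleMap, smul_eq_mul]
  rfl

/-- positive reals -/
abbrev PR := {r : ℝ // 0 < r}

lemma cont_TTdiv (ω : Fin N → ℂ) : Continuous fun p : PR × ℝ =>
    TT ω (circleMap 0 (1 / 2) p.2 / ((p.1 : ℝ) : ℂ)) := by
  have hcm : Continuous fun p : PR × ℝ => circleMap 0 (1 / 2) p.2 :=
    (continuous_circleMap 0 (1 / 2)).comp continuous_snd
  have hr : Continuous fun p : PR × ℝ => ((p.1 : ℝ) : ℂ) :=
    Complex.continuous_ofReal.comp (continuous_subtype_val.comp continuous_fst)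
  have hr0 : ∀ p : PR × ℝ, ((p.1 : ℝ) : ℂ) ≠ 0 := fun p => by
    exact_mod_cast p.1.2.ne'
  have hc0 : ∀ p : PR × ℝ, circleMap 0 (1 / 2) p.2 ≠ 0 := fun p => cm_ne (by norm_num) _
  have hdiv : Continuous fun p : PR × ℝ => circleMap 0 (1 / 2) p.2 / ((p.1 : ℝ) : ℂ) :=
    hcm.div hr hr0
  have hinv : Continuous fun p : PR × ℝ => (circleMap 0 (1 / 2) p.2 / ((p.1 : ℝ) : ℂ))⁻¹ :=
    hdiv.inv₀ fun p => div_ne_zero (hc0 p) (hr0 p)
  unfold TT
  refine continuous_finsetProd _ fun i _ => ?_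
  exact (continuous_const.sub (continuous_const.mul hdiv)).mul
    (continuous_const.sub (continuous_const.mul hinv))

lemma cont_HH {ω : Fin N → ℂ} {g : Cn n → Cn n} (hg : DifferentiableOn ℂ g (ball 0 1))
    {x : Cn n} (hx : ‖x‖ = 1) : Continuous fun p : PR × ℝ => HH ω x g (p.1 : ℝ) p.2 := by
  have hcm : Continuous fun p : PR × ℝ => circleMap 0 (1 / 2) p.2 :=
    (continuous_circleMap 0 (1 / 2)).comp continuous_snd
  have hG : Continuous fun p : PR × ℝ => ip (g (circleMap 0 (1 / 2) p.2 • x)) x :=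
    (cont_G hg hx (r := 1 / 2) (by norm_num) (by norm_num)).comp continuous_snd
  have hc0 : ∀ p : PR × ℝ, circleMap 0 (1 / 2) p.2 ^ 2 ≠ 0 := fun p =>
    pow_ne_zero 2 (cm_ne (by norm_num) _)
  have hq : Continuous fun p : PR × ℝ =>
      ip (g (circleMap 0 (1 / 2) p.2 • x)) x / circleMap 0 (1 / 2) p.2 ^ 2 :=
    hG.div (hcm.pow 2) hc0
  unfold HH
  exact (hcm.mul continuous_const).mul ((cont_TTdiv ω).mul hq)

lemma cont_JJ {ω : Fin N → ℂ} {g : Cn n → Cn n} (hg : DifferentiableOn ℂ g (ball 0 1))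
    {x : Cn n} (hx : ‖x‖ = 1) : Continuous fun r : PR => JJ ω x g (r : ℝ) := by
  have h1 : (fun r : PR => JJ ω x g (r : ℝ)) =
      fun r : PR => ∫ θ in (0 : ℝ)..2 * Real.pi, HH ω x g (r : ℝ) θ := by
    funext r
    exact JJ_HH ω x g r
  rw [h1]
  have h2 : Continuous (Function.uncurry fun (r : PR) (θ : ℝ) => HH ω x g (r : ℝ) θ) :=
    cont_HH hg hx
  exact intervalIntegral.continuous_parametric_intervalIntegral_of_continuous' h2 0 (2 * Real.pi)

lemma tendsto_JJ {ω : Fin N → ℂ} {g : Cn n → Cn n} (hg : DifferentiableOn ℂ g (ball 0 1))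
    {x : Cn n} (hx : ‖x‖ = 1) : Tendsto (fun k => JJ ω x g (rk k)) atTop (𝓝 (JJ ω x g 1)) := by
  have hpos : ∀ k, 0 < rk k := fun k => by
    have := rk_ge k
    linarith
  obtain ⟨o, ho⟩ : ∃ o : PR, (o : ℝ) = 1 := ⟨⟨1, one_pos⟩, rfl⟩
  obtain ⟨u, hu⟩ : ∃ u : ℕ → PR, ∀ k, (u k : ℝ) = rk k := ⟨fun k => ⟨rk k, hpos k⟩, fun k => rfl⟩
  have hseq : Tendsto u atTop (𝓝 o) := by
    rw [tendsto_subtype_rng, ho]
    exact tendsto_rk.congr fun k => (hu k).symm
  have h3 := ((cont_JJ (ω := ω) hg hx).tendsto o).comp hseq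
  simp only [Function.comp_def, ho, hu] at h3
  exact h3

lemma div_re_eq (a l : ℂ) (hl : l ≠ 0) :
    (a / l).re = ((starRingEnd ℂ) l * a).re / ‖l‖ ^ 2 := by
  have h1 : (‖l‖ : ℂ) ^ 2 ≠ 0 := by
    have : ‖l‖ ≠ 0 := norm_ne_zero_iff.2 hl
    exact pow_ne_zero 2 (by exact_mod_cast this)
  have h2 : a / l = ((starRingEnd ℂ) l * a) / ((‖l‖ ^ 2 : ℝ) : ℂ) := by
    rw [div_eq_div_iff hl (by exact_mod_cast h1)]
    push_cast
    rw [← Complex.conj_mul']
    ring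
  rw [h2, Complex.div_ofReal_re]

lemma slice_pos {A : Cn n →L[ℂ] Cn n} {g : Cn n → Cn n} (hg : g ∈ NA A) {x : Cn n}
    (hx : ‖x‖ = 1) {l : ℂ} (hl : ‖l‖ < 1) (hl0 : l ≠ 0) : 0 < (ip (g (l • x)) x / l).re := by
  have hx0 : x ≠ 0 := by
    intro h
    rw [h, norm_zero] at hx
    norm_num at hx
  have h1 := hg.2.2.2 (l • x) (mem_ball_of hx hl) (smul_ne_zero hl0 hx0)
  have h2 : ip (g (l • x)) (l • x) = (starRingEnd ℂ) l * ip (g (l • x)) x := by
    unfold ip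
    rw [inner_smul_left]
  rw [h2] at h1
  rw [div_re_eq _ _ hl0]
  have : 0 < ‖l‖ := norm_pos_iff.2 hl0
  positivity

lemma re_nonpos {A : Cn n →L[ℂ] Cn n} {ω : Fin N → ℂ} {g : Cn n → Cn n} (hg : g ∈ NA A)
    {x : Cn n} (hx : ‖x‖ = 1) : (I * JJ ω x g 1).re ≤ 0 := by
  have h1 : Tendsto (fun k => (I * JJ ω x g (rk k)).re) atTop (𝓝 (I * JJ ω x g 1).re) :=
    (Complex.continuous_re.tendsto _).comp ((tendsto_JJ hg.1 hx).const_mul I)
  refine le_of_tendsto' h1 fun k => ?_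
  rw [re_JJ hg.1 hx (rk_ge k) (rk_lt k), neg_nonpos]
  refine intervalIntegral.integral_nonneg (by positivity) fun θ _ => ?_
  have hr0 : 0 < rk k := by linarith [rk_ge k]
  refine mul_nonneg (tt_nonneg _ _) (slice_pos hg hx ?_ (cm_ne hr0 θ)).le
  rw [norm_cm hr0.le]
  exact rk_lt k

/-- the kernel -/
lemma poisson {w : ℂ} (hw : w ≠ 1) : ((1 + w) / (1 - w)).re = (1 - ‖w‖ ^ 2) / ‖1 - w‖ ^ 2 := by
  have h1 : (1 - w) ≠ 0 := sub_ne_zero.2 (Ne.symm hw)
  rw [div_re_eq _ _ h1]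
  congr 1
  have h2 : ‖w‖ ^ 2 = w.re ^ 2 + w.im ^ 2 := by
    rw [← Complex.normSq_eq_norm_sq, Complex.normSq_apply]
    ring
  rw [h2]
  simp only [map_sub, map_one, Complex.mul_re, Complex.sub_re, Complex.one_re, Complex.add_re,
    Complex.conj_re, Complex.sub_im, Complex.one_im, Complex.conj_im, Complex.add_im]
  ring

lemma norm_double {w : ℂ} (hw : ‖w‖ = 1) {r : ℝ} (hr0 : 0 ≤ r) (hr1 : r ≤ 1) :
    ‖1 - w‖ ≤ 2 * ‖1 - (r : ℂ) * w‖ := by
  have h1 : 1 - w = (1 - (r : ℂ) * w) - ((1 - r : ℝ) : ℂ) * w := by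
    push_cast
    ring
  have h2 : ‖((1 - r : ℝ) : ℂ) * w‖ = 1 - r := by
    rw [norm_mul, hw, mul_one, Complex.norm_real, Real.norm_eq_abs, abs_of_nonneg (by linarith)]
  have h3 : 1 - r ≤ ‖1 - (r : ℂ) * w‖ := by
    have h4 := norm_sub_norm_le (1 : ℂ) ((r : ℂ) * w)
    rw [norm_one, norm_mul, hw, mul_one, Complex.norm_real, Real.norm_eq_abs,
      abs_of_nonneg hr0] at h4
    exact h4
  calc ‖1 - w‖ ≤ ‖1 - (r : ℂ) * w‖ + ‖((1 - r : ℝ) : ℂ) * w‖ := by
        conv_lhs => rw [h1]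
        exact norm_sub_le _ _
    _ ≤ _ := by rw [h2]; linarith

lemma tt_le (ω : Fin N → ℂ) (hω : ∀ i, ‖ω i‖ = 1) (i : Fin N) {r : ℝ} (hr0 : 0 ≤ r)
    (hr1 : r ≤ 1) (θ : ℝ) :
    tt ω θ ≤ 4 * 4 ^ N * ‖1 - ω i * circleMap 0 r θ‖ ^ 2 := by
  have hz : ‖circleMap 0 1 θ‖ = 1 := norm_cm zero_le_one θ
  have h1 : circleMap 0 r θ = (r : ℂ) * circleMap 0 1 θ := by
    unfold circleMap
    push_cast
    ring
  have h2 : ∀ j, ‖1 - ω j * circleMap 0 1 θ‖ ^ 2 ≤ 4 := by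
    intro j
    have h3 : ‖1 - ω j * circleMap 0 1 θ‖ ≤ 2 := by
      refine (norm_sub_le _ _).trans ?_
      rw [norm_one, norm_mul, hω j, hz]
      norm_num
    calc ‖1 - ω j * circleMap 0 1 θ‖ ^ 2 ≤ 2 ^ 2 := pow_le_pow_left₀ (norm_nonneg _) h3 2
      _ = 4 := by norm_num
  unfold tt
  rw [← Finset.mul_prod_erase Finset.univ _ (Finset.mem_univ i)]
  have h4 : ∏ j ∈ Finset.univ.erase i, ‖1 - ω j * circleMap 0 1 θ‖ ^ 2 ≤ 4 ^ N := by
    calc ∏ j ∈ Finset.univ.erase i, ‖1 - ω j * circleMap 0 1 θ‖ ^ 2 ≤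
          ∏ _j ∈ Finset.univ.erase i, (4 : ℝ) :=
          Finset.prod_le_prod (fun _ _ => by positivity) fun j _ => h2 j
      _ = 4 ^ (Finset.univ.erase i).card := Finset.prod_const _
      _ ≤ 4 ^ N := by
          refine pow_le_pow_right₀ (by norm_num) ?_
          have := Finset.card_le_card (Finset.erase_subset i Finset.univ)
          rwa [Finset.card_univ, Fintype.card_fin] at this
  have h5 : ‖1 - ω i * circleMap 0 1 θ‖ ^ 2 ≤ 4 * ‖1 - ω i * circleMap 0 r θ‖ ^ 2 := by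
    have h6 : ‖ω i * circleMap 0 1 θ‖ = 1 := by rw [norm_mul, hω i, hz, mul_one]
    have h7 := norm_double h6 hr0 hr1
    have h8 : (r : ℂ) * (ω i * circleMap 0 1 θ) = ω i * circleMap 0 r θ := by
      rw [h1]
      ring
    rw [h8] at h7
    calc ‖1 - ω i * circleMap 0 1 θ‖ ^ 2 ≤ (2 * ‖1 - ω i * circleMap 0 r θ‖) ^ 2 :=
          pow_le_pow_left₀ (norm_nonneg _) h7 2
      _ = _ := by ring
  calc _ ≤ (4 * ‖1 - ω i * circleMap 0 r θ‖ ^ 2) * 4 ^ N :=
        mul_le_mul h5 h4 (Finset.prod_nonneg fun _ _ => by positivity) (by positivity)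
    _ = _ := by ring

lemma re_nonneg {A : Cn n →L[ℂ] Cn n} {h : Cn n → Cn n} (hh : h ∈ NA A)
    {x : Cn n} (hx : ‖x‖ = 1) (μ : Fin N → ℝ) (hμ : ∀ i, 0 ≤ μ i)
    (ω : Fin N → ℂ) (hω : ∀ i, ‖ω i‖ = 1) (γ : ℝ)
    (hs : ∀ l : ℂ, ‖l‖ < 1 → l ≠ 0 → ip (h (l • x)) x / l =
      ∑ i, (μ i : ℂ) * ((1 + ω i * l) / (1 - ω i * l)) + γ * Complex.I) :
    0 ≤ (I * JJ ω x h 1).re := by
  have h1 : Tendsto (fun k => (I * JJ ω x h (rk k)).re) atTop (𝓝 (I * JJ ω x h 1).re) :=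
    (Complex.continuous_re.tendsto _).comp ((tendsto_JJ hh.1 hx).const_mul I)
  set K : ℝ := (∑ i, μ i) * (4 * 4 ^ N) with hK
  have h2 : Tendsto (fun k => -(2 * Real.pi * (K * (1 - rk k ^ 2)))) atTop (𝓝 0) := by
    have h3 : Tendsto (fun k => -(2 * Real.pi * (K * (1 - rk k ^ 2)))) atTop
        (𝓝 (-(2 * Real.pi * (K * (1 - 1 ^ 2))))) :=
      (((tendsto_const_nhds.sub (tendsto_rk.pow 2)).const_mul K).const_mul (2 * Real.pi)).neg
    simpa using h3
  refine le_of_tendsto_of_tendsto' h2 h1 fun k => ?_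
  have hr0 : 0 < rk k := by linarith [rk_ge k]
  have hr1 := rk_lt k
  rw [re_JJ hh.1 hx (rk_ge k) hr1, neg_le_neg_iff]
  have hc : Continuous fun θ : ℝ => tt ω θ * (ip (h (circleMap 0 (rk k) θ • x)) x /
      circleMap 0 (rk k) θ).re :=
    (continuous_tt ω).mul (Complex.continuous_re.comp (cont_Gdiv hh.1 hx hr0 hr1))
  have h4 : ∀ θ : ℝ, tt ω θ * (ip (h (circleMap 0 (rk k) θ • x)) x /
      circleMap 0 (rk k) θ).re ≤ K * (1 - rk k ^ 2) := by
    intro θ
    have hn : ‖circleMap 0 (rk k) θ‖ = rk k := norm_cm hr0.le θ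
    rw [hs _ (by rw [hn]; exact hr1) (cm_ne hr0 θ), Complex.add_re, Complex.re_sum]
    have e1 : ((γ : ℂ) * Complex.I).re = 0 := by simp
    rw [e1, add_zero, Finset.mul_sum, hK, Finset.sum_mul, Finset.sum_mul]
    refine Finset.sum_le_sum fun i _ => ?_
    rw [Complex.re_ofReal_mul]
    have hnw : ‖ω i * circleMap 0 (rk k) θ‖ = rk k := by rw [norm_mul, hω i, hn, one_mul]
    have hw1 : ω i * circleMap 0 (rk k) θ ≠ 1 := by
      intro h5
      rw [h5, norm_one] at hnw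
      linarith
    rw [poisson hw1, hnw]
    have hpos : 0 < ‖1 - ω i * circleMap 0 (rk k) θ‖ ^ 2 := by
      have : 1 - ω i * circleMap 0 (rk k) θ ≠ 0 := sub_ne_zero.2 (Ne.symm hw1)
      have := norm_pos_iff.2 this
      positivity
    have h6 := tt_le ω hω i hr0.le hr1.le θ
    have h7 : 0 ≤ 1 - rk k ^ 2 := by nlinarith
    have h8 : tt ω θ * ((1 - rk k ^ 2) / ‖1 - ω i * circleMap 0 (rk k) θ‖ ^ 2) ≤
        4 * 4 ^ N * (1 - rk k ^ 2) := by
      rw [← mul_div_assoc, div_le_iff₀ hpos]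
      calc tt ω θ * (1 - rk k ^ 2) ≤
            (4 * 4 ^ N * ‖1 - ω i * circleMap 0 (rk k) θ‖ ^ 2) * (1 - rk k ^ 2) :=
            mul_le_mul_of_nonneg_right h6 h7
        _ = _ := by ring
    calc tt ω θ * (μ i * ((1 - rk k ^ 2) / ‖1 - ω i * circleMap 0 (rk k) θ‖ ^ 2)) =
          μ i * (tt ω θ * ((1 - rk k ^ 2) / ‖1 - ω i * circleMap 0 (rk k) θ‖ ^ 2)) := by ring
      _ ≤ μ i * (4 * 4 ^ N * (1 - rk k ^ 2)) := mul_le_mul_of_nonneg_left h8 (hμ i)
      _ = _ := by ring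
  have h5 : ∫ θ in (0 : ℝ)..2 * Real.pi, tt ω θ * (ip (h (circleMap 0 (rk k) θ • x)) x /
      circleMap 0 (rk k) θ).re ≤ ∫ _θ in (0 : ℝ)..2 * Real.pi, K * (1 - rk k ^ 2) :=
    intervalIntegral.integral_mono_on (by positivity) (hc.intervalIntegrable _ _)
      (continuous_const.intervalIntegrable _ _) fun θ _ => h4 θ
  rw [intervalIntegral.integral_const, smul_eq_mul, sub_zero] at h5
  exact h5

lemma int_tt_pos (ω : Fin N → ℂ) : 0 < ∫ θ in (0 : ℝ)..2 * Real.pi, tt ω θ := by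
  refine intervalIntegral.integral_pos (by positivity) (continuous_tt ω).continuousOn
    (fun θ _ => tt_nonneg ω θ) ?_
  by_contra hcon
  push Not at hcon
  set P : ℂ → ℂ := fun z => ∏ i, (1 - ω i * z) with hP
  have hd : Differentiable ℂ P := by
    intro z
    exact DifferentiableAt.fun_finsetProd fun i _ =>
      (differentiableAt_const _).sub ((differentiableAt_const _).mul differentiableAt_id)
  have h1 := (hd.diffContOnCl (s := ball (0 : ℂ) 1)).circleIntegral_sub_inv_smul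
    (mem_ball_self one_pos)
  have h2 : ∮ z in C(0, 1), (z - 0)⁻¹ • P z = 0 := by
    unfold circleIntegral
    have h3 : ∫ θ in (0 : ℝ)..2 * Real.pi, deriv (circleMap 0 1) θ •
        ((circleMap 0 1 θ - 0)⁻¹ • P (circleMap 0 1 θ)) = ∫ _θ in (0 : ℝ)..2 * Real.pi, (0 : ℂ) := by
      refine intervalIntegral.integral_congr fun θ hθ => ?_
      rw [Set.uIcc_of_le (by positivity)] at hθ
      have h4 : tt ω θ = 0 := le_antisymm (hcon θ hθ) (tt_nonneg ω θ)
      unfold tt at h4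
      obtain ⟨i, _, hi⟩ := Finset.prod_eq_zero_iff.1 h4
      have h5 : 1 - ω i * circleMap 0 1 θ = 0 := norm_eq_zero.1 (pow_eq_zero_iff (by norm_num) |>.1 hi)
      have h6 : P (circleMap 0 1 θ) = 0 := Finset.prod_eq_zero (Finset.mem_univ i) h5
      rw [h6, smul_zero, smul_zero]
    rw [h3]
    simp
  rw [h2] at h1
  have h7 : P 0 = 1 := by simp [hP]
  rw [h7] at h1
  have h8 : (2 * (Real.pi : ℂ) * I) ≠ 0 := Complex.two_pi_I_ne_zero
  apply h8
  rw [smul_eq_mul, mul_one] at h1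
  exact h1.symm

lemma A_mem {A : Cn n →L[ℂ] Cn n} (hA : ∀ z : Cn n, z ≠ 0 → 0 < (ip (A z) z).re) :
    (fun z => A z) ∈ NA A :=
  ⟨A.differentiable.differentiableOn, map_zero A, A.fderiv, fun z _ hz => hA z hz⟩

lemma re_A {A : Cn n →L[ℂ] Cn n} (hA : ∀ z : Cn n, z ≠ 0 → 0 < (ip (A z) z).re)
    (ω : Fin N → ℂ) {x : Cn n} (hx : ‖x‖ = 1) : (I * JJ ω x (fun z => A z) 1).re < 0 := by
  have hx0 : x ≠ 0 := by
    intro h
    rw [h, norm_zero] at hx
    norm_num at hx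
  have h1 : Tendsto (fun k => (I * JJ ω x (fun z => A z) (rk k)).re) atTop
      (𝓝 (I * JJ ω x (fun z => A z) 1).re) :=
    (Complex.continuous_re.tendsto _).comp ((tendsto_JJ (A_mem hA).1 hx).const_mul I)
  have h2 : ∀ k, (I * JJ ω x (fun z => A z) (rk k)).re =
      -((∫ θ in (0 : ℝ)..2 * Real.pi, tt ω θ) * (ip (A x) x).re) := by
    intro k
    have hr0 : 0 < rk k := by linarith [rk_ge k]
    rw [re_JJ (A_mem hA).1 hx (rk_ge k) (rk_lt k), ← intervalIntegral.integral_mul_const]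
    congr 1
    refine intervalIntegral.integral_congr fun θ _ => ?_
    congr 2
    have h3 : ip (A (circleMap 0 (rk k) θ • x)) x = circleMap 0 (rk k) θ * ip (A x) x := by
      unfold ip
      rw [map_smul, inner_smul_right]
    rw [h3, mul_div_cancel_left₀ _ (cm_ne hr0 θ)]
  simp_rw [h2] at h1
  have h3 := tendsto_nhds_unique h1 tendsto_const_nhds
  rw [h3, neg_neg_iff_pos]
  exact mul_pos (int_tt_pos ω) (hA x hx0)

lemma cont_FF {ω : Fin N → ℂ} {g : Cn n → Cn n} (hg : DifferentiableOn ℂ g (ball 0 1))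
    {x : Cn n} (hx : ‖x‖ = 1) : ContinuousOn (FF ω x g 1) (sphere 0 (1 / 2)) := by
  intro l hl
  have h1 : ‖l‖ = 1 / 2 := by simpa using hl
  have h2 : l ≠ 0 := by
    intro h
    rw [h, norm_zero] at h1
    norm_num at h1
  exact (differentiableAt_FF hg hx (by rw [h1]; norm_num) h2 one_pos).continuousAt.continuousWithinAt

lemma isFunctional (ω : Fin N → ℂ) {x : Cn n} (hx : ‖x‖ = 1) :
    IsFunctional fun g : Cn n → Cn n => I * JJ ω x g 1 := by
  refine ⟨?_, ?_, ?_⟩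
  · intro f g hf hg
    have h1 : JJ ω x (f + g) 1 = JJ ω x f 1 + JJ ω x g 1 := by
      unfold JJ
      rw [← circleIntegral.integral_add ((cont_FF hf hx).circleIntegrable (by norm_num))
        ((cont_FF hg hx).circleIntegrable (by norm_num))]
      congr 1
      funext l
      unfold FF ip
      rw [Pi.add_apply, inner_add_right]
      ring
    show I * JJ ω x (f + g) 1 = I * JJ ω x f 1 + I * JJ ω x g 1
    rw [h1, mul_add]
  · intro c f _
    have h1 : JJ ω x (c • f) 1 = c * JJ ω x f 1 := by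
      unfold JJ
      rw [← circleIntegral.integral_const_mul]
      congr 1
      funext l
      unfold FF ip
      rw [Pi.smul_apply, inner_smul_right]
      ring
    show I * JJ ω x (c • f) 1 = c * (I * JJ ω x f 1)
    rw [h1]
    ring
  · refine ⟨(fun l : ℂ => l • x) '' sphere 0 (1 / 2), ?_,
      (isCompact_sphere _ _).image (by fun_prop), ?_⟩
    · rintro _ ⟨l, hl, rfl⟩
      have h1 : ‖l‖ = 1 / 2 := by simpa using hl
      exact mem_ball_of hx (by rw [h1]; norm_num)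
    · have hcT : ContinuousOn (fun l : ℂ => TT ω (l / ((1 : ℝ) : ℂ)) / l ^ 2)
          (sphere 0 (1 / 2)) := by
        intro l hl
        have h1 : ‖l‖ = 1 / 2 := by simpa using hl
        have h2 : l ≠ 0 := by
          intro h
          rw [h, norm_zero] at h1
          norm_num at h1
        have h3 : DifferentiableAt ℂ (fun l : ℂ => TT ω (l / ((1 : ℝ) : ℂ))) l :=
          DifferentiableAt.comp (g := TT ω) (f := fun l : ℂ => l / ((1 : ℝ) : ℂ)) l
            (differentiableAt_TT (div_ne_zero h2 (by norm_num))) (differentiableAt_id.div_const _)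
        exact (h3.div (differentiableAt_id.pow 2)
          (pow_ne_zero 2 h2)).continuousAt.continuousWithinAt
      obtain ⟨CT, hCT⟩ := (isCompact_sphere (0 : ℂ) (1 / 2)).exists_bound_of_continuousOn hcT
      refine ⟨2 * Real.pi * (1 / 2) * CT, fun f _ M hM hf => ?_⟩
      rw [norm_mul, Complex.norm_I, one_mul]
      unfold JJ
      have h4 : ∀ z ∈ sphere (0 : ℂ) (1 / 2), ‖FF ω x f 1 z‖ ≤ CT * M := by
        intro l hl
        have h5 := hCT l hl
        have h6 : ‖ip (f (l • x)) x‖ ≤ M := by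
          unfold ip
          refine (norm_inner_le_norm _ _).trans ?_
          rw [hx, one_mul]
          exact hf _ ⟨l, hl, rfl⟩
        have h7 : FF ω x f 1 l = (TT ω (l / ((1 : ℝ) : ℂ)) / l ^ 2) * ip (f (l • x)) x := by
          unfold FF
          ring
        rw [h7, norm_mul]
        exact mul_le_mul h5 h6 (norm_nonneg _) ((norm_nonneg _).trans h5)
      refine (circleIntegral.norm_integral_le_of_norm_le_const (by norm_num) h4).trans
        (le_of_eq ?_)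
      ring

end SupportSliceAux

open SupportSliceAux

theorem support_of_slice {n : ℕ} {A : Cn n →L[ℂ] Cn n}
    (hA : ∀ z : Cn n, z ≠ 0 → 0 < (ip (A z) z).re) {h : Cn n → Cn n} (hh : h ∈ NA A)
    {x : Cn n} (hx : ‖x‖ = 1) {N : ℕ} (μ : Fin N → ℝ) (hμ : ∀ i, 0 ≤ μ i)
    (ω : Fin N → ℂ) (hω : ∀ i, ‖ω i‖ = 1) (γ : ℝ)
    (hs : ∀ l : ℂ, ‖l‖ < 1 → l ≠ 0 → ip (h (l • x)) x / l =
      ∑ i, (μ i : ℂ) * ((1 + ω i * l) / (1 - ω i * l)) + γ * Complex.I) :
    IsSupport A h := by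
  refine ⟨hh, fun g => Complex.I * JJ ω x g 1, isFunctional ω hx, ⟨fun z => A z, A_mem hA, ?_⟩, ?_⟩
  · have h1 := re_A hA ω hx
    have h2 := re_nonneg hh hx μ hμ ω hω γ hs
    exact ne_of_lt (lt_of_lt_of_le h1 h2)
  · intro g hg
    exact (re_nonpos hg hx).trans (re_nonneg hh hx μ hμ ω hω γ hs)

end Pool.Agent.P1ae5
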