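import Pool.Agent.Lib.P1ae5.SuppAvg
import Pool.Agent.Lib.P1ae5.SupportSlice

/-!
P1ae5.SuppSlice2 (MP_1ae5d5_an). STUB, statement fixed.

Proof. `S' = S ∩ {|x| = 1} = {x_1, ..., x_m}`; for `x ∈ S'` let `c_x = μ.real {θ | cis θ = x}`;
these are nonnegative with sum 1, and
`rotAvg μ H z = ∑_{x ∈ S'} c_x • rot x H z` for every `z` (the integrand equals a.e. the simple
function `∑_{x ∈ S'} indicator {θ | cis θ = x} (rot x H z)`).
For `0 < |λ| < 1`: `ip (rot x H (λ u)) u / λ = ip (H (x λ u)) u / (x λ)`, and `x λ` again has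
`0 < |x λ| < 1`, so this is `∑_i ν_i (1 + ω_i x λ)/(1 - ω_i x λ) + i γ`. Summing over `x ∈ S'` with
the weights `c_x`: the slice of `rotAvg μ H` has the form required by `support_of_slice` with the
index set `S' × Fin N` (transport to `Fin (m * N)`, `finProdFinEquiv`), weights `c_x ν_i`,
points `ω_i x`. Conclude with `support_of_slice` and `rotAvg_mem`.
-/

open Metric MeasureTheory

namespace Pool.Agent.P1ae5

namespace SuppSlice2Aux

theorem continuous_cis : Continuous cis := by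
  unfold cis
  fun_prop

theorem norm_cis (θ : ℝ) : ‖cis θ‖ = 1 := by
  unfold cis
  exact Complex.norm_exp_ofReal_mul_I θ

theorem meas_cis (x : ℂ) : MeasurableSet {θ : ℝ | cis θ = x} :=
  (isClosed_eq continuous_cis continuous_const).measurableSet

theorem int_cis {E : Type*} [NormedAddCommGroup E] [NormedSpace ℝ E] [CompleteSpace E]
    (μ : Measure ℝ) [IsProbabilityMeasure μ] (T : Finset ℂ) (hT : ∀ᵐ θ ∂μ, cis θ ∈ T)
    (F : ℂ → E) :
    ∫ θ, F (cis θ) ∂μ = ∑ x ∈ T, μ.real {θ | cis θ = x} • F x := by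
  have h1 : ∀ᵐ θ ∂μ, F (cis θ) = ∑ x ∈ T, Set.indicator {θ | cis θ = x} (fun _ => F x) θ := by
    filter_upwards [hT] with θ hθ
    rw [Finset.sum_eq_single_of_mem (cis θ) hθ]
    · rw [Set.indicator_of_mem]
      exact rfl
    · intro y _ hy
      rw [Set.indicator_of_notMem]
      exact fun h => hy h.symm
  rw [integral_congr_ae h1, integral_finsetSum]
  · refine Finset.sum_congr rfl fun x _ => ?_
    rw [integral_indicator_const _ (meas_cis x)]
  · intro x _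
    exact (integrable_const _).indicator (meas_cis x)

theorem ip_rot {n : ℕ} {H : Cn n → Cn n} {u : Cn n} {N : ℕ} {ν : Fin N → ℝ} {ω : Fin N → ℂ}
    {γ : ℝ} (hs : ∀ l : ℂ, ‖l‖ < 1 → l ≠ 0 → ip (H (l • u)) u / l =
      ∑ i, (ν i : ℂ) * ((1 + ω i * l) / (1 - ω i * l)) + γ * Complex.I) {x : ℂ} (hx : ‖x‖ = 1)
    {l : ℂ} (hl : ‖l‖ < 1) (hl0 : l ≠ 0) :
    ip (rot x H (l • u)) u / l =
      ∑ i, (ν i : ℂ) * ((1 + (ω i * x) * l) / (1 - (ω i * x) * l)) + γ * Complex.I := by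
  have hx0 : x ≠ 0 := by
    intro h
    rw [h, norm_zero] at hx
    norm_num at hx
  have h1 : ‖x * l‖ < 1 := by rw [norm_mul, hx, one_mul]; exact hl
  have h2 := hs (x * l) h1 (mul_ne_zero hx0 hl0)
  have h3 : ip (rot x H (l • u)) u / l = ip (H ((x * l) • u)) u / (x * l) := by
    unfold rot ip
    rw [inner_smul_right, smul_smul]
    field_simp
  rw [h3, h2]
  congr 1
  refine Finset.sum_congr rfl fun i _ => ?_
  rw [mul_assoc]

end SuppSlice2Aux

open SuppSlice2Aux in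
theorem rotAvg_support {n : ℕ} {A : Cn n →L[ℂ] Cn n}
    (hA : ∀ z : Cn n, z ≠ 0 → 0 < (ip (A z) z).re) {H : Cn n → Cn n} (hH : H ∈ NA A)
    {u : Cn n} (hu : ‖u‖ = 1) {N : ℕ} (ν : Fin N → ℝ) (hν : ∀ i, 0 ≤ ν i)
    (ω : Fin N → ℂ) (hω : ∀ i, ‖ω i‖ = 1) (γ : ℝ)
    (hs : ∀ l : ℂ, ‖l‖ < 1 → l ≠ 0 → ip (H (l • u)) u / l =
      ∑ i, (ν i : ℂ) * ((1 + ω i * l) / (1 - ω i * l)) + γ * Complex.I)
    (μ : Measure ℝ) [IsProbabilityMeasure μ] {S : Set ℂ} (hS : S.Finite)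
    (hμ : ∀ᵐ θ ∂μ, cis θ ∈ S) :
    IsSupport A (rotAvg μ H) := by
  classical
  obtain ⟨T, hT⟩ : ∃ T : Finset ℂ, T = hS.toFinset.filter (fun x => ‖x‖ = 1) := ⟨_, rfl⟩
  have hT1 : ∀ x ∈ T, ‖x‖ = 1 := by
    intro x hx
    rw [hT, Finset.mem_filter] at hx
    exact hx.2
  have hT2 : ∀ᵐ θ ∂μ, cis θ ∈ T := by
    filter_upwards [hμ] with θ hθ
    rw [hT, Finset.mem_filter]
    exact ⟨hS.mem_toFinset.2 hθ, norm_cis θ⟩
  obtain ⟨c, hc⟩ : ∃ c : ℂ → ℝ, c = fun x => μ.real {θ | cis θ = x} := ⟨_, rfl⟩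
  have hc0 : ∀ x, 0 ≤ c x := fun x => by
    rw [hc]
    exact measureReal_nonneg
  have hsum : ∑ x ∈ T, c x = 1 := by
    have h1 := int_cis μ T hT2 (fun _ => (1 : ℝ))
    simp only [smul_eq_mul, mul_one, integral_const, probReal_univ] at h1
    rw [hc]
    exact h1.symm
  have havg : ∀ z, rotAvg μ H z = ∑ x ∈ T, ((c x : ℝ) : ℂ) • rot x H z := by
    intro z
    have h1 := int_cis μ T hT2 (fun x => rot x H z)
    unfold rotAvg
    rw [h1, hc]
    refine Finset.sum_congr rfl fun x _ => ?_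
    rw [Complex.coe_smul]
  let e : Fin (T.card * N) ≃ {x // x ∈ T} × Fin N :=
    finProdFinEquiv.symm.trans (Equiv.prodCongr T.equivFin.symm (Equiv.refl _))
  refine support_of_slice hA (rotAvg_mem hH μ) hu (N := T.card * N)
    (fun j => c (e j).1 * ν (e j).2) (fun j => mul_nonneg (hc0 _) (hν _))
    (fun j => ω (e j).2 * ((e j).1 : ℂ)) (fun j => ?_) γ ?_
  · rw [norm_mul, hω, hT1 _ (e j).1.2, one_mul]
  · intro l hl hl0
    have h1 : ip (rotAvg μ H (l • u)) u / l =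
        ∑ x ∈ T, ((c x : ℝ) : ℂ) * (ip (rot x H (l • u)) u / l) := by
      rw [havg]
      unfold ip
      rw [inner_sum, Finset.sum_div]
      refine Finset.sum_congr rfl fun x _ => ?_
      rw [inner_smul_right, mul_div_assoc]
    have h2 : ∑ x ∈ T, ((c x : ℝ) : ℂ) * (ip (rot x H (l • u)) u / l) =
        ∑ x ∈ T, (∑ i, ((c x * ν i : ℝ) : ℂ) *
          ((1 + (ω i * x) * l) / (1 - (ω i * x) * l)) + ((c x : ℝ) : ℂ) * (γ * Complex.I)) := by
      refine Finset.sum_congr rfl fun x hx => ?_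
      rw [ip_rot hs (hT1 x hx) hl hl0, mul_add, Finset.mul_sum]
      congr 1
      refine Finset.sum_congr rfl fun i _ => ?_
      push_cast
      ring
    rw [h1, h2, Finset.sum_add_distrib, ← Finset.sum_mul]
    have h3 : ∑ x ∈ T, ((c x : ℝ) : ℂ) = 1 := by
      rw [← Complex.ofReal_sum, hsum, Complex.ofReal_one]
    rw [h3, one_mul]
    congr 1
    have h4 := e.sum_comp (fun p : {x // x ∈ T} × Fin N => ((c p.1 * ν p.2 : ℝ) : ℂ) *
      ((1 + (ω p.2 * (p.1 : ℂ)) * l) / (1 - (ω p.2 * (p.1 : ℂ)) * l)))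
    rw [h4, Fintype.sum_prod_type]
    exact (Finset.sum_coe_sort T (fun x : ℂ => ∑ i, ((c x * ν i : ℝ) : ℂ) *
      ((1 + (ω i * x) * l) / (1 - (ω i * x) * l)))).symm

end Pool.Agent.P1ae5
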