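import Pool.Agent.Lib.P1ae5.SuppIdent
import Pool.Agent.Lib.P1ae5.SuppSlice2
import Pool.Agent.Lib.P1ae5.NotSupp

/-!
P1ae5.SuppMain: support points and rotation averages (owner helper48).
-/

open Metric MeasureTheory

namespace Pool.Agent.P1ae5

/-- a positive lower bound for `Re <Az,z>/|z|^2` -/
theorem exists_lower {n : ℕ} {A : Cn n →L[ℂ] Cn n}
    (hA : ∀ z : Cn n, z ≠ 0 → 0 < (ip (A z) z).re) :
    ∃ m : ℝ, 0 < m ∧ ∀ z : Cn n, m * ‖z‖ ^ 2 ≤ (ip (A z) z).re := by
  by_cases hne : (sphere (0 : Cn n) 1).Nonempty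
  · have hcont : ContinuousOn (fun z : Cn n => (ip (A z) z).re) (sphere 0 1) := by
      have : Continuous (fun z : Cn n => (ip (A z) z).re) := by
        unfold ip
        exact Complex.continuous_re.comp (continuous_id.inner A.continuous)
      exact this.continuousOn
    obtain ⟨z0, hz0, hmin⟩ := (isCompact_sphere (0 : Cn n) 1).exists_isMinOn hne hcont
    have hz0' : z0 ≠ 0 := by
      intro h
      rw [mem_sphere_zero_iff_norm, h, norm_zero] at hz0
      exact zero_ne_one hz0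
    refine ⟨(ip (A z0) z0).re, hA z0 hz0', fun z => ?_⟩
    rcases eq_or_ne z 0 with rfl | hz
    · simp [ip]
    · have hR : 0 < ‖z‖ := norm_pos_iff.2 hz
      set w : Cn n := ((‖z‖⁻¹ : ℝ) : ℂ) • z with hw
      have hws : w ∈ sphere (0 : Cn n) 1 := by
        rw [mem_sphere_zero_iff_norm, hw, norm_smul, Complex.norm_real,
          Real.norm_of_nonneg (by positivity)]
        field_simp
      have h1 := hmin hws
      simp only [Set.mem_setOf_eq] at h1
      have h2 : (ip (A w) w).re * ‖z‖ ^ 2 = (ip (A z) z).re := by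
        have e1 : ip (A w) w = ((‖z‖⁻¹ : ℝ) : ℂ) * (((‖z‖⁻¹ : ℝ) : ℂ) * ip (A z) z) := by
          unfold ip
          rw [hw, map_smul, inner_smul_left, inner_smul_right, Complex.conj_ofReal]
        rw [e1, Complex.re_ofReal_mul, Complex.re_ofReal_mul]
        field_simp
      calc (ip (A z0) z0).re * ‖z‖ ^ 2 ≤ (ip (A w) w).re * ‖z‖ ^ 2 := by gcongr
        _ = _ := h2
  · refine ⟨1, one_pos, fun z => ?_⟩
    have hz : z = 0 := by
      by_contra hz
      apply hne
      have hR : 0 < ‖z‖ := norm_pos_iff.2 hz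
      refine ⟨((‖z‖⁻¹ : ℝ) : ℂ) • z, ?_⟩
      rw [mem_sphere_zero_iff_norm, norm_smul, Complex.norm_real,
          Real.norm_of_nonneg (by positivity)]
      field_simp
    rw [hz]
    simp [ip]

theorem not_support_of_infinite {n : ℕ} {A : Cn n →L[ℂ] Cn n}
    (hA : ∀ z : Cn n, z ≠ 0 → 0 < (ip (A z) z).re) {H : Cn n → Cn n} (hH : H ∈ NA A)
    (μ : Measure ℝ) [IsProbabilityMeasure μ]
    (hinf : ¬ ∃ S : Set ℂ, S.Finite ∧ ∀ᵐ θ ∂μ, cis θ ∈ S) :
    ¬ IsSupport A (rotAvg μ H) := by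
  rintro ⟨hm, Λ, hΛ, ⟨g0, hg0, hne⟩, hmax⟩
  set M : ℝ := (Λ (rotAvg μ H)).re with hM
  have hcis : ∀ θ : ℝ, ‖cis θ‖ = 1 := fun θ => by
    unfold cis; exact Complex.norm_exp_ofReal_mul_I θ
  have hle : ∀ θ : ℝ, (Λ (rot (cis θ) H)).re ≤ M := fun θ => hmax _ (rot_mem hH (hcis θ))
  have hcont := continuous_functional_rot hΛ hH.1
  have hbdd : ∃ B : ℝ, ∀ θ : ℝ, ‖Λ (rot (cis θ) H)‖ ≤ B := by
    -- periodic and continuous
    have hper : Function.Periodic (fun θ : ℝ => Λ (rot (cis θ) H)) (2 * Real.pi) := by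
      intro θ
      have : cis (θ + 2 * Real.pi) = cis θ := by
        unfold cis
        push_cast
        rw [add_mul, Complex.exp_add, Complex.exp_two_pi_mul_I, mul_one]
      simp only [this]
    obtain ⟨B, hB⟩ := (isCompact_Icc (a := (0 : ℝ)) (b := 2 * Real.pi)).exists_bound_of_continuousOn
      hcont.continuousOn
    refine ⟨B, fun θ => ?_⟩
    obtain ⟨y, hy, hy2⟩ := hper.exists_mem_Ico₀ Real.two_pi_pos θ
    have : Λ (rot (cis θ) H) = Λ (rot (cis y) H) := hy2
    rw [this]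
    exact hB y ⟨hy.1, hy.2.le⟩
  obtain ⟨B, hB⟩ := hbdd
  have hint : Integrable (fun θ : ℝ => Λ (rot (cis θ) H)) μ :=
    Integrable.of_bound hcont.aestronglyMeasurable B (Filter.Eventually.of_forall hB)
  have hre : ∫ θ, (Λ (rot (cis θ) H)).re ∂μ = M := by
    rw [hM, functional_rotAvg hΛ hH μ]
    exact integral_re hint
  have hint2 : Integrable (fun θ : ℝ => M - (Λ (rot (cis θ) H)).re) μ :=
    (integrable_const M).sub hint.re
  have hzero : ∫ θ, (M - (Λ (rot (cis θ) H)).re) ∂μ = 0 := by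
    have e1 : ∫ θ, (M - (Λ (rot (cis θ) H)).re) ∂μ =
        (∫ _θ, M ∂μ) - ∫ θ, (Λ (rot (cis θ) H)).re ∂μ :=
      integral_sub (integrable_const M) hint.re
    rw [e1, hre]
    simp
  have hae : ∀ᵐ θ ∂μ, M - (Λ (rot (cis θ) H)).re = 0 := by
    have := (integral_eq_zero_iff_of_nonneg (fun θ => sub_nonneg.2 (hle θ)) hint2).1 hzero
    exact this
  have hinf2 : {x : ℂ | ‖x‖ = 1 ∧ (Λ (rot x H)).re = M}.Infinite := by
    intro hfin
    refine hinf ⟨_, hfin, ?_⟩
    filter_upwards [hae] with θ hθ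
    exact ⟨hcis θ, by linarith⟩
  have hAM : (Λ (fun z => A z)).re = M := rot_ident hΛ hH hinf2
  obtain ⟨m, hm0, hmA⟩ := exists_lower hA
  refine not_support_of_minorant (A := A) (h := fun z => A z) (P := fun _ => (m : ℂ))
    (differentiableOn_const _) (fun z _ => by exact_mod_cast hm0.ne')
    (fun z _ => by
      rw [Complex.norm_real, Real.norm_of_nonneg hm0.le]
      exact hmA z) ?_
  refine ⟨?_, Λ, hΛ, ⟨g0, hg0, by rw [hAM]; exact hne⟩, fun g hg => by rw [hAM]; exact hmax g hg⟩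
  refine ⟨A.differentiable.differentiableOn, by simp, ?_, fun z _ hz => hA z hz⟩
  exact A.fderiv

end Pool.Agent.P1ae5
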