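import Pool.Agent.Lib.P1ae5.TorusDefs

/-!
MODULE P1ae5.TangBasic (1 h). Elementary properties of the torus Fourier coefficients
`Tang g m n` of jointly continuous functions `g` of two angles. `E1 α = exp (α * I)`.
-/

open MeasureTheory

namespace Pool.Agent.P1ae5

theorem tb_E1_ne (α : ℝ) : E1 α ≠ 0 := Complex.exp_ne_zero _

theorem tb_E1_cont : Continuous E1 := by
  unfold E1
  fun_prop

theorem tb_E1_zpow_cont (k : ℤ) : Continuous (fun α => E1 α ^ k) :=
  tb_E1_cont.zpow₀ k (fun α => Or.inl (tb_E1_ne α))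

theorem tb_E1_norm (α : ℝ) : ‖E1 α‖ = 1 := by
  unfold E1
  exact Complex.norm_exp_ofReal_mul_I α

theorem tb_E1_conj (α : ℝ) : (starRingEnd ℂ) (E1 α) = (E1 α)⁻¹ := by
  unfold E1
  rw [← Complex.exp_conj, ← Complex.exp_neg]
  congr 1
  simp

theorem tb_w_cont (m n : ℤ) :
    Continuous (fun p : ℝ × ℝ => E1 p.1 ^ m * E1 p.2 ^ n) :=
  ((tb_E1_zpow_cont m).comp continuous_fst).mul ((tb_E1_zpow_cont n).comp continuous_snd)

theorem tb_w_norm (m n : ℤ) (α β : ℝ) : ‖E1 α ^ m * E1 β ^ n‖ = 1 := by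
  rw [norm_mul, norm_zpow, norm_zpow, tb_E1_norm, tb_E1_norm]
  simp

theorem tb_inner_cont {E : Type*} [NormedAddCommGroup E] [NormedSpace ℝ E] {g : ℝ → ℝ → E}
    (hg : Continuous (fun p : ℝ × ℝ => g p.1 p.2)) (a b : ℝ) :
    Continuous (fun α => ∫ β in a..b, g α β) :=
  intervalIntegral.continuous_parametric_intervalIntegral_of_continuous' hg a b

theorem tb_slice_cont {E : Type*} [NormedAddCommGroup E] {g : ℝ → ℝ → E}
    (hg : Continuous (fun p : ℝ × ℝ => g p.1 p.2)) (α : ℝ) : Continuous (fun β => g α β) :=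
  hg.comp (continuous_const.prodMk continuous_id)

theorem tang_add {g h : ℝ → ℝ → ℂ} (hg : Continuous (fun p : ℝ × ℝ => g p.1 p.2))
    (hh : Continuous (fun p : ℝ × ℝ => h p.1 p.2)) (m n : ℤ) :
    Tang (fun α β => g α β + h α β) m n = Tang g m n + Tang h m n := by
  have hg' : Continuous (fun p : ℝ × ℝ => g p.1 p.2 * (E1 p.1 ^ (-m) * E1 p.2 ^ (-n))) :=
    hg.mul (tb_w_cont _ _)
  have hh' : Continuous (fun p : ℝ × ℝ => h p.1 p.2 * (E1 p.1 ^ (-m) * E1 p.2 ^ (-n))) :=
    hh.mul (tb_w_cont _ _)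
  unfold Tang
  rw [← mul_add, ← intervalIntegral.integral_add]
  · congr 1
    apply intervalIntegral.integral_congr
    intro α _
    simp only
    rw [← intervalIntegral.integral_add]
    · apply intervalIntegral.integral_congr
      intro β _
      simp only
      ring
    · exact (tb_slice_cont (g := fun α β => g α β * (E1 α ^ (-m) * E1 β ^ (-n))) hg'
        α).intervalIntegrable _ _
    · exact (tb_slice_cont (g := fun α β => h α β * (E1 α ^ (-m) * E1 β ^ (-n))) hh'
        α).intervalIntegrable _ _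
  · exact (tb_inner_cont (g := fun α β => g α β * (E1 α ^ (-m) * E1 β ^ (-n))) hg'
      _ _).intervalIntegrable _ _
  · exact (tb_inner_cont (g := fun α β => h α β * (E1 α ^ (-m) * E1 β ^ (-n))) hh'
      _ _).intervalIntegrable _ _

theorem tang_const_mul (c : ℂ) (g : ℝ → ℝ → ℂ) (m n : ℤ) :
    Tang (fun α β => c * g α β) m n = c * Tang g m n := by
  unfold Tang
  rw [mul_left_comm]
  congr 1
  rw [← intervalIntegral.integral_const_mul]
  apply intervalIntegral.integral_congr
  intro α _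
  simp only
  rw [← intervalIntegral.integral_const_mul]
  apply intervalIntegral.integral_congr
  intro β _
  simp only
  ring

theorem tb_conj (f : ℝ → ℂ) (a b : ℝ) :
    (starRingEnd ℂ) (∫ x in a..b, f x) = ∫ x in a..b, (starRingEnd ℂ) (f x) := by
  rw [intervalIntegral, intervalIntegral, map_sub, ← integral_conj, ← integral_conj]

theorem tang_conj {g : ℝ → ℝ → ℂ} (hg : Continuous (fun p : ℝ × ℝ => g p.1 p.2)) (m n : ℤ) :
    Tang (fun α β => (starRingEnd ℂ) (g α β)) m n = (starRingEnd ℂ) (Tang g (-m) (-n)) := by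
  have _ := hg
  unfold Tang
  rw [map_mul, tb_conj]
  congr 1
  · rw [map_pow, map_inv₀, Complex.conj_ofReal]
  · apply intervalIntegral.integral_congr
    intro α _
    simp only
    rw [tb_conj]
    apply intervalIntegral.integral_congr
    intro β _
    simp only
    rw [map_mul, map_mul, map_zpow₀, map_zpow₀, tb_E1_conj, tb_E1_conj, inv_zpow, inv_zpow,
      ← zpow_neg, ← zpow_neg, neg_neg, neg_neg]

theorem tang_shift (g : ℝ → ℝ → ℂ) (a b m n : ℤ) :
    Tang (fun α β => E1 α ^ a * E1 β ^ b * g α β) m n = Tang g (m - a) (n - b) := by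
  unfold Tang
  congr 1
  apply intervalIntegral.integral_congr
  intro α _
  simp only
  apply intervalIntegral.integral_congr
  intro β _
  simp only
  have h1 : E1 α ^ (-(m - a)) = E1 α ^ a * E1 α ^ (-m) := by
    rw [← zpow_add₀ (tb_E1_ne α)]
    congr 1
    ring
  have h2 : E1 β ^ (-(n - b)) = E1 β ^ b * E1 β ^ (-n) := by
    rw [← zpow_add₀ (tb_E1_ne β)]
    congr 1
    ring
  rw [h1, h2]
  ring

theorem tang_norm_le {g : ℝ → ℝ → ℂ} (hg : Continuous (fun p : ℝ × ℝ => g p.1 p.2))
    {u : ℝ → ℝ → ℝ} (hu : Continuous (fun p : ℝ × ℝ => u p.1 p.2))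
    (h : ∀ α β, ‖g α β‖ ≤ u α β) (m n : ℤ) :
    ‖Tang g m n‖ ≤ (Tang (fun α β => (u α β : ℂ)) 0 0).re := by
  have hpi : (0 : ℝ) ≤ 2 * Real.pi := by positivity
  have e1 : Tang (fun α β => (u α β : ℂ)) 0 0
      = (((2 * Real.pi)⁻¹ ^ 2 * ∫ α in (0 : ℝ)..2 * Real.pi, ∫ β in (0 : ℝ)..2 * Real.pi,
        u α β : ℝ) : ℂ) := by
    unfold Tang
    rw [Complex.ofReal_mul ((2 * Real.pi)⁻¹ ^ 2) _, Complex.ofReal_pow, Complex.ofReal_inv,
      ← intervalIntegral.integral_ofReal]
    congr 1
    apply intervalIntegral.integral_congr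
    intro α _
    simp only
    rw [← intervalIntegral.integral_ofReal]
    apply intervalIntegral.integral_congr
    intro β _
    simp
  rw [e1, Complex.ofReal_re]
  unfold Tang
  rw [norm_mul, norm_pow, norm_inv, Complex.norm_real, Real.norm_of_nonneg hpi]
  apply mul_le_mul_of_nonneg_left _ (by positivity)
  apply intervalIntegral.norm_integral_le_of_norm_le hpi
  · filter_upwards with α _
    apply intervalIntegral.norm_integral_le_of_norm_le hpi
    · filter_upwards with β _
      rw [norm_mul, tb_w_norm, mul_one]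
      exact h α β
    · exact (tb_slice_cont hu α).intervalIntegrable _ _
  · exact (tb_inner_cont hu _ _).intervalIntegrable _ _

theorem tang_norm_le_const {g : ℝ → ℝ → ℂ} (hg : Continuous (fun p : ℝ × ℝ => g p.1 p.2))
    {M : ℝ} (h : ∀ α β, ‖g α β‖ ≤ M) (m n : ℤ) : ‖Tang g m n‖ ≤ M := by
  have h1 := tang_norm_le hg (u := fun _ _ => M) continuous_const h m n
  refine h1.trans (le_of_eq ?_)
  unfold Tang
  have hpi : (Real.pi : ℂ) ≠ 0 := by exact_mod_cast Real.pi_ne_zero
  simp only [neg_zero, zpow_zero, mul_one, intervalIntegral.integral_const, sub_zero]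
  rw [Complex.real_smul, Complex.real_smul]
  have : ((2 * Real.pi : ℝ) : ℂ)⁻¹ ^ 2 * (((2 * Real.pi : ℝ) : ℂ) * (((2 * Real.pi : ℝ) : ℂ) * (M : ℂ)))
      = (M : ℂ) := by
    push_cast
    field_simp
  rw [this, Complex.ofReal_re]

/-- one dimensional uniqueness -/
theorem tb_unique1 {f : ℝ → ℂ} (hf : Continuous f)
    (h : ∀ n : ℤ, ∫ x in (0 : ℝ)..2 * Real.pi, f x * E1 x ^ (-n) = 0) :
    ∀ x ∈ Set.Icc 0 (2 * Real.pi), f x = 0 := by
  have hL : (0 : ℝ) < 2 * Real.pi := by positivity
  have hh : MemLp f 2 (volume.restrict (Set.Ioc 0 (2 * Real.pi))) := by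
    rw [memLp_two_iff_integrable_sq_norm hf.aestronglyMeasurable]
    exact ((hf.norm.pow 2).continuousOn.integrableOn_Icc).mono_set Set.Ioc_subset_Icc_self
  have h1 := hasSum_sq_fourierCoeffOn hL hh
  have h2 : ∀ n : ℤ, fourierCoeffOn hL f n = 0 := by
    intro n
    rw [fourierCoeffOn_eq_integral]
    have h3 : ∫ x in (0 : ℝ)..2 * Real.pi,
        fourier (-n) (x : AddCircle (2 * Real.pi - 0)) • f x = 0 := by
      rw [← h n]
      apply intervalIntegral.integral_congr
      intro x _
      simp only [smul_eq_mul]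
      rw [mul_comm, fourier_coe_apply]
      congr 1
      unfold E1
      rw [← Complex.exp_int_mul]
      congr 1
      push_cast
      rw [sub_zero]
      have hpi : (Real.pi : ℂ) ≠ 0 := by exact_mod_cast Real.pi_ne_zero
      field_simp
    rw [h3, smul_zero]
  simp_rw [h2] at h1
  simp only [norm_zero, ne_eq, OfNat.ofNat_ne_zero, not_false_eq_true, zero_pow] at h1
  have h3 := h1.unique hasSum_zero
  rw [sub_zero, smul_eq_zero] at h3
  have h4 : ∫ x in Set.Ioc 0 (2 * Real.pi), ‖f x‖ ^ 2 = 0 := by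
    rw [← intervalIntegral.integral_of_le hL.le]
    rcases h3 with h3 | h3
    · exact absurd h3 (by positivity)
    · exact h3
  rw [← integral_Icc_eq_integral_Ioc] at h4
  rw [integral_eq_zero_iff_of_nonneg (fun x => by positivity)] at h4
  · have h5 : f =ᵐ[volume.restrict (Set.Icc 0 (2 * Real.pi))] fun _ => 0 := by
      filter_upwards [h4] with x hx
      simpa using hx
    exact Measure.eqOn_Icc_of_ae_eq volume hL.ne h5 hf.continuousOn continuousOn_const
  · exact (hf.norm.pow 2).continuousOn.integrableOn_Icc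

/-- uniqueness: a jointly continuous function, `2π`-periodic in each variable, all of whose
Fourier coefficients vanish, is zero. -/
theorem tang_unique {g : ℝ → ℝ → ℂ} (hg : Continuous (fun p : ℝ × ℝ => g p.1 p.2))
    (p1 : ∀ α β, g (α + 2 * Real.pi) β = g α β) (p2 : ∀ α β, g α (β + 2 * Real.pi) = g α β)
    (h : ∀ m n : ℤ, Tang g m n = 0) (α β : ℝ) : g α β = 0 := by
  have hL : (0 : ℝ) < 2 * Real.pi := by positivity
  have hin : ∀ n : ℤ, ∀ α ∈ Set.Icc 0 (2 * Real.pi),
      ∫ β in (0 : ℝ)..2 * Real.pi, g α β * E1 β ^ (-n) = 0 := by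
    intro n
    apply tb_unique1
    · exact tb_inner_cont (g := fun α β => g α β * E1 β ^ (-n))
        (hg.mul ((tb_E1_zpow_cont (-n)).comp continuous_snd)) _ _
    · intro m
      have h1 := h m n
      unfold Tang at h1
      rcases mul_eq_zero.1 h1 with h2 | h2
      · exfalso
        have : ((2 * Real.pi : ℝ) : ℂ) ≠ 0 := by exact_mod_cast hL.ne'
        exact (pow_ne_zero 2 (inv_ne_zero this)) h2
      · rw [← h2]
        apply intervalIntegral.integral_congr
        intro a _
        simp only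
        rw [← intervalIntegral.integral_mul_const]
        apply intervalIntegral.integral_congr
        intro b _
        simp only
        ring
  have hbox : ∀ α ∈ Set.Icc 0 (2 * Real.pi), ∀ β ∈ Set.Icc 0 (2 * Real.pi), g α β = 0 := by
    intro α hα
    apply tb_unique1 (tb_slice_cont hg α)
    intro n
    exact hin n α hα
  have q1 : Function.Periodic (fun a => g a) (2 * Real.pi) := fun a => funext (fun b => p1 a b)
  obtain ⟨a', ha', ea⟩ := q1.exists_mem_Ico₀ hL α
  have q2 : Function.Periodic (g a') (2 * Real.pi) := fun b => p2 a' b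
  obtain ⟨b', hb', eb⟩ := q2.exists_mem_Ico₀ hL β
  have ea' : g α β = g a' β := congrFun ea β
  rw [ea', eb]
  exact hbox a' ⟨ha'.1, ha'.2.le⟩ b' ⟨hb'.1, hb'.2.le⟩

end Pool.Agent.P1ae5
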