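import Mathlib

/-!
Torus Fourier coefficients of functions of two complex variables: definitions (black box).
-/

open MeasureTheory

namespace Pool.Agent.P1ae5

/-- `e^{iα}` -/
noncomputable def E1 (α : ℝ) : ℂ := Complex.exp (α * Complex.I)

/-- functions of two complex variables, jointly continuous and separately holomorphic on the unit
ball of `C^2` -/
structure Hol2 (F : ℂ → ℂ → ℂ) : Prop where
  cont : ContinuousOn (fun p : ℂ × ℂ => F p.1 p.2) {p | ‖p.1‖ ^ 2 + ‖p.2‖ ^ 2 < 1}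
  d1 : ∀ z w : ℂ, ‖z‖ ^ 2 + ‖w‖ ^ 2 < 1 → DifferentiableAt ℂ (fun x => F x w) z
  d2 : ∀ z w : ℂ, ‖z‖ ^ 2 + ‖w‖ ^ 2 < 1 → DifferentiableAt ℂ (fun x => F z x) w

/-- Fourier coefficient of a function of two angles -/
noncomputable def Tang (g : ℝ → ℝ → ℂ) (m n : ℤ) : ℂ :=
  ((2 * Real.pi : ℝ) : ℂ)⁻¹ ^ 2 * ∫ α in (0 : ℝ)..2 * Real.pi, ∫ β in (0 : ℝ)..2 * Real.pi,
    g α β * (E1 α ^ (-m) * E1 β ^ (-n))

/-- Fourier coefficient of `F` on the torus of radii `r, s` -/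
noncomputable def T (F : ℂ → ℂ → ℂ) (m n : ℤ) (r s : ℝ) : ℂ :=
  Tang (fun α β => F (r * E1 α) (s * E1 β)) m n

end Pool.Agent.P1ae5
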