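import Pool.Agent.Lib.P1ae5.ExplDefs

/-!
P1ae5.ZExplicit (MP_1ae5d5_an). Real linear algebra.

`KE, KF` (ExplDefs) are the skew matrices with entries `KE (2m, 2m+1) = 1`, `KF (4a, 4a+2) = 1`,
`KF (4a+1, 4a+3) = -1` (and the opposite sign for the transposed entries, 0 otherwise), restricted
to indices `< k`.
(a) `ZZ`. Skew symmetry by cases. Let `x, y` be orthonormal. It is enough to show
`c (KE x).y + s (KF x).y ≤ 1` for all real `c, s` with `c^2+s^2=1` (then take
`(c,s)` proportional to the pair), and by Cauchy-Schwarz it is enough that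
`|T x|^2 ≤ |x|^2` for `T = c KE + s KF`. Extend `x` by `0` to indices `≥ k`, and write
`x0..x3` for the entries of `x` in the block `4a..4a+3`. The entries of `T x` in the block are
(those with index `< k`)
`c x1 + s x2`, `-c x0 - s x3`, `c x3 - s x0`, `-c x2 + s x1`;
the sum of the squares of all four is `(c^2+s^2)(x0^2+x1^2+x2^2+x3^2)`, because the cross terms
`2cs x1 x2 + 2cs x0 x3 - 2cs x3 x0 - 2cs x2 x1` cancel. Sum over the blocks (dropping the squares
of the entries with index `≥ k` only decreases the sum).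
(b) Extreme. Let `KE = t K1 + (1-t) K2`, `KF = t K1' + (1-t) K2'` with both pairs in `ZZ`.
By symmetry (t ↔ 1-t) it is enough to show `K1 = KE`, `K1' = KF`, and then
`K2 = KE`, `K2' = KF` from `1 - t ≠ 0`.
(b1) If `(K,K')` is in `ZZ` then `|K x| ≤ 1` and `|K' x| ≤ 1` for unit `x` (`K x` is orthogonal
to `x`; if `K x ≠ 0` take `y = K x/|K x|`). So if `x, y` are orthonormal and `(K x).y = 1` then
`K x = y` (`|K x - y|^2 = |K x|^2 - 2 + 1 ≤ 0`).
(b2) For a pair of basis vectors with `(KE e_i).e_j = ε = ±1`: `(KF e_i).e_j = 0`, and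
`ε = t (K1 e_i).e_j + (1-t)(K2 e_i).e_j` with both in `[-1,1]`, so `(K1 e_i).e_j = ε`,
so `K1 e_i = ε e_j = KE e_i` by (b1). Every `i` with `KE e_i ≠ 0` is of this type
(`KE e_i` is `0` or `± e_j`). For the (at most one: `k` odd, `i = k-1`) index with `KE e_i = 0`
and `j ≠ i`: `(K1 e_i).e_j = -(K1 e_j).e_i = -(KE e_j).e_i = 0` (`j` is not exceptional). So
`K1 = KE`.
(b3) In the same way `K1' e_i = KF e_i` whenever `KF e_i ≠ 0`. If `KF e_i = 0 = KF e_j`, `i ≠ j`
(then `i, j` are in the last, incomplete block of 2 elements `4a, 4a+1`, or more precisely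
`{i, j} = {4a, 4a+1}`, `k = 4a+2`, because the last incomplete block of 3 elements has only
`4a+1` with `KF e = 0` and a block of 1 element only `4a`), then `(KE e_i).e_j = ±1`,
`(K1 e_i).e_j = ±1` and `ZZ` gives `(K1' e_i).e_j = 0`. If `KF e_i = 0` and `KF e_j ≠ 0`, then
`(K1' e_i).e_j = -(K1' e_j).e_i = -(KF e_j).e_i = (KF e_i).e_j = 0`. So `K1' = KF`.
-/

set_option autoImplicit false

namespace Pool.Agent.P1ae5

open Finset

namespace ZExplicitAux

/-- extension by zero -/
def ext {k : ℕ} (x : RV k) (a : ℕ) : ℝ := if h : a < k then x ⟨a, h⟩ else 0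

lemma ext_of {k : ℕ} (x : RV k) (i : Fin k) : ext x i.val = x i := by
  unfold ext
  rw [dif_pos i.isLt]

lemma sum_single {k : ℕ} (x : RV k) (a : ℕ) (c : ℝ) :
    ∑ j : Fin k, (if j.val = a then c else 0) * x j = c * ext x a := by
  unfold ext
  split_ifs with h
  · rw [Finset.sum_eq_single ⟨a, h⟩]
    · simp
    · intro j _ hj
      have : j.val ≠ a := by
        intro h2
        apply hj
        exact Fin.ext h2
      rw [if_neg this, zero_mul]
    · intro h2
      exact absurd (Finset.mem_univ _) h2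
  · rw [mul_zero]
    apply Finset.sum_eq_zero
    intro j _
    have : j.val ≠ a := by
      have := j.isLt
      omega
    rw [if_neg this, zero_mul]

lemma mulVec_single {k : ℕ} (M : Matrix (Fin k) (Fin k) ℝ) (x : RV k) (i : Fin k) (a : ℕ) (c : ℝ)
    (h : ∀ j : Fin k, M i j = if j.val = a then c else 0) : M.mulVec x i = c * ext x a := by
  rw [← sum_single]
  unfold Matrix.mulVec dotProduct
  apply Finset.sum_congr rfl
  intro j _
  show M i j * x j = _
  rw [h j]

/-- the entries of `c KE x + s KF x` -/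
def tau {k : ℕ} (c s : ℝ) (x : RV k) (i : ℕ) : ℝ :=
  if i % 4 = 0 then c * ext x (i + 1) + s * ext x (i + 2)
  else if i % 4 = 1 then -(c * ext x (i - 1)) - s * ext x (i + 2)
  else if i % 4 = 2 then c * ext x (i + 1) - s * ext x (i - 2)
  else -(c * ext x (i - 1)) + s * ext x (i - 2)

lemma tau_eq {k : ℕ} (c s : ℝ) (x : RV k) (i : Fin k) :
    c * (KE k).mulVec x i + s * (KF k).mulVec x i = tau c s x i.val := by
  unfold tau
  have hi := i.isLt
  have h4 : i.val % 4 = 0 ∨ i.val % 4 = 1 ∨ i.val % 4 = 2 ∨ i.val % 4 = 3 := by omega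
  rcases h4 with h | h | h | h
  · rw [if_pos h, mulVec_single (KE k) x i (i.val + 1) 1, mulVec_single (KF k) x i (i.val + 2) 1]
    · ring
    · intro j
      unfold KF
      split_ifs <;> first | rfl | omega
    · intro j
      unfold KE
      split_ifs <;> first | rfl | omega
  · rw [if_neg (by omega), if_pos h, mulVec_single (KE k) x i (i.val - 1) (-1),
      mulVec_single (KF k) x i (i.val + 2) (-1)]
    · ring
    · intro j
      unfold KF
      split_ifs <;> first | rfl | omega
    · intro j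
      unfold KE
      split_ifs <;> first | rfl | omega
  · rw [if_neg (by omega), if_neg (by omega), if_pos h, mulVec_single (KE k) x i (i.val + 1) 1,
      mulVec_single (KF k) x i (i.val - 2) (-1)]
    · ring
    · intro j
      unfold KF
      split_ifs <;> first | rfl | omega
    · intro j
      unfold KE
      split_ifs <;> first | rfl | omega
  · rw [if_neg (by omega), if_neg (by omega), if_neg (by omega),
      mulVec_single (KE k) x i (i.val - 1) (-1), mulVec_single (KF k) x i (i.val - 2) 1]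
    · ring
    · intro j
      unfold KF
      split_ifs <;> first | rfl | omega
    · intro j
      unfold KE
      split_ifs <;> first | rfl | omega

lemma block {k : ℕ} (c s : ℝ) (x : RV k) (K : ℕ) :
    ∑ i ∈ range (4 * K), tau c s x i ^ 2 = (c ^ 2 + s ^ 2) * ∑ i ∈ range (4 * K), ext x i ^ 2 := by
  induction K with
  | zero => simp
  | succ K ih =>
    have h : 4 * (K + 1) = 4 * K + 1 + 1 + 1 + 1 := by ring
    rw [h]
    simp only [sum_range_succ]
    rw [ih]
    have h0 : tau c s x (4 * K) = c * ext x (4 * K + 1) + s * ext x (4 * K + 2) := by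
      unfold tau
      rw [if_pos (by omega)]
    have h1 : tau c s x (4 * K + 1) = -(c * ext x (4 * K)) - s * ext x (4 * K + 3) := by
      unfold tau
      rw [if_neg (by omega), if_pos (by omega)]
      rfl
    have h2 : tau c s x (4 * K + 1 + 1) = c * ext x (4 * K + 3) - s * ext x (4 * K) := by
      unfold tau
      rw [if_neg (by omega), if_neg (by omega), if_pos (by omega)]
      rfl
    have h3 : tau c s x (4 * K + 1 + 1 + 1) = -(c * ext x (4 * K + 2)) + s * ext x (4 * K + 1) := by
      unfold tau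
      rw [if_neg (by omega), if_neg (by omega), if_neg (by omega)]
      rfl
    rw [h0, h1, h2, h3]
    show _ = (c ^ 2 + s ^ 2) * (∑ i ∈ range (4 * K), ext x i ^ 2 + ext x (4 * K) ^ 2 +
      ext x (4 * K + 1) ^ 2 + ext x (4 * K + 2) ^ 2 + ext x (4 * K + 3) ^ 2)
    ring

/-- the norm bound for `c KE + s KF` -/
lemma norm_bound {k : ℕ} (c s : ℝ) (x : RV k) :
    ∑ i : Fin k, (c * (KE k).mulVec x i + s * (KF k).mulVec x i) ^ 2 ≤
      (c ^ 2 + s ^ 2) * rdot x x := by
  have h1 : ∑ i : Fin k, (c * (KE k).mulVec x i + s * (KF k).mulVec x i) ^ 2 =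
      ∑ i ∈ range k, tau c s x i ^ 2 := by
    rw [← Fin.sum_univ_eq_sum_range (fun i => tau c s x i ^ 2)]
    apply Finset.sum_congr rfl
    intro i _
    rw [tau_eq]
  have h2 : ∑ i ∈ range k, tau c s x i ^ 2 ≤ ∑ i ∈ range (4 * k), tau c s x i ^ 2 := by
    apply sum_le_sum_of_subset_of_nonneg
    · apply range_subset_range.2
      omega
    · intro i _ _
      positivity
  have h3 : ∑ i ∈ range (4 * k), ext x i ^ 2 = rdot x x := by
    unfold rdot
    have h4 : ∑ i : Fin k, x i * x i = ∑ i ∈ range k, ext x i ^ 2 := by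
      rw [← Fin.sum_univ_eq_sum_range (fun i => ext x i ^ 2)]
      apply Finset.sum_congr rfl
      intro i _
      rw [ext_of]
      ring
    rw [h4]
    symm
    apply sum_subset
    · apply range_subset_range.2
      omega
    · intro i _ hi
      rw [mem_range] at hi
      unfold ext
      rw [dif_neg hi]
      norm_num
  rw [h1]
  rw [block, h3] at h2
  exact h2

lemma zz_explicit (k : ℕ) : ZZ (KE k) (KF k) := by
  refine ⟨⟨?_, ?_⟩, ?_⟩
  · ext i j
    rw [Matrix.transpose_apply, Matrix.neg_apply]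
    unfold KE
    split_ifs <;> first | (exfalso; omega) | norm_num
  · ext i j
    rw [Matrix.transpose_apply, Matrix.neg_apply]
    unfold KF
    split_ifs <;> first | (exfalso; omega) | norm_num
  · intro x y ⟨hx, hy, _⟩
    obtain ⟨p, hp⟩ : ∃ p, p = rdot ((KE k).mulVec x) y := ⟨_, rfl⟩
    obtain ⟨r, hr⟩ : ∃ r, r = rdot ((KF k).mulVec x) y := ⟨_, rfl⟩
    rw [← hp, ← hr]
    have h1 : ∑ i : Fin k, (p * (KE k).mulVec x i + r * (KF k).mulVec x i) * y i = p ^ 2 + r ^ 2 := by
      have h2 : ∑ i : Fin k, (p * (KE k).mulVec x i + r * (KF k).mulVec x i) * y i =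
          p * rdot ((KE k).mulVec x) y + r * rdot ((KF k).mulVec x) y := by
        unfold rdot
        rw [mul_sum, mul_sum, ← sum_add_distrib]
        apply Finset.sum_congr rfl
        intro i _
        ring
      rw [h2, ← hp, ← hr]
      ring
    have h2 := sum_mul_sq_le_sq_mul_sq univ
      (fun i : Fin k => p * (KE k).mulVec x i + r * (KF k).mulVec x i) y
    rw [h1] at h2
    have h3 := norm_bound p r x
    rw [hx, mul_one] at h3
    have h4 : ∑ i : Fin k, y i ^ 2 = 1 := by
      rw [← hy]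
      unfold rdot
      apply Finset.sum_congr rfl
      intro i _
      ring
    rw [h4, mul_one] at h2
    have h5 := h2.trans h3
    by_contra h6
    push Not at h6
    nlinarith

lemma zz_symm {k : ℕ} {K K' : Matrix (Fin k) (Fin k) ℝ} (h : ZZ K K') : ZZ K' K := by
  refine ⟨⟨h.1.2, h.1.1⟩, ?_⟩
  intro x y hxy
  have := h.2 x y hxy
  linarith

lemma skew {k : ℕ} {K K' : Matrix (Fin k) (Fin k) ℝ} (h : ZZ K K') (i j : Fin k) :
    K i j = -K j i := by
  have h1 := congrFun (congrFun h.1.1 j) i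
  rw [Matrix.transpose_apply, Matrix.neg_apply] at h1
  exact h1

lemma skew_diag {k : ℕ} {K K' : Matrix (Fin k) (Fin k) ℝ} (h : ZZ K K') (i : Fin k) : K i i = 0 := by
  have := skew h i i
  linarith

lemma mulVec_basis {k : ℕ} (K : Matrix (Fin k) (Fin k) ℝ) (i : Fin k) (y : RV k) :
    rdot (K.mulVec (Pi.single i 1)) y = ∑ m, K m i * y m := by
  unfold rdot
  apply Finset.sum_congr rfl
  intro m _
  rw [Matrix.mulVec_single_one]
  rfl

lemma two_sum {k : ℕ} (f : Fin k → ℝ) {j m : Fin k} (hjm : j ≠ m) (a b : ℝ) :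
    ∑ l, f l * (if l = j then a else if l = m then b else 0) = f j * a + f m * b := by
  have h1 : ∀ l, f l * (if l = j then a else if l = m then b else 0) =
      (if l = j then f j * a else 0) + (if l = m then f m * b else 0) := by
    intro l
    by_cases h2 : l = j
    · subst h2
      rw [if_pos rfl, if_pos rfl, if_neg hjm, add_zero]
    · rw [if_neg h2, if_neg h2]
      by_cases h3 : l = m
      · subst h3
        rw [if_pos rfl, if_pos rfl, zero_add]
      · rw [if_neg h3, if_neg h3]
        ring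
  rw [Finset.sum_congr rfl (fun l _ => h1 l), sum_add_distrib, Finset.sum_ite_eq' univ j,
    Finset.sum_ite_eq' univ m, if_pos (Finset.mem_univ _), if_pos (Finset.mem_univ _)]

/-- the inequality for `x = e_i` and `y` in the plane of `e_j, e_m` -/
lemma plane {k : ℕ} {K K' : Matrix (Fin k) (Fin k) ℝ} (h : ZZ K K') {i j m : Fin k} (hij : i ≠ j)
    (him : i ≠ m) (hjm : j ≠ m) (a b : ℝ) (hab : a ^ 2 + b ^ 2 = 1) :
    (K j i * a + K m i * b) ^ 2 + (K' j i * a + K' m i * b) ^ 2 ≤ 1 := by
  have h1 := h.2 (Pi.single i 1) (fun l => if l = j then a else if l = m then b else 0) (by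
    refine ⟨?_, ?_, ?_⟩
    · unfold rdot
      rw [Finset.sum_eq_single i]
      · simp
      · intro l _ hl
        simp [hl]
      · intro h2
        exact absurd (Finset.mem_univ _) h2
    · unfold rdot
      have h2 := two_sum (fun l : Fin k => if l = j then a else if l = m then b else 0) hjm a b
      rw [h2, if_pos rfl, if_neg hjm.symm, if_pos rfl]
      linarith
    · unfold rdot
      rw [Finset.sum_eq_single i]
      · show (Pi.single i 1 : RV k) i * (if i = j then a else if i = m then b else 0) = 0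
        rw [if_neg hij, if_neg him, mul_zero]
      · intro l _ hl
        simp [hl]
      · intro h2
        exact absurd (Finset.mem_univ _) h2)
  rw [mulVec_basis, mulVec_basis, two_sum (fun l => K l i) hjm, two_sum (fun l => K' l i) hjm] at h1
  exact h1

lemma one_sum {k : ℕ} (f : Fin k → ℝ) (j : Fin k) :
    ∑ l, f l * (Pi.single j 1 : RV k) l = f j := by
  rw [Finset.sum_eq_single j]
  · simp
  · intro l _ hl
    simp [hl]
  · intro h2
    exact absurd (Finset.mem_univ _) h2

lemma entry {k : ℕ} {K K' : Matrix (Fin k) (Fin k) ℝ} (h : ZZ K K') {i j : Fin k} (hij : i ≠ j) :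
    K j i ^ 2 + K' j i ^ 2 ≤ 1 := by
  have h1 := h.2 (Pi.single i 1) (Pi.single j 1) (by
    refine ⟨?_, ?_, ?_⟩
    · unfold rdot
      rw [one_sum]
      simp
    · unfold rdot
      rw [one_sum]
      simp
    · unfold rdot
      rw [one_sum]
      simp [hij.symm])
  rw [mulVec_basis, mulVec_basis, one_sum (fun l => K l i), one_sum (fun l => K' l i)] at h1
  exact h1

/-- if an entry is `± 1`, then the other entries of its column are `0` -/
lemma col {k : ℕ} {K K' : Matrix (Fin k) (Fin k) ℝ} (h : ZZ K K') {i j m : Fin k} (hij : i ≠ j)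
    (h1 : K j i ^ 2 = 1) (hjm : j ≠ m) : K m i = 0 := by
  by_cases him : i = m
  · rw [← him]
    exact skew_diag h i
  · obtain ⟨e, he⟩ : ∃ e, e = K j i := ⟨_, rfl⟩
    obtain ⟨t, ht⟩ : ∃ t, t = K m i := ⟨_, rfl⟩
    rw [← he] at h1
    rw [← ht]
    have hpos : 0 < 1 + t ^ 2 := by positivity
    have hs : Real.sqrt (1 + t ^ 2) ^ 2 = 1 + t ^ 2 := Real.sq_sqrt hpos.le
    have hs0 : 0 < Real.sqrt (1 + t ^ 2) := Real.sqrt_pos.2 hpos
    have h2 := plane h hij him hjm (e / Real.sqrt (1 + t ^ 2)) (t / Real.sqrt (1 + t ^ 2)) (by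
      rw [div_pow, div_pow, hs, h1, ← add_div, div_self hpos.ne'])
    rw [← he, ← ht] at h2
    have h3 : (e * (e / Real.sqrt (1 + t ^ 2)) + t * (t / Real.sqrt (1 + t ^ 2))) ^ 2 = 1 + t ^ 2 := by
      have h4 : e * (e / Real.sqrt (1 + t ^ 2)) + t * (t / Real.sqrt (1 + t ^ 2)) =
          (e ^ 2 + t ^ 2) / Real.sqrt (1 + t ^ 2) := by ring
      rw [h4, h1, div_pow, hs, sq, mul_div_assoc, div_self hpos.ne', mul_one]
    rw [h3] at h2
    have h5 := sq_nonneg (K' j i * (e / Real.sqrt (1 + t ^ 2)) + K' m i * (t / Real.sqrt (1 + t ^ 2)))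
    have h6 : t ^ 2 ≤ 0 := by linarith
    exact pow_eq_zero_iff (two_ne_zero) |>.1 (le_antisymm h6 (sq_nonneg t))

lemma conv_num {t a b e : ℝ} (ht0 : 0 < t) (ht1 : t < 1) (ha : a ^ 2 ≤ 1) (hb : b ^ 2 ≤ 1)
    (he : e = 1 ∨ e = -1) (h : e = t * a + (1 - t) * b) : a = e := by
  have ha1 : a ≤ 1 := by nlinarith
  have ha2 : -1 ≤ a := by nlinarith
  have hb1 : b ≤ 1 := by nlinarith
  have hb2 : -1 ≤ b := by nlinarith
  rcases he with he | he
  · rw [he] at h ⊢
    nlinarith
  · rw [he] at h ⊢
    nlinarith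

lemma KE_vals (k : ℕ) (i j : Fin k) : KE k i j = 0 ∨ KE k i j = 1 ∨ KE k i j = -1 := by
  unfold KE
  split_ifs <;> simp

lemma KF_vals (k : ℕ) (i j : Fin k) : KF k i j = 0 ∨ KF k i j = 1 ∨ KF k i j = -1 := by
  unfold KF
  split_ifs <;> simp

lemma KE_diag (k : ℕ) (i : Fin k) : KE k i i = 0 := by
  unfold KE
  rw [if_neg (by omega), if_neg (by omega)]

lemma KF_diag (k : ℕ) (i : Fin k) : KF k i i = 0 := by
  unfold KF
  rw [if_neg (by omega), if_neg (by omega), if_neg (by omega), if_neg (by omega)]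

lemma KE_partner {k : ℕ} (i : Fin k) : (∃ j, KE k j i ≠ 0) ∨ (i.val % 2 = 0 ∧ i.val + 1 = k) := by
  have hi := i.isLt
  by_cases h : i.val % 2 = 0
  · by_cases h2 : i.val + 1 = k
    · exact Or.inr ⟨h, h2⟩
    · left
      refine ⟨⟨i.val + 1, by omega⟩, ?_⟩
      unfold KE
      dsimp only
      rw [if_neg (by omega), if_pos ⟨rfl, h⟩]
      norm_num
  · left
    refine ⟨⟨i.val - 1, by omega⟩, ?_⟩
    unfold KE
    dsimp only
    rw [if_pos (by omega)]
    norm_num

lemma KF_partner {k : ℕ} (i : Fin k) : (∃ j, KF k j i ≠ 0) ∨ (i.val % 4 ≤ 1 ∧ k ≤ i.val + 2) := by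
  have hi := i.isLt
  have h4 : i.val % 4 = 0 ∨ i.val % 4 = 1 ∨ i.val % 4 = 2 ∨ i.val % 4 = 3 := by omega
  rcases h4 with h | h | h | h
  · by_cases h2 : k ≤ i.val + 2
    · exact Or.inr ⟨by omega, h2⟩
    · left
      refine ⟨⟨i.val + 2, by omega⟩, ?_⟩
      unfold KF
      dsimp only
      rw [if_neg (by omega), if_neg (by omega), if_pos (by omega)]
      norm_num
  · by_cases h2 : k ≤ i.val + 2
    · exact Or.inr ⟨by omega, h2⟩
    · left
      refine ⟨⟨i.val + 2, by omega⟩, ?_⟩
      unfold KF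
      dsimp only
      rw [if_neg (by omega), if_neg (by omega), if_neg (by omega), if_pos (by omega)]
      norm_num
  · left
    refine ⟨⟨i.val - 2, by omega⟩, ?_⟩
    unfold KF
    dsimp only
    rw [if_pos (by omega)]
    norm_num
  · left
    refine ⟨⟨i.val - 2, by omega⟩, ?_⟩
    unfold KF
    dsimp only
    rw [if_neg (by omega), if_pos (by omega)]
    norm_num

/-- entries that are `± 1` are forced -/
lemma forced {k : ℕ} {K1 K1' K2 K2' M : Matrix (Fin k) (Fin k) ℝ} (h1 : ZZ K1 K1') (h2 : ZZ K2 K2')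
    {t : ℝ} (ht0 : 0 < t) (ht1 : t < 1) (hM : M = t • K1 + (1 - t) • K2) {i j : Fin k} (hij : i ≠ j)
    (he : M j i = 1 ∨ M j i = -1) : K1 j i = M j i := by
  have a1 := entry h1 hij
  have a2 := entry h2 hij
  apply conv_num ht0 ht1 (b := K2 j i) _ _ he
  · rw [hM]
    simp
  · nlinarith [sq_nonneg (K1' j i)]
  · nlinarith [sq_nonneg (K2' j i)]

/-- columns with an entry `± 1` are forced -/
lemma forced_zero {k : ℕ} {K1 K1' K2 K2' M : Matrix (Fin k) (Fin k) ℝ} (h1 : ZZ K1 K1')
    (h2 : ZZ K2 K2') {t : ℝ} (ht0 : 0 < t) (ht1 : t < 1) (hM : M = t • K1 + (1 - t) • K2)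
    {i m : Fin k} (hd : M i i = 0) (hv : ∀ j, M j i = 0 ∨ M j i = 1 ∨ M j i = -1)
    (hp : ∃ j, M j i ≠ 0) (hm : M m i = 0) : K1 m i = 0 := by
  obtain ⟨j, hj⟩ := hp
  have hij : i ≠ j := by
    rintro rfl
    exact hj hd
  have he : M j i = 1 ∨ M j i = -1 := (hv j).resolve_left hj
  have h3 := forced h1 h2 ht0 ht1 hM hij he
  apply col h1 hij
  · rw [h3]
    rcases he with h | h <;> rw [h] <;> norm_num
  · rintro rfl
    exact hj hm

lemma half {k : ℕ} {K1 K1' K2 K2' : Matrix (Fin k) (Fin k) ℝ} (h1 : ZZ K1 K1') (h2 : ZZ K2 K2')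
    {t : ℝ} (ht0 : 0 < t) (ht1 : t < 1) (hE : KE k = t • K1 + (1 - t) • K2)
    (hF : KF k = t • K1' + (1 - t) • K2') : K1 = KE k ∧ K1' = KF k := by
  have hz := zz_explicit k
  have hKE : ∀ m i, K1 m i = KE k m i := by
    intro m i
    by_cases hmi : i = m
    · rw [hmi, KE_diag, skew_diag h1]
    rcases KE_vals k m i with h | h
    swap
    · exact forced h1 h2 ht0 ht1 hE hmi h
    rw [h]
    rcases KE_partner i with hp | hp
    · exact forced_zero h1 h2 ht0 ht1 hE (KE_diag k i) (fun j => KE_vals k j i) hp h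
    rcases KE_partner m with hq | hq
    · have h3 : KE k i m = 0 := by
        rw [skew hz, h, neg_zero]
      have h4 := forced_zero h1 h2 ht0 ht1 hE (KE_diag k m) (fun j => KE_vals k j m) hq h3
      rw [skew h1, h4, neg_zero]
    · exact absurd (Fin.ext (by omega)) hmi
  refine ⟨by ext m i; exact hKE m i, ?_⟩
  ext m i
  by_cases hmi : i = m
  · rw [hmi, KF_diag, skew_diag (zz_symm h1)]
  rcases KF_vals k m i with h | h
  swap
  · exact forced (zz_symm h1) (zz_symm h2) ht0 ht1 hF hmi h
  rw [h]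
  rcases KF_partner i with hp | hp
  · exact forced_zero (zz_symm h1) (zz_symm h2) ht0 ht1 hF (KF_diag k i) (fun j => KF_vals k j i) hp h
  rcases KF_partner m with hq | hq
  · have h3 : KF k i m = 0 := by
      rw [skew (zz_symm hz), h, neg_zero]
    have h4 := forced_zero (zz_symm h1) (zz_symm h2) ht0 ht1 hF (KF_diag k m)
      (fun j => KF_vals k j m) hq h3
    rw [skew (zz_symm h1), h4, neg_zero]
  · have h5 : KE k m i = 1 ∨ KE k m i = -1 := by
      have hi := i.isLt
      have hm := m.isLt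
      have hne : i.val ≠ m.val := fun h6 => hmi (Fin.ext h6)
      unfold KE
      split_ifs with h6 h7
      · exact Or.inl rfl
      · exact Or.inr rfl
      · exfalso
        omega
    have h6 := entry h1 hmi
    rw [hKE m i] at h6
    have h7 : KE k m i ^ 2 = 1 := by
      rcases h5 with h | h <;> rw [h] <;> norm_num
    rw [h7] at h6
    have h8 : K1' m i ^ 2 ≤ 0 := by linarith
    exact pow_eq_zero_iff (two_ne_zero) |>.1 (le_antisymm h8 (sq_nonneg _))

end ZExplicitAux

open ZExplicitAux in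
theorem extr_explicit (k : ℕ) : ExtrZZ (KE k) (KF k) := by
  refine ⟨zz_explicit k, ?_⟩
  intro K1 K1' K2 K2' h1 h2 t ht0 ht1 hE hF
  refine ⟨half h1 h2 ht0 ht1 hE hF, ?_⟩
  refine half h2 h1 (t := 1 - t) (by linarith) (by linarith) ?_ ?_
  · rw [sub_sub_cancel, add_comm]
    exact hE
  · rw [sub_sub_cancel, add_comm]
    exact hF

end Pool.Agent.P1ae5
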