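import Pool.Agent.Lib.P1ae5.ZExplicit
import Pool.Agent.Lib.P1ae5.ZMember

/-!
P1ae5.ZFam (MP_1ae5d5_an). A one-parameter family of extreme points of the body of pairs of skew
matrices. `KP` is `KE` with the first block of size 4 replaced by `p` at `(0,1)`, `m` at `(2,3)`,
`KQ` is `KF` with this block replaced by `p` at `(0,2)`, `m` at `(1,3)`; `p^2 + m^2 = 1`. The pair
is in the body; it is an extreme point if `p m ≠ 0`, `k % 4 ≠ 1`, and it is not an extreme point if
`m = 0`.
-/

set_option autoImplicit false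

namespace Pool.Agent.P1ae5

open Finset

/-- `KE` with another first block -/
def KP (k : ℕ) (p m : ℝ) : Matrix (Fin k) (Fin k) ℝ := fun i j =>
  if i.val < 4 ∧ j.val < 4 then
    if i.val = 0 ∧ j.val = 1 then p else if i.val = 1 ∧ j.val = 0 then -p
    else if i.val = 2 ∧ j.val = 3 then m else if i.val = 3 ∧ j.val = 2 then -m else 0
  else KE k i j

/-- `KF` with another first block -/
def KQ (k : ℕ) (p m : ℝ) : Matrix (Fin k) (Fin k) ℝ := fun i j =>
  if i.val < 4 ∧ j.val < 4 then
    if i.val = 0 ∧ j.val = 2 then p else if i.val = 2 ∧ j.val = 0 then -p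
    else if i.val = 1 ∧ j.val = 3 then m else if i.val = 3 ∧ j.val = 1 then -m else 0
  else KF k i j

namespace ZFamAux

open ZExplicitAux

/-- the entries of `c KP x + s KQ x` -/
def tauP {k : ℕ} (p m p' m' c s : ℝ) (x : RV k) (i : ℕ) : ℝ :=
  if i = 0 then c * (p * ext x 1) + s * (p' * ext x 2)
  else if i = 1 then c * (-p * ext x 0) + s * (m' * ext x 3)
  else if i = 2 then c * (m * ext x 3) + s * (-p' * ext x 0)
  else if i = 3 then c * (-m * ext x 2) + s * (-m' * ext x 1)
  else tau c s x i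

/-- the inequality for the first block -/
def Bl (p m p' m' : ℝ) : Prop := ∀ c s a b d e : ℝ,
  (c * (p * b) + s * (p' * d)) ^ 2 + (c * (-p * a) + s * (m' * e)) ^ 2 +
    (c * (m * e) + s * (-p' * a)) ^ 2 + (c * (-m * d) + s * (-m' * b)) ^ 2 ≤
    (c ^ 2 + s ^ 2) * (a ^ 2 + b ^ 2 + d ^ 2 + e ^ 2)

lemma bl_fam {p m : ℝ} (hpm : p ^ 2 + m ^ 2 = 1) : Bl p m p m := by
  intro c s a b d e
  have key : (c ^ 2 + s ^ 2) * (p ^ 2 + m ^ 2) * (a ^ 2 + b ^ 2 + d ^ 2 + e ^ 2) -
      ((c * (p * b) + s * (p * d)) ^ 2 + (c * (-p * a) + s * (m * e)) ^ 2 +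
        (c * (m * e) + s * (-p * a)) ^ 2 + (c * (-m * d) + s * (-m * b)) ^ 2) =
      p ^ 2 * (c * d - s * b) ^ 2 + m ^ 2 * (c * b - s * d) ^ 2 + (c * m * a + s * p * e) ^ 2 +
        (s * m * a + c * p * e) ^ 2 := by ring
  rw [hpm, mul_one] at key
  have h5 : 0 ≤ p ^ 2 * (c * d - s * b) ^ 2 + m ^ 2 * (c * b - s * d) ^ 2 +
      (c * m * a + s * p * e) ^ 2 + (s * m * a + c * p * e) ^ 2 := by positivity
  linarith

lemma bl_one : Bl 1 1 1 (-1) := by
  intro c s a b d e
  apply le_of_eq
  ring

lemma bl_two : Bl 1 (-1) 1 1 := by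
  intro c s a b d e
  apply le_of_eq
  ring

lemma KP_row {k : ℕ} {p m : ℝ} {i j : Fin k} (h : 4 ≤ i.val ∨ 4 ≤ j.val) :
    KP k p m i j = KE k i j := by
  unfold KP
  rw [if_neg (by omega)]

lemma KQ_row {k : ℕ} {p m : ℝ} {i j : Fin k} (h : 4 ≤ i.val ∨ 4 ≤ j.val) :
    KQ k p m i j = KF k i j := by
  unfold KQ
  rw [if_neg (by omega)]

lemma tauP_eq {k : ℕ} (p m p' m' c s : ℝ) (x : RV k) (i : Fin k) :
    c * (KP k p m).mulVec x i + s * (KQ k p' m').mulVec x i = tauP p m p' m' c s x i.val := by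
  unfold tauP
  have hi := i.isLt
  have h4 : i.val = 0 ∨ i.val = 1 ∨ i.val = 2 ∨ i.val = 3 ∨ 4 ≤ i.val := by omega
  rcases h4 with h | h | h | h | h
  · rw [if_pos h, mulVec_single (KP k p m) x i 1 p, mulVec_single (KQ k p' m') x i 2 p']
    · intro j
      unfold KQ KF
      split_ifs <;> first | rfl | omega
    · intro j
      unfold KP KE
      split_ifs <;> first | rfl | omega
  · rw [if_neg (by omega), if_pos h, mulVec_single (KP k p m) x i 0 (-p),
      mulVec_single (KQ k p' m') x i 3 m']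
    · intro j
      unfold KQ KF
      split_ifs <;> first | rfl | omega
    · intro j
      unfold KP KE
      split_ifs <;> first | rfl | omega
  · rw [if_neg (by omega), if_neg (by omega), if_pos h, mulVec_single (KP k p m) x i 3 m,
      mulVec_single (KQ k p' m') x i 0 (-p')]
    · intro j
      unfold KQ KF
      split_ifs <;> first | rfl | omega
    · intro j
      unfold KP KE
      split_ifs <;> first | rfl | omega
  · rw [if_neg (by omega), if_neg (by omega), if_neg (by omega), if_pos h,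
      mulVec_single (KP k p m) x i 2 (-m), mulVec_single (KQ k p' m') x i 1 (-m')]
    · intro j
      unfold KQ KF
      split_ifs <;> first | rfl | omega
    · intro j
      unfold KP KE
      split_ifs <;> first | rfl | omega
  · rw [if_neg (by omega), if_neg (by omega), if_neg (by omega), if_neg (by omega), ← tau_eq]
    have h1 : (KP k p m).mulVec x i = (KE k).mulVec x i := by
      unfold Matrix.mulVec dotProduct
      apply Finset.sum_congr rfl
      intro j _
      show KP k p m i j * x j = KE k i j * x j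
      rw [KP_row (Or.inl h)]
    have h2 : (KQ k p' m').mulVec x i = (KF k).mulVec x i := by
      unfold Matrix.mulVec dotProduct
      apply Finset.sum_congr rfl
      intro j _
      show KQ k p' m' i j * x j = KF k i j * x j
      rw [KQ_row (Or.inl h)]
    rw [h1, h2]

lemma blockP {k : ℕ} {p m p' m' : ℝ} (hb : Bl p m p' m') (c s : ℝ) (x : RV k) (K : ℕ) :
    ∑ i ∈ range (4 * (K + 1)), tauP p m p' m' c s x i ^ 2 ≤
      (c ^ 2 + s ^ 2) * ∑ i ∈ range (4 * (K + 1)), ext x i ^ 2 := by
  induction K with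
  | zero =>
    have h : 4 * (0 + 1) = 0 + 1 + 1 + 1 + 1 := by norm_num
    rw [h]
    simp only [sum_range_succ, sum_range_zero]
    have h0 : tauP p m p' m' c s x 0 = c * (p * ext x 1) + s * (p' * ext x 2) := by
      unfold tauP
      rw [if_pos rfl]
    have h1 : tauP p m p' m' c s x (0 + 1) = c * (-p * ext x 0) + s * (m' * ext x 3) := by
      unfold tauP
      rw [if_neg (by omega), if_pos (by omega)]
    have h2 : tauP p m p' m' c s x (0 + 1 + 1) = c * (m * ext x 3) + s * (-p' * ext x 0) := by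
      unfold tauP
      rw [if_neg (by omega), if_neg (by omega), if_pos (by omega)]
    have h3 : tauP p m p' m' c s x (0 + 1 + 1 + 1) = c * (-m * ext x 2) + s * (-m' * ext x 1) := by
      unfold tauP
      rw [if_neg (by omega), if_neg (by omega), if_neg (by omega), if_pos (by omega)]
    rw [h0, h1, h2, h3]
    show _ ≤ (c ^ 2 + s ^ 2) * (0 + ext x 0 ^ 2 + ext x 1 ^ 2 + ext x 2 ^ 2 + ext x 3 ^ 2)
    generalize ext x 0 = a
    generalize ext x 1 = b
    generalize ext x 2 = d
    generalize ext x 3 = e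
    have h5 := hb c s a b d e
    linarith
  | succ K ih =>
    have h : 4 * (K + 1 + 1) = 4 * (K + 1) + 1 + 1 + 1 + 1 := by ring
    rw [h]
    simp only [sum_range_succ]
    have h0 : tauP p m p' m' c s x (4 * (K + 1)) =
        c * ext x (4 * (K + 1) + 1) + s * ext x (4 * (K + 1) + 2) := by
      unfold tauP tau
      rw [if_neg (by omega), if_neg (by omega), if_neg (by omega), if_neg (by omega),
        if_pos (by omega)]
    have h1 : tauP p m p' m' c s x (4 * (K + 1) + 1) =
        -(c * ext x (4 * (K + 1))) - s * ext x (4 * (K + 1) + 3) := by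
      unfold tauP tau
      rw [if_neg (by omega), if_neg (by omega), if_neg (by omega), if_neg (by omega),
        if_neg (by omega), if_pos (by omega)]
      rfl
    have h2 : tauP p m p' m' c s x (4 * (K + 1) + 1 + 1) =
        c * ext x (4 * (K + 1) + 3) - s * ext x (4 * (K + 1)) := by
      unfold tauP tau
      rw [if_neg (by omega), if_neg (by omega), if_neg (by omega), if_neg (by omega),
        if_neg (by omega), if_neg (by omega), if_pos (by omega)]
      rfl
    have h3 : tauP p m p' m' c s x (4 * (K + 1) + 1 + 1 + 1) =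
        -(c * ext x (4 * (K + 1) + 2)) + s * ext x (4 * (K + 1) + 1) := by
      unfold tauP tau
      rw [if_neg (by omega), if_neg (by omega), if_neg (by omega), if_neg (by omega),
        if_neg (by omega), if_neg (by omega), if_neg (by omega)]
      rfl
    rw [h0, h1, h2, h3]
    show _ ≤ (c ^ 2 + s ^ 2) * (∑ i ∈ range (4 * (K + 1)), ext x i ^ 2 + ext x (4 * (K + 1)) ^ 2 +
      ext x (4 * (K + 1) + 1) ^ 2 + ext x (4 * (K + 1) + 2) ^ 2 + ext x (4 * (K + 1) + 3) ^ 2)
    have h5 : (c * ext x (4 * (K + 1) + 1) + s * ext x (4 * (K + 1) + 2)) ^ 2 +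
        (-(c * ext x (4 * (K + 1))) - s * ext x (4 * (K + 1) + 3)) ^ 2 +
        (c * ext x (4 * (K + 1) + 3) - s * ext x (4 * (K + 1))) ^ 2 +
        (-(c * ext x (4 * (K + 1) + 2)) + s * ext x (4 * (K + 1) + 1)) ^ 2 =
        (c ^ 2 + s ^ 2) * (ext x (4 * (K + 1)) ^ 2 + ext x (4 * (K + 1) + 1) ^ 2 +
          ext x (4 * (K + 1) + 2) ^ 2 + ext x (4 * (K + 1) + 3) ^ 2) := by ring
    nlinarith [ih, h5]

lemma norm_boundP {k : ℕ} {p m p' m' : ℝ} (hb : Bl p m p' m') (c s : ℝ) (x : RV k) :
    ∑ i : Fin k, (c * (KP k p m).mulVec x i + s * (KQ k p' m').mulVec x i) ^ 2 ≤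
      (c ^ 2 + s ^ 2) * rdot x x := by
  have h1 : ∑ i : Fin k, (c * (KP k p m).mulVec x i + s * (KQ k p' m').mulVec x i) ^ 2 =
      ∑ i ∈ range k, tauP p m p' m' c s x i ^ 2 := by
    rw [← Fin.sum_univ_eq_sum_range (fun i => tauP p m p' m' c s x i ^ 2)]
    apply Finset.sum_congr rfl
    intro i _
    rw [tauP_eq]
  have h2 : ∑ i ∈ range k, tauP p m p' m' c s x i ^ 2 ≤
      ∑ i ∈ range (4 * (k + 1)), tauP p m p' m' c s x i ^ 2 := by
    apply sum_le_sum_of_subset_of_nonneg
    · apply range_subset_range.2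
      omega
    · intro i _ _
      positivity
  have h3 : ∑ i ∈ range (4 * (k + 1)), ext x i ^ 2 = rdot x x := by
    unfold rdot
    have h4 : ∑ i : Fin k, x i * x i = ∑ i ∈ range k, ext x i ^ 2 := by
      rw [← Fin.sum_univ_eq_sum_range (fun i => ext x i ^ 2)]
      apply Finset.sum_congr rfl
      intro i _
      rw [ext_of]
      ring
    rw [h4]
    symm
    apply sum_subset
    · apply range_subset_range.2
      omega
    · intro i _ hi
      rw [mem_range] at hi
      unfold ZExplicitAux.ext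
      rw [dif_neg hi]
      norm_num
  rw [h1]
  have h4 := blockP hb c s x k
  rw [h3] at h4
  exact h2.trans h4

/-- the pairs are in the body -/
lemma zz_gen (k : ℕ) {p m p' m' : ℝ} (hb : Bl p m p' m') : ZZ (KP k p m) (KQ k p' m') := by
  refine ⟨⟨?_, ?_⟩, ?_⟩
  · ext i j
    rw [Matrix.transpose_apply, Matrix.neg_apply]
    unfold KP KE
    split_ifs <;> first | (exfalso; omega) | norm_num
  · ext i j
    rw [Matrix.transpose_apply, Matrix.neg_apply]
    unfold KQ KF
    split_ifs <;> first | (exfalso; omega) | norm_num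
  · intro x y ⟨hx, hy, _⟩
    obtain ⟨a, ha⟩ : ∃ a, a = rdot ((KP k p m).mulVec x) y := ⟨_, rfl⟩
    obtain ⟨r, hr⟩ : ∃ r, r = rdot ((KQ k p' m').mulVec x) y := ⟨_, rfl⟩
    rw [← ha, ← hr]
    have h1 : ∑ i : Fin k, (a * (KP k p m).mulVec x i + r * (KQ k p' m').mulVec x i) * y i =
        a ^ 2 + r ^ 2 := by
      have h2 : ∑ i : Fin k, (a * (KP k p m).mulVec x i + r * (KQ k p' m').mulVec x i) * y i =
          a * rdot ((KP k p m).mulVec x) y + r * rdot ((KQ k p' m').mulVec x) y := by
        unfold rdot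
        rw [mul_sum, mul_sum, ← sum_add_distrib]
        apply Finset.sum_congr rfl
        intro i _
        ring
      rw [h2, ← ha, ← hr]
      ring
    have h2 := sum_mul_sq_le_sq_mul_sq univ
      (fun i : Fin k => a * (KP k p m).mulVec x i + r * (KQ k p' m').mulVec x i) y
    rw [h1] at h2
    have h3 := norm_boundP hb a r x
    rw [hx, mul_one] at h3
    have h4 : ∑ i : Fin k, y i ^ 2 = 1 := by
      rw [← hy]
      unfold rdot
      apply Finset.sum_congr rfl
      intro i _
      ring
    rw [h4, mul_one] at h2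
    have h5 := h2.trans h3
    by_contra h6
    push Not at h6
    nlinarith

lemma zz_fam (k : ℕ) {p m : ℝ} (hpm : p ^ 2 + m ^ 2 = 1) : ZZ (KP k p m) (KQ k p m) :=
  zz_gen k (bl_fam hpm)

end ZFamAux

end Pool.Agent.P1ae5
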