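import Pool.Agent.Lib.P1ae5.ZFam

/-!
P1ae5.ZFamB (MP_1ae5d5_an). `(KP, KQ)` is an extreme point for `p m ≠ 0`, `k % 4 ≠ 1`.

PROOF. For a pair in the body `|(c K + s K') x|^2 ≤ (c^2 + s^2) |x|^2`. If `(KP, KQ)` is a proper convex
combination of two pairs in the body and equality holds for `(KP, KQ)`, `c, s`, `x`, then the vectors
`(c K + s K') x` of the two pairs are the same (strict convexity of the norm). This is used for
`(c,s) = (1,1)`, `x = e_1 + e_2` and `p e_0 - m e_3`, and for `(c,s) = (1,-1)`, `x = e_1 - e_2` and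
`p e_0 + m e_3`. Together with `(K x.y)^2 + (K' x.y)^2 ≤ 2` for these pairs `x, y` this determines the
first block. The further columns are determined as in `ZExplicit`.
-/

set_option autoImplicit false

namespace Pool.Agent.P1ae5

open Finset

namespace ZFamAux

open ZExplicitAux

lemma contr {k : ℕ} {K K' : Matrix (Fin k) (Fin k) ℝ} (h : ZZ K K') (c s : ℝ) (x : RV k) :
    rdot (c • K.mulVec x + s • K'.mulVec x) (c • K.mulVec x + s • K'.mulVec x) ≤
      (c ^ 2 + s ^ 2) * rdot x x := by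
  obtain ⟨v, hv⟩ : ∃ v, v = c • K.mulVec x + s • K'.mulVec x := ⟨_, rfl⟩
  rw [← hv]
  have h1 := ZMemberAux.area h v x
  have h2' : rdot (c • K.mulVec x + s • K'.mulVec x) v =
      c * rdot (K.mulVec x) v + s * rdot (K'.mulVec x) v := by
    rw [ZMemberAux.rdot_add_left, ZMemberAux.rdot_smul_left, ZMemberAux.rdot_smul_left]
  have h2 : rdot v v = c * rdot (K.mulVec x) v + s * rdot (K'.mulVec x) v := by
    rw [← h2', ← hv]
  have hx0 := ZMemberAux.rdot_self_nonneg x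
  have hv0 := ZMemberAux.rdot_self_nonneg v
  generalize rdot (K.mulVec x) v = a at h1 h2
  generalize rdot (K'.mulVec x) v = b at h1 h2
  have h3 : a ^ 2 + b ^ 2 ≤ rdot v v * rdot x x := by nlinarith [sq_nonneg (rdot v x)]
  have h4 : rdot v v ^ 2 ≤ (c ^ 2 + s ^ 2) * (a ^ 2 + b ^ 2) := by
    rw [h2]
    nlinarith [sq_nonneg (c * b - s * a)]
  rcases hv0.eq_or_lt with h5 | h5
  · rw [← h5]
    positivity
  · have h6 : rdot v v * rdot v v ≤ rdot v v * ((c ^ 2 + s ^ 2) * rdot x x) := by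
      have h7 : (c ^ 2 + s ^ 2) * (a ^ 2 + b ^ 2) ≤ (c ^ 2 + s ^ 2) * (rdot v v * rdot x x) :=
        mul_le_mul_of_nonneg_left h3 (by positivity)
      nlinarith
    exact le_of_mul_le_mul_left h6 h5

lemma fixv {k : ℕ} {K K' K1 K1' K2 K2' : Matrix (Fin k) (Fin k) ℝ} (h1 : ZZ K1 K1')
    (h2 : ZZ K2 K2') {t : ℝ} (ht0 : 0 < t) (ht1 : t < 1) (hE : K = t • K1 + (1 - t) • K2)
    (hF : K' = t • K1' + (1 - t) • K2') (c s : ℝ) (x : RV k)
    (hc : rdot (c • K.mulVec x + s • K'.mulVec x) (c • K.mulVec x + s • K'.mulVec x) =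
      (c ^ 2 + s ^ 2) * rdot x x) :
    c • K1.mulVec x + s • K1'.mulVec x = c • K.mulVec x + s • K'.mulVec x := by
  obtain ⟨u, hu⟩ : ∃ u, u = c • K.mulVec x + s • K'.mulVec x := ⟨_, rfl⟩
  obtain ⟨v, hv⟩ : ∃ v, v = c • K1.mulVec x + s • K1'.mulVec x := ⟨_, rfl⟩
  obtain ⟨w, hw⟩ : ∃ w, w = c • K2.mulVec x + s • K2'.mulVec x := ⟨_, rfl⟩
  have huvw : u = t • v + (1 - t) • w := by
    rw [hu, hv, hw, hE, hF]
    simp only [Matrix.add_mulVec, Matrix.smul_mulVec]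
    module
  have hb1 := contr h1 c s x
  have hb2 := contr h2 c s x
  rw [← hv] at hb1 ⊢
  rw [← hw] at hb2
  rw [← hu] at hc ⊢
  have hid : rdot u u = t * rdot v v + (1 - t) * rdot w w - t * (1 - t) * rdot (v - w) (v - w) := by
    rw [huvw]
    unfold rdot
    simp only [Pi.add_apply, Pi.smul_apply, Pi.sub_apply, smul_eq_mul]
    rw [Finset.mul_sum, Finset.mul_sum, Finset.mul_sum, ← Finset.sum_add_distrib,
      ← Finset.sum_sub_distrib]
    apply Finset.sum_congr rfl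
    intro i _
    ring
  have h0 := ZMemberAux.rdot_self_nonneg (v - w)
  have h3 : rdot (v - w) (v - w) = 0 := by
    have h4 : 0 < t * (1 - t) := mul_pos ht0 (by linarith)
    have h5 : t * (1 - t) * rdot (v - w) (v - w) ≤ 0 := by
      have h6 : t * rdot v v ≤ t * ((c ^ 2 + s ^ 2) * rdot x x) :=
        mul_le_mul_of_nonneg_left hb1 ht0.le
      have h7 : (1 - t) * rdot w w ≤ (1 - t) * ((c ^ 2 + s ^ 2) * rdot x x) :=
        mul_le_mul_of_nonneg_left hb2 (by linarith)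
      rw [hc] at hid
      linarith
    by_contra hne
    have h8 : 0 < rdot (v - w) (v - w) := lt_of_le_of_ne h0 (Ne.symm hne)
    have h9 := mul_pos h4 h8
    linarith
  have h4 : v = w := sub_eq_zero.1 (ZMemberAux.eq_zero_of_rdot h3)
  rw [huvw, ← h4]
  module

/-- two-term vectors -/
def fv {k : ℕ} (a b : ℝ) (i j : Fin k) : RV k := fun l =>
  if l = i then a else if l = j then b else 0

lemma mulVec_fv {k : ℕ} (K : Matrix (Fin k) (Fin k) ℝ) (a b : ℝ) {i j : Fin k} (hij : i ≠ j)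
    (l : Fin k) : K.mulVec (fv a b i j) l = K l i * a + K l j * b :=
  two_sum (fun n => K l n) hij a b

lemma rdot_fv {k : ℕ} (v : RV k) (a b : ℝ) {i j : Fin k} (hij : i ≠ j) :
    rdot v (fv a b i j) = v i * a + v j * b :=
  two_sum v hij a b

lemma rdot_fv_fv {k : ℕ} (a b : ℝ) {i j : Fin k} (hij : i ≠ j) :
    rdot (fv a b i j) (fv a b i j) = a ^ 2 + b ^ 2 := by
  rw [rdot_fv _ _ _ hij]
  unfold fv
  rw [if_pos rfl, if_neg hij.symm, if_pos rfl]
  ring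

section block

variable {k : ℕ} {p m : ℝ} (hk : 4 ≤ k)

lemma P0 (l : Fin k) : KP k p m l ⟨0, by omega⟩ = if l.val = 1 then -p else 0 := by
  unfold KP KE
  dsimp only
  split_ifs <;> first | rfl | omega | tauto

lemma P1 (l : Fin k) : KP k p m l ⟨1, by omega⟩ = if l.val = 0 then p else 0 := by
  unfold KP KE
  dsimp only
  split_ifs <;> first | rfl | omega | tauto

lemma P2 (l : Fin k) : KP k p m l ⟨2, by omega⟩ = if l.val = 3 then -m else 0 := by
  unfold KP KE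
  dsimp only
  split_ifs <;> first | rfl | omega | tauto

lemma P3 (l : Fin k) : KP k p m l ⟨3, by omega⟩ = if l.val = 2 then m else 0 := by
  unfold KP KE
  dsimp only
  split_ifs <;> first | rfl | omega | tauto

lemma Q0 (l : Fin k) : KQ k p m l ⟨0, by omega⟩ = if l.val = 2 then -p else 0 := by
  unfold KQ KF
  dsimp only
  split_ifs <;> first | rfl | omega | tauto

lemma Q1 (l : Fin k) : KQ k p m l ⟨1, by omega⟩ = if l.val = 3 then -m else 0 := by
  unfold KQ KF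
  dsimp only
  split_ifs <;> first | rfl | omega | tauto

lemma Q2 (l : Fin k) : KQ k p m l ⟨2, by omega⟩ = if l.val = 0 then p else 0 := by
  unfold KQ KF
  dsimp only
  split_ifs <;> first | rfl | omega | tauto

lemma Q3 (l : Fin k) : KQ k p m l ⟨3, by omega⟩ = if l.val = 1 then m else 0 := by
  unfold KQ KF
  dsimp only
  split_ifs <;> first | rfl | omega | tauto

end block

/-- the relation obtained from a two-term vector with equality -/
lemma rel {k : ℕ} {K K' K1 K1' K2 K2' : Matrix (Fin k) (Fin k) ℝ} (h1 : ZZ K1 K1')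
    (h2 : ZZ K2 K2') {t : ℝ} (ht0 : 0 < t) (ht1 : t < 1) (hE : K = t • K1 + (1 - t) • K2)
    (hF : K' = t • K1' + (1 - t) • K2') (c s a b : ℝ) {i j : Fin k} (hij : i ≠ j)
    (u v : ℝ) {n l : Fin k} (hnl : n ≠ l)
    (hu : ∀ q : Fin k, c * (K q i * a + K q j * b) + s * (K' q i * a + K' q j * b) =
      if q = n then u else if q = l then v else 0)
    (hc : u ^ 2 + v ^ 2 = (c ^ 2 + s ^ 2) * (a ^ 2 + b ^ 2)) (q : Fin k) :
    c * (K1 q i * a + K1 q j * b) + s * (K1' q i * a + K1' q j * b) =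
      if q = n then u else if q = l then v else 0 := by
  have e : c • K.mulVec (fv a b i j) + s • K'.mulVec (fv a b i j) = fv u v n l := by
    funext q
    show c * K.mulVec (fv a b i j) q + s * K'.mulVec (fv a b i j) q = fv u v n l q
    rw [mulVec_fv _ _ _ hij, mulVec_fv _ _ _ hij]
    exact hu q
  have h3 := fixv h1 h2 ht0 ht1 hE hF c s (fv a b i j) (by
    rw [e, rdot_fv_fv _ _ hnl, rdot_fv_fv _ _ hij]
    exact hc)
  rw [e] at h3
  have h4 := congrFun h3 q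
  change c * K1.mulVec (fv a b i j) q + s * K1'.mulVec (fv a b i j) q = fv u v n l q at h4
  rw [mulVec_fv _ _ _ hij, mulVec_fv _ _ _ hij] at h4
  exact h4

/-- `(K x.y)^2 + (K' x.y)^2 ≤ |x|^2 |y|^2` for two-term vectors -/
lemma areaf {k : ℕ} {K K' : Matrix (Fin k) (Fin k) ℝ} (h : ZZ K K') (a b c d : ℝ)
    {i j n l : Fin k} (hij : i ≠ j) (hnl : n ≠ l) :
    ((K n i * a + K n j * b) * c + (K l i * a + K l j * b) * d) ^ 2 +
      ((K' n i * a + K' n j * b) * c + (K' l i * a + K' l j * b) * d) ^ 2 ≤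
      (c ^ 2 + d ^ 2) * (a ^ 2 + b ^ 2) := by
  have h1 := ZMemberAux.area h (fv c d n l) (fv a b i j)
  rw [rdot_fv _ _ _ hnl, rdot_fv _ _ _ hnl, rdot_fv_fv _ _ hnl, rdot_fv_fv _ _ hij,
    mulVec_fv _ _ _ hij, mulVec_fv _ _ _ hij, mulVec_fv _ _ _ hij, mulVec_fv _ _ _ hij] at h1
  have h2 := sq_nonneg (rdot (fv c d n l) (fv a b i j))
  linarith

lemma eq_of_sum {a b r : ℝ} (h : a + b = 2 * r) (h2 : a ^ 2 + b ^ 2 ≤ 2 * r ^ 2) : a = b := by
  have h5 : (a + b) ^ 2 = (2 * r) ^ 2 := by rw [h]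
  have h3 : (a - b) ^ 2 ≤ 0 := by nlinarith
  have h4 : a - b = 0 := by
    have := le_antisymm h3 (sq_nonneg _)
    exact pow_eq_zero_iff (two_ne_zero) |>.1 this
  linarith

/-- the four relations for the columns `0, ..., 3` -/
lemma rels {k : ℕ} (hk : 4 ≤ k) {p m : ℝ} (hpm : p ^ 2 + m ^ 2 = 1)
    {K1 K1' K2 K2' : Matrix (Fin k) (Fin k) ℝ} (h1 : ZZ K1 K1')
    (h2 : ZZ K2 K2') {t : ℝ} (ht0 : 0 < t) (ht1 : t < 1) (hE : KP k p m = t • K1 + (1 - t) • K2)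
    (hF : KQ k p m = t • K1' + (1 - t) • K2') (q : Fin k) :
    ((K1 q ⟨1, by omega⟩ + K1 q ⟨2, by omega⟩) + (K1' q ⟨1, by omega⟩ + K1' q ⟨2, by omega⟩) =
      if q.val = 0 then 2 * p else if q.val = 3 then -(2 * m) else 0) ∧
    ((K1 q ⟨0, by omega⟩ * p - K1 q ⟨3, by omega⟩ * m) +
      (K1' q ⟨0, by omega⟩ * p - K1' q ⟨3, by omega⟩ * m) =
      if q.val = 1 then -1 else if q.val = 2 then -1 else 0) ∧
    ((K1 q ⟨1, by omega⟩ - K1 q ⟨2, by omega⟩) - (K1' q ⟨1, by omega⟩ - K1' q ⟨2, by omega⟩) =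
      if q.val = 0 then 2 * p else if q.val = 3 then 2 * m else 0) ∧
    ((K1 q ⟨0, by omega⟩ * p + K1 q ⟨3, by omega⟩ * m) -
      (K1' q ⟨0, by omega⟩ * p + K1' q ⟨3, by omega⟩ * m) =
      if q.val = 1 then -1 else if q.val = 2 then 1 else 0) := by
  have hne : ∀ a b : ℕ, ∀ (ha : a < k) (hb : b < k), a ≠ b → (⟨a, ha⟩ : Fin k) ≠ ⟨b, hb⟩ := by
    intro a b ha hb hab h
    exact hab (Fin.mk.inj_iff.1 h)
  refine ⟨?_, ?_, ?_, ?_⟩
  · have h3 := rel h1 h2 ht0 ht1 hE hF 1 1 1 1 (hne 1 2 (by omega) (by omega) (by omega))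
      (2 * p) (-(2 * m)) (hne 0 3 (by omega) (by omega) (by omega)) (by
        intro l
        rw [P1 hk, P2 hk, Q1 hk, Q2 hk]
        simp only [Fin.ext_iff]
        split_ifs <;> first | omega | ring) (by linear_combination 4 * hpm) q
    simp only [Fin.ext_iff] at h3
    rw [← h3]
    ring
  · have h3 := rel h1 h2 ht0 ht1 hE hF 1 1 p (-m) (hne 0 3 (by omega) (by omega) (by omega))
      (-1) (-1) (hne 1 2 (by omega) (by omega) (by omega)) (by
        intro l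
        rw [P0 hk, P3 hk, Q0 hk, Q3 hk]
        simp only [Fin.ext_iff]
        split_ifs <;> first | omega | linarith) (by linear_combination -2 * hpm) q
    simp only [Fin.ext_iff] at h3
    rw [← h3]
    ring
  · have h3 := rel h1 h2 ht0 ht1 hE hF 1 (-1) 1 (-1) (hne 1 2 (by omega) (by omega) (by omega))
      (2 * p) (2 * m) (hne 0 3 (by omega) (by omega) (by omega)) (by
        intro l
        rw [P1 hk, P2 hk, Q1 hk, Q2 hk]
        simp only [Fin.ext_iff]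
        split_ifs <;> first | omega | ring) (by linear_combination 4 * hpm) q
    simp only [Fin.ext_iff] at h3
    rw [← h3]
    ring
  · have h3 := rel h1 h2 ht0 ht1 hE hF 1 (-1) p m (hne 0 3 (by omega) (by omega) (by omega))
      (-1) 1 (hne 1 2 (by omega) (by omega) (by omega)) (by
        intro l
        rw [P0 hk, P3 hk, Q0 hk, Q3 hk]
        simp only [Fin.ext_iff]
        split_ifs <;> first | omega | linarith) (by linear_combination -2 * hpm) q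
    simp only [Fin.ext_iff] at h3
    rw [← h3]
    ring

/-- the entries of the first block -/
lemma entries {k : ℕ} (hk : 4 ≤ k) {p m : ℝ} (hpm : p ^ 2 + m ^ 2 = 1) (hp : p ≠ 0) (hm : m ≠ 0)
    {K1 K1' K2 K2' : Matrix (Fin k) (Fin k) ℝ} (h1 : ZZ K1 K1')
    (h2 : ZZ K2 K2') {t : ℝ} (ht0 : 0 < t) (ht1 : t < 1) (hE : KP k p m = t • K1 + (1 - t) • K2)
    (hF : KQ k p m = t • K1' + (1 - t) • K2') :
    (K1 ⟨0, by omega⟩ ⟨1, by omega⟩ = p ∧ K1 ⟨0, by omega⟩ ⟨2, by omega⟩ = 0 ∧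
      K1 ⟨0, by omega⟩ ⟨3, by omega⟩ = 0 ∧ K1 ⟨1, by omega⟩ ⟨2, by omega⟩ = 0 ∧
      K1 ⟨1, by omega⟩ ⟨3, by omega⟩ = 0 ∧ K1 ⟨2, by omega⟩ ⟨3, by omega⟩ = m) ∧
    (K1' ⟨0, by omega⟩ ⟨1, by omega⟩ = 0 ∧ K1' ⟨0, by omega⟩ ⟨2, by omega⟩ = p ∧
      K1' ⟨0, by omega⟩ ⟨3, by omega⟩ = 0 ∧ K1' ⟨1, by omega⟩ ⟨2, by omega⟩ = 0 ∧
      K1' ⟨1, by omega⟩ ⟨3, by omega⟩ = m ∧ K1' ⟨2, by omega⟩ ⟨3, by omega⟩ = 0) := by
  have hne : ∀ a b : ℕ, ∀ (ha : a < k) (hb : b < k), a ≠ b → (⟨a, ha⟩ : Fin k) ≠ ⟨b, hb⟩ := by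
    intro a b ha hb hab h
    exact hab (Fin.mk.inj_iff.1 h)
  have r0 := rels hk hpm h1 h2 ht0 ht1 hE hF ⟨0, by omega⟩
  have r1 := rels hk hpm h1 h2 ht0 ht1 hE hF ⟨1, by omega⟩
  have r2 := rels hk hpm h1 h2 ht0 ht1 hE hF ⟨2, by omega⟩
  have r3 := rels hk hpm h1 h2 ht0 ht1 hE hF ⟨3, by omega⟩
  have a1 := areaf h1 1 1 p (-m) (hne 1 2 (by omega) (by omega) (by omega))
    (hne 0 3 (by omega) (by omega) (by omega))
  have a2 := areaf h1 1 (-1) p m (hne 1 2 (by omega) (by omega) (by omega))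
    (hne 0 3 (by omega) (by omega) (by omega))
  have s00 := skew_diag h1 ⟨0, by omega⟩
  have s11 := skew_diag h1 ⟨1, by omega⟩
  have s22 := skew_diag h1 ⟨2, by omega⟩
  have s33 := skew_diag h1 ⟨3, by omega⟩
  have s10 := skew h1 ⟨1, by omega⟩ ⟨0, by omega⟩
  have s20 := skew h1 ⟨2, by omega⟩ ⟨0, by omega⟩
  have s30 := skew h1 ⟨3, by omega⟩ ⟨0, by omega⟩
  have s21 := skew h1 ⟨2, by omega⟩ ⟨1, by omega⟩
  have s31 := skew h1 ⟨3, by omega⟩ ⟨1, by omega⟩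
  have s32 := skew h1 ⟨3, by omega⟩ ⟨2, by omega⟩
  have h1s := zz_symm h1
  have t00 := skew_diag h1s ⟨0, by omega⟩
  have t11 := skew_diag h1s ⟨1, by omega⟩
  have t22 := skew_diag h1s ⟨2, by omega⟩
  have t33 := skew_diag h1s ⟨3, by omega⟩
  have t10 := skew h1s ⟨1, by omega⟩ ⟨0, by omega⟩
  have t20 := skew h1s ⟨2, by omega⟩ ⟨0, by omega⟩
  have t30 := skew h1s ⟨3, by omega⟩ ⟨0, by omega⟩
  have t21 := skew h1s ⟨2, by omega⟩ ⟨1, by omega⟩
  have t31 := skew h1s ⟨3, by omega⟩ ⟨1, by omega⟩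
  have t32 := skew h1s ⟨3, by omega⟩ ⟨2, by omega⟩
  simp only [s00, s11, s22, s33, s10, s20, s30, s21, s31, s32, t00, t11, t22, t33, t10, t20, t30,
    t21, t31, t32] at r0 r1 r2 r3 a1 a2
  generalize K1 ⟨0, by omega⟩ ⟨1, by omega⟩ = x01 at *
  generalize K1 ⟨0, by omega⟩ ⟨2, by omega⟩ = x02 at *
  generalize K1 ⟨0, by omega⟩ ⟨3, by omega⟩ = x03 at *
  generalize K1 ⟨1, by omega⟩ ⟨2, by omega⟩ = x12 at *
  generalize K1 ⟨1, by omega⟩ ⟨3, by omega⟩ = x13 at *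
  generalize K1 ⟨2, by omega⟩ ⟨3, by omega⟩ = x23 at *
  generalize K1' ⟨0, by omega⟩ ⟨1, by omega⟩ = y01 at *
  generalize K1' ⟨0, by omega⟩ ⟨2, by omega⟩ = y02 at *
  generalize K1' ⟨0, by omega⟩ ⟨3, by omega⟩ = y03 at *
  generalize K1' ⟨1, by omega⟩ ⟨2, by omega⟩ = y12 at *
  generalize K1' ⟨1, by omega⟩ ⟨3, by omega⟩ = y13 at *
  generalize K1' ⟨2, by omega⟩ ⟨3, by omega⟩ = y23 at *
  norm_num at r0 r1 r2 r3
  obtain ⟨q1, q2, q3, q4⟩ := r0
  obtain ⟨u1, u2, u3, u4⟩ := r1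
  obtain ⟨v1, v2, v3, v4⟩ := r2
  obtain ⟨w1, w2, w3, w4⟩ := r3
  have e02 : y02 = 2 * p - x01 := by linarith
  have e01 : y01 = -x02 := by linarith
  have e13 : y13 = 2 * m - x23 := by linarith
  have e23 : y23 = -x13 := by linarith
  have f12 : x12 = 0 := by linarith
  have g12 : y12 = 0 := by linarith
  have f03 : x03 = 0 := by
    have h : x03 * m = 0 := by linarith
    exact (mul_eq_zero.1 h).resolve_right hm
  have g03 : y03 = 0 := by
    have h : y03 * m = 0 := by linarith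
    exact (mul_eq_zero.1 h).resolve_right hm
  subst e02 e01 e13 e23
  obtain ⟨X, hX⟩ : ∃ X, X = (x01 + x02) * p + (x13 + x23) * m := ⟨_, rfl⟩
  obtain ⟨Z, hZ⟩ : ∃ Z, Z = (x01 - x02) * p + (x23 - x13) * m := ⟨_, rfl⟩
  have b1 : X ^ 2 + (2 - X) ^ 2 ≤ 2 := by
    have h3 : (x01 * 1 + x02 * 1) * p + (-x13 * 1 + -x23 * 1) * -m = X := by
      rw [hX]
      ring
    have h4 : (-x02 * 1 + (2 * p - x01) * 1) * p + (-(2 * m - x23) * 1 + -(-x13) * 1) * -m =
        2 * (p ^ 2 + m ^ 2) - X := by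
      rw [hX]
      ring
    rw [h3, h4] at a1
    have h5 : (p ^ 2 + (-m) ^ 2) * ((1 : ℝ) ^ 2 + 1 ^ 2) = 2 * (p ^ 2 + m ^ 2) := by ring
    rw [h5, hpm] at a1
    linarith
  have b2 : Z ^ 2 + (Z - 2) ^ 2 ≤ 2 := by
    have h3 : (x01 * 1 + x02 * -1) * p + (-x13 * 1 + -x23 * -1) * m = Z := by
      rw [hZ]
      ring
    have h4 : (-x02 * 1 + (2 * p - x01) * -1) * p + (-(2 * m - x23) * 1 + -(-x13) * -1) * m =
        Z - 2 * (p ^ 2 + m ^ 2) := by
      rw [hZ]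
      ring
    rw [h3, h4] at a2
    have h5 : (p ^ 2 + m ^ 2) * ((1 : ℝ) ^ 2 + (-1) ^ 2) = 2 * (p ^ 2 + m ^ 2) := by ring
    rw [h5, hpm] at a2
    linarith
  have c1 : X = 1 := by
    have h3 : (X - 1) ^ 2 ≤ 0 := by nlinarith
    have h4 := pow_eq_zero_iff (two_ne_zero) |>.1 (le_antisymm h3 (sq_nonneg _))
    linarith
  have c2 : Z = 1 := by
    have h3 : (Z - 1) ^ 2 ≤ 0 := by nlinarith
    have h4 := pow_eq_zero_iff (two_ne_zero) |>.1 (le_antisymm h3 (sq_nonneg _))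
    linarith
  rw [hX] at c1
  rw [hZ] at c2
  have d1 : (x01 + x02 - p) * p = 0 := by
    linear_combination (1 / 2) * c1 - (1 / 2) * u4 - hpm
  have d2 : (x01 - x02 - p) * p = 0 := by
    linear_combination (1 / 2) * c2 - (1 / 2) * u2 - hpm
  have d3 : (x13 + x23 - m) * m = 0 := by
    linear_combination (1 / 2) * c1 + (1 / 2) * u4
  have d4 : (x23 - x13 - m) * m = 0 := by
    linear_combination (1 / 2) * c2 + (1 / 2) * u2
  have d1' := (mul_eq_zero.1 d1).resolve_right hp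
  have d2' := (mul_eq_zero.1 d2).resolve_right hp
  have d3' := (mul_eq_zero.1 d3).resolve_right hm
  have d4' := (mul_eq_zero.1 d4).resolve_right hm
  refine ⟨⟨?_, ?_, f03, f12, ?_, ?_⟩, ?_, ?_, g03, g12, ?_, ?_⟩ <;> linarith

end ZFamAux

end Pool.Agent.P1ae5
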