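import Pool.Agent.Lib.P1ae5.ZFamB

/-!
P1ae5.ZFamC (MP_1ae5d5_an). `(KP, KQ)` is an extreme point of the body for `p m ≠ 0`, `4 ≤ k`,
`k % 4 ≠ 1`; for `m = 0` it is not an extreme point.
-/

set_option autoImplicit false

namespace Pool.Agent.P1ae5

open Finset

namespace ZFamAux

open ZExplicitAux

lemma KE_off {k : ℕ} {i j : Fin k} (h : (i.val < 4 ∧ 4 ≤ j.val) ∨ (j.val < 4 ∧ 4 ≤ i.val)) :
    KE k i j = 0 := by
  unfold KE
  split_ifs <;> first | rfl | omega

lemma KF_off {k : ℕ} {i j : Fin k} (h : (i.val < 4 ∧ 4 ≤ j.val) ∨ (j.val < 4 ∧ 4 ≤ i.val)) :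
    KF k i j = 0 := by
  unfold KF
  split_ifs <;> first | rfl | omega

lemma colE {k : ℕ} {p m : ℝ} {K1 K1' K2 K2' : Matrix (Fin k) (Fin k) ℝ} (h1 : ZZ K1 K1')
    (h2 : ZZ K2 K2') {t : ℝ} (ht0 : 0 < t) (ht1 : t < 1) (hE : KP k p m = t • K1 + (1 - t) • K2)
    {i : Fin k} (hi : 4 ≤ i.val) (hp : ∃ j, KE k j i ≠ 0) (l : Fin k) :
    K1 l i = KP k p m l i := by
  have hd : KP k p m i i = 0 := by
    rw [KP_row (Or.inl hi)]
    exact KE_diag k i
  by_cases hli : i = l
  · rw [← hli, skew_diag h1, hd]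
  have hv : ∀ j, KP k p m j i = 0 ∨ KP k p m j i = 1 ∨ KP k p m j i = -1 := by
    intro j
    rw [KP_row (Or.inr hi)]
    exact KE_vals k j i
  have hp' : ∃ j, KP k p m j i ≠ 0 := by
    obtain ⟨j, hj⟩ := hp
    exact ⟨j, by rwa [KP_row (Or.inr hi)]⟩
  rcases hv l with h | h
  · rw [h]
    exact forced_zero h1 h2 ht0 ht1 hE hd hv hp' h
  · exact forced h1 h2 ht0 ht1 hE hli h

lemma colF {k : ℕ} {p m : ℝ} {K1 K1' K2 K2' : Matrix (Fin k) (Fin k) ℝ} (h1 : ZZ K1 K1')
    (h2 : ZZ K2 K2') {t : ℝ} (ht0 : 0 < t) (ht1 : t < 1) (hF : KQ k p m = t • K1' + (1 - t) • K2')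
    {i : Fin k} (hi : 4 ≤ i.val) (hp : ∃ j, KF k j i ≠ 0) (l : Fin k) :
    K1' l i = KQ k p m l i := by
  have hd : KQ k p m i i = 0 := by
    rw [KQ_row (Or.inl hi)]
    exact KF_diag k i
  by_cases hli : i = l
  · rw [← hli, skew_diag (zz_symm h1), hd]
  have hv : ∀ j, KQ k p m j i = 0 ∨ KQ k p m j i = 1 ∨ KQ k p m j i = -1 := by
    intro j
    rw [KQ_row (Or.inr hi)]
    exact KF_vals k j i
  have hp' : ∃ j, KQ k p m j i ≠ 0 := by
    obtain ⟨j, hj⟩ := hp
    exact ⟨j, by rwa [KQ_row (Or.inr hi)]⟩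
  rcases hv l with h | h
  · rw [h]
    exact forced_zero (zz_symm h1) (zz_symm h2) ht0 ht1 hF hd hv hp' h
  · exact forced (zz_symm h1) (zz_symm h2) ht0 ht1 hF hli h

/-- solving the four relations when one of the two rows vanishes -/
lemma lowsolve {p m a0 a1 a2 a3 b0 b1 b2 b3 : ℝ} (hp : p ≠ 0) (hm : m ≠ 0)
    (r1 : a1 + a2 + (b1 + b2) = 0) (r2 : a0 * p - a3 * m + (b0 * p - b3 * m) = 0)
    (r3 : a1 - a2 - (b1 - b2) = 0) (r4 : a0 * p + a3 * m - (b0 * p + b3 * m) = 0)
    (h : (a0 = 0 ∧ a1 = 0 ∧ a2 = 0 ∧ a3 = 0) ∨ (b0 = 0 ∧ b1 = 0 ∧ b2 = 0 ∧ b3 = 0)) :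
    (a0 = 0 ∧ a1 = 0 ∧ a2 = 0 ∧ a3 = 0) ∧ (b0 = 0 ∧ b1 = 0 ∧ b2 = 0 ∧ b3 = 0) := by
  rcases h with ⟨e0, e1, e2, e3⟩ | ⟨e0, e1, e2, e3⟩
  · subst e0 e1 e2 e3
    have c0 : b0 * p = 0 := by linarith
    have c3 : b3 * m = 0 := by linarith
    exact ⟨⟨rfl, rfl, rfl, rfl⟩, (mul_eq_zero.1 c0).resolve_right hp, by linarith, by linarith,
      (mul_eq_zero.1 c3).resolve_right hm⟩
  · subst e0 e1 e2 e3
    have c0 : a0 * p = 0 := by linarith
    have c3 : a3 * m = 0 := by linarith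
    exact ⟨⟨(mul_eq_zero.1 c0).resolve_right hp, by linarith, by linarith,
      (mul_eq_zero.1 c3).resolve_right hm⟩, rfl, rfl, rfl, rfl⟩

lemma rowsum {k : ℕ} (hk : 4 ≤ k) (K : Matrix (Fin k) (Fin k) ℝ) (q : Fin k) :
    (K q ⟨0, by omega⟩ = 0 ∧ K q ⟨1, by omega⟩ = 0 ∧ K q ⟨2, by omega⟩ = 0 ∧
      K q ⟨3, by omega⟩ = 0) ↔ ∀ j : Fin k, j.val < 4 → K q j = 0 := by
  constructor
  · rintro ⟨h0, h1, h2, h3⟩ ⟨j, hj⟩ hj4
    dsimp only at hj4
    have h : j = 0 ∨ j = 1 ∨ j = 2 ∨ j = 3 := by omega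
    rcases h with h | h | h | h <;> subst h <;> assumption
  · intro h
    exact ⟨h _ (by norm_num), h _ (by norm_num), h _ (by norm_num), h _ (by norm_num)⟩

lemma low {k : ℕ} (hk : 4 ≤ k) (hk4 : k % 4 ≠ 1) {p m : ℝ} (hpm : p ^ 2 + m ^ 2 = 1)
    (hp : p ≠ 0) (hm : m ≠ 0) {K1 K1' K2 K2' : Matrix (Fin k) (Fin k) ℝ} (h1 : ZZ K1 K1')
    (h2 : ZZ K2 K2') {t : ℝ} (ht0 : 0 < t) (ht1 : t < 1) (hE : KP k p m = t • K1 + (1 - t) • K2)
    (hF : KQ k p m = t • K1' + (1 - t) • K2') (q : Fin k) (hq : 4 ≤ q.val) :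
    (∀ j : Fin k, j.val < 4 → K1 q j = 0) ∧ (∀ j : Fin k, j.val < 4 → K1' q j = 0) := by
  have r := rels hk hpm h1 h2 ht0 ht1 hE hF q
  rw [if_neg (by omega), if_neg (by omega), if_neg (by omega), if_neg (by omega),
    if_neg (by omega), if_neg (by omega), if_neg (by omega), if_neg (by omega)] at r
  obtain ⟨r1, r2, r3, r4⟩ := r
  have h : (∀ j : Fin k, j.val < 4 → K1 q j = 0) ∨ (∀ j : Fin k, j.val < 4 → K1' q j = 0) := by
    rcases KE_partner q with hpE | hpE
    · left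
      intro j hj
      rw [skew h1, colE h1 h2 ht0 ht1 hE hq hpE j, KP_row (Or.inr hq), KE_off (Or.inl ⟨hj, hq⟩),
        neg_zero]
    · right
      intro j hj
      rcases KF_partner q with hpF | hpF
      · rw [skew (zz_symm h1), colF h1 h2 ht0 ht1 hF hq hpF j, KQ_row (Or.inr hq),
          KF_off (Or.inl ⟨hj, hq⟩), neg_zero]
      · exfalso
        omega
  rw [← rowsum hk, ← rowsum hk] at h ⊢
  exact lowsolve hp hm r1 r2 r3 r4 h

lemma halfP {k : ℕ} (hk : 4 ≤ k) (hk4 : k % 4 ≠ 1) {p m : ℝ} (hpm : p ^ 2 + m ^ 2 = 1)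
    (hp : p ≠ 0) (hm : m ≠ 0) {K1 K1' K2 K2' : Matrix (Fin k) (Fin k) ℝ} (h1 : ZZ K1 K1')
    (h2 : ZZ K2 K2') {t : ℝ} (ht0 : 0 < t) (ht1 : t < 1) (hE : KP k p m = t • K1 + (1 - t) • K2)
    (hF : KQ k p m = t • K1' + (1 - t) • K2') : K1 = KP k p m ∧ K1' = KQ k p m := by
  have hz := zz_fam k hpm
  have hlow := low hk hk4 hpm hp hm h1 h2 ht0 ht1 hE hF
  obtain ⟨⟨a01, a02, a03, a12, a13, a23⟩, b01, b02, b03, b12, b13, b23⟩ :=
    entries hk hpm hp hm h1 h2 ht0 ht1 hE hF
  have hKE : ∀ l i, K1 l i = KP k p m l i := by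
    intro l i
    by_cases hl : l.val < 4
    · by_cases hi : i.val < 4
      · obtain ⟨l, hlk⟩ := l
        obtain ⟨i, hik⟩ := i
        dsimp only at hl hi
        have hl' : l = 0 ∨ l = 1 ∨ l = 2 ∨ l = 3 := by omega
        rcases hl' with h | h | h | h <;> subst h
        · have hi' : i = 0 ∨ i = 1 ∨ i = 2 ∨ i = 3 := by omega
          rcases hi' with h | h | h | h <;> subst h
          · rw [skew_diag h1, skew_diag hz]
          · rw [a01, P1 hk, if_pos rfl]
          · rw [a02, P2 hk, if_neg (by norm_num)]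
          · rw [a03, P3 hk, if_neg (by norm_num)]
        · have hi' : i = 0 ∨ i = 1 ∨ i = 2 ∨ i = 3 := by omega
          rcases hi' with h | h | h | h <;> subst h
          · rw [skew h1, a01, P0 hk, if_pos rfl]
          · rw [skew_diag h1, skew_diag hz]
          · rw [a12, P2 hk, if_neg (by norm_num)]
          · rw [a13, P3 hk, if_neg (by norm_num)]
        · have hi' : i = 0 ∨ i = 1 ∨ i = 2 ∨ i = 3 := by omega
          rcases hi' with h | h | h | h <;> subst h
          · rw [skew h1, a02, P0 hk, if_neg (by norm_num), neg_zero]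
          · rw [skew h1, a12, P1 hk, if_neg (by norm_num), neg_zero]
          · rw [skew_diag h1, skew_diag hz]
          · rw [a23, P3 hk, if_pos rfl]
        · have hi' : i = 0 ∨ i = 1 ∨ i = 2 ∨ i = 3 := by omega
          rcases hi' with h | h | h | h <;> subst h
          · rw [skew h1, a03, P0 hk, if_neg (by norm_num), neg_zero]
          · rw [skew h1, a13, P1 hk, if_neg (by norm_num), neg_zero]
          · rw [skew h1, a23, P2 hk, if_pos rfl]
          · rw [skew_diag h1, skew_diag hz]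
      · push Not at hi
        rw [skew h1, (hlow i hi).1 l hl, KP_row (Or.inr hi), KE_off (Or.inl ⟨hl, hi⟩), neg_zero]
    · push Not at hl
      by_cases hi : i.val < 4
      · rw [(hlow l hl).1 i hi, KP_row (Or.inl hl), KE_off (Or.inr ⟨hi, hl⟩)]
      · push Not at hi
        rcases KE_partner i with hq | hq
        · exact colE h1 h2 ht0 ht1 hE hi hq l
        · rcases KE_partner l with hr | hr
          · rw [skew h1, colE h1 h2 ht0 ht1 hE hl hr i, skew hz l i]
          · have hil : i = l := Fin.ext (by omega)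
            rw [hil, skew_diag h1, skew_diag hz]
  refine ⟨by ext l i; exact hKE l i, ?_⟩
  ext l i
  have h1s := zz_symm h1
  have hzs := zz_symm hz
  by_cases hl : l.val < 4
  · by_cases hi : i.val < 4
    · obtain ⟨l, hlk⟩ := l
      obtain ⟨i, hik⟩ := i
      dsimp only at hl hi
      have hl' : l = 0 ∨ l = 1 ∨ l = 2 ∨ l = 3 := by omega
      rcases hl' with h | h | h | h <;> subst h
      · have hi' : i = 0 ∨ i = 1 ∨ i = 2 ∨ i = 3 := by omega
        rcases hi' with h | h | h | h <;> subst h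
        · rw [skew_diag h1s, skew_diag hzs]
        · rw [b01, Q1 hk, if_neg (by norm_num)]
        · rw [b02, Q2 hk, if_pos rfl]
        · rw [b03, Q3 hk, if_neg (by norm_num)]
      · have hi' : i = 0 ∨ i = 1 ∨ i = 2 ∨ i = 3 := by omega
        rcases hi' with h | h | h | h <;> subst h
        · rw [skew h1s, b01, Q0 hk, if_neg (by norm_num), neg_zero]
        · rw [skew_diag h1s, skew_diag hzs]
        · rw [b12, Q2 hk, if_neg (by norm_num)]
        · rw [b13, Q3 hk, if_pos rfl]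
      · have hi' : i = 0 ∨ i = 1 ∨ i = 2 ∨ i = 3 := by omega
        rcases hi' with h | h | h | h <;> subst h
        · rw [skew h1s, b02, Q0 hk, if_pos rfl]
        · rw [skew h1s, b12, Q1 hk, if_neg (by norm_num), neg_zero]
        · rw [skew_diag h1s, skew_diag hzs]
        · rw [b23, Q3 hk, if_neg (by norm_num)]
      · have hi' : i = 0 ∨ i = 1 ∨ i = 2 ∨ i = 3 := by omega
        rcases hi' with h | h | h | h <;> subst h
        · rw [skew h1s, b03, Q0 hk, if_neg (by norm_num), neg_zero]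
        · rw [skew h1s, b13, Q1 hk, if_pos rfl]
        · rw [skew h1s, b23, Q2 hk, if_neg (by norm_num), neg_zero]
        · rw [skew_diag h1s, skew_diag hzs]
    · push Not at hi
      rw [skew h1s, (hlow i hi).2 l hl, KQ_row (Or.inr hi), KF_off (Or.inl ⟨hl, hi⟩), neg_zero]
  · push Not at hl
    by_cases hi : i.val < 4
    · rw [(hlow l hl).2 i hi, KQ_row (Or.inl hl), KF_off (Or.inr ⟨hi, hl⟩)]
    · push Not at hi
      rcases KF_partner i with hq | hq
      · exact colF h1 h2 ht0 ht1 hF hi hq l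
      · rcases KF_partner l with hr | hr
        · rw [skew h1s, colF h1 h2 ht0 ht1 hF hl hr i, skew hzs l i]
        · by_cases hil : i = l
          · rw [hil, skew_diag h1s, skew_diag hzs]
          · have hne : i.val ≠ l.val := fun h6 => hil (Fin.ext h6)
            have hlk := l.isLt
            have hik := i.isLt
            have h5 : KE k l i = 1 ∨ KE k l i = -1 := by
              unfold KE
              split_ifs with h6 h7
              · exact Or.inl rfl
              · exact Or.inr rfl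
              · exfalso
                omega
            have h6 := entry h1 hil
            rw [hKE l i, KP_row (Or.inl hl)] at h6
            have h7 : KE k l i ^ 2 = 1 := by
              rcases h5 with h | h <;> rw [h] <;> norm_num
            rw [h7] at h6
            have h8 : K1' l i ^ 2 ≤ 0 := by linarith
            have h9 : K1' l i = 0 :=
              pow_eq_zero_iff (two_ne_zero) |>.1 (le_antisymm h8 (sq_nonneg _))
            rw [h9, KQ_row (Or.inl hl)]
            symm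
            unfold KF
            split_ifs <;> first | rfl | omega

end ZFamAux

open ZFamAux in
/-- the extreme points -/
theorem extr_fam {k : ℕ} (hk : 4 ≤ k) (hk4 : k % 4 ≠ 1) {p m : ℝ} (hpm : p ^ 2 + m ^ 2 = 1)
    (hp : p ≠ 0) (hm : m ≠ 0) : ExtrZZ (KP k p m) (KQ k p m) := by
  refine ⟨zz_fam k hpm, ?_⟩
  intro K1 K1' K2 K2' h1 h2 t ht0 ht1 hE hF
  refine ⟨halfP hk hk4 hpm hp hm h1 h2 ht0 ht1 hE hF, ?_⟩
  refine halfP hk hk4 hpm hp hm h2 h1 (t := 1 - t) (by linarith) (by linarith) ?_ ?_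
  · rw [sub_sub_cancel, add_comm]
    exact hE
  · rw [sub_sub_cancel, add_comm]
    exact hF

open ZFamAux ZExplicitAux in
/-- the limit is not an extreme point -/
theorem not_extr_fam {k : ℕ} (hk : 4 ≤ k) : ¬ ExtrZZ (KP k 1 0) (KQ k 1 0) := by
  rintro ⟨_, h⟩
  have h1 := h (KP k 1 1) (KQ k 1 (-1)) (KP k 1 (-1)) (KQ k 1 1) (zz_gen k bl_one)
    (zz_gen k bl_two) (1 / 2) (by norm_num) (by norm_num) (by
      ext i j
      simp only [Matrix.add_apply, Matrix.smul_apply, smul_eq_mul]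
      unfold KP
      split_ifs <;> ring) (by
      ext i j
      simp only [Matrix.add_apply, Matrix.smul_apply, smul_eq_mul]
      unfold KQ
      split_ifs <;> ring)
  have h2 := congrFun (congrFun h1.1.1 ⟨2, by omega⟩) ⟨3, by omega⟩
  rw [P3 hk, P3 hk, if_pos rfl, if_pos rfl] at h2
  norm_num at h2

end Pool.Agent.P1ae5
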