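import Pool.Agent.Lib.P1ae5.ZFiveC

/-!
P1ae5.ZFiveD (MP_1ae5d5_an). `(KR, KS)` is not an extreme point of the body for `p = 1`, `m = 0`: the
pairs `(KR ± e_34, KS)` are in the body.
-/

set_option autoImplicit false

namespace Pool.Agent.P1ae5

open Finset

namespace ZFiveAux

open ZExplicitAux ZFamAux ZMemberAux

/-- the form `e_34` -/
def EE (k : ℕ) : Matrix (Fin k) (Fin k) ℝ := fun i j =>
  if i.val = 3 ∧ j.val = 4 then 1 else if i.val = 4 ∧ j.val = 3 then -1 else 0

lemma rdot_sq_add {k : ℕ} (v w : RV k) (a : ℝ) :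
    rdot (v + a • w) (v + a • w) = rdot v v + 2 * a * rdot v w + a ^ 2 * rdot w w := by
  unfold rdot
  simp only [Pi.add_apply, Pi.smul_apply, smul_eq_mul]
  rw [Finset.mul_sum, Finset.mul_sum, ← Finset.sum_add_distrib, ← Finset.sum_add_distrib]
  apply Finset.sum_congr rfl
  intro i _
  ring

lemma zz_of_norm {k : ℕ} {K K' : Matrix (Fin k) (Fin k) ℝ} (hs : SK K K')
    (h : ∀ (c s : ℝ) (x : RV k), rdot (c • K.mulVec x + s • K'.mulVec x)
      (c • K.mulVec x + s • K'.mulVec x) ≤ (c ^ 2 + s ^ 2) * rdot x x) : ZZ K K' := by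
  refine ⟨hs, ?_⟩
  intro x y ⟨hx, hy, _⟩
  obtain ⟨a, ha⟩ : ∃ a, a = rdot (K.mulVec x) y := ⟨_, rfl⟩
  obtain ⟨r, hr⟩ : ∃ r, r = rdot (K'.mulVec x) y := ⟨_, rfl⟩
  rw [← ha, ← hr]
  have h1 : rdot (a • K.mulVec x + r • K'.mulVec x) y = a ^ 2 + r ^ 2 := by
    rw [ZMemberAux.rdot_add_left, ZMemberAux.rdot_smul_left, ZMemberAux.rdot_smul_left, ← ha, ← hr]
    ring
  have h2 := sum_mul_sq_le_sq_mul_sq univ (a • K.mulVec x + r • K'.mulVec x) y
  have h3 := h a r x
  rw [hx, mul_one] at h3
  have h4 : ∑ i : Fin k, y i ^ 2 = 1 := by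
    rw [← hy]
    unfold rdot
    apply Finset.sum_congr rfl
    intro i _
    ring
  have h5 : ∑ i : Fin k, (a • K.mulVec x + r • K'.mulVec x) i ^ 2 =
      rdot (a • K.mulVec x + r • K'.mulVec x) (a • K.mulVec x + r • K'.mulVec x) := by
    unfold rdot
    apply Finset.sum_congr rfl
    intro i _
    ring
  change rdot (a • K.mulVec x + r • K'.mulVec x) y ^ 2 ≤ _ at h2
  rw [h1, h4, h5, mul_one] at h2
  have h6 := h2.trans h3
  by_contra h7
  push Not at h7
  nlinarith

lemma five_plus {k : ℕ} (hk : 5 ≤ k) {u : ℝ} (hu : u ^ 2 ≤ 1) :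
    ZZ (KR k 1 0 + u • EE k) (KS k 1 0) := by
  have hz := zz_five k (p := 1) (m := 0) (by norm_num)
  have hne : (⟨3, by omega⟩ : Fin k) ≠ ⟨4, by omega⟩ := by
    intro h
    exact absurd (Fin.mk.inj_iff.1 h) (by norm_num)
  refine zz_of_norm ⟨?_, hz.1.2⟩ ?_
  · ext i j
    have h1 := skew hz j i
    rw [Matrix.transpose_apply, Matrix.neg_apply, Matrix.add_apply, Matrix.add_apply,
      Matrix.smul_apply, Matrix.smul_apply, h1]
    have h2 : EE k j i = -EE k i j := by
      unfold EE
      split_ifs <;> first | (exfalso; omega) | norm_num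
    rw [h2]
    simp only [smul_eq_mul]
    ring
  · intro c s x
    obtain ⟨i3, hi3⟩ : ∃ i3 : Fin k, i3 = ⟨3, by omega⟩ := ⟨_, rfl⟩
    obtain ⟨i4, hi4⟩ : ∃ i4 : Fin k, i4 = ⟨4, by omega⟩ := ⟨_, rfl⟩
    have h34 : i3 ≠ i4 := by
      rw [hi3, hi4]
      exact hne
    obtain ⟨v, hv⟩ : ∃ v, v = c • (KR k 1 0).mulVec x + s • (KS k 1 0).mulVec x := ⟨_, rfl⟩
    have hR3 : ∀ l, KR k 1 0 l i3 = 0 := by
      intro l
      rw [hi3, R3 hk]
      split_ifs <;> norm_num
    have hR4 : ∀ l, KR k 1 0 l i4 = 0 := by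
      intro l
      rw [hi4, R4 hk]
      split_ifs <;> norm_num
    have hS3 : ∀ l, KS k 1 0 l i3 = 0 := by
      intro l
      rw [hi3, S3 hk]
      split_ifs <;> norm_num
    have hS4 : ∀ l, KS k 1 0 l i4 = 0 := by
      intro l
      rw [hi4, S4 hk]
      split_ifs <;> norm_num
    have hEx : (EE k).mulVec x = fv (x i4) (-x i3) i3 i4 := by
      funext l
      unfold Matrix.mulVec dotProduct fv
      by_cases hl3 : l = i3
      · rw [if_pos hl3, hl3, Finset.sum_eq_single i4]
        · unfold EE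
          rw [hi3, hi4]
          norm_num
        · intro j _ hj
          have : j.val ≠ 4 := by
            intro h
            apply hj
            rw [hi4]
            exact Fin.ext h
          unfold EE
          rw [hi3]
          dsimp only
          rw [if_neg (by omega), if_neg (by omega), zero_mul]
        · intro h
          exact absurd (Finset.mem_univ _) h
      · rw [if_neg hl3]
        by_cases hl4 : l = i4
        · rw [if_pos hl4, hl4, Finset.sum_eq_single i3]
          · unfold EE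
            rw [hi3, hi4]
            norm_num
          · intro j _ hj
            have : j.val ≠ 3 := by
              intro h
              apply hj
              rw [hi3]
              exact Fin.ext h
            unfold EE
            rw [hi4]
            dsimp only
            rw [if_neg (by omega), if_neg (by omega), zero_mul]
          · intro h
            exact absurd (Finset.mem_univ _) h
        · rw [if_neg hl4]
          have a3 : l.val ≠ 3 := by
            intro h
            apply hl3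
            rw [hi3]
            exact Fin.ext h
          have a4 : l.val ≠ 4 := by
            intro h
            apply hl4
            rw [hi4]
            exact Fin.ext h
          apply Finset.sum_eq_zero
          intro j _
          unfold EE
          dsimp only
          rw [if_neg (by omega), if_neg (by omega), zero_mul]
    have h1 : c • (KR k 1 0 + u • EE k).mulVec x + s • (KS k 1 0).mulVec x =
        v + (c * u) • fv (x i4) (-x i3) i3 i4 := by
      rw [Matrix.add_mulVec, Matrix.smul_mulVec, hEx, hv]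
      module
    obtain ⟨x', hx'⟩ : ∃ x', x' = x - fv (x i3) (x i4) i3 i4 := ⟨_, rfl⟩
    have hR0 : (KR k 1 0).mulVec (fv (x i3) (x i4) i3 i4) = 0 := by
      funext l
      rw [mulVec_fv _ _ _ h34, hR3, hR4, zero_mul, zero_mul, add_zero]
      rfl
    have hS0 : (KS k 1 0).mulVec (fv (x i3) (x i4) i3 i4) = 0 := by
      funext l
      rw [mulVec_fv _ _ _ h34, hS3, hS4, zero_mul, zero_mul, add_zero]
      rfl
    have hv2 : v = c • (KR k 1 0).mulVec x' + s • (KS k 1 0).mulVec x' := by
      rw [hx', Matrix.mulVec_sub, Matrix.mulVec_sub, hR0, hS0, sub_zero, sub_zero, hv]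
    have h2 := contr hz c s x'
    rw [← hv2] at h2
    have h3 : rdot x' x' = rdot x x - x i3 ^ 2 - x i4 ^ 2 := by
      have e0 : rdot (fv (x i3) (x i4) i3 i4) x = x i3 * x i3 + x i4 * x i4 := by
        rw [ZMemberAux.rdot_comm, rdot_fv _ _ _ h34]
      rw [hx', ZMemberAux.rdot_sub_left, ZMemberAux.rdot_sub_right, ZMemberAux.rdot_sub_right,
        rdot_fv _ _ _ h34, rdot_fv_fv _ _ h34, e0]
      ring
    have hv3 : v i3 = 0 := by
      rw [hv]
      show c * (KR k 1 0).mulVec x i3 + s * (KS k 1 0).mulVec x i3 = 0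
      have e1 : (KR k 1 0).mulVec x i3 = 0 := by
        unfold Matrix.mulVec dotProduct
        apply Finset.sum_eq_zero
        intro j _
        show KR k 1 0 i3 j * x j = 0
        rw [skew hz, hR3, neg_zero, zero_mul]
      have e2 : (KS k 1 0).mulVec x i3 = 0 := by
        unfold Matrix.mulVec dotProduct
        apply Finset.sum_eq_zero
        intro j _
        show KS k 1 0 i3 j * x j = 0
        rw [skew (zz_symm hz), hS3, neg_zero, zero_mul]
      rw [e1, e2]
      ring
    have hv4 : v i4 = 0 := by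
      rw [hv]
      show c * (KR k 1 0).mulVec x i4 + s * (KS k 1 0).mulVec x i4 = 0
      have e1 : (KR k 1 0).mulVec x i4 = 0 := by
        unfold Matrix.mulVec dotProduct
        apply Finset.sum_eq_zero
        intro j _
        show KR k 1 0 i4 j * x j = 0
        rw [skew hz, hR4, neg_zero, zero_mul]
      have e2 : (KS k 1 0).mulVec x i4 = 0 := by
        unfold Matrix.mulVec dotProduct
        apply Finset.sum_eq_zero
        intro j _
        show KS k 1 0 i4 j * x j = 0
        rw [skew (zz_symm hz), hS4, neg_zero, zero_mul]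
      rw [e1, e2]
      ring
    have h4 : rdot (v + (c * u) • fv (x i4) (-x i3) i3 i4)
        (v + (c * u) • fv (x i4) (-x i3) i3 i4) =
        rdot v v + (c * u) ^ 2 * (x i3 ^ 2 + x i4 ^ 2) := by
      have e1 : rdot v (fv (x i4) (-x i3) i3 i4) = 0 := by
        rw [rdot_fv _ _ _ h34, hv3, hv4]
        ring
      rw [rdot_sq_add, e1, rdot_fv_fv _ _ h34]
      ring
    rw [h1, h4]
    rw [h3] at h2
    have h5 : (c * u) ^ 2 ≤ c ^ 2 + s ^ 2 := by
      have : (c * u) ^ 2 = c ^ 2 * u ^ 2 := by ring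
      rw [this]
      nlinarith [sq_nonneg c, sq_nonneg s, mul_le_mul_of_nonneg_left hu (sq_nonneg c)]
    have h6 : (c * u) ^ 2 * (x i3 ^ 2 + x i4 ^ 2) ≤ (c ^ 2 + s ^ 2) * (x i3 ^ 2 + x i4 ^ 2) :=
      mul_le_mul_of_nonneg_right h5 (by positivity)
    linarith

end ZFiveAux

open ZFiveAux in
theorem not_extr_five {k : ℕ} (hk : 5 ≤ k) : ¬ ExtrZZ (KR k 1 0) (KS k 1 0) := by
  rintro ⟨_, h⟩
  have h1 := h (KR k 1 0 + (1 : ℝ) • EE k) (KS k 1 0) (KR k 1 0 + (-1 : ℝ) • EE k) (KS k 1 0)
    (five_plus hk (by norm_num)) (five_plus hk (by norm_num)) (1 / 2) (by norm_num) (by norm_num)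
    (by module) (by module)
  have h2 := congrFun (congrFun h1.1.1 ⟨3, by omega⟩) ⟨4, by omega⟩
  rw [Matrix.add_apply, Matrix.smul_apply] at h2
  unfold EE at h2
  norm_num at h2

end Pool.Agent.P1ae5
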