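import Pool.Agent.Lib.P1ae5.ZFamC
import Pool.Agent.Lib.P1ae5.ZFiveD
import Pool.Agent.Lib.P1ae5.AllFace
import Pool.Agent.Lib.P1ae5.Bridge
import Pool.Agent.Lib.P1ae5.StmtFam

/-!
P1ae5.ZFamD (MP_1ae5d5_an). The maps `h_Z` of the family: extreme points of `N_A`, the limit is in
`N_A` and is not an extreme point, locally uniform convergence.
-/

set_option autoImplicit false

open Metric Filter Topology

namespace Pool.Agent.P1ae5

namespace ZFamDAux

lemma herm_eq {n : ℕ} {A : Cn n →L[ℂ] Cn n} (hA : ∀ z : Cn n, (ip (A z) z).re = ‖z‖ ^ 2)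
    (z : Cn n) : herm A z = z := by
  have hS : ∀ z : Cn n, inner ℂ (herm A z - z) z = (0 : ℂ) := by
    intro z
    have h1 : inner ℂ (herm A z) z = ((ip (A z) z).re : ℂ) := by
      unfold herm
      rw [ContinuousLinearMap.smul_apply, ContinuousLinearMap.add_apply, inner_smul_left,
        inner_add_left, ContinuousLinearMap.adjoint_inner_left]
      unfold ip
      rw [← inner_conj_symm (A z) z]
      have h2 := Complex.add_conj (inner ℂ z (A z))
      rw [add_comm] at h2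
      rw [h2]
      have h5 : (starRingEnd ℂ) (2 : ℂ) = 2 := by
        have := Complex.conj_ofReal 2
        simpa using this
      simp only [one_div, map_inv₀, h5]
      push_cast
      ring
    rw [inner_sub_left, h1, hA z, inner_self_eq_norm_sq_to_K]
    push_cast
    exact sub_self _
  have h3 : (herm A - ContinuousLinearMap.id ℂ (Cn n)).toLinearMap = 0 := by
    rw [← inner_map_self_eq_zero]
    intro x
    exact hS x
  have h4 := congrArg (fun T : Cn n →ₗ[ℂ] Cn n => T z) h3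
  simp only [ContinuousLinearMap.coe_coe, ContinuousLinearMap.sub_apply,
    ContinuousLinearMap.id_apply, LinearMap.zero_apply] at h4
  exact sub_eq_zero.1 h4

lemma HZ_eq {k : ℕ} {A : Cn (k + 2) →L[ℂ] Cn (k + 2)}
    (hA : ∀ z : Cn (k + 2), (ip (A z) z).re = ‖z‖ ^ 2) (K K' : Matrix (Fin k) (Fin k) ℝ) :
    St.HZ A K K' = hZ A K K' := by
  funext z
  unfold hZ hLJ
  rw [VLJ_JZ, herm_eq hA]
  rfl

lemma cont_KT (k : ℕ) (i j : Fin k) : Continuous (fun t : ℝ => St.KT k t i j) := by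
  by_cases hk : k % 4 = 1
  · have h : (fun t : ℝ => St.KT k t i j) = fun t : ℝ => St.Kg k t i j := by
      funext t
      unfold St.KT
      rw [if_pos hk]
    rw [h]
    unfold St.Kg
    split_ifs <;> first
      | exact Real.continuous_cos
      | exact Real.continuous_cos.neg
      | exact Real.continuous_sin
      | exact Real.continuous_sin.neg
      | exact continuous_const
  · have h : (fun t : ℝ => St.KT k t i j) = fun t : ℝ => St.Kc k t i j := by
      funext t
      unfold St.KT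
      rw [if_neg hk]
    rw [h]
    unfold St.Kc
    split_ifs <;> first
      | exact Real.continuous_cos
      | exact Real.continuous_cos.neg
      | exact Real.continuous_sin
      | exact Real.continuous_sin.neg
      | exact continuous_const

lemma cont_KU (k : ℕ) (i j : Fin k) : Continuous (fun t : ℝ => St.KU k t i j) := by
  by_cases hk : k % 4 = 1
  · have h : (fun t : ℝ => St.KU k t i j) = fun t : ℝ => St.Kh k t i j := by
      funext t
      unfold St.KU
      rw [if_pos hk]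
    rw [h]
    unfold St.Kh
    split_ifs <;> first
      | exact Real.continuous_cos
      | exact Real.continuous_cos.neg
      | exact Real.continuous_sin
      | exact Real.continuous_sin.neg
      | exact continuous_const
  · have h : (fun t : ℝ => St.KU k t i j) = fun t : ℝ => St.Kd k t i j := by
      funext t
      unfold St.KU
      rw [if_neg hk]
    rw [h]
    unfold St.Kd
    split_ifs <;> first
      | exact Real.continuous_cos
      | exact Real.continuous_cos.neg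
      | exact Real.continuous_sin
      | exact Real.continuous_sin.neg
      | exact continuous_const

lemma hco {k : ℕ} (i : Fin (k + 2)) :
    Continuous (fun p : ℝ × EuclideanSpace ℂ (Fin (k + 2)) => p.2 i) :=
  (EuclideanSpace.proj (𝕜 := ℂ) i).continuous.comp continuous_snd

lemma c0 (k : ℕ) : Continuous (fun p : ℝ × EuclideanSpace ℂ (Fin (k + 2)) => St.qn p.2) := by
  unfold St.qn
  exact continuous_finsetSum _ fun i _ => (hco i).pow 2

lemma c1 (k : ℕ) : Continuous (fun p : ℝ × EuclideanSpace ℂ (Fin (k + 2)) =>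
    -(Complex.I * ∑ j : Fin k, p.2 j.succ.succ ^ 2)) := by
  have h : Continuous (fun p : ℝ × EuclideanSpace ℂ (Fin (k + 2)) =>
      ∑ j : Fin k, p.2 j.succ.succ ^ 2) :=
    continuous_finsetSum _ fun i _ => (hco i.succ.succ).pow 2
  exact (continuous_const.mul h).neg

lemma c2 (k : ℕ) (j : Fin k) : Continuous (fun p : ℝ × EuclideanSpace ℂ (Fin (k + 2)) =>
    Complex.I * (p.2 1 * p.2 j.succ.succ +
        ∑ m : Fin k, (p.2 0 * ((St.KT k p.1 j m : ℝ) : ℂ) + p.2 1 * ((St.KU k p.1 j m : ℝ) : ℂ)) *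
          p.2 m.succ.succ)) := by
  have h1 : ∀ m : Fin k, Continuous (fun p : ℝ × EuclideanSpace ℂ (Fin (k + 2)) =>
      (p.2 0 * ((St.KT k p.1 j m : ℝ) : ℂ) + p.2 1 * ((St.KU k p.1 j m : ℝ) : ℂ)) *
          p.2 m.succ.succ) := by
    intro m
    have hc : Continuous (fun p : ℝ × EuclideanSpace ℂ (Fin (k + 2)) =>
        ((St.KT k p.1 j m : ℝ) : ℂ)) :=
      Complex.continuous_ofReal.comp ((cont_KT k j m).comp continuous_fst)
    have hd : Continuous (fun p : ℝ × EuclideanSpace ℂ (Fin (k + 2)) =>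
        ((St.KU k p.1 j m : ℝ) : ℂ)) :=
      Complex.continuous_ofReal.comp ((cont_KU k j m).comp continuous_fst)
    exact (((hco 0).mul hc).add ((hco 1).mul hd)).mul (hco m.succ.succ)
  have h2 : Continuous (fun p : ℝ × EuclideanSpace ℂ (Fin (k + 2)) =>
      ∑ m : Fin k, (p.2 0 * ((St.KT k p.1 j m : ℝ) : ℂ) + p.2 1 * ((St.KU k p.1 j m : ℝ) : ℂ)) *
          p.2 m.succ.succ) := continuous_finsetSum _ fun m _ => h1 m
  exact continuous_const.mul (((hco 1).mul (hco j.succ.succ)).add h2)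

/-- the second part of `VZ` -/
noncomputable def gv (k : ℕ) (p : ℝ × EuclideanSpace ℂ (Fin (k + 2))) : Fin (k + 2) → ℂ :=
  Fin.cons (St.qn p.2)
    (Fin.cons (-(Complex.I * ∑ j : Fin k, p.2 j.succ.succ ^ 2))
      (fun j : Fin k => Complex.I * (p.2 1 * p.2 j.succ.succ +
        ∑ m : Fin k, (p.2 0 * ((St.KT k p.1 j m : ℝ) : ℂ) + p.2 1 * ((St.KU k p.1 j m : ℝ) : ℂ)) *
          p.2 m.succ.succ)))

lemma cont_gv (k : ℕ) : Continuous (gv k) := by
  refine continuous_pi ?_
  intro i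
  induction i using Fin.cases with
  | zero => exact c0 k
  | succ j =>
    induction j using Fin.cases with
    | zero => exact c1 k
    | succ l => exact c2 k l

lemma VZ_gv (k : ℕ) (p : ℝ × EuclideanSpace ℂ (Fin (k + 2))) :
    St.VZ (St.KT k p.1) (St.KU k p.1) p.2 = p.2 0 • p.2 + WithLp.toLp 2 (gv k p) := rfl

lemma cont_VZ (k : ℕ) : Continuous (fun p : ℝ × EuclideanSpace ℂ (Fin (k + 2)) =>
    St.VZ (St.KT k p.1) (St.KU k p.1) p.2) := by
  have h1 : Continuous (fun p : ℝ × EuclideanSpace ℂ (Fin (k + 2)) =>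
      (WithLp.toLp 2 (gv k p) : EuclideanSpace ℂ (Fin (k + 2)))) :=
    (PiLp.continuous_toLp 2 _).comp (cont_gv k)
  have h2 : Continuous (fun p : ℝ × EuclideanSpace ℂ (Fin (k + 2)) => p.2 0 • p.2) :=
    (hco 0).smul continuous_snd
  simp only [VZ_gv]
  exact h2.add h1


lemma ne_S {k : ℕ} {r : ℝ} (hr : r < 1) (p : ℝ × EuclideanSpace ℂ (Fin (k + 2)))
    (hp : p ∈ (Set.univ : Set ℝ) ×ˢ closedBall (0 : EuclideanSpace ℂ (Fin (k + 2))) r) :
    1 - St.qn p.2 ≠ 0 := by
  have h1 : p.2 ∈ ball (0 : Cn (k + 2)) 1 := by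
    have h2 := hp.2
    rw [mem_closedBall] at h2
    rw [mem_ball]
    exact lt_of_le_of_lt h2 hr
  have h3 := one_sub_qq_ne h1
  exact h3

lemma cont_HZ {k : ℕ} (A : EuclideanSpace ℂ (Fin (k + 2)) →L[ℂ] EuclideanSpace ℂ (Fin (k + 2)))
    {r : ℝ} (hr : r < 1) :
    ContinuousOn (fun p : ℝ × EuclideanSpace ℂ (Fin (k + 2)) =>
      St.HZ A (St.KT k p.1) (St.KU k p.1) p.2)
      ((Set.univ : Set ℝ) ×ˢ closedBall (0 : EuclideanSpace ℂ (Fin (k + 2))) r) := by
  have hq := c0 k
  have ha : Continuous (fun p : ℝ × EuclideanSpace ℂ (Fin (k + 2)) => 1 + St.qn p.2) :=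
    continuous_const.add hq
  have hb : Continuous (fun p : ℝ × EuclideanSpace ℂ (Fin (k + 2)) => 1 - St.qn p.2) :=
    continuous_const.sub hq
  have h1 : ContinuousOn (fun p : ℝ × EuclideanSpace ℂ (Fin (k + 2)) =>
      (1 + St.qn p.2) / (1 - St.qn p.2))
      ((Set.univ : Set ℝ) ×ˢ closedBall (0 : EuclideanSpace ℂ (Fin (k + 2))) r) :=
    ha.continuousOn.div hb.continuousOn (ne_S hr)
  have h2 : ContinuousOn (fun p : ℝ × EuclideanSpace ℂ (Fin (k + 2)) =>
      1 / (1 - St.qn p.2))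
      ((Set.univ : Set ℝ) ×ˢ closedBall (0 : EuclideanSpace ℂ (Fin (k + 2))) r) :=
    continuousOn_const.div hb.continuousOn (ne_S hr)
  have h3 : ContinuousOn (fun p : ℝ × EuclideanSpace ℂ (Fin (k + 2)) =>
      ((1 + St.qn p.2) / (1 - St.qn p.2)) • p.2)
      ((Set.univ : Set ℝ) ×ˢ closedBall (0 : EuclideanSpace ℂ (Fin (k + 2))) r) :=
    h1.smul continuous_snd.continuousOn
  have h4 : ContinuousOn (fun p : ℝ × EuclideanSpace ℂ (Fin (k + 2)) =>
      (1 / (1 - St.qn p.2)) • St.VZ (St.KT k p.1) (St.KU k p.1) p.2)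
      ((Set.univ : Set ℝ) ×ˢ closedBall (0 : EuclideanSpace ℂ (Fin (k + 2))) r) :=
    h2.smul (cont_VZ k).continuousOn
  have h5 : ContinuousOn (fun p : ℝ × EuclideanSpace ℂ (Fin (k + 2)) => A p.2 - p.2)
      ((Set.univ : Set ℝ) ×ˢ closedBall (0 : EuclideanSpace ℂ (Fin (k + 2))) r) :=
    ((A.continuous.comp continuous_snd).sub continuous_snd).continuousOn
  have h6 := (h3.add h4).add h5
  exact h6

lemma hz_tendsto {k : ℕ} (A : EuclideanSpace ℂ (Fin (k + 2)) →L[ℂ] EuclideanSpace ℂ (Fin (k + 2)))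
    {r : ℝ} (hr : r < 1) :
    TendstoUniformlyOn (fun t : ℝ => St.HZ A (St.KT k t) (St.KU k t))
      (St.HZ A (St.KT k 0) (St.KU k 0)) (𝓝 0) (closedBall 0 r) := by
  obtain ⟨f, hf⟩ : ∃ f : ℝ → EuclideanSpace ℂ (Fin (k + 2)) → EuclideanSpace ℂ (Fin (k + 2)),
      f = fun t => St.HZ A (St.KT k t) (St.KU k t) := ⟨_, rfl⟩
  have hc : ContinuousOn f.uncurry
      ((Set.univ : Set ℝ) ×ˢ closedBall (0 : EuclideanSpace ℂ (Fin (k + 2))) r) := by
    rw [hf]
    exact cont_HZ A hr
  have h0 : St.HZ A (St.KT k 0) (St.KU k 0) = f 0 := by rw [hf]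
  rw [← hf, h0]
  intro u hu
  have hu' := symm_le_uniformity hu
  obtain ⟨v, hv, hv2⟩ := (isCompact_closedBall (0 : EuclideanSpace ℂ (Fin (k + 2)))
    r).mem_uniformity_of_prod hc (Set.mem_univ (0 : ℝ)) hu'
  rw [nhdsWithin_univ] at hv
  filter_upwards [hv] with t ht z hz
  exact hv2 t ht z hz

end ZFamDAux

open ZFamDAux in
theorem fam_main {k : ℕ} (hk : 4 ≤ k) {A : Cn (k + 2) →L[ℂ] Cn (k + 2)}
    (hA : ∀ z : Cn (k + 2), (ip (A z) z).re = ‖z‖ ^ 2) :
    (∀ t : ℝ, 0 < t → t < Real.pi / 2 → St.IsExtr A (St.HZ A (St.KT k t) (St.KU k t))) ∧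
    St.HZ A (St.KT k 0) (St.KU k 0) ∈ St.FamN A ∧
    ¬ St.IsExtr A (St.HZ A (St.KT k 0) (St.KU k 0)) ∧
    ∀ r : ℝ, r < 1 → TendstoUniformlyOn (fun t : ℝ => St.HZ A (St.KT k t) (St.KU k t))
      (St.HZ A (St.KT k 0) (St.KU k 0)) (𝓝 0) (closedBall 0 r) := by
  have hcs : ∀ t : ℝ, Real.cos t ^ 2 + Real.sin t ^ 2 = 1 := Real.cos_sq_add_sin_sq
  have hc0 : ∀ t : ℝ, 0 < t → t < Real.pi / 2 → Real.cos t ≠ 0 := fun t ht0 ht1 =>
    (Real.cos_pos_of_mem_Ioo ⟨by linarith, ht1⟩).ne'
  have hs0 : ∀ t : ℝ, 0 < t → t < Real.pi / 2 → Real.sin t ≠ 0 := fun t ht0 ht1 =>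
    (Real.sin_pos_of_pos_of_lt_pi ht0 (by linarith [Real.pi_pos])).ne'
  have key : (∀ t : ℝ, 0 < t → t < Real.pi / 2 → ExtrZZ (St.KT k t) (St.KU k t)) ∧
      ZZ (St.KT k 0) (St.KU k 0) ∧ ¬ ExtrZZ (St.KT k 0) (St.KU k 0) := by
    by_cases hk4 : k % 4 = 1
    · have hK : ∀ t, St.KT k t = KR k (Real.cos t) (Real.sin t) := by
        intro t
        unfold St.KT
        rw [if_pos hk4]
        rfl
      have hU : ∀ t, St.KU k t = KS k (Real.cos t) (Real.sin t) := by
        intro t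
        unfold St.KU
        rw [if_pos hk4]
        rfl
      refine ⟨?_, ?_, ?_⟩
      · intro t ht0 ht1
        rw [hK, hU]
        exact extr_five (by omega) hk4 (hcs t) (hc0 t ht0 ht1) (hs0 t ht0 ht1)
      · rw [hK, hU, Real.cos_zero, Real.sin_zero]
        exact zz_five k (by norm_num)
      · rw [hK, hU, Real.cos_zero, Real.sin_zero]
        exact not_extr_five (by omega)
    · have hK : ∀ t, St.KT k t = KP k (Real.cos t) (Real.sin t) := by
        intro t
        unfold St.KT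
        rw [if_neg hk4]
        rfl
      have hU : ∀ t, St.KU k t = KQ k (Real.cos t) (Real.sin t) := by
        intro t
        unfold St.KU
        rw [if_neg hk4]
        rfl
      refine ⟨?_, ?_, ?_⟩
      · intro t ht0 ht1
        rw [hK, hU]
        exact extr_fam hk hk4 (hcs t) (hc0 t ht0 ht1) (hs0 t ht0 ht1)
      · rw [hK, hU, Real.cos_zero, Real.sin_zero]
        exact ZFamAux.zz_fam k (by norm_num)
      · rw [hK, hU, Real.cos_zero, Real.sin_zero]
        exact not_extr_fam hk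
  obtain ⟨k1, k2, k3⟩ := key
  refine ⟨?_, ?_, ?_, fun r hr => hz_tendsto A hr⟩
  · intro t ht0 ht1
    have h := k1 t ht0 ht1
    rw [isExtr_iff, HZ_eq hA, z_main hA h.1.1]
    exact h
  · rw [famN_eq, HZ_eq hA]
    exact (hZ_mem_iff hA k2.1).2 k2
  · rw [isExtr_iff, HZ_eq hA, z_main hA k2.1]
    exact k3

end Pool.Agent.P1ae5
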