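import Pool.Agent.Lib.P1ae5.ExplDefs

/-! Explicit skew matrices with a first block of size 5. -/

namespace Pool.Agent.P1ae5

/-- skew matrix: `p` at `(0,1)`, `-m` at `(1,3)` and `(2,4)`, and `1` at `(i, i+1)` for odd
`i ≥ 5` -/
def KR (k : ℕ) (p m : ℝ) : Matrix (Fin k) (Fin k) ℝ := fun i j =>
  if i.val < 5 ∧ j.val < 5 then
    if i.val = 0 ∧ j.val = 1 then p else if i.val = 1 ∧ j.val = 0 then -p
    else if i.val = 1 ∧ j.val = 3 then -m else if i.val = 3 ∧ j.val = 1 then m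
    else if i.val = 2 ∧ j.val = 4 then -m else if i.val = 4 ∧ j.val = 2 then m else 0
  else if j.val = i.val + 1 ∧ i.val % 2 = 1 then 1
  else if i.val = j.val + 1 ∧ j.val % 2 = 1 then -1 else 0

/-- skew matrix: `p` at `(0,2)`, `m` at `(2,3)`, `-m` at `(1,4)`, and, for `i ≥ 5`, `1` at `(i, i+2)`
if `i % 4 = 1`, `-1` at `(i, i+2)` if `i % 4 = 2` -/
def KS (k : ℕ) (p m : ℝ) : Matrix (Fin k) (Fin k) ℝ := fun i j =>
  if i.val < 5 ∧ j.val < 5 then
    if i.val = 0 ∧ j.val = 2 then p else if i.val = 2 ∧ j.val = 0 then -p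
    else if i.val = 2 ∧ j.val = 3 then m else if i.val = 3 ∧ j.val = 2 then -m
    else if i.val = 1 ∧ j.val = 4 then -m else if i.val = 4 ∧ j.val = 1 then m else 0
  else if j.val = i.val + 2 ∧ i.val % 4 = 1 then 1
  else if j.val = i.val + 2 ∧ i.val % 4 = 2 then -1
  else if i.val = j.val + 2 ∧ j.val % 4 = 1 then -1
  else if i.val = j.val + 2 ∧ j.val % 4 = 2 then 1 else 0

end Pool.Agent.P1ae5
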