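import Pool.Agent.Lib.P1ae5.ZExplicit
import Pool.Agent.Lib.P1ae5.ZFiveDefs

/-!
P1ae5.ZFiveA (MP_1ae5d5_an). The pairs `(KR, KS)` (ZFiveDefs) are in the body.
-/

set_option autoImplicit false

namespace Pool.Agent.P1ae5

open Finset

namespace ZFiveAAux

open ZExplicitAux

lemma mulVec_two {k : ℕ} (M : Matrix (Fin k) (Fin k) ℝ) (x : RV k) (i : Fin k) (a b : ℕ) (c d : ℝ)
    (h : ∀ j : Fin k, M i j = (if j.val = a then c else 0) + (if j.val = b then d else 0)) :
    M.mulVec x i = c * ext x a + d * ext x b := by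
  rw [← sum_single, ← sum_single, ← sum_add_distrib]
  unfold Matrix.mulVec dotProduct
  apply Finset.sum_congr rfl
  intro j _
  show M i j * x j = _
  rw [h j]
  ring

/-- the entries of `c KR x + s KS x` -/
def tauR {k : ℕ} (p m c s : ℝ) (x : RV k) (i : ℕ) : ℝ :=
  if i = 0 then c * (p * ext x 1) + s * (p * ext x 2)
  else if i = 1 then c * (-p * ext x 0 + -m * ext x 3) + s * (-m * ext x 4)
  else if i = 2 then c * (-m * ext x 4) + s * (-p * ext x 0 + m * ext x 3)
  else if i = 3 then c * (m * ext x 1) + s * (-m * ext x 2)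
  else if i = 4 then c * (m * ext x 2) + s * (m * ext x 1)
  else if i % 4 = 1 then c * ext x (i + 1) + s * ext x (i + 2)
  else if i % 4 = 2 then -(c * ext x (i - 1)) - s * ext x (i + 2)
  else if i % 4 = 3 then c * ext x (i + 1) - s * ext x (i - 2)
  else -(c * ext x (i - 1)) + s * ext x (i - 2)

lemma tauR_eq {k : ℕ} (p m c s : ℝ) (x : RV k) (i : Fin k) :
    c * (KR k p m).mulVec x i + s * (KS k p m).mulVec x i = tauR p m c s x i.val := by
  unfold tauR
  have hi := i.isLt
  have h4 : i.val = 0 ∨ i.val = 1 ∨ i.val = 2 ∨ i.val = 3 ∨ i.val = 4 ∨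
      (5 ≤ i.val ∧ i.val % 4 = 1) ∨ (5 ≤ i.val ∧ i.val % 4 = 2) ∨
      (5 ≤ i.val ∧ i.val % 4 = 3) ∨ (5 ≤ i.val ∧ i.val % 4 = 0) := by omega
  rcases h4 with h | h | h | h | h | ⟨h5, h⟩ | ⟨h5, h⟩ | ⟨h5, h⟩ | ⟨h5, h⟩
  · rw [if_pos h, mulVec_single (KR k p m) x i 1 p, mulVec_single (KS k p m) x i 2 p]
    · intro j
      unfold KS
      split_ifs <;> first | rfl | omega
    · intro j
      unfold KR
      split_ifs <;> first | rfl | omega
  · rw [if_neg (by omega), if_pos h, mulVec_two (KR k p m) x i 0 3 (-p) (-m),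
      mulVec_single (KS k p m) x i 4 (-m)]
    · intro j
      unfold KS
      split_ifs <;> first | rfl | omega
    · intro j
      unfold KR
      split_ifs <;> first | (exfalso; omega) | norm_num
  · rw [if_neg (by omega), if_neg (by omega), if_pos h, mulVec_single (KR k p m) x i 4 (-m),
      mulVec_two (KS k p m) x i 0 3 (-p) m]
    · intro j
      unfold KS
      split_ifs <;> first | (exfalso; omega) | norm_num
    · intro j
      unfold KR
      split_ifs <;> first | rfl | omega
  · rw [if_neg (by omega), if_neg (by omega), if_neg (by omega), if_pos h,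
      mulVec_single (KR k p m) x i 1 m, mulVec_single (KS k p m) x i 2 (-m)]
    · intro j
      unfold KS
      split_ifs <;> first | rfl | omega
    · intro j
      unfold KR
      split_ifs <;> first | rfl | omega
  · rw [if_neg (by omega), if_neg (by omega), if_neg (by omega), if_neg (by omega), if_pos h,
      mulVec_single (KR k p m) x i 2 m, mulVec_single (KS k p m) x i 1 m]
    · intro j
      unfold KS
      split_ifs <;> first | rfl | omega
    · intro j
      unfold KR
      split_ifs <;> first | rfl | omega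
  · rw [if_neg (by omega), if_neg (by omega), if_neg (by omega), if_neg (by omega),
      if_neg (by omega), if_pos h, mulVec_single (KR k p m) x i (i.val + 1) 1,
      mulVec_single (KS k p m) x i (i.val + 2) 1]
    · ring
    · intro j
      unfold KS
      split_ifs <;> first | rfl | omega
    · intro j
      unfold KR
      split_ifs <;> first | rfl | omega
  · rw [if_neg (by omega), if_neg (by omega), if_neg (by omega), if_neg (by omega),
      if_neg (by omega), if_neg (by omega), if_pos h,
      mulVec_single (KR k p m) x i (i.val - 1) (-1),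
      mulVec_single (KS k p m) x i (i.val + 2) (-1)]
    · ring
    · intro j
      unfold KS
      split_ifs <;> first | rfl | omega
    · intro j
      unfold KR
      split_ifs <;> first | rfl | omega
  · rw [if_neg (by omega), if_neg (by omega), if_neg (by omega), if_neg (by omega),
      if_neg (by omega), if_neg (by omega), if_neg (by omega), if_pos h,
      mulVec_single (KR k p m) x i (i.val + 1) 1,
      mulVec_single (KS k p m) x i (i.val - 2) (-1)]
    · ring
    · intro j
      unfold KS
      split_ifs <;> first | rfl | omega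
    · intro j
      unfold KR
      split_ifs <;> first | rfl | omega
  · rw [if_neg (by omega), if_neg (by omega), if_neg (by omega), if_neg (by omega),
      if_neg (by omega), if_neg (by omega), if_neg (by omega), if_neg (by omega),
      mulVec_single (KR k p m) x i (i.val - 1) (-1),
      mulVec_single (KS k p m) x i (i.val - 2) 1]
    · ring
    · intro j
      unfold KS
      split_ifs <;> first | rfl | omega
    · intro j
      unfold KR
      split_ifs <;> first | rfl | omega

/-- the inequality for the first block -/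
lemma first {p m : ℝ} (hpm : p ^ 2 + m ^ 2 = 1) (c s a b d e f : ℝ) :
    (c * (p * b) + s * (p * d)) ^ 2 + (c * (-p * a + -m * e) + s * (-m * f)) ^ 2 +
      (c * (-m * f) + s * (-p * a + m * e)) ^ 2 + (c * (m * b) + s * (-m * d)) ^ 2 +
      (c * (m * d) + s * (m * b)) ^ 2 ≤
      (c ^ 2 + s ^ 2) * (a ^ 2 + b ^ 2 + d ^ 2 + e ^ 2 + f ^ 2) := by
  have key : (c ^ 2 + s ^ 2) * (p ^ 2 + m ^ 2) * (a ^ 2 + b ^ 2 + d ^ 2 + e ^ 2 + f ^ 2) -
      ((c * (p * b) + s * (p * d)) ^ 2 + (c * (-p * a + -m * e) + s * (-m * f)) ^ 2 +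
      (c * (-m * f) + s * (-p * a + m * e)) ^ 2 + (c * (m * b) + s * (-m * d)) ^ 2 +
      (c * (m * d) + s * (m * b)) ^ 2) =
      p ^ 2 * (c * d - s * b) ^ 2 + (m * c * a - p * (c * e + s * f)) ^ 2 +
        (m * s * a - p * (c * f - s * e)) ^ 2 := by ring
  rw [hpm, mul_one] at key
  have h5 : 0 ≤ p ^ 2 * (c * d - s * b) ^ 2 + (m * c * a - p * (c * e + s * f)) ^ 2 +
        (m * s * a - p * (c * f - s * e)) ^ 2 := by positivity
  linarith

lemma blockR {k : ℕ} {p m : ℝ} (hpm : p ^ 2 + m ^ 2 = 1) (c s : ℝ) (x : RV k) (K : ℕ) :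
    ∑ i ∈ range (5 + 4 * K), tauR p m c s x i ^ 2 ≤
      (c ^ 2 + s ^ 2) * ∑ i ∈ range (5 + 4 * K), ext x i ^ 2 := by
  induction K with
  | zero =>
    have h : 5 + 4 * 0 = 0 + 1 + 1 + 1 + 1 + 1 := by norm_num
    rw [h]
    simp only [sum_range_succ, sum_range_zero]
    have h0 : tauR p m c s x 0 = c * (p * ext x 1) + s * (p * ext x 2) := by
      unfold tauR
      rw [if_pos rfl]
    have h1 : tauR p m c s x (0 + 1) = c * (-p * ext x 0 + -m * ext x 3) + s * (-m * ext x 4) := by
      unfold tauR
      rw [if_neg (by omega), if_pos (by omega)]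
    have h2 : tauR p m c s x (0 + 1 + 1) =
        c * (-m * ext x 4) + s * (-p * ext x 0 + m * ext x 3) := by
      unfold tauR
      rw [if_neg (by omega), if_neg (by omega), if_pos (by omega)]
    have h3 : tauR p m c s x (0 + 1 + 1 + 1) = c * (m * ext x 1) + s * (-m * ext x 2) := by
      unfold tauR
      rw [if_neg (by omega), if_neg (by omega), if_neg (by omega), if_pos (by omega)]
    have h4 : tauR p m c s x (0 + 1 + 1 + 1 + 1) = c * (m * ext x 2) + s * (m * ext x 1) := by
      unfold tauR
      rw [if_neg (by omega), if_neg (by omega), if_neg (by omega), if_neg (by omega),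
        if_pos (by omega)]
    rw [h0, h1, h2, h3, h4]
    show _ ≤ (c ^ 2 + s ^ 2) *
      (0 + ext x 0 ^ 2 + ext x 1 ^ 2 + ext x 2 ^ 2 + ext x 3 ^ 2 + ext x 4 ^ 2)
    generalize ext x 0 = a
    generalize ext x 1 = b
    generalize ext x 2 = d
    generalize ext x 3 = e
    generalize ext x 4 = f
    have h5 := first hpm c s a b d e f
    linarith
  | succ K ih =>
    have h : 5 + 4 * (K + 1) = 5 + 4 * K + 1 + 1 + 1 + 1 := by ring
    rw [h]
    simp only [sum_range_succ]
    have h0 : tauR p m c s x (5 + 4 * K) =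
        c * ext x (5 + 4 * K + 1) + s * ext x (5 + 4 * K + 2) := by
      unfold tauR
      rw [if_neg (by omega), if_neg (by omega), if_neg (by omega), if_neg (by omega),
        if_neg (by omega), if_pos (by omega)]
    have h1 : tauR p m c s x (5 + 4 * K + 1) =
        -(c * ext x (5 + 4 * K)) - s * ext x (5 + 4 * K + 3) := by
      unfold tauR
      rw [if_neg (by omega), if_neg (by omega), if_neg (by omega), if_neg (by omega),
        if_neg (by omega), if_neg (by omega), if_pos (by omega)]
      rfl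
    have h2 : tauR p m c s x (5 + 4 * K + 1 + 1) =
        c * ext x (5 + 4 * K + 3) - s * ext x (5 + 4 * K) := by
      unfold tauR
      rw [if_neg (by omega), if_neg (by omega), if_neg (by omega), if_neg (by omega),
        if_neg (by omega), if_neg (by omega), if_neg (by omega), if_pos (by omega)]
      rfl
    have h3 : tauR p m c s x (5 + 4 * K + 1 + 1 + 1) =
        -(c * ext x (5 + 4 * K + 2)) + s * ext x (5 + 4 * K + 1) := by
      unfold tauR
      rw [if_neg (by omega), if_neg (by omega), if_neg (by omega), if_neg (by omega),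
        if_neg (by omega), if_neg (by omega), if_neg (by omega), if_neg (by omega)]
      rfl
    rw [h0, h1, h2, h3]
    show _ ≤ (c ^ 2 + s ^ 2) * (∑ i ∈ range (5 + 4 * K), ext x i ^ 2 + ext x (5 + 4 * K) ^ 2 +
      ext x (5 + 4 * K + 1) ^ 2 + ext x (5 + 4 * K + 2) ^ 2 + ext x (5 + 4 * K + 3) ^ 2)
    have h5 : (c * ext x (5 + 4 * K + 1) + s * ext x (5 + 4 * K + 2)) ^ 2 +
        (-(c * ext x (5 + 4 * K)) - s * ext x (5 + 4 * K + 3)) ^ 2 +
        (c * ext x (5 + 4 * K + 3) - s * ext x (5 + 4 * K)) ^ 2 +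
        (-(c * ext x (5 + 4 * K + 2)) + s * ext x (5 + 4 * K + 1)) ^ 2 =
        (c ^ 2 + s ^ 2) * (ext x (5 + 4 * K) ^ 2 + ext x (5 + 4 * K + 1) ^ 2 +
          ext x (5 + 4 * K + 2) ^ 2 + ext x (5 + 4 * K + 3) ^ 2) := by ring
    nlinarith [ih, h5]

lemma norm_boundR {k : ℕ} {p m : ℝ} (hpm : p ^ 2 + m ^ 2 = 1) (c s : ℝ) (x : RV k) :
    ∑ i : Fin k, (c * (KR k p m).mulVec x i + s * (KS k p m).mulVec x i) ^ 2 ≤
      (c ^ 2 + s ^ 2) * rdot x x := by
  have h1 : ∑ i : Fin k, (c * (KR k p m).mulVec x i + s * (KS k p m).mulVec x i) ^ 2 =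
      ∑ i ∈ range k, tauR p m c s x i ^ 2 := by
    rw [← Fin.sum_univ_eq_sum_range (fun i => tauR p m c s x i ^ 2)]
    apply Finset.sum_congr rfl
    intro i _
    rw [tauR_eq]
  have h2 : ∑ i ∈ range k, tauR p m c s x i ^ 2 ≤
      ∑ i ∈ range (5 + 4 * k), tauR p m c s x i ^ 2 := by
    apply sum_le_sum_of_subset_of_nonneg
    · apply range_subset_range.2
      omega
    · intro i _ _
      positivity
  have h3 : ∑ i ∈ range (5 + 4 * k), ext x i ^ 2 = rdot x x := by
    unfold rdot
    have h4 : ∑ i : Fin k, x i * x i = ∑ i ∈ range k, ext x i ^ 2 := by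
      rw [← Fin.sum_univ_eq_sum_range (fun i => ext x i ^ 2)]
      apply Finset.sum_congr rfl
      intro i _
      rw [ext_of]
      ring
    rw [h4]
    symm
    apply sum_subset
    · apply range_subset_range.2
      omega
    · intro i _ hi
      rw [mem_range] at hi
      unfold ZExplicitAux.ext
      rw [dif_neg hi]
      norm_num
  rw [h1]
  have h4 := blockR hpm c s x k
  rw [h3] at h4
  exact h2.trans h4

end ZFiveAAux

open ZFiveAAux

/-- the pairs are in the body -/
theorem zz_five (k : ℕ) {p m : ℝ} (hpm : p ^ 2 + m ^ 2 = 1) : ZZ (KR k p m) (KS k p m) := by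
  refine ⟨⟨?_, ?_⟩, ?_⟩
  · ext i j
    rw [Matrix.transpose_apply, Matrix.neg_apply]
    unfold KR
    split_ifs <;> first | (exfalso; omega) | norm_num
  · ext i j
    rw [Matrix.transpose_apply, Matrix.neg_apply]
    unfold KS
    split_ifs <;> first | (exfalso; omega) | norm_num
  · intro x y ⟨hx, hy, _⟩
    obtain ⟨a, ha⟩ : ∃ a, a = rdot ((KR k p m).mulVec x) y := ⟨_, rfl⟩
    obtain ⟨r, hr⟩ : ∃ r, r = rdot ((KS k p m).mulVec x) y := ⟨_, rfl⟩
    rw [← ha, ← hr]
    have h1 : ∑ i : Fin k, (a * (KR k p m).mulVec x i + r * (KS k p m).mulVec x i) * y i =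
        a ^ 2 + r ^ 2 := by
      have h2 : ∑ i : Fin k, (a * (KR k p m).mulVec x i + r * (KS k p m).mulVec x i) * y i =
          a * rdot ((KR k p m).mulVec x) y + r * rdot ((KS k p m).mulVec x) y := by
        unfold rdot
        rw [mul_sum, mul_sum, ← sum_add_distrib]
        apply Finset.sum_congr rfl
        intro i _
        ring
      rw [h2, ← ha, ← hr]
      ring
    have h2 := sum_mul_sq_le_sq_mul_sq univ
      (fun i : Fin k => a * (KR k p m).mulVec x i + r * (KS k p m).mulVec x i) y
    rw [h1] at h2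
    have h3 := norm_boundR hpm a r x
    rw [hx, mul_one] at h3
    have h4 : ∑ i : Fin k, y i ^ 2 = 1 := by
      rw [← hy]
      unfold rdot
      apply Finset.sum_congr rfl
      intro i _
      ring
    rw [h4, mul_one] at h2
    have h5 := h2.trans h3
    by_contra h6
    push Not at h6
    nlinarith

end Pool.Agent.P1ae5
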