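import Pool.Agent.Lib.P1ae5.ZFamB
import Pool.Agent.Lib.P1ae5.ZFiveA

/-!
P1ae5.ZFiveB (MP_1ae5d5_an). `(KR, KS)` is an extreme point of the body for `p m ≠ 0`, `5 ≤ k`,
`k % 4 = 1`; it is not an extreme point for `m = 0`.
-/

set_option autoImplicit false

namespace Pool.Agent.P1ae5

open Finset

namespace ZFiveAux

open ZExplicitAux ZFamAux

section cols

variable {k : ℕ} {p m : ℝ} (hk : 5 ≤ k)

lemma R0 (l : Fin k) : KR k p m l ⟨0, by omega⟩ = if l.val = 1 then -p else 0 := by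
  unfold KR
  dsimp only
  split_ifs <;> first | rfl | omega | tauto

lemma R1 (l : Fin k) :
    KR k p m l ⟨1, by omega⟩ = if l.val = 0 then p else if l.val = 3 then m else 0 := by
  unfold KR
  dsimp only
  split_ifs <;> first | rfl | omega | tauto

lemma R2 (l : Fin k) : KR k p m l ⟨2, by omega⟩ = if l.val = 4 then m else 0 := by
  unfold KR
  dsimp only
  split_ifs <;> first | rfl | omega | tauto

lemma R3 (l : Fin k) : KR k p m l ⟨3, by omega⟩ = if l.val = 1 then -m else 0 := by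
  unfold KR
  dsimp only
  split_ifs <;> first | rfl | omega | tauto

lemma R4 (l : Fin k) : KR k p m l ⟨4, by omega⟩ = if l.val = 2 then -m else 0 := by
  unfold KR
  dsimp only
  split_ifs <;> first | rfl | omega | tauto

lemma S0 (l : Fin k) : KS k p m l ⟨0, by omega⟩ = if l.val = 2 then -p else 0 := by
  unfold KS
  dsimp only
  split_ifs <;> first | rfl | omega | tauto

lemma S1 (l : Fin k) : KS k p m l ⟨1, by omega⟩ = if l.val = 4 then m else 0 := by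
  unfold KS
  dsimp only
  split_ifs <;> first | rfl | omega | tauto

lemma S2 (l : Fin k) :
    KS k p m l ⟨2, by omega⟩ = if l.val = 0 then p else if l.val = 3 then -m else 0 := by
  unfold KS
  dsimp only
  split_ifs <;> first | rfl | omega | tauto

lemma S3 (l : Fin k) : KS k p m l ⟨3, by omega⟩ = if l.val = 2 then m else 0 := by
  unfold KS
  dsimp only
  split_ifs <;> first | rfl | omega | tauto

lemma S4 (l : Fin k) : KS k p m l ⟨4, by omega⟩ = if l.val = 1 then -m else 0 := by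
  unfold KS
  dsimp only
  split_ifs <;> first | rfl | omega | tauto

end cols

lemma relD {k : ℕ} {K K' K1 K1' K2 K2' : Matrix (Fin k) (Fin k) ℝ} (h1 : ZZ K1 K1')
    (h2 : ZZ K2 K2') {t : ℝ} (ht0 : 0 < t) (ht1 : t < 1) (hE : K = t • K1 + (1 - t) • K2)
    (hF : K' = t • K1' + (1 - t) • K2') (c s a b : ℝ) {i j : Fin k} (hij : i ≠ j)
    (u v : ℝ) {n l : Fin k} (hnl : n ≠ l)
    (hu : ∀ q : Fin k, c * (K q i * a + K q j * b) + s * (K' q i * a + K' q j * b) =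
      if q = n then u else if q = l then v else 0)
    (hc : u ^ 2 + v ^ 2 = (c ^ 2 + s ^ 2) * (a ^ 2 + b ^ 2)) (q : Fin k) :
    c * ((K1 - K) q i * a + (K1 - K) q j * b) + s * ((K1' - K') q i * a + (K1' - K') q j * b) =
      0 := by
  have h3 := rel h1 h2 ht0 ht1 hE hF c s a b hij u v hnl hu hc q
  have h4 := hu q
  simp only [Matrix.sub_apply]
  linarith

/-- the seven relations for the columns `0, ..., 4` -/
lemma rels5 {k : ℕ} (hk : 5 ≤ k) {p m : ℝ} (hpm : p ^ 2 + m ^ 2 = 1)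
    {K1 K1' K2 K2' D E : Matrix (Fin k) (Fin k) ℝ} (h1 : ZZ K1 K1')
    (h2 : ZZ K2 K2') {t : ℝ} (ht0 : 0 < t) (ht1 : t < 1) (hE : KR k p m = t • K1 + (1 - t) • K2)
    (hF : KS k p m = t • K1' + (1 - t) • K2') (hD : D = K1 - KR k p m) (hEE : E = K1' - KS k p m)
    (q : Fin k) :
    D q ⟨1, by omega⟩ = 0 ∧ E q ⟨2, by omega⟩ = 0 ∧
    D q ⟨2, by omega⟩ + E q ⟨1, by omega⟩ = 0 ∧
    D q ⟨0, by omega⟩ * p + D q ⟨3, by omega⟩ * m = 0 ∧
    E q ⟨0, by omega⟩ * p - E q ⟨3, by omega⟩ * m = 0 ∧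
    D q ⟨0, by omega⟩ * p + E q ⟨4, by omega⟩ * m = 0 ∧
    D q ⟨4, by omega⟩ * m + E q ⟨0, by omega⟩ * p = 0 := by
  subst hD hEE
  have hne : ∀ a b : ℕ, ∀ (ha : a < k) (hb : b < k), a ≠ b → (⟨a, ha⟩ : Fin k) ≠ ⟨b, hb⟩ := by
    intro a b ha hb hab h
    exact hab (Fin.mk.inj_iff.1 h)
  have g1 := relD h1 h2 ht0 ht1 hE hF 1 0 1 0 (hne 1 2 (by omega) (by omega) (by omega))
    p m (hne 0 3 (by omega) (by omega) (by omega)) (by
      intro l
      rw [R1 hk, R2 hk, S1 hk, S2 hk]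
      simp only [Fin.ext_iff]
      split_ifs <;> first | omega | ring) (by linear_combination hpm) q
  have g2 := relD h1 h2 ht0 ht1 hE hF 0 1 1 0 (hne 2 1 (by omega) (by omega) (by omega))
    p (-m) (hne 0 3 (by omega) (by omega) (by omega)) (by
      intro l
      rw [R1 hk, R2 hk, S1 hk, S2 hk]
      simp only [Fin.ext_iff]
      split_ifs <;> first | omega | ring) (by linear_combination hpm) q
  have g3 := relD h1 h2 ht0 ht1 hE hF 1 1 1 1 (hne 1 2 (by omega) (by omega) (by omega))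
    (2 * p) (2 * m) (hne 0 4 (by omega) (by omega) (by omega)) (by
      intro l
      rw [R1 hk, R2 hk, S1 hk, S2 hk]
      simp only [Fin.ext_iff]
      split_ifs <;> first | omega | ring) (by linear_combination 4 * hpm) q
  have g4 := relD h1 h2 ht0 ht1 hE hF 1 0 p m (hne 0 3 (by omega) (by omega) (by omega))
    (-1) 0 (hne 1 2 (by omega) (by omega) (by omega)) (by
      intro l
      rw [R0 hk, R3 hk, S0 hk, S3 hk]
      simp only [Fin.ext_iff]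
      split_ifs <;> first | omega | linarith) (by linear_combination -hpm) q
  have g5 := relD h1 h2 ht0 ht1 hE hF 0 1 p (-m) (hne 0 3 (by omega) (by omega) (by omega))
    (-1) 0 (hne 2 1 (by omega) (by omega) (by omega)) (by
      intro l
      rw [R0 hk, R3 hk, S0 hk, S3 hk]
      simp only [Fin.ext_iff]
      split_ifs <;> first | omega | linarith) (by linear_combination -hpm) q
  have g6 := relD h1 h2 ht0 ht1 hE hF 1 1 p m (hne 0 4 (by omega) (by omega) (by omega))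
    (-1) (-1) (hne 1 2 (by omega) (by omega) (by omega)) (by
      intro l
      rw [R0 hk, R4 hk, S0 hk, S4 hk]
      simp only [Fin.ext_iff]
      split_ifs <;> first | omega | linarith) (by linear_combination -2 * hpm) q
  have g7 := relD h1 h2 ht0 ht1 hE hF 1 (-1) p (-m) (hne 0 4 (by omega) (by omega) (by omega))
    (-1) 1 (hne 1 2 (by omega) (by omega) (by omega)) (by
      intro l
      rw [R0 hk, R4 hk, S0 hk, S4 hk]
      simp only [Fin.ext_iff]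
      split_ifs <;> first | omega | linarith) (by linear_combination -2 * hpm) q
  refine ⟨by linarith, by linarith, by linarith, by linarith, by linarith, by linarith,
    by linarith⟩

lemma skewD {k : ℕ} {K1 K1' K K' : Matrix (Fin k) (Fin k) ℝ} (h1 : ZZ K1 K1') (h : ZZ K K')
    (i j : Fin k) : (K1 - K) i j = -(K1 - K) j i := by
  rw [Matrix.sub_apply, Matrix.sub_apply, skew h1 i j, skew h i j]
  ring

/-- the differences vanish in the first block -/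
lemma block5 {k : ℕ} (hk : 5 ≤ k) {p m : ℝ} (hpm : p ^ 2 + m ^ 2 = 1) (hp : p ≠ 0) (hm : m ≠ 0)
    {K1 K1' K2 K2' D E : Matrix (Fin k) (Fin k) ℝ} (h1 : ZZ K1 K1')
    (h2 : ZZ K2 K2') {t : ℝ} (ht0 : 0 < t) (ht1 : t < 1) (hE : KR k p m = t • K1 + (1 - t) • K2)
    (hF : KS k p m = t • K1' + (1 - t) • K2') (hD : D = K1 - KR k p m)
    (hEE : E = K1' - KS k p m) :
    (D ⟨0, by omega⟩ ⟨1, by omega⟩ = 0 ∧ D ⟨0, by omega⟩ ⟨2, by omega⟩ = 0 ∧
      D ⟨0, by omega⟩ ⟨3, by omega⟩ = 0 ∧ D ⟨0, by omega⟩ ⟨4, by omega⟩ = 0 ∧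
      D ⟨1, by omega⟩ ⟨2, by omega⟩ = 0 ∧ D ⟨1, by omega⟩ ⟨3, by omega⟩ = 0 ∧
      D ⟨1, by omega⟩ ⟨4, by omega⟩ = 0 ∧ D ⟨2, by omega⟩ ⟨3, by omega⟩ = 0 ∧
      D ⟨2, by omega⟩ ⟨4, by omega⟩ = 0 ∧ D ⟨3, by omega⟩ ⟨4, by omega⟩ = 0) ∧
    (E ⟨0, by omega⟩ ⟨1, by omega⟩ = 0 ∧ E ⟨0, by omega⟩ ⟨2, by omega⟩ = 0 ∧
      E ⟨0, by omega⟩ ⟨3, by omega⟩ = 0 ∧ E ⟨0, by omega⟩ ⟨4, by omega⟩ = 0 ∧
      E ⟨1, by omega⟩ ⟨2, by omega⟩ = 0 ∧ E ⟨1, by omega⟩ ⟨3, by omega⟩ = 0 ∧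
      E ⟨1, by omega⟩ ⟨4, by omega⟩ = 0 ∧ E ⟨2, by omega⟩ ⟨3, by omega⟩ = 0 ∧
      E ⟨2, by omega⟩ ⟨4, by omega⟩ = 0 ∧ E ⟨3, by omega⟩ ⟨4, by omega⟩ = 0) := by
  have hz := zz_five k hpm
  have sD : ∀ i j, D i j = -D j i := by
    intro i j
    rw [hD]
    exact skewD h1 hz i j
  have sE : ∀ i j, E i j = -E j i := by
    intro i j
    rw [hEE]
    exact skewD (zz_symm h1) (zz_symm hz) i j
  have dD : ∀ i, D i i = 0 := by
    intro i
    have := sD i i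
    linarith
  have dE : ∀ i, E i i = 0 := by
    intro i
    have := sE i i
    linarith
  obtain ⟨a1, a2, a3, a4, a5, a6, a7⟩ :=
    rels5 hk hpm h1 h2 ht0 ht1 hE hF hD hEE ⟨0, by omega⟩
  obtain ⟨b1, b2, b3, b4, b5, b6, b7⟩ :=
    rels5 hk hpm h1 h2 ht0 ht1 hE hF hD hEE ⟨1, by omega⟩
  obtain ⟨c1, c2, c3, c4, c5, c6, c7⟩ :=
    rels5 hk hpm h1 h2 ht0 ht1 hE hF hD hEE ⟨2, by omega⟩
  obtain ⟨d1, d2, d3, d4, d5, d6, d7⟩ :=
    rels5 hk hpm h1 h2 ht0 ht1 hE hF hD hEE ⟨3, by omega⟩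
  obtain ⟨e1, e2, e3, e4, e5, e6, e7⟩ :=
    rels5 hk hpm h1 h2 ht0 ht1 hE hF hD hEE ⟨4, by omega⟩
  have s10 := sD ⟨1, by omega⟩ ⟨0, by omega⟩
  have s20 := sD ⟨2, by omega⟩ ⟨0, by omega⟩
  have s30 := sD ⟨3, by omega⟩ ⟨0, by omega⟩
  have s40 := sD ⟨4, by omega⟩ ⟨0, by omega⟩
  have s21 := sD ⟨2, by omega⟩ ⟨1, by omega⟩
  have s31 := sD ⟨3, by omega⟩ ⟨1, by omega⟩
  have s41 := sD ⟨4, by omega⟩ ⟨1, by omega⟩
  have s32 := sD ⟨3, by omega⟩ ⟨2, by omega⟩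
  have s42 := sD ⟨4, by omega⟩ ⟨2, by omega⟩
  have s43 := sD ⟨4, by omega⟩ ⟨3, by omega⟩
  have t10 := sE ⟨1, by omega⟩ ⟨0, by omega⟩
  have t20 := sE ⟨2, by omega⟩ ⟨0, by omega⟩
  have t30 := sE ⟨3, by omega⟩ ⟨0, by omega⟩
  have t40 := sE ⟨4, by omega⟩ ⟨0, by omega⟩
  have t21 := sE ⟨2, by omega⟩ ⟨1, by omega⟩
  have t31 := sE ⟨3, by omega⟩ ⟨1, by omega⟩
  have t41 := sE ⟨4, by omega⟩ ⟨1, by omega⟩
  have t32 := sE ⟨3, by omega⟩ ⟨2, by omega⟩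
  have t42 := sE ⟨4, by omega⟩ ⟨2, by omega⟩
  have t43 := sE ⟨4, by omega⟩ ⟨3, by omega⟩
  rw [dD] at a4 a6 b1 c3 d4 e7
  rw [dE] at a5 a7 b3 c2 d5 e6
  rw [s10] at b4 b6
  rw [t10] at b5 b7
  rw [s20] at c4 c6
  rw [t20] at c5 c7
  rw [s21] at c1
  rw [t21] at c3
  rw [s30] at d4 d6
  rw [t30] at d5 d7
  rw [s31] at d1
  rw [t32] at d2
  rw [s41] at e1
  rw [t42] at e2
  have mz : ∀ x y : ℝ, y ≠ 0 → x * y = 0 → x = 0 := fun x y hy h => (mul_eq_zero.1 h).resolve_right hy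
  have D01 := a1
  have E02 := a2
  have D03 := mz _ _ hm (by linarith : D ⟨0, by omega⟩ ⟨3, by omega⟩ * m = 0)
  have E03 := mz _ _ hm (by linarith : E ⟨0, by omega⟩ ⟨3, by omega⟩ * m = 0)
  have E04 := mz _ _ hm (by linarith : E ⟨0, by omega⟩ ⟨4, by omega⟩ * m = 0)
  have D04 := mz _ _ hm (by linarith : D ⟨0, by omega⟩ ⟨4, by omega⟩ * m = 0)
  have E12 := b2
  have D12 : D ⟨1, by omega⟩ ⟨2, by omega⟩ = 0 := by linarith
  rw [D01] at b4 b6
  have D13 := mz _ _ hm (by linarith : D ⟨1, by omega⟩ ⟨3, by omega⟩ * m = 0)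
  have E14 := mz _ _ hm (by linarith : E ⟨1, by omega⟩ ⟨4, by omega⟩ * m = 0)
  have D14 : D ⟨1, by omega⟩ ⟨4, by omega⟩ = 0 := by linarith
  rw [D14] at b7
  have E01 := mz _ _ hp (by linarith : E ⟨0, by omega⟩ ⟨1, by omega⟩ * p = 0)
  have D02 : D ⟨0, by omega⟩ ⟨2, by omega⟩ = 0 := by linarith
  rw [E01] at b5
  have E13 := mz _ _ hm (by linarith : E ⟨1, by omega⟩ ⟨3, by omega⟩ * m = 0)
  rw [D02] at c4 c6
  rw [E02] at c5 c7
  have D23 := mz _ _ hm (by linarith : D ⟨2, by omega⟩ ⟨3, by omega⟩ * m = 0)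
  have E23 := mz _ _ hm (by linarith : E ⟨2, by omega⟩ ⟨3, by omega⟩ * m = 0)
  have E24 := mz _ _ hm (by linarith : E ⟨2, by omega⟩ ⟨4, by omega⟩ * m = 0)
  have D24 := mz _ _ hm (by linarith : D ⟨2, by omega⟩ ⟨4, by omega⟩ * m = 0)
  rw [D03] at d6
  rw [E03] at d7
  have E34 := mz _ _ hm (by linarith : E ⟨3, by omega⟩ ⟨4, by omega⟩ * m = 0)
  have D34 := mz _ _ hm (by linarith : D ⟨3, by omega⟩ ⟨4, by omega⟩ * m = 0)
  exact ⟨⟨D01, D02, D03, D04, D12, D13, D14, D23, D24, D34⟩,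
    E01, E02, E03, E04, E12, E13, E14, E23, E24, E34⟩

end ZFiveAux

end Pool.Agent.P1ae5
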