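import Pool.Agent.Lib.P1ae5.ZFiveB

/-!
P1ae5.ZFiveC (MP_1ae5d5_an). `(KR, KS)` is an extreme point of the body for `p m ≠ 0`, `5 ≤ k`,
`k % 4 = 1`; it is not an extreme point for `m = 0`.
-/

set_option autoImplicit false

namespace Pool.Agent.P1ae5

open Finset

namespace ZFiveAux

open ZExplicitAux ZFamAux

lemma KR_vals {k : ℕ} {p m : ℝ} {i : Fin k} (hi : 5 ≤ i.val) (j : Fin k) :
    KR k p m j i = 0 ∨ KR k p m j i = 1 ∨ KR k p m j i = -1 := by
  unfold KR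
  rw [if_neg (by omega)]
  split_ifs <;> simp

lemma KS_vals {k : ℕ} {p m : ℝ} {i : Fin k} (hi : 5 ≤ i.val) (j : Fin k) :
    KS k p m j i = 0 ∨ KS k p m j i = 1 ∨ KS k p m j i = -1 := by
  unfold KS
  rw [if_neg (by omega)]
  split_ifs <;> simp

lemma KR_partner {k : ℕ} (hk4 : k % 4 = 1) {p m : ℝ} {i : Fin k} (hi : 5 ≤ i.val) :
    ∃ j, KR k p m j i ≠ 0 := by
  have hik := i.isLt
  by_cases h : i.val % 2 = 1
  · refine ⟨⟨i.val + 1, by omega⟩, ?_⟩
    unfold KR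
    dsimp only
    rw [if_neg (by omega), if_neg (by omega), if_pos (by omega)]
    norm_num
  · refine ⟨⟨i.val - 1, by omega⟩, ?_⟩
    unfold KR
    dsimp only
    rw [if_neg (by omega), if_pos (by omega)]
    norm_num

lemma KS_partner {k : ℕ} (hk4 : k % 4 = 1) {p m : ℝ} {i : Fin k} (hi : 5 ≤ i.val) :
    ∃ j, KS k p m j i ≠ 0 := by
  have hik := i.isLt
  have h4 : i.val % 4 = 0 ∨ i.val % 4 = 1 ∨ i.val % 4 = 2 ∨ i.val % 4 = 3 := by omega
  rcases h4 with h | h | h | h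
  · refine ⟨⟨i.val - 2, by omega⟩, ?_⟩
    unfold KS
    dsimp only
    rw [if_neg (by omega), if_neg (by omega), if_pos (by omega)]
    norm_num
  · refine ⟨⟨i.val + 2, by omega⟩, ?_⟩
    unfold KS
    dsimp only
    rw [if_neg (by omega), if_neg (by omega), if_neg (by omega), if_pos (by omega)]
    norm_num
  · refine ⟨⟨i.val + 2, by omega⟩, ?_⟩
    unfold KS
    dsimp only
    rw [if_neg (by omega), if_neg (by omega), if_neg (by omega), if_neg (by omega),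
      if_pos (by omega)]
    norm_num
  · refine ⟨⟨i.val - 2, by omega⟩, ?_⟩
    unfold KS
    dsimp only
    rw [if_neg (by omega), if_pos (by omega)]
    norm_num

lemma colR {k : ℕ} (hk4 : k % 4 = 1) {p m : ℝ} (hpm : p ^ 2 + m ^ 2 = 1)
    {K1 K1' K2 K2' : Matrix (Fin k) (Fin k) ℝ} (h1 : ZZ K1 K1')
    (h2 : ZZ K2 K2') {t : ℝ} (ht0 : 0 < t) (ht1 : t < 1) (hE : KR k p m = t • K1 + (1 - t) • K2)
    {i : Fin k} (hi : 5 ≤ i.val) (l : Fin k) : K1 l i = KR k p m l i := by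
  have hz := zz_five k hpm
  have hd : KR k p m i i = 0 := skew_diag hz i
  by_cases hli : i = l
  · rw [← hli, skew_diag h1, hd]
  rcases KR_vals (p := p) (m := m) hi l with h | h
  · rw [h]
    exact forced_zero h1 h2 ht0 ht1 hE hd (KR_vals hi) (KR_partner hk4 hi) h
  · exact forced h1 h2 ht0 ht1 hE hli h

lemma colS {k : ℕ} (hk4 : k % 4 = 1) {p m : ℝ} (hpm : p ^ 2 + m ^ 2 = 1)
    {K1 K1' K2 K2' : Matrix (Fin k) (Fin k) ℝ} (h1 : ZZ K1 K1')
    (h2 : ZZ K2 K2') {t : ℝ} (ht0 : 0 < t) (ht1 : t < 1) (hF : KS k p m = t • K1' + (1 - t) • K2')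
    {i : Fin k} (hi : 5 ≤ i.val) (l : Fin k) : K1' l i = KS k p m l i := by
  have hz := zz_symm (zz_five k hpm)
  have hd : KS k p m i i = 0 := skew_diag hz i
  by_cases hli : i = l
  · rw [← hli, skew_diag (zz_symm h1), hd]
  rcases KS_vals (p := p) (m := m) hi l with h | h
  · rw [h]
    exact forced_zero (zz_symm h1) (zz_symm h2) ht0 ht1 hF hd (KS_vals hi) (KS_partner hk4 hi) h
  · exact forced (zz_symm h1) (zz_symm h2) ht0 ht1 hF hli h

/-- a skew matrix with vanishing entries in the first block and vanishing further columns is `0` -/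
lemma all_zero {k : ℕ} (hk : 5 ≤ k) {D : Matrix (Fin k) (Fin k) ℝ} (sD : ∀ i j, D i j = -D j i)
    (hcol : ∀ i : Fin k, 5 ≤ i.val → ∀ l, D l i = 0)
    (h : D ⟨0, by omega⟩ ⟨1, by omega⟩ = 0 ∧ D ⟨0, by omega⟩ ⟨2, by omega⟩ = 0 ∧
      D ⟨0, by omega⟩ ⟨3, by omega⟩ = 0 ∧ D ⟨0, by omega⟩ ⟨4, by omega⟩ = 0 ∧
      D ⟨1, by omega⟩ ⟨2, by omega⟩ = 0 ∧ D ⟨1, by omega⟩ ⟨3, by omega⟩ = 0 ∧
      D ⟨1, by omega⟩ ⟨4, by omega⟩ = 0 ∧ D ⟨2, by omega⟩ ⟨3, by omega⟩ = 0 ∧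
      D ⟨2, by omega⟩ ⟨4, by omega⟩ = 0 ∧ D ⟨3, by omega⟩ ⟨4, by omega⟩ = 0)
    (l i : Fin k) : D l i = 0 := by
  obtain ⟨h01, h02, h03, h04, h12, h13, h14, h23, h24, h34⟩ := h
  have dD : ∀ i, D i i = 0 := by
    intro i
    have := sD i i
    linarith
  have hup : ∀ l i : Fin k, l.val < i.val → D l i = 0 := by
    intro l i hli
    by_cases hi : 5 ≤ i.val
    · exact hcol i hi l
    · obtain ⟨l, hlk⟩ := l
      obtain ⟨i, hik⟩ := i
      dsimp only at hli hi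
      have hi' : i = 1 ∨ i = 2 ∨ i = 3 ∨ i = 4 := by omega
      rcases hi' with h | h | h | h <;> subst h
      · have hl' : l = 0 := by omega
        subst hl'
        exact h01
      · have hl' : l = 0 ∨ l = 1 := by omega
        rcases hl' with h | h <;> subst h
        · exact h02
        · exact h12
      · have hl' : l = 0 ∨ l = 1 ∨ l = 2 := by omega
        rcases hl' with h | h | h <;> subst h
        · exact h03
        · exact h13
        · exact h23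
      · have hl' : l = 0 ∨ l = 1 ∨ l = 2 ∨ l = 3 := by omega
        rcases hl' with h | h | h | h <;> subst h
        · exact h04
        · exact h14
        · exact h24
        · exact h34
  rcases Nat.lt_trichotomy l.val i.val with h | h | h
  · exact hup l i h
  · rw [Fin.ext h]
    exact dD i
  · rw [sD, hup i l h, neg_zero]

lemma halfR {k : ℕ} (hk : 5 ≤ k) (hk4 : k % 4 = 1) {p m : ℝ} (hpm : p ^ 2 + m ^ 2 = 1)
    (hp : p ≠ 0) (hm : m ≠ 0) {K1 K1' K2 K2' : Matrix (Fin k) (Fin k) ℝ} (h1 : ZZ K1 K1')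
    (h2 : ZZ K2 K2') {t : ℝ} (ht0 : 0 < t) (ht1 : t < 1) (hE : KR k p m = t • K1 + (1 - t) • K2)
    (hF : KS k p m = t • K1' + (1 - t) • K2') : K1 = KR k p m ∧ K1' = KS k p m := by
  have hz := zz_five k hpm
  obtain ⟨hD, hEE⟩ := block5 hk hpm hp hm h1 h2 ht0 ht1 hE hF rfl rfl
  constructor
  · have h := all_zero hk (skewD h1 hz) (fun i hi l => by
      rw [Matrix.sub_apply, colR hk4 hpm h1 h2 ht0 ht1 hE hi l, sub_self]) hD
    ext l i
    have h3 := h l i
    rw [Matrix.sub_apply] at h3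
    linarith
  · have h := all_zero hk (skewD (zz_symm h1) (zz_symm hz)) (fun i hi l => by
      rw [Matrix.sub_apply, colS hk4 hpm h1 h2 ht0 ht1 hF hi l, sub_self]) hEE
    ext l i
    have h3 := h l i
    rw [Matrix.sub_apply] at h3
    linarith

end ZFiveAux

open ZFiveAux in
/-- the extreme points -/
theorem extr_five {k : ℕ} (hk : 5 ≤ k) (hk4 : k % 4 = 1) {p m : ℝ} (hpm : p ^ 2 + m ^ 2 = 1)
    (hp : p ≠ 0) (hm : m ≠ 0) : ExtrZZ (KR k p m) (KS k p m) := by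
  refine ⟨zz_five k hpm, ?_⟩
  intro K1 K1' K2 K2' h1 h2 t ht0 ht1 hE hF
  refine ⟨halfR hk hk4 hpm hp hm h1 h2 ht0 ht1 hE hF, ?_⟩
  refine halfR hk hk4 hpm hp hm h2 h1 (t := 1 - t) (by linarith) (by linarith) ?_ ?_
  · rw [sub_sub_cancel, add_comm]
    exact hE
  · rw [sub_sub_cancel, add_comm]
    exact hF

end Pool.Agent.P1ae5
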